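import Pool.Agent.Lib_helper56.SGB.Defs

/-!
# SGB block HC: numbers of representatives
-/

set_option autoImplicit false

namespace Pool.Agent.SGB

open MeasureTheory Matrix
open Pool.Agent.RS (Mt lm SLZ)
open Pool.Agent.GLQ (re unip cube slab Xp wN IN rm rr qq Lat latt Lz IsRed RY Om Box Kern IsInv Bd sp)
open Pool.Agent.SGN (md repR repL heckeT heckeA supS subS UW Wd lw nf WOk)
open scoped ENNReal

noncomputable section

/-- the matrices with a given diagonal -/
def hcS (n : ℕ) (c : Fin n → Fin n → ℕ) (d : Fin n → ℕ) : Finset (Fin n → Fin n → ℤ) :=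
  Fintype.piFinset fun i => Fintype.piFinset fun j =>
    if j < i then {0} else if j = i then {(d i : ℤ)} else Finset.Ico (0 : ℤ) (c i j)

theorem hc_diag {n k : ℕ} (hk : 1 ≤ k) (a : Fin n → Fin n → ℤ)
    (h0 : ∀ i j, 0 ≤ a i j) (hp : ∏ i, a i i = k) :
    (∀ i, (a i i).toNat ∈ k.divisors) ∧ (∀ i, ((a i i).toNat : ℤ) = a i i) ∧
      ∏ i, (a i i).toNat = k := by
  have h1 : ∀ i, ((a i i).toNat : ℤ) = a i i := fun i => Int.toNat_of_nonneg (h0 i i)
  have h2 : ∏ i, (a i i).toNat = k := by
    have : ((∏ i, (a i i).toNat : ℕ) : ℤ) = k := by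
      rw [Nat.cast_prod]
      simp only [h1]
      exact hp
    exact_mod_cast this
  refine ⟨fun i => ?_, h1, h2⟩
  rw [Nat.mem_divisors]
  refine ⟨?_, by omega⟩
  rw [← h2]
  exact Finset.dvd_prod_of_mem (fun i => (a i i).toNat) (Finset.mem_univ i)

theorem hc_card_le (m k : ℕ) (c : (Fin (m + 1) → ℕ) → Fin (m + 1) → Fin (m + 1) → ℕ)
    (R : Finset (Fin (m + 1) → Fin (m + 1) → ℤ))
    (hR : ∀ a ∈ R, (∀ i, (a i i).toNat ∈ k.divisors) ∧ ∏ i, (a i i).toNat = k ∧
      a ∈ hcS (m + 1) (c fun i => (a i i).toNat) fun i => (a i i).toNat)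
    (hc : ∀ d : Fin (m + 1) → ℕ, (∀ i, d i ∈ k.divisors) → ∏ i, d i = k →
      ∏ i, ∏ j, (if j < i then 1 else if j = i then 1 else c d i j) ≤ k ^ m) :
    R.card ≤ k ^ m * k.divisors.card ^ (m + 1) := by
  classical
  have h1 : R ⊆ ((Fintype.piFinset fun _ : Fin (m + 1) => k.divisors).filter
      fun d => ∏ i, d i = k).biUnion fun d => hcS (m + 1) (c d) d := by
    intro a ha
    obtain ⟨h1, h2, h3⟩ := hR a ha
    rw [Finset.mem_biUnion]
    refine ⟨fun i => (a i i).toNat, ?_, h3⟩
    rw [Finset.mem_filter, Fintype.mem_piFinset]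
    exact ⟨h1, h2⟩
  refine (Finset.card_le_card h1).trans ?_
  refine (Finset.card_biUnion_le_card_mul _ _ (k ^ m) ?_).trans ?_
  · intro d hd
    rw [Finset.mem_filter, Fintype.mem_piFinset] at hd
    refine le_trans (le_of_eq ?_) (hc d hd.1 hd.2)
    rw [hcS, Fintype.card_piFinset]
    refine Finset.prod_congr rfl fun i _ => ?_
    rw [Fintype.card_piFinset]
    refine Finset.prod_congr rfl fun j _ => ?_
    split_ifs
    · simp
    · simp
    · simp
  · rw [mul_comm]
    refine Nat.mul_le_mul_left _ ?_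
    refine (Finset.card_filter_le _ _).trans ?_
    rw [Fintype.card_piFinset_const]

theorem card_repR_pr (m k : ℕ) (hk : 1 ≤ k) :
    (repR (m + 1) k).card ≤ k ^ m * k.divisors.card ^ (m + 1) := by
  refine hc_card_le m k (fun d i _ => d i) _ ?_ ?_
  · intro a ha
    rw [repR, Finset.mem_filter, Fintype.mem_piFinset] at ha
    obtain ⟨ha0, ha1, ha2, ha3⟩ := ha
    have h0 : ∀ i j, 0 ≤ a i j := fun i j =>
      (Finset.mem_Icc.1 (Fintype.mem_piFinset.1 (ha0 i) j)).1
    obtain ⟨e1, e2, e3⟩ := hc_diag hk a h0 ha3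
    refine ⟨e1, e3, ?_⟩
    rw [hcS, Fintype.mem_piFinset]
    intro i
    rw [Fintype.mem_piFinset]
    intro j
    split_ifs with h1 h2
    · simpa using ha1 i j h1
    · subst h2
      simpa using (e2 j).symm
    · have h3 : i < j := lt_of_le_of_ne (not_lt.1 h1) fun h => h2 h.symm
      rw [Finset.mem_Ico, e2]
      exact ⟨h0 i j, ha2 i j h3⟩
  · intro d hd hp
    have hd1 : ∀ i, 1 ≤ d i := fun i => Nat.pos_of_mem_divisors (hd i)
    calc ∏ i, ∏ j, (if j < i then 1 else if j = i then 1 else d i)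
        ≤ ∏ i, (d i) ^ m := by
          refine Finset.prod_le_prod' fun i _ => ?_
          rw [Fin.prod_univ_succAbove _ i]
          simp only [lt_irrefl, if_false, if_true, one_mul]
          refine (Finset.prod_le_pow_card _ _ (d i) fun j _ => ?_).trans (by simp)
          split_ifs
          · exact hd1 i
          · exact hd1 i
          · exact le_refl _
      _ = k ^ m := by rw [Finset.prod_pow, hp]

theorem card_repL_pr (m k : ℕ) (hk : 1 ≤ k) :
    (repL (m + 1) k).card ≤ k ^ m * k.divisors.card ^ (m + 1) := by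
  refine hc_card_le m k (fun d _ j => d j) _ ?_ ?_
  · intro a ha
    rw [repL, Finset.mem_filter, Fintype.mem_piFinset] at ha
    obtain ⟨ha0, ha1, ha2, ha3⟩ := ha
    have h0 : ∀ i j, 0 ≤ a i j := fun i j =>
      (Finset.mem_Icc.1 (Fintype.mem_piFinset.1 (ha0 i) j)).1
    obtain ⟨e1, e2, e3⟩ := hc_diag hk a h0 ha3
    refine ⟨e1, e3, ?_⟩
    rw [hcS, Fintype.mem_piFinset]
    intro i
    rw [Fintype.mem_piFinset]
    intro j
    split_ifs with h1 h2
    · simpa using ha1 i j h1
    · subst h2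
      simpa using (e2 j).symm
    · have h3 : i < j := lt_of_le_of_ne (not_lt.1 h1) fun h => h2 h.symm
      rw [Finset.mem_Ico, e2]
      exact ⟨h0 i j, ha2 i j h3⟩
  · intro d hd hp
    have hd1 : ∀ i, 1 ≤ d i := fun i => Nat.pos_of_mem_divisors (hd i)
    calc ∏ i, ∏ j, (if j < i then 1 else if j = i then 1 else d j)
        ≤ ∏ j, (d j) ^ m := by
          rw [Finset.prod_comm]
          refine Finset.prod_le_prod' fun j _ => ?_
          rw [Fin.prod_univ_succAbove _ j]
          simp only [lt_irrefl, if_false, if_true, one_mul]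
          refine (Finset.prod_le_pow_card _ _ (d j) fun i _ => ?_).trans (by simp)
          split_ifs
          · exact hd1 j
          · exact hd1 j
          · exact le_refl _
      _ = k ^ m := by rw [Finset.prod_pow, hp]


end

end Pool.Agent.SGB

namespace Pool.Agent.SGB

alias card_repR := card_repR_pr
alias card_repL := card_repL_pr

end Pool.Agent.SGB
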