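import Pool.Agent.Lib_helper56.SGB.Defs

/-!
# SGB, block HA1: Hermite normal forms, existence
-/

set_option autoImplicit false

namespace Pool.Agent.SGB

open MeasureTheory Matrix
open Pool.Agent.RS (Mt lm SLZ)
open Pool.Agent.GLQ (re unip cube slab Xp wN IN rm rr qq Lat latt Lz IsRed RY Om Box Kern IsInv Bd sp)
open Pool.Agent.SGN (md repR repL heckeT heckeA supS subS UW Wd lw nf WOk)
open scoped ENNReal

noncomputable section

/-- the block matrix `[A, b; 0, g]` -/
def ha1_em {r : ℕ} (A : Fin r → Fin r → ℤ) (b : Fin r → ℤ) (g : ℤ) :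
    Fin (r + 1) → Fin (r + 1) → ℤ := fun i j =>
  Fin.lastCases (motive := fun _ => ℤ) (Fin.lastCases (motive := fun _ => ℤ) g (fun _ => 0) j)
    (fun i' => Fin.lastCases (motive := fun _ => ℤ) (b i') (fun j' => A i' j') j) i

@[local simp] theorem ha1_em_cc {r : ℕ} (A : Fin r → Fin r → ℤ) (b : Fin r → ℤ) (g : ℤ) (i j : Fin r) :
    ha1_em A b g i.castSucc j.castSucc = A i j := by simp [ha1_em]

@[local simp] theorem ha1_em_cl {r : ℕ} (A : Fin r → Fin r → ℤ) (b : Fin r → ℤ) (g : ℤ) (i : Fin r) :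
    ha1_em A b g i.castSucc (Fin.last r) = b i := by simp [ha1_em]

@[local simp] theorem ha1_em_lc {r : ℕ} (A : Fin r → Fin r → ℤ) (b : Fin r → ℤ) (g : ℤ) (j : Fin r) :
    ha1_em A b g (Fin.last r) j.castSucc = 0 := by simp [ha1_em]

@[local simp] theorem ha1_em_ll {r : ℕ} (A : Fin r → Fin r → ℤ) (b : Fin r → ℤ) (g : ℤ) :
    ha1_em A b g (Fin.last r) (Fin.last r) = g := by simp [ha1_em]

/-- a matrix with last row `(0, …, 0, g)` -/
theorem ha1_eq_em {r : ℕ} (M : Matrix (Fin (r + 1)) (Fin (r + 1)) ℤ) (g : ℤ)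
    (h : ∀ j, M (Fin.last r) j = if j = Fin.last r then g else 0) :
    M = Matrix.of (ha1_em (fun i j => M i.castSucc j.castSucc)
      (fun i => M i.castSucc (Fin.last r)) g) := by
  ext i j
  refine Fin.lastCases ?_ (fun i => ?_) i <;> refine Fin.lastCases ?_ (fun j => ?_) j
  · simp [h]
  · simp [h, Fin.castSucc_ne_last]
  · simp
  · simp

theorem ha1_det_em {r : ℕ} (A : Fin r → Fin r → ℤ) (b : Fin r → ℤ) (g : ℤ) :
    (Matrix.of (ha1_em A b g)).det = g * (Matrix.of A).det := by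
  rw [Matrix.det_succ_row _ (Fin.last r), Fin.sum_univ_castSucc]
  have h1 : (Matrix.of (ha1_em A b g)).submatrix (Fin.last r).succAbove (Fin.last r).succAbove =
      Matrix.of A := by
    ext i j
    simp
  rw [h1]
  simp only [Matrix.of_apply, ha1_em_lc, ha1_em_ll, mul_zero, zero_mul, Finset.sum_const_zero,
    zero_add]
  have : ((-1 : ℤ)) ^ (((Fin.last r : Fin (r + 1)) : ℕ) + ((Fin.last r : Fin (r + 1)) : ℕ)) = 1 := by
    rw [← two_mul, pow_mul]; simp
  rw [this, one_mul]

/-- reduction of the last column -/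
theorem ha1_col : ∀ (n : ℕ) (a : Fin n → Fin n → ℤ), (∀ i j, j < i → a i j = 0) →
    (∀ i, 0 < a i i) → ∀ w : Fin n → ℤ, ∃ x : Fin n → ℤ, ∀ i,
      0 ≤ w i - ∑ j, a i j * x j ∧ w i - ∑ j, a i j * x j < a i i := by
  intro n
  induction n with
  | zero => exact fun a _ _ w => ⟨w, fun i => i.elim0⟩
  | succ n ih =>
    intro a h0 h1 w
    obtain ⟨x, hx⟩ := ih (fun i j => a i.succ j.succ)
      (fun i j hij => h0 _ _ (Fin.succ_lt_succ_iff.2 hij)) (fun i => h1 _) (fun i => w i.succ)
    set u : ℤ := w 0 - ∑ j : Fin n, a 0 j.succ * x j with hu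
    refine ⟨Fin.cons (u / a 0 0) x, fun i => ?_⟩
    refine Fin.cases ?_ (fun i => ?_) i
    · rw [Fin.sum_univ_succ]
      simp only [Fin.cons_zero, Fin.cons_succ]
      have e : w 0 - (a 0 0 * (u / a 0 0) + ∑ j : Fin n, a 0 j.succ * x j) =
          u % a 0 0 := by
        rw [Int.emod_def, hu]
        ring
      rw [e]
      exact ⟨Int.emod_nonneg _ (h1 0).ne', Int.emod_lt_of_pos _ (h1 0)⟩
    · rw [Fin.sum_univ_succ]
      simp only [Fin.cons_zero, Fin.cons_succ]
      rw [h0 i.succ 0 (Fin.succ_pos i), zero_mul, zero_add]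
      exact hx i

/-- membership in `repR` -/
theorem ha1_mem {n k : ℕ} (hk : 1 ≤ k) {a : Fin n → Fin n → ℤ} (h0 : ∀ i j, j < i → a i j = 0)
    (h1 : ∀ i j, i < j → 0 ≤ a i j ∧ a i j < a i i) (h2 : ∀ i, 0 < a i i)
    (h3 : ∏ i, a i i = k) : a ∈ repR n k := by
  have h4 : ∀ i, a i i ≤ k := fun i => by
    have : a i i ∣ (k : ℤ) := h3 ▸ Finset.dvd_prod_of_mem _ (Finset.mem_univ i)
    exact Int.le_of_dvd (by exact_mod_cast hk) this
  rw [repR, Finset.mem_filter]
  refine ⟨?_, h0, fun i j hij => (h1 i j hij).2, h3⟩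
  rw [Fintype.mem_piFinset]
  intro i
  rw [Fintype.mem_piFinset]
  intro j
  rw [Finset.mem_Icc]
  rcases lt_trichotomy i j with h | h | h
  · exact ⟨(h1 i j h).1, ((h1 i j h).2.le).trans (h4 i)⟩
  · subst h
    exact ⟨(h2 i).le, h4 i⟩
  · rw [h0 i j h]
    exact ⟨le_rfl, by positivity⟩

/-- the properties of the elements of `repR` -/
theorem ha1_prop {n k : ℕ} (hk : 1 ≤ k) {a : Fin n → Fin n → ℤ} (ha : a ∈ repR n k) :
    (∀ i j, j < i → a i j = 0) ∧ (∀ i j, i < j → 0 ≤ a i j ∧ a i j < a i i) ∧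
      (∀ i, 0 < a i i) ∧ ∏ i, a i i = k := by
  rw [repR, Finset.mem_filter] at ha
  obtain ⟨h, h0, h1, h3⟩ := ha
  rw [Fintype.mem_piFinset] at h
  have h5 : ∀ i j, 0 ≤ a i j := fun i j => by
    have := h i
    rw [Fintype.mem_piFinset] at this
    exact (Finset.mem_Icc.1 (this j)).1
  refine ⟨h0, fun i j hij => ⟨h5 i j, h1 i j hij⟩, fun i => ?_, h3⟩
  refine lt_of_le_of_ne (h5 i i) fun h6 => ?_
  have : ∏ i, a i i = 0 := Finset.prod_eq_zero (Finset.mem_univ i) h6.symm
  rw [this] at h3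
  have : (k : ℤ) = 0 := h3.symm
  omega

theorem hnfR_pr {n k : ℕ} (hk : 1 ≤ k) (b : Matrix (Fin n) (Fin n) ℤ) (hb : b.det = k) :
    ∃ a ∈ repR n k, ∃ γ : SLZ n, b = Matrix.of a * γ.1 := by
  induction n generalizing k with
  | zero =>
    refine ⟨b, ha1_mem hk (fun i => i.elim0) (fun i => i.elim0) (fun i => i.elim0) ?_, 1, ?_⟩
    · rw [Matrix.det_isEmpty] at hb
      simpa using hb
    · ext i
      exact i.elim0
  | succ n ih =>
    -- the last row
    obtain ⟨δ, g, hg, hv⟩ : ∃ (δ : SLZ (n + 1)) (g : ℤ), 0 < g ∧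
        b (Fin.last n) = g • Pool.Agent.RS.lrow δ := by
      have hv0 : b (Fin.last n) ≠ 0 := by
        intro h
        have : b.det = 0 := Matrix.det_eq_zero_of_row_eq_zero (Fin.last n) fun j => congrFun h j
        rw [this] at hb
        have : (k : ℤ) = 0 := hb.symm
        omega
      rcases Nat.eq_zero_or_pos n with rfl | hn
      · refine ⟨1, b 0 0, ?_, ?_⟩
        · have : b.det = b 0 0 := Matrix.det_fin_one b
          rw [← this, hb]
          exact_mod_cast hk
        · ext j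
          have hj : j = 0 := Fin.fin_one_eq_zero j
          subst hj
          simp [Pool.Agent.RS.lrow]
      · obtain ⟨s, rfl⟩ : ∃ s, n = s + 1 := ⟨n - 1, by omega⟩
        exact Pool.Agent.RS.good_all _ _ hv0 rfl
    set M : Matrix (Fin (n + 1)) (Fin (n + 1)) ℤ := b * (δ⁻¹ : SLZ (n + 1)).1 with hM
    have hMb : b = M * δ.1 := by
      have : (δ⁻¹ : SLZ (n + 1)).1 * δ.1 = 1 := by
        rw [← Matrix.SpecialLinearGroup.coe_mul, inv_mul_cancel]
        rfl
      rw [hM, Matrix.mul_assoc, this, Matrix.mul_one]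
    have hMl : ∀ j, M (Fin.last n) j = if j = Fin.last n then g else 0 := by
      intro j
      have e1 : M (Fin.last n) = b (Fin.last n) ᵥ* (δ⁻¹ : SLZ (n + 1)).1 := by
        ext j
        simp [hM, Matrix.mul_apply, Matrix.vecMul, dotProduct]
      have e2 : Pool.Agent.RS.lrow δ ᵥ* (δ⁻¹ : SLZ (n + 1)).1 =
          Pool.Agent.RS.lrow (1 : SLZ (n + 1)) := by
        rw [← mul_inv_cancel δ, Pool.Agent.RS.lrow_mul]
      rw [e1, hv, Matrix.smul_vecMul, e2]
      simp [Pool.Agent.RS.lrow, Matrix.one_apply, eq_comm]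
    set A : Fin n → Fin n → ℤ := fun i j => M i.castSucc j.castSucc with hA
    set w : Fin n → ℤ := fun i => M i.castSucc (Fin.last n) with hw
    have hMe : M = Matrix.of (ha1_em A w g) := ha1_eq_em M g hMl
    have hdet : g * (Matrix.of A).det = k := by
      have e3 : b.det = M.det * δ.1.det := by
        conv_lhs => rw [hMb]
        rw [Matrix.det_mul]
      rw [← ha1_det_em A w g, ← hMe, ← hb, e3, δ.2, mul_one]
    obtain ⟨k', hk'⟩ : ∃ k' : ℕ, (Matrix.of A).det = k' := by
      refine ⟨(Matrix.of A).det.toNat, (Int.toNat_of_nonneg ?_).symm⟩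
      by_contra h
      push Not at h
      have h2 : g * (Matrix.of A).det < 0 := mul_neg_of_pos_of_neg hg h
      rw [hdet] at h2
      omega
    have hk1 : 1 ≤ k' := by
      rcases Nat.eq_zero_or_pos k' with h | h
      · rw [hk', h] at hdet
        simp at hdet
        omega
      · exact h
    obtain ⟨a, ha, γ, hγ⟩ := ih hk1 (Matrix.of A) hk'
    obtain ⟨p0, p1, p2, p3⟩ := ha1_prop hk1 ha
    obtain ⟨x, hx⟩ := ha1_col n a p0 p2 w
    set w' : Fin n → ℤ := fun i => w i - ∑ j, a i j * x j with hw'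
    refine ⟨ha1_em a w' g, ha1_mem hk ?_ ?_ ?_ ?_, Pool.Agent.RS.par γ x * δ, ?_⟩
    · intro i j
      refine Fin.lastCases ?_ (fun i => ?_) i <;> refine Fin.lastCases ?_ (fun j => ?_) j
      · intro h
        exact absurd h (lt_irrefl _)
      · intro _
        simp
      · intro h
        exact absurd h (not_lt.2 (Fin.le_last _))
      · intro h
        rw [ha1_em_cc]
        exact p0 i j (Fin.castSucc_lt_castSucc_iff.1 h)
    · intro i j
      refine Fin.lastCases ?_ (fun i => ?_) i <;> refine Fin.lastCases ?_ (fun j => ?_) j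
      · intro h
        exact absurd h (lt_irrefl _)
      · intro h
        exact absurd h (not_lt.2 (Fin.le_last _))
      · intro _
        rw [ha1_em_cl, ha1_em_cc]
        exact hx i
      · intro h
        rw [ha1_em_cc, ha1_em_cc]
        exact p1 i j (Fin.castSucc_lt_castSucc_iff.1 h)
    · intro i
      refine Fin.lastCases ?_ (fun i => ?_) i
      · rw [ha1_em_ll]
        exact hg
      · rw [ha1_em_cc]
        exact p2 i
    · rw [Fin.prod_univ_castSucc]
      simp only [ha1_em_cc, ha1_em_ll]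
      rw [p3, ← hk', mul_comm, hdet]
    · rw [hMb, Matrix.SpecialLinearGroup.coe_mul, ← Matrix.mul_assoc]
      congr 1
      rw [hMe]
      ext i j
      rw [Matrix.mul_apply, Fin.sum_univ_castSucc]
      refine Fin.lastCases ?_ (fun i => ?_) i <;> refine Fin.lastCases ?_ (fun j => ?_) j
      · simp [Pool.Agent.RS.par]
      · simp [Pool.Agent.RS.par]
      · simp [Pool.Agent.RS.par, hw']
      · have := congrFun (congrFun hγ i) j
        rw [Matrix.mul_apply] at this
        simpa [Pool.Agent.RS.par] using this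

end

end Pool.Agent.SGB

namespace Pool.Agent.SGB

alias hnfR := hnfR_pr

end Pool.Agent.SGB
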