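import Pool.Agent.Lib_helper56.SGB.Defs

/-!
# SGB, block HA2: Hermite normal forms, uniqueness
-/

set_option autoImplicit false

namespace Pool.Agent.SGB

open MeasureTheory Matrix
open Pool.Agent.RS (Mt lm SLZ)
open Pool.Agent.GLQ (re unip cube slab Xp wN IN rm rr qq Lat latt Lz IsRed RY Om Box Kern IsInv Bd sp)
open Pool.Agent.SGN (md repR repL heckeT heckeA supS subS UW Wd lw nf WOk)
open scoped ENNReal

noncomputable section

theorem ha2_mem {n k : ℕ} {a : Fin n → Fin n → ℤ} (ha : a ∈ repR n k) :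
    (∀ i j, 0 ≤ a i j) ∧ (∀ i j, j < i → a i j = 0) ∧ (∀ i j, i < j → a i j < a i i) ∧
      ∏ i, a i i = k := by
  unfold repR at ha
  rw [Finset.mem_filter, Fintype.mem_piFinset] at ha
  refine ⟨fun i j => ?_, ha.2⟩
  have := ha.1 i
  rw [Fintype.mem_piFinset] at this
  exact (Finset.mem_Icc.1 (this j)).1

theorem ha2_pos {n k : ℕ} (hk : 1 ≤ k) {a : Fin n → Fin n → ℤ} (ha : a ∈ repR n k) (i : Fin n) :
    0 < a i i := by
  obtain ⟨h1, -, -, h4⟩ := ha2_mem ha
  refine lt_of_le_of_ne (h1 i i) fun h => ?_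
  have : ∏ i, a i i = 0 := Finset.prod_eq_zero (Finset.mem_univ i) h.symm
  rw [this] at h4
  have : (k : ℤ) ≠ 0 := by positivity
  exact this h4.symm

theorem det_repR_pr {n k : ℕ} {a : Fin n → Fin n → ℤ} (ha : a ∈ repR n k) :
    (Matrix.of a).det = k := by
  obtain ⟨-, h2, -, h4⟩ := ha2_mem ha
  have h5 : (Matrix.of a).BlockTriangular id := fun i j hij => h2 i j hij
  rw [Matrix.det_of_isUpperTriangular h5, ← h4]
  rfl

theorem ha2_low {n : ℕ} {a b : Fin n → Fin n → ℤ} {γ : Matrix (Fin n) (Fin n) ℤ}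
    (ha : ∀ i j, j < i → a i j = 0) (hb : ∀ i j, j < i → b i j = 0) (hp : ∀ i, 0 < a i i)
    (h : ∀ i j, b i j = ∑ l, a i l * γ l j) : ∀ i j, j < i → γ i j = 0 := by
  intro i
  induction i using WellFoundedGT.induction with
  | ind i ih =>
    intro j hj
    have h1 := h i j
    rw [hb i j hj, Finset.sum_eq_single i] at h1
    · exact (mul_eq_zero.1 h1.symm).resolve_left (hp i).ne'
    · intro l _ hl
      rcases lt_or_gt_of_ne hl with h2 | h2
      · rw [ha i l h2, zero_mul]
      · rw [ih l h2 j (hj.trans h2), mul_zero]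
    · intro h2
      exact absurd (Finset.mem_univ i) h2

theorem ha2_diag {n : ℕ} {a b : Fin n → Fin n → ℤ} {γ : Matrix (Fin n) (Fin n) ℤ}
    (ha : ∀ i j, j < i → a i j = 0) (hb : ∀ i j, j < i → b i j = 0) (hp : ∀ i, 0 < a i i)
    (hp' : ∀ i, 0 < b i i) (hd : γ.det = 1)
    (h : ∀ i j, b i j = ∑ l, a i l * γ l j) (i : Fin n) : γ i i = 1 := by
  have hlow := ha2_low ha hb hp h
  have h1 : ∀ i, b i i = a i i * γ i i := by
    intro i
    rw [h i i, Finset.sum_eq_single i]
    · intro l _ hl
      rcases lt_or_gt_of_ne hl with h2 | h2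
      · rw [ha i l h2, zero_mul]
      · rw [hlow l i h2, mul_zero]
    · intro h2
      exact absurd (Finset.mem_univ i) h2
  have h2 : 0 < γ i i := by
    have := hp' i
    rw [h1 i] at this
    exact (pos_iff_pos_of_mul_pos this).1 (hp i)
  have h3 : ∏ i, γ i i = 1 := by
    have h5 : γ.BlockTriangular id := fun i j hij => hlow i j hij
    rw [← hd, Matrix.det_of_isUpperTriangular h5]
  refine Int.eq_one_of_dvd_one h2.le ?_
  rw [← h3]
  exact Finset.dvd_prod_of_mem (fun i => γ i i) (Finset.mem_univ i)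

theorem hnfR_uniq_pr {n k : ℕ} (hk : 1 ≤ k) {a a' : Fin n → Fin n → ℤ} (ha : a ∈ repR n k)
    (ha' : a' ∈ repR n k) (γ : SLZ n) (h : Matrix.of a' = Matrix.of a * γ.1) : a = a' := by
  obtain ⟨p1, p2, p3, -⟩ := ha2_mem ha
  obtain ⟨q1, q2, q3, -⟩ := ha2_mem ha'
  have hp := ha2_pos hk ha
  have hp' := ha2_pos hk ha'
  have hs : ∀ i j, a' i j = ∑ l, a i l * γ.1 l j := fun i j => by
    have := congrFun (congrFun h i) j
    rw [Matrix.mul_apply] at this
    exact this
  have hlow := ha2_low p2 q2 hp hs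
  have hdiag := ha2_diag p2 q2 hp hp' γ.2 hs
  have hup : ∀ i j, i < j → γ.1 i j = 0 ∧ a' i j = a i j := by
    intro i
    induction i using WellFoundedGT.induction with
    | ind i ih =>
      intro j hj
      have hii : a' i i = a i i := by
        rw [hs i i, Finset.sum_eq_single i]
        · rw [hdiag i, mul_one]
        · intro l _ hl
          rcases lt_or_gt_of_ne hl with h2 | h2
          · rw [p2 i l h2, zero_mul]
          · rw [hlow l i h2, mul_zero]
        · intro h2
          exact absurd (Finset.mem_univ i) h2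
      have h1 : a' i j = a i i * γ.1 i j + a i j := by
        rw [hs i j, ← Finset.add_sum_erase _ _ (Finset.mem_univ i)]
        congr 1
        rw [Finset.sum_eq_single j]
        · rw [hdiag j, mul_one]
        · intro l hl hlj
          rw [Finset.mem_erase] at hl
          rcases lt_or_gt_of_ne hl.1 with h2 | h2
          · rw [p2 i l h2, zero_mul]
          · rcases lt_or_gt_of_ne hlj with h3 | h3
            · rw [(ih l h2 j h3).1, mul_zero]
            · rw [hlow l j h3, mul_zero]
        · intro h2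
          exact absurd (Finset.mem_erase.2 ⟨hj.ne', Finset.mem_univ j⟩) h2
      have h2 := p1 i j
      have h3 := p3 i j hj
      have h4 := q1 i j
      have h5 := q3 i j hj
      rw [hii] at h5
      have h6 : γ.1 i j = 0 := by
        by_contra hne
        rcases lt_or_gt_of_ne hne with h7 | h7
        · have : a i i * γ.1 i j ≤ -a i i := by nlinarith [hp i]
          linarith
        · have : a i i ≤ a i i * γ.1 i j := by nlinarith [hp i]
          linarith
      refine ⟨h6, ?_⟩
      rw [h1, h6, mul_zero, zero_add]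
  funext i j
  rcases lt_trichotomy i j with h1 | h1 | h1
  · exact (hup i j h1).2.symm
  · subst h1
    rw [hs i i, Finset.sum_eq_single i]
    · rw [hdiag i, mul_one]
    · intro l _ hl
      rcases lt_or_gt_of_ne hl with h2 | h2
      · rw [p2 i l h2, zero_mul]
      · rw [hlow l i h2, mul_zero]
    · intro h2
      exact absurd (Finset.mem_univ i) h2
  · rw [p2 i j h1, q2 i j h1]

end

end Pool.Agent.SGB

namespace Pool.Agent.SGB

alias det_repR := det_repR_pr
alias hnfR_uniq := hnfR_uniq_pr

end Pool.Agent.SGB
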