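import Pool.Agent.Lib_helper56.SGB.Defs
import Pool.Agent.Lib_helper56.SGB.F.HA1
import Pool.Agent.Lib_helper56.SGB.F.HA2

/-!
# Project SGN, part B, block HB: Hermite normal forms on the left, from HA by the anti-transpose
-/

set_option autoImplicit false

namespace Pool.Agent.SGB

open MeasureTheory Matrix
open Pool.Agent.RS (Mt lm SLZ)
open Pool.Agent.GLQ (re unip cube slab Xp wN IN rm rr qq Lat latt Lz IsRed RY Om Box Kern IsInv Bd sp)
open Pool.Agent.SGN (md repR repL heckeT heckeA supS subS UW Wd lw nf WOk)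
open scoped ENNReal

noncomputable section

/-- the anti-transpose -/
def hbT {n : ℕ} (a : Matrix (Fin n) (Fin n) ℤ) : Matrix (Fin n) (Fin n) ℤ :=
  aᵀ.submatrix Fin.revPerm Fin.revPerm

theorem hbT_apply {n : ℕ} (a : Matrix (Fin n) (Fin n) ℤ) (i j : Fin n) :
    hbT a i j = a j.rev i.rev := rfl

theorem hbT_hbT {n : ℕ} (a : Matrix (Fin n) (Fin n) ℤ) : hbT (hbT a) = a := by
  ext i j
  simp [hbT_apply]

theorem hbT_mul {n : ℕ} (a b : Matrix (Fin n) (Fin n) ℤ) : hbT (a * b) = hbT b * hbT a := by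
  unfold hbT
  rw [Matrix.transpose_mul, Matrix.submatrix_mul_equiv]

theorem hbT_det {n : ℕ} (a : Matrix (Fin n) (Fin n) ℤ) : (hbT a).det = a.det := by
  unfold hbT
  rw [Matrix.det_submatrix_equiv_self, Matrix.det_transpose]

theorem hb_mem {n k : ℕ} {a : Fin n → Fin n → ℤ} (ha : a ∈ repL n k) :
    (fun i j => hbT (Matrix.of a) i j) ∈ repR n k := by
  unfold repL at ha
  unfold repR
  simp only [Finset.mem_filter, Fintype.mem_piFinset] at ha ⊢
  obtain ⟨h1, h2, h3, h4⟩ := ha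
  refine ⟨fun i j => h1 j.rev i.rev, fun i j hij => ?_, fun i j hij => ?_, ?_⟩
  · exact h2 j.rev i.rev (Fin.rev_lt_rev.mpr hij)
  · exact h3 j.rev i.rev (Fin.rev_lt_rev.mpr hij)
  · rw [← h4]
    exact Fintype.prod_equiv Fin.revPerm _ _ fun i => rfl

theorem hb_mem' {n k : ℕ} {a : Fin n → Fin n → ℤ} (ha : a ∈ repR n k) :
    (fun i j => hbT (Matrix.of a) i j) ∈ repL n k := by
  unfold repR at ha
  unfold repL
  simp only [Finset.mem_filter, Fintype.mem_piFinset] at ha ⊢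
  obtain ⟨h1, h2, h3, h4⟩ := ha
  refine ⟨fun i j => h1 j.rev i.rev, fun i j hij => ?_, fun i j hij => ?_, ?_⟩
  · exact h2 j.rev i.rev (Fin.rev_lt_rev.mpr hij)
  · exact h3 j.rev i.rev (Fin.rev_lt_rev.mpr hij)
  · rw [← h4]
    exact Fintype.prod_equiv Fin.revPerm _ _ fun i => rfl

theorem det_repL_pr {n k : ℕ} {a : Fin n → Fin n → ℤ} (ha : a ∈ repL n k) :
    (Matrix.of a).det = k := by
  have h := det_repR (hb_mem ha)
  have h2 : (Matrix.of fun i j => hbT (Matrix.of a) i j) = hbT (Matrix.of a) := rfl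
  rwa [h2, hbT_det] at h

theorem hnfL_pr {n k : ℕ} (hk : 1 ≤ k) (b : Matrix (Fin n) (Fin n) ℤ) (hb : b.det = k) :
    ∃ a ∈ repL n k, ∃ γ : SLZ n, b = γ.1 * Matrix.of a := by
  obtain ⟨a, ha, γ, h⟩ := hnfR hk (hbT b) (by rw [hbT_det, hb])
  refine ⟨_, hb_mem' ha, ⟨hbT γ.1, by rw [hbT_det]; exact γ.2⟩, ?_⟩
  have h2 : (Matrix.of fun i j => hbT (Matrix.of a) i j) = hbT (Matrix.of a) := rfl
  rw [h2]
  change b = hbT γ.1 * hbT (Matrix.of a)
  rw [← hbT_mul, ← h, hbT_hbT]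

theorem hnfL_uniq_pr {n k : ℕ} (hk : 1 ≤ k) {a a' : Fin n → Fin n → ℤ} (ha : a ∈ repL n k)
    (ha' : a' ∈ repL n k) (γ : SLZ n) (h : Matrix.of a' = γ.1 * Matrix.of a) : a = a' := by
  have h1 := hnfR_uniq hk (hb_mem ha) (hb_mem ha') ⟨hbT γ.1, by rw [hbT_det]; exact γ.2⟩ (by
    change hbT (Matrix.of a') = hbT (Matrix.of a) * hbT γ.1
    rw [← hbT_mul, h])
  have h2 : hbT (Matrix.of a) = hbT (Matrix.of a') := by
    ext i j
    exact congrFun (congrFun h1 i) j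
  have h3 : (Matrix.of a : Matrix (Fin n) (Fin n) ℤ) = Matrix.of a' := by
    rw [← hbT_hbT (Matrix.of a), h2, hbT_hbT]
  exact Matrix.of.injective h3

end

end Pool.Agent.SGB

namespace Pool.Agent.SGB

alias det_repL := det_repL_pr
alias hnfL := hnfL_pr
alias hnfL_uniq := hnfL_uniq_pr

end Pool.Agent.SGB
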