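import Pool.Agent.Lib_helper56.SGB.Defs

/-!
# Block HD: bases of lattices
-/

set_option autoImplicit false

namespace Pool.Agent.SGB

open MeasureTheory Matrix
open Pool.Agent.RS (Mt lm SLZ)
open Pool.Agent.GLQ (re unip cube slab Xp wN IN rm rr qq Lat latt Lz IsRed RY Om Box Kern IsInv Bd sp)
open Pool.Agent.SGN (md repR repL heckeT heckeA supS subS UW Wd lw nf WOk)
open Pool.Agent.GLQ (l1a_mem_Lz l1a_row_mem l1a_exists_T l1a_qq_det l1a_qq_mul l1a_qq_one
  l1a_latt_mul_le)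
open scoped ENNReal

noncomputable section

theorem bas_spec_pr {n : ℕ} {L : Lat n} (h : ∃ d, IsB d L) : IsB (bas L) L := by
  unfold bas
  rw [dif_pos h]
  exact h.choose_spec

/-- a lattice near `ℤ^n` has a basis, up to the sign of the determinant -/
theorem hd_basis_aux {n b : ℕ} (hb : 1 ≤ b) (L : Lat (n + 1))
    (h1 : ∀ v ∈ Lz (n + 1), (b : ℚ) • v ∈ L) (h2 : ∀ v ∈ L, (b : ℚ) • v ∈ Lz (n + 1)) :
    ∃ δ : Matrix (Fin (n + 1)) (Fin (n + 1)) ℚ, δ.det ≠ 0 ∧ latt δ = L := by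
  have hp0 : (b : ℚ) ≠ 0 := by
    have : b ≠ 0 := by omega
    exact_mod_cast this
  -- the submodule `b L` of `ℤ^n`
  let M : Submodule ℤ (Fin (n + 1) → ℤ) :=
    { carrier := {x | (b : ℚ)⁻¹ • (fun i => (x i : ℚ)) ∈ L}
      add_mem' := by
        intro x y hx hy
        have h1 : (b : ℚ)⁻¹ • (fun i => ((x + y) i : ℚ)) =
            (b : ℚ)⁻¹ • (fun i => (x i : ℚ)) + (b : ℚ)⁻¹ • (fun i => (y i : ℚ)) := by
          rw [← smul_add]; congr 1; funext i; simp
        show (b : ℚ)⁻¹ • (fun i => ((x + y) i : ℚ)) ∈ L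
        rw [h1]; exact L.add_mem hx hy
      zero_mem' := by
        have h1 : (b : ℚ)⁻¹ • (fun i => ((0 : Fin (n + 1) → ℤ) i : ℚ)) = 0 := by
          funext i; simp
        show (b : ℚ)⁻¹ • (fun i => ((0 : Fin (n + 1) → ℤ) i : ℚ)) ∈ L
        rw [h1]; exact L.zero_mem
      smul_mem' := by
        intro c x hx
        have h1 : (b : ℚ)⁻¹ • (fun i => ((c • x) i : ℚ)) =
            c • ((b : ℚ)⁻¹ • (fun i => (x i : ℚ))) := by
          funext i
          simp only [Pi.smul_apply, smul_eq_mul, zsmul_eq_mul]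
          push_cast
          ring
        show (b : ℚ)⁻¹ • (fun i => ((c • x) i : ℚ)) ∈ L
        rw [h1]; exact L.zsmul_mem hx c }
  have hM : ∀ x : Fin (n + 1) → ℤ, x ∈ M ↔ (b : ℚ)⁻¹ • (fun i => (x i : ℚ)) ∈ L :=
    fun _ => Iff.rfl
  obtain ⟨k, ⟨B⟩⟩ := Submodule.nonempty_basis_of_pid (Pi.basisFun ℤ (Fin (n + 1))) M
  -- the rank
  have hk : k = n + 1 := by
    have hf : Module.finrank ℤ M = k := by rw [Module.finrank_eq_card_basis B, Fintype.card_fin]
    have hle : k ≤ n + 1 := by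
      have := Submodule.finrank_le M
      rwa [hf, Module.finrank_fin_fun] at this
    have hmem : ∀ i : Fin (n + 1), (Pi.single i ((b : ℤ) ^ 2) : Fin (n + 1) → ℤ) ∈ M := by
      intro i
      rw [hM]
      have h1 := h1 (Pi.single i (1 : ℚ)) ((l1a_mem_Lz _).2 ⟨Pi.single i 1, by
        funext j
        by_cases hj : j = i
        · subst hj; simp
        · simp [hj]⟩)
      have h2 : (b : ℚ)⁻¹ •
          (fun j => ((Pi.single i ((b : ℤ) ^ 2) : Fin (n + 1) → ℤ) j : ℚ)) =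
          (b : ℚ) • Pi.single i (1 : ℚ) := by
        funext j
        by_cases hj : j = i
        · subst hj
          simp only [Pi.smul_apply, Pi.single_eq_same, smul_eq_mul, mul_one]
          push_cast
          field_simp
        · simp [hj]
      rw [h2]
      exact h1
    have hli : LinearIndependent ℤ
        (fun i : Fin (n + 1) => (⟨Pi.single i ((b : ℤ) ^ 2), hmem i⟩ : M)) := by
      apply LinearIndependent.of_comp M.subtype
      rw [Fintype.linearIndependent_iff]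
      intro g hg i
      have h1 := congrFun hg i
      rw [Finset.sum_apply] at h1
      simp only [Function.comp_apply, Submodule.coe_subtype, Pi.smul_apply, smul_eq_mul,
        Pi.zero_apply] at h1
      rw [Finset.sum_eq_single i (fun j _ hj => by rw [Pi.single_eq_of_ne hj.symm, mul_zero])
        (fun hi => absurd (Finset.mem_univ i) hi), Pi.single_eq_same] at h1
      rcases mul_eq_zero.1 h1 with h2 | h2
      · exact h2
      · exact absurd h2 (pow_ne_zero _ (by exact_mod_cast hp0))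
    haveI : Module.Finite ℤ M := Module.Finite.of_basis B
    have hge := hli.fintype_card_le_finrank
    rw [hf, Fintype.card_fin] at hge
    omega
  subst hk
  let P : Matrix (Fin (n + 1)) (Fin (n + 1)) ℤ := Matrix.of fun i => (B i : Fin (n + 1) → ℤ)
  let δ : Matrix (Fin (n + 1)) (Fin (n + 1)) ℚ := (b : ℚ)⁻¹ • qq P
  have hrow : ∀ c : Fin (n + 1) → ℤ, (fun i => (c i : ℚ)) ᵥ* δ =
      (b : ℚ)⁻¹ • (fun j => (((∑ i, c i • B i : M) : Fin (n + 1) → ℤ) j : ℚ)) := by
    intro c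
    show (fun i => (c i : ℚ)) ᵥ* ((b : ℚ)⁻¹ • qq P) = _
    rw [Matrix.vecMul_smul]
    congr 1
    funext j
    simp only [Matrix.vecMul, dotProduct, qq, Matrix.map_apply, P, Matrix.of_apply,
      Submodule.coe_sum, Submodule.coe_smul, Finset.sum_apply, Pi.smul_apply, smul_eq_mul,
      Int.cast_sum, Int.cast_mul]
  have hL : latt δ = L := by
    apply le_antisymm
    · rintro v ⟨c, rfl⟩
      rw [hrow]
      exact (hM _).1 (∑ i, c i • B i : M).2
    · intro v hv
      obtain ⟨x, hx⟩ := (l1a_mem_Lz _).1 (h2 v hv)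
      have hxM : x ∈ M := by
        rw [hM, ← hx, smul_smul, inv_mul_cancel₀ hp0, one_smul]
        exact hv
      refine ⟨fun i => B.repr ⟨x, hxM⟩ i, ?_⟩
      rw [hrow, B.sum_repr ⟨x, hxM⟩]
      show v = (b : ℚ)⁻¹ • (fun j => (x j : ℚ))
      rw [← hx, smul_smul, inv_mul_cancel₀ hp0, one_smul]
  obtain ⟨R, hR⟩ := l1a_exists_T δ ((b : ℚ) • (1 : Matrix (Fin (n + 1)) (Fin (n + 1)) ℚ))
    (fun i => by
      rw [hL]
      have h1 := h1 ((1 : Matrix (Fin (n + 1)) (Fin (n + 1)) ℚ) i) (l1a_row_mem 1 i)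
      exact h1)
  have hdet : δ.det ≠ 0 := by
    intro h0
    have h1 := congrArg Matrix.det hR
    rw [Matrix.det_mul, h0, mul_zero, Matrix.det_smul, Matrix.det_one, mul_one] at h1
    exact pow_ne_zero _ hp0 h1
  exact ⟨δ, hdet, hL⟩

/-- a group between `b ℤ^n` and `b^{-1} ℤ^n` has a basis -/
theorem exists_isB_pr {n : ℕ} (L : Lat (n + 1)) (b : ℕ) (hb : 1 ≤ b)
    (h1 : ∀ v ∈ Lz (n + 1), (b : ℚ) • v ∈ L) (h2 : ∀ v ∈ L, (b : ℚ) • v ∈ Lz (n + 1)) :
    ∃ d, IsB d L := by
  obtain ⟨δ, hdet, hL⟩ := hd_basis_aux hb L h1 h2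
  rcases lt_or_gt_of_ne hdet with hneg | hpos
  · -- change the sign of the first row
    let D : Matrix (Fin (n + 1)) (Fin (n + 1)) ℤ :=
      Matrix.diagonal fun i => if i = 0 then -1 else 1
    have hD2 : D * D = 1 := by
      show Matrix.diagonal _ * Matrix.diagonal _ = _
      rw [Matrix.diagonal_mul_diagonal, ← Matrix.diagonal_one]
      congr 1
      funext i
      by_cases hi : i = 0 <;> simp [hi]
    have hDdet : D.det = -1 := by
      show (Matrix.diagonal _).det = _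
      rw [Matrix.det_diagonal, Fin.prod_univ_succ]
      simp [Fin.succ_ne_zero]
    have hqD : qq D * qq D = 1 := by rw [← l1a_qq_mul, hD2, l1a_qq_one]
    have hdet' : (qq D * δ).det = -δ.det := by
      rw [Matrix.det_mul, l1a_qq_det, hDdet]
      push_cast
      ring
    refine ⟨qq D * δ, by rw [hdet']; linarith, ?_⟩
    rw [← hL]
    apply le_antisymm (l1a_latt_mul_le D δ)
    have h1 := l1a_latt_mul_le D (qq D * δ)
    rwa [← Matrix.mul_assoc, hqD, Matrix.one_mul] at h1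
  · exact ⟨δ, hpos, hL⟩

theorem IsB_qq_pr {n : ℕ} {L M : Lat n} {d e : Matrix (Fin n) (Fin n) ℚ} (hd : IsB d L)
    (he : IsB e M) (h : M ≤ L) : ∃ T : Matrix (Fin n) (Fin n) ℤ, e = qq T * d ∧ 0 < T.det ∧
      (T.det : ℚ) * d.det = e.det ∧ M.relIndex L = T.det.natAbs := by
  obtain ⟨hd0, rfl⟩ := hd
  obtain ⟨he0, rfl⟩ := he
  obtain ⟨T, hT⟩ := Pool.Agent.GLQ.latt_le h
  have hdet : (T.det : ℚ) * d.det = e.det := by rw [hT, Matrix.det_mul, l1a_qq_det]
  have hpos : 0 < T.det := by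
    have : (0 : ℚ) < T.det := by
      rw [← hdet] at he0
      exact (pos_iff_pos_of_mul_pos he0).2 hd0
    exact_mod_cast this
  refine ⟨T, hT, hpos, hdet, ?_⟩
  rw [hT]
  exact Pool.Agent.GLQ.index_det T hpos.ne' d hd0.ne'

/-- the covolume does not depend on the basis -/
theorem IsB_det_pr {n : ℕ} {L : Lat n} {d e : Matrix (Fin n) (Fin n) ℚ} (hd : IsB d L)
    (he : IsB e L) : d.det = e.det := by
  obtain ⟨γ, hγ⟩ := Pool.Agent.GLQ.basis_uniq hd.1 he.1 (hd.2.trans he.2.symm)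
  rw [hγ, Matrix.det_mul, l1a_qq_det, γ.2, Int.cast_one, one_mul]

end

end Pool.Agent.SGB

namespace Pool.Agent.SGB

alias bas_spec := bas_spec_pr
alias exists_isB := exists_isB_pr
alias IsB_qq := IsB_qq_pr
alias IsB_det := IsB_det_pr

end Pool.Agent.SGB
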