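import Pool.Agent.Lib_helper56.SGB.Defs
import Pool.Agent.Lib_helper56.SGB.F.HA1
import Pool.Agent.Lib_helper56.SGB.F.HB
import Pool.Agent.Lib_helper56.SGB.F.HD

/-!
# Project SGN, part B, block HE1: super- and sublattices, finiteness
-/

set_option autoImplicit false

namespace Pool.Agent.SGB

open MeasureTheory Matrix
open Pool.Agent.RS (Mt lm SLZ)
open Pool.Agent.GLQ (re unip cube slab Xp wN IN rm rr qq Lat latt Lz IsRed RY Om Box Kern IsInv Bd sp)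
open Pool.Agent.SGN (md repR repL heckeT heckeA supS subS UW Wd lw nf WOk)
open scoped ENNReal

noncomputable section

theorem he1_det_qq {n : ℕ} (T : Matrix (Fin n) (Fin n) ℤ) : (qq T).det = (T.det : ℚ) := by
  have h := RingHom.map_det (Int.castRingHom ℚ) T
  simpa [qq, RingHom.mapMatrix_apply] using h.symm

theorem he1_qq_mul {n : ℕ} (T S : Matrix (Fin n) (Fin n) ℤ) : qq (T * S) = qq T * qq S := by
  ext i j
  simp [qq, Matrix.mul_apply]

/-- a rational matrix has a common denominator -/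
theorem he1_den {n : ℕ} (d : Matrix (Fin n) (Fin n) ℚ) :
    ∃ b : ℕ, 1 ≤ b ∧ ∃ P : Matrix (Fin n) (Fin n) ℤ, (b : ℚ) • d = qq P := by
  refine ⟨∏ i, ∏ j, (d i j).den, ?_, ?_⟩
  · exact Nat.one_le_iff_ne_zero.mpr (Finset.prod_ne_zero_iff.mpr fun i _ =>
      Finset.prod_ne_zero_iff.mpr fun j _ => (d i j).den_ne_zero)
  · have key : ∀ i j, ∃ z : ℤ, ((∏ i, ∏ j, (d i j).den : ℕ) : ℚ) * d i j = z := by
      intro i j
      have h1 : (d i j).den ∣ ∏ i, ∏ j, (d i j).den :=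
        (Finset.dvd_prod_of_mem (fun j => (d i j).den) (Finset.mem_univ j)).trans
          (Finset.dvd_prod_of_mem (fun i => ∏ j, (d i j).den) (Finset.mem_univ i))
      obtain ⟨c, hc⟩ := h1
      refine ⟨c * (d i j).num, ?_⟩
      rw [hc]
      push_cast
      have := Rat.mul_den_eq_num (d i j)
      linear_combination (c : ℚ) * this
    choose P hP using key
    refine ⟨Matrix.of P, ?_⟩
    ext i j
    simpa [qq] using hP i j

theorem he1_mem_latt {n : ℕ} (d : Matrix (Fin n) (Fin n) ℚ) (v : Fin n → ℚ) :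
    v ∈ latt d ↔ ∃ x : Fin n → ℤ, v = (fun i => (x i : ℚ)) ᵥ* d := Iff.rfl

theorem he1_qq_vec {n : ℕ} (P : Matrix (Fin n) (Fin n) ℤ) (x : Fin n → ℤ) :
    (fun i => (x i : ℚ)) ᵥ* qq P = fun i => (((x ᵥ* P) i : ℤ) : ℚ) := by
  ext i
  simp [qq, Matrix.vecMul, dotProduct]

/-- a lattice with a basis is commensurable with `ℤ^n` -/
theorem he1_comm {n : ℕ} {L : Lat n} {d : Matrix (Fin n) (Fin n) ℚ} (hd : IsB d L) :
    ∃ b : ℕ, 1 ≤ b ∧ (∀ v ∈ Lz n, (b : ℚ) • v ∈ L) ∧ ∀ v ∈ L, (b : ℚ) • v ∈ Lz n := by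
  obtain ⟨hd1, rfl⟩ := hd
  obtain ⟨b1, hb1, P1, hP1⟩ := he1_den d
  obtain ⟨b2, hb2, P2, hP2⟩ := he1_den d⁻¹
  have hu : IsUnit d.det := hd1.ne'.isUnit
  refine ⟨b1 * b2, Nat.mul_pos hb1 hb2, ?_, ?_⟩
  · rintro v ⟨x, rfl⟩
    refine ⟨(b1 : ℤ) • (x ᵥ* P2), ?_⟩
    have h1 : (fun i => ((((b1 : ℤ) • (x ᵥ* P2)) i : ℤ) : ℚ)) =
        (b1 : ℚ) • ((fun i => (x i : ℚ)) ᵥ* qq P2) := by
      rw [he1_qq_vec]
      ext i
      simp
    rw [h1, ← hP2, Matrix.vecMul_one, Matrix.vecMul_smul, Matrix.smul_vecMul,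
      Matrix.smul_vecMul, Matrix.vecMul_vecMul, Matrix.nonsing_inv_mul _ hu, Matrix.vecMul_one,
      smul_smul]
    push_cast
    rfl
  · rintro v ⟨x, rfl⟩
    refine ⟨(b2 : ℤ) • (x ᵥ* P1), ?_⟩
    have h1 : (fun i => ((((b2 : ℤ) • (x ᵥ* P1)) i : ℤ) : ℚ)) =
        (b2 : ℚ) • ((fun i => (x i : ℚ)) ᵥ* qq P1) := by
      rw [he1_qq_vec]
      ext i
      simp
    rw [h1, ← hP1, Matrix.vecMul_one, Matrix.vecMul_smul, smul_smul]
    push_cast
    rw [mul_comm]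

/-- `k M ⊆ L` if `L` has index `k` in `M` -/
theorem he1_smul {n k : ℕ} {L M : Lat n} (h : L.relIndex M = k) {v : Fin n → ℚ} (hv : v ∈ M) :
    (k : ℚ) • v ∈ L := by
  have h1 := AddSubgroup.nsmul_index_mem (H := L.addSubgroupOf M) ⟨v, hv⟩
  have h2 : (L.addSubgroupOf M).index = k := h
  rw [h2, AddSubgroup.mem_addSubgroupOf] at h1
  simpa [Nat.cast_smul_eq_nsmul] using h1

theorem he1_unimod {n : ℕ} (γ : SLZ n) (d : Matrix (Fin n) (Fin n) ℚ) :
    latt (qq γ.1 * d) = latt d := by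
  have hγ : IsUnit (γ.1).det := by rw [γ.2]; exact isUnit_one
  apply le_antisymm
  · rintro v ⟨x, rfl⟩
    refine ⟨x ᵥ* γ.1, ?_⟩
    rw [← Matrix.vecMul_vecMul, he1_qq_vec]
  · rintro v ⟨x, rfl⟩
    refine ⟨x ᵥ* (γ.1)⁻¹, ?_⟩
    rw [← he1_qq_vec, ← Matrix.vecMul_vecMul, Matrix.vecMul_vecMul (fun i => (x i : ℚ)) (qq _),
      ← he1_qq_mul, Matrix.nonsing_inv_mul _ hγ]
    congr 1
    have : qq (1 : Matrix (Fin n) (Fin n) ℤ) = 1 := by
      ext i j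
      by_cases h : i = j
      · subst h; simp [qq]
      · simp [qq, h]
    rw [this, Matrix.vecMul_one]

theorem he1_finSup {n k : ℕ} (hk : 1 ≤ k) {L : Lat (n + 1)} (hL : ∃ d, IsB d L) :
    {M : Lat (n + 1) | L ≤ M ∧ L.relIndex M = k}.Finite := by
  obtain ⟨d, hd⟩ := hL
  obtain ⟨b, hb, hb1, hb2⟩ := he1_comm hd
  refine Set.Finite.subset ((repR (n + 1) k).finite_toSet.image
    fun a => latt ((qq (Matrix.of a))⁻¹ * d)) ?_
  rintro M ⟨h1, h2⟩
  obtain ⟨e, he⟩ := exists_isB M (b * k) (Nat.mul_pos hb hk)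
    (fun v hv => by
      have h3 := h1 (hb1 v hv)
      have h4 := M.nsmul_mem h3 k
      rw [← Nat.cast_smul_eq_nsmul ℚ, smul_smul] at h4
      push_cast
      rwa [mul_comm (b : ℚ)])
    (fun v hv => by
      have h3 := hb2 _ (he1_smul h2 hv)
      rw [smul_smul] at h3
      push_cast
      exact h3)
  obtain ⟨T, hT, hTp, -, hTi⟩ := IsB_qq he hd h1
  rw [h2] at hTi
  have hTk : T.det = k := by omega
  obtain ⟨a, ha, γ, hγ⟩ := hnfR hk T hTk
  have hTu : IsUnit (qq T).det := by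
    rw [he1_det_qq]
    exact (Int.cast_ne_zero.mpr hTp.ne').isUnit
  have hga : IsUnit (qq (Matrix.of a)).det := by
    have : (qq T).det = (qq (Matrix.of a)).det * (qq γ.1).det := by
      rw [hγ, he1_qq_mul, Matrix.det_mul]
    rw [this] at hTu
    exact isUnit_of_mul_isUnit_left hTu
  refine ⟨a, ha, ?_⟩
  show latt ((qq (Matrix.of a))⁻¹ * d) = M
  rw [hT, hγ, he1_qq_mul, Matrix.mul_assoc, ← Matrix.mul_assoc, Matrix.nonsing_inv_mul _ hga,
    Matrix.one_mul, he1_unimod, he.2]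

theorem he1_finSub {n k : ℕ} (hk : 1 ≤ k) {L : Lat (n + 1)} (hL : ∃ d, IsB d L) :
    {M : Lat (n + 1) | M ≤ L ∧ M.relIndex L = k}.Finite := by
  obtain ⟨d, hd⟩ := hL
  obtain ⟨b, hb, hb1, hb2⟩ := he1_comm hd
  refine Set.Finite.subset ((repL (n + 1) k).finite_toSet.image
    fun a => latt (qq (Matrix.of a) * d)) ?_
  rintro M ⟨h1, h2⟩
  obtain ⟨e, he⟩ := exists_isB M (b * k) (Nat.mul_pos hb hk)
    (fun v hv => by
      have h3 := he1_smul h2 (hb1 v hv)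
      rw [smul_smul] at h3
      push_cast
      rwa [mul_comm (b : ℚ)])
    (fun v hv => by
      have h3 := hb2 _ (h1 hv)
      have h4 := (Lz (n + 1)).nsmul_mem h3 k
      rw [← Nat.cast_smul_eq_nsmul ℚ, smul_smul] at h4
      push_cast
      rwa [mul_comm (b : ℚ)])
  obtain ⟨T, hT, hTp, -, hTi⟩ := IsB_qq hd he h1
  rw [h2] at hTi
  have hTk : T.det = k := by omega
  obtain ⟨a, ha, γ, hγ⟩ := hnfL hk T hTk
  refine ⟨a, ha, ?_⟩
  show latt (qq (Matrix.of a) * d) = M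
  rw [← he.2, hT, hγ, he1_qq_mul, Matrix.mul_assoc, he1_unimod]

theorem mem_supS_pr {n k : ℕ} (hk : 1 ≤ k) {L : Lat (n + 1)} (hL : ∃ d, IsB d L)
    (M : Lat (n + 1)) : M ∈ supS k L ↔ L ≤ M ∧ L.relIndex M = k := by
  unfold Pool.Agent.SGN.supS
  rw [dif_pos (he1_finSup hk hL)]
  simp

theorem mem_subS_pr {n k : ℕ} (hk : 1 ≤ k) {L : Lat (n + 1)} (hL : ∃ d, IsB d L)
    (M : Lat (n + 1)) : M ∈ subS k L ↔ M ≤ L ∧ M.relIndex L = k := by
  unfold Pool.Agent.SGN.subS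
  rw [dif_pos (he1_finSub hk hL)]
  simp

end

end Pool.Agent.SGB

namespace Pool.Agent.SGB

alias mem_supS := mem_supS_pr
alias mem_subS := mem_subS_pr

end Pool.Agent.SGB
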