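import Pool.Agent.Lib_helper56.SGB.Defs
import Pool.Agent.Lib_helper56.SGB.F.HA1
import Pool.Agent.Lib_helper56.SGB.F.HA2
import Pool.Agent.Lib_helper56.SGB.F.HB
import Pool.Agent.Lib_helper56.SGB.F.HD
import Pool.Agent.Lib_helper56.SGB.F.HE1

/-!
# Project SGN, part B, block HE2: super- and sublattices, parametrisation

The auxiliary lemmas `he2_den`, `he2_comm`, `he2_smul` are adapted from block HE1 (helper86).
-/

set_option autoImplicit false

namespace Pool.Agent.SGB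

open MeasureTheory Matrix
open Pool.Agent.RS (Mt lm SLZ)
open Pool.Agent.GLQ (re unip cube slab Xp wN IN rm rr qq Lat latt Lz IsRed RY Om Box Kern IsInv Bd sp)
open Pool.Agent.SGN (md repR repL heckeT heckeA supS subS UW Wd lw nf WOk)
open scoped ENNReal

noncomputable section

theorem he2_det_qq {n : ℕ} (T : Matrix (Fin n) (Fin n) ℤ) : (qq T).det = (T.det : ℚ) := by
  have h := RingHom.map_det (Int.castRingHom ℚ) T
  simpa [qq, RingHom.mapMatrix_apply] using h.symm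

theorem he2_qq_mul {n : ℕ} (T S : Matrix (Fin n) (Fin n) ℤ) : qq (T * S) = qq T * qq S := by
  ext i j
  simp [qq, Matrix.mul_apply]

/-- a rational matrix has a common denominator -/
theorem he2_den {n : ℕ} (d : Matrix (Fin n) (Fin n) ℚ) :
    ∃ b : ℕ, 1 ≤ b ∧ ∃ P : Matrix (Fin n) (Fin n) ℤ, (b : ℚ) • d = qq P := by
  refine ⟨∏ i, ∏ j, (d i j).den, ?_, ?_⟩
  · exact Nat.one_le_iff_ne_zero.mpr (Finset.prod_ne_zero_iff.mpr fun i _ =>
      Finset.prod_ne_zero_iff.mpr fun j _ => (d i j).den_ne_zero)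
  · have key : ∀ i j, ∃ z : ℤ, ((∏ i, ∏ j, (d i j).den : ℕ) : ℚ) * d i j = z := by
      intro i j
      have h1 : (d i j).den ∣ ∏ i, ∏ j, (d i j).den :=
        (Finset.dvd_prod_of_mem (fun j => (d i j).den) (Finset.mem_univ j)).trans
          (Finset.dvd_prod_of_mem (fun i => ∏ j, (d i j).den) (Finset.mem_univ i))
      obtain ⟨c, hc⟩ := h1
      refine ⟨c * (d i j).num, ?_⟩
      rw [hc]
      push_cast
      have := Rat.mul_den_eq_num (d i j)
      linear_combination (c : ℚ) * this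
    choose P hP using key
    refine ⟨Matrix.of P, ?_⟩
    ext i j
    simpa [qq] using hP i j

theorem he2_qq_vec {n : ℕ} (P : Matrix (Fin n) (Fin n) ℤ) (x : Fin n → ℤ) :
    (fun i => (x i : ℚ)) ᵥ* qq P = fun i => (((x ᵥ* P) i : ℤ) : ℚ) := by
  ext i
  simp [qq, Matrix.vecMul, dotProduct]

/-- a lattice with a basis is commensurable with `ℤ^n` -/
theorem he2_comm {n : ℕ} {L : Lat n} {d : Matrix (Fin n) (Fin n) ℚ} (hd : IsB d L) :
    ∃ b : ℕ, 1 ≤ b ∧ (∀ v ∈ Lz n, (b : ℚ) • v ∈ L) ∧ ∀ v ∈ L, (b : ℚ) • v ∈ Lz n := by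
  obtain ⟨hd1, rfl⟩ := hd
  obtain ⟨b1, hb1, P1, hP1⟩ := he2_den d
  obtain ⟨b2, hb2, P2, hP2⟩ := he2_den d⁻¹
  have hu : IsUnit d.det := hd1.ne'.isUnit
  refine ⟨b1 * b2, Nat.mul_pos hb1 hb2, ?_, ?_⟩
  · rintro v ⟨x, rfl⟩
    refine ⟨(b1 : ℤ) • (x ᵥ* P2), ?_⟩
    have h1 : (fun i => ((((b1 : ℤ) • (x ᵥ* P2)) i : ℤ) : ℚ)) =
        (b1 : ℚ) • ((fun i => (x i : ℚ)) ᵥ* qq P2) := by
      rw [he2_qq_vec]
      ext i
      simp
    rw [h1, ← hP2, Matrix.vecMul_one, Matrix.vecMul_smul, Matrix.smul_vecMul,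
      Matrix.smul_vecMul, Matrix.vecMul_vecMul, Matrix.nonsing_inv_mul _ hu, Matrix.vecMul_one,
      smul_smul]
    push_cast
    rfl
  · rintro v ⟨x, rfl⟩
    refine ⟨(b2 : ℤ) • (x ᵥ* P1), ?_⟩
    have h1 : (fun i => ((((b2 : ℤ) • (x ᵥ* P1)) i : ℤ) : ℚ)) =
        (b2 : ℚ) • ((fun i => (x i : ℚ)) ᵥ* qq P1) := by
      rw [he2_qq_vec]
      ext i
      simp
    rw [h1, ← hP1, Matrix.vecMul_one, Matrix.vecMul_smul, smul_smul]
    push_cast
    rw [mul_comm]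

/-- `k M ⊆ L` if `L` has index `k` in `M` -/
theorem he2_smul {n k : ℕ} {L M : Lat n} (h : L.relIndex M = k) {v : Fin n → ℚ} (hv : v ∈ M) :
    (k : ℚ) • v ∈ L := by
  have h1 := AddSubgroup.nsmul_index_mem (H := L.addSubgroupOf M) ⟨v, hv⟩
  have h2 : (L.addSubgroupOf M).index = k := h
  rw [h2, AddSubgroup.mem_addSubgroupOf] at h1
  simpa [Nat.cast_smul_eq_nsmul] using h1

/-- invertibility of the representatives -/
theorem he2_unit {n k : ℕ} (hk : 1 ≤ k) {a : Fin n → Fin n → ℤ} (ha : (Matrix.of a).det = k) :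
    IsUnit (qq (Matrix.of a)).det := by
  rw [he2_det_qq, ha]
  have : (((k : ℕ) : ℤ) : ℚ) ≠ 0 := by
    exact_mod_cast (by omega : k ≠ 0)
  exact this.isUnit

theorem he2_pos {n k : ℕ} (hk : 1 ≤ k) {a : Fin n → Fin n → ℤ} (ha : (Matrix.of a).det = k)
    {d : Matrix (Fin n) (Fin n) ℚ} (hd : 0 < d.det) :
    0 < ((qq (Matrix.of a))⁻¹ * d).det ∧ (k : ℚ) * ((qq (Matrix.of a))⁻¹ * d).det = d.det := by
  have hk0 : (0 : ℚ) < k := by exact_mod_cast hk
  have h1 : (qq (Matrix.of a)).det = k := by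
    rw [he2_det_qq, ha]
    norm_cast
  have h2 : ((qq (Matrix.of a))⁻¹ * d).det = (k : ℚ)⁻¹ * d.det := by
    rw [Matrix.det_mul, Matrix.det_nonsing_inv, h1, Ring.inverse_eq_inv]
  rw [h2]
  refine ⟨by positivity, ?_⟩
  field_simp

/-- every superlattice of index `k` is given by an element of `repR` -/
theorem he2_sup {n k : ℕ} (hk : 1 ≤ k) {M : Lat (n + 1)}
    {d : Matrix (Fin (n + 1)) (Fin (n + 1)) ℚ} (hd : 0 < d.det) (h1 : latt d ≤ M)
    (h2 : (latt d).relIndex M = k) :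
    ∃ a ∈ repR (n + 1) k, latt ((qq (Matrix.of a))⁻¹ * d) = M := by
  have hdB : IsB d (latt d) := ⟨hd, rfl⟩
  obtain ⟨b, hb, hb1, hb2⟩ := he2_comm hdB
  obtain ⟨e, he⟩ := exists_isB M (b * k) (Nat.mul_pos hb hk)
    (fun v hv => by
      have h3 := h1 (hb1 v hv)
      have h4 := M.nsmul_mem h3 k
      rw [← Nat.cast_smul_eq_nsmul ℚ, smul_smul] at h4
      push_cast
      rwa [mul_comm (b : ℚ)])
    (fun v hv => by
      have h3 := hb2 _ (he2_smul h2 hv)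
      rw [smul_smul] at h3
      push_cast
      exact h3)
  obtain ⟨T, hT, hTp, -, hTi⟩ := IsB_qq he hdB h1
  rw [h2] at hTi
  have hTk : T.det = k := by omega
  obtain ⟨a, ha, γ, hγ⟩ := hnfR hk T hTk
  have hga := he2_unit hk (det_repR ha)
  refine ⟨a, ha, ?_⟩
  rw [hT, hγ, he2_qq_mul, Matrix.mul_assoc, ← Matrix.mul_assoc, Matrix.nonsing_inv_mul _ hga,
    Matrix.one_mul, Pool.Agent.GLQ.l2_latt, he.2]

/-- every sublattice of index `k` is given by an element of `repL` -/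
theorem he2_sub {n k : ℕ} (hk : 1 ≤ k) {M : Lat (n + 1)}
    {d : Matrix (Fin (n + 1)) (Fin (n + 1)) ℚ} (hd : 0 < d.det) (h1 : M ≤ latt d)
    (h2 : M.relIndex (latt d) = k) :
    ∃ a ∈ repL (n + 1) k, latt (qq (Matrix.of a) * d) = M := by
  have hdB : IsB d (latt d) := ⟨hd, rfl⟩
  obtain ⟨b, hb, hb1, hb2⟩ := he2_comm hdB
  obtain ⟨e, he⟩ := exists_isB M (b * k) (Nat.mul_pos hb hk)
    (fun v hv => by
      have h3 := he2_smul h2 (hb1 v hv)
      rw [smul_smul] at h3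
      push_cast
      rwa [mul_comm (b : ℚ)])
    (fun v hv => by
      have h3 := hb2 _ (h1 hv)
      have h4 := (Lz (n + 1)).nsmul_mem h3 k
      rw [← Nat.cast_smul_eq_nsmul ℚ, smul_smul] at h4
      push_cast
      rwa [mul_comm (b : ℚ)])
  obtain ⟨T, hT, hTp, -, hTi⟩ := IsB_qq hdB he h1
  rw [h2] at hTi
  have hTk : T.det = k := by omega
  obtain ⟨a, ha, γ, hγ⟩ := hnfL hk T hTk
  refine ⟨a, ha, ?_⟩
  rw [← he.2, hT, hγ, he2_qq_mul, Matrix.mul_assoc, Pool.Agent.GLQ.l2_latt]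

/-- the superlattices given by `repR` have index `k` -/
theorem he2_sup' {n k : ℕ} (hk : 1 ≤ k) {a : Fin (n + 1) → Fin (n + 1) → ℤ}
    (ha : a ∈ repR (n + 1) k) {d : Matrix (Fin (n + 1)) (Fin (n + 1)) ℚ} (hd : 0 < d.det) :
    latt d ≤ latt ((qq (Matrix.of a))⁻¹ * d) ∧
      (latt d).relIndex (latt ((qq (Matrix.of a))⁻¹ * d)) = k := by
  have hga := he2_unit hk (det_repR ha)
  set d' := (qq (Matrix.of a))⁻¹ * d with hd'
  have h1 : qq (Matrix.of a) * d' = d := by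
    rw [hd', ← Matrix.mul_assoc, Matrix.mul_nonsing_inv _ hga, Matrix.one_mul]
  have h2 : latt d ≤ latt d' := by
    have := Pool.Agent.GLQ.l2_latt_le (Matrix.of a) d'
    rwa [h1] at this
  refine ⟨h2, ?_⟩
  have hd'p := (he2_pos hk (det_repR ha) hd).1
  obtain ⟨T, hT, hTp, hTd, hTi⟩ := IsB_qq (L := latt d') (M := latt d) ⟨hd'p, rfl⟩ ⟨hd, rfl⟩ h2
  rw [hTi]
  have h3 : (T.det : ℚ) = k := by
    have h4 := (he2_pos hk (det_repR ha) hd).2
    rw [← hd'] at h4 hd'p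
    exact mul_right_cancel₀ hd'p.ne' (hTd.trans h4.symm)
  have h5 : T.det = k := by exact_mod_cast h3
  omega

/-- the sublattices given by `repL` have index `k` -/
theorem he2_sub' {n k : ℕ} (hk : 1 ≤ k) {a : Fin (n + 1) → Fin (n + 1) → ℤ}
    (ha : a ∈ repL (n + 1) k) {d : Matrix (Fin (n + 1)) (Fin (n + 1)) ℚ} (hd : 0 < d.det) :
    0 < (qq (Matrix.of a) * d).det ∧ (qq (Matrix.of a) * d).det = (k : ℚ) * d.det ∧
    latt (qq (Matrix.of a) * d) ≤ latt d ∧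
      (latt (qq (Matrix.of a) * d)).relIndex (latt d) = k := by
  have hk0 : (0 : ℚ) < k := by exact_mod_cast hk
  have h0 : (qq (Matrix.of a) * d).det = (k : ℚ) * d.det := by
    rw [Matrix.det_mul, he2_det_qq, det_repL ha]
    norm_cast
  have hp : 0 < (qq (Matrix.of a) * d).det := by
    rw [h0]
    positivity
  have h2 := Pool.Agent.GLQ.l2_latt_le (Matrix.of a) d
  refine ⟨hp, h0, h2, ?_⟩
  obtain ⟨T, hT, hTp, hTd, hTi⟩ := IsB_qq (L := latt d) (M := latt (qq (Matrix.of a) * d))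
    ⟨hd, rfl⟩ ⟨hp, rfl⟩ h2
  rw [hTi]
  have h3 : (T.det : ℚ) = k := by
    rw [h0] at hTd
    exact mul_right_cancel₀ hd.ne' hTd
  have h5 : T.det = k := by exact_mod_cast h3
  omega

theorem he2_sup_inj {n k : ℕ} (hk : 1 ≤ k) {a a' : Fin (n + 1) → Fin (n + 1) → ℤ}
    (ha : a ∈ repR (n + 1) k) (ha' : a' ∈ repR (n + 1) k)
    {d : Matrix (Fin (n + 1)) (Fin (n + 1)) ℚ} (hd : 0 < d.det)
    (h : latt ((qq (Matrix.of a))⁻¹ * d) = latt ((qq (Matrix.of a'))⁻¹ * d)) : a = a' := by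
  have hga := he2_unit hk (det_repR ha)
  have hga' := he2_unit hk (det_repR ha')
  have hdu : IsUnit d.det := hd.ne'.isUnit
  obtain ⟨γ, hγ⟩ := Pool.Agent.GLQ.basis_uniq (he2_pos hk (det_repR ha') hd).1
    (he2_pos hk (det_repR ha) hd).1 h.symm
  -- `(qq a)⁻¹ * d = qq γ * ((qq a')⁻¹ * d)`
  have h1 : (qq (Matrix.of a))⁻¹ = qq γ.1 * (qq (Matrix.of a'))⁻¹ := by
    have := congrArg (· * d⁻¹) hγ
    simp only [Matrix.mul_assoc] at this
    rwa [Matrix.mul_nonsing_inv _ hdu, Matrix.mul_one, Matrix.mul_one] at this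
  have h2 : qq (Matrix.of a') = qq (Matrix.of a) * qq γ.1 := by
    have h3 : (qq (Matrix.of a))⁻¹ * qq (Matrix.of a') = qq γ.1 := by
      rw [h1, Matrix.mul_assoc, Matrix.nonsing_inv_mul _ hga', Matrix.mul_one]
    rw [← h3, ← Matrix.mul_assoc, Matrix.mul_nonsing_inv _ hga, Matrix.one_mul]
  rw [← he2_qq_mul] at h2
  exact hnfR_uniq hk ha ha' γ (Pool.Agent.GLQ.l2_qq_inj h2)

theorem he2_sub_inj {n k : ℕ} (hk : 1 ≤ k) {a a' : Fin (n + 1) → Fin (n + 1) → ℤ}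
    (ha : a ∈ repL (n + 1) k) (ha' : a' ∈ repL (n + 1) k)
    {d : Matrix (Fin (n + 1)) (Fin (n + 1)) ℚ} (hd : 0 < d.det)
    (h : latt (qq (Matrix.of a) * d) = latt (qq (Matrix.of a') * d)) : a = a' := by
  have hdu : IsUnit d.det := hd.ne'.isUnit
  obtain ⟨γ, hγ⟩ := Pool.Agent.GLQ.basis_uniq (he2_sub' hk ha hd).1 (he2_sub' hk ha' hd).1 h
  have h2 : qq (Matrix.of a') = qq γ.1 * qq (Matrix.of a) := by
    have := congrArg (· * d⁻¹) hγ
    simp only [Matrix.mul_assoc] at this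
    rwa [Matrix.mul_nonsing_inv _ hdu, Matrix.mul_one, Matrix.mul_one] at this
  rw [← he2_qq_mul] at h2
  exact hnfL_uniq hk ha ha' γ (Pool.Agent.GLQ.l2_qq_inj h2)

/-- `a ↦ ℤ^n a⁻¹ d` is a bijection from `repR n k` to the superlattices of index `k` -/
theorem sum_supS_pr {n k : ℕ} (hk : 1 ≤ k) {M : Type} [AddCommMonoid M] (g : Lat (n + 1) → M)
    (d : Matrix (Fin (n + 1)) (Fin (n + 1)) ℚ) (hd : 0 < d.det) :
    ∑ L ∈ supS k (latt d), g L =
      ∑ a ∈ repR (n + 1) k, g (latt ((qq (Matrix.of a))⁻¹ * d)) := by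
  classical
  have himg : supS k (latt d) = (repR (n + 1) k).image
      fun a => latt ((qq (Matrix.of a))⁻¹ * d) := by
    ext L
    rw [mem_supS hk ⟨d, hd, rfl⟩, Finset.mem_image]
    constructor
    · rintro ⟨h1, h2⟩
      exact he2_sup hk hd h1 h2
    · rintro ⟨a, ha, rfl⟩
      exact he2_sup' hk ha hd
  rw [himg, Finset.sum_image]
  intro a ha a' ha' h
  exact he2_sup_inj hk (Finset.mem_coe.1 ha) (Finset.mem_coe.1 ha') hd h

theorem sum_subS_pr {n k : ℕ} (hk : 1 ≤ k) {M : Type} [AddCommMonoid M] (g : Lat (n + 1) → M)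
    (d : Matrix (Fin (n + 1)) (Fin (n + 1)) ℚ) (hd : 0 < d.det) :
    ∑ L ∈ subS k (latt d), g L =
      ∑ a ∈ repL (n + 1) k, g (latt (qq (Matrix.of a) * d)) := by
  classical
  have himg : subS k (latt d) = (repL (n + 1) k).image
      fun a => latt (qq (Matrix.of a) * d) := by
    ext L
    rw [mem_subS hk ⟨d, hd, rfl⟩, Finset.mem_image]
    constructor
    · rintro ⟨h1, h2⟩
      exact he2_sub hk hd h1 h2
    · rintro ⟨a, ha, rfl⟩
      exact (he2_sub' hk ha hd).2.2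
  rw [himg, Finset.sum_image]
  intro a ha a' ha' h
  exact he2_sub_inj hk (Finset.mem_coe.1 ha) (Finset.mem_coe.1 ha') hd h

theorem supS_isB_pr {n k : ℕ} (hk : 1 ≤ k) {L M : Lat (n + 1)}
    {d : Matrix (Fin (n + 1)) (Fin (n + 1)) ℚ} (hd : IsB d L) (h : M ∈ supS k L) :
    ∃ e, IsB e M ∧ (k : ℚ) * e.det = d.det := by
  rw [mem_supS hk ⟨d, hd⟩] at h
  obtain ⟨hd1, rfl⟩ := hd
  obtain ⟨a, ha, rfl⟩ := he2_sup hk hd1 h.1 h.2
  have h3 := he2_pos hk (det_repR ha) hd1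
  exact ⟨_, ⟨h3.1, rfl⟩, h3.2⟩

theorem subS_isB_pr {n k : ℕ} (hk : 1 ≤ k) {L M : Lat (n + 1)}
    {d : Matrix (Fin (n + 1)) (Fin (n + 1)) ℚ} (hd : IsB d L) (h : M ∈ subS k L) :
    ∃ e, IsB e M ∧ e.det = (k : ℚ) * d.det := by
  rw [mem_subS hk ⟨d, hd⟩] at h
  obtain ⟨hd1, rfl⟩ := hd
  obtain ⟨a, ha, rfl⟩ := he2_sub hk hd1 h.1 h.2
  have h3 := he2_sub' hk ha hd1
  exact ⟨_, ⟨h3.1, rfl⟩, h3.2.1⟩

end

end Pool.Agent.SGB

namespace Pool.Agent.SGB

alias sum_supS := sum_supS_pr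
alias sum_subS := sum_subS_pr
alias supS_isB := supS_isB_pr
alias subS_isB := subS_isB_pr

end Pool.Agent.SGB
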