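import Pool.Agent.Lib_helper56.SGB.Defs
import Pool.Agent.Lib_helper56.SGB.F.HC
import Pool.Agent.Lib_helper56.SGB.F.HE1
import Pool.Agent.Lib_helper56.SGB.F.HE2

set_option autoImplicit false

namespace Pool.Agent.SGB

open MeasureTheory Matrix
open Pool.Agent.RS (Mt lm SLZ)
open Pool.Agent.GLQ (re unip cube slab Xp wN IN rm rr qq Lat latt Lz IsRed RY Om Box Kern IsInv Bd sp)
open Pool.Agent.SGN (md repR repL heckeT heckeA supS subS UW Wd lw nf WOk)
open scoped ENNReal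

noncomputable section

open Classical in
theorem hi_sp_apply {V : Type} (nb : V → Finset V) (f : V →₀ ℕ) (M : V) :
    sp nb f M = f.sum fun L c => if M ∈ nb L then c else 0 := by
  unfold sp Finsupp.sum
  rw [Finsupp.finsetSum_apply]
  refine Finset.sum_congr rfl fun L _ => ?_
  rw [Finsupp.finsetSum_apply]
  simp only [Finsupp.single_apply]
  rw [Finset.sum_ite_eq' (nb L) M fun _ => f L]

theorem hi_sp_supp {V : Type} (nb : V → Finset V) (f : V →₀ ℕ) (M : V) (h : sp nb f M ≠ 0) :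
    ∃ L, f L ≠ 0 ∧ M ∈ nb L := by
  classical
  rw [hi_sp_apply] at h
  unfold Finsupp.sum at h
  obtain ⟨L, hL, hne⟩ := Finset.exists_ne_zero_of_sum_ne_zero h
  refine ⟨L, Finsupp.mem_support_iff.mp hL, ?_⟩
  by_contra hM
  exact hne (if_neg hM)

/-- masses of `sp` -/
theorem hi_sp_mass {V : Type} (nb : V → Finset V) (f : V →₀ ℕ) (B : ℕ)
    (h : ∀ L, f L ≠ 0 → (nb L).card ≤ B) :
    ((sp nb f).sum fun _ c => c) ≤ B * f.sum fun _ c => c := by
  have h0 : ∀ a : V, (fun (_ : V) (c : ℕ) => c) a 0 = 0 := fun _ => rfl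
  have h1 : ∀ (a : V) (b₁ b₂ : ℕ), (fun (_ : V) (c : ℕ) => c) a (b₁ + b₂) =
      (fun (_ : V) (c : ℕ) => c) a b₁ + (fun (_ : V) (c : ℕ) => c) a b₂ := fun _ _ _ => rfl
  unfold sp
  rw [Finsupp.sum_sum_index h0 h1]
  unfold Finsupp.sum
  rw [Finset.mul_sum]
  refine Finset.sum_le_sum fun L hL => ?_
  show Finsupp.sum (∑ M ∈ nb L, Finsupp.single M (f L)) (fun _ c => c) ≤ B * f L
  rw [← Finsupp.sum_finsetSum_index h0 h1]
  calc ∑ M ∈ nb L, (Finsupp.single M (f L)).sum (fun _ c => c) = ∑ M ∈ nb L, f L := by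
        refine Finset.sum_congr rfl fun M _ => ?_
        rw [Finsupp.sum_single_index rfl]
    _ = (nb L).card * f L := by rw [Finset.sum_const, smul_eq_mul]
    _ ≤ B * f L := Nat.mul_le_mul_right _ (h L (Finsupp.mem_support_iff.mp hL))

/-- the property of the lattices in the support -/
def HiP {m : ℕ} (a b : ℕ) (L : Lat (m + 1)) : Prop :=
  (∀ v ∈ Lz (m + 1), ((b : ℕ) : ℚ) • v ∈ L) ∧
      ∃ d, IsB d L ∧ ((a : ℕ) : ℚ) * d.det = ((b : ℕ) : ℚ)

theorem hi_dn {m : ℕ} : ∀ l : List ℕ, (∀ b ∈ l, 1 ≤ b) →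
    ∀ L : Lat (m + 1), l.foldr (fun b f => sp (subS b) f) (Finsupp.single (Lz (m + 1)) 1) L ≠ 0 →
      HiP 1 l.prod L
  | [], _, L, h => by
      classical
      simp only [List.foldr_nil, Finsupp.single_apply] at h
      split_ifs at h with hL
      · subst hL
        refine ⟨fun v hv => by simpa using hv, 1, ⟨by rw [Matrix.det_one]; norm_num, rfl⟩, ?_⟩
        simp
      · exact absurd rfl h
  | b :: l, hl, L, h => by
      rw [List.foldr_cons] at h
      obtain ⟨L', hL', hM⟩ := hi_sp_supp _ _ _ h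
      have hb : 1 ≤ b := hl b (by simp)
      obtain ⟨h1, d, hd, hdet⟩ := hi_dn l (fun c hc => hl c (by simp [hc])) L' hL'
      obtain ⟨e, he, hedet⟩ := subS_isB hb hd hM
      have hsub := (mem_subS hb ⟨d, hd⟩ L).mp hM
      refine ⟨fun v hv => ?_, e, he, ?_⟩
      · have hv' := h1 v hv
        have h2 : b • (((l.prod : ℕ) : ℚ) • v) ∈ L := by
          have h3 := AddSubgroup.nsmul_relIndex_mem L hv'
          rw [hsub.2] at h3
          exact h3
        have h4 : (((b :: l).prod : ℕ) : ℚ) • v = b • (((l.prod : ℕ) : ℚ) • v) := by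
          rw [List.prod_cons, Nat.cast_mul, mul_smul, Nat.cast_smul_eq_nsmul]
        rw [h4]
        exact h2
      · rw [hedet, List.prod_cons]
        push_cast
        push_cast at hdet
        rw [one_mul] at hdet ⊢
        rw [hdet]

theorem hi_up {m : ℕ} (l2 : List ℕ) (hl2 : ∀ b ∈ l2, 1 ≤ b) : ∀ l : List ℕ, (∀ b ∈ l, 1 ≤ b) →
    ∀ L : Lat (m + 1), l.foldr (fun a f => sp (supS a) f)
      (l2.foldr (fun b f => sp (subS b) f) (Finsupp.single (Lz (m + 1)) 1)) L ≠ 0 →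
      HiP l.prod l2.prod L
  | [], _, L, h => by
      rw [List.prod_nil]
      exact hi_dn l2 hl2 L h
  | b :: l, hl, L, h => by
      rw [List.foldr_cons] at h
      obtain ⟨L', hL', hM⟩ := hi_sp_supp _ _ _ h
      have hb : 1 ≤ b := hl b (by simp)
      obtain ⟨h1, d, hd, hdet⟩ := hi_up l2 hl2 l (fun c hc => hl c (by simp [hc])) L' hL'
      obtain ⟨e, he, hedet⟩ := supS_isB hb hd hM
      have hsup := (mem_supS hb ⟨d, hd⟩ L).mp hM
      refine ⟨fun v hv => hsup.1 (h1 v hv), e, he, ?_⟩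
      rw [List.prod_cons]
      push_cast
      push_cast at hdet
      rw [← hdet, ← hedet]
      ring

/-- the lattices in the support of a word: they contain `(∏ b) ℤ^n` and have covolume
`∏ b / ∏ a` -/
theorem UW_supp_pr {m : ℕ} {W : Wd} (hW : (∀ a ∈ W.1, 1 ≤ a) ∧ ∀ b ∈ W.2, 1 ≤ b)
    {L : Lat (m + 1)} (h : UW (m + 1) W L ≠ 0) :
    (∀ v ∈ Lz (m + 1), ((W.2.prod : ℕ) : ℚ) • v ∈ L) ∧
      ∃ d, IsB d L ∧ ((W.1.prod : ℕ) : ℚ) * d.det = ((W.2.prod : ℕ) : ℚ) :=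
  hi_up W.2 hW.2 W.1 hW.1 L h

theorem hi_card_bd (m k : ℕ) (hk : 1 ≤ k) :
    k ^ m * k.divisors.card ^ (m + 1) ≤ k ^ (2 * (m + 1)) := by
  have h1 : k.divisors.card ≤ k := Nat.card_divisors_le_self k
  calc k ^ m * k.divisors.card ^ (m + 1) ≤ k ^ (m + 1) * k ^ (m + 1) :=
        Nat.mul_le_mul (Nat.pow_le_pow_right hk (Nat.le_succ m)) (Nat.pow_le_pow_left h1 _)
    _ = k ^ (2 * (m + 1)) := by rw [← pow_add]; congr 1; ring

theorem hi_card_sub {m k : ℕ} (hk : 1 ≤ k) {L : Lat (m + 1)} (hL : ∃ d, IsB d L) :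
    (subS k L).card ≤ k ^ (2 * (m + 1)) := by
  obtain ⟨d, hd⟩ := hL
  have h := sum_subS hk (fun _ : Lat (m + 1) => (1 : ℕ)) d hd.1
  rw [hd.2] at h
  rw [Finset.sum_const, Finset.sum_const, smul_eq_mul, smul_eq_mul, mul_one, mul_one] at h
  rw [h]
  exact (card_repL m k hk).trans (hi_card_bd m k hk)

theorem hi_card_sup {m k : ℕ} (hk : 1 ≤ k) {L : Lat (m + 1)} (hL : ∃ d, IsB d L) :
    (supS k L).card ≤ k ^ (2 * (m + 1)) := by
  obtain ⟨d, hd⟩ := hL
  have h := sum_supS hk (fun _ : Lat (m + 1) => (1 : ℕ)) d hd.1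
  rw [hd.2] at h
  rw [Finset.sum_const, Finset.sum_const, smul_eq_mul, smul_eq_mul, mul_one, mul_one] at h
  rw [h]
  exact (card_repR m k hk).trans (hi_card_bd m k hk)

theorem hi_dn_mass {m : ℕ} : ∀ l : List ℕ, (∀ b ∈ l, 1 ≤ b) →
    ((l.foldr (fun b f => sp (subS b) f) (Finsupp.single (Lz (m + 1)) 1)).sum fun _ c => c) ≤
      l.prod ^ (2 * (m + 1))
  | [], _ => by
      rw [List.foldr_nil, Finsupp.sum_single_index rfl]
      simp
  | b :: l, hl => by
      have hb : 1 ≤ b := hl b (by simp)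
      have hl' : ∀ c ∈ l, 1 ≤ c := fun c hc => hl c (by simp [hc])
      rw [List.foldr_cons, List.prod_cons, mul_pow]
      refine (hi_sp_mass _ _ (b ^ (2 * (m + 1))) fun L hL => ?_).trans
        (Nat.mul_le_mul_left _ (hi_dn_mass l hl'))
      obtain ⟨_, d, hd, _⟩ := hi_dn l hl' L hL
      exact hi_card_sub hb ⟨d, hd⟩

theorem hi_up_mass {m : ℕ} (l2 : List ℕ) (hl2 : ∀ b ∈ l2, 1 ≤ b) : ∀ l : List ℕ,
    (∀ b ∈ l, 1 ≤ b) →
    ((l.foldr (fun a f => sp (supS a) f)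
      (l2.foldr (fun b f => sp (subS b) f) (Finsupp.single (Lz (m + 1)) 1))).sum fun _ c => c) ≤
      (l.prod * l2.prod) ^ (2 * (m + 1))
  | [], _ => by
      rw [List.foldr_nil, List.prod_nil, one_mul]
      exact hi_dn_mass l2 hl2
  | b :: l, hl => by
      have hb : 1 ≤ b := hl b (by simp)
      have hl' : ∀ c ∈ l, 1 ≤ c := fun c hc => hl c (by simp [hc])
      rw [List.foldr_cons, List.prod_cons, mul_assoc, mul_pow]
      refine (hi_sp_mass _ _ (b ^ (2 * (m + 1))) fun L hL => ?_).trans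
        (Nat.mul_le_mul_left _ (hi_up_mass l2 hl2 l hl'))
      obtain ⟨_, d, hd, _⟩ := hi_up l2 hl2 l hl' L hL
      exact hi_card_sup hb ⟨d, hd⟩

/-- the number of terms (`#repR k ≤ k^(2n)`) -/
theorem UW_mass_pr {m : ℕ} {W : Wd} (hW : (∀ a ∈ W.1, 1 ≤ a) ∧ ∀ b ∈ W.2, 1 ≤ b) :
    ((UW (m + 1) W).sum fun _ c => c) ≤ (Pool.Agent.SGN.wt W) ^ (2 * (m + 1)) :=
  hi_up_mass W.2 hW.2 W.1 hW.1

end

end Pool.Agent.SGB

namespace Pool.Agent.SGB

alias UW_supp := UW_supp_pr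
alias UW_mass := UW_mass_pr

end Pool.Agent.SGB
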