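import Pool.Agent.Lib_helper56.SGB.Defs
import Pool.Agent.Lib_helper56.GLQ.F.R3
import Pool.Agent.Lib_helper56.GLQ.F.W6

/-!
# Project SGN, part B, block AA: level `1` weights, unfolding, folding
-/

set_option autoImplicit false

namespace Pool.Agent.SGB

open MeasureTheory Matrix
open Pool.Agent.RS (Mt lm SLZ)
open Pool.Agent.GLQ (re unip cube slab Xp wN IN rm rr qq Lat latt Lz IsRed RY Om Box Kern IsInv Bd sp)
open Pool.Agent.SGN (md repR repL heckeT heckeA supS subS UW Wd lw nf WOk)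
open scoped ENNReal

noncomputable section

theorem aa_tsum {m : ℕ} (f : SLZ (m + 1) → ℝ≥0∞) :
    ∑' γ : Pool.Agent.GLQ.G0 m 1, f (γ : SLZ (m + 1)) = ∑' γ : SLZ (m + 1), f γ := by
  rw [← (Equiv.subtypeUnivEquiv (p := fun γ => γ ∈ Pool.Agent.GLQ.G0 m 1)
      (fun γ => Pool.Agent.GLQ.w6_mem γ)).tsum_eq f]
  rfl

/-- `G0 m 1` is everything -/
theorem w1_sum_pr (m : ℕ) (A : Mt (m + 1)) (hA : 0 < (Matrix.of A).det) :
    ∑' γ : SLZ (m + 1), wN m 1 (lm (re γ.1) A) = 1 := by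
  rw [← aa_tsum fun γ => wN m 1 (lm (re γ.1) A)]
  exact Pool.Agent.GLQ.wN_sum m 1 A hA

theorem unfold1_pr (m : ℕ) (a b : ℝ) (ha : 0 < a) (K : Mt (m + 1) → ℝ≥0∞) (hK : Measurable K) :
    ∫⁻ A in slab (m + 1) a b, wN m 1 A * ∑' γ : SLZ (m + 1), K (lm (re γ.1) A) =
      ∫⁻ A in slab (m + 1) a b, K A := by
  rw [← Pool.Agent.GLQ.unfold_N m 1 a b ha K hK]
  refine lintegral_congr fun A => ?_
  rw [aa_tsum fun γ => K (lm (re γ.1) A)]

theorem aa_md_mul {n : ℕ} (q : ℕ) (a b : Matrix (Fin n) (Fin n) ℤ) :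
    md q (a * b) = md q a * md q b := by
  unfold md
  exact Matrix.map_mul (f := Int.castRingHom (ZMod q))

theorem aa_md_one {n : ℕ} (q : ℕ) : md q (1 : Matrix (Fin n) (Fin n) ℤ) = 1 := by
  unfold md
  exact Matrix.map_one _ (by simp) (by simp)

/-- `x ↦ x γ` -/
def aa_equiv {n : ℕ} (q : ℕ) (γ : SLZ n) : (Fin n → ZMod q) ≃ (Fin n → ZMod q) where
  toFun x := x ᵥ* md q γ.1
  invFun x := x ᵥ* md q γ⁻¹.1
  left_inv x := by
    show (x ᵥ* md q γ.1) ᵥ* md q γ⁻¹.1 = x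
    rw [Matrix.vecMul_vecMul, ← aa_md_mul, show γ.1 * γ⁻¹.1 = 1 from
      congrArg Subtype.val (mul_inv_cancel γ), aa_md_one, Matrix.vecMul_one]
  right_inv x := by
    show (x ᵥ* md q γ⁻¹.1) ᵥ* md q γ.1 = x
    rw [Matrix.vecMul_vecMul, ← aa_md_mul, show γ⁻¹.1 * γ.1 = 1 from
      congrArg Subtype.val (inv_mul_cancel γ), aa_md_one, Matrix.vecMul_one]

theorem x_isInv_pr {m q : ℕ} [NeZero q] {F : Mt (m + 1) → (Fin (m + 1) → ZMod q) → ℝ≥0∞}
    (hF : XInv m q F) : IsInv m 1 fun A => ∑ x, F A x where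
  meas := Finset.measurable_sum _ fun x _ => hF.meas x
  inv := by
    intro γ _ A
    show ∑ x, F (lm (re γ.1) A) x = ∑ x, F A x
    rw [Finset.sum_congr rfl fun x _ => hF.inv γ A x]
    exact (aa_equiv q γ).sum_comp fun x => F A x
  scal := by
    intro t A ht
    exact Finset.sum_congr rfl fun x _ => hF.scal t A x ht

/-- PROOF. `1_Om F ≤ ∑_γ (1_RY F)(γ A)` and `unfold1` -/
theorem fold_Om_pr (m : ℕ) (Y : ℝ) (hY : 0 < Y) (F : Mt (m + 1) → ℝ≥0∞) (hF : IsInv m 1 F) :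
    IN m 1 ((Om (m + 1) Y).indicator F) ≤ ∫⁻ A in Xp (m + 1) ∩ RY (m + 1) Y, F A := by
  have hR : MeasurableSet (RY (m + 1) Y) := Pool.Agent.GLQ.RY_meas (m + 1) Y hY
  have hK : Measurable ((RY (m + 1) Y).indicator F) := hF.meas.indicator hR
  have h1 : ∫⁻ A in Xp (m + 1) ∩ RY (m + 1) Y, F A =
      ∫⁻ A in slab (m + 1) 1 2, (RY (m + 1) Y).indicator F A := by
    rw [setLIntegral_indicator hR, Set.inter_comm]
    rfl
  rw [h1, ← unfold1_pr m 1 2 one_pos _ hK]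
  refine lintegral_mono fun A => ?_
  show wN m 1 A * (Om (m + 1) Y).indicator F A ≤
    wN m 1 A * ∑' γ : SLZ (m + 1), (RY (m + 1) Y).indicator F (lm (re γ.1) A)
  refine mul_le_mul_right ?_ _
  by_cases hA : A ∈ Om (m + 1) Y
  · rw [Set.indicator_of_mem hA]
    obtain ⟨-, γ, hγ⟩ := hA
    have h2 : F A = (RY (m + 1) Y).indicator F (lm (re γ.1) A) := by
      rw [Set.indicator_of_mem hγ, hF.inv γ (Pool.Agent.GLQ.w6_mem γ) A]
    rw [h2]
    exact ENNReal.le_tsum γ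
  · rw [Set.indicator_of_notMem hA]
    exact bot_le

/-- from `GLQ.mass_le` -/
theorem mass1_pr (m : ℕ) (hm : 1 ≤ m) : IN m 1 (fun _ => 1) ≠ ⊤ :=
  Pool.Agent.GLQ.w6_one m

end

end Pool.Agent.SGB

namespace Pool.Agent.SGB

alias w1_sum := w1_sum_pr
alias unfold1 := unfold1_pr
alias x_isInv := x_isInv_pr
alias fold_Om := fold_Om_pr
alias mass1 := mass1_pr

end Pool.Agent.SGB
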