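import Pool.Agent.Lib_helper56.SGB.Defs
import Pool.Agent.Lib_helper56.SGB.F.AA

/-!
# Project SGN, part B, block DB: measurability, right translation
-/

set_option autoImplicit false

namespace Pool.Agent.SGB

open MeasureTheory Matrix
open Pool.Agent.RS (Mt lm SLZ)
open Pool.Agent.GLQ (re unip cube slab Xp wN IN rm rr qq Lat latt Lz IsRed RY Om Box Kern IsInv Bd sp)
open Pool.Agent.SGN (md repR repL heckeT heckeA supS subS UW Wd lw nf WOk)
open scoped ENNReal

noncomputable section

theorem pre_meas_pr {m q : ℕ} {f : Fm m q} (h : Pre m q f) (x : Fin (m + 1) → ZMod q) :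
    Measurable fun A : Mt (m + 1) => f (Matrix.of A) x := by
  classical
  set s : Set (Mt (m + 1)) := {A | 0 < (Matrix.of A).det} with hs
  have hsm : MeasurableSet s := measurableSet_lt measurable_const
    (Pool.Agent.RS.measurable_det (m + 1))
  have h1 : ContinuousOn (fun A : Mt (m + 1) => f (Matrix.of A) x) s := by
    refine (h.cont x).comp (t := {g : Matrix (Fin (m + 1)) (Fin (m + 1)) ℝ | 0 < g.det}) ?_
      fun A hA => hA
    exact continuous_id.continuousOn
  have h2 : (fun A : Mt (m + 1) => f (Matrix.of A) x) =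
      s.piecewise (fun A : Mt (m + 1) => f (Matrix.of A) x) (fun _ => 0) := by
    funext A
    by_cases hA : A ∈ s
    · rw [Set.piecewise_eq_of_mem _ _ _ hA]
    · rw [Set.piecewise_eq_of_notMem _ _ _ hA]
      exact h.out _ x hA
  rw [h2]
  exact h1.measurable_piecewise continuousOn_const hsm

theorem pre_xinv_pr {m q : ℕ} {f : Fm m q} (h : Pre m q f) : XInv m q (nsX f) where
  meas := by
    intro x
    unfold nsX
    exact ENNReal.measurable_ofReal.comp ((pre_meas_pr h x).norm.pow_const 2)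
  inv := by
    intro γ A x
    unfold nsX
    have h1 : (Matrix.of (lm (re γ.1) A) : Matrix (Fin (m + 1)) (Fin (m + 1)) ℝ) =
        re γ.1 * Matrix.of A := rfl
    rw [h1, h.inv]
  scal := by
    intro t A x ht
    unfold nsX
    have h1 : (Matrix.of (t • A) : Matrix (Fin (m + 1)) (Fin (m + 1)) ℝ) = t • Matrix.of A := rfl
    rw [h1, h.scal t _ x ht]

/-- [W4] for `∑_x` -/
theorem rightX_pr (m : ℕ) (B : Set (Mt (m + 1))) (hB : IsCompact B)
    (hB0 : ∀ h ∈ B, 0 < (Matrix.of h).det) : ∃ C : ℝ≥0∞, C ≠ ⊤ ∧ ∀ (q : ℕ) [NeZero q]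
    (F : Mt (m + 1) → (Fin (m + 1) → ZMod q) → ℝ≥0∞), XInv m q F → ∀ h ∈ B,
      IX m q (fun A x => F (rm A h) x) ≤ C * IX m q F := by
  obtain ⟨C, hC, h1⟩ := GLQ.right_le m B hB hB0
  exact ⟨C, hC, fun q _ F hF h hh => h1 1 _ (x_isInv hF) h hh⟩

end

end Pool.Agent.SGB

namespace Pool.Agent.SGB

alias pre_meas := pre_meas_pr
alias pre_xinv := pre_xinv_pr
alias rightX := rightX_pr

end Pool.Agent.SGB
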