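import Pool.Agent.Lib_helper56.SGB.Defs
import Pool.Agent.Lib_helper56.GLQ.F.D3
import Pool.Agent.Lib_helper56.SGB.F.AA
import Pool.Agent.Lib_helper56.SGB.F.DB

/-!
# Project SGN, part B: block DC1 (norms and scalar products)
-/

set_option autoImplicit false

namespace Pool.Agent.SGB

open MeasureTheory Matrix
open Pool.Agent.RS (Mt lm SLZ)
open Pool.Agent.GLQ (re unip cube slab Xp wN IN rm rr qq Lat latt Lz IsRed RY Om Box Kern IsInv Bd sp)
open Pool.Agent.SGN (md repR repL heckeT heckeA supS subS UW Wd lw nf WOk)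
open scoped ENNReal

noncomputable section

theorem dc1_int_toReal {m q : ℕ} [NeZero q] (f : Fm m q) (A : Mt (m + 1)) :
    (((∑ x, nsX f A x).toReal : ℝ) : ℂ) =
      ∑ x, f (Matrix.of A) x * (starRingEnd ℂ) (f (Matrix.of A) x) := by
  have hne : ∀ x ∈ (Finset.univ : Finset (Fin (m + 1) → ZMod q)), nsX f A x ≠ ⊤ :=
    fun x _ => ENNReal.ofReal_ne_top
  rw [ENNReal.toReal_sum hne]
  push_cast
  refine Finset.sum_congr rfl fun x _ => ?_
  unfold nsX
  rw [ENNReal.toReal_ofReal (by positivity), Complex.mul_conj, Complex.normSq_eq_norm_sq]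

theorem norm_ne_topX_pr {m q : ℕ} [NeZero q] (hm : 1 ≤ m) {f : Fm m q} (h : Pre m q f) :
    IX m q (nsX f) ≠ ⊤ := by
  obtain ⟨M, hM⟩ := h.bdd
  have hc : ENNReal.ofReal (M ^ 2) * (Fintype.card (Fin (m + 1) → ZMod q) : ℝ≥0∞) ≠ ⊤ :=
    ENNReal.mul_ne_top ENNReal.ofReal_ne_top (ENNReal.natCast_ne_top _)
  refine ne_top_of_le_ne_top (ENNReal.mul_ne_top hc
    (Pool.Agent.GLQ.d3_mass (N := 1) hm one_ne_zero)) ?_
  unfold IX IN
  rw [← lintegral_const_mul _ (by
    simpa using (Pool.Agent.GLQ.wN_meas m 1))]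
  refine lintegral_mono fun A => ?_
  simp only [mul_one]
  rw [mul_comm]
  refine mul_le_mul' ?_ le_rfl
  calc ∑ x, nsX f A x ≤ ∑ _x : Fin (m + 1) → ZMod q, ENNReal.ofReal (M ^ 2) := by
        refine Finset.sum_le_sum fun x _ => ENNReal.ofReal_le_ofReal ?_
        exact pow_le_pow_left₀ (norm_nonneg _) (hM _ x) 2
    _ = ENNReal.ofReal (M ^ 2) * (Fintype.card (Fin (m + 1) → ZMod q) : ℝ≥0∞) := by
        rw [Finset.sum_const, nsmul_eq_mul, mul_comm, Finset.card_univ]

theorem norm_ne_zeroX_pr {m q : ℕ} [NeZero q] {f : Fm m q} (h : Pre m q f)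
    (h0 : ∃ (g : Matrix (Fin (m + 1)) (Fin (m + 1)) ℝ) (x : Fin (m + 1) → ZMod q), f g x ≠ 0) :
    IX m q (nsX f) ≠ 0 := by
  intro hz
  obtain ⟨g, x, hφ⟩ := h0
  have hg : 0 < g.det := by
    by_contra hg
    exact hφ (h.out g x hg)
  have hinv : IsInv m 1 fun A => ∑ x, nsX f A x := x_isInv (pre_xinv h)
  -- the integral without weights
  have h1 : ∫⁻ A in Xp (m + 1), (∑ x, nsX f A x) = 0 := by
    have hu := Pool.Agent.GLQ.unfold_N m 1 1 2 one_pos (fun A => ∑ x, nsX f A x) hinv.meas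
    have e : Xp (m + 1) = slab (m + 1) 1 2 := rfl
    rw [e, ← hu, ← e]
    unfold IX IN at hz
    replace hz := (lintegral_eq_zero_iff (f := fun A => wN m 1 A * ∑ x, nsX f A x)
      ((Pool.Agent.GLQ.wN_meas m 1).mul hinv.meas)).mp hz
    refine Eq.trans (lintegral_congr_ae (g := fun _ => 0) ?_) lintegral_zero
    filter_upwards [hz] with A hA
    have hA' : wN m 1 A * ∑ x, nsX f A x = 0 := hA
    rcases mul_eq_zero.mp hA' with h2 | h2
    · simp [h2]
    · have h3 : ∀ γ : Pool.Agent.GLQ.G0 m 1,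
          ∑ x, nsX f (lm (re (γ : SLZ (m + 1)).1) A) x = 0 :=
        fun γ => (hinv.inv γ.1 γ.2 A).trans h2
      simp [h3]
  -- an open set
  set U : Set (Mt (m + 1)) := {A | 1 < (Matrix.of A).det ∧ (Matrix.of A).det < 2 ∧
    f (Matrix.of A) x ≠ 0} with hU
  have hcont : ContinuousOn (fun A : Mt (m + 1) => f (Matrix.of A) x)
      {A : Mt (m + 1) | 0 < (Matrix.of A).det} := by
    have := h.cont x
    exact this
  have hdc := Pool.Agent.GLQ.d3_det_cont (m + 1)
  have hop : IsOpen {A : Mt (m + 1) | 0 < (Matrix.of A).det} :=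
    isOpen_lt continuous_const hdc
  have hUo : IsOpen U := by
    have h2 : IsOpen ({A : Mt (m + 1) | 0 < (Matrix.of A).det} ∩
        (fun A : Mt (m + 1) => f (Matrix.of A) x) ⁻¹' {0}ᶜ) :=
      hcont.isOpen_inter_preimage hop isOpen_compl_singleton
    have h3 : IsOpen {A : Mt (m + 1) | 1 < (Matrix.of A).det} :=
      isOpen_lt continuous_const hdc
    have h4 : IsOpen {A : Mt (m + 1) | (Matrix.of A).det < 2} :=
      isOpen_lt hdc continuous_const
    have h5 : U = ({A : Mt (m + 1) | 0 < (Matrix.of A).det} ∩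
        (fun A : Mt (m + 1) => f (Matrix.of A) x) ⁻¹' {0}ᶜ) ∩
        ({A : Mt (m + 1) | 1 < (Matrix.of A).det} ∩ {A : Mt (m + 1) | (Matrix.of A).det < 2}) := by
      ext A
      simp only [hU, Set.mem_inter_iff, Set.mem_ofPred_eq, Set.mem_preimage,
        Set.mem_compl_iff, Set.mem_singleton_iff]
      constructor
      · rintro ⟨a, b, c⟩
        exact ⟨⟨by linarith, c⟩, a, b⟩
      · rintro ⟨⟨_, c⟩, a, b⟩
        exact ⟨a, b, c⟩
    rw [h5]
    exact h2.inter (h3.inter h4)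
  have hUn : U.Nonempty := by
    set t : ℝ := ((3 / 2) / g.det) ^ (((m : ℝ) + 1)⁻¹) with ht
    have ht0 : 0 < t := Real.rpow_pos_of_pos (by positivity) _
    have htn : t ^ (m + 1) = (3 / 2) / g.det := by
      have h2 := Real.rpow_inv_natCast_pow (x := (3 / 2) / g.det) (by positivity)
        (Nat.succ_ne_zero m)
      rw [ht]
      simpa using h2
    have hdet : (t • g).det = 3 / 2 := by
      rw [Matrix.det_smul, Fintype.card_fin, htn, div_mul_cancel₀ _ hg.ne']
    refine ⟨fun i j => (t • g) i j, ?_⟩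
    have e : (Matrix.of fun i j => (t • g) i j) = t • g := by
      ext i j; rfl
    refine ⟨?_, ?_, ?_⟩
    · rw [e, hdet]; norm_num
    · rw [e, hdet]; norm_num
    · rw [e, h.scal t g x ht0]; exact hφ
  have hpos : 0 < volume U := hUo.measure_pos volume hUn
  have hUX : U ⊆ Xp (m + 1) := fun A hA => ⟨hA.1.le, hA.2.1.le⟩
  have h2 : ∫⁻ A in U, (∑ x, nsX f A x) = 0 := by
    refine le_antisymm ?_ zero_le
    rw [← h1]
    exact lintegral_mono_set hUX
  rw [lintegral_eq_zero_iff hinv.meas] at h2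
  have h3 : ∀ᵐ A ∂(volume.restrict U), A ∈ U := ae_restrict_mem hUo.measurableSet
  have h4 : ∀ᵐ A ∂(volume.restrict U), False := by
    filter_upwards [h2, h3] with A hA hAU
    have h5 : ∑ x, nsX f A x = 0 := hA
    have h5' : nsX f A x = 0 :=
      (Finset.sum_eq_zero_iff.mp h5) x (Finset.mem_univ x)
    unfold nsX at h5'
    rw [ENNReal.ofReal_eq_zero] at h5'
    have h6 : 0 < ‖f (Matrix.of A) x‖ := norm_pos_iff.mpr hAU.2.2
    have h7 : 0 < ‖f (Matrix.of A) x‖ ^ 2 := by positivity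
    linarith
  have h5 : volume.restrict U = 0 := by
    rw [← Measure.measure_univ_eq_zero]
    have := (ae_iff.mp h4)
    simpa using this
  rw [Measure.restrict_eq_zero] at h5
  exact hpos.ne' h5

theorem ip_selfX_pr {m q : ℕ} [NeZero q] (hm : 1 ≤ m) {f : Fm m q} (h : Pre m q f) :
    ipX m q f f = ((IX m q (nsX f)).toReal : ℂ) := by
  have _ := hm
  have hmeas : Measurable fun A : Mt (m + 1) => ∑ x, nsX f A x :=
    (x_isInv (pre_xinv h)).meas
  unfold ipX IX IN
  have h1 : ∀ A : Mt (m + 1), ((wN m 1 A).toReal : ℂ) *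
      (∑ x, f (Matrix.of A) x * (starRingEnd ℂ) (f (Matrix.of A) x)) =
      (((wN m 1 A * ∑ x, nsX f A x).toReal : ℝ) : ℂ) := by
    intro A
    rw [← dc1_int_toReal, ENNReal.toReal_mul]
    push_cast
    rfl
  simp_rw [h1]
  rw [integral_complex_ofReal]
  congr 1
  refine integral_toReal ((Pool.Agent.GLQ.wN_meas m 1).mul hmeas).aemeasurable ?_
  refine Filter.Eventually.of_forall fun A => ?_
  exact ENNReal.mul_lt_top (lt_of_le_of_lt (Pool.Agent.GLQ.wN_le_one m 1 A) ENNReal.one_lt_top)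
    (ENNReal.sum_lt_top.mpr fun x _ => ENNReal.ofReal_lt_top)

end

end Pool.Agent.SGB

namespace Pool.Agent.SGB

alias norm_ne_topX := norm_ne_topX_pr
alias norm_ne_zeroX := norm_ne_zeroX_pr
alias ip_selfX := ip_selfX_pr

end Pool.Agent.SGB
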