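import Pool.Agent.Lib_helper56.SGB.Defs

/-!
# SGB block KA: the spherical vector
-/

set_option autoImplicit false

namespace Pool.Agent.SGB

open MeasureTheory Matrix
open Pool.Agent.RS (Mt lm SLZ)
open Pool.Agent.GLQ (re unip cube slab Xp wN IN rm rr qq Lat latt Lz IsRed RY Om Box Kern IsInv Bd sp)
open Pool.Agent.SGN (md repR repL heckeT heckeA supS subS UW Wd lw nf WOk)
open scoped ENNReal

noncomputable section

theorem ka_lead_pos {n : ℕ} (h : Matrix (Fin n) (Fin n) ℝ) (hd : h.det ≠ 0) (k : ℕ) :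
    0 < Pool.Agent.SGN.lead h k := by
  set D : Matrix (Fin n) (Fin n) ℝ := Matrix.diagonal fun i => if (i : ℕ) < k then 1 else 0 with hD
  set E : Matrix (Fin n) (Fin n) ℝ := Matrix.diagonal fun i => if (i : ℕ) < k then 0 else 1 with hE
  have h1 : (Matrix.of fun i j : Fin n => if (i : ℕ) < k ∧ (j : ℕ) < k then (h * hᵀ) i j else
      if i = j then 1 else 0) = (D * h) * (D * h)ᴴ + E * Eᴴ := by
    ext i j
    rw [Matrix.add_apply, Matrix.conjTranspose_mul, Matrix.mul_assoc, ← Matrix.mul_assoc h,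
      ← Matrix.mul_assoc D, hD, hE, Matrix.diagonal_conjTranspose, Matrix.diagonal_conjTranspose,
      Matrix.mul_diagonal, Matrix.diagonal_mul, Matrix.diagonal_mul_diagonal, Matrix.diagonal_apply,
      Matrix.conjTranspose_eq_transpose_of_trivial, Matrix.of_apply]
    by_cases hij : i = j
    · subst hij
      by_cases hk : (i : ℕ) < k <;> simp [hk]
    · by_cases hk : (i : ℕ) < k <;> by_cases hk' : (j : ℕ) < k <;> simp [hk, hk', hij]
  have h2 : ((D * h) * (D * h)ᴴ + E * Eᴴ).PosDef := by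
    have hp : ((D * h) * (D * h)ᴴ + E * Eᴴ).PosSemidef :=
      (Matrix.posSemidef_self_mul_conjTranspose _).add (Matrix.posSemidef_self_mul_conjTranspose _)
    have hq : ∀ (A : Matrix (Fin n) (Fin n) ℝ) (x : Fin n → ℝ),
        star x ⬝ᵥ ((A * Aᴴ) *ᵥ x) = (Aᵀ *ᵥ x) ⬝ᵥ (Aᵀ *ᵥ x) := by
      intro A x
      rw [star_trivial, Matrix.conjTranspose_eq_transpose_of_trivial, ← Matrix.mulVec_mulVec,
        Matrix.dotProduct_mulVec, Matrix.mulVec_transpose]
    refine Matrix.PosDef.of_dotProduct_mulVec_pos hp.1 fun x hx => ?_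
    rw [Matrix.add_mulVec, dotProduct_add, hq, hq]
    have a1 : 0 ≤ ((D * h)ᵀ *ᵥ x) ⬝ᵥ ((D * h)ᵀ *ᵥ x) :=
      Finset.sum_nonneg fun i _ => mul_self_nonneg _
    have a2 : 0 ≤ (Eᵀ *ᵥ x) ⬝ᵥ (Eᵀ *ᵥ x) :=
      Finset.sum_nonneg fun i _ => mul_self_nonneg _
    refine lt_of_le_of_ne (add_nonneg a1 a2) fun h0 => hx ?_
    have b1 : (D * h)ᵀ *ᵥ x = 0 := dotProduct_self_eq_zero.1 (by linarith)
    have b2 : Eᵀ *ᵥ x = 0 := dotProduct_self_eq_zero.1 (by linarith)
    have b3 : Dᵀ *ᵥ x = 0 := by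
      rw [Matrix.transpose_mul, ← Matrix.mulVec_mulVec] at b1
      exact Matrix.eq_zero_of_mulVec_eq_zero (by rwa [Matrix.det_transpose]) b1
    ext i
    have c1 := congrFun b2 i
    have c2 := congrFun b3 i
    rw [hE, Matrix.diagonal_transpose, Matrix.mulVec_diagonal] at c1
    rw [hD, Matrix.diagonal_transpose, Matrix.mulVec_diagonal] at c2
    by_cases hk : (i : ℕ) < k
    · simpa [hk] using c2
    · simpa [hk] using c1
  rw [Pool.Agent.SGN.lead, h1]
  exact h2.det_pos

theorem ka_lead_cont (n k : ℕ) : Continuous fun z : Mt n =>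
    Pool.Agent.SGN.lead (Matrix.of z) k := by
  unfold Pool.Agent.SGN.lead
  refine Continuous.matrix_det ?_
  refine continuous_matrix fun i j => ?_
  simp only [Matrix.of_apply]
  split_ifs
  · simp only [Matrix.mul_apply, Matrix.transpose_apply, Matrix.of_apply]
    fun_prop
  · exact continuous_const
  · exact continuous_const

theorem ka_ell_pos {n : ℕ} (h : Matrix (Fin n) (Fin n) ℝ) (hd : h.det ≠ 0) (i : Fin n) :
    0 < Pool.Agent.SGN.ell h i :=
  Real.sqrt_pos.2 (div_pos (ka_lead_pos h hd _) (ka_lead_pos h hd _))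

theorem pw_cont_pr (n : ℕ) : ContinuousOn (fun z : (Fin n → ℂ) × Mt n =>
    Pool.Agent.SGN.pw z.1 (Matrix.of z.2)) {z | (Matrix.of z.2).det ≠ 0} := by
  unfold Pool.Agent.SGN.pw
  refine continuousOn_finsetProd _ fun i _ => ?_
  refine ContinuousOn.cpow ?_ ?_ ?_
  · refine Complex.continuous_ofReal.comp_continuousOn ?_
    unfold Pool.Agent.SGN.ell
    refine Real.continuous_sqrt.comp_continuousOn ?_
    refine ContinuousOn.div ?_ ?_ ?_
    · exact ((ka_lead_cont n _).comp continuous_snd).continuousOn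
    · exact ((ka_lead_cont n _).comp continuous_snd).continuousOn
    · intro z hz
      exact (ka_lead_pos _ hz _).ne'
  · refine Continuous.continuousOn ?_
    fun_prop
  · intro z hz
    exact Complex.ofReal_mem_slitPlane.2 (ka_ell_pos _ hz i)

theorem pw_orth_pr {n : ℕ} (μ : Fin n → ℂ) (o : Matrix (Fin n) (Fin n) ℝ) (h : o * oᵀ = 1) :
    Pool.Agent.SGN.pw μ o = 1 := by
  have h1 : ∀ k, Pool.Agent.SGN.lead o k = 1 := by
    intro k
    rw [Pool.Agent.SGN.lead, h]
    have : (Matrix.of fun i j : Fin n => if (i : ℕ) < k ∧ (j : ℕ) < k then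
        (1 : Matrix (Fin n) (Fin n) ℝ) i j else if i = j then 1 else 0) = 1 := by
      ext i j
      rw [Matrix.of_apply, Matrix.one_apply]
      split_ifs <;> rfl
    rw [this, Matrix.det_one]
  simp [Pool.Agent.SGN.pw, Pool.Agent.SGN.ell, h1]


end

end Pool.Agent.SGB

namespace Pool.Agent.SGB

alias pw_cont := pw_cont_pr
alias pw_orth := pw_orth_pr

end Pool.Agent.SGB
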