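import Pool.Agent.Lib_helper56.SGB.Defs
import Pool.Agent.Lib_helper56.SGB.F.KA

/-!
# Project SGN, part B, block KE: the kernel
-/

set_option autoImplicit false

namespace Pool.Agent.SGB

open MeasureTheory Matrix
open Pool.Agent.RS (Mt lm SLZ)
open Pool.Agent.GLQ (re unip cube slab Xp wN IN rm rr qq Lat latt Lz IsRed RY Om Box Kern IsInv Bd sp)
open Pool.Agent.SGN (md repR repL heckeT heckeA supS subS UW Wd lw nf WOk)
open scoped ENNReal

noncomputable section

/-- squared distance of `h hᵀ` from the identity -/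
def ke_F (n : ℕ) (h : Mt n) : ℝ :=
  ∑ i : Fin n, ∑ j : Fin n, (∑ k : Fin n, h i k * h j k - if i = j then 1 else 0) ^ 2

theorem ke_F_trace (n : ℕ) (h : Mt n) :
    ke_F n h = ((Matrix.of h * (Matrix.of h)ᵀ - 1) * (Matrix.of h * (Matrix.of h)ᵀ - 1)ᵀ).trace := by
  unfold ke_F
  simp only [Matrix.trace, Matrix.diag_apply, Matrix.mul_apply, Matrix.transpose_apply,
    Matrix.sub_apply, Matrix.of_apply, Matrix.one_apply]
  refine Finset.sum_congr rfl fun i _ => Finset.sum_congr rfl fun j _ => ?_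
  rw [pow_two]

theorem ke_F_inv (n : ℕ) (o o' : Matrix (Fin n) (Fin n) ℝ) (ho : o * oᵀ = 1) (ho' : o' * o'ᵀ = 1)
    (h : Mt n) : ke_F n (o * Matrix.of h * o') = ke_F n h := by
  have e1 : ke_F n (o * Matrix.of h * o') = (((o * Matrix.of h * o') * (o * Matrix.of h * o')ᵀ - 1) *
      ((o * Matrix.of h * o') * (o * Matrix.of h * o')ᵀ - 1)ᵀ).trace :=
    ke_F_trace n (o * Matrix.of h * o')
  have ho2 : oᵀ * o = 1 := mul_eq_one_comm.mp ho
  have e2 : (o * Matrix.of h * o') * (o * Matrix.of h * o')ᵀ - 1 =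
      o * (Matrix.of h * (Matrix.of h)ᵀ - 1) * oᵀ := by
    have : (o * Matrix.of h * o') * (o * Matrix.of h * o')ᵀ =
        o * (Matrix.of h * (o' * o'ᵀ) * (Matrix.of h)ᵀ) * oᵀ := by
      simp only [Matrix.transpose_mul, Matrix.mul_assoc]
    rw [this, ho', Matrix.mul_one, Matrix.mul_sub, Matrix.sub_mul, Matrix.mul_one, ho]
  rw [e1, e2, ke_F_trace]
  set X := Matrix.of h * (Matrix.of h)ᵀ - 1 with hX
  have e3 : (o * X * oᵀ) * (o * X * oᵀ)ᵀ = o * (X * (oᵀ * o) * Xᵀ) * oᵀ := by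
    simp only [Matrix.transpose_mul, Matrix.transpose_transpose, Matrix.mul_assoc]
  rw [e3, ho2, Matrix.mul_one, Matrix.trace_mul_comm, ← Matrix.mul_assoc, ho2, Matrix.one_mul]

theorem ke_F_cd (n : ℕ) : ContDiff ℝ 1 (ke_F n) := by
  unfold ke_F
  refine ContDiff.sum fun i _ => ContDiff.sum fun j _ => ContDiff.pow (ContDiff.sub
    (ContDiff.sum fun k _ => ContDiff.mul ?_ ?_) contDiff_const) 2
  · exact contDiff_apply_apply ℝ ℝ i k
  · exact contDiff_apply_apply ℝ ℝ j k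

theorem ke_F_cont (n : ℕ) : Continuous (ke_F n) := (ke_F_cd n).continuous

theorem ke_F_nonneg (n : ℕ) (h : Mt n) : 0 ≤ ke_F n h :=
  Finset.sum_nonneg fun i _ => Finset.sum_nonneg fun j _ => sq_nonneg _

theorem ke_F_zero (n : ℕ) (h : Mt n) (hh : ke_F n h = 0) :
    Matrix.of h * (Matrix.of h)ᵀ = 1 := by
  have h1 := (Finset.sum_eq_zero_iff_of_nonneg (fun i _ => Finset.sum_nonneg
    fun j _ => sq_nonneg _)).1 hh
  ext i j
  have h2 := (Finset.sum_eq_zero_iff_of_nonneg (fun j _ => sq_nonneg _)).1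
    (h1 i (Finset.mem_univ i)) j (Finset.mem_univ j)
  have h3 := pow_eq_zero_iff (two_ne_zero) |>.1 h2
  simp only [Matrix.mul_apply, Matrix.of_apply, Matrix.transpose_apply, Matrix.one_apply]
  linarith

theorem ke_F_one (n : ℕ) : ke_F n (1 : Matrix (Fin n) (Fin n) ℝ) = 0 := by
  have := ke_F_trace n (1 : Matrix (Fin n) (Fin n) ℝ)
  rw [this]
  have e : (Matrix.of (1 : Matrix (Fin n) (Fin n) ℝ)) = (1 : Matrix (Fin n) (Fin n) ℝ) := rfl
  rw [e]
  simp

theorem ke_F_cpt (n : ℕ) : IsCompact {h : Mt n | ke_F n h ≤ 1} := by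
  have hcl : IsClosed {h : Mt n | ke_F n h ≤ 1} := isClosed_le (ke_F_cont n) continuous_const
  have hsub : {h : Mt n | ke_F n h ≤ 1} ⊆ Set.pi Set.univ fun _ : Fin n =>
      Set.pi Set.univ fun _ : Fin n => Set.Icc (-2 : ℝ) 2 := by
    intro h hh i _ k _
    have hh1 : ke_F n h ≤ 1 := hh
    have h1 : (∑ k : Fin n, h i k * h i k - if i = i then 1 else 0) ^ 2 ≤ ke_F n h := by
      unfold ke_F
      refine le_trans ?_ (Finset.single_le_sum (f := fun i => ∑ j : Fin n,
        (∑ k : Fin n, h i k * h j k - if i = j then (1 : ℝ) else 0) ^ 2)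
        (fun _ _ => Finset.sum_nonneg fun _ _ => sq_nonneg _) (Finset.mem_univ i))
      exact Finset.single_le_sum (f := fun j =>
        (∑ k : Fin n, h i k * h j k - if i = j then (1 : ℝ) else 0) ^ 2)
        (fun j _ => sq_nonneg _) (Finset.mem_univ i)
    rw [if_pos rfl] at h1
    have h2 : h i k * h i k ≤ ∑ k : Fin n, h i k * h i k :=
      Finset.single_le_sum (f := fun k => h i k * h i k) (fun k _ => mul_self_nonneg _)
        (Finset.mem_univ k)
    have h3 : (∑ k : Fin n, h i k * h i k - 1) ^ 2 ≤ 1 := h1.trans hh1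
    have h4 : ∑ k : Fin n, h i k * h i k ≤ 2 := by nlinarith
    constructor
    · nlinarith
    · nlinarith
  exact (isCompact_univ_pi fun _ => isCompact_univ_pi fun _ => isCompact_Icc).of_isClosed_subset
    hcl hsub

/-- the bump -/
def ke_k (n : ℕ) (δ : ℝ) (h : Mt n) : ℝ := Real.smoothTransition (1 - ke_F n h / δ)

theorem ke_k_zero (n : ℕ) (δ : ℝ) (hδ : 0 < δ) (h : Mt n) (hh : δ ≤ ke_F n h) :
    ke_k n δ h = 0 := by
  refine Real.smoothTransition.zero_of_nonpos ?_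
  have : 1 ≤ ke_F n h / δ := (one_le_div hδ).2 hh
  linarith

theorem ke_k_cd (n : ℕ) (δ : ℝ) : ContDiff ℝ 1 (ke_k n δ) :=
  Real.smoothTransition.contDiff.comp (contDiff_const.sub ((ke_F_cd n).div_const δ))

theorem ke_k_supp (n : ℕ) (δ : ℝ) (hδ : 0 < δ) : tsupport (ke_k n δ) ⊆ {h | ke_F n h ≤ δ} := by
  refine closure_minimal ?_ (isClosed_le (ke_F_cont n) continuous_const)
  intro h hh
  by_contra hc
  exact hh (ke_k_zero n δ hδ h (not_le.1 hc).le)

/-- a neighbourhood of the orthogonal group -/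
theorem ke_delta (n : ℕ) (K : Set (Fin n → ℂ)) (hK : IsCompact K) :
    ∃ δ : ℝ, 0 < δ ∧ δ ≤ 1 ∧ ∀ h : Mt n, ke_F n h ≤ δ → (Matrix.of h).det ≠ 0 ∧
      ∀ μ ∈ K, ‖Pool.Agent.SGN.pw μ (Matrix.of h) - 1‖ < 1 / 2 := by
  have hdet : ∀ h : Mt n, ke_F n h = 0 → (Matrix.of h).det ≠ 0 := by
    intro h hh h0
    have h1 := congrArg Matrix.det (ke_F_zero n h hh)
    rw [Matrix.det_mul, Matrix.det_transpose, h0] at h1
    simp at h1
  have hdc : Continuous fun h : Mt n => (Matrix.of h).det := by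
    refine Continuous.matrix_det ?_
    exact continuous_id
  -- first: determinant
  have hA : ∃ δ : ℝ, 0 < δ ∧ ∀ h : Mt n, ke_F n h ≤ 1 → ke_F n h ≤ δ → (Matrix.of h).det ≠ 0 := by
    have hB : IsCompact ({h : Mt n | ke_F n h ≤ 1} ∩ {h | (Matrix.of h).det = 0}) :=
      (ke_F_cpt n).inter_right (isClosed_eq hdc continuous_const)
    rcases Set.eq_empty_or_nonempty ({h : Mt n | ke_F n h ≤ 1} ∩ {h | (Matrix.of h).det = 0})
      with he | hne
    · refine ⟨1, one_pos, fun h h1 _ h0 => ?_⟩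
      have : h ∈ ({h : Mt n | ke_F n h ≤ 1} ∩ {h | (Matrix.of h).det = 0}) := ⟨h1, h0⟩
      rw [he] at this
      exact this
    · obtain ⟨h0, hh0, hmin⟩ := hB.exists_isMinOn hne (ke_F_cont n).continuousOn
      have hpos : 0 < ke_F n h0 := by
        rcases (ke_F_nonneg n h0).lt_or_eq with h | h
        · exact h
        · exact absurd hh0.2 (hdet h0 h.symm)
      refine ⟨ke_F n h0 / 2, half_pos hpos, fun h h1 h2 h3 => ?_⟩
      have := hmin ⟨h1, h3⟩
      simp only [Set.mem_ofPred_eq] at this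
      linarith
  have hO : IsOpen {z : (Fin n → ℂ) × Mt n | (Matrix.of z.2).det ≠ 0} :=
    isOpen_ne_fun (hdc.comp continuous_snd) continuous_const
  have hV : IsOpen ({z : (Fin n → ℂ) × Mt n | (Matrix.of z.2).det ≠ 0} ∩
      (fun z : (Fin n → ℂ) × Mt n => Pool.Agent.SGN.pw z.1 (Matrix.of z.2)) ⁻¹'
        Metric.ball 1 (1 / 2)) :=
    (pw_cont n).isOpen_inter_preimage hO Metric.isOpen_ball
  have hC : ∃ δ : ℝ, 0 < δ ∧ ∀ h : Mt n, ke_F n h ≤ 1 → ke_F n h ≤ δ →
      ∀ μ ∈ K, ‖Pool.Agent.SGN.pw μ (Matrix.of h) - 1‖ < 1 / 2 := by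
    set V := ({z : (Fin n → ℂ) × Mt n | (Matrix.of z.2).det ≠ 0} ∩
      (fun z : (Fin n → ℂ) × Mt n => Pool.Agent.SGN.pw z.1 (Matrix.of z.2)) ⁻¹'
        Metric.ball 1 (1 / 2)) with hVd
    have hB : IsCompact ((K ×ˢ {h : Mt n | ke_F n h ≤ 1}) \ V) :=
      (hK.prod (ke_F_cpt n)).diff hV
    rcases Set.eq_empty_or_nonempty ((K ×ˢ {h : Mt n | ke_F n h ≤ 1}) \ V) with he | hne
    · refine ⟨1, one_pos, fun h h1 _ μ hμ => ?_⟩
      by_contra hcon
      have : (μ, h) ∈ ((K ×ˢ {h : Mt n | ke_F n h ≤ 1}) \ V) := by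
        refine ⟨⟨hμ, h1⟩, fun hv => hcon ?_⟩
        have := hv.2
        rw [Set.mem_preimage, Metric.mem_ball, dist_eq_norm] at this
        exact this
      rw [he] at this
      exact this
    · obtain ⟨z0, hz0, hmin⟩ := hB.exists_isMinOn hne
        ((ke_F_cont n).comp continuous_snd).continuousOn
      have hpos : 0 < ke_F n z0.2 := by
        rcases (ke_F_nonneg n z0.2).lt_or_eq with h | h
        · exact h
        · refine absurd ?_ hz0.2
          refine ⟨hdet z0.2 h.symm, ?_⟩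
          rw [Set.mem_preimage, pw_orth z0.1 _ (ke_F_zero n z0.2 h.symm)]
          exact Metric.mem_ball_self (by norm_num)
      refine ⟨ke_F n z0.2 / 2, half_pos hpos, fun h h1 h2 μ hμ => ?_⟩
      by_contra hcon
      have hm : (μ, h) ∈ ((K ×ˢ {h : Mt n | ke_F n h ≤ 1}) \ V) := by
        refine ⟨⟨hμ, h1⟩, fun hv => hcon ?_⟩
        have := hv.2
        rw [Set.mem_preimage, Metric.mem_ball, dist_eq_norm] at this
        exact this
      have := hmin hm
      simp only [Function.comp_apply, Set.mem_ofPred_eq] at this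
      linarith
  obtain ⟨δ1, h1, h1'⟩ := hA
  obtain ⟨δ2, h2, h2'⟩ := hC
  refine ⟨min 1 (min δ1 δ2), lt_min one_pos (lt_min h1 h2), min_le_left _ _, fun h hh => ⟨?_, ?_⟩⟩
  · exact h1' h (hh.trans (min_le_left _ _)) (hh.trans ((min_le_right _ _).trans (min_le_left _ _)))
  · exact h2' h (hh.trans (min_le_left _ _)) (hh.trans ((min_le_right _ _).trans (min_le_right _ _)))

theorem ke_pw_on (n : ℕ) (μ : Fin n → ℂ) (S : Set (Mt n)) (hS : ∀ h ∈ S, (Matrix.of h).det ≠ 0) :
    ContinuousOn (fun h : Mt n => Pool.Agent.SGN.pw μ (Matrix.of h)) S := by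
  have h1 : ContinuousOn (fun h : Mt n => ((μ, h) : (Fin n → ℂ) × Mt n)) S :=
    (Continuous.prodMk_right μ).continuousOn
  have hm : Set.MapsTo (fun h : Mt n => ((μ, h) : (Fin n → ℂ) × Mt n)) S
      {z | (Matrix.of z.2).det ≠ 0} := fun h hh => hS h hh
  have h2 := ContinuousOn.comp (g := fun z : (Fin n → ℂ) × Mt n =>
    Pool.Agent.SGN.pw z.1 (Matrix.of z.2)) (pw_cont n) h1 hm
  rw [Function.comp_def] at h2
  exact h2

theorem kern_exists_pr (n : ℕ) (K : Set (Fin n → ℂ)) (hK : IsCompact K) :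
    ∃ k : Mt n → ℝ, (∃ C, LipschitzWith C k) ∧ HasCompactSupport k ∧
      tsupport k ⊆ {h | (Matrix.of h).det ≠ 0} ∧
      (∀ o o' : Matrix (Fin n) (Fin n) ℝ, o * oᵀ = 1 → o' * o'ᵀ = 1 →
        ∀ h : Mt n, k (o * Matrix.of h * o') = k h) ∧
      ∀ μ ∈ K, 1 / 2 ≤ ‖∫ h : Mt n, (k h : ℂ) * Pool.Agent.SGN.pw μ (Matrix.of h)‖ := by
  obtain ⟨δ, hδ, hδ1, hd⟩ := ke_delta n K hK
  have hsuppc : HasCompactSupport (ke_k n δ) := by
    refine (ke_F_cpt n).of_isClosed_subset (isClosed_tsupport _) ?_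
    intro h hh
    exact (show ke_F n h ≤ δ from ke_k_supp n δ hδ hh).trans hδ1
  have hcont : Continuous (ke_k n δ) := (ke_k_cd n δ).continuous
  have hnn : ∀ h, 0 ≤ ke_k n δ h := fun h => Real.smoothTransition.nonneg _
  set I := ∫ h : Mt n, ke_k n δ h with hI
  have hIpos : 0 < I := by
    refine hcont.integral_pos_of_hasCompactSupport_nonneg_nonzero hsuppc hnn
      (x := (1 : Matrix (Fin n) (Fin n) ℝ)) ?_
    unfold ke_k
    rw [ke_F_one]
    simp [Real.smoothTransition.one]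
  have hint : Integrable (ke_k n δ) := hcont.integrable_of_hasCompactSupport hsuppc
  have hfun : HasCompactSupport (fun h : Mt n => I⁻¹ * ke_k n δ h) := hsuppc.mul_left
  have hts : tsupport (fun h : Mt n => I⁻¹ * ke_k n δ h) ⊆ tsupport (ke_k n δ) :=
    closure_mono (Function.support_mul_subset_right _ _)
  refine ⟨fun h => I⁻¹ * ke_k n δ h, ?_, hfun, ?_, ?_, ?_⟩
  · exact ContDiff.lipschitzWith_of_hasCompactSupport hfun
      (contDiff_const.mul (ke_k_cd n δ)) (by norm_num)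
  · intro h hh
    exact (hd h (ke_k_supp n δ hδ (hts hh))).1
  · intro o o' ho ho' h
    unfold ke_k
    simp only
    rw [ke_F_inv n o o' ho ho' h]
  · intro μ hμ
    have hz : ∀ h : Mt n, h ∉ tsupport (ke_k n δ) → ke_k n δ h = 0 :=
      fun h hh => image_eq_zero_of_notMem_tsupport hh
    have hre : ∀ h : Mt n, 1 / 2 * (I⁻¹ * ke_k n δ h) ≤
        (((I⁻¹ * ke_k n δ h : ℝ) : ℂ) * Pool.Agent.SGN.pw μ (Matrix.of h)).re := by
      intro h
      rw [Complex.re_ofReal_mul]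
      by_cases hh : h ∈ tsupport (ke_k n δ)
      · have h1 := (hd h (ke_k_supp n δ hδ hh)).2 μ hμ
        have h2 : 1 / 2 ≤ (Pool.Agent.SGN.pw μ (Matrix.of h)).re := by
          have h3 := (Complex.abs_re_le_norm (Pool.Agent.SGN.pw μ (Matrix.of h) - 1)).trans h1.le
          rw [Complex.sub_re, Complex.one_re] at h3
          have := (abs_le.1 h3).1
          linarith
        have h4 : 0 ≤ I⁻¹ * ke_k n δ h := mul_nonneg (inv_nonneg.2 hIpos.le) (hnn h)
        nlinarith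
      · rw [hz h hh]
        simp
    have hcpt : IsCompact (tsupport (ke_k n δ)) := hsuppc
    have hpw := ke_pw_on n μ (tsupport (ke_k n δ))
      (fun h hh => (hd h (ke_k_supp n δ hδ hh)).1)
    have hint2 : Integrable fun h : Mt n =>
        ((I⁻¹ * ke_k n δ h : ℝ) : ℂ) * Pool.Agent.SGN.pw μ (Matrix.of h) := by
      rw [← integrableOn_iff_integrable_of_support_subset (s := tsupport (ke_k n δ))]
      · refine ContinuousOn.integrableOn_compact hcpt (ContinuousOn.mul ?_ hpw)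
        exact (Complex.continuous_ofReal.comp (continuous_const.mul hcont)).continuousOn
      · intro h hh
        by_contra hc
        refine hh ?_
        simp only [hz h hc, mul_zero, Complex.ofReal_zero, zero_mul]
    calc (1 / 2 : ℝ) = ∫ h : Mt n, 1 / 2 * (I⁻¹ * ke_k n δ h) := by
          rw [integral_const_mul, integral_const_mul, ← hI, inv_mul_cancel₀ hIpos.ne', mul_one]
      _ ≤ ∫ h : Mt n, (((I⁻¹ * ke_k n δ h : ℝ) : ℂ) * Pool.Agent.SGN.pw μ (Matrix.of h)).re := by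
          refine integral_mono ((hint.const_mul _).const_mul _) hint2.re hre
      _ = (∫ h : Mt n, ((I⁻¹ * ke_k n δ h : ℝ) : ℂ) * Pool.Agent.SGN.pw μ (Matrix.of h)).re := by
          exact integral_re hint2
      _ ≤ _ := Complex.re_le_norm _


end

end Pool.Agent.SGB

namespace Pool.Agent.SGB

alias kern_exists := kern_exists_pr

end Pool.Agent.SGB
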