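import Pool.Agent.Lib_helper56.SGB.Defs
/-! # SGB, block MA: the cusp estimate (as GLQ R5b) -/

set_option autoImplicit false

namespace Pool.Agent.SGB

open MeasureTheory Matrix
open Pool.Agent.RS (Mt lm SLZ)
open Pool.Agent.GLQ (re unip cube slab Xp wN IN rm rr qq Lat latt Lz IsRed RY Om Box Kern IsInv Bd sp)
open Pool.Agent.SGN (md repR repL heckeT heckeA supS subS UW Wd lw nf WOk)
open scoped ENNReal

noncomputable section

theorem ma_meas {m q : ℕ} {f : Fm m q} (h : Pre m q f) (x : Fin (m + 1) → ZMod q) :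
    Measurable fun A : Mt (m + 1) => f (Matrix.of A) x := by
  classical
  set s : Set (Mt (m + 1)) := {A | 0 < (Matrix.of A).det} with hs
  have hsm : MeasurableSet s := measurableSet_lt measurable_const
    (Pool.Agent.RS.measurable_det (m + 1))
  have h1 : ContinuousOn (fun A : Mt (m + 1) => f (Matrix.of A) x) s := by
    refine (h.cont x).comp (t := {g : Matrix (Fin (m + 1)) (Fin (m + 1)) ℝ | 0 < g.det}) ?_ fun A hA => hA
    exact continuous_id.continuousOn
  have h2 : (fun A : Mt (m + 1) => f (Matrix.of A) x) =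
      s.piecewise (fun A : Mt (m + 1) => f (Matrix.of A) x) (fun _ => 0) := by
    funext A
    by_cases hA : A ∈ s
    · rw [Set.piecewise_eq_of_mem _ _ _ hA]
    · rw [Set.piecewise_eq_of_notMem _ _ _ hA]
      exact h.out _ _ hA
  rw [h2]
  exact h1.measurable_piecewise continuousOn_const hsm

/-- the estimate for one element close to `1` -/
theorem ma_one {m : ℕ}
    {k : Mt (m + 1) → ℂ} {φ : Matrix (Fin (m + 1)) (Fin (m + 1)) ℝ → ℂ}
    (hk : Kern m k) (hme : Measurable fun A : Mt (m + 1) => φ (Matrix.of A))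
    {M : ℝ} (hMall : ∀ A : Matrix (Fin (m + 1)) (Fin (m + 1)) ℝ, ‖φ A‖ ≤ M)
    {c : ℂ} (hc : ‖c‖ ≤ 2)
    (hrepr : ∀ g : Matrix (Fin (m + 1)) (Fin (m + 1)) ℝ, 0 < g.det →
      φ g = c * ∫ h : Mt (m + 1), k h * φ (g * Matrix.of h))
    {Lip : NNReal} (hLip : LipschitzWith Lip k)
    {δ L ε : ℝ} (hε : 0 ≤ ε)
    (hB : IsCompact (Metric.cthickening δ (tsupport k)))
    (hL : ∀ A ∈ Metric.cthickening δ (tsupport k), ‖A‖ ≤ L)
    (hδL : ((m : ℝ) + 1) * ε * L ≤ δ) (hL0 : 0 ≤ L)
    (g : Matrix (Fin (m + 1)) (Fin (m + 1)) ℝ) (hg : 0 < g.det)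
    (V V' : Matrix (Fin (m + 1)) (Fin (m + 1)) ℝ) (hV : V.det = 1) (hVV : V * V' = 1)
    (hV2 : V' - 1 = -(V - 1)) (hVε : ∀ a b, |(V - 1) a b| ≤ ε) :
    ‖φ g - φ (g * V)‖ ≤ 2 * ((Lip : ℝ) * (((m : ℝ) + 1) * ε * L) *
      ∫ A in Metric.cthickening δ (tsupport k), ‖φ (g * Matrix.of A)‖) := by
  have hV'V : V' * V = 1 := mul_eq_one_comm.1 hVV
  have hV' : V'.det = 1 := by
    have := congrArg Matrix.det hVV
    rw [Matrix.det_mul, hV, Matrix.det_one, one_mul] at this
    exact this
  have hmeas : Measurable fun A : Mt (m + 1) => φ (g * Matrix.of A) :=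
    hme.comp (Pool.Agent.GLQ.r5b_lm_cont g).measurable
  have hkc : Continuous k := hLip.continuous
  have hki : Integrable k volume := hkc.integrable_of_hasCompactSupport hk.cpt
  have i1 : Integrable (fun A : Mt (m + 1) => k A * φ (g * Matrix.of A)) volume :=
    hki.mul_bdd (c := M) hmeas.aestronglyMeasurable (Filter.Eventually.of_forall fun A => hMall _)
  have i2 : Integrable (fun A : Mt (m + 1) => k (lm V' A) * φ (g * Matrix.of A)) volume := by
    have : Integrable (fun A : Mt (m + 1) => k (lm V' A)) volume :=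
      (Pool.Agent.RS.mp_lm V' hV').integrable_comp_of_integrable hki
    exact this.mul_bdd (c := M) hmeas.aestronglyMeasurable (Filter.Eventually.of_forall fun A => hMall _)
  have e1 : φ g = c * ∫ A : Mt (m + 1), k A * φ (g * Matrix.of A) := hrepr g hg
  have e2 : φ (g * V) = c * ∫ A : Mt (m + 1), k (lm V' A) * φ (g * Matrix.of A) := by
    rw [hrepr (g * V) (by rw [Matrix.det_mul, hV, mul_one]; exact hg)]
    congr 1
    have hm := Pool.Agent.RS.mp_lm V hV
    conv_rhs => rw [← hm.map_eq]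
    rw [integral_map hm.measurable.aemeasurable]
    · refine integral_congr_ae (Filter.Eventually.of_forall fun A => ?_)
      have e3 : lm V' (lm V A) = A := by
        rw [Pool.Agent.RS.lm_lm, hV'V, Pool.Agent.RS.lm_one]
      have e4 : (Matrix.of (lm V A) : Matrix (Fin (m + 1)) (Fin (m + 1)) ℝ) = V * Matrix.of A := rfl
      simp only [e3, e4, Matrix.mul_assoc]
    · rw [hm.map_eq]; exact i2.aestronglyMeasurable
  rw [e1, e2, ← mul_sub, norm_mul, ← integral_sub i1 i2]
  have hint : Integrable (fun A : Mt (m + 1) => ‖φ (g * Matrix.of A)‖)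
      (volume.restrict (Metric.cthickening δ (tsupport k))) := by
    have : IsFiniteMeasure (volume.restrict (Metric.cthickening δ (tsupport k))) :=
      ⟨by rw [Measure.restrict_apply_univ]; exact hB.measure_lt_top⟩
    refine Integrable.norm ?_
    exact Integrable.of_bound hmeas.aestronglyMeasurable M
      (Filter.Eventually.of_forall fun A => hMall _)
  have hBm : MeasurableSet (Metric.cthickening δ (tsupport k)) := Metric.isClosed_cthickening.measurableSet
  have key : ∀ A : Mt (m + 1), ‖k A * φ (g * Matrix.of A) - k (lm V' A) * φ (g * Matrix.of A)‖ ≤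
      (Metric.cthickening δ (tsupport k)).indicator
        (fun A => (Lip : ℝ) * (((m : ℝ) + 1) * ε * L) * ‖φ (g * Matrix.of A)‖) A := by
    intro A
    rw [← sub_mul, norm_mul]
    have hent : ∀ A1 : Mt (m + 1), ‖A1‖ ≤ L → ‖(fun i j => ((V - 1) * Matrix.of A1) i j : Mt (m + 1))‖ ≤
        ((m : ℝ) + 1) * ε * L := by
      intro A1 hA1
      have hnn : 0 ≤ ((m : ℝ) + 1) * ε * L := by positivity
      refine (pi_norm_le_iff_of_nonneg hnn).2 fun i => (pi_norm_le_iff_of_nonneg hnn).2 fun j => ?_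
      rw [Matrix.mul_apply]
      refine (norm_sum_le _ _).trans ?_
      have : ∀ c ∈ (Finset.univ : Finset (Fin (m + 1))), ‖(V - 1) i c * (Matrix.of A1) c j‖ ≤ ε * L := by
        intro c _
        rw [norm_mul]
        refine mul_le_mul (hVε i c) ?_ (norm_nonneg _) hε
        exact ((norm_le_pi_norm (A1 c) j).trans (norm_le_pi_norm A1 c)).trans hA1
      refine (Finset.sum_le_sum this).trans ?_
      simp
      nlinarith
    by_cases hA : A ∈ Metric.cthickening δ (tsupport k)
    · rw [Set.indicator_of_mem hA]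
      refine mul_le_mul_of_nonneg_right ?_ (norm_nonneg _)
      have h1 := hLip.dist_le_mul A (lm V' A)
      rw [dist_eq_norm] at h1
      refine h1.trans (mul_le_mul_of_nonneg_left ?_ Lip.coe_nonneg)
      rw [dist_eq_norm]
      have e5 : A - lm V' A = (fun i j => ((V - 1) * Matrix.of A) i j : Mt (m + 1)) := by
        have e6 : V' = 1 - (V - 1) := by rw [sub_eq_iff_eq_add.1 hV2]; abel
        funext i j
        have q1 : (A - lm V' A) i j = A i j - (V' * Matrix.of A) i j := rfl
        have q3 : (V' * Matrix.of A) i j = A i j - ((V - 1) * Matrix.of A) i j := by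
          rw [e6, Matrix.sub_mul, Matrix.one_mul]; rfl
        rw [q1, q3]
        ring
      rw [e5]
      exact hent A (hL A hA)
    · rw [Set.indicator_of_notMem hA]
      have z1 : k A = 0 := image_eq_zero_of_notMem_tsupport fun hh =>
        hA (Metric.self_subset_cthickening _ hh)
      have z2 : k (lm V' A) = 0 := by
        by_contra hne
        have h1 : lm V' A ∈ tsupport k := subset_tsupport _ hne
        apply hA
        refine Metric.mem_cthickening_of_dist_le A (lm V' A) δ _ h1 ?_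
        rw [dist_eq_norm]
        have e5 : A - lm V' A = (fun i j => ((V - 1) * Matrix.of (lm V' A)) i j : Mt (m + 1)) := by
          have e7 : (Matrix.of (lm V' A) : Matrix (Fin (m + 1)) (Fin (m + 1)) ℝ) = V' * Matrix.of A := rfl
          funext i j
          have q1 : (A - lm V' A) i j = A i j - (V' * Matrix.of A) i j := rfl
          rw [e7, ← Matrix.mul_assoc, Matrix.sub_mul V, hVV, Matrix.one_mul, Matrix.sub_mul,
            Matrix.one_mul, q1]
          rfl
        rw [e5]
        exact (hent _ (hL _ (Metric.self_subset_cthickening _ h1))).trans hδL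
      rw [z1, z2]; simp
  have hgi : Integrable ((Metric.cthickening δ (tsupport k)).indicator
        (fun A : Mt (m + 1) => (Lip : ℝ) * (((m : ℝ) + 1) * ε * L) * ‖φ (g * Matrix.of A)‖)) volume := by
    rw [integrable_indicator_iff hBm]
    exact hint.const_mul _
  refine mul_le_mul hc ?_ (norm_nonneg _) (by norm_num)
  refine (norm_integral_le_of_norm_le hgi (Filter.Eventually.of_forall key)).trans ?_
  rw [integral_indicator hBm, integral_const_mul]

theorem cuspX_pr (m : ℕ) (k0 : Mt (m + 1) → ℂ) (hk : Kern m k0) :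
    ∃ (C C0 : ℝ) (B : Set (Mt (m + 1))), 0 < C ∧ 0 < C0 ∧ IsCompact B ∧
      (∀ h ∈ B, 0 < (Matrix.of h).det) ∧ ∀ (q : ℕ) [NeZero q] (f : Fm m q), Frm m q k0 f →
      ∀ (Y : ℝ), C0 * q ≤ Y → ∀ (A : Mt (m + 1)) (U : Matrix (Fin (m + 1)) (Fin (m + 1)) ℝ)
      (t : Fin (m + 1) → ℝ) (O : Matrix (Fin (m + 1)) (Fin (m + 1)) ℝ), 0 < (Matrix.of A).det →
      IsRed A U t O → ∀ i j : Fin (m + 1), (i : ℕ) + 1 = (j : ℕ) → Y * t j < t i →
      ∀ x : Fin (m + 1) → ZMod q, ‖f (Matrix.of A) x‖ ≤
        C * q / Y * ∫ h in B, ‖f (Matrix.of A * Matrix.of h) x‖ := by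
  obtain ⟨Lip, hLip⟩ := hk.lip
  obtain ⟨C1, hC1, hclose⟩ := Pool.Agent.GLQ.unip_close m
  have hopen : IsOpen {A : Mt (m + 1) | 0 < (Matrix.of A).det} :=
    isOpen_lt continuous_const (Pool.Agent.GLQ.r5b_det_cont _)
  have hKc : IsCompact (tsupport k0) := hk.cpt
  obtain ⟨δ, hδ, hsub⟩ := hKc.exists_cthickening_subset_open hopen hk.pos
  have hB : IsCompact (Metric.cthickening δ (tsupport k0)) := hKc.cthickening
  obtain ⟨L', hL'⟩ := hB.isBounded.exists_norm_le
  set L := max L' 1 with hLdef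
  have hL1 : 0 < L := lt_of_lt_of_le one_pos (le_max_right _ _)
  have hL : ∀ A ∈ Metric.cthickening δ (tsupport k0), ‖A‖ ≤ L := fun A hA =>
    (hL' A hA).trans (le_max_left _ _)
  have hm1 : (0 : ℝ) < (m : ℝ) + 1 := by positivity
  set C0 := ((m : ℝ) + 1) * C1 * L / δ with hC0
  have hC0pos : 0 < C0 := by positivity
  refine ⟨2 * ((Lip : ℝ) * (((m : ℝ) + 1) * C1 * L)) + 1, C0, Metric.cthickening δ (tsupport k0),
    by positivity, hC0pos, hB, fun h hh => hsub hh, ?_⟩
  intro q _ f hf Y hY A U t O hA hred i j hij hYt x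
  have hN0 : (0 : ℝ) < q := by exact_mod_cast Nat.pos_of_ne_zero (NeZero.ne q)
  have hYpos : 0 < Y := lt_of_lt_of_le (by positivity) hY
  obtain ⟨M, hM⟩ := hf.bdd
  obtain ⟨c, hc, hrepr⟩ := hf.repr
  have hme := ma_meas hf.toPre x
  set φ : Matrix (Fin (m + 1)) (Fin (m + 1)) ℝ → ℂ := fun g => f g x with hφ
  set g : Matrix (Fin (m + 1)) (Fin (m + 1)) ℝ := Matrix.of A with hg
  have hgdet : 0 < g.det := hA
  set ε := C1 * q / Y with hε
  have hεpos : 0 ≤ ε := by positivity
  have hδL : ((m : ℝ) + 1) * ε * L ≤ δ := by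
    have h1 : C0 * q * δ ≤ Y * δ := mul_le_mul_of_nonneg_right hY hδ.le
    have h2 : C0 * δ = ((m : ℝ) + 1) * C1 * L := by rw [hC0]; field_simp
    have h3 : ((m : ℝ) + 1) * ε * L = (((m : ℝ) + 1) * C1 * L) * q / Y := by rw [hε]; ring
    rw [h3, div_le_iff₀ hYpos, ← h2]
    linarith
  set I := ∫ h in Metric.cthickening δ (tsupport k0), ‖φ (g * Matrix.of h)‖ with hI
  have hI0 : 0 ≤ I := integral_nonneg fun _ => norm_nonneg _
  have hAu : IsUnit (Matrix.of A).det := (ne_of_gt hA).isUnit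
  have hinv1 : (Matrix.of A) * (Matrix.of A)⁻¹ = 1 := Matrix.mul_nonsing_inv _ hAu
  have hinv2 : (Matrix.of A)⁻¹ * (Matrix.of A) = 1 := Matrix.nonsing_inv_mul _ hAu
  have hpt : ∀ y ∈ cube (m + 1), ‖φ g - φ (unip (j : ℕ) (fun i j => q * y i j) * Matrix.of A)‖ ≤
      2 * ((Lip : ℝ) * (((m : ℝ) + 1) * ε * L) * I) := by
    intro y hy
    set u := unip (j : ℕ) (fun i j : Fin (m + 1) => q * y i j) with hu
    set V := (Matrix.of A)⁻¹ * u * Matrix.of A with hVd
    set V' := (Matrix.of A)⁻¹ * (1 - (u - 1)) * Matrix.of A with hV'd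
    have hcl := hclose A U t O hred Y hYpos i j hij hYt q hN0.le y hy
    have e1 : u * Matrix.of A = g * V := by
      rw [hg, hVd]
      simp only [← Matrix.mul_assoc]
      rw [hinv1, Matrix.one_mul]
    have hVdet : V.det = 1 := by
      rw [hVd, Matrix.det_mul, Matrix.det_mul, hu, Pool.Agent.GLQ.r5b_det_unip, mul_one,
        ← Matrix.det_mul, hinv2, Matrix.det_one]
    have hVV : V * V' = 1 := by
      rw [hVd, hV'd]
      have e2 : (Matrix.of A)⁻¹ * u * Matrix.of A * ((Matrix.of A)⁻¹ * (1 - (u - 1)) * Matrix.of A) =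
          (Matrix.of A)⁻¹ * (u * (1 - (u - 1))) * Matrix.of A := by
        simp only [← Matrix.mul_assoc]
        rw [Matrix.mul_assoc ((Matrix.of A)⁻¹ * u) (Matrix.of A) ((Matrix.of A)⁻¹), hinv1,
          Matrix.mul_one]
      have e3 : u * (1 - (u - 1)) = 1 := by
        have h0 := Pool.Agent.GLQ.r5b_unip_sq (j : ℕ) (fun i j : Fin (m + 1) => q * y i j)
        rw [← hu] at h0
        have : u * (1 - (u - 1)) = 1 - (u - 1) * (u - 1) := by noncomm_ring
        rw [this, h0, sub_zero]
      rw [e2, e3, Matrix.mul_one, hinv2]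
    have hV2 : V' - 1 = -(V - 1) := by
      have e7 : V' = (Matrix.of A)⁻¹ * Matrix.of A + (Matrix.of A)⁻¹ * Matrix.of A - V := by
        rw [hVd, hV'd]; noncomm_ring
      rw [e7, hinv2]
      abel
    rw [e1]
    exact ma_one hk hme (fun A => hM A x) hc (fun g hg => hrepr g x hg) hLip hεpos hB hL hδL hL1.le
      g hgdet V V' hVdet hVV hV2 hcl
  have hcusp := hf.cusp (j : ℕ) (by omega) (by omega) (Matrix.of A) x hA
  have hfm : Measurable fun y : Fin (m + 1) → Fin (m + 1) → ℝ =>
      φ (unip (j : ℕ) (fun i j => q * y i j) * Matrix.of A) := by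
    have hc : Continuous fun y : Fin (m + 1) → Fin (m + 1) → ℝ =>
        ((fun a b => (unip (j : ℕ) (fun i j => q * y i j) * Matrix.of A) a b) : Mt (m + 1)) := by
      refine continuous_pi fun a => continuous_pi fun b => ?_
      simp only [Matrix.mul_apply, unip, Matrix.of_apply]
      refine continuous_finsetSum _ fun c _ => Continuous.mul ?_ continuous_const
      split_ifs
      · exact continuous_const
      · fun_prop
      · exact continuous_const
    exact hme.comp hc.measurable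
  have : IsFiniteMeasure (volume.restrict (cube (m + 1))) :=
    ⟨by rw [Measure.restrict_apply_univ, Pool.Agent.GLQ.r5b_vol_cube]; exact ENNReal.one_lt_top⟩
  have hfi : Integrable (fun y : Fin (m + 1) → Fin (m + 1) → ℝ =>
      φ (unip (j : ℕ) (fun i j => q * y i j) * Matrix.of A)) (volume.restrict (cube (m + 1))) :=
    Integrable.of_bound hfm.aestronglyMeasurable M (Filter.Eventually.of_forall fun y => hM _ _)
  have hcusp' : ∫ y : Fin (m + 1) → Fin (m + 1) → ℝ in cube (m + 1),
      φ (unip (j : ℕ) (fun i j => q * y i j) * Matrix.of A) = 0 := hcusp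
  have e0 : φ g = ∫ y : Fin (m + 1) → Fin (m + 1) → ℝ in cube (m + 1),
      (φ g - φ (unip (j : ℕ) (fun i j => q * y i j) * Matrix.of A)) := by
    rw [integral_sub (integrable_const _) hfi, hcusp', sub_zero, integral_const]
    simp [Measure.real, Pool.Agent.GLQ.r5b_vol_cube]
  show ‖φ g‖ ≤ _ * I
  rw [e0]
  have hb := norm_setIntegral_le_of_norm_le_const (μ := volume) (s := cube (m + 1))
    (f := fun y => φ g - φ (unip (j : ℕ) (fun i j => q * y i j) * Matrix.of A))
    (C := 2 * ((Lip : ℝ) * (((m : ℝ) + 1) * ε * L) * I))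
    (by rw [Pool.Agent.GLQ.r5b_vol_cube]; exact ENNReal.one_lt_top) hpt
  refine hb.trans ?_
  have e1 : volume.real (cube (m + 1)) = 1 := by simp [Measure.real, Pool.Agent.GLQ.r5b_vol_cube]
  rw [e1, mul_one, ← mul_assoc]
  refine mul_le_mul_of_nonneg_right ?_ hI0
  have h4 : 2 * ((Lip : ℝ) * (((m : ℝ) + 1) * ε * L)) =
      (2 * ((Lip : ℝ) * (((m : ℝ) + 1) * C1 * L))) * q / Y := by
    rw [hε]; ring
  rw [h4]
  refine div_le_div_of_nonneg_right ?_ hYpos.le
  nlinarith

end

end Pool.Agent.SGB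

namespace Pool.Agent.SGB

alias cuspX := cuspX_pr

end Pool.Agent.SGB
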