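import Pool.Agent.Lib_helper56.SGB.Defs

/-! # Project SGN, part B: block PC1 (sums over dyadic boxes) -/

set_option autoImplicit false

namespace Pool.Agent.SGB

open MeasureTheory Matrix
open Pool.Agent.RS (Mt lm SLZ)
open Pool.Agent.GLQ (re unip cube slab Xp wN IN rm rr qq Lat latt Lz IsRed RY Om Box Kern IsInv Bd sp)
open Pool.Agent.SGN (md repR repL heckeT heckeA supS subS UW Wd lw nf WOk uvec unrm xval)
open scoped ENNReal

noncomputable section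

/-! ### summation by parts -/

theorem pc1_abel (w a : ℕ → ℝ) (m : ℕ) : ∑ i ∈ Finset.range (m + 1), w i * a i =
    (∑ i ∈ Finset.range (m + 1), w i) * a m +
      ∑ j ∈ Finset.range m, (∑ i ∈ Finset.range (j + 1), w i) * (a j - a (j + 1)) := by
  induction m with
  | zero => simp
  | succ m ih =>
    rw [Finset.sum_range_succ, ih, Finset.sum_range_succ (fun i => w i) (m + 1),
      Finset.sum_range_succ (fun j => (∑ i ∈ Finset.range (j + 1), w i) * (a j - a (j + 1))) m]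
    ring

/-- the extension of a function on `Fin` by zero -/
def pc1_ext {n : ℕ} (f : Fin n → ℝ) (i : ℕ) : ℝ := if h : i < n then f ⟨i, h⟩ else 0

theorem pc1_ext_fin {n : ℕ} (f : Fin n → ℝ) (i : Fin n) : pc1_ext f i = f i := by
  unfold pc1_ext
  rw [dif_pos i.2]

theorem pc1_sum_ext {n : ℕ} (f : Fin n → ℝ) : ∑ i ∈ Finset.range n, pc1_ext f i = ∑ i, f i := by
  rw [Finset.sum_range]
  exact Finset.sum_congr rfl fun i _ => pc1_ext_fin f i

theorem pc1_sum_lt {n : ℕ} (f : Fin n → ℝ) (j : ℕ) (hj : j ≤ n) :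
    ∑ i ∈ Finset.range j, pc1_ext f i = ∑ i : Fin n, if (i : ℕ) < j then f i else 0 := by
  have h1 : (∑ i : Fin n, if (i : ℕ) < j then f i else 0) =
      ∑ i ∈ Finset.range n, if i < j then pc1_ext f i else 0 := by
    rw [Finset.sum_range]
    refine Finset.sum_congr rfl fun i _ => ?_
    rw [pc1_ext_fin]
  rw [h1, ← Finset.sum_filter]
  refine Finset.sum_congr ?_ fun _ _ => rfl
  ext i
  simp only [Finset.mem_range, Finset.mem_filter]
  omega

/-! ### the parametrisation -/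

/-- the gaps -/
def pc1_K {m : ℕ} (a : Fin (m + 1) → ℤ) (j : Fin m) : ℕ := (a j.castSucc - a j.succ + 2).toNat

theorem pc1_K_eq {m : ℕ} {a : Fin (m + 1) → ℤ}
    (ha : ∀ i j : Fin (m + 1), (i : ℕ) + 1 = (j : ℕ) → a j ≤ a i + 2) (j : Fin m) :
    ((pc1_K a j : ℕ) : ℤ) = a j.castSucc - a j.succ + 2 := by
  unfold pc1_K
  rw [Int.toNat_of_nonneg]
  have := ha j.castSucc j.succ (by simp)
  linarith

theorem pc1_inj {m : ℕ} {a b : Fin (m + 1) → ℤ} (h : ∑ i, a i = ∑ i, b i)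
    (h2 : ∀ j : Fin m, a j.castSucc - a j.succ = b j.castSucc - b j.succ) : a = b := by
  have h3 : ∀ i : Fin (m + 1), a i - b i = a 0 - b 0 := by
    intro i
    induction i using Fin.induction with
    | zero => rfl
    | succ i ih =>
      have := h2 i
      linarith
  have h4 : ∑ i, (a i - b i) = 0 := by rw [Finset.sum_sub_distrib, h, sub_self]
  rw [Finset.sum_congr rfl fun i _ => h3 i, Finset.sum_const, Finset.card_univ, Fintype.card_fin,
    nsmul_eq_mul] at h4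
  have h5 : a 0 - b 0 = 0 := by
    rcases mul_eq_zero.1 h4 with h6 | h6
    · exfalso
      have : (0 : ℤ) < ((m + 1 : ℕ) : ℤ) := by positivity
      linarith
    · exact h6
  funext i
  have := h3 i
  linarith

/-- the bound of the exponent -/
theorem pc1_bound {m : ℕ} (w : Fin (m + 1) → ℝ) (c : ℝ)
    (hw : ∀ j : ℕ, 1 ≤ j → j ≤ m →
      (∑ i : Fin (m + 1), if (i : ℕ) < j then w i else 0) + c ≤
        (j : ℝ) / ((m : ℝ) + 1) * ∑ i, w i) : ∃ B : ℝ, ∀ a : Fin (m + 1) → ℤ,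
    (∀ i j : Fin (m + 1), (i : ℕ) + 1 = (j : ℕ) → a j ≤ a i + 2) → ∑ i, a i ≤ 0 →
    -((m : ℤ) + 1) ≤ ∑ i, a i → ∑ i, w i * (a i : ℝ) ≤ B - c * ∑ j : Fin m, (pc1_K a j : ℝ) := by
  set W : ℝ := ∑ i, w i with hW
  set D : ℕ → ℝ := fun j => ((j : ℝ) + 1) / ((m : ℝ) + 1) * W -
    ∑ i ∈ Finset.range (j + 1), pc1_ext w i with hD
  have hDc : ∀ j : Fin m, c ≤ D j := by
    intro j
    have h1 := hw ((j : ℕ) + 1) (Nat.le_add_left _ _) j.2
    rw [← pc1_sum_lt w ((j : ℕ) + 1) (by omega)] at h1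
    rw [hD]
    simp only
    push_cast at h1
    linarith
  refine ⟨|W| + 2 * ∑ j : Fin m, D j, fun a ha h1 h2 => ?_⟩
  set A : ℕ → ℝ := pc1_ext fun i => (a i : ℝ) with hA
  have e1 : ∑ i, w i * (a i : ℝ) = ∑ i ∈ Finset.range (m + 1), pc1_ext w i * A i := by
    rw [Finset.sum_range]
    refine Finset.sum_congr rfl fun i _ => ?_
    rw [hA, pc1_ext_fin, pc1_ext_fin]
  have e2 := pc1_abel (pc1_ext w) A m
  have e3 := pc1_abel (fun _ => 1) A m
  rw [pc1_sum_ext] at e2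
  have e4 : ∑ i ∈ Finset.range (m + 1), (1 : ℝ) * A i = ((∑ i, a i : ℤ) : ℝ) := by
    rw [Finset.sum_congr rfl fun i _ => one_mul (A i), hA, pc1_sum_ext]
    push_cast
    rfl
  rw [e4] at e3
  simp only [Finset.sum_const, Finset.card_range, nsmul_eq_mul, mul_one] at e3
  push_cast at e3
  have hm : (0 : ℝ) < (m : ℝ) + 1 := by positivity
  -- the main identity
  have e5 : ∑ i, w i * (a i : ℝ) = W / ((m : ℝ) + 1) * (∑ i, (a i : ℝ)) -
      ∑ j ∈ Finset.range m, D j * (A j - A (j + 1)) := by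
    rw [e1, e2, e3]
    have h3 : ∑ j ∈ Finset.range m, D j * (A j - A (j + 1)) =
        W / ((m : ℝ) + 1) * ∑ j ∈ Finset.range m, ((j : ℝ) + 1) * (A j - A (j + 1)) -
          ∑ j ∈ Finset.range m, (∑ i ∈ Finset.range (j + 1), pc1_ext w i) * (A j - A (j + 1)) := by
      rw [Finset.mul_sum, ← Finset.sum_sub_distrib]
      refine Finset.sum_congr rfl fun j _ => ?_
      rw [hD]
      simp only
      ring
    rw [h3]
    field_simp
    ring
  have e6 : ∑ j ∈ Finset.range m, D j * (A j - A (j + 1)) =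
      ∑ j : Fin m, D j * ((pc1_K a j : ℝ) - 2) := by
    rw [Finset.sum_range]
    refine Finset.sum_congr rfl fun j _ => ?_
    have h3 : A (j : ℕ) = (a j.castSucc : ℝ) := by
      rw [hA]
      exact pc1_ext_fin (fun i => (a i : ℝ)) j.castSucc
    have h4 : A ((j : ℕ) + 1) = (a j.succ : ℝ) := by
      rw [hA]
      exact pc1_ext_fin (fun i => (a i : ℝ)) j.succ
    have h5 : ((pc1_K a j : ℕ) : ℝ) = (a j.castSucc : ℝ) - (a j.succ : ℝ) + 2 := by
      have := pc1_K_eq ha j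
      exact_mod_cast this
    rw [h3, h4, h5]
    ring
  have e7 : W / ((m : ℝ) + 1) * (∑ i, (a i : ℝ)) ≤ |W| := by
    have h3 : |∑ i, (a i : ℝ)| ≤ (m : ℝ) + 1 := by
      rw [abs_le]
      constructor
      · have : ((-((m : ℤ) + 1) : ℤ) : ℝ) ≤ ((∑ i, a i : ℤ) : ℝ) := by exact_mod_cast h2
        push_cast at this
        linarith
      · have : ((∑ i, a i : ℤ) : ℝ) ≤ 0 := by exact_mod_cast h1
        push_cast at this
        linarith
    calc W / ((m : ℝ) + 1) * (∑ i, (a i : ℝ)) ≤ |W / ((m : ℝ) + 1) * (∑ i, (a i : ℝ))| :=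
          le_abs_self _
      _ = |W| / ((m : ℝ) + 1) * |∑ i, (a i : ℝ)| := by rw [abs_mul, abs_div, abs_of_pos hm]
      _ ≤ |W| / ((m : ℝ) + 1) * ((m : ℝ) + 1) := mul_le_mul_of_nonneg_left h3 (by positivity)
      _ = |W| := by field_simp
  have e8 : ∑ j : Fin m, D j * ((pc1_K a j : ℝ) - 2) ≥
      c * ∑ j : Fin m, (pc1_K a j : ℝ) - 2 * ∑ j : Fin m, D j := by
    rw [Finset.mul_sum, Finset.mul_sum, ← Finset.sum_sub_distrib]
    refine Finset.sum_le_sum fun j _ => ?_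
    have h3 : (0 : ℝ) ≤ (pc1_K a j : ℝ) := Nat.cast_nonneg _
    have h4 := mul_le_mul_of_nonneg_right (hDc j) h3
    linarith
  rw [e5, e6]
  linarith

/-! ### geometric series -/

theorem pc1_geom (x : ℝ≥0∞) (m : ℕ) :
    ∑' k : Fin m → ℕ, ∏ j, x ^ (k j) = (∑' i : ℕ, x ^ i) ^ m := by
  induction m with
  | zero =>
    rw [pow_zero, tsum_fintype]
    simp
  | succ m ih =>
    rw [← (Fin.consEquiv fun _ : Fin (m + 1) => ℕ).tsum_eq, ENNReal.tsum_prod']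
    have h1 : ∀ (i : ℕ) (k : Fin m → ℕ), ∏ j : Fin (m + 1),
        x ^ ((Fin.consEquiv fun _ : Fin (m + 1) => ℕ) (i, k) j) = x ^ i * ∏ j, x ^ (k j) := by
      intro i k
      rw [Fin.prod_univ_succ]
      simp [Fin.consEquiv]
    simp_rw [h1]
    simp_rw [ENNReal.tsum_mul_left]
    rw [ENNReal.tsum_mul_right, ih, pow_succ, mul_comm]

theorem pc1_fin (c : ℝ) (hc : 0 < c) (m : ℕ) :
    ∑' k : Fin m → ℕ, ∏ j, (ENNReal.ofReal ((2 : ℝ) ^ (-c))) ^ (k j) ≠ ∞ := by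
  rw [pc1_geom, ENNReal.tsum_geometric]
  refine ENNReal.pow_ne_top (ENNReal.inv_ne_top.2 ?_)
  rw [Ne, tsub_eq_zero_iff_le, not_le]
  rw [← ENNReal.ofReal_one]
  refine (ENNReal.ofReal_lt_ofReal_iff one_pos).2 ?_
  exact Real.rpow_lt_one_of_one_lt_of_neg one_lt_two (by linarith)

theorem pc1_pow {m : ℕ} (B c : ℝ) (k : Fin m → ℕ) :
    ENNReal.ofReal ((2 : ℝ) ^ (B - c * ∑ j : Fin m, (k j : ℝ))) =
      ENNReal.ofReal ((2 : ℝ) ^ B) * ∏ j, (ENNReal.ofReal ((2 : ℝ) ^ (-c))) ^ (k j) := by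
  rw [Finset.prod_pow_eq_pow_sum, ← ENNReal.ofReal_pow (by positivity),
    ← ENNReal.ofReal_mul (by positivity)]
  congr 1
  rw [← Real.rpow_natCast, ← Real.rpow_mul (by norm_num), ← Real.rpow_add two_pos]
  congr 1
  push_cast
  ring

/-- the index set of the sums -/
abbrev pc1_S (m : ℕ) : Type := (Finset.Icc (-((m : ℤ) + 1)) 0 : Finset ℤ)

/-- PROOF. Parametrise `a` by `σ = ∑ a_i ∈ [-n, 0]` and the gaps `g_j = a_j - a_{j+1} ≥ -2`
(`j = 1, …, n - 1`): `∑ w_i a_i = (σ/n) ∑ w_i + ∑_j g_j (W_j - (j/n) W_n)`, `W_j = ∑_{i ≤ j} w_i`;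
all coefficients `W_j - (j/n) W_n` are negative, so this is a product of geometric series. -/
theorem dyadic_sum_pr {m : ℕ} (w : Fin (m + 1) → ℝ)
    (hw : ∀ j : ℕ, 1 ≤ j → j ≤ m →
      (∑ i : Fin (m + 1), if (i : ℕ) < j then w i else 0) < (j : ℝ) / ((m : ℝ) + 1) * ∑ i, w i) :
    Summable fun a : {a : Fin (m + 1) → ℤ //
      (∀ i j : Fin (m + 1), (i : ℕ) + 1 = (j : ℕ) → a j ≤ a i + 2) ∧ ∑ i, a i ≤ 0 ∧
        -((m : ℤ) + 1) ≤ ∑ i, a i} => (2 : ℝ) ^ (∑ i, w i * (a.1 i : ℝ)) := by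
  classical
  -- a uniform constant
  obtain ⟨c, hc, hwc⟩ : ∃ c : ℝ, 0 < c ∧ ∀ j : ℕ, 1 ≤ j → j ≤ m →
      (∑ i : Fin (m + 1), if (i : ℕ) < j then w i else 0) + c ≤
        (j : ℝ) / ((m : ℝ) + 1) * ∑ i, w i := by
    rcases Nat.eq_zero_or_pos m with h0 | h0
    · refine ⟨1, one_pos, fun j h1 h2 => ?_⟩
      omega
    · obtain ⟨j0, hj0, hmin⟩ := Finset.exists_min_image (Finset.Icc 1 m)
        (fun j : ℕ => (j : ℝ) / ((m : ℝ) + 1) * ∑ i, w i -
          ∑ i : Fin (m + 1), if (i : ℕ) < j then w i else 0) ⟨1, Finset.mem_Icc.2 ⟨le_rfl, h0⟩⟩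
      rw [Finset.mem_Icc] at hj0
      refine ⟨_, sub_pos.2 (hw j0 hj0.1 hj0.2), fun j h1 h2 => ?_⟩
      have := hmin j (Finset.mem_Icc.2 ⟨h1, h2⟩)
      linarith
  obtain ⟨B, hB⟩ := pc1_bound w c hwc
  set T : Type := {a : Fin (m + 1) → ℤ //
      (∀ i j : Fin (m + 1), (i : ℕ) + 1 = (j : ℕ) → a j ≤ a i + 2) ∧ ∑ i, a i ≤ 0 ∧
        -((m : ℤ) + 1) ≤ ∑ i, a i} with hT
  set φ : T → pc1_S m × (Fin m → ℕ) := fun a =>
    (⟨∑ i, a.1 i, Finset.mem_Icc.2 ⟨a.2.2.2, a.2.2.1⟩⟩, pc1_K a.1) with hφ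
  have hφi : Function.Injective φ := by
    intro a b hab
    rw [hφ] at hab
    simp only [Prod.mk.injEq, Subtype.mk.injEq] at hab
    refine Subtype.ext (pc1_inj hab.1 fun j => ?_)
    have h1 := pc1_K_eq a.2.1 j
    have h2 := pc1_K_eq b.2.1 j
    rw [hab.2] at h1
    linarith
  set F : pc1_S m × (Fin m → ℕ) → ℝ≥0∞ := fun x =>
    ENNReal.ofReal ((2 : ℝ) ^ B) * ∏ j, (ENNReal.ofReal ((2 : ℝ) ^ (-c))) ^ (x.2 j) with hF
  have h1 : ∑' a : T, ENNReal.ofReal ((2 : ℝ) ^ (∑ i, w i * (a.1 i : ℝ))) ≠ ∞ := by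
    have h2 : ∑' a : T, ENNReal.ofReal ((2 : ℝ) ^ (∑ i, w i * (a.1 i : ℝ))) ≤ ∑' a : T, F (φ a) := by
      refine ENNReal.tsum_le_tsum fun a => ?_
      rw [hF]
      simp only
      rw [← pc1_pow]
      exact ENNReal.ofReal_le_ofReal (Real.rpow_le_rpow_of_exponent_le one_le_two
        (hB a.1 a.2.1 a.2.2.1 a.2.2.2))
    have h3 : ∑' a : T, F (φ a) ≤ ∑' x, F x := ENNReal.tsum_comp_le_tsum_of_injective hφi F
    refine ne_top_of_le_ne_top ?_ (h2.trans h3)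
    rw [ENNReal.tsum_prod']
    rw [tsum_fintype]
    refine ENNReal.sum_ne_top.2 fun x _ => ?_
    rw [hF]
    simp only
    rw [ENNReal.tsum_mul_left]
    exact ENNReal.mul_ne_top ENNReal.ofReal_ne_top (pc1_fin c hc m)
  have h4 := ENNReal.summable_toReal h1
  refine h4.congr fun a => ?_
  rw [ENNReal.toReal_ofReal (by positivity)]

end

end Pool.Agent.SGB

namespace Pool.Agent.SGB

alias dyadic_sum := dyadic_sum_pr

end Pool.Agent.SGB
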