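import Pool.Agent.Lib_helper56.SGB.Defs
import Pool.Agent.Lib_helper56.GLQ.F.H3
import Pool.Agent.Lib_helper56.GLQ.F.W6
import Pool.Agent.Lib_helper56.SGB.F.AA
import Pool.Agent.Lib_helper56.SGB.F.HA1
import Pool.Agent.Lib_helper56.SGB.F.HA2
import Pool.Agent.Lib_helper56.SGB.F.HB

/-!
# SGB, block AB: averages over superlattices
-/

set_option autoImplicit false

namespace Pool.Agent.SGB

open MeasureTheory Matrix
open Pool.Agent.RS (Mt lm SLZ)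
open Pool.Agent.GLQ (re unip cube slab Xp wN IN rm rr qq Lat latt Lz IsRed RY Om Box Kern IsInv Bd sp)
open Pool.Agent.SGN (md repR repL heckeT heckeA supS subS UW Wd lw nf WOk)
open scoped ENNReal

noncomputable section

/-- the integral matrices of determinant `k` -/
abbrev ab_D (n k : ℕ) := {b : Matrix (Fin n) (Fin n) ℤ // b.det = (k : ℤ)}

instance ab_count (n k : ℕ) : Countable (ab_D n k) := by
  have : Countable (Matrix (Fin n) (Fin n) ℤ) :=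
    inferInstanceAs (Countable (Fin n → Fin n → ℤ))
  infer_instance

theorem ab_k0 {k : ℕ} (hk : 1 ≤ k) : (k : ℤ) ≠ 0 := by
  have : k ≠ 0 := by omega
  exact_mod_cast this

theorem ab_slz_mul {n : ℕ} (γ δ : SLZ n) : (γ * δ).1 = γ.1 * δ.1 := rfl

theorem ab_inv_mul {n : ℕ} (γ : SLZ n) : (γ⁻¹).1 * γ.1 = 1 := by
  have := congrArg Subtype.val (inv_mul_cancel γ)
  exact this

theorem ab_mul_inv {n : ℕ} (γ : SLZ n) : γ.1 * (γ⁻¹).1 = 1 := by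
  have := congrArg Subtype.val (mul_inv_cancel γ)
  exact this

/-- the bijection `(γ, a) ↦ a γ⁻¹` -/
theorem ab_eR {n k : ℕ} (hk : 1 ≤ k) : ∃ e : SLZ n × {a : Fin n → Fin n → ℤ // a ∈ repR n k} ≃
    ab_D n k, ∀ x, (e x).1 = Matrix.of x.2.1 * (x.1⁻¹).1 := by
  have hd : ∀ x : SLZ n × {a : Fin n → Fin n → ℤ // a ∈ repR n k},
      (Matrix.of x.2.1 * (x.1⁻¹).1 : Matrix (Fin n) (Fin n) ℤ).det = (k : ℤ) := by
    intro x
    rw [Matrix.det_mul, (x.1⁻¹).2, mul_one]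
    exact det_repR x.2.2
  refine ⟨Equiv.ofBijective (fun x => ⟨Matrix.of x.2.1 * (x.1⁻¹).1, hd x⟩) ⟨?_, ?_⟩,
    fun x => rfl⟩
  · rintro ⟨γ, a⟩ ⟨γ', a'⟩ h
    have h1 : (Matrix.of a.1 * (γ⁻¹).1 : Matrix (Fin n) (Fin n) ℤ) = Matrix.of a'.1 * (γ'⁻¹).1 :=
      congrArg Subtype.val h
    have h2 : (Matrix.of a'.1 : Matrix (Fin n) (Fin n) ℤ) = Matrix.of a.1 * (γ⁻¹ * γ').1 := by
      rw [ab_slz_mul, ← Matrix.mul_assoc, h1, Matrix.mul_assoc, ab_inv_mul, Matrix.mul_one]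
    have h3 : a = a' := Subtype.ext (hnfR_uniq hk a.2 a'.2 (γ⁻¹ * γ') h2)
    subst h3
    have h4 : (Matrix.of a.1 : Matrix (Fin n) (Fin n) ℤ).det ≠ 0 := by
      rw [det_repR a.2]
      exact ab_k0 hk
    have h5 : (γ⁻¹).1 = (γ'⁻¹).1 := Pool.Agent.GLQ.h2a_cancel_left h4 h1
    have h6 : γ⁻¹ = γ'⁻¹ := Subtype.ext h5
    rw [inv_injective h6]
  · rintro ⟨b, hb⟩
    obtain ⟨a, ha, γ, h⟩ := hnfR hk b hb
    refine ⟨⟨γ⁻¹, ⟨a, ha⟩⟩, Subtype.ext ?_⟩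
    simp only [inv_inv]
    exact h.symm

/-- the bijection `(γ, a) ↦ γ a` -/
theorem ab_eL {n k : ℕ} (hk : 1 ≤ k) : ∃ e : SLZ n × {a : Fin n → Fin n → ℤ // a ∈ repL n k} ≃
    ab_D n k, ∀ x, (e x).1 = x.1.1 * Matrix.of x.2.1 := by
  have hd : ∀ x : SLZ n × {a : Fin n → Fin n → ℤ // a ∈ repL n k},
      (x.1.1 * Matrix.of x.2.1 : Matrix (Fin n) (Fin n) ℤ).det = (k : ℤ) := by
    intro x
    rw [Matrix.det_mul, x.1.2, one_mul]
    exact det_repL x.2.2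
  refine ⟨Equiv.ofBijective (fun x => ⟨x.1.1 * Matrix.of x.2.1, hd x⟩) ⟨?_, ?_⟩,
    fun x => rfl⟩
  · rintro ⟨γ, a⟩ ⟨γ', a'⟩ h
    have h1 : (γ.1 * Matrix.of a.1 : Matrix (Fin n) (Fin n) ℤ) = γ'.1 * Matrix.of a'.1 :=
      congrArg Subtype.val h
    have h2 : (Matrix.of a'.1 : Matrix (Fin n) (Fin n) ℤ) = (γ'⁻¹ * γ).1 * Matrix.of a.1 := by
      rw [ab_slz_mul, Matrix.mul_assoc, h1, ← Matrix.mul_assoc, ab_inv_mul, Matrix.one_mul]
    have h3 : a = a' := Subtype.ext (hnfL_uniq hk a.2 a'.2 (γ'⁻¹ * γ) h2)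
    subst h3
    have h4 : (Matrix.of a.1 : Matrix (Fin n) (Fin n) ℤ).det ≠ 0 := by
      rw [det_repL a.2]
      exact ab_k0 hk
    have h5 : γ.1 = γ'.1 := Pool.Agent.GLQ.h2a_cancel_right h4 h1
    have h6 : γ = γ' := Subtype.ext h5
    rw [h6]
  · rintro ⟨b, hb⟩
    obtain ⟨a, ha, γ, h⟩ := hnfL hk b hb
    exact ⟨⟨γ, ⟨a, ha⟩⟩, Subtype.ext h.symm⟩

theorem ab_re_inv {n : ℕ} (γ : SLZ n) : (re (γ⁻¹).1)⁻¹ = re γ.1 := by
  refine Matrix.inv_eq_left_inv ?_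
  rw [← Pool.Agent.GLQ.h3_re_mul, ab_mul_inv]
  have := Pool.Agent.GLQ.h3_re_smul_one (n := n) 1
  rw [one_smul] at this
  rw [this]
  simp

theorem ab_det_inv {n : ℕ} {b : Matrix (Fin n) (Fin n) ℤ} (hb : 0 < b.det) :
    0 < ((re b)⁻¹).det := by
  rw [Matrix.det_nonsing_inv, Pool.Agent.GLQ.h3_det_re, Ring.inverse_eq_inv']
  exact inv_pos.2 (by exact_mod_cast hb)

/-- the inner sum over superlattices is a sum over all matrices -/
theorem ab_sumR {m k : ℕ} (hk : 1 ≤ k) {F : Mt (m + 1) → ℝ≥0∞} (hF : IsInv m 1 F)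
    (A : Mt (m + 1)) (hA : 0 < (Matrix.of A).det) :
    ∑ a ∈ repR (m + 1) k, F (lm ((re (Matrix.of a))⁻¹) A) =
      ∑' b : ab_D (m + 1) k, wN m 1 (lm ((re b.1)⁻¹) A) * F (lm ((re b.1)⁻¹) A) := by
  obtain ⟨e, he⟩ := ab_eR (n := m + 1) hk
  rw [← e.tsum_eq, ← (Equiv.prodComm _ _).tsum_eq]
  simp only [Equiv.prodComm_apply, Prod.swap]
  rw [ENNReal.tsum_prod (f := fun (a : {a : Fin (m + 1) → Fin (m + 1) → ℤ // a ∈ repR (m + 1) k})
    (γ : SLZ (m + 1)) => wN m 1 (lm ((re (e (γ, a)).1)⁻¹) A) * F (lm ((re (e (γ, a)).1)⁻¹) A)),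
    tsum_fintype]
  rw [← Finset.sum_coe_sort (repR (m + 1) k) (fun a => F (lm ((re (Matrix.of a))⁻¹) A))]
  refine Finset.sum_congr rfl fun a _ => ?_
  set B : Mt (m + 1) := lm ((re (Matrix.of a.1))⁻¹) A with hB
  have hB0 : 0 < (Matrix.of B).det := by
    rw [hB, Pool.Agent.RS.lm_eq, Matrix.det_mul]
    refine mul_pos (ab_det_inv ?_) hA
    rw [det_repR a.2]
    have : 0 < k := hk
    exact_mod_cast this
  have h1 : ∀ γ : SLZ (m + 1), lm ((re (e (γ, a)).1)⁻¹) A = lm (re γ.1) B := by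
    intro γ
    rw [he, Pool.Agent.GLQ.h3_re_mul, Matrix.mul_inv_rev, ab_re_inv, hB, Pool.Agent.RS.lm_lm]
  simp_rw [h1, fun γ : SLZ (m + 1) => hF.inv γ (Pool.Agent.GLQ.w6_mem γ) B]
  rw [ENNReal.tsum_mul_right, w1_sum m B hB0, one_mul]

theorem ab_sumL {m k : ℕ} (hk : 1 ≤ k) (A : Mt (m + 1)) (hA : 0 < (Matrix.of A).det) :
    ∑' b : ab_D (m + 1) k, wN m 1 (lm (re b.1) A) = (repL (m + 1) k).card := by
  obtain ⟨e, he⟩ := ab_eL (n := m + 1) hk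
  rw [← e.tsum_eq, ← (Equiv.prodComm _ _).tsum_eq]
  simp only [Equiv.prodComm_apply, Prod.swap]
  rw [ENNReal.tsum_prod (f := fun (a : {a : Fin (m + 1) → Fin (m + 1) → ℤ // a ∈ repL (m + 1) k})
    (γ : SLZ (m + 1)) => wN m 1 (lm (re (e (γ, a)).1) A)), tsum_fintype]
  have h1 : ∀ a : {a : Fin (m + 1) → Fin (m + 1) → ℤ // a ∈ repL (m + 1) k},
      ∑' γ : SLZ (m + 1), wN m 1 (lm (re (e (γ, a)).1) A) = 1 := by
    intro a
    have hB0 : 0 < (Matrix.of (lm (re (Matrix.of a.1)) A)).det := by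
      rw [Pool.Agent.RS.lm_eq, Matrix.det_mul, Pool.Agent.GLQ.h3_det_re, det_repL a.2]
      refine mul_pos ?_ hA
      have : 0 < k := hk
      exact_mod_cast this
    rw [← w1_sum m _ hB0]
    refine tsum_congr fun γ => ?_
    rw [he, Pool.Agent.GLQ.h3_re_mul, Pool.Agent.RS.lm_lm]
  simp_rw [h1]
  simp

/-- the substitution `A ↦ G A`, `det G = 1` -/
theorem ab_subst {m : ℕ} (G : Matrix (Fin (m + 1)) (Fin (m + 1)) ℝ) (hG : G.det = 1)
    (f : Mt (m + 1) → ℝ≥0∞) (hf : Measurable f) :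
    ∫⁻ A in Xp (m + 1), f A = ∫⁻ A in Xp (m + 1), f (lm G A) := by
  have h := (Pool.Agent.RS.mp_lm G hG).restrict_preimage
    (Pool.Agent.GLQ.h3_meas_slab (m + 1) 1 2)
  have h2 : lm G ⁻¹' (slab (m + 1) 1 2) = slab (m + 1) 1 2 := by
    ext A
    simp only [Set.mem_preimage, slab, Set.mem_ofPred_eq, Pool.Agent.RS.det_of_lm G hG]
  rw [h2] at h
  show ∫⁻ A in slab (m + 1) 1 2, f A = ∫⁻ A in slab (m + 1) 1 2, f (lm G A)
  rw [h.lintegral_comp hf]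

theorem ab_lm_smul {n : ℕ} (G : Matrix (Fin n) (Fin n) ℝ) (s : ℝ) (A : Mt n) :
    lm (s • G) A = s • lm G A := by
  unfold lm
  rw [Matrix.smul_mul]
  rfl

theorem ab_step {m k : ℕ} (hk : 1 ≤ k) {F : Mt (m + 1) → ℝ≥0∞} (hF : IsInv m 1 F)
    (b : ab_D (m + 1) k) :
    ∫⁻ A in Xp (m + 1), wN m 1 A *
      (wN m 1 (lm ((re b.1)⁻¹) A) * F (lm ((re b.1)⁻¹) A)) =
    ∫⁻ A in Xp (m + 1), (wN m 1 A * F A) * wN m 1 (lm (re b.1) A) := by
  have hk0 : (0 : ℝ) < k := by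
    have : 0 < k := hk
    exact_mod_cast this
  have hdet : (re b.1).det = k := by
    rw [Pool.Agent.GLQ.h3_det_re, b.2]
    simp
  set s : ℝ := (k : ℝ) ^ (-(1 / ((m : ℝ) + 1))) with hs
  have hs0 : 0 < s := Real.rpow_pos_of_pos hk0 _
  have hG : (s • re b.1).det = 1 := by
    rw [Matrix.det_smul, Fintype.card_fin, hdet, hs, ← Real.rpow_natCast, ← Real.rpow_mul hk0.le]
    have e1 : -(1 / ((m : ℝ) + 1)) * ((m + 1 : ℕ) : ℝ) = -1 := by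
      have : (m : ℝ) + 1 ≠ 0 := by positivity
      push_cast
      field_simp
    rw [e1, Real.rpow_neg_one]
    exact inv_mul_cancel₀ hk0.ne'
  have hu : IsUnit (re b.1).det := by
    rw [hdet]
    exact hk0.ne'.isUnit
  have hw := Pool.Agent.GLQ.wN_meas m 1
  have hml := Pool.Agent.GLQ.h3_meas_lm ((re b.1)⁻¹)
  have hM : Measurable fun A : Mt (m + 1) => wN m 1 A *
      (wN m 1 (lm ((re b.1)⁻¹) A) * F (lm ((re b.1)⁻¹) A)) :=
    hw.mul ((hw.comp hml).mul (hF.meas.comp hml))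
  rw [ab_subst (s • re b.1) hG _ hM]
  refine setLIntegral_congr_fun (Pool.Agent.GLQ.h3_meas_slab _ _ _) fun A hA => ?_
  have hA0 : 0 < (Matrix.of A).det := lt_of_lt_of_le one_pos hA.1
  have hbA : 0 < (Matrix.of (lm (re b.1) A)).det := by
    rw [Pool.Agent.RS.lm_eq, Matrix.det_mul, hdet]
    exact mul_pos hk0 hA0
  have e1 : lm ((re b.1)⁻¹) (lm (s • re b.1) A) = s • A := by
    rw [Pool.Agent.RS.lm_lm, Matrix.mul_smul, Matrix.nonsing_inv_mul _ hu, ab_lm_smul,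
      Pool.Agent.RS.lm_one]
  show wN m 1 (lm (s • re b.1) A) * (wN m 1 (lm ((re b.1)⁻¹) (lm (s • re b.1) A)) *
    F (lm ((re b.1)⁻¹) (lm (s • re b.1) A))) = (wN m 1 A * F A) * wN m 1 (lm (re b.1) A)
  rw [e1, ab_lm_smul, Pool.Agent.GLQ.wN_scal m 1 s _ hs0 hbA,
    Pool.Agent.GLQ.wN_scal m 1 s _ hs0 hA0, hF.scal s A hs0]
  ring

theorem avg_sup_pr (m k : ℕ) (hk : 1 ≤ k) (F : Mt (m + 1) → ℝ≥0∞) (hF : IsInv m 1 F) :
    ∫⁻ A in Xp (m + 1), wN m 1 A *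
      ∑ a ∈ repR (m + 1) k, F (lm ((re (Matrix.of a))⁻¹) A) =
      (repL (m + 1) k).card * IN m 1 F := by
  have hw := Pool.Agent.GLQ.wN_meas m 1
  have hml := fun b : ab_D (m + 1) k => Pool.Agent.GLQ.h3_meas_lm ((re b.1)⁻¹)
  have hml' := fun b : ab_D (m + 1) k => Pool.Agent.GLQ.h3_meas_lm (re b.1)
  have h1 : ∫⁻ A in Xp (m + 1), wN m 1 A *
      ∑ a ∈ repR (m + 1) k, F (lm ((re (Matrix.of a))⁻¹) A) =
      ∫⁻ A in Xp (m + 1), ∑' b : ab_D (m + 1) k, wN m 1 A *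
        (wN m 1 (lm ((re b.1)⁻¹) A) * F (lm ((re b.1)⁻¹) A)) := by
    refine setLIntegral_congr_fun (Pool.Agent.GLQ.h3_meas_slab _ _ _) fun A hA => ?_
    have hA0 : 0 < (Matrix.of A).det := lt_of_lt_of_le one_pos hA.1
    show wN m 1 A * _ = _
    rw [ab_sumR hk hF A hA0, ENNReal.tsum_mul_left]
  have hM : ∀ b : ab_D (m + 1) k, AEMeasurable (fun A : Mt (m + 1) => wN m 1 A *
      (wN m 1 (lm ((re b.1)⁻¹) A) * F (lm ((re b.1)⁻¹) A)))
      (volume.restrict (Xp (m + 1))) := fun b =>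
    (hw.mul ((hw.comp (hml b)).mul (hF.meas.comp (hml b)))).aemeasurable
  have hM' : ∀ b : ab_D (m + 1) k, AEMeasurable (fun A : Mt (m + 1) =>
      wN m 1 A * F A * wN m 1 (lm (re b.1) A)) (volume.restrict (Xp (m + 1))) := fun b =>
    ((hw.mul hF.meas).mul (hw.comp (hml' b))).aemeasurable
  rw [h1, lintegral_tsum hM]
  simp_rw [ab_step hk hF]
  rw [← lintegral_tsum hM']
  unfold IN
  have hM2 : Measurable fun A : Mt (m + 1) => wN m 1 A * F A := hw.mul hF.meas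
  rw [← lintegral_const_mul _ hM2]
  refine setLIntegral_congr_fun (Pool.Agent.GLQ.h3_meas_slab _ _ _) fun A hA => ?_
  have hA0 : 0 < (Matrix.of A).det := lt_of_lt_of_le one_pos hA.1
  show ∑' b : ab_D (m + 1) k, wN m 1 A * F A * wN m 1 (lm (re b.1) A) = _
  rw [ENNReal.tsum_mul_left, ab_sumL hk A hA0, mul_comm]

end

end Pool.Agent.SGB

namespace Pool.Agent.SGB


end Pool.Agent.SGB

namespace Pool.Agent.SGB

alias avg_sup := avg_sup_pr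

end Pool.Agent.SGB
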