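import Pool.Agent.Lib_helper56.SGB.Defs
import Pool.Agent.Lib_helper56.GLQ.F.H2b
import Pool.Agent.Lib_helper56.GLQ.F.H3
import Pool.Agent.Lib_helper56.SGB.F.AA
import Pool.Agent.Lib_helper56.SGB.F.DB
import Pool.Agent.Lib_helper56.SGB.F.HA1
import Pool.Agent.Lib_helper56.SGB.F.HA2
import Pool.Agent.Lib_helper56.SGB.F.HB

/-!
# Project SGN, part B, block AC: adjointness of `heckeT` and `heckeA`
-/

set_option autoImplicit false

namespace Pool.Agent.SGB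

open MeasureTheory Matrix
open Pool.Agent.RS (Mt lm SLZ)
open Pool.Agent.GLQ (re unip cube slab Xp wN IN rm rr qq Lat latt Lz IsRed RY Om Box Kern IsInv Bd sp)
open Pool.Agent.SGN (md repR repL heckeT heckeA supS subS UW Wd lw nf WOk)
open scoped ENNReal

noncomputable section

/-- the integral matrices of determinant `k` -/
abbrev ac_D (n k : ℕ) : Type := {b : Matrix (Fin n) (Fin n) ℤ // b.det = k}

instance ac_count (n k : ℕ) : Countable (ac_D n k) := by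
  have : Countable (Matrix (Fin n) (Fin n) ℤ) :=
    inferInstanceAs (Countable (Fin n → Fin n → ℤ))
  infer_instance

theorem ac_md_mul {n : ℕ} (q : ℕ) (a b : Matrix (Fin n) (Fin n) ℤ) :
    md q (a * b) = md q a * md q b := by
  unfold md
  exact Matrix.map_mul (f := Int.castRingHom (ZMod q))

theorem ac_md_one {n : ℕ} (q : ℕ) : md q (1 : Matrix (Fin n) (Fin n) ℤ) = 1 := by
  unfold md
  exact Matrix.map_one _ (by simp) (by simp)

theorem ac_val_inv {n : ℕ} (γ : SLZ n) : γ.1 * γ⁻¹.1 = 1 :=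
  congrArg Subtype.val (mul_inv_cancel γ)

theorem ac_inv_val {n : ℕ} (γ : SLZ n) : γ⁻¹.1 * γ.1 = 1 :=
  congrArg Subtype.val (inv_mul_cancel γ)

theorem ac_re_one {n : ℕ} : re (1 : Matrix (Fin n) (Fin n) ℤ) = 1 := by
  unfold re
  exact Matrix.map_one _ (by simp) (by simp)

theorem ac_reg {n k : ℕ} (hk : 1 ≤ k) {b : Matrix (Fin n) (Fin n) ℤ} (hb : b.det = k) :
    IsRegular b := by
  refine Matrix.isRegular_of_isLeftRegular_det ?_
  rw [hb]
  exact (IsRegular.of_ne_zero (by exact_mod_cast (by omega : k ≠ 0) : ((k : ℕ) : ℤ) ≠ 0)).left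

/-- `(γ, a) ↦ a γ⁻¹` -/
def ac_eR (n k : ℕ) (hk : 1 ≤ k) : SLZ n × {a // a ∈ repR n k} ≃ ac_D n k :=
  Equiv.ofBijective (fun x => ⟨Matrix.of x.2.1 * x.1⁻¹.1, by
    rw [Matrix.det_mul, det_repR x.2.2, x.1⁻¹.2, mul_one]⟩) (by
    constructor
    · rintro ⟨γ, a, ha⟩ ⟨γ', a', ha'⟩ h
      have h1 : Matrix.of a * γ⁻¹.1 = Matrix.of a' * γ'⁻¹.1 := congrArg Subtype.val h
      have h2 : Matrix.of a' = Matrix.of a * (γ⁻¹ * γ').1 := by
        calc Matrix.of a' = Matrix.of a' * (γ'⁻¹.1 * γ'.1) := by rw [ac_inv_val, Matrix.mul_one]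
          _ = Matrix.of a * (γ⁻¹.1 * γ'.1) := by
            rw [← Matrix.mul_assoc, ← h1, Matrix.mul_assoc]
          _ = Matrix.of a * (γ⁻¹ * γ').1 := rfl
      have h3 : a = a' := hnfR_uniq hk ha ha' _ h2
      subst h3
      have h5 : γ⁻¹.1 = γ'⁻¹.1 := (ac_reg hk (det_repR ha)).left h1
      have h6 : γ⁻¹ = γ'⁻¹ := Subtype.ext h5
      rw [_root_.inv_inj] at h6
      rw [h6]
    · rintro ⟨b, hb⟩
      obtain ⟨a, ha, γ, h⟩ := hnfR hk b hb
      refine ⟨(γ⁻¹, ⟨a, ha⟩), Subtype.ext ?_⟩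
      show Matrix.of a * (γ⁻¹)⁻¹.1 = b
      rw [inv_inv, h])

theorem ac_eR_apply {n k : ℕ} (hk : 1 ≤ k) (x : SLZ n × {a // a ∈ repR n k}) :
    (ac_eR n k hk x).1 = Matrix.of x.2.1 * x.1⁻¹.1 := rfl

/-- `(γ, a) ↦ γ a` -/
def ac_eL (n k : ℕ) (hk : 1 ≤ k) : SLZ n × {a // a ∈ repL n k} ≃ ac_D n k :=
  Equiv.ofBijective (fun x => ⟨x.1.1 * Matrix.of x.2.1, by
    rw [Matrix.det_mul, det_repL x.2.2, x.1.2, one_mul]⟩) (by
    constructor
    · rintro ⟨γ, a, ha⟩ ⟨γ', a', ha'⟩ h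
      have h1 : γ.1 * Matrix.of a = γ'.1 * Matrix.of a' := congrArg Subtype.val h
      have h2 : Matrix.of a' = (γ'⁻¹ * γ).1 * Matrix.of a := by
        calc Matrix.of a' = (γ'⁻¹.1 * γ'.1) * Matrix.of a' := by rw [ac_inv_val, Matrix.one_mul]
          _ = (γ'⁻¹.1 * γ.1) * Matrix.of a := by
            rw [Matrix.mul_assoc, ← h1, Matrix.mul_assoc]
          _ = (γ'⁻¹ * γ).1 * Matrix.of a := rfl
      have h3 : a = a' := hnfL_uniq hk ha ha' _ h2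
      subst h3
      have h5 : γ.1 = γ'.1 := (ac_reg hk (det_repL ha)).right h1
      have h6 : γ = γ' := Subtype.ext h5
      rw [h6]
    · rintro ⟨b, hb⟩
      obtain ⟨a, ha, γ, h⟩ := hnfL hk b hb
      exact ⟨(γ, ⟨a, ha⟩), Subtype.ext h.symm⟩)

theorem ac_eL_apply {n k : ℕ} (hk : 1 ≤ k) (x : SLZ n × {a // a ∈ repL n k}) :
    (ac_eL n k hk x).1 = x.1.1 * Matrix.of x.2.1 := rfl

/-- the inverse of `a γ⁻¹` -/
theorem ac_inv {n : ℕ} (a : Matrix (Fin n) (Fin n) ℤ) (γ : SLZ n) :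
    (re (a * γ⁻¹.1))⁻¹ = re γ.1 * (re a)⁻¹ := by
  rw [Pool.Agent.GLQ.h2b_re_mul, Matrix.mul_inv_rev]
  congr 1
  refine Matrix.inv_eq_left_inv ?_
  rw [← Pool.Agent.GLQ.h2b_re_mul, ac_val_inv, ac_re_one]

theorem ac_det_inv {n k : ℕ} (hk : 1 ≤ k) {a : Matrix (Fin n) (Fin n) ℤ} (ha : a.det = k) :
    0 < ((re a)⁻¹).det := by
  rw [Matrix.det_nonsing_inv, Pool.Agent.GLQ.h2b_det, ha, Ring.inverse_eq_inv']
  have : (0 : ℝ) < k := by exact_mod_cast hk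
  have h2 : (((k : ℕ) : ℤ) : ℝ) = (k : ℝ) := by push_cast; rfl
  rw [h2]
  positivity

theorem ac_pos_inv {n k : ℕ} (hk : 1 ≤ k) {a : Matrix (Fin n) (Fin n) ℤ} (ha : a.det = k)
    {A : Mt n} (hA : 0 < (Matrix.of A).det) : 0 < (Matrix.of (lm ((re a)⁻¹) A)).det := by
  rw [Pool.Agent.RS.lm_eq, Matrix.det_mul]
  exact mul_pos (ac_det_inv hk ha) hA

theorem ac_pos {n k : ℕ} (hk : 1 ≤ k) {a : Matrix (Fin n) (Fin n) ℤ} (ha : a.det = k)
    {A : Mt n} (hA : 0 < (Matrix.of A).det) : 0 < (Matrix.of (lm (re a) A)).det :=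
  Pool.Agent.GLQ.h2b_pos (by rw [ha]; exact_mod_cast hk) hA

/-- the weights sum to `1` -/
theorem ac_w (m : ℕ) (B : Mt (m + 1)) (hB : 0 < (Matrix.of B).det) :
    HasSum (fun γ : SLZ (m + 1) => ((wN m 1 (lm (re γ.1) B)).toReal : ℂ)) 1 := by
  have h0 := w1_sum m B hB
  have h1 : ∑' γ : SLZ (m + 1), wN m 1 (lm (re γ.1) B) ≠ ⊤ := by rw [h0]; simp
  have h2 := ENNReal.hasSum_toReal h1
  have h3 := ENNReal.tsum_toReal_eq
    (f := fun γ : SLZ (m + 1) => wN m 1 (lm (re γ.1) B))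
    (fun γ => ne_top_of_le_ne_top h1 (ENNReal.le_tsum γ))
  rw [← h3, h0] at h2
  have h4 := Complex.hasSum_ofReal.2 h2
  simpa using h4

/-- `f(γ g, x γ⁻¹) = f(g, x)` -/
theorem ac_form {m q : ℕ} {f : Fm m q} (hf : Pre m q f) (γ : SLZ (m + 1))
    (g : Matrix (Fin (m + 1)) (Fin (m + 1)) ℝ) (x : Fin (m + 1) → ZMod q)
    (a : Matrix (Fin (m + 1)) (Fin (m + 1)) ℤ) :
    f (re γ.1 * g) (x ᵥ* md q (a * γ⁻¹.1)) = f g (x ᵥ* md q a) := by
  rw [hf.inv, Matrix.vecMul_vecMul, ← ac_md_mul, Matrix.mul_assoc, ac_inv_val, Matrix.mul_one]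

/-- `T_k f` as a weighted sum -/
theorem ac_sumT {m q : ℕ} {f : Fm m q} (hf : Pre m q f) (k : ℕ) (hk : 1 ≤ k) (A : Mt (m + 1))
    (hA : 0 < (Matrix.of A).det) (x : Fin (m + 1) → ZMod q) :
    HasSum (fun b : ac_D (m + 1) k => ((wN m 1 (lm ((re b.1)⁻¹) A)).toReal : ℂ) *
      f (Matrix.of (lm ((re b.1)⁻¹) A)) (x ᵥ* md q b.1)) (heckeT k f (Matrix.of A) x) := by
  rw [← (ac_eR (m + 1) k hk).hasSum_iff]
  have hsum := Pool.Agent.GLQ.h2b_fib (fun y : SLZ (m + 1) × {a // a ∈ repR (m + 1) k} =>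
      ((wN m 1 (lm (re y.1.1) (lm ((re (Matrix.of y.2.1))⁻¹) A))).toReal : ℂ) *
      f ((re (Matrix.of y.2.1))⁻¹ * Matrix.of A) (x ᵥ* md q (Matrix.of y.2.1)))
    (fun a => f ((re (Matrix.of a.1))⁻¹ * Matrix.of A) (x ᵥ* md q (Matrix.of a.1)))
    (by
      intro a
      have h1 := (ac_w m (lm ((re (Matrix.of a.1))⁻¹) A)
        (ac_pos_inv hk (det_repR a.2) hA)).mul_right
        (f ((re (Matrix.of a.1))⁻¹ * Matrix.of A) (x ᵥ* md q (Matrix.of a.1)))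
      rw [one_mul] at h1
      exact h1)
  have hval : (∑ a : {a // a ∈ repR (m + 1) k},
      f ((re (Matrix.of a.1))⁻¹ * Matrix.of A) (x ᵥ* md q (Matrix.of a.1))) =
      heckeT k f (Matrix.of A) x := by
    unfold heckeT
    exact Finset.sum_coe_sort (repR (m + 1) k)
      (fun a => f ((re (Matrix.of a))⁻¹ * Matrix.of A) (x ᵥ* md q (Matrix.of a)))
  rw [hval] at hsum
  have hfun : ((fun b : ac_D (m + 1) k => ((wN m 1 (lm ((re b.1)⁻¹) A)).toReal : ℂ) *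
      f (Matrix.of (lm ((re b.1)⁻¹) A)) (x ᵥ* md q b.1)) ∘ (ac_eR (m + 1) k hk)) =
      fun y : SLZ (m + 1) × {a // a ∈ repR (m + 1) k} =>
      ((wN m 1 (lm (re y.1.1) (lm ((re (Matrix.of y.2.1))⁻¹) A))).toReal : ℂ) *
      f ((re (Matrix.of y.2.1))⁻¹ * Matrix.of A) (x ᵥ* md q (Matrix.of y.2.1)) := by
    funext y
    rw [Function.comp_apply, ac_eR_apply, ac_inv, ← Pool.Agent.RS.lm_lm]
    congr 1
    exact ac_form hf y.1 _ x _
  rw [hfun]
  exact hsum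

/-- the weights of the inverses -/
theorem ac_wR (m k : ℕ) (hk : 1 ≤ k) (A : Mt (m + 1)) (hA : 0 < (Matrix.of A).det) :
    ∑' b : ac_D (m + 1) k, wN m 1 (lm ((re b.1)⁻¹) A) = (repR (m + 1) k).card := by
  rw [← (ac_eR (m + 1) k hk).tsum_eq, ← (Equiv.prodComm _ (SLZ (m + 1))).tsum_eq]
  simp only [Equiv.prodComm_apply, ac_eR_apply, Prod.fst_swap, Prod.snd_swap, ac_inv,
    ← Pool.Agent.RS.lm_lm]
  rw [ENNReal.tsum_prod (f := fun (a : {a // a ∈ repR (m + 1) k}) (γ : SLZ (m + 1)) =>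
    wN m 1 (lm (re γ.1) (lm ((re (Matrix.of a.1))⁻¹) A)))]
  have h1 : ∀ a : {a // a ∈ repR (m + 1) k}, ∑' γ : SLZ (m + 1),
      wN m 1 (lm (re γ.1) (lm ((re (Matrix.of a.1))⁻¹) A)) = 1 := fun a =>
    w1_sum m _ (ac_pos_inv hk (det_repR a.2) hA)
  simp_rw [h1]
  rw [tsum_fintype]
  simp

/-- the weights -/
theorem ac_wL (m k : ℕ) (hk : 1 ≤ k) (A : Mt (m + 1)) (hA : 0 < (Matrix.of A).det) :
    ∑' b : ac_D (m + 1) k, wN m 1 (lm (re b.1) A) = (repL (m + 1) k).card := by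
  rw [← (ac_eL (m + 1) k hk).tsum_eq, ← (Equiv.prodComm _ (SLZ (m + 1))).tsum_eq]
  simp only [Equiv.prodComm_apply, ac_eL_apply, Prod.fst_swap, Prod.snd_swap,
    Pool.Agent.GLQ.h2b_lm]
  rw [ENNReal.tsum_prod (f := fun (a : {a // a ∈ repL (m + 1) k}) (γ : SLZ (m + 1)) =>
    wN m 1 (lm (re γ.1) (lm (re (Matrix.of a.1)) A)))]
  have h1 : ∀ a : {a // a ∈ repL (m + 1) k}, ∑' γ : SLZ (m + 1),
      wN m 1 (lm (re γ.1) (lm (re (Matrix.of a.1)) A)) = 1 := fun a =>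
    w1_sum m _ (ac_pos hk (det_repL a.2) hA)
  simp_rw [h1]
  rw [tsum_fintype]
  simp

/-- `x ↦ x γ⁻¹` -/
def ac_equiv {n : ℕ} (q : ℕ) (γ : SLZ n) : (Fin n → ZMod q) ≃ (Fin n → ZMod q) where
  toFun x := x ᵥ* md q γ⁻¹.1
  invFun x := x ᵥ* md q γ.1
  left_inv x := by
    show (x ᵥ* md q γ⁻¹.1) ᵥ* md q γ.1 = x
    rw [Matrix.vecMul_vecMul, ← ac_md_mul, ac_inv_val, ac_md_one, Matrix.vecMul_one]
  right_inv x := by
    show (x ᵥ* md q γ.1) ᵥ* md q γ⁻¹.1 = x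
    rw [Matrix.vecMul_vecMul, ← ac_md_mul, ac_val_inv, ac_md_one, Matrix.vecMul_one]

/-- the sum over `y` for `b = γ a` -/
theorem ac_sumY {m q : ℕ} [NeZero q] {f f' : Fm m q} (hf' : Pre m q f') (γ : SLZ (m + 1))
    (a : Matrix (Fin (m + 1)) (Fin (m + 1)) ℤ) (g : Matrix (Fin (m + 1)) (Fin (m + 1)) ℝ) :
    ∑ y, f g (y ᵥ* md q (γ.1 * a)) * (starRingEnd ℂ) (f' (re (γ.1 * a) * g) y) =
      ∑ y, f g (y ᵥ* md q a) * (starRingEnd ℂ) (f' (re a * g) y) := by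
  rw [← (ac_equiv q γ).sum_comp fun y => f g (y ᵥ* md q (γ.1 * a)) *
    (starRingEnd ℂ) (f' (re (γ.1 * a) * g) y)]
  refine Finset.sum_congr rfl fun y _ => ?_
  show f g ((y ᵥ* md q γ⁻¹.1) ᵥ* md q (γ.1 * a)) *
    (starRingEnd ℂ) (f' (re (γ.1 * a) * g) (y ᵥ* md q γ⁻¹.1)) = _
  rw [Matrix.vecMul_vecMul, ← ac_md_mul, ← Matrix.mul_assoc, ac_inv_val, Matrix.one_mul,
    Pool.Agent.GLQ.h2b_re_mul, Matrix.mul_assoc, hf'.inv, Matrix.vecMul_vecMul, ← ac_md_mul,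
    ac_inv_val, ac_md_one, Matrix.vecMul_one]

/-- the scalar product with `T_k^* f'` as a weighted sum -/
theorem ac_sumA {m q : ℕ} [NeZero q] {f f' : Fm m q} (hf' : Pre m q f') (k : ℕ)
    (hk : 1 ≤ k) (A : Mt (m + 1)) (hA : 0 < (Matrix.of A).det) :
    HasSum (fun b : ac_D (m + 1) k => ((wN m 1 (lm (re b.1) A)).toReal : ℂ) *
      ∑ y, f (Matrix.of A) (y ᵥ* md q b.1) *
        (starRingEnd ℂ) (f' (Matrix.of (lm (re b.1) A)) y))
      (∑ x, f (Matrix.of A) x * (starRingEnd ℂ) (heckeA k f' (Matrix.of A) x)) := by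
  rw [← (ac_eL (m + 1) k hk).hasSum_iff]
  have hsum := Pool.Agent.GLQ.h2b_fib (fun y : SLZ (m + 1) × {a // a ∈ repL (m + 1) k} =>
      ((wN m 1 (lm (re y.1.1) (lm (re (Matrix.of y.2.1)) A))).toReal : ℂ) *
      ∑ x, f (Matrix.of A) (x ᵥ* md q (Matrix.of y.2.1)) *
        (starRingEnd ℂ) (f' (re (Matrix.of y.2.1) * Matrix.of A) x))
    (fun a => ∑ x, f (Matrix.of A) (x ᵥ* md q (Matrix.of a.1)) *
        (starRingEnd ℂ) (f' (re (Matrix.of a.1) * Matrix.of A) x))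
    (by
      intro a
      have h1 := (ac_w m (lm (re (Matrix.of a.1)) A)
        (ac_pos hk (det_repL a.2) hA)).mul_right
        (∑ x, f (Matrix.of A) (x ᵥ* md q (Matrix.of a.1)) *
        (starRingEnd ℂ) (f' (re (Matrix.of a.1) * Matrix.of A) x))
      rw [one_mul] at h1
      exact h1)
  have hval : (∑ a : {a // a ∈ repL (m + 1) k}, ∑ x, f (Matrix.of A) (x ᵥ* md q (Matrix.of a.1)) *
        (starRingEnd ℂ) (f' (re (Matrix.of a.1) * Matrix.of A) x)) =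
      ∑ x, f (Matrix.of A) x * (starRingEnd ℂ) (heckeA k f' (Matrix.of A) x) := by
    rw [Finset.sum_coe_sort (repL (m + 1) k) (fun a => ∑ x, f (Matrix.of A)
      (x ᵥ* md q (Matrix.of a)) * (starRingEnd ℂ) (f' (re (Matrix.of a) * Matrix.of A) x))]
    unfold heckeA
    simp only [map_sum, Finset.mul_sum]
    refine Eq.trans ?_ Finset.sum_comm
    refine Finset.sum_congr rfl fun a _ => ?_
    refine Eq.trans ?_ Finset.sum_comm
    refine Finset.sum_congr rfl fun y _ => ?_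
    have h1 : ∀ x, f (Matrix.of A) x * (starRingEnd ℂ) (if y ᵥ* md q (Matrix.of a) = x then
        f' (re (Matrix.of a) * Matrix.of A) y else 0) = if y ᵥ* md q (Matrix.of a) = x then
        f (Matrix.of A) x * (starRingEnd ℂ) (f' (re (Matrix.of a) * Matrix.of A) y) else 0 := by
      intro x
      split_ifs
      · rfl
      · rw [map_zero, mul_zero]
    simp only [h1]
    simp only [Finset.sum_ite_eq, Finset.mem_univ, if_true]
  rw [hval] at hsum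
  have hfun : ((fun b : ac_D (m + 1) k => ((wN m 1 (lm (re b.1) A)).toReal : ℂ) *
      ∑ y, f (Matrix.of A) (y ᵥ* md q b.1) *
        (starRingEnd ℂ) (f' (Matrix.of (lm (re b.1) A)) y)) ∘ (ac_eL (m + 1) k hk)) =
      fun y : SLZ (m + 1) × {a // a ∈ repL (m + 1) k} =>
      ((wN m 1 (lm (re y.1.1) (lm (re (Matrix.of y.2.1)) A))).toReal : ℂ) *
      ∑ x, f (Matrix.of A) (x ᵥ* md q (Matrix.of y.2.1)) *
        (starRingEnd ℂ) (f' (re (Matrix.of y.2.1) * Matrix.of A) x) := by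
    funext y
    rw [Function.comp_apply, ac_eL_apply, Pool.Agent.GLQ.h2b_lm]
    congr 1
    have e : Matrix.of (lm (re y.1.1) (lm (re (Matrix.of y.2.1)) A)) =
        re (y.1.1 * Matrix.of y.2.1) * Matrix.of A := by
      rw [← Pool.Agent.GLQ.h2b_lm]
      rfl
    rw [e]
    exact ac_sumY hf' y.1 (Matrix.of y.2.1) (Matrix.of A)
  rw [hfun]
  exact hsum

theorem ac_mass {m : ℕ} (hm : 1 ≤ m) : ∫⁻ A in Xp (m + 1), wN m 1 A ≠ ⊤ := by
  have h := mass1 m hm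
  unfold IN at h
  simpa using h

/-- total mass of a family `∑_b w(A) w(g_b A)` -/
theorem ac_total {m : ℕ} (hm : 1 ≤ m) {k : ℕ}
    (g : ac_D (m + 1) k → Matrix (Fin (m + 1)) (Fin (m + 1)) ℝ) {S C : ℝ≥0∞} (hS : S ≠ ⊤)
    (hC : C ≠ ⊤)
    (hg : ∀ A : Mt (m + 1), 0 < (Matrix.of A).det → ∑' d, wN m 1 (lm (g d) A) = S) :
    ∑' d, ∫⁻ A in Xp (m + 1), C * (wN m 1 A * wN m 1 (lm (g d) A)) ≠ ⊤ := by
  have hmeas : ∀ d, Measurable fun A : Mt (m + 1) => C * (wN m 1 A * wN m 1 (lm (g d) A)) :=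
    fun d => ((Pool.Agent.GLQ.wN_meas m 1).mul ((Pool.Agent.GLQ.wN_meas m 1).comp
      (Pool.Agent.GLQ.h3_meas_lm (g d)))).const_mul C
  rw [← lintegral_tsum fun d => (hmeas d).aemeasurable]
  have h1 : ∫⁻ A in Xp (m + 1), ∑' d, C * (wN m 1 A * wN m 1 (lm (g d) A)) =
      ∫⁻ A in Xp (m + 1), C * S * wN m 1 A := by
    refine setLIntegral_congr_fun (Pool.Agent.GLQ.h3_meas_slab _ _ _) fun A hA => ?_
    have hA0 : 0 < (Matrix.of A).det := lt_of_lt_of_le one_pos hA.1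
    show ∑' d, C * (wN m 1 A * wN m 1 (lm (g d) A)) = C * S * wN m 1 A
    rw [ENNReal.tsum_mul_left, ENNReal.tsum_mul_left, hg A hA0]
    ring
  rw [h1, lintegral_const_mul _ (Pool.Agent.GLQ.wN_meas m 1)]
  exact ENNReal.mul_ne_top (ENNReal.mul_ne_top hC hS) (ac_mass hm)

theorem ac_bdd {m q : ℕ} {f : Fm m q} (h : Pre m q f) :
    ∃ M : ℝ, ∀ g x, ‖f g x‖ₑ ≤ ENNReal.ofReal M := by
  obtain ⟨M, hM⟩ := h.bdd
  refine ⟨M, fun g x => ?_⟩
  rw [← ofReal_norm]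
  exact ENNReal.ofReal_le_ofReal (hM g x)

/-- [W2] adjointness -/
theorem adjX_pr {m q : ℕ} [NeZero q] (hm : 1 ≤ m) (f f' : Fm m q) (hf : Pre m q f)
    (hf' : Pre m q f') (k : ℕ) (hk : 1 ≤ k) :
    ipX m q (heckeT k f) f' = ipX m q f (heckeA k f') := by
  have hk0 : (0 : ℝ) < k := by exact_mod_cast hk
  obtain ⟨M1, hM1⟩ := ac_bdd hf
  obtain ⟨M2, hM2⟩ := ac_bdd hf'
  let f1 : ac_D (m + 1) k → Mt (m + 1) → ℂ := fun b A => ((wN m 1 A).toReal : ℂ) *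
    ∑ x, (((wN m 1 (lm ((re b.1)⁻¹) A)).toReal : ℂ) *
      f (Matrix.of (lm ((re b.1)⁻¹) A)) (x ᵥ* md q b.1)) * (starRingEnd ℂ) (f' (Matrix.of A) x)
  let f2 : ac_D (m + 1) k → Mt (m + 1) → ℂ := fun b A => ((wN m 1 A).toReal : ℂ) *
    (((wN m 1 (lm (re b.1) A)).toReal : ℂ) *
      ∑ y, f (Matrix.of A) (y ᵥ* md q b.1) *
        (starRingEnd ℂ) (f' (Matrix.of (lm (re b.1) A)) y))
  have hw : Measurable fun A : Mt (m + 1) => ((wN m 1 A).toReal : ℂ) :=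
    Complex.measurable_ofReal.comp (Pool.Agent.GLQ.wN_meas m 1).ennreal_toReal
  have hconj : Measurable fun z : ℂ => (starRingEnd ℂ) z := Complex.continuous_conj.measurable
  have hf1 : ∀ b, Measurable (f1 b) := fun b =>
    hw.mul (Finset.measurable_sum _ fun x _ =>
      ((hw.comp (Pool.Agent.GLQ.h3_meas_lm _)).mul
        ((pre_meas hf _).comp (Pool.Agent.GLQ.h3_meas_lm _))).mul (hconj.comp (pre_meas hf' x)))
  have hf2 : ∀ b, Measurable (f2 b) := fun b =>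
    hw.mul ((hw.comp (Pool.Agent.GLQ.h3_meas_lm _)).mul (Finset.measurable_sum _ fun y _ =>
      (pre_meas hf _).mul (hconj.comp ((pre_meas hf' y).comp (Pool.Agent.GLQ.h3_meas_lm _)))))
  have hconjn : ∀ z : ℂ, ‖(starRingEnd ℂ) z‖ₑ = ‖z‖ₑ := by
    intro z
    rw [← ofReal_norm, ← ofReal_norm, RCLike.norm_conj]
  set Q : ℝ≥0∞ := (Fintype.card (Fin (m + 1) → ZMod q) : ℝ≥0∞) with hQ
  have hb1 : ∀ b A, ‖f1 b A‖ₑ ≤ Q * (ENNReal.ofReal M1 * ENNReal.ofReal M2) *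
      (wN m 1 A * wN m 1 (lm ((re b.1)⁻¹) A)) := by
    intro b A
    show ‖((wN m 1 A).toReal : ℂ) * ∑ x, (((wN m 1 (lm ((re b.1)⁻¹) A)).toReal : ℂ) *
      f (Matrix.of (lm ((re b.1)⁻¹) A)) (x ᵥ* md q b.1)) *
        (starRingEnd ℂ) (f' (Matrix.of A) x)‖ₑ ≤ _
    rw [enorm_mul]
    calc _ ≤ wN m 1 A * ∑ _x : Fin (m + 1) → ZMod q, (wN m 1 (lm ((re b.1)⁻¹) A) *
          ENNReal.ofReal M1 * ENNReal.ofReal M2) := by
          refine mul_le_mul' Pool.Agent.GLQ.h3_enorm_le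
            ((enorm_sum_le _ _).trans (Finset.sum_le_sum fun x _ => ?_))
          rw [enorm_mul, enorm_mul, hconjn]
          exact mul_le_mul' (mul_le_mul' Pool.Agent.GLQ.h3_enorm_le (hM1 _ _)) (hM2 _ _)
      _ = _ := by
          rw [Finset.sum_const, Finset.card_univ, nsmul_eq_mul, ← hQ]
          ring
  have hb2 : ∀ b A, ‖f2 b A‖ₑ ≤ Q * (ENNReal.ofReal M1 * ENNReal.ofReal M2) *
      (wN m 1 A * wN m 1 (lm (re b.1) A)) := by
    intro b A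
    show ‖((wN m 1 A).toReal : ℂ) * (((wN m 1 (lm (re b.1) A)).toReal : ℂ) *
      ∑ y, f (Matrix.of A) (y ᵥ* md q b.1) *
        (starRingEnd ℂ) (f' (Matrix.of (lm (re b.1) A)) y))‖ₑ ≤ _
    rw [enorm_mul, enorm_mul]
    calc _ ≤ wN m 1 A * (wN m 1 (lm (re b.1) A) * ∑ _x : Fin (m + 1) → ZMod q,
          (ENNReal.ofReal M1 * ENNReal.ofReal M2)) := by
          refine mul_le_mul' Pool.Agent.GLQ.h3_enorm_le (mul_le_mul' Pool.Agent.GLQ.h3_enorm_le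
            ((enorm_sum_le _ _).trans (Finset.sum_le_sum fun x _ => ?_)))
          rw [enorm_mul, hconjn]
          exact mul_le_mul' (hM1 _ _) (hM2 _ _)
      _ = _ := by
          rw [Finset.sum_const, Finset.card_univ, nsmul_eq_mul, ← hQ]
          ring
  have hC : Q * (ENNReal.ofReal M1 * ENNReal.ofReal M2) ≠ ⊤ :=
    ENNReal.mul_ne_top (ENNReal.natCast_ne_top _)
      (ENNReal.mul_ne_top ENNReal.ofReal_ne_top ENNReal.ofReal_ne_top)
  have ht1 : ∑' b, ∫⁻ A in Xp (m + 1), ‖f1 b A‖ₑ ≠ ⊤ := by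
    refine ne_top_of_le_ne_top (ac_total hm (fun b : ac_D (m + 1) k => (re b.1)⁻¹)
      (ENNReal.natCast_ne_top (repR (m + 1) k).card) hC fun A hA => ac_wR m k hk A hA) ?_
    exact ENNReal.tsum_le_tsum fun b => lintegral_mono (hb1 b)
  have ht2 : ∑' b, ∫⁻ A in Xp (m + 1), ‖f2 b A‖ₑ ≠ ⊤ := by
    refine ne_top_of_le_ne_top (ac_total hm (fun b : ac_D (m + 1) k => re b.1)
      (ENNReal.natCast_ne_top (repL (m + 1) k).card) hC fun A hA => ac_wL m k hk A hA) ?_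
    exact ENNReal.tsum_le_tsum fun b => lintegral_mono (hb2 b)
  -- both sides are sums of integrals
  have hL : ipX m q (heckeT k f) f' = ∑' b, ∫ A in Xp (m + 1), f1 b A := by
    rw [← integral_tsum (fun b => (hf1 b).aestronglyMeasurable) ht1]
    refine setIntegral_congr_fun (Pool.Agent.GLQ.h3_meas_slab _ _ _) fun A hA => ?_
    have hA0 : 0 < (Matrix.of A).det := lt_of_lt_of_le one_pos hA.1
    have e1 : ∀ x ∈ (Finset.univ : Finset (Fin (m + 1) → ZMod q)), HasSum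
        (fun b : ac_D (m + 1) k => (((wN m 1 (lm ((re b.1)⁻¹) A)).toReal : ℂ) *
        f (Matrix.of (lm ((re b.1)⁻¹) A)) (x ᵥ* md q b.1)) * (starRingEnd ℂ) (f' (Matrix.of A) x))
        (heckeT k f (Matrix.of A) x * (starRingEnd ℂ) (f' (Matrix.of A) x)) := fun x _ =>
      (ac_sumT hf k hk A hA0 x).mul_right _
    exact ((hasSum_sum e1).mul_left _).tsum_eq.symm
  have hR : ipX m q f (heckeA k f') = ∑' b, ∫ A in Xp (m + 1), f2 b A := by
    rw [← integral_tsum (fun b => (hf2 b).aestronglyMeasurable) ht2]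
    refine setIntegral_congr_fun (Pool.Agent.GLQ.h3_meas_slab _ _ _) fun A hA => ?_
    have hA0 : 0 < (Matrix.of A).det := lt_of_lt_of_le one_pos hA.1
    exact ((ac_sumA (f := f) hf' k hk A hA0).mul_left _).tsum_eq.symm
  rw [hL, hR]
  refine tsum_congr fun b => ?_
  -- the substitution
  set s : ℝ := (k : ℝ) ^ (-(1 / ((m : ℝ) + 1))) with hs
  have hs0 : 0 < s := Real.rpow_pos_of_pos hk0 _
  have hdet : (re b.1).det = k := by
    rw [Pool.Agent.GLQ.h2b_det, b.2]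
    simp
  have hG : (s • re b.1).det = 1 := by
    rw [Matrix.det_smul, hdet, Fintype.card_fin, hs, ← Real.rpow_natCast, ← Real.rpow_mul hk0.le]
    have : -(1 / ((m : ℝ) + 1)) * ((m + 1 : ℕ) : ℝ) = -1 := by
      push_cast
      field_simp
    rw [this, Real.rpow_neg_one]
    exact inv_mul_cancel₀ hk0.ne'
  have hu : IsUnit (re b.1).det := by
    rw [hdet]
    exact hk0.ne'.isUnit
  rw [Pool.Agent.GLQ.h3_subst (s • re b.1) hG (f1 b) (hf1 b)]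
  refine setIntegral_congr_fun (Pool.Agent.GLQ.h3_meas_slab _ _ _) fun A hA => ?_
  have hA0 : 0 < (Matrix.of A).det := lt_of_lt_of_le one_pos hA.1
  have e1 : lm ((re b.1)⁻¹) (lm (s • re b.1) A) = s • A := by
    rw [Pool.Agent.RS.lm_lm, Matrix.mul_smul, Matrix.nonsing_inv_mul _ hu]
    show ((s • (1 : Matrix (Fin (m + 1)) (Fin (m + 1)) ℝ)) *
      Matrix.of A : Matrix (Fin (m + 1)) (Fin (m + 1)) ℝ) = s • A
    rw [Matrix.smul_mul, Matrix.one_mul]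
    rfl
  have e2 : lm (s • re b.1) A = s • lm (re b.1) A := by
    show ((s • re b.1) * Matrix.of A : Matrix (Fin (m + 1)) (Fin (m + 1)) ℝ) =
      s • lm (re b.1) A
    rw [Matrix.smul_mul]
    rfl
  have hdA : 0 < (Matrix.of (lm (re b.1) A)).det := by
    rw [Pool.Agent.RS.lm_eq, Matrix.det_mul, hdet]
    exact mul_pos hk0 hA0
  have e3 : wN m 1 (lm (s • re b.1) A) = wN m 1 (lm (re b.1) A) := by
    rw [e2]
    exact Pool.Agent.GLQ.wN_scal m 1 s _ hs0 hdA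
  have e4 : wN m 1 (lm ((re b.1)⁻¹) (lm (s • re b.1) A)) = wN m 1 A := by
    rw [e1]
    exact Pool.Agent.GLQ.wN_scal m 1 s _ hs0 hA0
  have e5 : ∀ x, f (Matrix.of (lm ((re b.1)⁻¹) (lm (s • re b.1) A))) x =
      f (Matrix.of A) x := by
    intro x
    rw [e1]
    exact hf.scal s (Matrix.of A) x hs0
  have e6 : ∀ x, f' (Matrix.of (lm (s • re b.1) A)) x = f' (Matrix.of (lm (re b.1) A)) x := by
    intro x
    rw [e2]
    exact hf'.scal s (Matrix.of (lm (re b.1) A)) x hs0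
  show ((wN m 1 (lm (s • re b.1) A)).toReal : ℂ) *
    ∑ x, (((wN m 1 (lm ((re b.1)⁻¹) (lm (s • re b.1) A))).toReal : ℂ) *
      f (Matrix.of (lm ((re b.1)⁻¹) (lm (s • re b.1) A))) (x ᵥ* md q b.1)) *
        (starRingEnd ℂ) (f' (Matrix.of (lm (s • re b.1) A)) x) =
    ((wN m 1 A).toReal : ℂ) * (((wN m 1 (lm (re b.1) A)).toReal : ℂ) *
      ∑ y, f (Matrix.of A) (y ᵥ* md q b.1) *
        (starRingEnd ℂ) (f' (Matrix.of (lm (re b.1) A)) y))
  simp only [e3, e4, e5, e6, Finset.mul_sum]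
  refine Finset.sum_congr rfl fun x _ => ?_
  ring

end

end Pool.Agent.SGB

namespace Pool.Agent.SGB

alias adjX := adjX_pr

end Pool.Agent.SGB
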