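import Pool.Agent.Lib_helper56.SGB.Defs
import Pool.Agent.Lib_helper56.SGB.F.AC

/-!
# Project SGN, part B, block AD: eigenforms with different systems are orthogonal
-/

set_option autoImplicit false

namespace Pool.Agent.SGB

open MeasureTheory Matrix
open Pool.Agent.RS (Mt lm SLZ)
open Pool.Agent.GLQ (re unip cube slab Xp wN IN rm rr qq Lat latt Lz IsRed RY Om Box Kern IsInv Bd sp)
open Pool.Agent.SGN (md repR repL heckeT heckeA supS subS UW Wd lw nf WOk)
open scoped ENNReal

noncomputable section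

/-- the scalar product of an eigenfunction -/
theorem ad_left {m q : ℕ} [NeZero q] {F f f' : Fm m q} {c : ℂ}
    (h : ∀ (g : Matrix (Fin (m + 1)) (Fin (m + 1)) ℝ) (x : Fin (m + 1) → ZMod q), 0 < g.det →
      F g x = c * f g x) :
    ipX m q F f' = c * ipX m q f f' := by
  unfold ipX
  rw [← integral_const_mul]
  apply setIntegral_congr_fun (GLQ.h4_Xp_meas (m + 1))
  intro A hA
  simp only
  have h1 : ∀ x, F (Matrix.of A) x * (starRingEnd ℂ) (f' (Matrix.of A) x) =
      c * (f (Matrix.of A) x * (starRingEnd ℂ) (f' (Matrix.of A) x)) := by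
    intro x
    rw [h _ x (GLQ.h4_Xp_pos hA)]
    ring
  simp only [h1]
  rw [← Finset.mul_sum]
  ring

theorem ad_right {m q : ℕ} [NeZero q] {F f f' : Fm m q} {c : ℂ}
    (h : ∀ (g : Matrix (Fin (m + 1)) (Fin (m + 1)) ℝ) (x : Fin (m + 1) → ZMod q), 0 < g.det →
      F g x = c * f' g x) :
    ipX m q f F = (starRingEnd ℂ) c * ipX m q f f' := by
  unfold ipX
  rw [← integral_const_mul]
  apply setIntegral_congr_fun (GLQ.h4_Xp_meas (m + 1))
  intro A hA
  simp only
  have h1 : ∀ x, f (Matrix.of A) x * (starRingEnd ℂ) (F (Matrix.of A) x) =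
      (starRingEnd ℂ) c * (f (Matrix.of A) x * (starRingEnd ℂ) (f' (Matrix.of A) x)) := by
    intro x
    rw [h _ x (GLQ.h4_Xp_pos hA), map_mul]
    ring
  simp only [h1]
  rw [← Finset.mul_sum]
  ring

theorem orthX_pr {m q : ℕ} [NeZero q] (hm : 1 ≤ m) {k0 : Mt (m + 1) → ℂ} {f f' : Fm m q}
    {lam lam' : ℕ → ℂ} (h : Eg m q k0 f lam) (h' : Eg m q k0 f' lam') (hne : lam ≠ lam') :
    ipX m q f f' = 0 := by
  by_contra h0
  apply hne
  funext k
  rcases Nat.eq_zero_or_pos k with rfl | hk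
  · rw [h.zero, h'.zero]
  · have e := adjX hm f f' h.toFrm.toPre h'.toFrm.toPre k hk
    rw [ad_left (fun g x hg => h.up k hk g x hg), ad_right (fun g x hg => h'.dn k hk g x hg)] at e
    have e1 := mul_right_cancel₀ h0 e
    have hc : (((k : ℝ) ^ ((m : ℝ) / 2) : ℝ) : ℂ) ≠ 0 := by
      have : (0 : ℝ) < (k : ℝ) ^ ((m : ℝ) / 2) := Real.rpow_pos_of_pos (by exact_mod_cast hk) _
      exact_mod_cast this.ne'
    rw [map_mul, Complex.conj_ofReal, Complex.conj_conj] at e1
    exact mul_left_cancel₀ hc e1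

end

end Pool.Agent.SGB

namespace Pool.Agent.SGB

alias orthX := orthX_pr

end Pool.Agent.SGB
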