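import Pool.Agent.Lib_helper56.SGB.Defs
import Pool.Agent.Lib_helper56.GLQ.F.D1
import Pool.Agent.Lib_helper56.SGB.F.AA

/-!
Project SGN part B, block DA: the multiplicity lemma.
-/

set_option autoImplicit false

namespace Pool.Agent.SGB

open MeasureTheory Matrix
open Pool.Agent.RS (Mt lm SLZ)
open Pool.Agent.GLQ (re unip cube slab Xp wN IN rm rr qq Lat latt Lz IsRed RY Om Box Kern IsInv Bd sp)
open Pool.Agent.SGN (md repR repL heckeT heckeA supS subS UW Wd lw nf WOk)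
open scoped ENNReal

noncomputable section

theorem da_md_mul {n : ℕ} (q : ℕ) (X Y : Matrix (Fin n) (Fin n) ℤ) :
    md q (X * Y) = md q X * md q Y := by
  ext i j
  simp [md, Matrix.mul_apply]

theorem da_md_one {n : ℕ} (q : ℕ) : md q (1 : Matrix (Fin n) (Fin n) ℤ) = 1 := by
  ext i j
  by_cases h : i = j
  · subst h
    simp [md]
  · simp [md, h]

theorem da_md_inv {n : ℕ} (q : ℕ) (γ : SLZ n) : md q γ.1 * md q (γ⁻¹).1 = 1 := by
  rw [← da_md_mul]
  have : γ.1 * (γ⁻¹).1 = 1 := congrArg Subtype.val (mul_inv_cancel γ)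
  rw [this, da_md_one]

open Classical in
/-- the number of `γ` with `G⁻¹ γ A'` in `B` and `z γ = y` -/
def da_cnt (m q : ℕ) (B : Set (Mt (m + 1))) (G : Matrix (Fin (m + 1)) (Fin (m + 1)) ℝ)
    (z : Fin (m + 1) → ZMod q) (A' : Mt (m + 1)) (y : Fin (m + 1) → ZMod q) : ℝ≥0∞ :=
  ∑' γ : SLZ (m + 1), if lm G⁻¹ (lm (re γ.1) A') ∈ B ∧ z ᵥ* md q γ.1 = y then 1 else 0

open Classical in
/-- the pointwise inequality -/
theorem da_point (m q : ℕ) (B : Set (Mt (m + 1)))
    (R : ℝ) (hR : ∀ h ∈ B, ∀ h' ∈ B, ∀ M : Matrix (Fin (m + 1)) (Fin (m + 1)) ℝ,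
      M * Matrix.of h = Matrix.of h' → ∀ a b, |M a b| ≤ R) (ι : Type) [Fintype ι]
    (δ : ι → Matrix (Fin (m + 1)) (Fin (m + 1)) ℝ) (hδ : ∀ i, (δ i).det = 1)
    (E : ι → Matrix (Fin (m + 1)) (Fin (m + 1)) (ZMod q))
    (A : Mt (m + 1)) (hA : 0 < (Matrix.of A).det) (x : Fin (m + 1) → ZMod q)
    (A' : Mt (m + 1)) (y : Fin (m + 1) → ZMod q) :
    ∑ i, (multX m q R δ E i A x)⁻¹ * da_cnt m q B (δ i * Matrix.of A) (x ᵥ* E i) A' y ≤ 1 := by
  obtain ⟨T, hT⟩ : ∃ T : ℝ≥0∞,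
    T = ∑ i, da_cnt m q B (δ i * Matrix.of A) (x ᵥ* E i) A' y := ⟨_, rfl⟩
  have hG : ∀ i, IsUnit (δ i * Matrix.of A).det := by
    intro i
    rw [Matrix.det_mul, hδ i, one_mul]
    exact isUnit_iff_ne_zero.2 hA.ne'
  have key : ∀ i, da_cnt m q B (δ i * Matrix.of A) (x ᵥ* E i) A' y ≠ 0 →
      T ≤ multX m q R δ E i A x := by
    intro i hi
    obtain ⟨γ₀, hγ₀, hγy⟩ : ∃ γ₀ : SLZ (m + 1), lm (δ i * Matrix.of A)⁻¹
        (lm (re γ₀.1) A') ∈ B ∧ (x ᵥ* E i) ᵥ* md q γ₀.1 = y := by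
      by_contra hcon
      push Not at hcon
      apply hi
      unfold da_cnt
      rw [ENNReal.tsum_eq_zero]
      intro γ
      rw [if_neg]
      rintro ⟨h1, h2⟩
      exact hcon γ h1 h2
    rw [hT]
    unfold multX
    apply Finset.sum_le_sum
    intro i' _
    unfold da_cnt
    rw [← (Equiv.mulRight γ₀⁻¹).tsum_eq (fun γ : SLZ (m + 1) =>
      if (∀ a b, |((δ i' * Matrix.of A)⁻¹ *
        (re γ.1 * (δ i * Matrix.of A))) a b| ≤ R) ∧
        (x ᵥ* E i') ᵥ* md q γ.1 = x ᵥ* E i then (1 : ℝ≥0∞) else 0)]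
    apply ENNReal.tsum_le_tsum
    intro γ
    by_cases h1 : lm (δ i' * Matrix.of A)⁻¹ (lm (re γ.1) A') ∈ B ∧ (x ᵥ* E i') ᵥ* md q γ.1 = y
    · rw [if_pos h1, if_pos]
      have h2 : re ((Equiv.mulRight γ₀⁻¹ γ : SLZ (m + 1))).1 =
          re γ.1 * re (γ₀⁻¹).1 := by
        rw [← Pool.Agent.GLQ.d1_re_mul]
        rfl
      have h2' : md q ((Equiv.mulRight γ₀⁻¹ γ : SLZ (m + 1))).1 =
          md q γ.1 * md q (γ₀⁻¹).1 := by
        rw [← da_md_mul]
        rfl
      refine ⟨?_, ?_⟩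
      · apply hR _ hγ₀ _ h1.1
        have h3 : (Matrix.of (lm (δ i * Matrix.of A)⁻¹ (lm (re γ₀.1) A')) :
            Matrix (Fin (m + 1)) (Fin (m + 1)) ℝ) = (δ i * Matrix.of A)⁻¹ *
              (re γ₀.1 * Matrix.of A') := rfl
        have h4 : (Matrix.of (lm (δ i' * Matrix.of A)⁻¹ (lm (re γ.1) A')) :
            Matrix (Fin (m + 1)) (Fin (m + 1)) ℝ) = (δ i' * Matrix.of A)⁻¹ *
              (re γ.1 * Matrix.of A') := rfl
        rw [h2, h3, h4]
        calc (δ i' * Matrix.of A)⁻¹ * (re γ.1 * re (γ₀⁻¹).1 *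
              (δ i * Matrix.of A)) * ((δ i * Matrix.of A)⁻¹ *
              (re γ₀.1 * Matrix.of A'))
            = (δ i' * Matrix.of A)⁻¹ * (re γ.1 * (re (γ₀⁻¹).1 *
              ((δ i * Matrix.of A) * (δ i * Matrix.of A)⁻¹) * re γ₀.1 *
                Matrix.of A')) := by
              simp only [Matrix.mul_assoc]
          _ = (δ i' * Matrix.of A)⁻¹ * (re γ.1 * Matrix.of A') := by
              rw [Matrix.mul_nonsing_inv _ (hG i), Matrix.mul_one,
                Pool.Agent.GLQ.d1_re_inv, Matrix.one_mul]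
      · rw [h2', ← Matrix.vecMul_vecMul, h1.2, ← hγy, Matrix.vecMul_vecMul, da_md_inv,
          Matrix.vecMul_one]
    · rw [if_neg h1]
      exact zero_le
  calc ∑ i, (multX m q R δ E i A x)⁻¹ * da_cnt m q B (δ i * Matrix.of A) (x ᵥ* E i) A' y
      ≤ ∑ i, T⁻¹ * da_cnt m q B (δ i * Matrix.of A) (x ᵥ* E i) A' y := by
        apply Finset.sum_le_sum
        intro i _
        by_cases h0 : da_cnt m q B (δ i * Matrix.of A) (x ᵥ* E i) A' y = 0
        · rw [h0, mul_zero, mul_zero]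
        · exact mul_le_mul_left (ENNReal.inv_le_inv.2 (key i h0)) _
    _ = T⁻¹ * T := by rw [← Finset.mul_sum, ← hT]
    _ ≤ 1 := ENNReal.inv_mul_le_one T

open Classical in
theorem blX_pr (m : ℕ) (B : Set (Mt (m + 1))) (hB : IsCompact B)
    (hB0 : ∀ h ∈ B, 0 < (Matrix.of h).det) : ∃ (C : ℝ≥0∞) (R : ℝ), C ≠ ⊤ ∧ 1 ≤ R ∧ ∀ (q : ℕ)
    [NeZero q] (F : Mt (m + 1) → (Fin (m + 1) → ZMod q) → ℝ≥0∞), XInv m q F → ∀ (ι : Type)
      [Fintype ι] (δ : ι → Matrix (Fin (m + 1)) (Fin (m + 1)) ℝ), (∀ i, (δ i).det = 1) →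
      ∀ (E : ι → Matrix (Fin (m + 1)) (Fin (m + 1)) (ZMod q)), ∀ A ∈ Xp (m + 1), ∀ x,
        ∑ i, (multX m q R δ E i A x)⁻¹ * ∫⁻ h in B, F (rm (lm (δ i) A) h) (x ᵥ* E i) ≤
          C * IX m q F := by
  obtain ⟨b1, b2, R, hb1, hR1, hb, hR⟩ := Pool.Agent.GLQ.d1_bound B hB hB0
  obtain ⟨C, hC, hslab⟩ := Pool.Agent.GLQ.slab_le m b1 (2 * b2) hb1
  refine ⟨C, R, hC, hR1, ?_⟩
  intro q _ F hF ι _ δ hδ E A hA x
  have hA1 : 1 ≤ (Matrix.of A).det := hA.1
  have hA2 : (Matrix.of A).det ≤ 2 := hA.2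
  have hA0 : 0 < (Matrix.of A).det := by linarith
  have hGd : ∀ i, (δ i * Matrix.of A).det = (Matrix.of A).det := by
    intro i
    rw [Matrix.det_mul, hδ i, one_mul]
  have hGu : ∀ i, IsUnit (δ i * Matrix.of A).det := by
    intro i
    rw [hGd i]
    exact isUnit_iff_ne_zero.2 hA0.ne'
  have hBm : MeasurableSet B := hB.isClosed.measurableSet
  have hpre : ∀ i, MeasurableSet (lm (δ i * Matrix.of A)⁻¹ ⁻¹' B) := fun i =>
    (Pool.Agent.GLQ.d1_cont_lm _).measurable hBm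
  have hgm : ∀ i, Measurable ((lm (δ i * Matrix.of A)⁻¹ ⁻¹' B).indicator
      (fun A' => F A' (x ᵥ* E i))) := fun i => (hF.meas _).indicator (hpre i)
  have hcm : ∀ i y, Measurable fun A' => da_cnt m q B (δ i * Matrix.of A) (x ᵥ* E i) A' y := by
    intro i y
    unfold da_cnt
    apply Measurable.tsum
    intro γ
    have h0 : MeasurableSet {A' : Mt (m + 1) |
        lm (δ i * Matrix.of A)⁻¹ (lm (re γ.1) A') ∈ B} :=
      ((Pool.Agent.GLQ.d1_cont_lm _).comp (Pool.Agent.GLQ.d1_cont_lm _)).measurable hBm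
    exact Measurable.ite (h0.inter (MeasurableSet.const ((x ᵥ* E i) ᵥ* md q γ.1 = y)))
      measurable_const measurable_const
  have step1 : ∀ i, ∫⁻ h in B, F (rm (lm (δ i) A) h) (x ᵥ* E i) ≤
      ∫⁻ A', (lm (δ i * Matrix.of A)⁻¹ ⁻¹' B).indicator (fun A' => F A' (x ᵥ* E i)) A' := by
    intro i
    have h1 : ∫⁻ h in B, F (rm (lm (δ i) A) h) (x ᵥ* E i) =
        ∫⁻ h, (lm (δ i * Matrix.of A)⁻¹ ⁻¹' B).indicator (fun A' => F A' (x ᵥ* E i))
          (lm (δ i * Matrix.of A) h) := by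
      rw [← lintegral_indicator hBm]
      apply lintegral_congr
      intro h
      have h2 : lm (δ i * Matrix.of A)⁻¹ (lm (δ i * Matrix.of A) h) = h := by
        rw [Pool.Agent.RS.lm_lm, Matrix.nonsing_inv_mul _ (hGu i), Pool.Agent.RS.lm_one]
      by_cases h3 : h ∈ B
      · rw [Set.indicator_of_mem h3, Set.indicator_of_mem]
        · rfl
        · show lm (δ i * Matrix.of A)⁻¹ (lm (δ i * Matrix.of A) h) ∈ B
          rw [h2]
          exact h3
      · rw [Set.indicator_of_notMem h3, Set.indicator_of_notMem]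
        show ¬ lm (δ i * Matrix.of A)⁻¹ (lm (δ i * Matrix.of A) h) ∈ B
        rw [h2]
        exact h3
    rw [h1]
    exact Pool.Agent.GLQ.d1_scale _ (by rw [hGd i]; exact hA1) _ (hgm i)
  have hslm : MeasurableSet (slab (m + 1) b1 (2 * b2)) := by
    have h1 := Pool.Agent.RS.measurable_det (m + 1)
    exact (measurableSet_le measurable_const h1).inter (measurableSet_le h1 measurable_const)
  have hsub : ∀ i, lm (δ i * Matrix.of A)⁻¹ ⁻¹' B ⊆ slab (m + 1) b1 (2 * b2) := by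
    intro i A' hA'
    have h1 : lm (δ i * Matrix.of A)⁻¹ A' ∈ B := hA'
    have h2 : (Matrix.of A' : Matrix (Fin (m + 1)) (Fin (m + 1)) ℝ) = (δ i * Matrix.of A) *
        Matrix.of (lm (δ i * Matrix.of A)⁻¹ A') := by
      rw [Pool.Agent.RS.lm_eq, ← Matrix.mul_assoc, Matrix.mul_nonsing_inv _ (hGu i),
        Matrix.one_mul]
    have h3 : (Matrix.of A').det = (Matrix.of A).det *
        (Matrix.of (lm (δ i * Matrix.of A)⁻¹ A')).det := by
      rw [h2, Matrix.det_mul, hGd i]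
    obtain ⟨h4, h5⟩ := hb _ h1
    have h6 := hB0 _ h1
    show b1 ≤ (Matrix.of A').det ∧ (Matrix.of A').det ≤ 2 * b2
    rw [h3]
    constructor
    · nlinarith
    · nlinarith
  have step2 : ∀ i, ∫⁻ A', (lm (δ i * Matrix.of A)⁻¹ ⁻¹' B).indicator
        (fun A' => F A' (x ᵥ* E i)) A' =
      ∫⁻ A' in slab (m + 1) b1 (2 * b2), wN m 1 A' * ∑ y, F A' y *
        da_cnt m q B (δ i * Matrix.of A) (x ᵥ* E i) A' y := by
    intro i
    have h1 : ∫⁻ A', (lm (δ i * Matrix.of A)⁻¹ ⁻¹' B).indicator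
          (fun A' => F A' (x ᵥ* E i)) A' =
        ∫⁻ A' in slab (m + 1) b1 (2 * b2), (lm (δ i * Matrix.of A)⁻¹ ⁻¹' B).indicator
          (fun A' => F A' (x ᵥ* E i)) A' := by
      rw [← lintegral_indicator hslm, Set.indicator_indicator,
        Set.inter_eq_self_of_subset_right (hsub i)]
    rw [h1, ← unfold1 m b1 (2 * b2) hb1 _ (hgm i)]
    apply lintegral_congr
    intro A'
    congr 1
    have h2 : ∀ y, F A' y * da_cnt m q B (δ i * Matrix.of A) (x ᵥ* E i) A' y =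
        ∑' γ : SLZ (m + 1), F A' y * (if lm (δ i * Matrix.of A)⁻¹ (lm (re γ.1) A') ∈ B ∧
          (x ᵥ* E i) ᵥ* md q γ.1 = y then 1 else 0) := by
      intro y
      unfold da_cnt
      rw [← ENNReal.tsum_mul_left]
    simp only [h2]
    rw [← Summable.tsum_finsetSum (fun y _ => ENNReal.summable)]
    apply tsum_congr
    intro γ
    by_cases h2 : lm (δ i * Matrix.of A)⁻¹ (lm (re γ.1) A') ∈ B
    · have h3 : lm (re γ.1) A' ∈ lm (δ i * Matrix.of A)⁻¹ ⁻¹' B := h2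
      rw [Set.indicator_of_mem h3, hF.inv γ]
      simp [h2]
    · have h3 : lm (re γ.1) A' ∉ lm (δ i * Matrix.of A)⁻¹ ⁻¹' B := h2
      rw [Set.indicator_of_notMem h3]
      simp [h2]
  have hwm : Measurable (wN m 1) := Pool.Agent.GLQ.wN_meas m 1
  have hsm : ∀ i, Measurable fun A' => wN m 1 A' * ∑ y, F A' y *
      da_cnt m q B (δ i * Matrix.of A) (x ᵥ* E i) A' y := by
    intro i
    exact hwm.mul (Finset.measurable_sum _ fun y _ => (hF.meas y).mul (hcm i y))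
  calc ∑ i, (multX m q R δ E i A x)⁻¹ * ∫⁻ h in B, F (rm (lm (δ i) A) h) (x ᵥ* E i)
      ≤ ∑ i, (multX m q R δ E i A x)⁻¹ * ∫⁻ A' in slab (m + 1) b1 (2 * b2), wN m 1 A' *
        ∑ y, F A' y * da_cnt m q B (δ i * Matrix.of A) (x ᵥ* E i) A' y := by
        apply Finset.sum_le_sum
        intro i _
        rw [← step2 i]
        exact mul_le_mul_right (step1 i) _
    _ = ∑ i, ∫⁻ A' in slab (m + 1) b1 (2 * b2), (multX m q R δ E i A x)⁻¹ * (wN m 1 A' *
        ∑ y, F A' y * da_cnt m q B (δ i * Matrix.of A) (x ᵥ* E i) A' y) := by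
        apply Finset.sum_congr rfl
        intro i _
        exact (lintegral_const_mul _ (hsm i)).symm
    _ = ∫⁻ A' in slab (m + 1) b1 (2 * b2), ∑ i, (multX m q R δ E i A x)⁻¹ * (wN m 1 A' *
        ∑ y, F A' y * da_cnt m q B (δ i * Matrix.of A) (x ᵥ* E i) A' y) := by
        rw [lintegral_finsetSum]
        intro i _
        exact measurable_const.mul (hsm i)
    _ ≤ ∫⁻ A' in slab (m + 1) b1 (2 * b2), wN m 1 A' * ∑ y, F A' y := by
        apply lintegral_mono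
        intro A'
        calc ∑ i, (multX m q R δ E i A x)⁻¹ * (wN m 1 A' *
              ∑ y, F A' y * da_cnt m q B (δ i * Matrix.of A) (x ᵥ* E i) A' y)
            = wN m 1 A' * ∑ y, F A' y * ∑ i, (multX m q R δ E i A x)⁻¹ *
              da_cnt m q B (δ i * Matrix.of A) (x ᵥ* E i) A' y := by
              simp only [Finset.mul_sum]
              rw [Finset.sum_comm]
              apply Finset.sum_congr rfl
              intro y _
              apply Finset.sum_congr rfl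
              intro i _
              ring
          _ ≤ wN m 1 A' * ∑ y, F A' y * 1 := by
              apply mul_le_mul_right
              apply Finset.sum_le_sum
              intro y _
              exact mul_le_mul_right (da_point m q B R hR ι δ hδ E A hA0 x A' y) _
          _ = wN m 1 A' * ∑ y, F A' y := by simp only [mul_one]
    _ ≤ C * IX m q F := hslab 1 (fun A => ∑ x, F A x) (x_isInv hF)

end

end Pool.Agent.SGB

namespace Pool.Agent.SGB

alias blX := blX_pr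

end Pool.Agent.SGB
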