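import Pool.Agent.Lib_helper56.SGB.Defs
import Pool.Agent.Lib_helper56.SGB.F.DB
import Pool.Agent.Lib_helper56.SGB.F.DC1

/-!
# SGB block DC2: linear combinations
-/

set_option autoImplicit false

namespace Pool.Agent.SGB

open MeasureTheory Matrix
open Pool.Agent.RS (Mt lm SLZ)
open Pool.Agent.GLQ (re unip cube slab Xp wN IN rm rr qq Lat latt Lz IsRed RY Om Box Kern IsInv Bd sp)
open Pool.Agent.SGN (md repR repL heckeT heckeA supS subS UW Wd lw nf WOk)
open scoped ENNReal

noncomputable section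

theorem pre_sum_pr {m q : ℕ} {β : Type} [Fintype β] (f : β → Fm m q) (h : ∀ b, Pre m q (f b))
    (c : β → ℂ) : Pre m q (fun g x => ∑ b, c b * f b g x) := by
  refine ⟨?_, ?_, ?_, ?_, ?_⟩
  · intro x
    exact continuousOn_finsetSum _ fun b _ => continuousOn_const.mul ((h b).cont x)
  · choose M hM using fun b => (h b).bdd
    refine ⟨∑ b, ‖c b‖ * M b, fun g x => ?_⟩
    refine (norm_sum_le _ _).trans (Finset.sum_le_sum fun b _ => ?_)
    rw [norm_mul]
    exact mul_le_mul_of_nonneg_left (hM b g x) (norm_nonneg _)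
  · intro t g x ht
    exact Finset.sum_congr rfl fun b _ => by rw [(h b).scal t g x ht]
  · intro γ g x
    exact Finset.sum_congr rfl fun b _ => by rw [(h b).inv γ g x]
  · intro g x hg
    exact Finset.sum_eq_zero fun b _ => by rw [(h b).out g x hg, mul_zero]

theorem dc2_bdd {m q : ℕ} {f : Fm m q} (h : Pre m q f) :
    ∃ M : ℝ, 0 ≤ M ∧ ∀ (g : Matrix (Fin (m + 1)) (Fin (m + 1)) ℝ) (x : Fin (m + 1) → ZMod q),
      ‖f g x‖ ≤ M := by
  obtain ⟨M, hM⟩ := h.bdd
  exact ⟨max M 0, le_max_right _ _, fun g x => (hM g x).trans (le_max_left _ _)⟩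

theorem dc2_int {m q : ℕ} [NeZero q] (hm : 1 ≤ m) {f f' : Fm m q} (h : Pre m q f)
    (h' : Pre m q f') :
    Integrable (fun A : Mt (m + 1) => ((wN m 1 A).toReal : ℂ) *
      ∑ x, f (Matrix.of A) x * (starRingEnd ℂ) (f' (Matrix.of A) x))
      (volume.restrict (Xp (m + 1))) := by
  obtain ⟨M, hM0, hM⟩ := dc2_bdd h
  obtain ⟨M', hM0', hM'⟩ := dc2_bdd h'
  refine Integrable.mul_bdd (c := ∑ _x : Fin (m + 1) → ZMod q, M * M')
    (Pool.Agent.GLQ.d3_int_w hm one_ne_zero) ?_ ?_
  · refine Measurable.aestronglyMeasurable ?_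
    exact Finset.measurable_sum _ fun x _ => (pre_meas h x).mul
      (Complex.continuous_conj.measurable.comp (pre_meas h' x))
  · refine Filter.Eventually.of_forall fun A => ?_
    refine (norm_sum_le _ _).trans (Finset.sum_le_sum fun x _ => ?_)
    rw [norm_mul]
    refine mul_le_mul (hM _ _) ?_ (norm_nonneg _) hM0
    rw [RCLike.norm_conj]
    exact hM' _ _

theorem dc2_ip_sum {m q : ℕ} [NeZero q] (hm : 1 ≤ m) {β : Type} [Fintype β] (f : β → Fm m q)
    (h : ∀ b, Pre m q (f b)) (c : β → ℂ) :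
    ipX m q (fun g x => ∑ b, c b * f b g x) (fun g x => ∑ b, c b * f b g x) =
      ∑ b, ∑ b', c b * (starRingEnd ℂ) (c b') * ipX m q (f b) (f b') := by
  unfold ipX
  have h3 : ∀ A : Mt (m + 1), ((wN m 1 A).toReal : ℂ) *
      (∑ x : Fin (m + 1) → ZMod q, (∑ b, c b * f b (Matrix.of A) x) *
        (starRingEnd ℂ) (∑ b, c b * f b (Matrix.of A) x)) =
      ∑ b, ∑ b', c b * (starRingEnd ℂ) (c b') * (((wN m 1 A).toReal : ℂ) *
        ∑ x : Fin (m + 1) → ZMod q,
          f b (Matrix.of A) x * (starRingEnd ℂ) (f b' (Matrix.of A) x)) := by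
    intro A
    have h4 : ∀ x : Fin (m + 1) → ZMod q, (∑ b, c b * f b (Matrix.of A) x) *
        (starRingEnd ℂ) (∑ b, c b * f b (Matrix.of A) x) =
        ∑ b, ∑ b', c b * (starRingEnd ℂ) (c b') *
          (f b (Matrix.of A) x * (starRingEnd ℂ) (f b' (Matrix.of A) x)) := by
      intro x
      rw [map_sum, Finset.sum_mul_sum]
      refine Finset.sum_congr rfl fun b _ => Finset.sum_congr rfl fun b' _ => ?_
      rw [map_mul]
      ring
    rw [Finset.sum_congr rfl fun x _ => h4 x, Finset.sum_comm, Finset.mul_sum]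
    refine Finset.sum_congr rfl fun b _ => ?_
    rw [Finset.sum_comm, Finset.mul_sum]
    refine Finset.sum_congr rfl fun b' _ => ?_
    rw [← Finset.mul_sum]
    ring
  simp_rw [h3]
  rw [integral_finsetSum _ fun b _ => integrable_finsetSum _ fun b' _ =>
    (dc2_int hm (h b) (h b')).const_mul _]
  refine Finset.sum_congr rfl fun b _ => ?_
  rw [integral_finsetSum _ fun b' _ => (dc2_int hm (h b) (h b')).const_mul _]
  refine Finset.sum_congr rfl fun b' _ => ?_
  rw [integral_const_mul]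

theorem norm_sumX_pr {m q : ℕ} [NeZero q] (hm : 1 ≤ m) {β : Type} [Fintype β] (f : β → Fm m q)
    (h : ∀ b, Pre m q (f b)) (ho : ∀ b b', b ≠ b' → ipX m q (f b) (f b') = 0) (c : β → ℂ) :
    IX m q (nsX (fun g x => ∑ b, c b * f b g x)) =
      ∑ b, ENNReal.ofReal (‖c b‖ ^ 2) * IX m q (nsX (f b)) := by
  have hs := pre_sum_pr f h c
  have h1 := ip_selfX hm hs
  have h2 := dc2_ip_sum hm f h c
  have h4 : ∑ b, ∑ b', c b * (starRingEnd ℂ) (c b') * ipX m q (f b) (f b') =
      ∑ b, ((‖c b‖ ^ 2 * (IX m q (nsX (f b))).toReal : ℝ) : ℂ) := by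
    classical
    refine Finset.sum_congr rfl fun b _ => ?_
    rw [Finset.sum_eq_single b]
    · rw [ip_selfX hm (h b), Complex.mul_conj, Complex.normSq_eq_norm_sq]
      push_cast
      ring
    · intro b' _ hb
      rw [ho b b' (Ne.symm hb), mul_zero]
    · intro hb; exact absurd (Finset.mem_univ b) hb
  rw [h1] at h2
  rw [h4, ← Complex.ofReal_sum] at h2
  have h5 := Complex.ofReal_injective h2
  have h6 : IX m q (nsX (fun g x => ∑ b, c b * f b g x)) ≠ ⊤ := norm_ne_topX hm hs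
  rw [← ENNReal.ofReal_toReal h6, h5, ENNReal.ofReal_sum_of_nonneg
    fun b _ => mul_nonneg (by positivity) ENNReal.toReal_nonneg]
  refine Finset.sum_congr rfl fun b _ => ?_
  rw [ENNReal.ofReal_mul (by positivity), ENNReal.ofReal_toReal (norm_ne_topX hm (h b))]

end

end Pool.Agent.SGB

namespace Pool.Agent.SGB

alias pre_sum := pre_sum_pr
alias norm_sumX := norm_sumX_pr

end Pool.Agent.SGB
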