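import Pool.Agent.Lib_helper56.SGB.Defs
import Pool.Agent.Lib_helper56.SGB.F.DA
import Pool.Agent.Lib_helper56.SGB.F.DB
import Pool.Agent.Lib_helper56.SGB.F.DC1
import Pool.Agent.Lib_helper56.SGB.F.DC2

/-!
# Project SGN, part B, block DD
-/

set_option autoImplicit false

namespace Pool.Agent.SGB

open MeasureTheory Matrix
open Pool.Agent.RS (Mt lm SLZ)
open Pool.Agent.GLQ (re unip cube slab Xp wN IN rm rr qq Lat latt Lz IsRed RY Om Box Kern IsInv Bd sp)
open Pool.Agent.SGN (md repR repL heckeT heckeA supS subS UW Wd lw nf WOk)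
open scoped ENNReal

noncomputable section

theorem dd_finite {m : ℕ} (R : ℝ) (P Q : Matrix (Fin (m + 1)) (Fin (m + 1)) ℝ)
    (hP : P.det ≠ 0) (hQ : Q.det ≠ 0) :
    {γ : SLZ (m + 1) | ∀ a b, |(P⁻¹ * (re γ.1 * Q)) a b| ≤ R}.Finite := by
  set SP : ℝ := ∑ a, ∑ c, |P a c| with hSP
  set SQ : ℝ := ∑ d, ∑ b, |Q⁻¹ d b| with hSQ
  obtain ⟨M, hM⟩ := exists_nat_ge (SP * R * SQ)
  have hinj : Function.Injective fun γ : SLZ (m + 1) =>
      (γ.1 : Fin (m + 1) → Fin (m + 1) → ℤ) := by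
    intro γ γ' h
    exact Subtype.ext h
  refine Set.Finite.subset (Set.Finite.preimage hinj.injOn
    (Set.finite_Icc (fun _ _ => -(M : ℤ)) (fun _ _ => (M : ℤ)))) ?_
  intro γ hγ
  have hγ' : ∀ a b, |(P⁻¹ * (re γ.1 * Q)) a b| ≤ R := hγ
  have hR : 0 ≤ R := (abs_nonneg _).trans (hγ' 0 0)
  have hkey : ∀ a b, |((γ.1 a b : ℤ) : ℝ)| ≤ (M : ℝ) := by
    intro a b
    have h1 : (re γ.1 : Matrix (Fin (m + 1)) (Fin (m + 1)) ℝ) =
        P * (P⁻¹ * (re γ.1 * Q)) * Q⁻¹ := by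
      rw [← Matrix.mul_assoc P, Matrix.mul_nonsing_inv _ (isUnit_iff_ne_zero.2 hP),
        Matrix.one_mul, Matrix.mul_assoc, Matrix.mul_nonsing_inv _ (isUnit_iff_ne_zero.2 hQ),
        Matrix.mul_one]
    set Z := P⁻¹ * (re γ.1 * Q) with hZ
    have h2 : ((γ.1 a b : ℤ) : ℝ) = (P * Z * Q⁻¹) a b := by
      rw [← h1]
      rfl
    rw [h2, Matrix.mul_apply]
    calc |∑ d, (P * Z) a d * Q⁻¹ d b| ≤ ∑ d, |(P * Z) a d * Q⁻¹ d b| :=
          Finset.abs_sum_le_sum_abs _ _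
      _ ≤ ∑ d, (SP * R) * |Q⁻¹ d b| := by
          refine Finset.sum_le_sum fun d _ => ?_
          rw [abs_mul]
          refine mul_le_mul_of_nonneg_right ?_ (abs_nonneg _)
          rw [Matrix.mul_apply]
          calc |∑ c, P a c * Z c d| ≤ ∑ c, |P a c * Z c d| := Finset.abs_sum_le_sum_abs _ _
            _ ≤ ∑ c, |P a c| * R := by
                refine Finset.sum_le_sum fun c _ => ?_
                rw [abs_mul]
                exact mul_le_mul_of_nonneg_left (hγ' c d) (abs_nonneg _)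
            _ = (∑ c, |P a c|) * R := by rw [Finset.sum_mul]
            _ ≤ SP * R := by
                refine mul_le_mul_of_nonneg_right ?_ hR
                exact Finset.single_le_sum (f := fun a => ∑ c, |P a c|)
                  (fun a _ => Finset.sum_nonneg fun c _ => abs_nonneg _) (Finset.mem_univ a)
      _ = SP * R * ∑ d, |Q⁻¹ d b| := by rw [Finset.mul_sum]
      _ ≤ SP * R * SQ := by
          refine mul_le_mul_of_nonneg_left ?_ (mul_nonneg ?_ hR)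
          · refine Finset.sum_le_sum fun d _ => ?_
            exact Finset.single_le_sum (f := fun b => |Q⁻¹ d b|)
              (fun b _ => abs_nonneg _) (Finset.mem_univ b)
          · exact Finset.sum_nonneg fun a _ => Finset.sum_nonneg fun c _ => abs_nonneg _
      _ ≤ M := hM
  refine ⟨fun a b => ?_, fun a b => ?_⟩
  · have h := (abs_le.1 (hkey a b)).1
    exact_mod_cast h
  · have h := (abs_le.1 (hkey a b)).2
    exact_mod_cast h

theorem dd_mult_ne_top {m q : ℕ} (R : ℝ) {ι : Type} [Fintype ι]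
    (δ : ι → Matrix (Fin (m + 1)) (Fin (m + 1)) ℝ)
    (E : ι → Matrix (Fin (m + 1)) (Fin (m + 1)) (ZMod q)) (i : ι) (A : Mt (m + 1))
    (x : Fin (m + 1) → ZMod q)
    (hδ : ∀ i, (δ i * Matrix.of A).det ≠ 0) : multX m q R δ E i A x ≠ ⊤ := by
  classical
  unfold multX
  refine (ENNReal.sum_lt_top.2 fun i' _ => ?_).ne
  have hf := dd_finite R (δ i' * Matrix.of A) (δ i * Matrix.of A) (hδ i') (hδ i)
  rw [tsum_eq_sum (s := hf.toFinset)]
  · refine ENNReal.sum_lt_top.2 fun γ _ => ?_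
    split_ifs
    · exact ENNReal.one_lt_top
    · exact ENNReal.zero_lt_top
  · intro γ hγ
    rw [if_neg]
    intro h
    exact hγ (hf.mem_toFinset.2 h.1)

theorem dd_md_one {n q : ℕ} : md q (1 : Matrix (Fin n) (Fin n) ℤ) = 1 := by
  unfold md
  exact Matrix.map_one _ (by simp) (by simp)

theorem dd_mult_ne_zero {m q : ℕ} (R : ℝ) (hR : 1 ≤ R) {ι : Type} [Fintype ι]
    (δ : ι → Matrix (Fin (m + 1)) (Fin (m + 1)) ℝ)
    (E : ι → Matrix (Fin (m + 1)) (Fin (m + 1)) (ZMod q)) (i : ι) (A : Mt (m + 1))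
    (x : Fin (m + 1) → ZMod q)
    (hδ : (δ i * Matrix.of A).det ≠ 0) : multX m q R δ E i A x ≠ 0 := by
  classical
  intro h0
  unfold multX at h0
  have h1 := (Finset.sum_eq_zero_iff.1 h0) i (Finset.mem_univ i)
  have h2 := (ENNReal.tsum_eq_zero.1 h1) 1
  have h3 : ∀ a b, |((δ i * Matrix.of A)⁻¹ * (re (1 : SLZ (m + 1)).1 *
      (δ i * Matrix.of A))) a b| ≤ R := by
    intro a b
    have h4 : (re (1 : SLZ (m + 1)).1 : Matrix (Fin (m + 1)) (Fin (m + 1)) ℝ) = 1 :=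
      Pool.Agent.RS.toR_one
    rw [h4, Matrix.one_mul, Matrix.nonsing_inv_mul _ (isUnit_iff_ne_zero.2 hδ)]
    by_cases hab : a = b
    · rw [hab, Matrix.one_apply_eq, abs_one]
      exact hR
    · rw [Matrix.one_apply_ne hab, abs_zero]
      linarith
  have h5 : (x ᵥ* E i) ᵥ* md q (1 : SLZ (m + 1)).1 = x ᵥ* E i := by
    have h6 : md q (1 : SLZ (m + 1)).1 = 1 := dd_md_one
    rw [h6, Matrix.vecMul_one]
  rw [if_pos ⟨h3, h5⟩] at h2
  exact one_ne_zero h2

/-- the convolution with the kernel -/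
def ddK {m q : ℕ} (k0 : Mt (m + 1) → ℂ) (f : Fm m q)
    (g : Matrix (Fin (m + 1)) (Fin (m + 1)) ℝ) (x : Fin (m + 1) → ZMod q) : ℂ :=
  ∫ h : Mt (m + 1), k0 h * f (g * Matrix.of h) x

theorem dd_one (m : ℕ) (k : Mt (m + 1) → ℂ) (hk : Kern m k) :
    ∃ C R : ℝ, 0 ≤ C ∧ 1 ≤ R ∧ ∀ (q : ℕ) [NeZero q] (f : Fm m q), Pre m q f →
      ∀ (ι : Type) [Fintype ι]
      (δ : ι → Matrix (Fin (m + 1)) (Fin (m + 1)) ℝ), (∀ i, (δ i).det = 1) →
      ∀ (E : ι → Matrix (Fin (m + 1)) (Fin (m + 1)) (ZMod q)) (u : ι → ℂ),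
      ∀ A ∈ Xp (m + 1), ∀ x : Fin (m + 1) → ZMod q,
        ENNReal.ofReal (‖∑ i, u i * ddK k f (δ i * Matrix.of A) (x ᵥ* E i)‖ ^ 2) ≤
        ENNReal.ofReal C * (∑ i, ENNReal.ofReal (‖u i‖ ^ 2) * multX m q R δ E i A x) *
          IX m q (nsX f) := by
  obtain ⟨C0, R, hC0, hR, hbl⟩ := blX m (tsupport k) hk.cpt.isCompact (fun h hh => hk.pos hh)
  have hkc : Continuous k := by
    obtain ⟨L, hL⟩ := hk.lip
    exact hL.continuous
  set κ : ℝ≥0∞ := ∫⁻ h in tsupport k, ‖k h‖ₑ ^ 2 with hκ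
  have hκt : κ ≠ ⊤ := by
    have h1 := setLIntegral_lt_top_of_isCompact (μ := (volume : Measure (Mt (m + 1))))
      (s := tsupport k) hk.cpt.isCompact.measure_lt_top.ne hk.cpt.isCompact
      (f := fun h => ‖k h‖₊ ^ 2) (hkc.nnnorm.pow 2)
    refine ne_of_lt (lt_of_eq_of_lt ?_ h1)
    rw [hκ]
    refine lintegral_congr fun h => ?_
    rw [ENNReal.coe_pow]
    rfl
  refine ⟨(κ * C0).toReal, R, ENNReal.toReal_nonneg, hR, ?_⟩
  intro q _ f hf ι _ δ hδ E u A hA x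
  rw [ENNReal.ofReal_toReal (ENNReal.mul_ne_top hκt hC0)]
  have hdA : 0 < (Matrix.of A).det := lt_of_lt_of_le one_pos hA.1
  have hdet : ∀ i, 0 < (δ i * Matrix.of A).det := fun i => by
    rw [Matrix.det_mul, hδ i, one_mul]
    exact hdA
  set w : ι → ℝ≥0∞ := fun i => multX m q R δ E i A x with hw
  have hw0 : ∀ i, w i ≠ 0 := fun i => dd_mult_ne_zero R hR δ E i A x (hdet i).ne'
  have hwt : ∀ i, w i ≠ ⊤ := fun i => dd_mult_ne_top R δ E i A x fun i => (hdet i).ne'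
  -- the values at `δ i A`
  have hval : ∀ i, ‖ddK k f (δ i * Matrix.of A) (x ᵥ* E i)‖ₑ ^ 2 ≤
      κ * ∫⁻ h in tsupport k, nsX f (rm (lm (δ i) A) h) (x ᵥ* E i) := by
    intro i
    have hmeas : Measurable fun h : Mt (m + 1) =>
        f (δ i * Matrix.of A * Matrix.of h) (x ᵥ* E i) := by
      have h2 : Measurable fun h : Mt (m + 1) => rm (lm (δ i) A) h := by
        have h3 : Continuous fun h : Mt (m + 1) => rm (lm (δ i) A) h := by
          unfold rm
          exact Continuous.matrix_mul continuous_const continuous_id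
        exact h3.measurable
      exact (pre_meas hf (x ᵥ* E i)).comp h2
    have h4 : ‖ddK k f (δ i * Matrix.of A) (x ᵥ* E i)‖ₑ ≤
        ∫⁻ h in tsupport k, ‖k h‖ₑ * ‖f (δ i * Matrix.of A * Matrix.of h) (x ᵥ* E i)‖ₑ := by
      unfold ddK
      refine (enorm_integral_le_lintegral_enorm _).trans ?_
      rw [← lintegral_indicator (isClosed_tsupport k).measurableSet]
      refine lintegral_mono fun h => ?_
      by_cases hh : h ∈ tsupport k
      · rw [Set.indicator_of_mem hh, enorm_mul]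
      · rw [Set.indicator_of_notMem hh, image_eq_zero_of_notMem_tsupport hh, zero_mul, enorm_zero]
    calc ‖ddK k f (δ i * Matrix.of A) (x ᵥ* E i)‖ₑ ^ 2
        ≤ (∫⁻ h in tsupport k, ‖k h‖ₑ *
            ‖f (δ i * Matrix.of A * Matrix.of h) (x ᵥ* E i)‖ₑ) ^ 2 := by
          gcongr
      _ ≤ (∫⁻ h in tsupport k, ‖k h‖ₑ ^ 2) *
          ∫⁻ h in tsupport k, ‖f (δ i * Matrix.of A * Matrix.of h) (x ᵥ* E i)‖ₑ ^ 2 :=
          Pool.Agent.GLQ.d2_cs _ hkc.measurable.enorm.aemeasurable hmeas.enorm.aemeasurable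
      _ = κ * ∫⁻ h in tsupport k, nsX f (rm (lm (δ i) A) h) (x ᵥ* E i) := by
          congr 1
          refine lintegral_congr fun h => ?_
          unfold nsX
          rw [Pool.Agent.GLQ.d2_ofReal_sq]
          rfl
  have hB := hbl q (nsX f) (pre_xinv hf) ι δ hδ E A hA x
  calc ENNReal.ofReal (‖∑ i, u i * ddK k f (δ i * Matrix.of A) (x ᵥ* E i)‖ ^ 2)
      = ‖∑ i, u i * ddK k f (δ i * Matrix.of A) (x ᵥ* E i)‖ₑ ^ 2 :=
        Pool.Agent.GLQ.d2_ofReal_sq _
    _ ≤ (∑ i, ‖u i‖ₑ * ‖ddK k f (δ i * Matrix.of A) (x ᵥ* E i)‖ₑ) ^ 2 := by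
        gcongr
        refine (enorm_sum_le _ _).trans (le_of_eq ?_)
        exact Finset.sum_congr rfl fun i _ => enorm_mul _ _
    _ ≤ (∑ i, ‖u i‖ₑ ^ 2 * w i) *
          ∑ i, (w i)⁻¹ * ‖ddK k f (δ i * Matrix.of A) (x ᵥ* E i)‖ₑ ^ 2 :=
        Pool.Agent.GLQ.d2_cs_sum _ _ w hw0 hwt
    _ ≤ (∑ i, ‖u i‖ₑ ^ 2 * w i) * (κ * (C0 * IX m q (nsX f))) := by
        gcongr
        calc ∑ i, (w i)⁻¹ * ‖ddK k f (δ i * Matrix.of A) (x ᵥ* E i)‖ₑ ^ 2
            ≤ ∑ i, κ * ((w i)⁻¹ *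
                ∫⁻ h in tsupport k, nsX f (rm (lm (δ i) A) h) (x ᵥ* E i)) := by
              refine Finset.sum_le_sum fun i _ => ?_
              calc (w i)⁻¹ * ‖ddK k f (δ i * Matrix.of A) (x ᵥ* E i)‖ₑ ^ 2
                  ≤ (w i)⁻¹ * (κ *
                      ∫⁻ h in tsupport k, nsX f (rm (lm (δ i) A) h) (x ᵥ* E i)) := by
                    gcongr
                    exact hval i
                _ = _ := by ring
          _ = κ * ∑ i, (w i)⁻¹ *
                ∫⁻ h in tsupport k, nsX f (rm (lm (δ i) A) h) (x ᵥ* E i) := by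
              rw [Finset.mul_sum]
          _ ≤ κ * (C0 * IX m q (nsX f)) := by gcongr
    _ = κ * C0 * (∑ i, ENNReal.ofReal (‖u i‖ ^ 2) * multX m q R δ E i A x) *
          IX m q (nsX f) := by
        have h5 : ∑ i, ENNReal.ofReal (‖u i‖ ^ 2) * multX m q R δ E i A x =
            ∑ i, ‖u i‖ₑ ^ 2 * w i := by
          refine Finset.sum_congr rfl fun i _ => ?_
          rw [Pool.Agent.GLQ.d2_ofReal_sq]
        rw [h5]
        ring

theorem dd_zero {m q : ℕ} [NeZero q] {f : Fm m q} (h : ∀ g x, f g x = 0) :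
    IX m q (nsX f) = 0 := by
  have h1 : (fun A : Mt (m + 1) => ∑ x, nsX f A x) = fun _ => 0 := by
    funext A
    refine Finset.sum_eq_zero fun x _ => ?_
    unfold nsX
    rw [h]
    simp
  unfold IX
  rw [h1]
  unfold IN
  simp

theorem besselX_pr (m : ℕ) (hm : 1 ≤ m) (k0 : Mt (m + 1) → ℂ) (hk : Kern m k0) :
    ∃ C R : ℝ, 0 ≤ C ∧ 1 ≤ R ∧ ∀ (q : ℕ) [NeZero q] (β : Type) [Fintype β] (f : β → Fm m q),
      (∀ b, Frm m q k0 (f b)) → (∀ b b', b ≠ b' → ipX m q (f b) (f b') = 0) →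
      (∀ b, IX m q (nsX (f b)) ≠ 0) → ∀ (ι : Type) [Fintype ι]
      (δ : ι → Matrix (Fin (m + 1)) (Fin (m + 1)) ℝ), (∀ i, (δ i).det = 1) →
      ∀ (E : ι → Matrix (Fin (m + 1)) (Fin (m + 1)) (ZMod q)) (u : ι → ℂ),
      ∀ A ∈ Xp (m + 1), ∀ x : Fin (m + 1) → ZMod q,
        ∑ b, ENNReal.ofReal (‖∑ i, u i * f b (δ i * Matrix.of A) (x ᵥ* E i)‖ ^ 2) /
            IX m q (nsX (f b)) ≤
          ENNReal.ofReal C * ∑ i, ENNReal.ofReal (‖u i‖ ^ 2) * multX m q R δ E i A x := by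
  obtain ⟨C, R, hC, hR, h⟩ := dd_one m k0 hk
  refine ⟨4 * C, R, by positivity, hR, fun q _ β _ f hf ho hn0 ι _ δ hδ E u A hA x => ?_⟩
  have hdA : 0 < (Matrix.of A).det := lt_of_lt_of_le one_pos hA.1
  have hdet : ∀ i, 0 < (δ i * Matrix.of A).det := fun i => by
    rw [Matrix.det_mul, hδ i, one_mul]
    exact hdA
  have hp : ∀ b, Pre m q (f b) := fun b => (hf b).toPre
  have hnt : ∀ b, IX m q (nsX (f b)) ≠ ⊤ := fun b => norm_ne_topX hm (hp b)
  choose c hc2 hc using fun b => (hf b).repr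
  have hc0 : ∀ b, c b ≠ 0 := by
    intro b hb
    refine hn0 b (dd_zero fun g y => ?_)
    by_cases hg : 0 < g.det
    · rw [hc b g y hg, hb, zero_mul]
    · exact (hp b).out g y hg
  obtain ⟨n, hn⟩ : ∃ n : β → ℝ, ∀ b, n b = (IX m q (nsX (f b))).toReal := ⟨_, fun _ => rfl⟩
  have hnp : ∀ b, 0 < n b := fun b => by
    rw [hn b]; exact ENNReal.toReal_pos (hn0 b) (hnt b)
  have hnI : ∀ b, IX m q (nsX (f b)) = ENNReal.ofReal (n b) := fun b => by
    rw [hn b]; exact (ENNReal.ofReal_toReal (hnt b)).symm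
  obtain ⟨S, hS⟩ : ∃ S : β → ℂ, ∀ b, S b = ∑ i, u i * f b (δ i * Matrix.of A) (x ᵥ* E i) :=
    ⟨_, fun _ => rfl⟩
  obtain ⟨a, ha⟩ : ∃ a : β → ℂ, ∀ b, a b = (starRingEnd ℂ) (S b / c b) / (n b : ℂ) :=
    ⟨_, fun _ => rfl⟩
  obtain ⟨Q, hQ⟩ : ∃ Q : ℝ, Q = ∑ b, ‖S b / c b‖ ^ 2 / n b := ⟨_, rfl⟩
  have hQ0 : 0 ≤ Q := by
    rw [hQ]
    exact Finset.sum_nonneg fun b _ => div_nonneg (sq_nonneg _) (hnp b).le
  have h1 := h q _ (pre_sum f hp a) ι δ hδ E u A hA x
  -- the convolution of the combination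
  have hint : ∀ b (i : ι), Integrable fun h : Mt (m + 1) =>
      k0 h * f b (δ i * Matrix.of A * Matrix.of h) (x ᵥ* E i) := by
    intro b i
    have hkc : Continuous k0 := by
      obtain ⟨L, hL⟩ := hk.lip
      exact hL.continuous
    obtain ⟨M, hM⟩ := (hp b).bdd
    have hmeas : Measurable fun h : Mt (m + 1) =>
        f b (δ i * Matrix.of A * Matrix.of h) (x ᵥ* E i) := by
      have h2 : Measurable fun h : Mt (m + 1) => rm (lm (δ i) A) h := by
        have h3 : Continuous fun h : Mt (m + 1) => rm (lm (δ i) A) h := by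
          unfold rm
          exact Continuous.matrix_mul continuous_const continuous_id
        exact h3.measurable
      exact (pre_meas (hp b) (x ᵥ* E i)).comp h2
    exact (hkc.integrable_of_hasCompactSupport hk.cpt).mul_bdd hmeas.aestronglyMeasurable
      (Filter.Eventually.of_forall fun h => hM _ _)
  have hconv : ∀ i, ddK k0 (fun g x => ∑ b, a b * f b g x) (δ i * Matrix.of A) (x ᵥ* E i) =
      ∑ b, a b / c b * f b (δ i * Matrix.of A) (x ᵥ* E i) := by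
    intro i
    have h2 : ∀ b, f b (δ i * Matrix.of A) (x ᵥ* E i) =
        c b * ∫ h : Mt (m + 1), k0 h * f b (δ i * Matrix.of A * Matrix.of h) (x ᵥ* E i) :=
      fun b => hc b _ _ (hdet i)
    have h3 : (fun h : Mt (m + 1) => k0 h * ∑ b, a b *
        f b (δ i * Matrix.of A * Matrix.of h) (x ᵥ* E i)) =
        fun h => ∑ b, a b * (k0 h * f b (δ i * Matrix.of A * Matrix.of h) (x ᵥ* E i)) := by
      funext h
      rw [Finset.mul_sum]
      exact Finset.sum_congr rfl fun b _ => by ring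
    unfold ddK
    rw [h3, integral_finsetSum _ fun b _ => (hint b i).const_mul _]
    refine Finset.sum_congr rfl fun b _ => ?_
    rw [integral_const_mul, h2 b]
    have := hc0 b
    field_simp
  have h2 : ∑ i, u i * ddK k0 (fun g x => ∑ b, a b * f b g x) (δ i * Matrix.of A) (x ᵥ* E i) =
      (Q : ℂ) := by
    calc ∑ i, u i * ddK k0 (fun g x => ∑ b, a b * f b g x) (δ i * Matrix.of A) (x ᵥ* E i) =
        ∑ i, ∑ b, a b / c b * (u i * f b (δ i * Matrix.of A) (x ᵥ* E i)) := by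
          refine Finset.sum_congr rfl fun i _ => ?_
          rw [hconv i, Finset.mul_sum]
          exact Finset.sum_congr rfl fun b _ => by ring
      _ = ∑ b, a b / c b * S b := by
          rw [Finset.sum_comm]
          refine Finset.sum_congr rfl fun b _ => ?_
          rw [← Finset.mul_sum, hS b]
      _ = (Q : ℂ) := by
          rw [hQ]
          push_cast
          refine Finset.sum_congr rfl fun b _ => ?_
          rw [ha b, ← Complex.conj_mul']
          ring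
  have h3 : ∑ b, ENNReal.ofReal (‖a b‖ ^ 2) * IX m q (nsX (f b)) = ENNReal.ofReal Q := by
    rw [hQ, ENNReal.ofReal_sum_of_nonneg fun b _ => div_nonneg (sq_nonneg _) (hnp b).le]
    refine Finset.sum_congr rfl fun b _ => ?_
    rw [hnI b, ← ENNReal.ofReal_mul (sq_nonneg _)]
    congr 1
    rw [ha b, norm_div, RCLike.norm_conj, Complex.norm_real, Real.norm_of_nonneg (hnp b).le]
    have := (hnp b).ne'
    field_simp
  have h4 : ∑ b, ENNReal.ofReal (‖S b‖ ^ 2) / IX m q (nsX (f b)) ≤ ENNReal.ofReal (4 * Q) := by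
    rw [hQ, Finset.mul_sum, ENNReal.ofReal_sum_of_nonneg fun b _ =>
      mul_nonneg (by norm_num) (div_nonneg (sq_nonneg _) (hnp b).le)]
    refine Finset.sum_le_sum fun b _ => ?_
    rw [hnI b, ← ENNReal.ofReal_div_of_pos (hnp b)]
    refine ENNReal.ofReal_le_ofReal ?_
    rw [← mul_div_assoc]
    refine div_le_div_of_nonneg_right ?_ (hnp b).le
    have h5 : ‖S b‖ = ‖c b‖ * ‖S b / c b‖ := by
      rw [← norm_mul, mul_div_cancel₀ _ (hc0 b)]
    rw [h5, mul_pow]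
    refine mul_le_mul_of_nonneg_right ?_ (sq_nonneg _)
    have := hc2 b
    have h6 := norm_nonneg (c b)
    nlinarith
  rw [h2, norm_sumX hm f hp ho a, h3] at h1
  simp only [← hS]
  refine h4.trans ?_
  rw [ENNReal.ofReal_mul (by norm_num : (0:ℝ) ≤ 4), ENNReal.ofReal_mul (by norm_num : (0:ℝ) ≤ 4),
    mul_assoc]
  gcongr
  rcases hQ0.eq_or_lt with hQz | hQp
  · rw [← hQz, ENNReal.ofReal_zero]
    exact bot_le
  · have h5 : ENNReal.ofReal (‖(Q : ℂ)‖ ^ 2) = ENNReal.ofReal Q * ENNReal.ofReal Q := by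
      rw [← ENNReal.ofReal_mul hQ0, Complex.norm_real, Real.norm_of_nonneg hQ0, sq]
    rw [h5] at h1
    exact (ENNReal.mul_le_mul_iff_left (ENNReal.ofReal_pos.2 hQp).ne' ENNReal.ofReal_ne_top).1 h1

end

end Pool.Agent.SGB

namespace Pool.Agent.SGB

alias besselX := besselX_pr

end Pool.Agent.SGB
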