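import Pool.Agent.Lib_helper56.SGB.Defs

/-!
# SGN, part B, block HF1: reduction modulo `q` of rational matrices
-/

set_option autoImplicit false

namespace Pool.Agent.SGB

open MeasureTheory Matrix
open Pool.Agent.RS (Mt lm SLZ)
open Pool.Agent.GLQ (re unip cube slab Xp wN IN rm rr qq Lat latt Lz IsRed RY Om Box Kern IsInv Bd sp)
open Pool.Agent.SGN (md repR repL heckeT heckeA supS subS UW Wd lw nf WOk)
open scoped ENNReal

noncomputable section

theorem hf1_rq {q c : ℕ} (hc : c.Coprime q) (hc0 : c ≠ 0) {r : ℚ} {p : ℤ}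
    (h : (c : ℚ) * r = (p : ℚ)) : (c : ZMod q) * rq q r = (p : ZMod q) := by
  have hcq : (c : ℚ) ≠ 0 := by exact_mod_cast hc0
  have hr : r = Rat.divInt p (c : ℤ) := by
    rw [Rat.divInt_eq_div, ← h]
    push_cast
    field_simp
  have hden : (r.den : ℤ) ∣ (c : ℤ) := by
    conv_lhs => rw [hr]
    exact Rat.den_dvd p c
  have hden' : r.den ∣ c := by exact_mod_cast hden
  obtain ⟨e, he⟩ := hden'
  have hcop : r.den.Coprime q := Nat.Coprime.coprime_dvd_left ⟨e, he⟩ hc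
  have hp : p = r.num * e := by
    have h1 : (r.den : ℚ) * r = r.num := by
      rw [mul_comm]
      exact Rat.mul_den_eq_num r
    have h2 : (p : ℚ) = (r.num : ℚ) * e := by
      rw [← h, he, ← h1]
      push_cast
      ring
    exact_mod_cast h2
  have hu := ZMod.coe_mul_inv_eq_one r.den hcop
  unfold rq
  rw [he, hp]
  push_cast
  calc (r.den : ZMod q) * (e : ZMod q) * ((r.num : ZMod q) * (r.den : ZMod q)⁻¹)
      = (r.num : ZMod q) * e * ((r.den : ZMod q) * (r.den : ZMod q)⁻¹) := by ring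
    _ = (r.num : ZMod q) * e := by rw [hu, mul_one]

theorem rdq_eq_pr {n q : ℕ} {d : Matrix (Fin n) (Fin n) ℚ} {c : ℕ}
    {P : Matrix (Fin n) (Fin n) ℤ} (hc : c.Coprime q) (hc0 : c ≠ 0) (h : (c : ℚ) • d = qq P) :
    (c : ZMod q) • rdq q d = md q P := by
  ext i j
  have h1 : (c : ℚ) * d i j = (P i j : ℚ) := by
    have := congrFun (congrFun h i) j
    simpa [qq] using this
  exact hf1_rq hc hc0 h1

theorem hf1_qq_mul {n : ℕ} (S T : Matrix (Fin n) (Fin n) ℤ) : qq (S * T) = qq S * qq T := by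
  exact Matrix.map_mul (f := Int.castRingHom ℚ)

theorem hf1_md_mul {n : ℕ} (q : ℕ) (S T : Matrix (Fin n) (Fin n) ℤ) :
    md q (S * T) = md q S * md q T := by
  exact Matrix.map_mul (f := Int.castRingHom (ZMod q))

theorem QI_mul_pr {n q : ℕ} {d e : Matrix (Fin n) (Fin n) ℚ} (hd : QI q d) (he : QI q e) :
    QI q (d * e) := by
  obtain ⟨c, P, h1, h2, h3⟩ := hd
  obtain ⟨c', P', h1', h2', h3'⟩ := he
  refine ⟨c * c', P * P', Nat.Coprime.mul_left h1 h1', mul_ne_zero h2 h2', ?_⟩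
  rw [hf1_qq_mul, ← h3, ← h3', Matrix.smul_mul, Matrix.mul_smul, smul_smul]
  push_cast
  rfl

theorem rdq_mul_pr {n q : ℕ} {d e : Matrix (Fin n) (Fin n) ℚ} (hd : QI q d) (he : QI q e) :
    rdq q (d * e) = rdq q d * rdq q e := by
  obtain ⟨c, P, h1, h2, h3⟩ := hd
  obtain ⟨c', P', h1', h2', h3'⟩ := he
  have hc : (c * c').Coprime q := Nat.Coprime.mul_left h1 h1'
  have h4 : ((c * c' : ℕ) : ℚ) • (d * e) = qq (P * P') := by
    rw [hf1_qq_mul, ← h3, ← h3', Matrix.smul_mul, Matrix.mul_smul, smul_smul]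
    push_cast
    rfl
  have h5 := rdq_eq_pr hc (mul_ne_zero h2 h2') h4
  rw [hf1_md_mul, ← rdq_eq_pr h1 h2 h3, ← rdq_eq_pr h1' h2' h3', Matrix.smul_mul,
    Matrix.mul_smul, smul_smul] at h5
  have h6 : ((c * c' : ℕ) : ZMod q)⁻¹ * ((c * c' : ℕ) : ZMod q) = 1 := by
    rw [mul_comm]
    exact ZMod.coe_mul_inv_eq_one _ hc
  have h7 : (((c * c' : ℕ) : ZMod q)⁻¹) • (((c * c' : ℕ) : ZMod q) • rdq q (d * e)) =
      (((c * c' : ℕ) : ZMod q)⁻¹) • (((c * c' : ℕ) : ZMod q) • (rdq q d * rdq q e)) := by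
    rw [h5]
    push_cast
    rfl
  rwa [smul_smul, smul_smul, h6, one_smul, one_smul] at h7

theorem QI_qq_pr {n : ℕ} (q : ℕ) (P : Matrix (Fin n) (Fin n) ℤ) : QI q (qq P) :=
  ⟨1, P, Nat.coprime_one_left q, one_ne_zero, by rw [Nat.cast_one, one_smul]⟩

theorem rdq_qq_pr {n : ℕ} (q : ℕ) (P : Matrix (Fin n) (Fin n) ℤ) : rdq q (qq P) = md q P := by
  have h := rdq_eq_pr (n := n) (q := q) (d := qq P) (c := 1) (P := P) (Nat.coprime_one_left q)
    one_ne_zero (by rw [Nat.cast_one, one_smul])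
  rwa [Nat.cast_one, one_smul] at h

theorem hf1_qq_det {n : ℕ} (T : Matrix (Fin n) (Fin n) ℤ) : (qq T).det = (T.det : ℚ) := by
  exact (RingHom.map_det (Int.castRingHom ℚ) T).symm

theorem hf1_qq_adj {n : ℕ} (T : Matrix (Fin n) (Fin n) ℤ) :
    (qq T).adjugate = qq T.adjugate := by
  exact (RingHom.map_adjugate (Int.castRingHom ℚ) T).symm

/-- the inverse is `adj P / det P` -/
theorem QI_inv_pr {n q : ℕ} (P : Matrix (Fin n) (Fin n) ℤ) (h : P.det.natAbs.Coprime q)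
    (h0 : P.det ≠ 0) : QI q (qq P)⁻¹ := by
  have hd : ((P.det : ℤ) : ℚ) ≠ 0 := by exact_mod_cast h0
  have hinv : (qq P)⁻¹ = ((P.det : ℤ) : ℚ)⁻¹ • qq P.adjugate := by
    rw [Matrix.inv_def, hf1_qq_det, hf1_qq_adj, Ring.inverse_eq_inv']
  refine ⟨P.det.natAbs, P.det.sign • P.adjugate, h, by simpa using h0, ?_⟩
  rw [hinv]
  ext i j
  have habs : ((P.det.natAbs : ℕ) : ℚ) = (P.det.sign : ℚ) * (P.det : ℚ) := by
    have : ((P.det.natAbs : ℕ) : ℤ) = P.det.sign * P.det := by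
      rw [Int.sign_mul_self_eq_natAbs]
    have h2 := congrArg (fun z : ℤ => (z : ℚ)) this
    simpa only [Int.cast_natCast, Int.cast_mul] using h2
  simp only [Matrix.smul_apply, qq, Matrix.map_apply, smul_eq_mul, Int.cast_mul]
  rw [habs]
  field_simp

end

end Pool.Agent.SGB

namespace Pool.Agent.SGB

alias rdq_eq := rdq_eq_pr
alias QI_mul := QI_mul_pr
alias rdq_mul := rdq_mul_pr
alias QI_qq := QI_qq_pr
alias rdq_qq := rdq_qq_pr
alias QI_inv := QI_inv_pr

end Pool.Agent.SGB
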