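import Pool.Agent.Lib_helper56.SGB.Defs
import Pool.Agent.Lib_helper56.SGB.F.HD
import Pool.Agent.Lib_helper56.SGB.F.HE2
import Pool.Agent.Lib_helper56.SGB.F.HF1

/-!
# Project SGN, part B, block HF2: lattices equal to `ℤ^n` at `q`
-/

set_option autoImplicit false

namespace Pool.Agent.SGB

open MeasureTheory Matrix
open Pool.Agent.RS (Mt lm SLZ)
open Pool.Agent.GLQ (re unip cube slab Xp wN IN rm rr qq Lat latt Lz IsRed RY Om Box Kern IsInv Bd sp)
open Pool.Agent.SGN (md repR repL heckeT heckeA supS subS UW Wd lw nf WOk)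
open scoped ENNReal

noncomputable section

theorem hf2_det_qq {n : ℕ} (T : Matrix (Fin n) (Fin n) ℤ) : (qq T).det = (T.det : ℚ) := by
  have h := RingHom.map_det (Int.castRingHom ℚ) T
  simpa [qq, RingHom.mapMatrix_apply] using h.symm

theorem hf2_one {n : ℕ} (q : ℕ) : QI (n := n) q 1 := by
  refine ⟨1, 1, Nat.coprime_one_left q, one_ne_zero, ?_⟩
  ext i j
  by_cases h : i = j
  · subst h; simp [qq]
  · simp [qq, h]

theorem hf2_supS {n k : ℕ} {L M : Lat n} (h : M ∈ supS k L) : L ≤ M ∧ L.relIndex M = k := by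
  unfold Pool.Agent.SGN.supS at h
  split_ifs at h with h'
  · simpa using h
  · simp at h

theorem hf2_subS {n k : ℕ} {L M : Lat n} (h : M ∈ subS k L) : M ≤ L ∧ M.relIndex L = k := by
  unfold Pool.Agent.SGN.subS at h
  split_ifs at h with h'
  · simpa using h
  · simp at h

theorem Ql_Lz_pr (n q : ℕ) : Ql q (Lz n) := by
  refine ⟨1, ⟨by simp, rfl⟩, hf2_one q, ?_⟩
  rw [inv_one]
  exact hf2_one q

theorem Ql_basis_pr {n q : ℕ} {L : Lat n} (hL : Ql q L) {d : Matrix (Fin n) (Fin n) ℚ}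
    (hd : IsB d L) : QI q d ∧ QI q d⁻¹ := by
  obtain ⟨d0, hd0, h1, h2⟩ := hL
  obtain ⟨T, hT, hTp, -, hTi⟩ := IsB_qq hd0 hd le_rfl
  rw [AddSubgroup.relIndex_self] at hTi
  have hT1 : T.det.natAbs.Coprime q := by rw [← hTi]; exact Nat.coprime_one_left q
  refine ⟨?_, ?_⟩
  · rw [hT]
    exact QI_mul (QI_qq q T) h1
  · rw [hT, Matrix.mul_inv_rev]
    exact QI_mul h2 (QI_inv T hT1 hTp.ne')

theorem Ql_supS_pr {n k q : ℕ} (hk : 1 ≤ k) (hkq : k.Coprime q) {L M : Lat (n + 1)} (hL : Ql q L)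
    (h : M ∈ supS k L) : Ql q M := by
  obtain ⟨d0, hd0, h1, h2⟩ := hL
  obtain ⟨e, he, hed⟩ := supS_isB hk hd0 h
  obtain ⟨T, hT, hTp, -, hTi⟩ := IsB_qq he hd0 (hf2_supS h).1
  rw [(hf2_supS h).2] at hTi
  have hTq : T.det.natAbs.Coprime q := by rw [← hTi]; exact hkq
  have hu : IsUnit (qq T).det := by
    rw [hf2_det_qq]
    exact (Int.cast_ne_zero.mpr hTp.ne').isUnit
  have he' : e = (qq T)⁻¹ * d0 := by
    rw [hT, ← Matrix.mul_assoc, Matrix.nonsing_inv_mul _ hu, Matrix.one_mul]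
  refine ⟨e, he, ?_, ?_⟩
  · rw [he']
    exact QI_mul (QI_inv T hTq hTp.ne') h1
  · rw [he', Matrix.mul_inv_rev, Matrix.nonsing_inv_nonsing_inv _ hu]
    exact QI_mul h2 (QI_qq q T)

theorem Ql_subS_pr {n k q : ℕ} (hk : 1 ≤ k) (hkq : k.Coprime q) {L M : Lat (n + 1)} (hL : Ql q L)
    (h : M ∈ subS k L) : Ql q M := by
  obtain ⟨d0, hd0, h1, h2⟩ := hL
  obtain ⟨e, he, hed⟩ := subS_isB hk hd0 h
  obtain ⟨T, hT, hTp, -, hTi⟩ := IsB_qq hd0 he (hf2_subS h).1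
  rw [(hf2_subS h).2] at hTi
  have hTq : T.det.natAbs.Coprime q := by rw [← hTi]; exact hkq
  refine ⟨e, he, ?_, ?_⟩
  · rw [hT]
    exact QI_mul (QI_qq q T) h1
  · rw [hT, Matrix.mul_inv_rev]
    exact QI_mul h2 (QI_inv T hTq hTp.ne')

end

end Pool.Agent.SGB

namespace Pool.Agent.SGB

alias Ql_Lz := Ql_Lz_pr
alias Ql_basis := Ql_basis_pr
alias Ql_supS := Ql_supS_pr
alias Ql_subS := Ql_subS_pr

end Pool.Agent.SGB
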