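import Pool.Agent.Lib_helper56.SGB.Defs
import Pool.Agent.Lib_helper56.SGB.F.HD
import Pool.Agent.Lib_helper56.SGB.F.HF1
import Pool.Agent.Lib_helper56.SGB.F.HF2

/-!
# Block DE1: multiplicities of lattices
-/

set_option autoImplicit false

namespace Pool.Agent.SGB

open MeasureTheory Matrix
open Pool.Agent.RS (Mt lm SLZ)
open Pool.Agent.GLQ (re unip cube slab Xp wN IN rm rr qq Lat latt Lz IsRed RY Om Box Kern IsInv Bd sp)
open Pool.Agent.SGN (md repR repL heckeT heckeA supS subS UW Wd lw nf WOk)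
open scoped ENNReal

noncomputable section

/-- the rational matrix of a pair -/
def de1_z {n : ℕ} (d' d : Matrix (Fin n) (Fin n) ℚ) (γ : SLZ n) :
    Matrix (Fin n) (Fin n) ℚ := d'⁻¹ * (qq γ.1 * d)

theorem de1_mul {n : ℕ} {d' d : Matrix (Fin n) (Fin n) ℚ} (h' : 0 < d'.det) (γ : SLZ n) :
    d' * de1_z d' d γ = qq γ.1 * d := by
  unfold de1_z
  rw [← Matrix.mul_assoc, Matrix.mul_nonsing_inv _ (ne_of_gt h').isUnit, Matrix.one_mul]

theorem de1_det {n : ℕ} {d' d : Matrix (Fin n) (Fin n) ℚ} (h' : 0 < d'.det) (γ : SLZ n) :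
    (de1_z d' d γ).det = d.det / d'.det := by
  have h := congrArg Matrix.det (de1_mul (d := d) h' γ)
  rw [Matrix.det_mul, Matrix.det_mul, Pool.Agent.GLQ.l2_det, one_mul] at h
  rw [eq_div_iff (ne_of_gt h'), mul_comm]
  exact h

theorem de1_latt {n : ℕ} {d' d : Matrix (Fin n) (Fin n) ℚ} (h' : 0 < d'.det) (γ : SLZ n) :
    latt (d' * de1_z d' d γ) = latt d := by
  rw [de1_mul h', Pool.Agent.GLQ.l2_latt]

/-- multiplication by an invertible matrix is injective on lattices -/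
theorem de1_latt_inj {n : ℕ} {d d' z : Matrix (Fin n) (Fin n) ℚ} (hz : z.det ≠ 0)
    (h : latt (d * z) = latt (d' * z)) : latt d = latt d' := by
  have key : ∀ e e' : Matrix (Fin n) (Fin n) ℚ, latt (e * z) = latt (e' * z) →
      latt e ≤ latt e' := by
    intro e e' h
    rintro v ⟨x, rfl⟩
    have h1 : (fun i => (x i : ℚ)) ᵥ* (e * z) ∈ latt (e' * z) := by
      rw [← h]
      exact ⟨x, rfl⟩
    obtain ⟨y, hy⟩ := h1
    refine ⟨y, ?_⟩
    have h2 := congrArg (fun v => v ᵥ* z⁻¹) hy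
    simp only [Matrix.vecMul_vecMul] at h2
    rwa [Matrix.mul_assoc, Matrix.mul_nonsing_inv _ hz.isUnit, Matrix.mul_one,
      Matrix.mul_assoc, Matrix.mul_nonsing_inv _ hz.isUnit, Matrix.mul_one] at h2
  exact le_antisymm (key d d' h) (key d' d h.symm)

theorem de1_qq_inj {n : ℕ} {P Q : Matrix (Fin n) (Fin n) ℤ} (h : qq P = qq Q) : P = Q := by
  ext i j
  have h1 := congrFun (congrFun h i) j
  simpa [qq] using h1

theorem de1_rdq_one (n q : ℕ) : rdq q (1 : Matrix (Fin n) (Fin n) ℚ) = 1 := by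
  have h := rdq_qq (n := n) q 1
  have h1 : qq (1 : Matrix (Fin n) (Fin n) ℤ) = 1 := Pool.Agent.GLQ.l1a_qq_one
  rw [h1] at h
  rw [h]
  have h2 : md q (1 : Matrix (Fin n) (Fin n) ℤ) = (Int.castRingHom (ZMod q)).mapMatrix 1 := rfl
  rw [h2, map_one]

/-- the congruence condition -/
theorem de1_cong {n q : ℕ} {d' d : Matrix (Fin n) (Fin n) ℚ} (h : 0 < d.det)
    (hq : QI q d ∧ QI q d⁻¹) (hq' : QI q d' ∧ QI q d'⁻¹) (γ : SLZ n) (x : Fin n → ZMod q) :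
    (x ᵥ* rdq q d'⁻¹) ᵥ* md q γ.1 = x ᵥ* rdq q d⁻¹ ↔ x ᵥ* rdq q (de1_z d' d γ) = x := by
  have e1 : rdq q (de1_z d' d γ) = rdq q d'⁻¹ * (md q γ.1 * rdq q d) := by
    unfold de1_z
    rw [rdq_mul hq'.2 (QI_mul (QI_qq q γ.1) hq.1), rdq_mul (QI_qq q γ.1) hq.1, rdq_qq]
  have hu : IsUnit d.det := (ne_of_gt h).isUnit
  have e2 : rdq q d⁻¹ * rdq q d = 1 := by
    rw [← rdq_mul hq.2 hq.1, Matrix.nonsing_inv_mul _ hu, de1_rdq_one]
  have e3 : rdq q d * rdq q d⁻¹ = 1 := by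
    rw [← rdq_mul hq.1 hq.2, Matrix.mul_nonsing_inv _ hu, de1_rdq_one]
  rw [e1]
  constructor
  · intro h1
    have h2 := congrArg (fun v => v ᵥ* rdq q d) h1
    simp only [Matrix.vecMul_vecMul] at h2
    rw [e2, Matrix.vecMul_one] at h2
    rw [← Matrix.mul_assoc]
    exact h2
  · intro h1
    have h2 := congrArg (fun v => v ᵥ* rdq q d⁻¹) h1
    simp only [Matrix.vecMul_vecMul] at h2
    rw [← h2, Matrix.vecMul_vecMul]
    congr 1
    rw [Matrix.mul_assoc, Matrix.mul_assoc, e3, Matrix.mul_one]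

theorem de1_rr_mul {n : ℕ} (S T : Matrix (Fin n) (Fin n) ℚ) : rr (S * T) = rr S * rr T := by
  have h : ∀ T : Matrix (Fin n) (Fin n) ℚ, rr T = (Rat.castHom ℝ).mapMatrix T := fun _ => rfl
  rw [h, h, h, map_mul]

theorem de1_rr_one {n : ℕ} : rr (1 : Matrix (Fin n) (Fin n) ℚ) = 1 := by
  have h : ∀ T : Matrix (Fin n) (Fin n) ℚ, rr T = (Rat.castHom ℝ).mapMatrix T := fun _ => rfl
  rw [h, map_one]

theorem de1_rr_qq {n : ℕ} (P : Matrix (Fin n) (Fin n) ℤ) : rr (qq P) = re P := by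
  ext i j
  simp [rr, qq, re]

/-- the archimedean condition -/
theorem de1_arch {m : ℕ} {d' d : Matrix (Fin (m + 1)) (Fin (m + 1)) ℚ} (h' : 0 < d'.det)
    (h : 0 < d.det) (γ : SLZ (m + 1)) (A : Mt (m + 1)) (hA : 0 < (Matrix.of A).det) :
    ((((d'.det : ℝ) ^ (-(1 / ((m : ℝ) + 1)))) • rr d') * Matrix.of A)⁻¹ *
      (re γ.1 * ((((d.det : ℝ) ^ (-(1 / ((m : ℝ) + 1)))) • rr d) * Matrix.of A)) =
    (((de1_z d' d γ).det : ℝ) ^ (-(1 / ((m : ℝ) + 1)))) •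
      ((Matrix.of A)⁻¹ * (rr (de1_z d' d γ) * Matrix.of A)) := by
  have hd' : (0 : ℝ) < (d'.det : ℝ) := by exact_mod_cast h'
  have hd : (0 : ℝ) < (d.det : ℝ) := by exact_mod_cast h
  set e : ℝ := -(1 / ((m : ℝ) + 1)) with he
  have hs' : (0 : ℝ) < (d'.det : ℝ) ^ e := Real.rpow_pos_of_pos hd' e
  have hAu : IsUnit (Matrix.of A).det := (ne_of_gt hA).isUnit
  have e1 : ((((d'.det : ℝ) ^ e) • rr d') * Matrix.of A)⁻¹ =
      ((d'.det : ℝ) ^ e)⁻¹ • ((Matrix.of A)⁻¹ * rr d'⁻¹) := by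
    apply Matrix.inv_eq_left_inv
    have e2 : rr d'⁻¹ * rr d' = 1 := by
      rw [← de1_rr_mul, Matrix.nonsing_inv_mul _ (ne_of_gt h').isUnit, de1_rr_one]
    rw [Matrix.smul_mul, Matrix.smul_mul, Matrix.mul_smul, smul_smul, inv_mul_cancel₀ hs'.ne',
      one_smul]
    calc (Matrix.of A)⁻¹ * rr d'⁻¹ * (rr d' * Matrix.of A) =
        (Matrix.of A)⁻¹ * (rr d'⁻¹ * rr d') * Matrix.of A := by
          simp only [Matrix.mul_assoc]
      _ = 1 := by rw [e2, Matrix.mul_one, Matrix.nonsing_inv_mul _ hAu]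
  have e3 : rr (de1_z d' d γ) = rr d'⁻¹ * (re γ.1 * rr d) := by
    unfold de1_z
    rw [de1_rr_mul, de1_rr_mul, de1_rr_qq]
  have e4 : (((de1_z d' d γ).det : ℝ) ^ e) = ((d'.det : ℝ) ^ e)⁻¹ * (d.det : ℝ) ^ e := by
    rw [de1_det h', Rat.cast_div, Real.div_rpow hd.le hd'.le, div_eq_mul_inv, mul_comm]
  rw [e1, e3, e4]
  simp only [Matrix.smul_mul, Matrix.mul_smul, smul_smul, Matrix.mul_assoc]
  rw [mul_comm]

theorem de1_arch_iff {m : ℕ} {R : ℝ} {d' d : Matrix (Fin (m + 1)) (Fin (m + 1)) ℚ}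
    (h' : 0 < d'.det) (h : 0 < d.det) (γ : SLZ (m + 1)) (A : Mt (m + 1))
    (hA : 0 < (Matrix.of A).det)
    (hc : ∀ a b, |(((((d'.det : ℝ) ^ (-(1 / ((m : ℝ) + 1)))) • rr d') * Matrix.of A)⁻¹ *
      (re γ.1 * ((((d.det : ℝ) ^ (-(1 / ((m : ℝ) + 1)))) • rr d) * Matrix.of A))) a b| ≤ R) :
    ∀ a b, |((Matrix.of A)⁻¹ * (rr (de1_z d' d γ) * Matrix.of A)) a b| ≤
      R * ((de1_z d' d γ).det : ℝ) ^ (1 / ((m : ℝ) + 1)) := by
  have hz : (0 : ℝ) < ((de1_z d' d γ).det : ℝ) := by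
    rw [de1_det h']
    exact_mod_cast div_pos h h'
  intro a b
  have h1 := hc a b
  rw [de1_arch h' h γ A hA, Matrix.smul_apply, smul_eq_mul, abs_mul,
    abs_of_pos (Real.rpow_pos_of_pos hz _), Real.rpow_neg hz.le] at h1
  have h2 : (0 : ℝ) < ((de1_z d' d γ).det : ℝ) ^ (1 / ((m : ℝ) + 1)) :=
    Real.rpow_pos_of_pos hz _
  rw [inv_mul_le_iff₀ h2] at h1
  rw [mul_comm R]
  exact h1

theorem de1_Nx_le (m q : ℕ) [NeZero q] (ζ : Matrix (Fin (m + 1)) (Fin (m + 1)) ℚ) :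
    (Nx q ζ : ℝ≥0∞) ≤ (q : ℝ≥0∞) ^ (m + 1) := by
  have h1 : Nx q ζ ≤ q ^ (m + 1) := by
    unfold Nx
    refine (Nat.card_le_card_of_injective _ Subtype.val_injective).trans ?_
    rw [Nat.card_eq_fintype_card, Fintype.card_fun, ZMod.card, Fintype.card_fin]
  exact_mod_cast h1

theorem de1_sum {n q : ℕ} [NeZero q] (c : Prop) [Decidable c] (ζ : Matrix (Fin n) (Fin n) ℚ)
    (P : (Fin n → ZMod q) → Prop) [DecidablePred P] (hP : ∀ x, P x ↔ x ᵥ* rdq q ζ = x) :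
    ∑ x : Fin n → ZMod q, (if c ∧ P x then (1 : ℝ≥0∞) else 0) =
      if c then (Nx q ζ : ℝ≥0∞) else 0 := by
  classical
  by_cases hc : c
  · simp only [hc, true_and, if_true]
    rw [Finset.sum_boole]
    congr 1
    unfold Nx
    rw [Nat.card_eq_fintype_card, Fintype.card_subtype]
    congr 1
    ext x
    simp only [Finset.mem_filter, Finset.mem_univ, true_and]
    exact hP x
  · simp [hc]

/-- DE1 -/
theorem multX_sum_pr (m q : ℕ) [NeZero q] (R : ℝ) (hR : 1 ≤ R) (S : Finset (Lat (m + 1)))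
    (hS : ∀ L ∈ S, Ql q L) (L : S) (A : Mt (m + 1)) (hA : 0 < (Matrix.of A).det) :
    ∑ x : Fin (m + 1) → ZMod q, multX m q R (ι := S)
      (fun M => ((((bas M.1).det : ℝ) ^ (-(1 / ((m : ℝ) + 1)))) • rr (bas M.1)))
      (fun M => rdq q (bas M.1)⁻¹) L A x ≤ (q : ℝ≥0∞) ^ (m + 1) + ZS m q R S L.1 A := by
  classical
  have hB : ∀ M : S, IsB (bas M.1) M.1 := fun M => by
    obtain ⟨d, hd, -⟩ := hS M.1 M.2
    exact bas_spec ⟨d, hd⟩
  have hQ : ∀ M : S, QI q (bas M.1) ∧ QI q (bas M.1)⁻¹ := fun M =>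
    Ql_basis (hS M.1 M.2) (hB M)
  set Z : S × SLZ (m + 1) → Matrix (Fin (m + 1)) (Fin (m + 1)) ℚ :=
    fun p => de1_z (bas p.1.1) (bas L.1) p.2 with hZ
  have hZdet : ∀ p, 0 < (Z p).det := fun p => by
    rw [hZ]
    show 0 < (de1_z (bas p.1.1) (bas L.1) p.2).det
    rw [de1_det (hB p.1).1]
    exact div_pos (hB L).1 (hB p.1).1
  have hinj : Function.Injective Z := by
    rintro ⟨M, γ⟩ ⟨M', γ'⟩ h
    have h1 : latt (bas M.1 * Z (M, γ)) = latt (bas M'.1 * Z (M, γ)) := by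
      have a1 : latt (bas M.1 * Z (M, γ)) = latt (bas L.1) := de1_latt (hB M).1 γ
      have a2 : latt (bas M'.1 * Z (M', γ')) = latt (bas L.1) := de1_latt (hB M').1 γ'
      rw [a1, h, a2]
    have h2 := de1_latt_inj (hZdet (M, γ)).ne' h1
    rw [(hB M).2, (hB M').2] at h2
    have h3 : M = M' := Subtype.ext h2
    subst h3
    have b1 : bas M.1 * Z (M, γ) = qq γ.1 * bas L.1 := de1_mul (hB M).1 γ
    have b2 : bas M.1 * Z (M, γ') = qq γ'.1 * bas L.1 := de1_mul (hB M).1 γ'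
    rw [h, b2] at b1
    have b3 := congrArg (fun T => T * (bas L.1)⁻¹) b1
    simp only [Matrix.mul_assoc, Matrix.mul_nonsing_inv _ (ne_of_gt (hB L).1).isUnit,
      Matrix.mul_one] at b3
    have b4 : γ = γ' := Subtype.ext (de1_qq_inj b3.symm)
    rw [b4]
  set c : S × SLZ (m + 1) → Prop := fun p =>
    ∀ a b, |(((((bas p.1.1).det : ℝ) ^ (-(1 / ((m : ℝ) + 1)))) • rr (bas p.1.1) *
      Matrix.of A)⁻¹ * (re p.2.1 * ((((bas L.1).det : ℝ) ^ (-(1 / ((m : ℝ) + 1)))) •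
        rr (bas L.1) * Matrix.of A))) a b| ≤ R with hc
  set F : Matrix (Fin (m + 1)) (Fin (m + 1)) ℚ → ℝ≥0∞ := fun ζ =>
    (if ζ = 1 then (q : ℝ≥0∞) ^ (m + 1) else 0) +
      (if ZC m R S L.1 A ζ then (Nx q ζ : ℝ≥0∞) else 0) with hF
  have hle : ∀ p : S × SLZ (m + 1), (if c p then (Nx q (Z p) : ℝ≥0∞) else 0) ≤ F (Z p) := by
    intro p
    by_cases h1 : c p
    · rw [if_pos h1]
      by_cases h2 : Z p = 1
      · refine le_trans (de1_Nx_le m q (Z p)) ?_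
        rw [hF]
        simp only [h2, if_true]
        exact le_self_add
      · have h3 : ZC m R S L.1 A (Z p) := by
          refine ⟨h2, hZdet p, ⟨bas p.1.1, (hB p.1).1, ?_, ?_⟩, ?_⟩
          · rw [(hB p.1).2]
            exact Finset.mem_coe.2 p.1.2
          · have := de1_latt (d := bas L.1) (hB p.1).1 p.2
            rw [(hB L).2] at this
            exact this
          · exact de1_arch_iff (hB p.1).1 (hB L).1 p.2 A hA h1
        rw [hF]
        simp only [h3, if_true]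
        exact le_add_self
    · rw [if_neg h1]
      exact bot_le
  have e1 : ∑ x : Fin (m + 1) → ZMod q, multX m q R (ι := S)
      (fun M => ((((bas M.1).det : ℝ) ^ (-(1 / ((m : ℝ) + 1)))) • rr (bas M.1)))
      (fun M => rdq q (bas M.1)⁻¹) L A x =
      ∑' p : S × SLZ (m + 1), (if c p then (Nx q (Z p) : ℝ≥0∞) else 0) := by
    unfold multX
    rw [Finset.sum_comm]
    have e2 : ∀ M : S, ∑ x : Fin (m + 1) → ZMod q, ∑' γ : SLZ (m + 1),
        (if (∀ a b, |(((((bas M.1).det : ℝ) ^ (-(1 / ((m : ℝ) + 1)))) • rr (bas M.1) *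
          Matrix.of A)⁻¹ * (re γ.1 * ((((bas L.1).det : ℝ) ^ (-(1 / ((m : ℝ) + 1)))) •
          rr (bas L.1) * Matrix.of A))) a b| ≤ R) ∧
          (x ᵥ* rdq q (bas M.1)⁻¹) ᵥ* md q γ.1 = x ᵥ* rdq q (bas L.1)⁻¹ then (1 : ℝ≥0∞)
          else 0) = ∑' γ : SLZ (m + 1), (if c (M, γ) then (Nx q (Z (M, γ)) : ℝ≥0∞) else 0) := by
      intro M
      rw [← Summable.tsum_finsetSum (fun _ _ => ENNReal.summable)]
      refine tsum_congr fun γ => ?_
      exact de1_sum (c (M, γ)) (Z (M, γ)) _ (fun x => de1_cong (hB L).1 (hQ L) (hQ M) γ x)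
    rw [ENNReal.tsum_prod (f := fun M γ => if c (M, γ) then (Nx q (Z (M, γ)) : ℝ≥0∞) else 0),
      tsum_fintype]
    exact Finset.sum_congr rfl fun M _ => e2 M
  rw [e1]
  refine (ENNReal.tsum_le_tsum hle).trans ?_
  refine (ENNReal.tsum_comp_le_tsum_of_injective hinj F).trans ?_
  rw [hF, ENNReal.tsum_add, tsum_ite_eq]
  unfold ZS
  exact le_rfl

end

end Pool.Agent.SGB

namespace Pool.Agent.SGB

alias multX_sum := multX_sum_pr

end Pool.Agent.SGB
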