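import Pool.Agent.Lib_helper56.SGB.Defs
import Pool.Agent.Lib_helper56.SGB.F.HF1

/-!
# Project SGN, part B, block DE2: the function `ZS` is measurable and invariant
-/

set_option autoImplicit false

namespace Pool.Agent.SGB

open MeasureTheory Matrix
open Pool.Agent.RS (Mt lm SLZ)
open Pool.Agent.GLQ (re unip cube slab Xp wN IN rm rr qq Lat latt Lz IsRed RY Om Box Kern IsInv Bd sp)
open Pool.Agent.SGN (md repR repL heckeT heckeA supS subS UW Wd lw nf WOk)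
open scoped ENNReal

noncomputable section

/-! ### measurability -/

theorem de2_count (n : ℕ) : Countable (Matrix (Fin n) (Fin n) ℚ) :=
  inferInstanceAs (Countable (Fin n → Fin n → ℚ))

theorem de2_ent {n : ℕ} (Z : Matrix (Fin n) (Fin n) ℚ) (a b : Fin n) :
    Measurable fun A : Mt n => ((Matrix.of A)⁻¹ * (rr Z * Matrix.of A)) a b := by
  have hof : Continuous (fun A : Mt n =>
      (Matrix.of A : Matrix (Fin n) (Fin n) ℝ)) := continuous_id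
  have h1 : (fun A : Mt n => ((Matrix.of A)⁻¹ * (rr Z * Matrix.of A)) a b) =
      fun A : Mt n => ((Matrix.of A).det)⁻¹ *
        ((Matrix.of A).adjugate * (rr Z * Matrix.of A)) a b := by
    funext A
    rw [Matrix.inv_def, Ring.inverse_eq_inv', Matrix.smul_mul, Matrix.smul_apply, smul_eq_mul]
  rw [h1]
  refine Measurable.mul ?_ ?_
  · exact (hof.matrix_det.measurable).inv
  · exact (((hof.matrix_adjugate).matrix_mul
      (continuous_const.matrix_mul hof)).matrix_elem a b).measurable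

theorem ZS_meas_pr (m q : ℕ) (R : ℝ) (S : Set (Lat (m + 1))) (L : Lat (m + 1)) :
    Measurable fun A : Mt (m + 1) => ZS m q R S L A := by
  classical
  have := de2_count (m + 1)
  unfold ZS
  refine Measurable.tsum fun ζ => ?_
  refine Measurable.ite ?_ measurable_const measurable_const
  by_cases h : ζ ≠ 1 ∧ 0 < ζ.det ∧ (∃ d' : Matrix (Fin (m + 1)) (Fin (m + 1)) ℚ, 0 < d'.det ∧
      latt d' ∈ S ∧ latt (d' * ζ) = L)
  · have h2 : {A : Mt (m + 1) | ZC m R S L A ζ} =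
        ⋂ a, ⋂ b, {A : Mt (m + 1) | |((Matrix.of A)⁻¹ * (rr ζ * Matrix.of A)) a b| ≤
          R * (ζ.det : ℝ) ^ (1 / ((m : ℝ) + 1))} := by
      ext A
      simp only [Set.mem_ofPred_eq, Set.mem_iInter]
      exact ⟨fun h3 => h3.2.2.2, fun h3 => ⟨h.1, h.2.1, h.2.2, h3⟩⟩
    rw [h2]
    refine MeasurableSet.iInter fun a => MeasurableSet.iInter fun b => ?_
    exact measurableSet_le (de2_ent ζ a b).abs measurable_const
  · have h2 : {A : Mt (m + 1) | ZC m R S L A ζ} = ∅ := by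
      ext A
      simp only [Set.mem_ofPred_eq, Set.mem_empty_iff_false, iff_false]
      exact fun h3 => h ⟨h3.1, h3.2.1, h3.2.2.1⟩
    rw [h2]
    exact MeasurableSet.empty

/-! ### the condition for `ℤ^n` -/

theorem de2_mem_Lz_row {n : ℕ} {d : Matrix (Fin n) (Fin n) ℚ} (h : latt d = Lz n) (i : Fin n) :
    d i ∈ Lz n := by
  rw [← h]
  exact Pool.Agent.GLQ.l1a_row_mem d i

theorem de2_int {n : ℕ} {d : Matrix (Fin n) (Fin n) ℚ} (h : latt d = Lz n) :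
    (∃ P : Matrix (Fin n) (Fin n) ℤ, d = qq P) ∧ ∃ S : Matrix (Fin n) (Fin n) ℤ, 1 = qq S * d := by
  refine ⟨?_, ?_⟩
  · obtain ⟨T, hT⟩ := Pool.Agent.GLQ.l1a_exists_T (1 : Matrix (Fin n) (Fin n) ℚ) d
      (fun i => de2_mem_Lz_row h i)
    exact ⟨T, by rw [hT, Matrix.mul_one]⟩
  · obtain ⟨T, hT⟩ := Pool.Agent.GLQ.l1a_exists_T d (1 : Matrix (Fin n) (Fin n) ℚ)
      (fun i => by
        rw [h]
        exact Pool.Agent.GLQ.l1a_row_mem (1 : Matrix (Fin n) (Fin n) ℚ) i)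
    exact ⟨T, hT⟩

theorem de2_sl {n : ℕ} {ζ : Matrix (Fin n) (Fin n) ℚ} (h0 : 0 < ζ.det)
    (h : ∃ d' : Matrix (Fin n) (Fin n) ℚ, 0 < d'.det ∧
      latt d' ∈ ({Lz n} : Set (Lat n)) ∧ latt (d' * ζ) = Lz n) :
    ∃ g : SLZ n, ζ = qq g.1 := by
  obtain ⟨d, _, h1, h2⟩ := h
  have h1' : latt d = Lz n := h1
  obtain ⟨⟨P, hP⟩, S, hS⟩ := de2_int h1'
  obtain ⟨⟨P', hP'⟩, S', hS'⟩ := de2_int h2
  have e1 : ζ = qq (S * P') := by
    rw [Pool.Agent.GLQ.l2_qq_mul, ← hP', ← Matrix.mul_assoc, ← hS, Matrix.one_mul]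
  have e2 : (S' * P) * (S * P') = 1 := by
    apply Pool.Agent.GLQ.l2_qq_inj
    rw [Pool.Agent.GLQ.l2_qq_mul, Pool.Agent.GLQ.l2_qq_mul, ← e1, ← hP, Matrix.mul_assoc, ← hS',
      Pool.Agent.GLQ.l2_qq_one]
  have e3 : (S' * P).det * (S * P').det = 1 := by
    rw [← Matrix.det_mul, e2, Matrix.det_one]
  have e4 : 0 < (S * P').det := by
    rw [e1, Pool.Agent.GLQ.l1a_qq_det] at h0
    exact_mod_cast h0
  have e5 : (S * P').det = 1 := by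
    rcases Int.isUnit_iff.mp (IsUnit.of_mul_eq_one_right _ e3) with h | h
    · exact h
    · omega
  exact ⟨⟨S * P', e5⟩, e1⟩

theorem de2_zc {m : ℕ} (R : ℝ) (A : Mt (m + 1)) (ζ : Matrix (Fin (m + 1)) (Fin (m + 1)) ℚ) :
    ZC m R {Lz (m + 1)} (Lz (m + 1)) A ζ ↔ ζ ≠ 1 ∧ (∃ g : SLZ (m + 1), ζ = qq g.1) ∧
      ∀ a b, |((Matrix.of A)⁻¹ * (rr ζ * Matrix.of A)) a b| ≤
        R * (ζ.det : ℝ) ^ (1 / ((m : ℝ) + 1)) := by
  constructor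
  · rintro ⟨h1, h2, h3, h4⟩
    exact ⟨h1, de2_sl h2 h3, h4⟩
  · rintro ⟨h1, ⟨g, hg⟩, h4⟩
    refine ⟨h1, ?_, ⟨1, ?_, ?_, ?_⟩, h4⟩
    · rw [hg, Pool.Agent.GLQ.l2_det]
      exact one_pos
    · rw [Matrix.det_one]
      exact one_pos
    · rfl
    · have h5 := Pool.Agent.GLQ.l2_latt g (1 : Matrix (Fin (m + 1)) (Fin (m + 1)) ℚ)
      rw [Matrix.mul_one] at h5
      rw [Matrix.one_mul, hg]
      exact h5

/-! ### conjugation -/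

/-- `ζ ↦ γ ζ γ⁻¹` -/
def de2_cj {n : ℕ} (γ : SLZ n) : Matrix (Fin n) (Fin n) ℚ ≃ Matrix (Fin n) (Fin n) ℚ where
  toFun ζ := qq γ.1 * ζ * qq (γ⁻¹ : SLZ n).1
  invFun ζ := qq (γ⁻¹ : SLZ n).1 * ζ * qq γ.1
  left_inv ζ := by
    have h : qq (γ⁻¹ : SLZ n).1 * qq γ.1 = 1 := by
      rw [← Pool.Agent.GLQ.l2_qq_mul, Pool.Agent.GLQ.l2_im, Pool.Agent.GLQ.l2_qq_one]
    change qq (γ⁻¹ : SLZ n).1 * (qq γ.1 * ζ * qq (γ⁻¹ : SLZ n).1) * qq γ.1 = ζ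
    rw [Matrix.mul_assoc (qq γ.1), ← Matrix.mul_assoc (qq (γ⁻¹ : SLZ n).1), h, Matrix.one_mul,
      Matrix.mul_assoc, h, Matrix.mul_one]
  right_inv ζ := by
    have h : qq γ.1 * qq (γ⁻¹ : SLZ n).1 = 1 := by
      rw [← Pool.Agent.GLQ.l2_qq_mul, Pool.Agent.GLQ.l2_mi, Pool.Agent.GLQ.l2_qq_one]
    change qq γ.1 * (qq (γ⁻¹ : SLZ n).1 * ζ * qq γ.1) * qq (γ⁻¹ : SLZ n).1 = ζ
    rw [Matrix.mul_assoc (qq (γ⁻¹ : SLZ n).1), ← Matrix.mul_assoc (qq γ.1), h, Matrix.one_mul,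
      Matrix.mul_assoc, h, Matrix.mul_one]

theorem de2_cj_apply {n : ℕ} (γ : SLZ n) (ζ : Matrix (Fin n) (Fin n) ℚ) :
    de2_cj γ ζ = qq γ.1 * ζ * qq (γ⁻¹ : SLZ n).1 := rfl

theorem de2_cj_symm {n : ℕ} (γ : SLZ n) (ζ : Matrix (Fin n) (Fin n) ℚ) :
    (de2_cj γ).symm ζ = qq (γ⁻¹ : SLZ n).1 * ζ * qq γ.1 := rfl

theorem de2_cj_det {n : ℕ} (γ : SLZ n) (ζ : Matrix (Fin n) (Fin n) ℚ) :
    (de2_cj γ ζ).det = ζ.det := by
  rw [de2_cj_apply, Matrix.det_mul, Matrix.det_mul, Pool.Agent.GLQ.l2_det,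
    Pool.Agent.GLQ.l2_det, one_mul, mul_one]

theorem de2_cj_one {n : ℕ} (γ : SLZ n) : de2_cj γ 1 = 1 := by
  rw [de2_cj_apply, Matrix.mul_one, ← Pool.Agent.GLQ.l2_qq_mul, Pool.Agent.GLQ.l2_mi,
    Pool.Agent.GLQ.l2_qq_one]

theorem de2_cj_ne {n : ℕ} (γ : SLZ n) (ζ : Matrix (Fin n) (Fin n) ℚ) :
    de2_cj γ ζ ≠ 1 ↔ ζ ≠ 1 := by
  rw [Ne, Ne, not_iff_not]
  constructor
  · intro h
    apply (de2_cj γ).injective
    rw [h, de2_cj_one]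
  · intro h
    rw [h, de2_cj_one]

theorem de2_cj_qq {n : ℕ} (γ g : SLZ n) :
    de2_cj γ (qq g.1) = qq (γ * g * γ⁻¹ : SLZ n).1 := by
  rw [de2_cj_apply, ← Pool.Agent.GLQ.l2_qq_mul, ← Pool.Agent.GLQ.l2_qq_mul]
  rfl

theorem de2_cj_sl {n : ℕ} (γ : SLZ n) (ζ : Matrix (Fin n) (Fin n) ℚ) :
    (∃ g : SLZ n, de2_cj γ ζ = qq g.1) ↔ ∃ g : SLZ n, ζ = qq g.1 := by
  constructor
  · rintro ⟨g, hg⟩
    refine ⟨γ⁻¹ * g * γ, ?_⟩
    apply (de2_cj γ).injective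
    rw [hg, de2_cj_qq]
    have h : γ * (γ⁻¹ * g * γ) * γ⁻¹ = g := by group
    rw [h]
  · rintro ⟨g, hg⟩
    exact ⟨γ * g * γ⁻¹, by rw [hg, de2_cj_qq]⟩

theorem de2_rr_mul {n : ℕ} (X Y : Matrix (Fin n) (Fin n) ℚ) : rr (X * Y) = rr X * rr Y := by
  ext i j
  simp [rr, Matrix.mul_apply]

theorem de2_rr_qq {n : ℕ} (X : Matrix (Fin n) (Fin n) ℤ) : rr (qq X) = re X := by
  ext i j
  simp [rr, qq, re]

theorem de2_re_mul {n : ℕ} (X Y : Matrix (Fin n) (Fin n) ℤ) : re (X * Y) = re X * re Y := by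
  ext i j
  simp [re, Matrix.mul_apply]

theorem de2_re_one {n : ℕ} : re (1 : Matrix (Fin n) (Fin n) ℤ) = 1 := by
  ext i j
  by_cases h : i = j
  · subst h; simp [re]
  · simp [re, h]

theorem de2_bd {n : ℕ} (γ : SLZ n) (A : Mt n) (ζ : Matrix (Fin n) (Fin n) ℚ) :
    (Matrix.of (lm (re γ.1) A))⁻¹ * (rr (de2_cj γ ζ) * Matrix.of (lm (re γ.1) A)) =
      (Matrix.of A)⁻¹ * (rr ζ * Matrix.of A) := by
  have h0 : Matrix.of (lm (re γ.1) A) = re γ.1 * Matrix.of A := rfl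
  have h1 : re γ.1 * re (γ⁻¹ : SLZ n).1 = 1 := by
    rw [← de2_re_mul, Pool.Agent.GLQ.l2_mi, de2_re_one]
  have h2 : re (γ⁻¹ : SLZ n).1 * re γ.1 = 1 := by
    rw [← de2_re_mul, Pool.Agent.GLQ.l2_im, de2_re_one]
  have h3 : (re γ.1)⁻¹ = re (γ⁻¹ : SLZ n).1 := Matrix.inv_eq_right_inv h1
  rw [h0, de2_cj_apply, de2_rr_mul, de2_rr_mul, de2_rr_qq, de2_rr_qq, Matrix.mul_inv_rev, h3]
  have h4 : re γ.1 * rr ζ * re (γ⁻¹ : SLZ n).1 * (re γ.1 * Matrix.of A) =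
      re γ.1 * (rr ζ * Matrix.of A) := by
    rw [Matrix.mul_assoc (re γ.1 * rr ζ), ← Matrix.mul_assoc (re (γ⁻¹ : SLZ n).1), h2,
      Matrix.one_mul, Matrix.mul_assoc]
  rw [h4, Matrix.mul_assoc, ← Matrix.mul_assoc (re (γ⁻¹ : SLZ n).1), h2, Matrix.one_mul]

theorem de2_md_mul {n : ℕ} (q : ℕ) (X Y : Matrix (Fin n) (Fin n) ℤ) :
    md q (X * Y) = md q X * md q Y := by
  ext i j
  simp [md, Matrix.mul_apply]

theorem de2_md_one {n : ℕ} (q : ℕ) : md q (1 : Matrix (Fin n) (Fin n) ℤ) = 1 := by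
  ext i j
  by_cases h : i = j
  · subst h; simp [md]
  · simp [md, h]

theorem de2_Nx {n : ℕ} (q : ℕ) (γ g : SLZ n) : Nx q (de2_cj γ (qq g.1)) = Nx q (qq g.1) := by
  rw [de2_cj_qq]
  unfold Nx
  rw [rdq_qq, rdq_qq]
  have h1 : md q γ.1 * md q (γ⁻¹ : SLZ n).1 = 1 := by
    rw [← de2_md_mul, Pool.Agent.GLQ.l2_mi, de2_md_one]
  have h2 : md q (γ⁻¹ : SLZ n).1 * md q γ.1 = 1 := by
    rw [← de2_md_mul, Pool.Agent.GLQ.l2_im, de2_md_one]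
  have h3 : md q (γ * g * γ⁻¹ : SLZ n).1 = md q γ.1 * md q g.1 * md q (γ⁻¹ : SLZ n).1 := by
    rw [← de2_md_mul, ← de2_md_mul]
    rfl
  refine Nat.card_congr ⟨fun x => ⟨x.1 ᵥ* md q γ.1, ?_⟩, fun y => ⟨y.1 ᵥ* md q (γ⁻¹ : SLZ n).1, ?_⟩,
    fun x => ?_, fun y => ?_⟩
  · obtain ⟨x, hx⟩ := x
    change (x ᵥ* md q γ.1) ᵥ* md q g.1 = x ᵥ* md q γ.1
    rw [h3, ← Matrix.vecMul_vecMul, ← Matrix.vecMul_vecMul] at hx
    have h4 : (((x ᵥ* md q γ.1) ᵥ* md q g.1) ᵥ* md q (γ⁻¹ : SLZ n).1) ᵥ* md q γ.1 =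
        x ᵥ* md q γ.1 := by rw [hx]
    rw [Matrix.vecMul_vecMul _ (md q (γ⁻¹ : SLZ n).1), h2, Matrix.vecMul_one] at h4
    exact h4
  · obtain ⟨y, hy⟩ := y
    change (y ᵥ* md q (γ⁻¹ : SLZ n).1) ᵥ* md q (γ * g * γ⁻¹ : SLZ n).1 =
      y ᵥ* md q (γ⁻¹ : SLZ n).1
    rw [h3, ← Matrix.vecMul_vecMul, ← Matrix.vecMul_vecMul, Matrix.vecMul_vecMul _ _ (md q γ.1), h2,
      Matrix.vecMul_one, hy]
  · apply Subtype.ext
    change (x.1 ᵥ* md q γ.1) ᵥ* md q (γ⁻¹ : SLZ n).1 = x.1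
    rw [Matrix.vecMul_vecMul, h1, Matrix.vecMul_one]
  · apply Subtype.ext
    change (y.1 ᵥ* md q (γ⁻¹ : SLZ n).1) ᵥ* md q γ.1 = y.1
    rw [Matrix.vecMul_vecMul, h2, Matrix.vecMul_one]

theorem de2_zc_cj {m : ℕ} (R : ℝ) (γ : SLZ (m + 1)) (A : Mt (m + 1))
    (ζ : Matrix (Fin (m + 1)) (Fin (m + 1)) ℚ) :
    ZC m R {Lz (m + 1)} (Lz (m + 1)) (lm (re γ.1) A) (de2_cj γ ζ) ↔
      ZC m R {Lz (m + 1)} (Lz (m + 1)) A ζ := by
  rw [de2_zc, de2_zc, de2_cj_ne, de2_cj_sl, de2_cj_det, de2_bd]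

theorem de2_smul {n : ℕ} (t : ℝ) (ht : 0 < t) (A : Mt n) (Z : Matrix (Fin n) (Fin n) ℝ) :
    (Matrix.of (t • A))⁻¹ * (Z * Matrix.of (t • A)) = (Matrix.of A)⁻¹ * (Z * Matrix.of A) := by
  have h0 : Matrix.of (t • A) = t • Matrix.of A := rfl
  have h1 : (Matrix.of (t • A))⁻¹ = t⁻¹ • (Matrix.of A)⁻¹ := by
    by_cases h : IsUnit (Matrix.of A).det
    · apply Matrix.inv_eq_right_inv
      rw [h0, Matrix.smul_mul, Matrix.mul_smul, smul_smul, mul_inv_cancel₀ ht.ne', one_smul,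
        Matrix.mul_nonsing_inv _ h]
    · have h2 : ¬ IsUnit (Matrix.of (t • A)).det := by
        rw [h0, Matrix.det_smul]
        intro h3
        exact h (isUnit_of_mul_isUnit_right h3)
      rw [Matrix.nonsing_inv_apply_not_isUnit _ h, Matrix.nonsing_inv_apply_not_isUnit _ h2,
        smul_zero]
  rw [h1, h0, Matrix.mul_smul, Matrix.smul_mul, Matrix.mul_smul, smul_smul,
    inv_mul_cancel₀ ht.ne', one_smul]

theorem ZS_isInv_pr (m q : ℕ) (R : ℝ) :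
    IsInv m 1 (ZS m q R {Lz (m + 1)} (Lz (m + 1))) := by
  classical
  refine ⟨ZS_meas_pr m q R _ _, fun γ _ A => ?_, fun t A ht => ?_⟩
  · unfold ZS
    rw [← (de2_cj γ).tsum_eq]
    refine tsum_congr fun ζ => ?_
    by_cases h : ZC m R {Lz (m + 1)} (Lz (m + 1)) A ζ
    · rw [if_pos h, if_pos ((de2_zc_cj R γ A ζ).mpr h)]
      obtain ⟨_, ⟨g, hg⟩, _⟩ := (de2_zc R A ζ).mp h
      rw [hg, de2_Nx]
    · rw [if_neg h, if_neg (fun h' => h ((de2_zc_cj R γ A ζ).mp h'))]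
  · unfold ZS
    refine tsum_congr fun ζ => ?_
    have h : ZC m R {Lz (m + 1)} (Lz (m + 1)) (t • A) ζ ↔
        ZC m R {Lz (m + 1)} (Lz (m + 1)) A ζ := by
      rw [de2_zc, de2_zc, de2_smul t ht]
    simp only [h]

end

end Pool.Agent.SGB

namespace Pool.Agent.SGB

alias ZS_meas := ZS_meas_pr
alias ZS_isInv := ZS_isInv_pr

end Pool.Agent.SGB
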