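import Pool.Agent.Lib_helper56.SGB.Defs
import Pool.Agent.Lib_helper56.GLQ.F.W1
import Pool.Agent.Lib_helper56.SGB.F.DB
import Pool.Agent.Lib_helper56.SGB.F.DD
import Pool.Agent.Lib_helper56.SGB.F.DE1
import Pool.Agent.Lib_helper56.SGB.F.DE2
import Pool.Agent.Lib_helper56.SGB.F.HD

/-!
# Project SGN, part B: block DF (the trace inequality on lattices)
-/

set_option autoImplicit false

namespace Pool.Agent.SGB

open MeasureTheory Matrix
open Pool.Agent.RS (Mt lm SLZ)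
open Pool.Agent.GLQ (re unip cube slab Xp wN IN rm rr qq Lat latt Lz IsRed RY Om Box Kern IsInv Bd sp)
open Pool.Agent.SGN (md repR repL heckeT heckeA supS subS UW Wd lw nf WOk)
open scoped ENNReal

noncomputable section

theorem df_det_rr {n : ℕ} (δ : Matrix (Fin n) (Fin n) ℚ) : (rr δ).det = ((δ.det : ℚ) : ℝ) :=
  (RingHom.map_det (algebraMap ℚ ℝ) δ).symm

theorem df_pow (m : ℕ) {d : ℝ} (hd : 0 < d) :
    (d ^ (-(1 / ((m : ℝ) + 1)))) ^ (m + 1) * d = 1 := by
  rw [← Real.rpow_natCast, ← Real.rpow_mul hd.le]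
  have h1 : -(1 / ((m : ℝ) + 1)) * ((m + 1 : ℕ) : ℝ) = -1 := by
    push_cast
    field_simp
  rw [h1, Real.rpow_neg_one]
  exact inv_mul_cancel₀ hd.ne'

theorem df_det (m : ℕ) {δ : Matrix (Fin (m + 1)) (Fin (m + 1)) ℚ} (h : 0 < δ.det) :
    ((((δ.det : ℚ) : ℝ) ^ (-(1 / ((m : ℝ) + 1)))) • rr δ).det = 1 := by
  rw [Matrix.det_smul, df_det_rr, Fintype.card_fin]
  exact df_pow m (Rat.cast_pos.2 h)

/-- [TR] -/
theorem traceV_pr (m : ℕ) (hm : 1 ≤ m) (k0 : Mt (m + 1) → ℂ) (hk : Kern m k0) :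
    ∃ C R : ℝ, 0 ≤ C ∧ 1 ≤ R ∧ ∀ (q : ℕ) [NeZero q] (β : Type) [Fintype β] (f : β → Fm m q),
      (∀ b, Frm m q k0 (f b)) → (∀ b b', b ≠ b' → ipX m q (f b) (f b') = 0) →
      (∀ b, IX m q (nsX (f b)) ≠ 0) → ∀ u : Lat (m + 1) →₀ ℂ, (∀ L ∈ u.support, Ql q L) →
      ∀ X : β → ℂ, (∀ b, ∀ A : Mt (m + 1), 0 < (Matrix.of A).det → ∀ x : Fin (m + 1) → ZMod q,
        (u.sum fun L c => c * fV (f b) A x L) = X b * f b (Matrix.of A) x) →
      ∀ Ω : Set (Mt (m + 1)), MeasurableSet Ω →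
        ∑ b, ENNReal.ofReal (‖X b‖ ^ 2) * prp m q Ω (f b) ≤ ENNReal.ofReal C *
          ∑ L ∈ u.support, ENNReal.ofReal (‖u L‖ ^ 2) *
            ((q : ℝ≥0∞) ^ (m + 1) * IN m 1 (Ω.indicator fun _ => 1) +
              IN m 1 (Ω.indicator (ZS m q R u.support L))) := by
  obtain ⟨C, R, hC, hR, hmain⟩ := besselX m hm k0 hk
  refine ⟨C, R, hC, hR, ?_⟩
  intro q _ β _ f hf ho hne u hu X hX Ω hΩ
  have hpos : ∀ L ∈ u.support, 0 < (bas L).det := by
    intro L hL
    obtain ⟨d, hd, -, -⟩ := hu L hL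
    exact (bas_spec ⟨d, hd⟩).1
  have hw := Pool.Agent.GLQ.wN_meas_pr m 1
  have hn : ∀ b x, Measurable fun A => nsX (f b) A x := fun b => (pre_xinv (hf b).toPre).meas
  have hZ : ∀ L, Measurable fun A : Mt (m + 1) => ZS m q R u.support L A :=
    fun L => ZS_meas m q R u.support L
  -- the pointwise inequality
  have hpt : ∀ A ∈ Xp (m + 1), ∀ x : Fin (m + 1) → ZMod q,
      ∑ b, ENNReal.ofReal (‖X b‖ ^ 2) / IX m q (nsX (f b)) * nsX (f b) A x ≤
      ENNReal.ofReal C * ∑ i : u.support, ENNReal.ofReal (‖u i.1‖ ^ 2) *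
        multX m q R (ι := u.support)
          (fun M => ((((bas M.1).det : ℝ) ^ (-(1 / ((m : ℝ) + 1)))) • rr (bas M.1)))
          (fun M => rdq q (bas M.1)⁻¹) i A x := by
    intro A hA x
    have hA0 : 0 < (Matrix.of A).det := lt_of_lt_of_le one_pos hA.1
    have h1 := hmain q β f hf ho hne u.support
      (fun M => ((((bas M.1).det : ℝ) ^ (-(1 / ((m : ℝ) + 1)))) • rr (bas M.1)))
      (fun M => df_det m (hpos M.1 M.2)) (fun M => rdq q (bas M.1)⁻¹) (fun M => u M.1) A hA x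
    have h3 : ∀ b, ∑ i : u.support, u i.1 *
        f b ((((bas i.1).det : ℝ) ^ (-(1 / ((m : ℝ) + 1)))) • rr (bas i.1) * Matrix.of A)
          (x ᵥ* rdq q (bas i.1)⁻¹) = X b * f b (Matrix.of A) x := by
      intro b
      rw [← hX b A hA0 x, Finsupp.sum, ← Finset.sum_coe_sort u.support]
      refine Finset.sum_congr rfl fun i _ => ?_
      have h5 : (0 : ℝ) < ((bas i.1).det : ℝ) ^ (-(1 / ((m : ℝ) + 1))) :=
        Real.rpow_pos_of_pos (Rat.cast_pos.2 (hpos i.1 i.2)) _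
      rw [Matrix.smul_mul, (hf b).scal _ _ _ h5]
      rfl
    have h2 : ∀ b, ENNReal.ofReal (‖∑ i : u.support, u i.1 *
        f b ((((bas i.1).det : ℝ) ^ (-(1 / ((m : ℝ) + 1)))) • rr (bas i.1) * Matrix.of A)
          (x ᵥ* rdq q (bas i.1)⁻¹)‖ ^ 2) / IX m q (nsX (f b)) =
        ENNReal.ofReal (‖X b‖ ^ 2) / IX m q (nsX (f b)) * nsX (f b) A x := by
      intro b
      rw [h3 b, norm_mul, mul_pow, ENNReal.ofReal_mul (by positivity), nsX,
        ENNReal.mul_div_right_comm]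
    simp only [h2] at h1
    exact h1
  -- summation over `x`
  have hsum : ∀ A ∈ Xp (m + 1),
      ∑ b, ENNReal.ofReal (‖X b‖ ^ 2) / IX m q (nsX (f b)) * ∑ x, nsX (f b) A x ≤
      ENNReal.ofReal C * ∑ L ∈ u.support, ENNReal.ofReal (‖u L‖ ^ 2) *
        ((q : ℝ≥0∞) ^ (m + 1) + ZS m q R u.support L A) := by
    intro A hA
    have hA0 : 0 < (Matrix.of A).det := lt_of_lt_of_le one_pos hA.1
    calc ∑ b, ENNReal.ofReal (‖X b‖ ^ 2) / IX m q (nsX (f b)) * ∑ x, nsX (f b) A x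
        = ∑ x, ∑ b, ENNReal.ofReal (‖X b‖ ^ 2) / IX m q (nsX (f b)) * nsX (f b) A x := by
          rw [Finset.sum_comm]
          exact Finset.sum_congr rfl fun b _ => Finset.mul_sum _ _ _
      _ ≤ ∑ x : Fin (m + 1) → ZMod q, ENNReal.ofReal C * ∑ i : u.support,
            ENNReal.ofReal (‖u i.1‖ ^ 2) * multX m q R (ι := u.support)
              (fun M => ((((bas M.1).det : ℝ) ^ (-(1 / ((m : ℝ) + 1)))) • rr (bas M.1)))
              (fun M => rdq q (bas M.1)⁻¹) i A x := Finset.sum_le_sum fun x _ => hpt A hA x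
      _ = ENNReal.ofReal C * ∑ i : u.support, ENNReal.ofReal (‖u i.1‖ ^ 2) *
            ∑ x : Fin (m + 1) → ZMod q, multX m q R (ι := u.support)
              (fun M => ((((bas M.1).det : ℝ) ^ (-(1 / ((m : ℝ) + 1)))) • rr (bas M.1)))
              (fun M => rdq q (bas M.1)⁻¹) i A x := by
          rw [← Finset.mul_sum, Finset.sum_comm]
          congr 1
          exact Finset.sum_congr rfl fun i _ => (Finset.mul_sum _ _ _).symm
      _ ≤ ENNReal.ofReal C * ∑ i : u.support, ENNReal.ofReal (‖u i.1‖ ^ 2) *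
            ((q : ℝ≥0∞) ^ (m + 1) + ZS m q R u.support i.1 A) := by
          refine mul_le_mul' le_rfl (Finset.sum_le_sum fun i _ => mul_le_mul' le_rfl ?_)
          exact multX_sum m q R hR u.support hu i A hA0
      _ = _ := by
          rw [← Finset.sum_coe_sort u.support]
  -- integration
  have h3 : ∀ b, Measurable fun A => wN m 1 A * ∑ x, ind Ω (nsX (f b)) A x := by
    intro b
    refine hw.mul (Finset.measurable_fun_sum _ fun x _ => ?_)
    exact (hn b x).indicator hΩ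
  have h1 : ∑ b, ENNReal.ofReal (‖X b‖ ^ 2) * prp m q Ω (f b) =
      ∫⁻ A in Xp (m + 1), ∑ b, ENNReal.ofReal (‖X b‖ ^ 2) / IX m q (nsX (f b)) *
        (wN m 1 A * ∑ x, ind Ω (nsX (f b)) A x) := by
    rw [lintegral_finsetSum _ fun b _ => (h3 b).const_mul _]
    refine Finset.sum_congr rfl fun b _ => ?_
    rw [lintegral_const_mul _ (h3 b), prp, ENNReal.div_eq_inv_mul, ENNReal.div_eq_inv_mul,
      mul_left_comm, mul_assoc]
    rfl
  have h5 : Measurable fun A => wN m 1 A * Ω.indicator (fun _ => (1 : ℝ≥0∞)) A :=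
    hw.mul (measurable_const.indicator hΩ)
  have h6 : ∀ L, Measurable fun A => wN m 1 A * Ω.indicator (ZS m q R u.support L) A :=
    fun L => hw.mul ((hZ L).indicator hΩ)
  have h7 : ∀ L, Measurable fun A =>
      (q : ℝ≥0∞) ^ (m + 1) * (wN m 1 A * Ω.indicator (fun _ => (1 : ℝ≥0∞)) A) +
      wN m 1 A * Ω.indicator (ZS m q R u.support L) A :=
    fun L => (h5.const_mul _).add (h6 L)
  have h8 : Measurable fun A => ∑ L ∈ u.support, ENNReal.ofReal (‖u L‖ ^ 2) *
      ((q : ℝ≥0∞) ^ (m + 1) * (wN m 1 A * Ω.indicator (fun _ => (1 : ℝ≥0∞)) A) +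
      wN m 1 A * Ω.indicator (ZS m q R u.support L) A) :=
    Finset.measurable_fun_sum _ fun L _ => (h7 L).const_mul _
  have h2 : ENNReal.ofReal C * ∑ L ∈ u.support, ENNReal.ofReal (‖u L‖ ^ 2) *
            ((q : ℝ≥0∞) ^ (m + 1) * IN m 1 (Ω.indicator fun _ => 1) +
              IN m 1 (Ω.indicator (ZS m q R u.support L))) =
      ∫⁻ A in Xp (m + 1), ENNReal.ofReal C * ∑ L ∈ u.support, ENNReal.ofReal (‖u L‖ ^ 2) *
      ((q : ℝ≥0∞) ^ (m + 1) * (wN m 1 A * Ω.indicator (fun _ => (1 : ℝ≥0∞)) A) +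
      wN m 1 A * Ω.indicator (ZS m q R u.support L) A) := by
    rw [lintegral_const_mul _ h8, lintegral_finsetSum _ fun L _ => (h7 L).const_mul _]
    congr 1
    refine Finset.sum_congr rfl fun L _ => ?_
    rw [lintegral_const_mul _ (h7 L), lintegral_add_left (h5.const_mul _),
      lintegral_const_mul _ h5]
    rfl
  rw [h1, h2]
  refine setLIntegral_mono (h8.const_mul _) ?_
  intro A hA
  by_cases hAΩ : A ∈ Ω
  · simp only [Set.indicator_of_mem hAΩ, ind]
    calc _ = wN m 1 A * ∑ b, ENNReal.ofReal (‖X b‖ ^ 2) / IX m q (nsX (f b)) *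
          ∑ x, nsX (f b) A x := by
          rw [Finset.mul_sum]
          refine Finset.sum_congr rfl fun b _ => ?_
          rw [mul_left_comm]
      _ ≤ wN m 1 A * (ENNReal.ofReal C * ∑ L ∈ u.support, ENNReal.ofReal (‖u L‖ ^ 2) *
        ((q : ℝ≥0∞) ^ (m + 1) + ZS m q R u.support L A)) := mul_le_mul' le_rfl (hsum A hA)
      _ = _ := by
          rw [mul_left_comm, Finset.mul_sum]
          congr 1
          refine Finset.sum_congr rfl fun L _ => ?_
          ring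
  · simp only [Set.indicator_of_notMem hAΩ, ind, mul_zero, Finset.sum_const_zero]
    exact zero_le

end

end Pool.Agent.SGB

namespace Pool.Agent.SGB

alias traceV := traceV_pr

end Pool.Agent.SGB
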