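import Pool.Agent.Lib_helper56.SGB.Defs
import Pool.Agent.Lib_helper56.SGB.F.HA2
import Pool.Agent.Lib_helper56.SGB.F.HB
import Pool.Agent.Lib_helper56.SGB.F.HD
import Pool.Agent.Lib_helper56.SGB.F.HE2
import Pool.Agent.Lib_helper56.SGB.F.HF1
import Pool.Agent.Lib_helper56.SGB.F.HF2
/-! # SGB, block HG: values at lattices, Hecke operators -/

set_option autoImplicit false

namespace Pool.Agent.SGB

open MeasureTheory Matrix
open Pool.Agent.RS (Mt lm SLZ)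
open Pool.Agent.GLQ (re unip cube slab Xp wN IN rm rr qq Lat latt Lz IsRed RY Om Box Kern IsInv Bd sp)
open Pool.Agent.SGN (md repR repL heckeT heckeA supS subS UW Wd lw nf WOk)
open scoped ENNReal

noncomputable section

theorem hg_rr_mul {n : ℕ} (X Y : Matrix (Fin n) (Fin n) ℚ) : rr (X * Y) = rr X * rr Y := by
  unfold rr
  ext i j
  simp [Matrix.mul_apply]

theorem hg_rr_one {n : ℕ} : rr (1 : Matrix (Fin n) (Fin n) ℚ) = 1 := by
  unfold rr
  ext i j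
  by_cases h : i = j
  · subst h
    simp
  · simp [h]

theorem hg_rr_qq {n : ℕ} (Z : Matrix (Fin n) (Fin n) ℤ) : rr (qq Z) = re Z := by
  unfold rr qq re
  ext i j
  simp

theorem hg_rr_inv {n : ℕ} (X : Matrix (Fin n) (Fin n) ℚ) (h : X.det ≠ 0) :
    rr X⁻¹ = (rr X)⁻¹ := by
  symm
  apply Matrix.inv_eq_left_inv
  rw [← hg_rr_mul, Matrix.nonsing_inv_mul _ (isUnit_iff_ne_zero.mpr h), hg_rr_one]

theorem hg_qq_det {n : ℕ} (T : Matrix (Fin n) (Fin n) ℤ) : (qq T).det = (T.det : ℚ) := by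
  have h := (Int.castRingHom ℚ).map_det T
  simp only [eq_intCast] at h
  rw [h]
  rfl

theorem hg_md_one {n : ℕ} (q : ℕ) : md q (1 : Matrix (Fin n) (Fin n) ℤ) = 1 := by
  unfold md
  ext i j
  by_cases h : i = j
  · subst h
    simp
  · simp [h]

theorem hg_qq_one {n : ℕ} : qq (1 : Matrix (Fin n) (Fin n) ℤ) = 1 := by
  unfold qq
  ext i j
  by_cases h : i = j
  · subst h
    simp
  · simp [h]

theorem hg_rdq_one {n : ℕ} (q : ℕ) : rdq q (1 : Matrix (Fin n) (Fin n) ℚ) = 1 := by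
  rw [← hg_qq_one, rdq_qq, hg_md_one]

theorem hg_rr_det {n : ℕ} (X : Matrix (Fin n) (Fin n) ℚ) : (rr X).det = (X.det : ℝ) := by
  have h := (Rat.castHom ℝ).map_det X
  simp only [eq_ratCast] at h
  rw [h]
  rfl

theorem fV_eq_pr {m q : ℕ} {f : Fm m q} (hf : Pre m q f) {L : Lat (m + 1)} (hL : Ql q L)
    {d : Matrix (Fin (m + 1)) (Fin (m + 1)) ℚ} (hd : IsB d L) (A : Mt (m + 1))
    (x : Fin (m + 1) → ZMod q) :
    fV f A x L = f (rr d * Matrix.of A) (x ᵥ* rdq q d⁻¹) := by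
  have hb : IsB (bas L) L := bas_spec ⟨d, hd⟩
  obtain ⟨T, hT, _, _, hT1⟩ := IsB_qq hb hd le_rfl
  have hdet : T.det = 1 := by
    rw [AddSubgroup.relIndex_self] at hT1
    have : 0 < T.det := by assumption
    omega
  set γ : SLZ (m + 1) := ⟨T, hdet⟩ with hγ
  have hb0 : (bas L).det ≠ 0 := hb.1.ne'
  have e1 : rr d = re γ.1 * rr (bas L) := by
    rw [hT, hg_rr_mul, hg_rr_qq]
  have e2 : rdq q d⁻¹ * md q γ.1 = rdq q (bas L)⁻¹ := by
    rw [← rdq_qq, ← rdq_mul (Ql_basis hL hd).2 (QI_qq q _)]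
    congr 1
    have hu : IsUnit (qq T).det := by
      rw [hg_qq_det, hdet]
      simp
    have h1 : d⁻¹ = (bas L)⁻¹ * (qq T)⁻¹ := by rw [hT, Matrix.mul_inv_rev]
    show d⁻¹ * qq T = (bas L)⁻¹
    rw [h1, Matrix.mul_assoc, Matrix.nonsing_inv_mul _ hu, Matrix.mul_one]
  unfold fV
  rw [e1, Matrix.mul_assoc, hf.inv γ, Matrix.vecMul_vecMul, e2]

theorem hg_isB {n k : ℕ} {d : Matrix (Fin n) (Fin n) ℚ} {a : Matrix (Fin n) (Fin n) ℤ}
    (hk : 1 ≤ k) (ha : a.det = k) (hd : 0 < d.det) : 0 < ((qq a)⁻¹ * d).det := by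
  rw [Matrix.det_mul, Matrix.det_nonsing_inv, hg_qq_det, ha, Ring.inverse_eq_inv']
  have : (0 : ℚ) < (k : ℚ) := by exact_mod_cast hk
  push_cast
  positivity

theorem hg_cop {n k q : ℕ} (hkq : k.Coprime q) {a : Matrix (Fin n) (Fin n) ℤ}
    (ha : a.det = k) : a.det.natAbs.Coprime q := by
  rw [ha, Int.natAbs_natCast]
  exact hkq

theorem fV_up_pr {m q : ℕ} [NeZero q] {k0 : Mt (m + 1) → ℂ} {f : Fm m q} {lam : ℕ → ℂ}
    (hf : Eg m q k0 f lam) {k : ℕ} (hk : 1 ≤ k) (hkq : k.Coprime q) {L : Lat (m + 1)}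
    (hL : Ql q L) (A : Mt (m + 1)) (hA : 0 < (Matrix.of A).det) (x : Fin (m + 1) → ZMod q) :
    ∑ M ∈ supS k L, fV f A x M = (((k : ℝ) ^ ((m : ℝ) / 2) : ℝ) : ℂ) * lam k * fV f A x L := by
  obtain ⟨d, hd, hq1, hq2⟩ := hL
  have hL : Ql q L := ⟨d, hd, hq1, hq2⟩
  have hd0 : d.det ≠ 0 := hd.1.ne'
  have h1 : ∀ a ∈ repR (m + 1) k, fV f A x (latt ((qq (Matrix.of a))⁻¹ * d)) =
      f ((re (Matrix.of a))⁻¹ * (rr d * Matrix.of A))
        ((x ᵥ* rdq q d⁻¹) ᵥ* md q (Matrix.of a)) := by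
    intro a ha
    have hdet := det_repR ha
    have hdz : (Matrix.of a).det ≠ 0 := by
      rw [hdet]
      exact_mod_cast (by omega : k ≠ 0)
    have hc := hg_cop hkq hdet
    have hqa : QI q (qq (Matrix.of a))⁻¹ := QI_inv _ hc hdz
    have hqdet : (qq (Matrix.of a)).det ≠ 0 := by
      rw [hg_qq_det]
      exact_mod_cast hdz
    have hB : IsB ((qq (Matrix.of a))⁻¹ * d) (latt ((qq (Matrix.of a))⁻¹ * d)) :=
      ⟨hg_isB hk hdet hd.1, rfl⟩
    have hinv : ((qq (Matrix.of a))⁻¹ * d)⁻¹ = d⁻¹ * qq (Matrix.of a) := by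
      rw [Matrix.mul_inv_rev, Matrix.nonsing_inv_nonsing_inv _ (isUnit_iff_ne_zero.mpr hqdet)]
    have hQ : Ql q (latt ((qq (Matrix.of a))⁻¹ * d)) := by
      refine ⟨_, hB, QI_mul hqa hq1, ?_⟩
      rw [hinv]
      exact QI_mul hq2 (QI_qq q _)
    rw [fV_eq_pr hf.toFrm.toPre hQ hB, hinv, rdq_mul hq2 (QI_qq q _), rdq_qq, hg_rr_mul,
      hg_rr_inv _ hqdet, hg_rr_qq, Matrix.mul_assoc, Matrix.vecMul_vecMul]
  have h2 := hf.up k hk (rr d * Matrix.of A) (x ᵥ* rdq q d⁻¹) (by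
    rw [Matrix.det_mul, hg_rr_det]
    have : (0 : ℝ) < (d.det : ℝ) := by exact_mod_cast hd.1
    positivity)
  have hLd : L = latt d := hd.2.symm
  have h3 : ∑ M ∈ supS k L, fV f A x M =
      ∑ a ∈ repR (m + 1) k, fV f A x (latt ((qq (Matrix.of a))⁻¹ * d)) := by
    rw [hLd]
    exact sum_supS hk _ d hd.1
  rw [h3, Finset.sum_congr rfl h1, fV_eq_pr hf.toFrm.toPre hL hd]
  exact h2

theorem fV_dn_pr {m q : ℕ} [NeZero q] {k0 : Mt (m + 1) → ℂ} {f : Fm m q} {lam : ℕ → ℂ}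
    (hf : Eg m q k0 f lam) {k : ℕ} (hk : 1 ≤ k) (hkq : k.Coprime q) {L : Lat (m + 1)}
    (hL : Ql q L) (A : Mt (m + 1)) (hA : 0 < (Matrix.of A).det) (x : Fin (m + 1) → ZMod q) :
    ∑ M ∈ subS k L, fV f A x M =
      (((k : ℝ) ^ ((m : ℝ) / 2) : ℝ) : ℂ) * (starRingEnd ℂ) (lam k) * fV f A x L := by
  obtain ⟨d, hd, hq1, hq2⟩ := hL
  have hL : Ql q L := ⟨d, hd, hq1, hq2⟩
  have hd0 : d.det ≠ 0 := hd.1.ne'
  have h1 : ∀ a ∈ repL (m + 1) k, fV f A x (latt (qq (Matrix.of a) * d)) =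
      ∑ y : Fin (m + 1) → ZMod q, if y ᵥ* md q (Matrix.of a) = x ᵥ* rdq q d⁻¹ then
        f (re (Matrix.of a) * (rr d * Matrix.of A)) y else 0 := by
    intro a ha
    have hdet := det_repL ha
    have hdz : (Matrix.of a).det ≠ 0 := by
      rw [hdet]
      exact_mod_cast (by omega : k ≠ 0)
    have hc := hg_cop hkq hdet
    have hqa : QI q (qq (Matrix.of a))⁻¹ := QI_inv _ hc hdz
    have hqdet : (qq (Matrix.of a)).det ≠ 0 := by
      rw [hg_qq_det]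
      exact_mod_cast hdz
    have hu := isUnit_iff_ne_zero.mpr hqdet
    have hB : IsB (qq (Matrix.of a) * d) (latt (qq (Matrix.of a) * d)) := by
      refine ⟨?_, rfl⟩
      rw [Matrix.det_mul, hg_qq_det, hdet]
      have h5 : (0 : ℚ) < (k : ℚ) := by exact_mod_cast hk
      have h6 := hd.1
      push_cast
      positivity
    have hinv : (qq (Matrix.of a) * d)⁻¹ = d⁻¹ * (qq (Matrix.of a))⁻¹ := Matrix.mul_inv_rev _ _
    have hQ : Ql q (latt (qq (Matrix.of a) * d)) := by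
      refine ⟨_, hB, QI_mul (QI_qq q _) hq1, ?_⟩
      rw [hinv]
      exact QI_mul hq2 hqa
    rw [fV_eq_pr hf.toFrm.toPre hQ hB, hinv, rdq_mul hq2 hqa, hg_rr_mul, hg_rr_qq,
      Matrix.mul_assoc]
    have hm1 : rdq q (qq (Matrix.of a))⁻¹ * md q (Matrix.of a) = 1 := by
      rw [← rdq_qq, ← rdq_mul hqa (QI_qq q _), Matrix.nonsing_inv_mul _ hu, hg_rdq_one]
    have hm2 : md q (Matrix.of a) * rdq q (qq (Matrix.of a))⁻¹ = 1 := by
      rw [← rdq_qq, ← rdq_mul (QI_qq q _) hqa, Matrix.mul_nonsing_inv _ hu, hg_rdq_one]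
    have hiff : ∀ y : Fin (m + 1) → ZMod q,
        (y ᵥ* md q (Matrix.of a) = x ᵥ* rdq q d⁻¹) ↔
          y = x ᵥ* (rdq q d⁻¹ * rdq q (qq (Matrix.of a))⁻¹) := by
      intro y
      constructor
      · intro h
        rw [← Matrix.vecMul_vecMul, ← h, Matrix.vecMul_vecMul, hm2, Matrix.vecMul_one]
      · rintro rfl
        rw [Matrix.vecMul_vecMul, Matrix.mul_assoc, hm1, Matrix.mul_one]
    simp only [hiff]
    rw [Finset.sum_ite_eq' Finset.univ]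
    simp
  have h2 := hf.dn k hk (rr d * Matrix.of A) (x ᵥ* rdq q d⁻¹) (by
    rw [Matrix.det_mul, hg_rr_det]
    have : (0 : ℝ) < (d.det : ℝ) := by exact_mod_cast hd.1
    positivity)
  have hLd : L = latt d := hd.2.symm
  have h3 : ∑ M ∈ subS k L, fV f A x M =
      ∑ a ∈ repL (m + 1) k, fV f A x (latt (qq (Matrix.of a) * d)) := by
    rw [hLd]
    exact sum_subS hk _ d hd.1
  rw [h3, Finset.sum_congr rfl h1, fV_eq_pr hf.toFrm.toPre hL hd, ← h2]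
  unfold heckeA
  refine Finset.sum_congr rfl fun a _ => Finset.sum_congr rfl fun y _ => ?_
  congr

end

end Pool.Agent.SGB

namespace Pool.Agent.SGB

alias fV_eq := fV_eq_pr
alias fV_up := fV_up_pr
alias fV_dn := fV_dn_pr

end Pool.Agent.SGB
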