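import Pool.Agent.Lib_helper56.SGB.Defs
import Pool.Agent.Lib_helper56.SGB.F.HF1
import Pool.Agent.Lib_helper56.SGB.F.HF2
import Pool.Agent.Lib_helper56.SGB.F.HG

set_option autoImplicit false

namespace Pool.Agent.SGB

open MeasureTheory Matrix
open Pool.Agent.RS (Mt lm SLZ)
open Pool.Agent.GLQ (re unip cube slab Xp wN IN rm rr qq Lat latt Lz IsRed RY Om Box Kern IsInv Bd sp)
open Pool.Agent.SGN (md repR repL heckeT heckeA supS subS UW Wd lw nf WOk)
open scoped ENNReal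

noncomputable section

open Classical in
theorem hh_sp_apply {V : Type} (nb : V → Finset V) (f : V →₀ ℕ) (M : V) :
    sp nb f M = f.sum fun L c => if M ∈ nb L then c else 0 := by
  unfold sp Finsupp.sum
  rw [Finsupp.finsetSum_apply]
  refine Finset.sum_congr rfl fun L _ => ?_
  rw [Finsupp.finsetSum_apply]
  simp only [Finsupp.single_apply]
  rw [Finset.sum_ite_eq' (nb L) M fun _ => f L]

/-- supports of `sp` -/
theorem hh_sp_supp {V : Type} (nb : V → Finset V) (f : V →₀ ℕ) (M : V) (h : sp nb f M ≠ 0) :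
    ∃ L, f L ≠ 0 ∧ M ∈ nb L := by
  classical
  rw [hh_sp_apply] at h
  unfold Finsupp.sum at h
  obtain ⟨L, hL, hne⟩ := Finset.exists_ne_zero_of_sum_ne_zero h
  refine ⟨L, Finsupp.mem_support_iff.mp hL, ?_⟩
  by_contra hM
  exact hne (if_neg hM)

/-- values of `sp` -/
theorem hh_sp_sum {V : Type} (nb : V → Finset V) (f : V →₀ ℕ) (g : V → ℂ) :
    ((sp nb f).sum fun L c => (c : ℂ) * g L) =
      f.sum fun L c => (c : ℂ) * ∑ M ∈ nb L, g M := by
  have h0 : ∀ a : V, (((0 : ℕ) : ℂ) * g a) = 0 := by simp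
  have h1 : ∀ (a : V) (b₁ b₂ : ℕ), (((b₁ + b₂ : ℕ) : ℂ) * g a) =
      (b₁ : ℂ) * g a + (b₂ : ℂ) * g a := by
    intro a b₁ b₂
    push_cast
    ring
  unfold sp
  rw [Finsupp.sum_sum_index h0 h1]
  refine Finset.sum_congr rfl fun L _ => ?_
  show Finsupp.sum (∑ M ∈ nb L, Finsupp.single M (f L)) (fun L c => (c : ℂ) * g L) =
    (f L : ℂ) * ∑ M ∈ nb L, g M
  rw [← Finsupp.sum_finsetSum_index h0 h1, Finset.mul_sum]
  refine Finset.sum_congr rfl fun M _ => ?_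
  rw [Finsupp.sum_single_index (by simp)]

/-- the part of the `T_b^*` -/
theorem hh_dn_Ql {m q : ℕ} : ∀ l : List ℕ, (∀ b ∈ l, 1 ≤ b ∧ Nat.Coprime b q) →
    ∀ L : Lat (m + 1), l.foldr (fun b f => sp (subS b) f) (Finsupp.single (Lz (m + 1)) 1) L ≠ 0 →
      Ql q L
  | [], _, L, h => by
      classical
      simp only [List.foldr_nil, Finsupp.single_apply] at h
      split_ifs at h with hL
      · exact hL ▸ Ql_Lz (m + 1) q
      · exact absurd rfl h
  | b :: l, hl, L, h => by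
      rw [List.foldr_cons] at h
      obtain ⟨L', hL', hM⟩ := hh_sp_supp _ _ _ h
      have hb := hl b (by simp)
      exact Ql_subS hb.1 hb.2 (hh_dn_Ql l (fun c hc => hl c (by simp [hc])) L' hL') hM

theorem hh_up_Ql {m q : ℕ} (l2 : List ℕ) (hl2 : ∀ b ∈ l2, 1 ≤ b ∧ Nat.Coprime b q) :
    ∀ l : List ℕ, (∀ b ∈ l, 1 ≤ b ∧ Nat.Coprime b q) →
    ∀ L : Lat (m + 1), l.foldr (fun a f => sp (supS a) f)
      (l2.foldr (fun b f => sp (subS b) f) (Finsupp.single (Lz (m + 1)) 1)) L ≠ 0 → Ql q L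
  | [], _, L, h => hh_dn_Ql l2 hl2 L h
  | b :: l, hl, L, h => by
      rw [List.foldr_cons] at h
      obtain ⟨L', hL', hM⟩ := hh_sp_supp _ _ _ h
      have hb := hl b (by simp)
      exact Ql_supS hb.1 hb.2 (hh_up_Ql l2 hl2 l (fun c hc => hl c (by simp [hc])) L' hL') hM

theorem UW_Ql_pr {m q : ℕ} {W : Wd} (hW : WOk q W) {L : Lat (m + 1)} (h : UW (m + 1) W L ≠ 0) :
    Ql q L :=
  hh_up_Ql W.2 hW.2 W.1 hW.1 L h

theorem hh_base {m q : ℕ} [NeZero q] {f : Fm m q} (hf : Pre m q f) (A : Mt (m + 1))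
    (x : Fin (m + 1) → ZMod q) : fV f A x (Lz (m + 1)) = f (Matrix.of A) x := by
  have hB : IsB (1 : Matrix (Fin (m + 1)) (Fin (m + 1)) ℚ) (Lz (m + 1)) :=
    ⟨by rw [Matrix.det_one]; norm_num, rfl⟩
  rw [fV_eq hf (Ql_Lz (m + 1) q) hB A x]
  have h1 : rr (1 : Matrix (Fin (m + 1)) (Fin (m + 1)) ℚ) = 1 := by
    unfold rr
    simp
  have h2 : rdq q (1 : Matrix (Fin (m + 1)) (Fin (m + 1)) ℚ)⁻¹ = 1 := by
    have h3 : (1 : Matrix (Fin (m + 1)) (Fin (m + 1)) ℚ)⁻¹ =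
        qq (1 : Matrix (Fin (m + 1)) (Fin (m + 1)) ℤ) := by
      unfold qq
      simp
    rw [h3, rdq_qq]
    unfold md
    simp
  rw [h1, h2, one_mul, Matrix.vecMul_one]

/-- one step: the sums of an operator with the eigenvalue `c` on lattices with property `Ql` -/
theorem hh_step {m q : ℕ} {g : Lat (m + 1) → ℂ} {nb : Lat (m + 1) → Finset (Lat (m + 1))} {c : ℂ}
    (F : Lat (m + 1) →₀ ℕ) (hF : ∀ L, F L ≠ 0 → Ql q L)
    (h : ∀ L, Ql q L → ∑ M ∈ nb L, g M = c * g L) :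
    ((sp nb F).sum fun L k => (k : ℂ) * g L) = c * F.sum fun L k => (k : ℂ) * g L := by
  rw [hh_sp_sum]
  unfold Finsupp.sum
  rw [Finset.mul_sum]
  refine Finset.sum_congr rfl fun L hL => ?_
  show (F L : ℂ) * ∑ M ∈ nb L, g M = c * ((F L : ℂ) * g L)
  rw [h L (hF L (Finsupp.mem_support_iff.mp hL))]
  ring

theorem hh_dn_val {m q : ℕ} [NeZero q] {k0 : Mt (m + 1) → ℂ} {f : Fm m q} {lam : ℕ → ℂ}
    (hf : Eg m q k0 f lam) (A : Mt (m + 1)) (hA : 0 < (Matrix.of A).det)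
    (x : Fin (m + 1) → ZMod q) : ∀ l : List ℕ, (∀ b ∈ l, 1 ≤ b ∧ Nat.Coprime b q) →
    ((l.foldr (fun b f => sp (subS b) f) (Finsupp.single (Lz (m + 1)) 1)).sum
      fun L c => (c : ℂ) * fV f A x L) =
      (((l.prod : ℝ) ^ ((m : ℝ) / 2) : ℝ) : ℂ) *
        (l.map fun b => (starRingEnd ℂ) (lam b)).prod * f (Matrix.of A) x
  | [], _ => by
      simp only [List.foldr_nil, List.prod_nil, List.map_nil]
      rw [Finsupp.sum_single_index (by simp), hh_base hf.toPre]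
      simp
  | b :: l, hl => by
      have hb := hl b (by simp)
      have hl' : ∀ c ∈ l, 1 ≤ c ∧ Nat.Coprime c q := fun c hc => hl c (by simp [hc])
      rw [List.foldr_cons]
      rw [hh_step (q := q) _ (hh_dn_Ql l hl') (fun L hL => fV_dn hf hb.1 hb.2 hL A hA x)]
      rw [hh_dn_val hf A hA x l hl']
      rw [List.prod_cons, List.map_cons, List.prod_cons]
      have hpow : (((b * l.prod : ℕ) : ℝ) ^ ((m : ℝ) / 2)) =
          ((b : ℝ) ^ ((m : ℝ) / 2)) * ((l.prod : ℝ) ^ ((m : ℝ) / 2)) := by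
        rw [Nat.cast_mul]
        exact Real.mul_rpow (Nat.cast_nonneg _) (Nat.cast_nonneg _)
      rw [hpow]
      push_cast
      ring

theorem hh_up_val {m q : ℕ} [NeZero q] {k0 : Mt (m + 1) → ℂ} {f : Fm m q} {lam : ℕ → ℂ}
    (hf : Eg m q k0 f lam) (A : Mt (m + 1)) (hA : 0 < (Matrix.of A).det)
    (x : Fin (m + 1) → ZMod q) (l2 : List ℕ) (hl2 : ∀ b ∈ l2, 1 ≤ b ∧ Nat.Coprime b q) :
    ∀ l : List ℕ, (∀ b ∈ l, 1 ≤ b ∧ Nat.Coprime b q) →
    ((l.foldr (fun a f => sp (supS a) f)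
      (l2.foldr (fun b f => sp (subS b) f) (Finsupp.single (Lz (m + 1)) 1))).sum
      fun L c => (c : ℂ) * fV f A x L) =
      ((((l.prod * l2.prod : ℕ) : ℝ) ^ ((m : ℝ) / 2) : ℝ) : ℂ) *
        ((l.map lam).prod * (l2.map fun b => (starRingEnd ℂ) (lam b)).prod) * f (Matrix.of A) x
  | [], _ => by
      rw [List.foldr_nil, hh_dn_val hf A hA x l2 hl2]
      simp
  | b :: l, hl => by
      have hb := hl b (by simp)
      have hl' : ∀ c ∈ l, 1 ≤ c ∧ Nat.Coprime c q := fun c hc => hl c (by simp [hc])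
      rw [List.foldr_cons]
      rw [hh_step (q := q) _ (hh_up_Ql l2 hl2 l hl')
        (fun L hL => fV_up hf hb.1 hb.2 hL A hA x)]
      rw [hh_up_val hf A hA x l2 hl2 l hl']
      rw [List.prod_cons, List.map_cons, List.prod_cons]
      have hpow : (((b * l.prod * l2.prod : ℕ) : ℝ) ^ ((m : ℝ) / 2)) =
          ((b : ℝ) ^ ((m : ℝ) / 2)) * (((l.prod * l2.prod : ℕ) : ℝ) ^ ((m : ℝ) / 2)) := by
        rw [mul_assoc, Nat.cast_mul]
        exact Real.mul_rpow (Nat.cast_nonneg _) (Nat.cast_nonneg _)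
      rw [hpow]
      push_cast
      ring

/-- the value of a word at an eigenform -/
theorem UW_val_pr {m q : ℕ} [NeZero q] {k0 : Mt (m + 1) → ℂ} {f : Fm m q} {lam : ℕ → ℂ}
    (hf : Eg m q k0 f lam) {W : Wd} (hW : WOk q W) (A : Mt (m + 1))
    (hA : 0 < (Matrix.of A).det) (x : Fin (m + 1) → ZMod q) :
    ((UW (m + 1) W).sum fun L c => (c : ℂ) * fV f A x L) =
      (((Pool.Agent.SGN.wt W : ℝ) ^ ((m : ℝ) / 2) : ℝ) : ℂ) * lw lam W * f (Matrix.of A) x := by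
  have h := hh_up_val hf A hA x W.2 hW.2 W.1 hW.1
  exact h

end

end Pool.Agent.SGB

namespace Pool.Agent.SGB

alias UW_Ql := UW_Ql_pr
alias UW_val := UW_val_pr

end Pool.Agent.SGB
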