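import Pool.Agent.Lib_helper56.SGB.Defs
import Pool.Agent.Lib_helper56.SGB.F.KE

/-!
# Project SGN, part B, block KF: from the eigenforms of the theorem to `Eg`
-/

set_option autoImplicit false

namespace Pool.Agent.SGB

open MeasureTheory Matrix
open Pool.Agent.RS (Mt lm SLZ)
open Pool.Agent.GLQ (re unip cube slab Xp wN IN rm rr qq Lat latt Lz IsRed RY Om Box Kern IsInv Bd sp)
open Pool.Agent.SGN (md repR repL heckeT heckeA supS subS UW Wd lw nf WOk)
open scoped ENNReal

noncomputable section

/-! ### the kernel -/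

theorem kf_det_cont (n : ℕ) : Continuous fun h : Mt n => (Matrix.of h).det := by
  exact Continuous.matrix_det (continuous_id)

open Classical in
/-- twice the kernel on `det > 0` -/
def kf_k0 {n : ℕ} (k : Mt n → ℝ) (h : Mt n) : ℂ :=
  if 0 < (Matrix.of h).det then ((2 * k h : ℝ) : ℂ) else 0

theorem kf_zero {n : ℕ} {k : Mt n → ℝ} (hk : tsupport k ⊆ {h | (Matrix.of h).det ≠ 0})
    {h : Mt n} (hh : (Matrix.of h).det = 0) : k h = 0 := by
  by_contra hne
  exact hk (subset_tsupport k hne) hh

theorem kf_cross {n : ℕ} {k : Mt n → ℝ} {C : NNReal} (hC : LipschitzWith C k)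
    (hk : tsupport k ⊆ {h | (Matrix.of h).det ≠ 0}) {x y : Mt n}
    (hx : 0 < (Matrix.of x).det) (hy : ¬ 0 < (Matrix.of y).det) :
    |k x| ≤ C * dist x y := by
  -- a point of the segment with determinant `0`
  let p : ℝ → Mt n := fun t => x + t • (y - x)
  have hp : Continuous p := by fun_prop
  have hc : ContinuousOn (fun t : ℝ => (Matrix.of (p t)).det) (Set.Icc 0 1) :=
    ((kf_det_cont n).comp hp).continuousOn
  have h0 : p 0 = x := by simp [p]
  have h1 : p 1 = y := by simp [p]
  have hmem : (0 : ℝ) ∈ Set.Icc ((Matrix.of (p 1)).det) ((Matrix.of (p 0)).det) := by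
    rw [h0, h1]
    exact ⟨not_lt.1 hy, hx.le⟩
  obtain ⟨t, ht, ht0⟩ := intermediate_value_Icc' (zero_le_one' ℝ) hc hmem
  have h2 : k (p t) = 0 := kf_zero hk ht0
  have h3 := hC.dist_le_mul x (p t)
  rw [h2, Real.dist_eq, sub_zero] at h3
  have h4 : dist x (p t) ≤ dist x y := by
    have e : x - p t = t • (x - y) := by
      simp only [p]
      rw [smul_sub, smul_sub]
      abel
    rw [dist_eq_norm, dist_eq_norm, e, norm_smul, Real.norm_eq_abs, abs_of_nonneg ht.1]
    exact mul_le_of_le_one_left (norm_nonneg _) ht.2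
  exact h3.trans (mul_le_mul_of_nonneg_left h4 C.2)

theorem kf_lip {n : ℕ} {k : Mt n → ℝ} {C : NNReal} (hC : LipschitzWith C k)
    (hk : tsupport k ⊆ {h | (Matrix.of h).det ≠ 0}) : LipschitzWith (2 * C) (kf_k0 k) := by
  refine LipschitzWith.of_dist_le_mul fun x y => ?_
  have hcoe : ((2 * C : NNReal) : ℝ) = 2 * (C : ℝ) := by push_cast; ring
  rw [hcoe, dist_eq_norm]
  unfold kf_k0
  by_cases hx : 0 < (Matrix.of x).det
  · by_cases hy : 0 < (Matrix.of y).det
    · rw [if_pos hx, if_pos hy, ← Complex.ofReal_sub, Complex.norm_real, Real.norm_eq_abs,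
        ← mul_sub, abs_mul, abs_two, mul_assoc]
      have h := hC.dist_le_mul x y
      rw [Real.dist_eq] at h
      linarith
    · rw [if_pos hx, if_neg hy, sub_zero, Complex.norm_real, Real.norm_eq_abs, abs_mul, abs_two,
        mul_assoc]
      have h := kf_cross hC hk hx hy
      linarith
  · by_cases hy : 0 < (Matrix.of y).det
    · rw [if_neg hx, if_pos hy, zero_sub, norm_neg, Complex.norm_real, Real.norm_eq_abs, abs_mul,
        abs_two, mul_assoc]
      have h := kf_cross hC hk hy hx
      rw [dist_comm] at h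
      linarith
    · rw [if_neg hx, if_neg hy, sub_zero, norm_zero]
      positivity

theorem kf_supp {n : ℕ} (k : Mt n → ℝ) : Function.support (kf_k0 k) ⊆ Function.support k := by
  intro x hx
  rw [Function.mem_support] at hx ⊢
  intro h
  apply hx
  unfold kf_k0
  rw [h]
  simp

theorem kf_kern {m : ℕ} {k : Mt (m + 1) → ℝ} (hL : ∃ C, LipschitzWith C k)
    (hc : HasCompactSupport k) (hk : tsupport k ⊆ {h | (Matrix.of h).det ≠ 0}) :
    Kern m (kf_k0 k) := by
  obtain ⟨C, hC⟩ := hL
  refine ⟨⟨2 * C, kf_lip hC hk⟩, hc.mono (kf_supp k), ?_⟩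
  have h1 : tsupport (kf_k0 k) ⊆ tsupport k := closure_mono (kf_supp k)
  have h2 : tsupport (kf_k0 k) ⊆ {h | 0 ≤ (Matrix.of h).det} := by
    refine closure_minimal ?_ (isClosed_le continuous_const (kf_det_cont (m + 1)))
    intro x hx
    rw [Function.mem_support] at hx
    by_contra hneg
    apply hx
    unfold kf_k0
    rw [if_neg]
    intro h
    exact hneg h.le
  intro x hx
  exact lt_of_le_of_ne (h2 hx) (Ne.symm (hk (h1 hx)))

/-! ### the reflection -/

/-- the sign of a coordinate -/
def kf_s {m : ℕ} (j : Fin (m + 1)) : ℝ := if j = 0 then -1 else 1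

theorem kf_s_sq {m : ℕ} (j : Fin (m + 1)) : kf_s j * kf_s j = 1 := by
  unfold kf_s
  split_ifs <;> norm_num

/-- the reflection `diag(-1, 1, …, 1)` -/
def kf_J (m : ℕ) : Matrix (Fin (m + 1)) (Fin (m + 1)) ℝ := Matrix.diagonal kf_s

theorem kf_J_orth (m : ℕ) : kf_J m * (kf_J m)ᵀ = 1 := by
  unfold kf_J
  rw [Matrix.diagonal_transpose, Matrix.diagonal_mul_diagonal]
  simp only [kf_s_sq]
  exact Matrix.diagonal_one

theorem kf_J_det (m : ℕ) : (kf_J m).det = -1 := by
  unfold kf_J
  rw [Matrix.det_diagonal, Fin.prod_univ_succ]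
  simp [kf_s]

/-- the reflection as a map -/
def kf_T {m : ℕ} (h : Mt (m + 1)) : Mt (m + 1) := fun i j => kf_s j * h i j

theorem kf_T_of {m : ℕ} (h : Mt (m + 1)) : Matrix.of (kf_T h) = Matrix.of h * kf_J m := by
  ext i j
  unfold kf_J
  rw [Matrix.mul_diagonal]
  exact mul_comm _ _

theorem kf_T_invol {m : ℕ} (h : Mt (m + 1)) : kf_T (kf_T h) = h := by
  funext i j
  show kf_s j * (kf_s j * h i j) = h i j
  rw [← mul_assoc, kf_s_sq, one_mul]

theorem kf_T_mp (m : ℕ) : MeasurePreserving (kf_T : Mt (m + 1) → Mt (m + 1)) volume volume := by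
  have h1 : ∀ j : Fin (m + 1), MeasurePreserving (fun x : ℝ => kf_s j * x) volume volume := by
    intro j
    by_cases hj : j = 0
    · have e : (fun x : ℝ => kf_s j * x) = Neg.neg := by
        funext x
        simp [kf_s, hj]
      rw [e]
      exact Measure.measurePreserving_neg volume
    · have e : (fun x : ℝ => kf_s j * x) = id := by
        funext x
        simp [kf_s, hj]
      rw [e]
      exact MeasurePreserving.id volume
  exact volume_preserving_pi fun _ => volume_preserving_pi h1

/-- the reflection as an equivalence -/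
def kf_E (m : ℕ) : Mt (m + 1) ≃ᵐ Mt (m + 1) where
  toFun := kf_T
  invFun := kf_T
  left_inv := kf_T_invol
  right_inv := kf_T_invol
  measurable_toFun := (kf_T_mp m).measurable
  measurable_invFun := (kf_T_mp m).measurable

theorem kf_fold {m : ℕ} {F : Mt (m + 1) → ℂ} (hF : Integrable F)
    (hT : ∀ h, F (kf_T h) = F h) (h0 : ∀ h, (Matrix.of h).det = 0 → F h = 0) :
    ∫ h, F h = 2 * ∫ h, ({h : Mt (m + 1) | 0 < (Matrix.of h).det}).indicator F h := by
  have hms : MeasurableSet {h : Mt (m + 1) | 0 < (Matrix.of h).det} :=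
    (isOpen_lt continuous_const (kf_det_cont (m + 1))).measurableSet
  set G : Mt (m + 1) → ℂ := ({h : Mt (m + 1) | 0 < (Matrix.of h).det}).indicator F with hG
  have hGi : Integrable G := hF.indicator hms
  have hmp : MeasurePreserving (kf_E m) volume volume := kf_T_mp m
  have h1 : ∫ h, G (kf_E m h) = ∫ h, G h := hmp.integral_comp' G
  have h2 : Integrable fun h => G (kf_E m h) := hmp.integrable_comp_of_integrable hGi
  have h3 : ∀ h, F h = G h + G (kf_E m h) := by
    intro h
    have hd : (Matrix.of (kf_E m h)).det = -(Matrix.of h).det := by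
      show (Matrix.of (kf_T h)).det = _
      rw [kf_T_of, Matrix.det_mul, kf_J_det]
      ring
    have hFE : F (kf_E m h) = F h := hT h
    have hin : ∀ y : Mt (m + 1), 0 < (Matrix.of y).det → G y = F y := fun y hy =>
      Set.indicator_of_mem (s := {h : Mt (m + 1) | 0 < (Matrix.of h).det}) hy F
    have hout : ∀ y : Mt (m + 1), ¬ 0 < (Matrix.of y).det → G y = 0 := fun y hy =>
      Set.indicator_of_notMem (s := {h : Mt (m + 1) | 0 < (Matrix.of h).det}) hy F
    rcases lt_trichotomy (Matrix.of h).det 0 with hlt | heq | hgt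
    · rw [hout h (fun hh => lt_asymm hh hlt), hin (kf_E m h) (by rw [hd]; linarith), hFE,
        zero_add]
    · rw [hout h (fun hh => hh.ne' heq), hout (kf_E m h) (fun hh => by
          rw [hd, heq] at hh; simp at hh), h0 h heq, zero_add]
    · rw [hin h hgt, hout (kf_E m h) (fun hh => by rw [hd] at hh; linarith), add_zero]
  calc ∫ h, F h = ∫ h, (G h + G (kf_E m h)) := integral_congr_ae (Filter.Eventually.of_forall h3)
    _ = (∫ h, G h) + ∫ h, G (kf_E m h) := integral_add hGi h2
    _ = 2 * ∫ h, G h := by rw [h1]; ring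

/-! ### integrability -/

theorem kf_int {n : ℕ} {k : Mt n → ℝ} (hkc : Continuous k) (hc : HasCompactSupport k)
    (hk : tsupport k ⊆ {h | (Matrix.of h).det ≠ 0}) {φ : Matrix (Fin n) (Fin n) ℝ → ℂ}
    (hφ : ContinuousOn φ {g | g.det ≠ 0}) (g : Matrix (Fin n) (Fin n) ℝ) (hg : g.det ≠ 0) :
    Integrable fun h : Mt n => (k h : ℂ) * φ (g * Matrix.of h) := by
  have hcs : HasCompactSupport fun h : Mt n => (k h : ℂ) * φ (g * Matrix.of h) := by
    refine hc.mono ?_
    intro x hx
    rw [Function.mem_support] at hx ⊢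
    intro h
    apply hx
    show (k x : ℂ) * φ (g * Matrix.of x) = 0
    rw [h]
    simp
  refine Continuous.integrable_of_hasCompactSupport ?_ hcs
  rw [continuous_iff_continuousAt]
  intro h
  by_cases hh : h ∈ tsupport k
  · have hd : (g * Matrix.of h).det ≠ 0 := by
      rw [Matrix.det_mul]
      exact mul_ne_zero hg (hk hh)
    have ho : IsOpen {g : Matrix (Fin n) (Fin n) ℝ | g.det ≠ 0} :=
      isOpen_ne_fun (Continuous.matrix_det continuous_id) continuous_const
    have h1 : ContinuousAt φ (g * Matrix.of h) := hφ.continuousAt (ho.mem_nhds hd)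
    have h2 : Continuous fun h : Mt n => g * Matrix.of h :=
      Continuous.matrix_mul continuous_const continuous_id
    exact (Complex.continuous_ofReal.comp hkc).continuousAt.mul
      (ContinuousAt.comp (f := fun h : Mt n => g * Matrix.of h) (g := φ) h1 h2.continuousAt)
  · have h1 : (fun h : Mt n => (k h : ℂ) * φ (g * Matrix.of h)) =ᶠ[nhds h] fun _ => 0 := by
      filter_upwards [(isClosed_tsupport k).isOpen_compl.mem_nhds hh] with y hy
      rw [image_eq_zero_of_notMem_tsupport hy]
      simp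
    exact (continuousAt_const).congr h1.symm

/-! ### determinants of the representatives -/

theorem kf_det_rep {n k : ℕ} (hk : 1 ≤ k) {a : Fin n → Fin n → ℤ}
    (h1 : ∀ i j, j < i → a i j = 0) (h2 : ∏ i, a i i = k) : 0 < (re (Matrix.of a)).det := by
  have h4 : (Matrix.of a).det = ∏ i, (Matrix.of a) i i :=
    Matrix.det_of_isUpperTriangular (fun i j hij => h1 i j hij)
  have h3 : (∏ i, (Matrix.of a) i i) = (k : ℤ) := h2
  rw [GLQ.a1_det_re, h4, h3]
  push_cast
  exact_mod_cast hk

theorem kf_repR {n k : ℕ} {a : Fin n → Fin n → ℤ} (ha : a ∈ repR n k) (hk : 1 ≤ k) :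
    0 < (re (Matrix.of a)).det := by
  unfold repR at ha
  rw [Finset.mem_filter] at ha
  exact kf_det_rep hk ha.2.1 ha.2.2.2

theorem kf_repL {n k : ℕ} {a : Fin n → Fin n → ℤ} (ha : a ∈ repL n k) (hk : 1 ≤ k) :
    0 < (re (Matrix.of a)).det := by
  unfold repL at ha
  rw [Finset.mem_filter] at ha
  exact kf_det_rep hk ha.2.1 ha.2.2.2

/-! ### the restricted form -/

open Classical in
/-- `f` on `det > 0`, `0` elsewhere -/
def kf_res {m q : ℕ} (f : Fm m q) : Fm m q := fun g x => if 0 < g.det then f g x else 0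

theorem kf_pos {m q : ℕ} (f : Fm m q) {g : Matrix (Fin (m + 1)) (Fin (m + 1)) ℝ}
    (hg : 0 < g.det) (x : Fin (m + 1) → ZMod q) : kf_res f g x = f g x := if_pos hg

theorem kf_neg {m q : ℕ} (f : Fm m q) {g : Matrix (Fin (m + 1)) (Fin (m + 1)) ℝ}
    (hg : ¬ 0 < g.det) (x : Fin (m + 1) → ZMod q) : kf_res f g x = 0 := if_neg hg

theorem kf_pre {m q : ℕ} [NeZero q] {χ : DirichletCharacter ℂ q} {μ : Fin (m + 1) → ℂ}
    {f : Fm m q} (hf : Pool.Agent.SGN.IsForm (m + 1) q χ μ f) : Pre m q (kf_res f) := by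
  refine ⟨?_, ?_, ?_, ?_, ?_⟩
  · intro x
    refine ((hf.cont x).mono fun g (hg : 0 < g.det) => hg.ne').congr fun g hg => kf_pos f hg x
  · obtain ⟨M, hM⟩ := hf.bdd
    refine ⟨max M 0, fun g x => ?_⟩
    by_cases hg : 0 < g.det
    · rw [kf_pos f hg]
      exact (hM g x hg.ne').trans (le_max_left _ _)
    · rw [kf_neg f hg, norm_zero]
      exact le_max_right _ _
  · intro t g x ht
    have hd : (t • g).det = t ^ (m + 1) * g.det := by
      rw [Matrix.det_smul, Fintype.card_fin]
    have hpos : 0 < t ^ (m + 1) := pow_pos ht _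
    by_cases hg : 0 < g.det
    · have h2 : 0 < (t • g).det := by rw [hd]; exact mul_pos hpos hg
      rw [kf_pos f h2, kf_pos f hg]
      exact hf.scal t g x ht hg.ne'
    · have h2 : ¬ 0 < (t • g).det := by
        rw [hd]
        intro h
        exact hg (pos_of_mul_pos_right h hpos.le)
      rw [kf_neg f h2, kf_neg f hg]
  · intro γ g x
    have hd : (re γ.1 * g).det = g.det := by
      rw [Matrix.det_mul, GLQ.a1_det_SL, one_mul]
    by_cases hg : 0 < g.det
    · have h2 : 0 < (re γ.1 * g).det := by rw [hd]; exact hg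
      rw [kf_pos f h2, kf_pos f hg]
      refine hf.left γ.1 ?_ g x hg.ne'
      rw [γ.2]
      exact isUnit_one
    · have h2 : ¬ 0 < (re γ.1 * g).det := by rw [hd]; exact hg
      rw [kf_neg f h2, kf_neg f hg]
  · intro g x hg
    exact kf_neg f hg x

theorem kf_frm {m q : ℕ} [NeZero q] {χ : DirichletCharacter ℂ q} {μ : Fin (m + 1) → ℂ}
    {f : Fm m q} (hf : Pool.Agent.SGN.IsForm (m + 1) q χ μ f) {k : Mt (m + 1) → ℝ}
    (hL : ∃ C, LipschitzWith C k) (hc : HasCompactSupport k)
    (hk : tsupport k ⊆ {h | (Matrix.of h).det ≠ 0})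
    (hinv : ∀ o o' : Matrix (Fin (m + 1)) (Fin (m + 1)) ℝ, o * oᵀ = 1 → o' * o'ᵀ = 1 →
        ∀ h : Mt (m + 1), k (o * Matrix.of h * o') = k h)
    (hμ : 1 / 2 ≤ ‖∫ h : Mt (m + 1), (k h : ℂ) * Pool.Agent.SGN.pw μ (Matrix.of h)‖) :
    Frm m q (kf_k0 k) (kf_res f) := by
  refine ⟨kf_pre hf, ?_, ?_⟩
  · intro r hr hr2 g x hg
    have h1 := hf.cusp r hr (by omega) g x hg.ne'
    rw [← h1]
    refine integral_congr_ae (Filter.Eventually.of_forall fun y => ?_)
    refine kf_pos f ?_ x
    rw [Matrix.det_mul, GLQ.a1_det_unip, one_mul]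
    exact hg
  · set J : ℂ := ∫ h : Mt (m + 1), (k h : ℂ) * Pool.Agent.SGN.pw μ (Matrix.of h) with hJ
    have hJ0 : J ≠ 0 := by
      intro h
      rw [h, norm_zero] at hμ
      norm_num at hμ
    refine ⟨J⁻¹, ?_, ?_⟩
    · rw [norm_inv]
      have h := inv_anti₀ (by norm_num : (0 : ℝ) < 1 / 2) hμ
      norm_num at h
      exact h
    · intro g x hg
      obtain ⟨C, hC⟩ := hL
      have hkc : Continuous k := hC.continuous
      -- the spherical vector
      have h1 := hf.sph (fun h => (k h : ℂ)) (Complex.continuous_ofReal.comp hkc)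
        (by
          refine hc.mono ?_
          intro y hy
          rw [Function.mem_support] at hy ⊢
          intro h
          apply hy
          rw [h]
          simp)
        (by
          refine (closure_mono ?_ : _ ⊆ tsupport k).trans hk
          intro y hy
          rw [Function.mem_support] at hy ⊢
          intro h
          apply hy
          rw [h]
          simp)
        (fun o o' ho ho' h => by
          show ((k (o * Matrix.of h * o') : ℝ) : ℂ) = ((k h : ℝ) : ℂ)
          rw [hinv o o' ho ho' h]) g x hg.ne'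
      rw [← hJ] at h1
      -- the reflection
      have hint := kf_int hkc hc hk (hf.cont x) g hg.ne'
      have hT : ∀ h : Mt (m + 1), (k (kf_T h) : ℂ) * f (g * Matrix.of (kf_T h)) x =
          (k h : ℂ) * f (g * Matrix.of h) x := by
        intro h
        have e1 : k (kf_T h) = k h := by
          have e := hinv 1 (kf_J m) (by rw [Matrix.transpose_one, Matrix.mul_one]) (kf_J_orth m) h
          rw [Matrix.one_mul] at e
          rw [← e]
          exact congrArg k (kf_T_of h)
        by_cases hd : (Matrix.of h).det = 0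
        · rw [e1, kf_zero hk hd]
          simp
        · rw [e1, kf_T_of, ← Matrix.mul_assoc]
          rw [hf.right (kf_J m) (kf_J_orth m) (g * Matrix.of h) x (by
            rw [Matrix.det_mul]
            exact mul_ne_zero hg.ne' hd)]
      have h2 := kf_fold (F := fun h : Mt (m + 1) => (k h : ℂ) * f (g * Matrix.of h) x) hint hT
        (fun h hd => by
          show (k h : ℂ) * f (g * Matrix.of h) x = 0
          rw [kf_zero hk hd]
          simp)
      have h3 : ∫ h : Mt (m + 1), kf_k0 k h * kf_res f (g * Matrix.of h) x =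
          2 * ∫ h : Mt (m + 1), ({h : Mt (m + 1) | 0 < (Matrix.of h).det}).indicator
            (fun h : Mt (m + 1) => (k h : ℂ) * f (g * Matrix.of h) x) h := by
        rw [← integral_const_mul]
        refine integral_congr_ae (Filter.Eventually.of_forall fun h => ?_)
        show kf_k0 k h * kf_res f (g * Matrix.of h) x = _
        beta_reduce
        by_cases hd : 0 < (Matrix.of h).det
        · have hd2 : 0 < (g * Matrix.of h).det := by
            rw [Matrix.det_mul]
            exact mul_pos hg hd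
          rw [Set.indicator_of_mem (s := {h : Mt (m + 1) | 0 < (Matrix.of h).det}) hd,
            kf_pos f hd2]
          unfold kf_k0
          rw [if_pos hd]
          push_cast
          ring
        · rw [Set.indicator_of_notMem (s := {h : Mt (m + 1) | 0 < (Matrix.of h).det}) hd]
          unfold kf_k0
          rw [if_neg hd]
          ring
      rw [kf_pos f hg, h3, ← h2]
      rw [show (∫ h : Mt (m + 1), (k h : ℂ) * f (g * Matrix.of h) x) = J * f g x from h1]
      rw [← mul_assoc, inv_mul_cancel₀ hJ0, one_mul]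

/-- PROOF. `k0 = 2 k` on `det > 0`, `0` elsewhere (Lipschitz since the support of `k` is a compact
subset of `det ≠ 0`); `f' = f` on `det > 0`, `0` elsewhere. The matrices with `det < 0` contribute to
`∫ k(h) f(g h, x)` the same as those with `det > 0`: substitute `h = h' diag(-1, 1, …, 1)`. -/
theorem eg_of_pr (m : ℕ) (K : Set (Fin (m + 1) → ℂ)) (hK : IsCompact K) :
    ∃ k0 : Mt (m + 1) → ℂ, Kern m k0 ∧ ∀ (q : ℕ) [NeZero q] (χ : DirichletCharacter ℂ q),
      ∀ μ ∈ K, ∀ (f : Fm m q) (lam : ℕ → ℂ), Pool.Agent.SGN.IsEig (m + 1) q χ μ f lam →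
        ∃ f' : Fm m q, Eg m q k0 f' lam := by
  obtain ⟨k, hL, hc, hk, hinv, hμ⟩ := kern_exists (m + 1) K hK
  refine ⟨kf_k0 k, kf_kern hL hc hk, ?_⟩
  intro q _ χ μ hμK f lam hf
  have hexp : (((m + 1 : ℕ) : ℝ) - 1) / 2 = (m : ℝ) / 2 := by
    push_cast
    ring
  refine ⟨kf_res f, kf_frm hf.toIsForm hL hc hk hinv (hμ μ hμK), ?_, hf.zero, ?_, ?_⟩
  · obtain ⟨g, x, hg, hne⟩ := hf.ne
    rcases lt_or_gt_of_ne hg with hlt | hgt
    · refine ⟨g * kf_J m, x, ?_⟩
      have hd : 0 < (g * kf_J m).det := by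
        rw [Matrix.det_mul, kf_J_det]
        linarith
      rw [kf_pos f hd, hf.right (kf_J m) (kf_J_orth m) g x hg]
      exact hne
    · refine ⟨g, x, ?_⟩
      rw [kf_pos f hgt]
      exact hne
  · intro k' hk' g x hg
    have h := hf.up k' hk' g x hg.ne'
    rw [hexp] at h
    rw [kf_pos f hg, ← h]
    unfold heckeT
    refine Finset.sum_congr rfl fun a ha => kf_pos f ?_ _
    rw [Matrix.det_mul, Matrix.det_nonsing_inv, Ring.inverse_eq_inv']
    exact mul_pos (inv_pos.2 (kf_repR ha hk')) hg
  · intro k' hk' g x hg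
    have h := hf.dn k' hk' g x hg.ne'
    rw [hexp] at h
    rw [kf_pos f hg, ← h]
    unfold heckeA
    refine Finset.sum_congr rfl fun a ha => Finset.sum_congr rfl fun y _ => ?_
    by_cases hy : y ᵥ* md q (Matrix.of a) = x
    · rw [if_pos hy, if_pos hy]
      refine kf_pos f ?_ _
      rw [Matrix.det_mul]
      exact mul_pos (kf_repL ha hk') hg
    · rw [if_neg hy, if_neg hy]

end

end Pool.Agent.SGB

namespace Pool.Agent.SGB

alias eg_of := eg_of_pr

end Pool.Agent.SGB
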