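import Pool.Agent.Lib_helper56.SGB.Defs
import Pool.Agent.Lib_helper56.SGB.F.DB
import Pool.Agent.Lib_helper56.SGB.F.MA

/-!
# Project SGN, part B, block MB: the mass high in the cusps
-/

set_option autoImplicit false

namespace Pool.Agent.SGB

open MeasureTheory Matrix
open Pool.Agent.RS (Mt lm SLZ)
open Pool.Agent.GLQ (re unip cube slab Xp wN IN rm rr qq Lat latt Lz IsRed RY Om Box Kern IsInv Bd sp)
open Pool.Agent.SGN (md repR repL heckeT heckeA supS subS UW Wd lw nf WOk)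
open scoped ENNReal

noncomputable section

theorem mb_inner {β ι : Type} [MeasurableSpace β] [Fintype ι] (μ : Measure β) (w : ℝ≥0∞)
    (g : ι → β → ℝ≥0∞) (hg : ∀ i, Measurable (g i)) :
    ∫⁻ h, w * ∑ i, g i h ∂μ = w * ∑ i, ∫⁻ h, g i h ∂μ := by
  rw [lintegral_const_mul _ (Finset.measurable_sum _ fun i _ => hg i),
    lintegral_finsetSum _ fun i _ => hg i]

theorem mb_step {m q : ℕ} (C Y N : ℝ) (B : Set (Mt (m + 1))) {f : Fm m q} (hf : Pre m q f)
    (A : Mt (m + 1)) (h0 : 0 ≤ C * N / Y) (x : Fin (m + 1) → ZMod q)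
    (h : ‖f (Matrix.of A) x‖ ≤ C * N / Y * ∫ h in B, ‖f (Matrix.of A * Matrix.of h) x‖) :
    nsX f A x ≤ ENNReal.ofReal ((C * N / Y) ^ 2) * (volume B * ∫⁻ h in B, nsX f (rm A h) x) :=
  Pool.Agent.GLQ.r6_step C Y N B (fun g => f g x) (pre_meas hf x) A h0 h

theorem mb_meas {m q : ℕ} {f : Fm m q} (hf : Pre m q f) (x : Fin (m + 1) → ZMod q) :
    Measurable fun p : Mt (m + 1) × Mt (m + 1) => nsX f (rm p.1 p.2) x :=
  ((pre_xinv hf).meas x).comp Pool.Agent.GLQ.r6_rm_meas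

theorem mb_meas1 {m q : ℕ} {f : Fm m q} (hf : Pre m q f) (x : Fin (m + 1) → ZMod q)
    (A : Mt (m + 1)) : Measurable fun h : Mt (m + 1) => nsX f (rm A h) x := by
  have h1 : Measurable fun h : Mt (m + 1) => rm A h :=
    Pool.Agent.GLQ.r6_rm_meas.comp (measurable_prodMk_left (x := A))
  exact ((pre_xinv hf).meas x).comp h1

theorem mb_meas2 {m q : ℕ} [NeZero q] {f : Fm m q} (hf : Pre m q f) :
    Measurable fun p : Mt (m + 1) × Mt (m + 1) => wN m 1 p.1 * ∑ x, nsX f (rm p.1 p.2) x :=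
  ((Pool.Agent.GLQ.wN_meas m 1).comp measurable_fst).mul
    (Finset.measurable_sum _ fun x _ => mb_meas hf x)

theorem mb_point {m q : ℕ} {f : Fm m q} (hf : Pre m q f) {K Y : ℝ} {B : Set (Mt (m + 1))}
    (hest : ∀ (A : Mt (m + 1)) (U : Matrix (Fin (m + 1)) (Fin (m + 1)) ℝ) (t : Fin (m + 1) → ℝ)
      (O : Matrix (Fin (m + 1)) (Fin (m + 1)) ℝ), 0 < (Matrix.of A).det → IsRed A U t O →
      ∀ i j : Fin (m + 1), (i : ℕ) + 1 = (j : ℕ) → Y * t j < t i → ∀ x : Fin (m + 1) → ZMod q,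
        ‖f (Matrix.of A) x‖ ≤ K * ∫ h in B, ‖f (Matrix.of A * Matrix.of h) x‖)
    (A : Mt (m + 1)) (hA : 0 < (Matrix.of A).det) (hO : A ∉ Om (m + 1) Y)
    (x : Fin (m + 1) → ZMod q) :
    ‖f (Matrix.of A) x‖ ≤ K * ∫ h in B, ‖f (Matrix.of A * Matrix.of h) x‖ := by
  obtain ⟨γ, U, t, O, hr⟩ := Pool.Agent.GLQ.red_exists A hA
  have h1 : lm (re γ.1) A ∉ RY (m + 1) Y := fun h => hO ⟨hA, γ, h⟩
  have h2 : ∃ i j : Fin (m + 1), (i : ℕ) + 1 = (j : ℕ) ∧ Y * t j < t i := by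
    by_contra hcon
    push Not at hcon
    exact h1 ⟨U, t, O, hr, hcon⟩
  obtain ⟨i, j, hij, hlt⟩ := h2
  have hof : Matrix.of (lm (re γ.1) A) = re γ.1 * Matrix.of A := rfl
  have hdet : 0 < (Matrix.of (lm (re γ.1) A)).det := by
    rw [hof, Matrix.det_mul, Pool.Agent.GLQ.r6_re_det, one_mul]
    exact hA
  have h3 := hest (lm (re γ.1) A) U t O hdet hr i j hij hlt (x ᵥ* md q (γ⁻¹).1)
  have h4 : ∀ G : Matrix (Fin (m + 1)) (Fin (m + 1)) ℝ, re (γ⁻¹).1 * (re γ.1 * G) = G := by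
    intro G
    rw [← Matrix.mul_assoc, ← Pool.Agent.GLQ.r6_re_mul]
    have h5 : (γ⁻¹).1 * γ.1 = 1 := congrArg Subtype.val (inv_mul_cancel γ)
    rw [h5, Pool.Agent.GLQ.r6_re_one, Matrix.one_mul]
  have h6 : ∀ G : Matrix (Fin (m + 1)) (Fin (m + 1)) ℝ,
      f (re γ.1 * G) (x ᵥ* md q (γ⁻¹).1) = f G x := by
    intro G
    rw [← hf.inv, h4]
  rw [hof, h6] at h3
  have h7 : ∫ h in B, ‖f (re γ.1 * Matrix.of A * Matrix.of h) (x ᵥ* md q (γ⁻¹).1)‖ =
      ∫ h in B, ‖f (Matrix.of A * Matrix.of h) x‖ := by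
    congr 1
    funext h
    rw [Matrix.mul_assoc, h6]
  rw [h7] at h3
  exact h3

/-- [M2] -/
theorem massX_pr (m : ℕ) (hm : 1 ≤ m) (k0 : Mt (m + 1) → ℂ) (hk : Kern m k0) : ∃ C : ℝ, 1 ≤ C ∧
    ∀ (q : ℕ) [NeZero q] (f : Fm m q), Frm m q k0 f →
      4 * IX m q (ind (Om (m + 1) (C * q))ᶜ (nsX f)) ≤ IX m q (nsX f) := by
  obtain ⟨C, C0, B, hC, hC0, hB, hBd, hest⟩ := cuspX m k0 hk
  obtain ⟨C4, hC4, hr⟩ := rightX m B hB hBd
  have hvol : volume B ≠ ⊤ := hB.measure_lt_top.ne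
  set V : ℝ := (volume B).toReal with hV
  set D : ℝ := C4.toReal with hD
  have hV0 : 0 ≤ V := ENNReal.toReal_nonneg
  have hD0 : 0 ≤ D := ENNReal.toReal_nonneg
  set C1 : ℝ := 1 + C0 + 2 * C * (1 + V) * (1 + D) with hC1
  have hpos : 0 < 2 * C * (1 + V) * (1 + D) := by positivity
  have hC11 : 1 ≤ C1 := by
    rw [hC1]
    linarith
  have hC10 : 0 < C1 := by linarith
  refine ⟨C1, hC11, fun q _ f hf => ?_⟩
  have hN0 : (0 : ℝ) < q := by exact_mod_cast Nat.pos_of_ne_zero (NeZero.ne q)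
  have hY0 : 0 < C1 * q := by positivity
  have hY : C0 * q ≤ C1 * q := by
    refine mul_le_mul_of_nonneg_right ?_ hN0.le
    rw [hC1]
    linarith
  have hF := pre_xinv hf.toPre
  have hOm := Pool.Agent.GLQ.Om_meas (m + 1) (C1 * q) hY0
  have hwm : Measurable (wN m 1) := Pool.Agent.GLQ.wN_meas m 1
  have hq : C * q / (C1 * q) = C / C1 := by
    field_simp
  have hq0 : 0 ≤ C * q / (C1 * q) := by
    rw [hq]
    positivity
  -- the constant
  have hconst : ENNReal.ofReal ((C * q / (C1 * q)) ^ 2) * (volume B * (C4 * volume B)) ≤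
      1 / 4 := by
    have h1 : volume B = ENNReal.ofReal V := (ENNReal.ofReal_toReal hvol).symm
    have h2 : C4 = ENNReal.ofReal D := (ENNReal.ofReal_toReal hC4).symm
    rw [h1, h2, hq, ← ENNReal.ofReal_mul hD0, ← ENNReal.ofReal_mul hV0,
      ← ENNReal.ofReal_mul (sq_nonneg _)]
    have h3 : (C / C1) ^ 2 * (V * (D * V)) ≤ 1 / 4 := by
      have h4 : C / C1 ≤ 1 / (2 * (1 + V) * (1 + D)) := by
        rw [div_le_div_iff₀ hC10 (by positivity)]
        rw [hC1]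
        nlinarith [hpos]
      have h5 : (C / C1) ^ 2 ≤ (1 / (2 * (1 + V) * (1 + D))) ^ 2 :=
        pow_le_pow_left₀ (by positivity) h4 2
      have h6 : V * (D * V) ≤ (1 + V) ^ 2 * (1 + D) ^ 2 := by
        have h7 : V ^ 2 ≤ (1 + V) ^ 2 := pow_le_pow_left₀ hV0 (by linarith) 2
        have h8 : D ≤ (1 + D) ^ 2 := by nlinarith
        calc V * (D * V) = V ^ 2 * D := by ring
          _ ≤ (1 + V) ^ 2 * (1 + D) ^ 2 := mul_le_mul h7 h8 hD0 (by positivity)
      calc (C / C1) ^ 2 * (V * (D * V)) ≤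
          (1 / (2 * (1 + V) * (1 + D))) ^ 2 * ((1 + V) ^ 2 * (1 + D) ^ 2) :=
            mul_le_mul h5 h6 (by positivity) (by positivity)
        _ = 1 / 4 := by
          field_simp
          norm_num
    refine (ENNReal.ofReal_le_ofReal h3).trans ?_
    rw [ENNReal.ofReal_div_of_pos (by norm_num), ENNReal.ofReal_one]
    norm_num
  -- the part outside
  have hb : IX m q (ind (Om (m + 1) (C1 * q))ᶜ (nsX f)) ≤ 1 / 4 * IX m q (nsX f) := by
    have h1 : IX m q (ind (Om (m + 1) (C1 * q))ᶜ (nsX f)) ≤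
        ∫⁻ A in Xp (m + 1), (ENNReal.ofReal ((C * q / (C1 * q)) ^ 2) * volume B) *
          ∫⁻ h in B, wN m 1 A * ∑ x, nsX f (rm A h) x := by
      refine setLIntegral_mono' (Pool.Agent.GLQ.r6_Xp_meas _) fun A hA => ?_
      show wN m 1 A * ∑ x, ind (Om (m + 1) (C1 * q))ᶜ (nsX f) A x ≤ _
      by_cases hAO : A ∈ Om (m + 1) (C1 * q)
      · have h0 : ∀ x, ind (Om (m + 1) (C1 * q))ᶜ (nsX f) A x = 0 := fun x =>
          Set.indicator_of_notMem (show A ∉ (Om (m + 1) (C1 * q))ᶜ from fun h => h hAO) _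
        rw [Finset.sum_eq_zero fun x _ => h0 x, mul_zero]
        exact zero_le
      · have h0 : ∀ x, ind (Om (m + 1) (C1 * q))ᶜ (nsX f) A x = nsX f A x := fun x =>
          Set.indicator_of_mem (show A ∈ (Om (m + 1) (C1 * q))ᶜ from hAO) _
        rw [Finset.sum_congr rfl fun x _ => h0 x]
        have hA0 : 0 < (Matrix.of A).det := lt_of_lt_of_le one_pos hA.1
        have h2 : ∀ x, nsX f A x ≤ ENNReal.ofReal ((C * q / (C1 * q)) ^ 2) *
            (volume B * ∫⁻ h in B, nsX f (rm A h) x) := fun x =>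
          mb_step C (C1 * q) q B hf.toPre A hq0 x
            (mb_point hf.toPre (hest q f hf (C1 * q) hY) A hA0 hAO x)
        have h3 : ∫⁻ h in B, wN m 1 A * ∑ x, nsX f (rm A h) x =
            wN m 1 A * ∑ x, ∫⁻ h in B, nsX f (rm A h) x :=
          mb_inner (volume.restrict B) (wN m 1 A) (fun x h => nsX f (rm A h) x)
            fun x => mb_meas1 hf.toPre x A
        rw [h3]
        calc wN m 1 A * ∑ x, nsX f A x ≤ wN m 1 A * ∑ x,
              ENNReal.ofReal ((C * q / (C1 * q)) ^ 2) *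
              (volume B * ∫⁻ h in B, nsX f (rm A h) x) := by
              gcongr with x _
              exact h2 x
          _ = _ := by
              rw [← Finset.mul_sum, ← Finset.mul_sum]
              ring
    have h2 : ∫⁻ A in Xp (m + 1), ∫⁻ h in B, wN m 1 A * ∑ x, nsX f (rm A h) x =
        ∫⁻ h in B, ∫⁻ A in Xp (m + 1), wN m 1 A * ∑ x, nsX f (rm A h) x :=
      lintegral_lintegral_swap (mb_meas2 hf.toPre).aemeasurable
    have h3 : ∫⁻ h in B, ∫⁻ A in Xp (m + 1), wN m 1 A * ∑ x, nsX f (rm A h) x ≤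
        C4 * IX m q (nsX f) * volume B := by
      rw [← setLIntegral_const]
      exact setLIntegral_mono' hB.measurableSet fun h hh => hr q (nsX f) hF h hh
    rw [lintegral_const_mul _ (Measurable.lintegral_prod_right' (mb_meas2 hf.toPre)), h2] at h1
    calc IX m q (ind (Om (m + 1) (C1 * q))ᶜ (nsX f)) ≤
        (ENNReal.ofReal ((C * q / (C1 * q)) ^ 2) * volume B) *
          (C4 * IX m q (nsX f) * volume B) := h1.trans (by gcongr)
      _ = (ENNReal.ofReal ((C * q / (C1 * q)) ^ 2) * (volume B * (C4 * volume B))) *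
          IX m q (nsX f) := by ring
      _ ≤ 1 / 4 * IX m q (nsX f) := by gcongr
  calc 4 * IX m q (ind (Om (m + 1) (C1 * q))ᶜ (nsX f)) ≤ 4 * (1 / 4 * IX m q (nsX f)) := by gcongr
    _ = IX m q (nsX f) := by
      rw [← mul_assoc, one_div, ENNReal.mul_inv_cancel (by norm_num) (by norm_num), one_mul]

end

end Pool.Agent.SGB

namespace Pool.Agent.SGB

alias massX := massX_pr

end Pool.Agent.SGB
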