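import Pool.Agent.Lib_helper56.SGB.Defs
/-!
# Project SGN, part B, block MC: the group elements on a box
-/

set_option autoImplicit false

namespace Pool.Agent.SGB

open MeasureTheory Matrix
open Pool.Agent.RS (Mt lm SLZ)
open Pool.Agent.GLQ (re unip cube slab Xp wN IN rm rr qq Lat latt Lz IsRed RY Om Box Kern IsInv Bd sp)
open Pool.Agent.SGN (md repR repL heckeT heckeA supS subS UW Wd lw nf WOk)
open scoped ENNReal

noncomputable section

/-- the elements between `ℤ^n` and itself are in `SL_n(ℤ)` -/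
theorem mc_int {n : ℕ} {ζ d' : Matrix (Fin n) (Fin n) ℚ} (h1 : 0 < ζ.det) (h2 : 0 < d'.det)
    (h3 : latt d' = Lz n) (h4 : latt (d' * ζ) = Lz n) : ∃ γ : SLZ n, ζ = qq γ.1 := by
  have h5 : (0 : ℚ) < (1 : Matrix (Fin n) (Fin n) ℚ).det := by rw [Matrix.det_one]; exact one_pos
  obtain ⟨γ, hγ⟩ := Pool.Agent.GLQ.basis_uniq_pr h5 h2 (show latt 1 = latt d' from h3.symm)
  have h6 : 0 < (d' * ζ).det := by rw [Matrix.det_mul]; exact mul_pos h2 h1
  obtain ⟨γ', hγ'⟩ := Pool.Agent.GLQ.basis_uniq_pr h5 h6 (show latt 1 = latt (d' * ζ) from h4.symm)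
  rw [Matrix.mul_one] at hγ hγ'
  refine ⟨γ⁻¹ * γ', ?_⟩
  have h7 : (γ⁻¹ * γ').1 = (γ⁻¹).1 * γ'.1 := rfl
  have h8 : (γ⁻¹).1 * γ.1 = 1 := congrArg Subtype.val (inv_mul_cancel γ)
  rw [h7, Pool.Agent.GLQ.l1a_qq_mul, ← hγ', hγ, ← Matrix.mul_assoc, ← Pool.Agent.GLQ.l1a_qq_mul, h8,
    Pool.Agent.GLQ.l1a_qq_one, Matrix.one_mul]

theorem mc_rdq {n q : ℕ} [Fact q.Prime] (Z : Matrix (Fin n) (Fin n) ℤ) :
    rdq q (qq Z) = md q Z := by
  ext i j
  show rq q ((Z i j : ℤ) : ℚ) = ((Z i j : ℤ) : ZMod q)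
  unfold rq
  rw [Rat.num_intCast, Rat.den_intCast]
  simp

/-- the number of the fixed vectors is at most `q^n` -/
theorem mc_Nx_le {n q : ℕ} [Fact q.Prime] (ζ : Matrix (Fin n) (Fin n) ℚ) : Nx q ζ ≤ q ^ n := by
  unfold Nx
  have h1 := Nat.card_le_card_of_injective
    (fun x : {x : Fin n → ZMod q // x ᵥ* rdq q ζ = x} => x.1) Subtype.val_injective
  refine h1.trans ?_
  rw [Nat.card_eq_fintype_card, Fintype.card_fun, ZMod.card, Fintype.card_fin]

/-- the number of the fixed vectors is at most `q^m` if `ζ ≠ 1` modulo `q` -/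
theorem mc_Nx_lt {m q : ℕ} [Fact q.Prime] (ζ : Matrix (Fin (m + 1)) (Fin (m + 1)) ℚ)
    (h : rdq q ζ ≠ 1) : Nx q ζ ≤ q ^ m := by
  let W : Submodule (ZMod q) (Fin (m + 1) → ZMod q) :=
    LinearMap.eqLocus (Matrix.vecMulLinear (rdq q ζ)) LinearMap.id
  have hW : ∀ x, x ∈ W ↔ x ᵥ* rdq q ζ = x := by
    intro x
    show (Matrix.vecMulLinear (rdq q ζ)) x = LinearMap.id x ↔ _
    rfl
  have h1 : W ≠ ⊤ := by
    intro h2
    apply h
    ext i j
    have h3 : (Pi.single i 1 : Fin (m + 1) → ZMod q) ∈ W := by rw [h2]; trivial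
    rw [hW, Matrix.single_one_vecMul] at h3
    have h4 := congrFun h3 j
    rw [show (rdq q ζ) i j = (Pi.single i 1 : Fin (m + 1) → ZMod q) j from h4, Matrix.one_apply,
      Pi.single_apply]
    simp only [eq_comm]
  have h2 : Module.finrank (ZMod q) W < m + 1 := by
    have := Submodule.finrank_lt h1
    rwa [Module.finrank_fin_fun] at this
  have h3 : Nx q ζ = Nat.card W := by
    unfold Nx
    exact Nat.card_congr (Equiv.subtypeEquivRight fun x => (hW x).symm)
  have h4 : Nat.card W = q ^ Module.finrank (ZMod q) W := by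
    rw [Module.natCard_eq_pow_finrank (K := ZMod q), Nat.card_zmod]
  rw [h3, h4]
  exact Nat.pow_le_pow_right (Fact.out : q.Prime).pos (by omega)

/-- the indicator function of the nonzero multiples of `q` -/
def mc_g (q : ℕ) (z : ℤ) : ℝ := if z ≠ 0 ∧ (q : ℤ) ∣ z then 1 else 0

theorem mc_g_nonneg (q : ℕ) (z : ℤ) : 0 ≤ mc_g q z := by
  unfold mc_g
  split_ifs
  · exact zero_le_one
  · exact le_refl 0

theorem mc_gsum (q : ℕ) (hq : 0 < q) (k : ℕ) :
    (q : ℝ) * ∑ z ∈ Finset.Icc (-(k : ℤ)) k, mc_g q z ≤ 2 * k := by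
  classical
  have h1 : ∑ z ∈ Finset.Icc (-(k : ℤ)) k, mc_g q z =
      (((Finset.Icc (-(k : ℤ)) k).filter fun z => z ≠ 0 ∧ (q : ℤ) ∣ z).card : ℝ) := by
    unfold mc_g
    rw [Finset.sum_ite, Finset.sum_const_zero, add_zero, Finset.sum_const, nsmul_eq_mul, mul_one]
  have h2 : ((Finset.Icc (-(k : ℤ)) k).filter fun z => z ≠ 0 ∧ (q : ℤ) ∣ z) ⊆
      ((Finset.Icc (-((k / q : ℕ) : ℤ)) ((k / q : ℕ) : ℤ)).erase 0).image fun w => (q : ℤ) * w := by
    intro z hz
    rw [Finset.mem_filter, Finset.mem_Icc] at hz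
    obtain ⟨⟨h3, h4⟩, h5, w, rfl⟩ := hz
    rw [Finset.mem_image]
    refine ⟨w, ?_, rfl⟩
    rw [Finset.mem_erase, Finset.mem_Icc]
    have hq' : (0 : ℤ) < q := by exact_mod_cast hq
    refine ⟨fun h => h5 (by rw [h, mul_zero]), ?_, ?_⟩
    · have h6 : -w ≤ (k : ℤ) / q := by
        rw [Int.le_ediv_iff_mul_le hq']
        nlinarith
      push_cast
      linarith
    · have h6 : w ≤ (k : ℤ) / q := by
        rw [Int.le_ediv_iff_mul_le hq']
        nlinarith
      push_cast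
      exact h6
  have h3 : ((Finset.Icc (-(k : ℤ)) k).filter fun z => z ≠ 0 ∧ (q : ℤ) ∣ z).card ≤
      2 * (k / q) := by
    refine (Finset.card_le_card h2).trans (Finset.card_image_le.trans ?_)
    have h0 : (0 : ℤ) ≤ ((k / q : ℕ) : ℤ) := Int.natCast_nonneg _
    rw [Finset.card_erase_of_mem (by rw [Finset.mem_Icc]; exact ⟨by linarith, h0⟩), Int.card_Icc]
    omega
  rw [h1]
  have h4 : q * (2 * (k / q)) ≤ 2 * k := by
    have := Nat.mul_div_le k q
    nlinarith
  have h5 : q * ((Finset.Icc (-(k : ℤ)) k).filter fun z => z ≠ 0 ∧ (q : ℤ) ∣ z).card ≤ 2 * k :=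
    (Nat.mul_le_mul_left q h3).trans h4
  exact_mod_cast h5

open Classical in
/-- the sum over the bounded integral matrices -/
theorem mc_sum (m : ℕ) (q : ℕ) [Fact q.Prime] (M : Fin (m + 1) → Fin (m + 1) → ℝ)
    (hM : ∀ i j, 0 ≤ M i j) (hMq : ∀ i j, j ≤ i → M i j + 1 < q) :
    ∑' Z : Matrix (Fin (m + 1)) (Fin (m + 1)) ℤ,
      (if Z ≠ 1 ∧ ∀ i j, |((Z i j : ℤ) : ℝ)| ≤ M i j then (Nx q (qq Z) : ℝ≥0∞) else 0) ≤
      ENNReal.ofReal ((1 + ((m : ℝ) + 1) ^ 2) * (q : ℝ) ^ m * ∏ i, ∏ j, (1 + 2 * M i j)) := by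
  have hqp : 0 < q := (Fact.out : q.Prime).pos
  have hq0 : (0 : ℝ) < q := by exact_mod_cast hqp
  let k : Fin (m + 1) → Fin (m + 1) → ℕ := fun i j => ⌊M i j⌋.toNat
  have hm : ∀ i j, ((k i j : ℕ) : ℤ) = ⌊M i j⌋ := fun i j =>
    Int.toNat_of_nonneg (Int.floor_nonneg.mpr (hM i j))
  have hmM : ∀ i j, (k i j : ℝ) ≤ M i j := by
    intro i j
    have h1 : ((k i j : ℕ) : ℝ) = ((⌊M i j⌋ : ℤ) : ℝ) := by
      rw [← hm i j, Int.cast_natCast]
    rw [h1]
    exact Int.floor_le _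
  let S : Fin (m + 1) → Fin (m + 1) → Finset ℤ := fun i j => Finset.Icc (-(k i j : ℤ)) (k i j)
  let T : Finset (Fin (m + 1) → Fin (m + 1) → ℤ) :=
    Fintype.piFinset (fun i => Fintype.piFinset (S i))
  have hT : ∀ Z : Fin (m + 1) → Fin (m + 1) → ℤ, Z ∈ T ↔ ∀ i j, |((Z i j : ℤ) : ℝ)| ≤ M i j := by
    intro Z
    rw [Fintype.mem_piFinset]
    refine forall_congr' fun i => ?_
    rw [Fintype.mem_piFinset]
    refine forall_congr' fun j => ?_
    rw [Finset.mem_Icc, hm, abs_le]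
    constructor
    · rintro ⟨h1, h2⟩
      have h3 := Int.le_floor.mp h2
      have h4 := Int.le_floor.mp (show -(Z i j) ≤ ⌊M i j⌋ by omega)
      rw [Int.cast_neg] at h4
      exact ⟨by linarith, h3⟩
    · rintro ⟨h1, h2⟩
      have h3 := Int.le_floor.mpr h2
      have h4 : -(Z i j) ≤ ⌊M i j⌋ := Int.le_floor.mpr (by rw [Int.cast_neg]; linarith)
      exact ⟨by omega, h3⟩
  -- the sum as a finite sum
  let F0 : Matrix (Fin (m + 1)) (Fin (m + 1)) ℤ → ℝ := fun Z =>
    if Z ≠ 1 then (Nx q (qq Z) : ℝ) else 0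
  let F : (Fin (m + 1) → Fin (m + 1) → ℤ) → ℝ := fun Z => F0 Z
  have hF0 : ∀ Z, 0 ≤ F Z := by
    intro Z
    show 0 ≤ F0 Z
    generalize (show Matrix (Fin (m + 1)) (Fin (m + 1)) ℤ from Z) = Z
    show 0 ≤ if Z ≠ 1 then (Nx q (qq Z) : ℝ) else 0
    split_ifs
    · exact Nat.cast_nonneg _
    · exact le_refl 0
  have hsum : (∑' Z : Matrix (Fin (m + 1)) (Fin (m + 1)) ℤ,
      (if Z ≠ 1 ∧ ∀ i j, |((Z i j : ℤ) : ℝ)| ≤ M i j then (Nx q (qq Z) : ℝ≥0∞) else 0)) =
      ENNReal.ofReal (∑ Z ∈ T, F Z) := by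
    rw [ENNReal.ofReal_sum_of_nonneg (fun Z _ => hF0 Z)]
    let T' : Finset (Matrix (Fin (m + 1)) (Fin (m + 1)) ℤ) := T
    refine (tsum_eq_sum (s := T') ?_).trans (Finset.sum_congr rfl ?_)
    · intro Z hZ
      rw [if_neg]
      rintro ⟨-, h2⟩
      exact hZ ((hT Z).mpr h2)
    · intro Z hZ
      have h1 := (hT Z).mp hZ
      show (if Z ≠ 1 ∧ ∀ i j, |((Z i j : ℤ) : ℝ)| ≤ M i j then (Nx q (qq Z) : ℝ≥0∞) else 0) =
        ENNReal.ofReal (if Z ≠ 1 then (Nx q (qq Z) : ℝ) else 0)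
      by_cases h2 : Z ≠ 1
      · rw [if_pos ⟨h2, h1⟩, if_pos h2, ENNReal.ofReal_natCast]
      · rw [if_neg (fun h => h2 h.1), if_neg h2, ENNReal.ofReal_zero]
  rw [hsum]
  apply ENNReal.ofReal_le_ofReal
  -- the pointwise bound
  have hpt : ∀ Z ∈ T, F Z ≤ (q : ℝ) ^ m + (q : ℝ) ^ (m + 1) * ∑ a, ∑ b, mc_g q (Z a b) := by
    intro Z0 hZ
    have hbd := (hT Z0).mp hZ
    obtain ⟨Z, rfl⟩ : ∃ Z : Matrix (Fin (m + 1)) (Fin (m + 1)) ℤ, (fun i j => Z i j) = Z0 :=
      ⟨Z0, rfl⟩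
    have hs0 : 0 ≤ ∑ a, ∑ b, mc_g q (Z a b) :=
      Finset.sum_nonneg fun a _ => Finset.sum_nonneg fun b _ => mc_g_nonneg q _
    have hA0 : 0 ≤ (q : ℝ) ^ m := by positivity
    have hB0 : 0 ≤ (q : ℝ) ^ (m + 1) * ∑ a, ∑ b, mc_g q (Z a b) := by positivity
    show (if Z ≠ 1 then (Nx q (qq Z) : ℝ) else 0) ≤ _
    by_cases hns : Z ≠ 1
    · rw [if_pos hns]
      by_cases h1 : rdq q (qq (Z : Matrix (Fin (m + 1)) (Fin (m + 1)) ℤ)) = 1
      · -- congruent to `1`
        rw [mc_rdq] at h1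
        have h2 : ∀ i j, (q : ℤ) ∣ Z i j - (1 : Matrix (Fin (m + 1)) (Fin (m + 1)) ℤ) i j := by
          intro i j
          have h3 := congrFun (congrFun h1 i) j
          have h4 : ((Z i j : ℤ) : ZMod q) = (1 : Matrix (Fin (m + 1)) (Fin (m + 1)) (ZMod q)) i j :=
            h3
          rw [← ZMod.intCast_eq_intCast_iff_dvd_sub, h4]
          by_cases h5 : i = j
          · rw [h5, Matrix.one_apply_eq, Matrix.one_apply_eq, Int.cast_one]
          · rw [Matrix.one_apply_ne h5, Matrix.one_apply_ne h5, Int.cast_zero]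
        have h3 : ∀ i j, j ≤ i → Z i j = (1 : Matrix (Fin (m + 1)) (Fin (m + 1)) ℤ) i j := by
          intro i j hij
          by_contra h4
          have h5 : Z i j - (1 : Matrix (Fin (m + 1)) (Fin (m + 1)) ℤ) i j ≠ 0 := sub_ne_zero.2 h4
          have h6 := Int.le_of_dvd (abs_pos.2 h5) ((dvd_abs _ _).2 (h2 i j))
          have h7 : ((q : ℤ) : ℝ) ≤
              ((|Z i j - (1 : Matrix (Fin (m + 1)) (Fin (m + 1)) ℤ) i j| : ℤ) : ℝ) :=
            Int.cast_le.2 h6
          rw [Int.cast_abs, Int.cast_sub, Int.cast_natCast] at h7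
          have h8 : |(((1 : Matrix (Fin (m + 1)) (Fin (m + 1)) ℤ) i j : ℤ) : ℝ)| ≤ 1 := by
            rw [Matrix.one_apply]
            split_ifs <;> simp
          have h9 := abs_sub ((Z i j : ℤ) : ℝ)
            (((1 : Matrix (Fin (m + 1)) (Fin (m + 1)) ℤ) i j : ℤ) : ℝ)
          have h10 := hbd i j
          have h11 := hMq i j hij
          linarith
        obtain ⟨a, b, hab⟩ : ∃ a b, Z a b ≠ (1 : Matrix (Fin (m + 1)) (Fin (m + 1)) ℤ) a b := by
          by_contra h4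
          push Not at h4
          exact hns (by ext a b; exact h4 a b)
        have h4 : a < b := by
          by_contra h5
          exact hab (h3 a b (not_lt.1 h5))
        have h5 : mc_g q (Z a b) = 1 := by
          have h6 := h2 a b
          rw [Matrix.one_apply_ne h4.ne, sub_zero] at h6
          rw [Matrix.one_apply_ne h4.ne] at hab
          unfold mc_g
          rw [if_pos ⟨hab, h6⟩]
        have h6 : (1 : ℝ) ≤ ∑ a, ∑ b, mc_g q (Z a b) := by
          rw [← h5]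
          have h7 := Finset.single_le_sum (f := fun b => mc_g q (Z a b))
            (fun b _ => mc_g_nonneg q _) (Finset.mem_univ b)
          have h8 := Finset.single_le_sum (f := fun a => ∑ b, mc_g q (Z a b))
            (fun a _ => Finset.sum_nonneg fun b _ => mc_g_nonneg q _) (Finset.mem_univ a)
          exact h7.trans h8
        have h7 : (Nx q (qq (Z : Matrix (Fin (m + 1)) (Fin (m + 1)) ℤ)) : ℝ) ≤
            (q : ℝ) ^ (m + 1) := by
          exact_mod_cast mc_Nx_le (q := q) (qq (Z : Matrix (Fin (m + 1)) (Fin (m + 1)) ℤ))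
        have h8 : (q : ℝ) ^ (m + 1) * 1 ≤ (q : ℝ) ^ (m + 1) * ∑ a, ∑ b, mc_g q (Z a b) :=
          mul_le_mul_of_nonneg_left h6 (by positivity)
        linarith
      · have h2 : (Nx q (qq (Z : Matrix (Fin (m + 1)) (Fin (m + 1)) ℤ)) : ℝ) ≤ (q : ℝ) ^ m := by
          exact_mod_cast mc_Nx_lt _ h1
        linarith
    · rw [if_neg hns]
      linarith
  -- the sums
  set P : ℝ := ∏ i, ∏ j, (1 + 2 * M i j) with hP
  have hcard : ∀ i j, ((S i j).card : ℝ) ≤ 1 + 2 * M i j := by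
    intro i j
    have h1 : (S i j).card = 2 * k i j + 1 := by
      show (Finset.Icc (-(k i j : ℤ)) (k i j)).card = _
      rw [Int.card_Icc]
      omega
    rw [h1]
    push_cast
    have := hmM i j
    linarith
  have hP0 : 0 ≤ P := Finset.prod_nonneg fun i _ => Finset.prod_nonneg fun j _ => by
    have := hM i j
    linarith
  have hTcard : (T.card : ℝ) ≤ P := by
    have h1 := Pool.Agent.GLQ.c3_prod S (fun _ _ _ => 1)
    simp only [Finset.prod_const_one, Finset.sum_const, nsmul_eq_mul, mul_one] at h1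
    show ((Fintype.piFinset fun i => Fintype.piFinset (S i)).card : ℝ) ≤ P
    rw [h1, hP]
    exact Finset.prod_le_prod (fun i _ => Finset.prod_nonneg fun j _ => Nat.cast_nonneg _)
      fun i _ => Finset.prod_le_prod (fun j _ => Nat.cast_nonneg _) fun j _ => hcard i j
  have hTg : ∀ a b, ∑ Z ∈ T, mc_g q (Z a b) ≤ (q : ℝ)⁻¹ * P := by
    intro a b
    have h1 : ∀ Z ∈ T, mc_g q (Z a b) =
        ∏ i, ∏ j, (if i = a then (if j = b then mc_g q (Z i j) else 1) else 1) := by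
      intro Z _
      have h2 : ∀ i, (∏ j, (if i = a then (if j = b then mc_g q (Z i j) else 1) else 1)) =
          if i = a then mc_g q (Z i b) else 1 := by
        intro i
        by_cases hi : i = a
        · simp only [hi, if_true]
          rw [Finset.prod_ite_eq' Finset.univ b (fun j => mc_g q (Z a j)),
            if_pos (Finset.mem_univ b)]
        · simp only [hi, if_false, Finset.prod_const_one]
      rw [Finset.prod_congr rfl fun i _ => h2 i,
        Finset.prod_ite_eq' Finset.univ a (fun i => mc_g q (Z i b)), if_pos (Finset.mem_univ a)]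
    rw [Finset.sum_congr rfl h1]
    have h3 := Pool.Agent.GLQ.c3_prod S
      (fun i j z => if i = a then (if j = b then mc_g q z else 1) else 1)
    rw [show (∑ Z ∈ T, ∏ i, ∏ j, (if i = a then (if j = b then mc_g q (Z i j) else 1) else 1)) =
      _ from h3]
    have h4 : ∀ i j, ∑ z ∈ S i j, (if i = a then (if j = b then mc_g q z else 1) else 1) ≤
        (if i = a then (if j = b then (q : ℝ)⁻¹ else 1) else 1) * (1 + 2 * M i j) := by
      intro i j
      by_cases hi : i = a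
      · by_cases hj : j = b
        · simp only [hi, hj, if_true]
          have h5 := mc_gsum q hqp (k a b)
          have h6 := hmM a b
          rw [inv_mul_eq_div, le_div_iff₀ hq0, mul_comm]
          have h7 : (2 * (k a b : ℝ)) ≤ 1 + 2 * M a b := by linarith
          exact h5.trans h7
        · simp only [hi, hj, if_true, if_false, Finset.sum_const, nsmul_eq_mul, mul_one, one_mul]
          exact hcard a j
      · simp only [hi, if_false, Finset.sum_const, nsmul_eq_mul, mul_one, one_mul]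
        exact hcard i j
    have h5 : ∀ i j, 0 ≤ ∑ z ∈ S i j, (if i = a then (if j = b then mc_g q z else 1) else 1) := by
      intro i j
      refine Finset.sum_nonneg fun z _ => ?_
      split_ifs
      · exact mc_g_nonneg q z
      · exact zero_le_one
      · exact zero_le_one
    calc ∏ i, ∏ j, ∑ z ∈ S i j, (if i = a then (if j = b then mc_g q z else 1) else 1)
        ≤ ∏ i, ∏ j, ((if i = a then (if j = b then (q : ℝ)⁻¹ else 1) else 1) * (1 + 2 * M i j)) :=
          Finset.prod_le_prod (fun i _ => Finset.prod_nonneg fun j _ => h5 i j)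
            fun i _ => Finset.prod_le_prod (fun j _ => h5 i j) fun j _ => h4 i j
      _ = (∏ i, ∏ j, (if i = a then (if j = b then (q : ℝ)⁻¹ else 1) else 1)) * P := by
          rw [hP, ← Finset.prod_mul_distrib]
          exact Finset.prod_congr rfl fun i _ => Finset.prod_mul_distrib
      _ = (q : ℝ)⁻¹ * P := by
          congr 1
          have h2 : ∀ i : Fin (m + 1),
              (∏ j : Fin (m + 1), (if i = a then (if j = b then (q : ℝ)⁻¹ else 1) else 1)) =
              if i = a then (q : ℝ)⁻¹ else 1 := by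
            intro i
            by_cases hi : i = a
            · simp only [hi, if_true]
              rw [Finset.prod_ite_eq' Finset.univ b (fun _ => (q : ℝ)⁻¹),
                if_pos (Finset.mem_univ b)]
            · simp only [hi, if_false, Finset.prod_const_one]
          rw [Finset.prod_congr rfl fun i _ => h2 i,
            Finset.prod_ite_eq' Finset.univ a (fun _ => (q : ℝ)⁻¹), if_pos (Finset.mem_univ a)]
  calc ∑ Z ∈ T, F Z ≤ ∑ Z ∈ T, ((q : ℝ) ^ m + (q : ℝ) ^ (m + 1) * ∑ a, ∑ b, mc_g q (Z a b)) :=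
        Finset.sum_le_sum hpt
    _ = T.card * (q : ℝ) ^ m + (q : ℝ) ^ (m + 1) * ∑ a, ∑ b, ∑ Z ∈ T, mc_g q (Z a b) := by
        rw [Finset.sum_add_distrib, ← Finset.mul_sum, Finset.sum_const, nsmul_eq_mul,
          Finset.sum_comm]
        congr 2
        exact Finset.sum_congr rfl fun a _ => Finset.sum_comm
    _ ≤ P * (q : ℝ) ^ m + (q : ℝ) ^ (m + 1) *
        ∑ _a : Fin (m + 1), ∑ _b : Fin (m + 1), (q : ℝ)⁻¹ * P := by
        apply add_le_add
        · exact mul_le_mul_of_nonneg_right hTcard (by positivity)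
        · exact mul_le_mul_of_nonneg_left
            (Finset.sum_le_sum fun a _ => Finset.sum_le_sum fun b _ => hTg a b) (by positivity)
    _ = (1 + ((m : ℝ) + 1) ^ 2) * (q : ℝ) ^ m * P := by
        simp only [Finset.sum_const, Finset.card_univ, Fintype.card_fin, nsmul_eq_mul]
        push_cast
        rw [pow_succ (q : ℝ) m]
        field_simp

theorem mc_qq_inj {n : ℕ} : Function.Injective (qq : Matrix (Fin n) (Fin n) ℤ → _) := by
  intro a b h
  ext i j
  have h1 := congrFun (congrFun h i) j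
  have h2 : ((a i j : ℤ) : ℚ) = ((b i j : ℤ) : ℚ) := h1
  exact_mod_cast h2

theorem mc_rr_qq {n : ℕ} (Z : Matrix (Fin n) (Fin n) ℤ) : rr (qq Z) = re Z := by
  ext i j
  show (((Z i j : ℤ) : ℚ) : ℝ) = ((Z i j : ℤ) : ℝ)
  norm_cast

open Classical in
/-- `ZS` as a sum over the integral matrices -/
theorem mc_ZS (m q : ℕ) (R : ℝ) (A : Mt (m + 1)) :
    ZS m q R {Lz (m + 1)} (Lz (m + 1)) A ≤
      ∑' Z : Matrix (Fin (m + 1)) (Fin (m + 1)) ℤ,
        (if Z ≠ 1 ∧ Bd R A Z then (Nx q (qq Z) : ℝ≥0∞) else 0) := by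
  unfold ZS
  have hsupp : ∀ ζ : Matrix (Fin (m + 1)) (Fin (m + 1)) ℚ,
      ZC m R {Lz (m + 1)} (Lz (m + 1)) A ζ →
      ∃ γ : SLZ (m + 1), ζ = qq γ.1 ∧ γ.1 ≠ 1 ∧ Bd R A γ.1 := by
    rintro ζ ⟨h1, h2, ⟨d', h3, h4, h5⟩, h6⟩
    obtain ⟨γ, hγ⟩ := mc_int h2 h3 h4 h5
    refine ⟨γ, hγ, ?_, ?_⟩
    · intro h7
      apply h1
      rw [hγ, h7, Pool.Agent.GLQ.l1a_qq_one]
    · intro a b
      have h7 := h6 a b
      have h8 : ζ.det = 1 := by
        rw [hγ, Pool.Agent.GLQ.l1a_qq_det, γ.2]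
        exact Int.cast_one
      rw [h8, hγ, mc_rr_qq] at h7
      simpa using h7
  rw [← Function.Injective.tsum_eq (g := (qq : Matrix (Fin (m + 1)) (Fin (m + 1)) ℤ → _)) mc_qq_inj]
  · refine ENNReal.tsum_le_tsum fun Z => ?_
    by_cases h : ZC m R {Lz (m + 1)} (Lz (m + 1)) A (qq Z)
    · obtain ⟨γ, h1, h2, h3⟩ := hsupp _ h
      have h4 : Z = γ.1 := mc_qq_inj h1
      rw [if_pos h, if_pos ⟨by rw [h4]; exact h2, by rw [h4]; exact h3⟩]
    · rw [if_neg h]
      exact zero_le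
  · intro ζ hζ
    rw [Function.mem_support] at hζ
    by_cases h : ZC m R {Lz (m + 1)} (Lz (m + 1)) A ζ
    · obtain ⟨γ, h1, -, -⟩ := hsupp _ h
      exact ⟨γ.1, h1.symm⟩
    · rw [if_neg h] at hζ
      exact absurd rfl hζ

/-- [M3] -/
theorem gam_box_pr (m : ℕ) (hm : 1 ≤ m) (R : ℝ) (hR : 1 ≤ R) : ∃ (C : ℝ) (q0 : ℕ), 0 ≤ C ∧
    ∀ (q : ℕ) [Fact q.Prime], q0 ≤ q → ∀ s : Fin (m + 1) → ℝ, (∀ i, 0 < s i) →
      ∫⁻ A in Box (m + 1) s, ZS m q R {Lz (m + 1)} (Lz (m + 1)) A ≤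
        ENNReal.ofReal (C * (q : ℝ) ^ m * (∏ i, s i) ^ (m + 1)) := by
  obtain ⟨C1, hC1, hent⟩ := Pool.Agent.GLQ.red_entry (m + 1)
  obtain ⟨C3, hvol⟩ := Pool.Agent.GLQ.box_vol (m + 1)
  set D : ℝ := 2 ^ (m + 2) * (1 + 4 * C1) with hD
  refine ⟨(1 + ((m : ℝ) + 1) ^ 2) * (D * R) ^ ((m + 1) ^ 2) * |C3|,
    ⌈2 * C1 * R * 2 ^ (m + 2)⌉₊ + 2, by positivity, ?_⟩
  intro q _ hq s hs
  rcases (Box (m + 1) s).eq_empty_or_nonempty with he | ⟨A0, U0, t0, O0, hr0, hst0⟩
  · rw [he]; simp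
  have hR0 : 0 < R := by linarith
  -- ratios
  have hrat : ∀ i j : Fin (m + 1), i ≤ j → s j / s i ≤ 2 ^ (m + 2) := by
    intro i j hij
    rw [div_le_iff₀ (hs i)]
    have h1 := Pool.Agent.GLQ.red_ratio hr0 i j hij
    have h2 := hst0 i
    have h3 := hst0 j
    have h4 : (0 : ℝ) < 2 ^ (m + 1) := by positivity
    calc s j ≤ t0 j := h3.1
      _ ≤ 2 ^ (m + 1) * t0 i := h1
      _ ≤ 2 ^ (m + 1) * (2 * s i) := by
          exact mul_le_mul_of_nonneg_left h2.2 h4.le
      _ = 2 ^ (m + 2) * s i := by ring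
  set M : Fin (m + 1) → Fin (m + 1) → ℝ := fun i j => 2 * C1 * R * (s i / s j) with hM
  have hM0 : ∀ i j, 0 ≤ M i j := by
    intro i j
    have := hs i
    have := hs j
    rw [hM]
    positivity
  have hMq : ∀ i j, j ≤ i → M i j + 1 < q := by
    intro i j hij
    have h1 : M i j ≤ 2 * C1 * R * 2 ^ (m + 2) :=
      mul_le_mul_of_nonneg_left (hrat j i hij) (by positivity)
    have h2 := Nat.le_ceil (2 * C1 * R * 2 ^ (m + 2))
    have h3 : ((⌈2 * C1 * R * 2 ^ (m + 2)⌉₊ + 2 : ℕ) : ℝ) ≤ (q : ℝ) := by exact_mod_cast hq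
    push_cast at h3
    linarith
  have hsum := mc_sum m q M hM0 hMq
  set S : ℝ := (1 + ((m : ℝ) + 1) ^ 2) * (q : ℝ) ^ m * ∏ i, ∏ j, (1 + 2 * M i j) with hS
  have hpt : ∀ A ∈ Box (m + 1) s, ZS m q R {Lz (m + 1)} (Lz (m + 1)) A ≤ ENNReal.ofReal S := by
    rintro A ⟨U, t, O, hr, hst⟩
    refine (mc_ZS m q R A).trans (le_trans ?_ hsum)
    refine ENNReal.tsum_le_tsum fun Z => ?_
    by_cases hZ : Z ≠ 1 ∧ Bd R A Z
    · have h2 : ∀ i j, |((Z i j : ℤ) : ℝ)| ≤ M i j := by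
        intro i j
        refine (hent A U t O hr Z R hZ.2 i j).trans ?_
        rw [hM]
        have h3 : t i / t j ≤ 2 * (s i / s j) := by
          have h4 : 0 < t j := hr.pos j
          rw [div_le_iff₀ h4]
          have h5 := (hst j).1
          have h6 := (hst i).2
          have h7 : s i = s i / s j * s j := by
            rw [div_mul_cancel₀ _ (hs j).ne']
          have h8 : 0 ≤ s i / s j := (div_pos (hs i) (hs j)).le
          calc t i ≤ 2 * s i := h6
            _ = 2 * (s i / s j) * s j := by rw [mul_assoc, ← h7]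
            _ ≤ 2 * (s i / s j) * t j := mul_le_mul_of_nonneg_left h5 (by positivity)
        calc C1 * R * (t i / t j) ≤ C1 * R * (2 * (s i / s j)) :=
              mul_le_mul_of_nonneg_left h3 (by positivity)
          _ = 2 * C1 * R * (s i / s j) := by ring
      rw [if_pos hZ, if_pos ⟨hZ.1, h2⟩]
    · rw [if_neg hZ]; exact zero_le
  -- the product
  have hP : ∏ i, ∏ j, (1 + 2 * M i j) ≤ (D * R) ^ ((m + 1) ^ 2) *
      ∏ i : Fin (m + 1), ∏ j : Fin (m + 1), (if i < j then s i / s j else 1) := by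
    have h0 : (D * R) ^ ((m + 1) ^ 2) *
        ∏ i : Fin (m + 1), ∏ j : Fin (m + 1), (if i < j then s i / s j else 1) =
        ∏ i : Fin (m + 1), ∏ j : Fin (m + 1), (D * R * (if i < j then s i / s j else 1)) := by
      simp_rw [Finset.prod_mul_distrib]
      congr 1
      simp only [Finset.prod_const, Finset.card_univ, Fintype.card_fin]
      simp only [mul_pow, ← pow_mul, ← sq]
    rw [h0]
    refine Finset.prod_le_prod (fun i _ => Finset.prod_nonneg fun j _ => ?_) fun i _ =>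
      Finset.prod_le_prod (fun j _ => ?_) fun j _ => ?_
    · have := hM0 i j; positivity
    · have := hM0 i j; positivity
    · have hsi := hs i
      have hsj := hs j
      have h2n : (1 : ℝ) ≤ 2 ^ (m + 2) := one_le_pow₀ (by norm_num)
      split_ifs with hij
      · have h1 := hrat i j hij.le
        have h2 : 1 ≤ 2 ^ (m + 2) * (s i / s j) := by
          rw [div_le_iff₀ hsi] at h1
          rw [mul_div_assoc', le_div_iff₀ hsj]
          linarith
        have h3 : 0 < s i / s j := div_pos hsi hsj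
        rw [hM, hD]
        have h4 : (1 : ℝ) ≤ 2 ^ (m + 2) * (s i / s j) * R := by
          nlinarith
        have h5 : 4 * C1 * R * (s i / s j) ≤ 2 ^ (m + 2) * (4 * C1 * R * (s i / s j)) := by
          have : 0 ≤ 4 * C1 * R * (s i / s j) := by positivity
          nlinarith
        calc 1 + 2 * (2 * C1 * R * (s i / s j)) = 1 + 4 * C1 * R * (s i / s j) := by ring
          _ ≤ 2 ^ (m + 2) * (s i / s j) * R + 2 ^ (m + 2) * (4 * C1 * R * (s i / s j)) :=
              add_le_add h4 h5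
          _ = 2 ^ (m + 2) * (1 + 4 * C1) * R * (s i / s j) := by ring
      · have h1 := hrat j i (not_lt.mp hij)
        rw [hM, hD]
        have h6 : 2 * (2 * C1 * R * (s i / s j)) ≤ 2 * (2 * C1 * R * 2 ^ (m + 2)) := by
          have : 0 ≤ 2 * C1 * R := by positivity
          have := mul_le_mul_of_nonneg_left h1 this
          linarith
        have h7 : (1 : ℝ) ≤ 2 ^ (m + 2) * R := by nlinarith
        calc 1 + 2 * (2 * C1 * R * (s i / s j)) ≤ 2 ^ (m + 2) * R +
              2 * (2 * C1 * R * 2 ^ (m + 2)) := add_le_add h7 h6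
          _ = 2 ^ (m + 2) * (1 + 4 * C1) * R * 1 := by ring
  have hvol' := hvol s hs
  have hQ0 : 0 < ∏ i : Fin (m + 1), ∏ j : Fin (m + 1), (if i < j then s i / s j else 1) :=
    Finset.prod_pos fun i _ => Finset.prod_pos fun j _ => by
      split_ifs
      · exact div_pos (hs i) (hs j)
      · exact one_pos
  have hR0 : 0 < ∏ i : Fin (m + 1), s i ^ (2 * (i : ℕ) + 1) :=
    Finset.prod_pos fun i _ => pow_pos (hs i) _
  have hD0 : 0 < D := by rw [hD]; positivity
  have hS' : S ≤ (1 + ((m : ℝ) + 1) ^ 2) * (q : ℝ) ^ m * ((D * R) ^ ((m + 1) ^ 2) *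
      ∏ i : Fin (m + 1), ∏ j : Fin (m + 1), (if i < j then s i / s j else 1)) := by
    rw [hS]
    exact mul_le_mul_of_nonneg_left hP (by positivity)
  calc ∫⁻ A in Box (m + 1) s, ZS m q R {Lz (m + 1)} (Lz (m + 1)) A
      ≤ ∫⁻ _ in Box (m + 1) s, ENNReal.ofReal S := by
        refine setLIntegral_mono measurable_const hpt
    _ = ENNReal.ofReal S * volume (Box (m + 1) s) := by
        rw [lintegral_const, Measure.restrict_apply MeasurableSet.univ, Set.univ_inter]
    _ ≤ ENNReal.ofReal ((1 + ((m : ℝ) + 1) ^ 2) * (q : ℝ) ^ m * ((D * R) ^ ((m + 1) ^ 2) *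
      ∏ i : Fin (m + 1), ∏ j : Fin (m + 1), (if i < j then s i / s j else 1))) *
        ENNReal.ofReal (|C3| * ∏ i : Fin (m + 1), s i ^ (2 * (i : ℕ) + 1)) := by
        refine mul_le_mul' (ENNReal.ofReal_le_ofReal hS') (hvol'.trans
          (ENNReal.ofReal_le_ofReal ?_))
        exact mul_le_mul_of_nonneg_right (le_abs_self C3) hR0.le
    _ = ENNReal.ofReal ((1 + ((m : ℝ) + 1) ^ 2) * (D * R) ^ ((m + 1) ^ 2) * |C3| *
        (q : ℝ) ^ m * (∏ i, s i) ^ (m + 1)) := by
        rw [← ENNReal.ofReal_mul (by positivity), ← Pool.Agent.GLQ.c4a_prod m s hs]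
        congr 1
        ring

end

end Pool.Agent.SGB

namespace Pool.Agent.SGB

alias gam_box := gam_box_pr

end Pool.Agent.SGB
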