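import Pool.Agent.Lib_helper56.SGB.Defs
import Pool.Agent.Lib_helper56.SGB.F.MC
/-!
# Project SGN, part B, block MD: the Siegel set
-/

set_option autoImplicit false

namespace Pool.Agent.SGB

open MeasureTheory Matrix
open Pool.Agent.RS (Mt lm SLZ)
open Pool.Agent.GLQ (re unip cube slab Xp wN IN rm rr qq Lat latt Lz IsRed RY Om Box Kern IsInv Bd sp)
open Pool.Agent.SGN (md repR repL heckeT heckeA supS subS UW Wd lw nf WOk)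
open scoped ENNReal

noncomputable section

theorem gam_siegel_pr (m : ℕ) (hm : 1 ≤ m) (R : ℝ) (hR : 1 ≤ R) : ∃ (C : ℝ) (q0 : ℕ), 0 ≤ C ∧
    ∀ (q : ℕ) [Fact q.Prime], q0 ≤ q → ∀ Y : ℝ, 1 ≤ Y →
      ∫⁻ A in Xp (m + 1) ∩ RY (m + 1) Y, ZS m q R {Lz (m + 1)} (Lz (m + 1)) A ≤
        ENNReal.ofReal (C * (q : ℝ) ^ m * (2 + Real.log Y) ^ m) := by
  obtain ⟨C0, q0, hC00, hC0⟩ := gam_box m hm R hR
  refine ⟨C0 * 2 ^ (m + 1) * (2 ^ m * ((m : ℝ) + 3)), q0, by positivity, ?_⟩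
  intro q _ hq Y hY
  have hlog : 0 ≤ Real.log Y := Real.log_nonneg hY
  have hsub : Xp (m + 1) ∩ RY (m + 1) Y ⊆ ⋃ x : Pool.Agent.GLQ.c4b_F m Y,
      Box (m + 1) (Pool.Agent.GLQ.c4b_s x.1) := by
    intro A hA
    obtain ⟨x, hx, hA2⟩ := Pool.Agent.GLQ.c4b_cover m Y hY A hA
    exact Set.mem_iUnion.2 ⟨⟨x, hx⟩, hA2⟩
  have hone : ∀ x ∈ Pool.Agent.GLQ.c4b_F m Y,
      ∫⁻ A in Box (m + 1) (Pool.Agent.GLQ.c4b_s x), ZS m q R {Lz (m + 1)} (Lz (m + 1)) A ≤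
      ENNReal.ofReal (C0 * 2 ^ (m + 1) * (q : ℝ) ^ m) := by
    intro x hx
    have hs : ∀ i, 0 < Pool.Agent.GLQ.c4b_s x i := fun i => zpow_pos two_pos _
    refine (hC0 q hq (Pool.Agent.GLQ.c4b_s x) hs).trans (ENNReal.ofReal_le_ofReal ?_)
    have hprod : ∏ i, Pool.Agent.GLQ.c4b_s x i ≤ 2 := by
      have h1 : ∏ i, Pool.Agent.GLQ.c4b_s x i = (2 : ℝ) ^ (∑ i, Pool.Agent.GLQ.c4b_a x i) := by
        unfold Pool.Agent.GLQ.c4b_s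
        exact Pool.Agent.GLQ.c4b_zpow _ _
      rw [h1]
      have h2 : ∑ i, Pool.Agent.GLQ.c4b_a x i ≤ 1 := by
        refine (Pool.Agent.GLQ.c4b_sum_le x).trans ?_
        unfold Pool.Agent.GLQ.c4b_F at hx
        exact (Finset.mem_Icc.1 (Finset.mem_product.1 hx).2).2
      calc (2 : ℝ) ^ (∑ i, Pool.Agent.GLQ.c4b_a x i) ≤ (2 : ℝ) ^ (1 : ℤ) :=
            zpow_le_zpow_right₀ one_le_two h2
        _ = 2 := by norm_num
    have hprod0 : 0 ≤ ∏ i, Pool.Agent.GLQ.c4b_s x i := Finset.prod_nonneg fun i _ => (hs i).le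
    have hpw : (∏ i, Pool.Agent.GLQ.c4b_s x i) ^ (m + 1) ≤ 2 ^ (m + 1) :=
      pow_le_pow_left₀ hprod0 hprod _
    calc C0 * (q : ℝ) ^ m * (∏ i, Pool.Agent.GLQ.c4b_s x i) ^ (m + 1)
        ≤ C0 * (q : ℝ) ^ m * 2 ^ (m + 1) :=
          mul_le_mul_of_nonneg_left hpw (by positivity)
      _ = C0 * 2 ^ (m + 1) * (q : ℝ) ^ m := by ring
  calc ∫⁻ A in Xp (m + 1) ∩ RY (m + 1) Y, ZS m q R {Lz (m + 1)} (Lz (m + 1)) A
      ≤ ∫⁻ A in ⋃ x : Pool.Agent.GLQ.c4b_F m Y, Box (m + 1) (Pool.Agent.GLQ.c4b_s x.1),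
          ZS m q R {Lz (m + 1)} (Lz (m + 1)) A :=
        lintegral_mono_set hsub
    _ ≤ ∑' x : Pool.Agent.GLQ.c4b_F m Y, ∫⁻ A in Box (m + 1) (Pool.Agent.GLQ.c4b_s x.1),
          ZS m q R {Lz (m + 1)} (Lz (m + 1)) A :=
        lintegral_iUnion_le _ _
    _ = ∑ x : Pool.Agent.GLQ.c4b_F m Y, ∫⁻ A in Box (m + 1) (Pool.Agent.GLQ.c4b_s x.1),
          ZS m q R {Lz (m + 1)} (Lz (m + 1)) A := tsum_fintype _
    _ ≤ ∑ _x : Pool.Agent.GLQ.c4b_F m Y, ENNReal.ofReal (C0 * 2 ^ (m + 1) * (q : ℝ) ^ m) :=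
        Finset.sum_le_sum fun x _ => hone x.1 x.2
    _ = ((Pool.Agent.GLQ.c4b_F m Y).card : ℝ≥0∞) *
          ENNReal.ofReal (C0 * 2 ^ (m + 1) * (q : ℝ) ^ m) := by
        rw [Finset.sum_const, Finset.card_univ, Fintype.card_coe, nsmul_eq_mul]
    _ = ENNReal.ofReal (((Pool.Agent.GLQ.c4b_F m Y).card : ℝ) *
          (C0 * 2 ^ (m + 1) * (q : ℝ) ^ m)) := by
        rw [ENNReal.ofReal_mul (Nat.cast_nonneg _), ENNReal.ofReal_natCast]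
    _ ≤ ENNReal.ofReal ((2 ^ m * ((m : ℝ) + 3) * (2 + Real.log Y) ^ m) *
          (C0 * 2 ^ (m + 1) * (q : ℝ) ^ m)) := by
        refine ENNReal.ofReal_le_ofReal
          (mul_le_mul_of_nonneg_right (Pool.Agent.GLQ.c4b_card m Y hY) ?_)
        positivity
    _ = ENNReal.ofReal (C0 * 2 ^ (m + 1) * (2 ^ m * ((m : ℝ) + 3)) * (q : ℝ) ^ m *
          (2 + Real.log Y) ^ m) := by
        congr 1
        ring

end

end Pool.Agent.SGB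

namespace Pool.Agent.SGB

alias gam_siegel := gam_siegel_pr

end Pool.Agent.SGB
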