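import Pool.Agent.Lib_helper56.SGB.Defs
/-! # SGB, block PB: volumes of dyadic boxes -/

set_option autoImplicit false

namespace Pool.Agent.SGB

open MeasureTheory Matrix
open Pool.Agent.RS (Mt lm SLZ)
open Pool.Agent.GLQ (re unip cube slab Xp wN IN rm rr qq Lat latt Lz IsRed RY Om Box Kern IsInv Bd sp)
open Pool.Agent.SGN (md repR repL heckeT heckeA supS subS UW Wd lw nf WOk uvec unrm xval)
open scoped ENNReal

noncomputable section

theorem pb_absdet {n : ℕ} {A : Mt n} {U : Matrix (Fin n) (Fin n) ℝ} {t : Fin n → ℝ}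
    {O : Matrix (Fin n) (Fin n) ℝ} (h : IsRed A U t O) :
    |(Matrix.of A).det| = ∏ i, t i := by
  have hU : U.det = 1 := by
    rw [Matrix.det_of_isUpperTriangular (fun i j hij => h.low i j hij)]
    exact Finset.prod_eq_one fun i _ => h.one i
  have hO : |O.det| = 1 := by
    have h1 := congrArg Matrix.det h.orth
    rw [Matrix.det_mul, Matrix.det_transpose, Matrix.det_one] at h1
    rcases mul_self_eq_one_iff.1 h1 with h | h <;> rw [h] <;> simp
  have hp : 0 < ∏ i, t i := Finset.prod_pos fun i _ => h.pos i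
  rw [h.eq, Matrix.det_mul, Matrix.det_mul, hU, Matrix.det_diagonal, one_mul, abs_mul, hO, mul_one,
    abs_of_pos hp]

theorem pb_scale {n : ℕ} {A B : Mt n} {U : Matrix (Fin n) (Fin n) ℝ} {t : Fin n → ℝ}
    {O : Matrix (Fin n) (Fin n) ℝ} (h : IsRed A U t O) {c : ℝ} (hc : 0 < c) (hB : B = c • A) :
    IsRed B U (fun i => c * t i) O where
  eq := by
    have h1 : Matrix.of B = c • Matrix.of A := by
      rw [hB]
      rfl
    have h2 : Matrix.diagonal (fun i => c * t i) = c • Matrix.diagonal t := by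
      ext i j
      by_cases hij : i = j
      · subst hij
        simp
      · simp [hij]
    rw [h1, h2, h.eq, Matrix.mul_smul, Matrix.smul_mul]
  orth := h.orth
  one := h.one
  low := h.low
  up := h.up
  pos := fun i => mul_pos hc (h.pos i)
  adj := fun i j hij => by
    have := h.adj i j hij
    nlinarith

theorem pb_cover {m : ℕ} (a : Fin (m + 1) → ℤ) (A : Mt (m + 1)) (hA : A ∈ Xp (m + 1))
    (h : hat A ∈ Box (m + 1) fun i => (2 : ℝ) ^ (a i)) :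
    ∃ e : Fin (m + 1) → Fin 2, A ∈ Box (m + 1) fun i => (2 : ℝ) ^ (a i + ((e i : ℕ) : ℤ)) := by
  obtain ⟨U, t, O, hr, ht⟩ := h
  obtain ⟨h1, h2⟩ := hA
  have hd : 0 < (Matrix.of A).det := by linarith
  set p : ℝ := 1 / ((m : ℝ) + 1) with hp
  have hp0 : 0 < p := by positivity
  have hp1 : p ≤ 1 := by
    rw [hp, div_le_one (by positivity)]
    have : (0 : ℝ) ≤ m := Nat.cast_nonneg m
    linarith
  set c : ℝ := (Matrix.of A).det ^ p with hc
  have hc1 : 1 ≤ c := Real.one_le_rpow h1 hp0.le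
  have hc2 : c ≤ 2 := by
    calc c ≤ (2 : ℝ) ^ p := Real.rpow_le_rpow hd.le h2 hp0.le
      _ ≤ (2 : ℝ) ^ (1 : ℝ) := Real.rpow_le_rpow_of_exponent_le one_le_two hp1
      _ = 2 := Real.rpow_one 2
  have hcc : A = c • hat A := by
    unfold hat
    rw [smul_smul, hc, ← Real.rpow_add hd, ← hp, add_neg_cancel, Real.rpow_zero, one_smul]
  have hr2 := pb_scale hr (lt_of_lt_of_le one_pos hc1) hcc
  classical
  refine ⟨fun i => if c * t i ≤ 2 * (2 : ℝ) ^ (a i) then 0 else 1, U, fun i => c * t i, O, hr2,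
    fun i => ?_⟩
  obtain ⟨e1, e2⟩ := ht i
  have hti := hr.pos i
  have h2a : (0 : ℝ) < (2 : ℝ) ^ (a i) := zpow_pos two_pos _
  by_cases hci : c * t i ≤ 2 * (2 : ℝ) ^ (a i)
  · simp only [hci, if_true]
    refine ⟨?_, ?_⟩
    · simp only [Fin.val_zero, Nat.cast_zero, add_zero]
      nlinarith
    · simpa using hci
  · simp only [hci, if_false]
    rw [Fin.val_one, Nat.cast_one, zpow_add_one₀ (two_ne_zero)]
    push Not at hci
    constructor
    · linarith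
    · nlinarith

theorem hat_vol_pr (m : ℕ) : ∃ C : ℝ, 0 ≤ C ∧ ∀ a : Fin (m + 1) → ℤ,
    volume {A : Mt (m + 1) | A ∈ Xp (m + 1) ∧ hat A ∈ Box (m + 1) fun i => (2 : ℝ) ^ (a i)} ≤
      ENNReal.ofReal (C * ∏ i : Fin (m + 1), ((2 : ℝ) ^ (a i)) ^ (2 * (i : ℕ) + 1)) := by
  obtain ⟨C0, hC0⟩ := Pool.Agent.GLQ.box_vol_pr (m + 1)
  set C1 : ℝ := max C0 0 with hC1
  have hC1' : 0 ≤ C1 := le_max_right _ _
  refine ⟨(2 : ℝ) ^ (m + 1) * (C1 * ∏ i : Fin (m + 1), (2 : ℝ) ^ (2 * (i : ℕ) + 1)),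
    by positivity, fun a => ?_⟩
  have hsub : {A : Mt (m + 1) | A ∈ Xp (m + 1) ∧ hat A ∈ Box (m + 1) fun i => (2 : ℝ) ^ (a i)} ⊆
      ⋃ e ∈ (Finset.univ : Finset (Fin (m + 1) → Fin 2)),
        Box (m + 1) fun i => (2 : ℝ) ^ (a i + ((e i : ℕ) : ℤ)) := by
    rintro A ⟨hA, hB⟩
    obtain ⟨e, he⟩ := pb_cover a A hA hB
    simp only [Finset.mem_univ, Set.iUnion_true, Set.mem_iUnion]
    exact ⟨e, he⟩
  have hP : 0 ≤ ∏ i : Fin (m + 1), ((2 : ℝ) ^ (a i)) ^ (2 * (i : ℕ) + 1) :=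
    Finset.prod_nonneg fun i _ => by positivity
  have hone : ∀ e : Fin (m + 1) → Fin 2,
      volume (Box (m + 1) fun i => (2 : ℝ) ^ (a i + ((e i : ℕ) : ℤ))) ≤
        ENNReal.ofReal (C1 * ((∏ i : Fin (m + 1), (2 : ℝ) ^ (2 * (i : ℕ) + 1)) *
          ∏ i : Fin (m + 1), ((2 : ℝ) ^ (a i)) ^ (2 * (i : ℕ) + 1))) := by
    intro e
    refine (hC0 _ fun i => zpow_pos two_pos _).trans (ENNReal.ofReal_le_ofReal ?_)
    have hb : ∏ i : Fin (m + 1), ((2 : ℝ) ^ (a i + ((e i : ℕ) : ℤ))) ^ (2 * (i : ℕ) + 1) ≤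
        (∏ i : Fin (m + 1), (2 : ℝ) ^ (2 * (i : ℕ) + 1)) *
          ∏ i : Fin (m + 1), ((2 : ℝ) ^ (a i)) ^ (2 * (i : ℕ) + 1) := by
      rw [← Finset.prod_mul_distrib]
      refine Finset.prod_le_prod (fun i _ => by positivity) fun i _ => ?_
      rw [← mul_pow]
      refine pow_le_pow_left₀ (by positivity) ?_ _
      rw [zpow_add₀ two_ne_zero, mul_comm]
      refine mul_le_mul_of_nonneg_right ?_ (zpow_pos two_pos _).le
      rw [zpow_natCast]
      calc (2 : ℝ) ^ ((e i : ℕ)) ≤ (2 : ℝ) ^ 1 :=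
            pow_le_pow_right₀ one_le_two (by have := (e i).2; omega)
        _ = 2 := pow_one 2
    calc C0 * ∏ i : Fin (m + 1), ((2 : ℝ) ^ (a i + ((e i : ℕ) : ℤ))) ^ (2 * (i : ℕ) + 1)
        ≤ C1 * ∏ i : Fin (m + 1), ((2 : ℝ) ^ (a i + ((e i : ℕ) : ℤ))) ^ (2 * (i : ℕ) + 1) :=
          mul_le_mul_of_nonneg_right (le_max_left _ _)
            (Finset.prod_nonneg fun i _ => by positivity)
      _ ≤ _ := mul_le_mul_of_nonneg_left hb hC1'
  calc volume {A : Mt (m + 1) | A ∈ Xp (m + 1) ∧ hat A ∈ Box (m + 1) fun i => (2 : ℝ) ^ (a i)}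
      ≤ volume (⋃ e ∈ (Finset.univ : Finset (Fin (m + 1) → Fin 2)),
        Box (m + 1) fun i => (2 : ℝ) ^ (a i + ((e i : ℕ) : ℤ))) := measure_mono hsub
    _ ≤ ∑ e : Fin (m + 1) → Fin 2,
        volume (Box (m + 1) fun i => (2 : ℝ) ^ (a i + ((e i : ℕ) : ℤ))) :=
        measure_biUnion_finset_le _ _
    _ ≤ ∑ _e : Fin (m + 1) → Fin 2,
        ENNReal.ofReal (C1 * ((∏ i : Fin (m + 1), (2 : ℝ) ^ (2 * (i : ℕ) + 1)) *
          ∏ i : Fin (m + 1), ((2 : ℝ) ^ (a i)) ^ (2 * (i : ℕ) + 1))) :=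
        Finset.sum_le_sum fun e _ => hone e
    _ = _ := by
        rw [Finset.sum_const, Finset.card_univ, Fintype.card_fun, Fintype.card_fin,
          Fintype.card_fin, nsmul_eq_mul, Nat.cast_pow, Nat.cast_ofNat,
          show ((2 : ℝ≥0∞) ^ (m + 1)) = ENNReal.ofReal ((2 : ℝ) ^ (m + 1)) by
            rw [ENNReal.ofReal_pow (by norm_num), ENNReal.ofReal_ofNat],
          ← ENNReal.ofReal_mul (by positivity)]
        congr 1
        ring

/-- a box with a matrix of determinant one in it -/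
theorem box_adm_pr {m : ℕ} {a : Fin (m + 1) → ℤ} {A : Mt (m + 1)} (hA : |(Matrix.of A).det| = 1)
    (h : A ∈ Box (m + 1) fun i => (2 : ℝ) ^ (a i)) :
    (∀ i j : Fin (m + 1), (i : ℕ) + 1 = (j : ℕ) → a j ≤ a i + 2) ∧ ∑ i, a i ≤ 0 ∧
      -((m : ℤ) + 1) ≤ ∑ i, a i := by
  obtain ⟨U, t, O, hr, ht⟩ := h
  have hd := pb_absdet hr
  rw [hA] at hd
  have hpow : ∏ i, (2 : ℝ) ^ (a i) = (2 : ℝ) ^ (∑ i, a i) := Pool.Agent.GLQ.c4b_zpow _ _
  refine ⟨fun i j hij => ?_, ?_, ?_⟩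
  · have h1 : (2 : ℝ) ^ (a j) ≤ (2 : ℝ) ^ (a i + 2) := by
      calc (2 : ℝ) ^ (a j) ≤ t j := (ht j).1
        _ ≤ 2 * t i := hr.adj i j hij
        _ ≤ 2 * (2 * (2 : ℝ) ^ (a i)) := by
            have := (ht i).2
            linarith
        _ = (2 : ℝ) ^ (a i + 2) := by
            rw [zpow_add₀ two_ne_zero]
            norm_num
            ring
    exact (zpow_le_zpow_iff_right₀ one_lt_two).1 h1
  · have h1 : (2 : ℝ) ^ (∑ i, a i) ≤ (2 : ℝ) ^ (0 : ℤ) := by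
      rw [← hpow, zpow_zero, hd]
      exact Finset.prod_le_prod (fun i _ => (zpow_pos two_pos _).le) fun i _ => (ht i).1
    exact (zpow_le_zpow_iff_right₀ one_lt_two).1 h1
  · have h1 : (2 : ℝ) ^ (0 : ℤ) ≤ (2 : ℝ) ^ ((m : ℤ) + 1 + ∑ i, a i) := by
      rw [zpow_zero, zpow_add₀ two_ne_zero, ← hpow]
      calc (1 : ℝ) = ∏ i, t i := hd
        _ ≤ ∏ i, (2 * (2 : ℝ) ^ (a i)) :=
            Finset.prod_le_prod (fun i _ => (hr.pos i).le) fun i _ => (ht i).2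
        _ = _ := by
            rw [Finset.prod_mul_distrib, Finset.prod_const, Finset.card_univ, Fintype.card_fin]
            norm_cast
    have h2 := (zpow_le_zpow_iff_right₀ one_lt_two).1 h1
    linarith

end

end Pool.Agent.SGB

namespace Pool.Agent.SGB

alias hat_vol := hat_vol_pr
alias box_adm := box_adm_pr

end Pool.Agent.SGB
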