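import Pool.Agent.Lib_helper56.SGB.Defs
import Pool.Agent.Lib_helper56.SGB.F.PC1

/-! # Project SGN, part B: block PC2 (sums over dyadic boxes with a large gap) -/

set_option autoImplicit false

namespace Pool.Agent.SGB

open MeasureTheory Matrix
open Pool.Agent.RS (Mt lm SLZ)
open Pool.Agent.GLQ (re unip cube slab Xp wN IN rm rr qq Lat latt Lz IsRed RY Om Box Kern IsInv Bd sp)
open Pool.Agent.SGN (md repR repL heckeT heckeA supS subS UW Wd lw nf WOk uvec unrm xval)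
open scoped ENNReal

noncomputable section

/-- lowering one entry -/
def pc2_low {m : ℕ} (N : ℕ) (j : Fin m) (k : Fin m → ℕ) (l : Fin m) : ℕ :=
  if l = j then k l - N else k l

theorem pc2_low_sum {m : ℕ} {N : ℕ} {j : Fin m} {k : Fin m → ℕ} (h : N ≤ k j) :
    ∑ l, (k l : ℝ) = N + ∑ l, (pc2_low N j k l : ℝ) := by
  classical
  have h1 : ∀ l, (k l : ℝ) = (if l = j then (N : ℝ) else 0) + (pc2_low N j k l : ℝ) := by
    intro l
    unfold pc2_low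
    split_ifs with hl
    · subst hl
      rw [Nat.cast_sub h]
      ring
    · rw [zero_add]
  rw [Finset.sum_congr rfl fun l _ => h1 l, Finset.sum_add_distrib, Finset.sum_ite_eq' Finset.univ,
    if_pos (Finset.mem_univ _)]

theorem pc2_low_inj {m : ℕ} {N : ℕ} {j : Fin m} {k k' : Fin m → ℕ} (h : N ≤ k j) (h' : N ≤ k' j)
    (e : pc2_low N j k = pc2_low N j k') : k = k' := by
  funext l
  have h1 := congrFun e l
  unfold pc2_low at h1
  by_cases hl : l = j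
  · rw [if_pos hl, if_pos hl] at h1
    subst hl
    omega
  · rw [if_neg hl, if_neg hl] at h1
    exact h1

/-- the sum over the `a` with some gap `≥ G`: the sum is at most `C 2^(-c G)` -/
theorem dyadic_gap_pr {m : ℕ} (w : Fin (m + 1) → ℝ) (c : ℝ) (hc : 0 < c)
    (hw : ∀ j : ℕ, 1 ≤ j → j ≤ m →
      (∑ i : Fin (m + 1), if (i : ℕ) < j then w i else 0) + c ≤
        (j : ℝ) / ((m : ℝ) + 1) * ∑ i, w i) : ∃ C : ℝ, 0 ≤ C ∧ ∀ (G : ℤ),
    ∑' a : {a : Fin (m + 1) → ℤ //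
      (∀ i j : Fin (m + 1), (i : ℕ) + 1 = (j : ℕ) → a j ≤ a i + 2) ∧ ∑ i, a i ≤ 0 ∧
        -((m : ℤ) + 1) ≤ ∑ i, a i ∧ ∃ i j : Fin (m + 1), (i : ℕ) + 1 = (j : ℕ) ∧
        a j + G ≤ a i}, ENNReal.ofReal ((2 : ℝ) ^ (∑ i, w i * (a.1 i : ℝ))) ≤
      ENNReal.ofReal (C * (2 : ℝ) ^ (-(c * G))) := by
  classical
  obtain ⟨B, hB⟩ := pc1_bound w c hw
  -- the constant
  obtain ⟨T, hT⟩ : ∃ T : ℝ≥0∞, T = ∑' k : Fin m → ℕ, ∏ j, (ENNReal.ofReal ((2 : ℝ) ^ (-c))) ^ (k j) :=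
    ⟨_, rfl⟩
  have hTf : T ≠ ∞ := by rw [hT]; exact pc1_fin c hc m
  set n : ℕ := Fintype.card (Fin m) * Fintype.card (pc1_S m) with hn
  refine ⟨n * ((2 : ℝ) ^ B * T.toReal), by positivity, fun G => ?_⟩
  set N : ℕ := (G + 2).toNat with hN
  have hNG : (G : ℝ) ≤ N := by
    have h1 : G + 2 ≤ (N : ℤ) := Int.self_le_toNat _
    have h2 : ((G + 2 : ℤ) : ℝ) ≤ ((N : ℤ) : ℝ) := Int.cast_le.2 h1
    push_cast at h2
    linarith
  set S : Type := {a : Fin (m + 1) → ℤ //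
      (∀ i j : Fin (m + 1), (i : ℕ) + 1 = (j : ℕ) → a j ≤ a i + 2) ∧ ∑ i, a i ≤ 0 ∧
        -((m : ℤ) + 1) ≤ ∑ i, a i ∧ ∃ i j : Fin (m + 1), (i : ℕ) + 1 = (j : ℕ) ∧
        a j + G ≤ a i} with hS
  have hex : ∀ a : S, ∃ j : Fin m, N ≤ pc1_K a.1 j := by
    rintro ⟨a, h1, h2, h3, i, j, hij, h4⟩
    have hi : (i : ℕ) < m := by
      have := j.2
      omega
    refine ⟨⟨i, hi⟩, ?_⟩
    have hci : (⟨(i : ℕ), hi⟩ : Fin m).castSucc = i := Fin.ext rfl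
    have hcj : (⟨(i : ℕ), hi⟩ : Fin m).succ = j := Fin.ext hij
    show N ≤ pc1_K a ⟨i, hi⟩
    unfold pc1_K
    rw [hci, hcj, hN]
    exact Int.toNat_le_toNat (by linarith)
  choose J hJ using hex
  set φ : S → Fin m × (pc1_S m × (Fin m → ℕ)) := fun a =>
    (J a, (⟨∑ i, a.1 i, Finset.mem_Icc.2 ⟨a.2.2.2.1, a.2.2.1⟩⟩, pc2_low N (J a) (pc1_K a.1))) with hφ
  have hφi : Function.Injective φ := by
    intro a b hab
    rw [hφ] at hab
    simp only [Prod.mk.injEq, Subtype.mk.injEq] at hab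
    obtain ⟨e1, e2, e3⟩ := hab
    have hJa := hJ a
    rw [e1] at e3 hJa
    have e4 := pc2_low_inj hJa (hJ b) e3
    refine Subtype.ext (pc1_inj e2 fun j => ?_)
    have h1 := pc1_K_eq a.2.1 j
    have h2 := pc1_K_eq b.2.1 j
    rw [e4] at h1
    linarith
  set F : Fin m × (pc1_S m × (Fin m → ℕ)) → ℝ≥0∞ := fun x =>
    ENNReal.ofReal ((2 : ℝ) ^ (B - c * N)) *
      ∏ j, (ENNReal.ofReal ((2 : ℝ) ^ (-c))) ^ (x.2.2 j) with hF
  have h2 : ∑' a : S, ENNReal.ofReal ((2 : ℝ) ^ (∑ i, w i * (a.1 i : ℝ))) ≤ ∑' a : S, F (φ a) := by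
    refine ENNReal.tsum_le_tsum fun a => ?_
    rw [hF]
    simp only
    rw [← pc1_pow]
    refine ENNReal.ofReal_le_ofReal (Real.rpow_le_rpow_of_exponent_le one_le_two ?_)
    have h3 := hB a.1 a.2.1 a.2.2.1 a.2.2.2.1
    rw [pc2_low_sum (hJ a)] at h3
    linarith
  have h3 : ∑' a : S, F (φ a) ≤ ∑' x, F x := ENNReal.tsum_comp_le_tsum_of_injective hφi F
  refine (h2.trans h3).trans ?_
  have h4 : ∑' x, F x = n * (ENNReal.ofReal ((2 : ℝ) ^ (B - c * N)) * T) := by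
    rw [ENNReal.tsum_prod', tsum_fintype]
    have h5 : ∀ j : Fin m, ∑' y : pc1_S m × (Fin m → ℕ), F (j, y) =
        Fintype.card (pc1_S m) * (ENNReal.ofReal ((2 : ℝ) ^ (B - c * N)) * T) := by
      intro j
      rw [ENNReal.tsum_prod', tsum_fintype]
      have h6 : ∀ s : pc1_S m, ∑' k : Fin m → ℕ, F (j, (s, k)) =
          ENNReal.ofReal ((2 : ℝ) ^ (B - c * N)) * T := by
        intro s
        rw [hF]
        simp only
        rw [ENNReal.tsum_mul_left, hT]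
      rw [Finset.sum_congr rfl fun s _ => h6 s, Finset.sum_const, Finset.card_univ, nsmul_eq_mul]
    rw [Finset.sum_congr rfl fun j _ => h5 j, Finset.sum_const, Finset.card_univ, nsmul_eq_mul, hn,
      Nat.cast_mul, mul_assoc]
  rw [h4]
  have h5 : (n : ℝ≥0∞) = ENNReal.ofReal (n : ℝ) := (ENNReal.ofReal_natCast n).symm
  have h6 : T = ENNReal.ofReal T.toReal := (ENNReal.ofReal_toReal hTf).symm
  rw [h5, h6, ← ENNReal.ofReal_mul (by positivity), ← ENNReal.ofReal_mul (by positivity)]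
  refine ENNReal.ofReal_le_ofReal ?_
  rw [ENNReal.toReal_ofReal ENNReal.toReal_nonneg]
  have h7 : (2 : ℝ) ^ (B - c * N) ≤ (2 : ℝ) ^ B * (2 : ℝ) ^ (-(c * G)) := by
    rw [← Real.rpow_add two_pos]
    refine Real.rpow_le_rpow_of_exponent_le one_le_two ?_
    have := mul_le_mul_of_nonneg_left hNG hc.le
    linarith
  have h8 : (2 : ℝ) ^ (B - c * N) * T.toReal ≤ (2 : ℝ) ^ B * (2 : ℝ) ^ (-(c * G)) * T.toReal :=
    mul_le_mul_of_nonneg_right h7 ENNReal.toReal_nonneg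
  calc (n : ℝ) * ((2 : ℝ) ^ (B - c * N) * T.toReal)
      ≤ (n : ℝ) * ((2 : ℝ) ^ B * (2 : ℝ) ^ (-(c * G)) * T.toReal) :=
        mul_le_mul_of_nonneg_left h8 (Nat.cast_nonneg _)
    _ = n * ((2 : ℝ) ^ B * T.toReal) * (2 : ℝ) ^ (-(c * G)) := by ring

end

end Pool.Agent.SGB

namespace Pool.Agent.SGB

alias dyadic_gap := dyadic_gap_pr

end Pool.Agent.SGB
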