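import Pool.Agent.Lib_helper56.SGB.Defs
import Pool.Agent.Lib_helper56.SGB.F.AA
import Pool.Agent.Lib_helper56.SGB.F.PB
import Pool.Agent.Lib_helper56.SGB.F.PC2

/-!
# Project SGN, part B, block ME: the volume of the cusps
-/

set_option autoImplicit false

namespace Pool.Agent.SGB

open MeasureTheory Matrix
open Pool.Agent.RS (Mt lm SLZ)
open Pool.Agent.GLQ (re unip cube slab Xp wN IN rm rr qq Lat latt Lz IsRed RY Om Box Kern IsInv Bd sp)
open Pool.Agent.SGN (md repR repL heckeT heckeA supS subS UW Wd lw nf WOk)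
open scoped ENNReal

noncomputable section

/-- rescaling a reduced matrix -/
theorem me_red_smul {n : ℕ} {A : Mt n} {U : Matrix (Fin n) (Fin n) ℝ} {t : Fin n → ℝ}
    {O : Matrix (Fin n) (Fin n) ℝ} (h : IsRed A U t O) {s : ℝ} (hs : 0 < s) :
    IsRed (s • A) U (fun i => s * t i) O := by
  refine ⟨?_, h.orth, h.one, h.low, h.up, fun i => mul_pos hs (h.pos i), fun i j hij => ?_⟩
  · have h1 : (Matrix.of (s • A) : Matrix (Fin n) (Fin n) ℝ) = s • Matrix.of A := rfl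
    have h2 : Matrix.diagonal (fun i => s * t i) = s • Matrix.diagonal t := by
      rw [← Matrix.diagonal_smul]
      rfl
    rw [h1, h.eq, h2, Matrix.mul_smul, Matrix.smul_mul]
  · have h3 := h.adj i j hij
    nlinarith

/-- `hat` is measurable -/
theorem me_hat_meas (m : ℕ) : Measurable (hat : Mt (m + 1) → Mt (m + 1)) := by
  have h1 : Measurable fun A : Mt (m + 1) => (Matrix.of A).det ^ (-(1 / ((m : ℝ) + 1))) :=
    (Pool.Agent.RS.measurable_det (m + 1)).pow_const _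
  refine measurable_pi_lambda _ fun i => measurable_pi_lambda _ fun j => ?_
  have h2 : Measurable fun A : Mt (m + 1) => A i j :=
    (measurable_pi_apply j).comp (measurable_pi_apply i)
  exact h1.mul h2

theorem me_hat_det {m : ℕ} (A : Mt (m + 1)) (hA : 0 < (Matrix.of A).det) :
    (Matrix.of (hat A)).det = 1 := by
  unfold hat
  rw [Pool.Agent.GLQ.w1_det_smul, ← Real.rpow_natCast, ← Real.rpow_mul hA.le]
  have h1 : -(1 / ((m : ℝ) + 1)) * ((m + 1 : ℕ) : ℝ) = -1 := by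
    push_cast
    field_simp
  rw [h1, Real.rpow_neg_one, inv_mul_cancel₀ hA.ne']

/-- the index set -/
abbrev me_I (m : ℕ) (G : ℤ) : Type := {a : Fin (m + 1) → ℤ //
      (∀ i j : Fin (m + 1), (i : ℕ) + 1 = (j : ℕ) → a j ≤ a i + 2) ∧ ∑ i, a i ≤ 0 ∧
        -((m : ℤ) + 1) ≤ ∑ i, a i ∧ ∃ i j : Fin (m + 1), (i : ℕ) + 1 = (j : ℕ) ∧
        a j + G ≤ a i}

/-- the matrices with `hat A` in the dyadic box `a` -/
def me_S (m : ℕ) (a : Fin (m + 1) → ℤ) : Set (Mt (m + 1)) :=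
  {A | hat A ∈ Box (m + 1) fun i => (2 : ℝ) ^ (a i)}

theorem me_S_meas (m : ℕ) (a : Fin (m + 1) → ℤ) : MeasurableSet (me_S m a) :=
  me_hat_meas m (Pool.Agent.GLQ.box_meas (m + 1) (fun i => (2 : ℝ) ^ (a i))
    fun _ => zpow_pos two_pos _)

/-- the sum over the boxes with a large gap -/
def me_K (m : ℕ) (G : ℤ) (A : Mt (m + 1)) : ℝ≥0∞ :=
  ∑' a : me_I m G, (me_S m a.1).indicator (fun _ => 1) A

theorem me_K_meas (m : ℕ) (G : ℤ) : Measurable (me_K m G) :=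
  Measurable.tsum fun a => measurable_const.indicator (me_S_meas m a.1)

/-- a reduced matrix with a large gap -/
theorem me_K_ge {m : ℕ} {G : ℤ} {Y : ℝ} (hG : (2 : ℝ) ^ G ≤ Y) (B : Mt (m + 1))
    (hB : 0 < (Matrix.of B).det) {U : Matrix (Fin (m + 1)) (Fin (m + 1)) ℝ}
    {t : Fin (m + 1) → ℝ} {O : Matrix (Fin (m + 1)) (Fin (m + 1)) ℝ} (hr : IsRed B U t O)
    {i j : Fin (m + 1)} (hij : (i : ℕ) + 1 = (j : ℕ)) (hlt : Y * t j < t i) :
    1 ≤ me_K m G B := by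
  set s : ℝ := (Matrix.of B).det ^ (-(1 / ((m : ℝ) + 1))) with hs
  have hs0 : 0 < s := Real.rpow_pos_of_pos hB _
  have hr2 : IsRed (hat B) U (fun i => s * t i) O := me_red_smul hr hs0
  have hex : ∀ k : Fin (m + 1), ∃ a : ℤ, (2 : ℝ) ^ a ≤ s * t k ∧ s * t k < (2 : ℝ) ^ (a + 1) :=
    fun k => exists_mem_Ico_zpow (hr2.pos k) one_lt_two
  choose a ha1 ha2 using hex
  have hbox : hat B ∈ Box (m + 1) fun i => (2 : ℝ) ^ (a i) := by
    refine ⟨U, fun i => s * t i, O, hr2, fun k => ⟨ha1 k, ?_⟩⟩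
    have h1 := (ha2 k).le
    rw [zpow_add_one₀ two_ne_zero] at h1
    show s * t k ≤ 2 * (2 : ℝ) ^ (a k)
    linarith
  have hdet : |(Matrix.of (hat B)).det| = 1 := by
    rw [me_hat_det B hB, abs_one]
  obtain ⟨b1, b2, b3⟩ := box_adm hdet hbox
  have hgap : a j + G ≤ a i := by
    by_contra hcon
    have h1 : a i + 1 ≤ a j + G := by
      have := not_le.1 hcon
      linarith [Int.add_one_le_iff.2 this]
    have h2 : (2 : ℝ) ^ (a i + 1) ≤ (2 : ℝ) ^ (a j + G) := zpow_le_zpow_right₀ one_le_two h1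
    have h3 : (2 : ℝ) ^ (a j + G) ≤ s * t j * Y := by
      rw [zpow_add₀ two_ne_zero]
      exact mul_le_mul (ha1 j) hG (zpow_pos two_pos _).le (hr2.pos j).le
    have h4 : s * t j * Y < s * t i := by
      have : s * (Y * t j) < s * t i := mul_lt_mul_of_pos_left hlt hs0
      linarith [this]
    have h5 := ha2 i
    linarith
  have hmem : B ∈ me_S m a := hbox
  have h6 := ENNReal.le_tsum (f := fun a : me_I m G => (me_S m a.1).indicator (fun _ => 1) B)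
    (⟨a, b1, b2, b3, i, j, hij, hgap⟩ : me_I m G)
  have h7 : (me_S m a).indicator (fun _ => (1 : ℝ≥0∞)) B = 1 := Set.indicator_of_mem hmem _
  rw [← h7]
  exact h6

theorem me_wsum (j : ℕ) (m : ℕ) (hj : j ≤ m + 1) :
    (∑ i : Fin (m + 1), if (i : ℕ) < j then (2 * ((i : ℕ) : ℝ) + 1) else 0) = (j : ℝ) ^ 2 := by
  have h1 : (∑ i : Fin (m + 1), if (i : ℕ) < j then (2 * ((i : ℕ) : ℝ) + 1) else 0) =
      ∑ i ∈ Finset.range (m + 1), if i < j then (2 * (i : ℝ) + 1) else 0 :=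
    Fin.sum_univ_eq_sum_range (fun i : ℕ => if i < j then (2 * (i : ℝ) + 1) else 0) (m + 1)
  rw [h1, ← Finset.sum_filter]
  have h2 : (Finset.range (m + 1)).filter (fun i => i < j) = Finset.range j := by
    ext i
    simp only [Finset.mem_filter, Finset.mem_range]
    omega
  rw [h2]
  clear h1 h2 hj
  induction j with
  | zero => simp
  | succ j ih =>
    rw [Finset.sum_range_succ, ih]
    push_cast
    ring

theorem me_wall (m : ℕ) : ∑ i : Fin (m + 1), (2 * ((i : ℕ) : ℝ) + 1) = ((m : ℝ) + 1) ^ 2 := by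
  have h := me_wsum (m + 1) m le_rfl
  have h2 : (∑ i : Fin (m + 1), if (i : ℕ) < m + 1 then (2 * ((i : ℕ) : ℝ) + 1) else 0) =
      ∑ i : Fin (m + 1), (2 * ((i : ℕ) : ℝ) + 1) :=
    Finset.sum_congr rfl fun i _ => if_pos i.2
  rw [h2] at h
  rw [h]
  push_cast
  ring

theorem me_prod (m : ℕ) (a : Fin (m + 1) → ℤ) :
    ∏ i : Fin (m + 1), ((2 : ℝ) ^ (a i)) ^ (2 * (i : ℕ) + 1) =
      (2 : ℝ) ^ (∑ i : Fin (m + 1), (2 * ((i : ℕ) : ℝ) + 1) * (a i : ℝ)) := by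
  rw [Real.rpow_sum_of_pos two_pos]
  refine Finset.prod_congr rfl fun i _ => ?_
  rw [← Real.rpow_intCast, ← Real.rpow_natCast, ← Real.rpow_mul two_pos.le]
  congr 1
  push_cast
  ring

theorem th_small_pr (m : ℕ) (hm : 1 ≤ m) : ∃ C : ℝ, 0 ≤ C ∧ ∀ Y : ℝ, 1 ≤ Y →
    IN m 1 ((Om (m + 1) Y)ᶜ.indicator fun _ => 1) ≤ ENNReal.ofReal (C / Y) := by
  obtain ⟨C1, hC1, hvol⟩ := hat_vol m
  obtain ⟨C2, hC2, hdy⟩ := dyadic_gap (m := m) (fun i => 2 * ((i : ℕ) : ℝ) + 1) 1 one_pos (by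
    intro j hj1 hj2
    rw [me_wsum j m (by omega), me_wall]
    have h1 : (j : ℝ) / ((m : ℝ) + 1) * ((m : ℝ) + 1) ^ 2 = j * (m + 1) := by
      field_simp
    rw [h1]
    have h2 : (1 : ℝ) ≤ j := by exact_mod_cast hj1
    have h3 : (j : ℝ) ≤ m := by exact_mod_cast hj2
    nlinarith)
  refine ⟨C1 * (C2 * 2), by positivity, fun Y hY => ?_⟩
  have hY0 : 0 < Y := lt_of_lt_of_le one_pos hY
  obtain ⟨G, hG1, hG2⟩ := exists_mem_Ico_zpow hY0 (one_lt_two : (1 : ℝ) < 2)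
  have h1 : IN m 1 ((Om (m + 1) Y)ᶜ.indicator fun _ => 1) ≤
      ∫⁻ A in slab (m + 1) 1 2, wN m 1 A * ∑' γ : SLZ (m + 1), me_K m G (lm (re γ.1) A) := by
    refine setLIntegral_mono' (Pool.Agent.GLQ.r6_Xp_meas _) fun A hA => ?_
    gcongr
    by_cases hAO : A ∈ Om (m + 1) Y
    · rw [Set.indicator_of_notMem (show A ∉ (Om (m + 1) Y)ᶜ from fun h => h hAO)]
      exact zero_le
    · rw [Set.indicator_of_mem (show A ∈ (Om (m + 1) Y)ᶜ from hAO)]
      have hA0 : 0 < (Matrix.of A).det := lt_of_lt_of_le one_pos hA.1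
      obtain ⟨γ, U, t, O, hr⟩ := Pool.Agent.GLQ.red_exists A hA0
      have h1 : lm (re γ.1) A ∉ RY (m + 1) Y := fun h => hAO ⟨hA0, γ, h⟩
      have h2 : ∃ i j : Fin (m + 1), (i : ℕ) + 1 = (j : ℕ) ∧ Y * t j < t i := by
        by_contra hcon
        push Not at hcon
        exact h1 ⟨U, t, O, hr, hcon⟩
      obtain ⟨i, j, hij, hlt⟩ := h2
      have hof : Matrix.of (lm (re γ.1) A) = re γ.1 * Matrix.of A := rfl
      have hdet : 0 < (Matrix.of (lm (re γ.1) A)).det := by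
        rw [hof, Matrix.det_mul, Pool.Agent.GLQ.r6_re_det, one_mul]
        exact hA0
      exact (me_K_ge hG1 _ hdet hr hij hlt).trans
        (ENNReal.le_tsum (f := fun γ : SLZ (m + 1) => me_K m G (lm (re γ.1) A)) γ)
  rw [unfold1 m 1 2 one_pos (me_K m G) (me_K_meas m G)] at h1
  refine h1.trans ?_
  have h2 : ∫⁻ A in slab (m + 1) 1 2, me_K m G A =
      ∑' a : me_I m G, volume.restrict (slab (m + 1) 1 2) (me_S m a.1) := by
    have h20 : ∫⁻ A in slab (m + 1) 1 2, ∑' a : me_I m G,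
        (me_S m a.1).indicator (fun _ => (1 : ℝ≥0∞)) A = ∑' a : me_I m G,
          ∫⁻ A in slab (m + 1) 1 2, (me_S m a.1).indicator (fun _ => (1 : ℝ≥0∞)) A :=
      lintegral_tsum fun a : me_I m G =>
        (measurable_const.indicator (me_S_meas m a.1)).aemeasurable
    refine h20.trans ?_
    refine tsum_congr fun a => ?_
    exact lintegral_indicator_one (me_S_meas m a.1)
  rw [h2]
  have h3 : ∀ a : me_I m G, volume.restrict (slab (m + 1) 1 2) (me_S m a.1) ≤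
      ENNReal.ofReal C1 *
        ENNReal.ofReal ((2 : ℝ) ^ (∑ i : Fin (m + 1), (2 * ((i : ℕ) : ℝ) + 1) * (a.1 i : ℝ))) := by
    intro a
    rw [Measure.restrict_apply (me_S_meas m a.1), ← ENNReal.ofReal_mul hC1, ← me_prod]
    refine le_trans (measure_mono ?_) (hvol a.1)
    rintro A ⟨hA1, hA2⟩
    exact ⟨hA2, hA1⟩
  refine (ENNReal.tsum_le_tsum h3).trans ?_
  rw [ENNReal.tsum_mul_left]
  have h4 : ENNReal.ofReal C1 * ∑' a : me_I m G, ENNReal.ofReal
      ((2 : ℝ) ^ (∑ i : Fin (m + 1), (2 * ((i : ℕ) : ℝ) + 1) * (a.1 i : ℝ))) ≤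
      ENNReal.ofReal C1 * ENNReal.ofReal (C2 * (2 : ℝ) ^ (-(1 * (G : ℝ)))) := by
    gcongr
    exact hdy G
  refine h4.trans ?_
  rw [← ENNReal.ofReal_mul hC1]
  refine ENNReal.ofReal_le_ofReal ?_
  have h5 : (2 : ℝ) ^ (-(1 * (G : ℝ))) ≤ 2 / Y := by
    rw [one_mul, Real.rpow_neg two_pos.le, Real.rpow_intCast]
    rw [zpow_add_one₀ two_ne_zero] at hG2
    rw [inv_le_comm₀ (zpow_pos two_pos _) (by positivity), inv_div, div_le_iff₀ two_pos]
    exact hG2.le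
  calc C1 * (C2 * (2 : ℝ) ^ (-(1 * (G : ℝ)))) ≤ C1 * (C2 * (2 / Y)) := by gcongr
    _ = C1 * (C2 * 2) / Y := by ring

end

end Pool.Agent.SGB

namespace Pool.Agent.SGB

alias th_small := th_small_pr

end Pool.Agent.SGB
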