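import Pool.Agent.Lib_helper56.SGB.Defs
import Pool.Agent.Lib_helper56.SGB.F.AA
import Pool.Agent.Lib_helper56.SGB.F.DB
import Pool.Agent.Lib_helper56.SGB.F.DC1
import Pool.Agent.Lib_helper56.SGB.F.DE2
import Pool.Agent.Lib_helper56.SGB.F.DF
import Pool.Agent.Lib_helper56.SGB.F.HG
import Pool.Agent.Lib_helper56.SGB.F.MB
import Pool.Agent.Lib_helper56.SGB.F.MD
import Pool.Agent.Lib_helper56.SGB.F.ME

set_option autoImplicit false

namespace Pool.Agent.SGB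

open MeasureTheory Matrix
open Pool.Agent.RS (Mt lm SLZ)
open Pool.Agent.GLQ (re unip cube slab Xp wN IN rm rr qq Lat latt Lz IsRed RY Om Box Kern IsInv Bd sp)
open Pool.Agent.SGN (md repR repL heckeT heckeA supS subS UW Wd lw nf WOk)
open scoped ENNReal

noncomputable section

theorem mf_rr_one (n : ℕ) : rr (1 : Matrix (Fin n) (Fin n) ℚ) = 1 := by
  unfold rr
  rw [Matrix.map_one _ (by simp) (by simp)]

theorem mf_QI_one (n q : ℕ) : QI q (1 : Matrix (Fin n) (Fin n) ℚ) := by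
  refine ⟨1, 1, Nat.coprime_one_left q, one_ne_zero, ?_⟩
  unfold qq
  rw [Matrix.map_one _ (by simp) (by simp)]
  simp

theorem mf_isB (n : ℕ) : IsB (1 : Matrix (Fin n) (Fin n) ℚ) (Lz n) :=
  ⟨by simp, rfl⟩

theorem mf_Ql (n q : ℕ) : Ql q (Lz n) :=
  ⟨1, mf_isB n, mf_QI_one n q, by simpa using mf_QI_one n q⟩

theorem mf_rdq_one (n q : ℕ) [Fact q.Prime] :
    rdq q (1 : Matrix (Fin n) (Fin n) ℚ) = 1 := by
  unfold rdq
  rw [Matrix.map_one _ (by simp [rq]) (by simp [rq])]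

/-- the value of `f` at `ℤ^n` -/
theorem mf_fV {m q : ℕ} [Fact q.Prime] {f : Fm m q} (hf : Pre m q f) (A : Mt (m + 1))
    (x : Fin (m + 1) → ZMod q) : fV f A x (Lz (m + 1)) = f (Matrix.of A) x := by
  rw [fV_eq hf (mf_Ql _ _) (mf_isB _), mf_rr_one, Matrix.one_mul, inv_one, mf_rdq_one,
    Matrix.vecMul_one]

theorem mf_trace (m : ℕ) (hm : 1 ≤ m) (k0 : Mt (m + 1) → ℂ) (hk : Kern m k0) :
    ∃ C R : ℝ, 0 ≤ C ∧ 1 ≤ R ∧ ∀ (q : ℕ) [Fact q.Prime] (β : Type) [Fintype β]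
      (f : β → Fm m q),
      (∀ b, Frm m q k0 (f b)) → (∀ b b', b ≠ b' → ipX m q (f b) (f b') = 0) →
      (∀ b, IX m q (nsX (f b)) ≠ 0) →
      ∀ Ω : Set (Mt (m + 1)), MeasurableSet Ω →
        ∑ b, prp m q Ω (f b) ≤ ENNReal.ofReal C *
            ((q : ℝ≥0∞) ^ (m + 1) * IN m 1 (Ω.indicator fun _ => 1) +
              IN m 1 (Ω.indicator (ZS m q R {Lz (m + 1)} (Lz (m + 1))))) := by
  obtain ⟨C, R, hC, hR, h⟩ := traceV m hm k0 hk
  refine ⟨C, R, hC, hR, ?_⟩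
  intro q hq β _ f hf ho h0 Ω hΩ
  have key := h q β f hf ho h0 (Finsupp.single (Lz (m + 1)) 1)
    (by
      intro L hL
      have := Finsupp.support_single_subset hL
      rw [Finset.mem_singleton] at this
      rw [this]
      exact mf_Ql _ _)
    (fun _ => 1)
    (by
      intro b A hA x
      rw [Finsupp.sum_single_index (by simp), mf_fV (hf b).toPre])
    Ω hΩ
  have hs : (Finsupp.single (Lz (m + 1)) (1 : ℂ)).support = {Lz (m + 1)} :=
    Finsupp.support_single _ one_ne_zero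
  rw [hs] at key
  simpa using key

theorem mf_gam (m : ℕ) (hm : 1 ≤ m) (R : ℝ) (hR : 1 ≤ R) : ∃ (C : ℝ) (q0 : ℕ), 0 ≤ C ∧
    ∀ (q : ℕ) [Fact q.Prime], q0 ≤ q → ∀ Y : ℝ, 1 ≤ Y →
      IN m 1 ((Om (m + 1) Y).indicator (ZS m q R {Lz (m + 1)} (Lz (m + 1)))) ≤
        ENNReal.ofReal (C * (q : ℝ) ^ m * (2 + Real.log Y) ^ m) := by
  obtain ⟨C, q0, hC, h⟩ := gam_siegel m hm R hR
  refine ⟨C, q0, hC, ?_⟩
  intro q hq hq0 Y hY
  exact (fold_Om m Y (by linarith) _ (ZS_isInv m q R)).trans (h q hq0 Y hY)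

theorem mf_IN_mono (m : ℕ) {F G : Mt (m + 1) → ℝ≥0∞} (h : ∀ A, F A ≤ G A) :
    IN m 1 F ≤ IN m 1 G := by
  unfold IN
  exact lintegral_mono fun A => by gcongr; exact h A

theorem mf_ind_mono (m : ℕ) {Ω Ω' : Set (Mt (m + 1))} (h : Ω ⊆ Ω') (F : Mt (m + 1) → ℝ≥0∞) :
    IN m 1 (Ω.indicator F) ≤ IN m 1 (Ω'.indicator F) :=
  mf_IN_mono m fun A => Set.indicator_le_indicator_of_subset h (fun _ => zero_le) A

theorem mf_meas {m q : ℕ} [NeZero q] {F : Mt (m + 1) → (Fin (m + 1) → ZMod q) → ℝ≥0∞}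
    (hF : XInv m q F) {Ω : Set (Mt (m + 1))} (h : MeasurableSet Ω) :
    Measurable fun A => wN m 1 A * ∑ x, ind Ω F A x := by
  refine (Pool.Agent.GLQ.wN_meas m 1).mul (Finset.measurable_sum _ fun x _ => ?_)
  exact (hF.meas x).indicator h

theorem mf_cover {m q : ℕ} [NeZero q] {F : Mt (m + 1) → (Fin (m + 1) → ZMod q) → ℝ≥0∞}
    (hF : XInv m q F) {Ω₁ Ω₂ Ω₃ : Set (Mt (m + 1))} (h1 : MeasurableSet Ω₁)
    (h2 : MeasurableSet Ω₂) (hc : ∀ A, A ∈ Ω₁ ∨ A ∈ Ω₂ ∨ A ∈ Ω₃) :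
    IX m q F ≤ IX m q (ind Ω₁ F) + IX m q (ind Ω₂ F) + IX m q (ind Ω₃ F) := by
  show ∫⁻ A in Xp (m + 1), wN m 1 A * ∑ x, F A x ≤
    (∫⁻ A in Xp (m + 1), wN m 1 A * ∑ x, ind Ω₁ F A x) +
    (∫⁻ A in Xp (m + 1), wN m 1 A * ∑ x, ind Ω₂ F A x) +
    (∫⁻ A in Xp (m + 1), wN m 1 A * ∑ x, ind Ω₃ F A x)
  rw [← lintegral_add_left (mf_meas hF h1)]
  rw [← lintegral_add_left (μ := volume.restrict (Xp (m + 1)))
    (f := fun A => wN m 1 A * ∑ x, ind Ω₁ F A x + wN m 1 A * ∑ x, ind Ω₂ F A x)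
    ((mf_meas hF h1).add (mf_meas hF h2))]
  refine lintegral_mono fun A => ?_
  rw [← mul_add, ← mul_add, ← Finset.sum_add_distrib, ← Finset.sum_add_distrib]
  gcongr with x _
  show F A x ≤ Set.indicator Ω₁ (fun A => F A x) A + Set.indicator Ω₂ (fun A => F A x) A +
    Set.indicator Ω₃ (fun A => F A x) A
  rcases hc A with h | h | h
  · rw [Set.indicator_of_mem h, add_assoc]
    exact le_self_add
  · rw [Set.indicator_of_mem h, add_comm (Set.indicator Ω₁ _ A), add_assoc]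
    exact le_self_add
  · rw [Set.indicator_of_mem h]
    exact le_add_self

/-- cancellation -/
theorem mf_quarter {S a b c : ℝ≥0∞} (h0 : S ≠ 0) (ht : S ≠ ⊤) (h : S ≤ a + b + c)
    (hc : 4 * c ≤ S) (hb : b / S < 1 / 2) : 1 / 4 ≤ a / S := by
  have hb' : 2 * b ≤ S := by
    have h1 : b ≤ 1 / 2 * S := by
      rw [← ENNReal.div_le_iff h0 ht]
      exact hb.le
    calc 2 * b ≤ 2 * (1 / 2 * S) := by gcongr
      _ = S := by
        rw [← mul_assoc, one_div, ENNReal.mul_inv_cancel (by norm_num) (by norm_num), one_mul]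
  have h3 : 3 * S ≠ ⊤ := ENNReal.mul_ne_top (by norm_num) ht
  have h4 : S + 3 * S ≤ 4 * a + 3 * S := by
    calc S + 3 * S = 4 * S := by ring
      _ ≤ 4 * (a + b + c) := by gcongr
      _ = 4 * a + (2 * (2 * b) + 4 * c) := by ring
      _ ≤ 4 * a + (2 * S + S) := by gcongr
      _ = 4 * a + 3 * S := by ring
  have h5 : S ≤ 4 * a := (ENNReal.add_le_add_iff_right h3).1 h4
  rw [ENNReal.le_div_iff_mul_le (Or.inl h0) (Or.inl ht), one_div, mul_comm, ← div_eq_mul_inv]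
  rw [ENNReal.div_le_iff (by norm_num) (by norm_num), mul_comm]
  exact h5

/-- `(2 + log x)^m ≤ C x` -/
theorem mf_log (m : ℕ) (x : ℝ) (hx : 1 ≤ x) :
    (2 + Real.log x) ^ m ≤ (m.factorial : ℝ) * Real.exp 2 * x := by
  have h0 : 0 ≤ Real.log x := Real.log_nonneg hx
  have h := Real.pow_div_factorial_le_exp (2 + Real.log x) (by linarith) m
  have hf : (0 : ℝ) < m.factorial := by exact_mod_cast Nat.factorial_pos m
  rw [div_le_iff₀ hf, Real.exp_add, Real.exp_log (by linarith)] at h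
  calc (2 + Real.log x) ^ m ≤ Real.exp 2 * x * m.factorial := h
    _ = (m.factorial : ℝ) * Real.exp 2 * x := by ring

theorem mass_main_pr (m : ℕ) (hm : 1 ≤ m) (k0 : Mt (m + 1) → ℂ) (hk : Kern m k0) :
    ∃ (C : ℝ) (q0 : ℕ), 0 < C ∧ ∀ (q : ℕ) [Fact q.Prime], q0 ≤ q → ∀ (β : Type) [Fintype β]
      (f : β → Fm m q), (∀ b, Frm m q k0 (f b)) →
      (∀ b, IX m q (nsX (f b)) ≠ 0) → (∀ b b', b ≠ b' → ipX m q (f b) (f b') = 0) →
      ((Fintype.card β : ℕ) : ℝ) ≤ C * (q : ℝ) ^ (m + 1) ∧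
      ∀ Y : ℝ, 1 ≤ Y → Y ≤ q →
        (((Finset.univ.filter fun b => prp m q (Om (m + 1) Y) (f b) < 1 / 2).card : ℕ) : ℝ) ≤
          C * ((q : ℝ) ^ (m + 1) / Y + (q : ℝ) ^ m * (2 + Real.log (C * q)) ^ m) := by
  obtain ⟨C₁, R, hC₁, hR, htr⟩ := mf_trace m hm k0 hk
  obtain ⟨C₂, hC₂, hmass⟩ := massX m hm k0 hk
  obtain ⟨C₃, q₀, hC₃, hgam⟩ := mf_gam m hm R hR
  obtain ⟨C₄, hC₄, hth⟩ := th_small m hm
  have hV := mass1 m hm
  set V : ℝ := (IN m 1 (fun _ => 1)).toReal with hVdef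
  have hV0 : 0 ≤ V := ENNReal.toReal_nonneg
  have hVe : IN m 1 (fun _ => 1) = ENNReal.ofReal V := (ENNReal.ofReal_toReal hV).symm
  set D : ℝ := (m.factorial : ℝ) * Real.exp 2 with hD
  have hD0 : 0 ≤ D := by positivity
  -- the constant
  set C : ℝ := 4 * C₁ * (V + C₃ * D * C₂) + 4 * C₁ * C₄ + 4 * C₁ * C₃ + C₂ with hC
  have hp1 : 0 ≤ 4 * C₁ * (V + C₃ * D * C₂) := by positivity
  have hp2 : 0 ≤ 4 * C₁ * C₄ := by positivity
  have hp3 : 0 ≤ 4 * C₁ * C₃ := by positivity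
  have hCpos : 0 < C := by rw [hC]; linarith
  refine ⟨C, q₀, hCpos, ?_⟩
  intro q hq hq0 β _ f hf h0 ho
  have hq1 : (1 : ℝ) ≤ q := by exact_mod_cast hq.out.one_lt.le
  have hqpos : (0 : ℝ) < q := by linarith
  have hY2 : 1 ≤ C₂ * q := by nlinarith
  have hM2 : MeasurableSet (Om (m + 1) (C₂ * q)) := Pool.Agent.GLQ.Om_meas _ _ (by linarith)
  -- counting from a lower bound for the proportions
  have count : ∀ (s : Finset β) (Ω : Set (Mt (m + 1))), MeasurableSet Ω →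
      Ω ⊆ Om (m + 1) (C₂ * q) → (∀ b ∈ s, 1 / 4 ≤ prp m q Ω (f b)) → ∀ T : ℝ, 0 ≤ T →
      IN m 1 (Ω.indicator fun _ => 1) ≤ ENNReal.ofReal T →
      ((s.card : ℕ) : ℝ) ≤ 4 * C₁ * ((q : ℝ) ^ (m + 1) * T +
        C₃ * (q : ℝ) ^ m * (2 + Real.log (C₂ * q)) ^ m) := by
    intro s Ω hΩ hsub hs T hT hin
    have hlog : 0 ≤ Real.log (C₂ * q) := Real.log_nonneg hY2
    have e1 : ((s.card : ℕ) : ℝ≥0∞) * (1 / 4) ≤ ENNReal.ofReal (C₁ * ((q : ℝ) ^ (m + 1) * T +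
        C₃ * (q : ℝ) ^ m * (2 + Real.log (C₂ * q)) ^ m)) := by
      calc ((s.card : ℕ) : ℝ≥0∞) * (1 / 4) = ∑ b ∈ s, (1 / 4 : ℝ≥0∞) := by
            rw [Finset.sum_const, nsmul_eq_mul]
        _ ≤ ∑ b ∈ s, prp m q Ω (f b) := Finset.sum_le_sum hs
        _ ≤ ∑ b, prp m q Ω (f b) :=
            Finset.sum_le_sum_of_subset (Finset.subset_univ s)
        _ ≤ _ := htr q β f hf ho h0 Ω hΩ
        _ ≤ ENNReal.ofReal C₁ * ((q : ℝ≥0∞) ^ (m + 1) * ENNReal.ofReal T +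
            ENNReal.ofReal (C₃ * (q : ℝ) ^ m * (2 + Real.log (C₂ * q)) ^ m)) := by
            gcongr
            exact (mf_ind_mono m hsub _).trans (hgam q hq0 _ hY2)
        _ = _ := by
            have e0 : ENNReal.ofReal ((q : ℝ) ^ (m + 1) * T) =
                (q : ℝ≥0∞) ^ (m + 1) * ENNReal.ofReal T := by
              rw [ENNReal.ofReal_mul (by positivity), ENNReal.ofReal_pow (by positivity),
                ENNReal.ofReal_natCast]
            rw [ENNReal.ofReal_mul hC₁, ENNReal.ofReal_add (by positivity) (by positivity), e0]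
    have e2 : ((s.card : ℕ) : ℝ) * (1 / 4) ≤ C₁ * ((q : ℝ) ^ (m + 1) * T +
        C₃ * (q : ℝ) ^ m * (2 + Real.log (C₂ * q)) ^ m) := by
      have := ENNReal.toReal_le_of_le_ofReal (by positivity) e1
      rwa [ENNReal.toReal_mul, ENNReal.toReal_natCast, ENNReal.toReal_div, ENNReal.toReal_one,
        ENNReal.toReal_ofNat] at this
    linarith
  have hlogC : Real.log (C₂ * q) ≤ Real.log (C * q) := by
    apply Real.log_le_log (by linarith)
    have : C₂ ≤ C := by rw [hC]; linarith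
    gcongr
  constructor
  · -- all forms
    have h1 : ∀ b ∈ (Finset.univ : Finset β), 1 / 4 ≤ prp m q (Om (m + 1) (C₂ * q)) (f b) := by
      intro b _
      have hx := pre_xinv (hf b).toPre
      have hc := mf_cover hx hM2 (MeasurableSet.empty) (Ω₃ := (Om (m + 1) (C₂ * q))ᶜ)
        (fun A => by
          by_cases hA : A ∈ Om (m + 1) (C₂ * q)
          · exact Or.inl hA
          · exact Or.inr (Or.inr hA))
      refine mf_quarter (h0 b) (norm_ne_topX hm (hf b).toPre) hc (hmass q (f b) (hf b)) ?_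
      have : IX m q (ind ∅ (nsX (f b))) = 0 := by
        unfold IX IN ind
        simp
      rw [this, ENNReal.zero_div]
      norm_num
    have h2 := count Finset.univ _ hM2 le_rfl h1 V hV0 (by
      rw [← hVe]
      exact mf_IN_mono m fun A => Set.indicator_le_self' (fun _ _ => zero_le) A)
    rw [Finset.card_univ] at h2
    refine h2.trans ?_
    have h3 := mf_log m (C₂ * q) hY2
    have h4 : C₃ * (q : ℝ) ^ m * (2 + Real.log (C₂ * q)) ^ m ≤
        C₃ * (q : ℝ) ^ m * (D * (C₂ * q)) := by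
      gcongr
    calc 4 * C₁ * ((q : ℝ) ^ (m + 1) * V + C₃ * (q : ℝ) ^ m * (2 + Real.log (C₂ * q)) ^ m)
        ≤ 4 * C₁ * ((q : ℝ) ^ (m + 1) * V + C₃ * (q : ℝ) ^ m * (D * (C₂ * q))) := by gcongr
      _ = 4 * C₁ * (V + C₃ * D * C₂) * (q : ℝ) ^ (m + 1) := by ring
      _ ≤ C * (q : ℝ) ^ (m + 1) := by
          gcongr
          rw [hC]
          linarith
  · intro Y hY1 hYq
    have hYle : Y ≤ C₂ * q := by nlinarith
    have hMY : MeasurableSet (Om (m + 1) Y) := Pool.Agent.GLQ.Om_meas _ _ (by linarith)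
    set Ω := Om (m + 1) (C₂ * q) \ Om (m + 1) Y with hΩ
    have hMΩ : MeasurableSet Ω := hM2.diff hMY
    have h1 : ∀ b ∈ (Finset.univ.filter fun b => prp m q (Om (m + 1) Y) (f b) < 1 / 2),
        1 / 4 ≤ prp m q Ω (f b) := by
      intro b hb
      rw [Finset.mem_filter] at hb
      have hx := pre_xinv (hf b).toPre
      have hc := mf_cover hx hMΩ hMY (Ω₃ := (Om (m + 1) (C₂ * q))ᶜ)
        (fun A => by
          by_cases hA : A ∈ Om (m + 1) (C₂ * q)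
          · by_cases hA' : A ∈ Om (m + 1) Y
            · exact Or.inr (Or.inl hA')
            · exact Or.inl ⟨hA, hA'⟩
          · exact Or.inr (Or.inr hA))
      exact mf_quarter (h0 b) (norm_ne_topX hm (hf b).toPre) hc (hmass q (f b) (hf b)) hb.2
    have h2 := count _ Ω hMΩ Set.sdiff_subset h1 (C₄ / Y) (by positivity)
      ((mf_ind_mono m (fun A hA => hA.2) _).trans (hth Y hY1))
    refine h2.trans ?_
    have hlog : 0 ≤ Real.log (C₂ * q) := Real.log_nonneg hY2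
    have a1 : 4 * C₁ * ((q : ℝ) ^ (m + 1) * (C₄ / Y)) ≤ C * ((q : ℝ) ^ (m + 1) / Y) := by
      calc 4 * C₁ * ((q : ℝ) ^ (m + 1) * (C₄ / Y)) = 4 * C₁ * C₄ * ((q : ℝ) ^ (m + 1) / Y) := by
            ring
        _ ≤ _ := by
            gcongr
            rw [hC]
            linarith
    have a2 : 4 * C₁ * (C₃ * (q : ℝ) ^ m * (2 + Real.log (C₂ * q)) ^ m) ≤
        C * ((q : ℝ) ^ m * (2 + Real.log (C * q)) ^ m) := by
      calc 4 * C₁ * (C₃ * (q : ℝ) ^ m * (2 + Real.log (C₂ * q)) ^ m) =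
            4 * C₁ * C₃ * ((q : ℝ) ^ m * (2 + Real.log (C₂ * q)) ^ m) := by ring
        _ ≤ _ := by
            gcongr
            rw [hC]
            linarith
    calc _ = 4 * C₁ * ((q : ℝ) ^ (m + 1) * (C₄ / Y)) +
          4 * C₁ * (C₃ * (q : ℝ) ^ m * (2 + Real.log (C₂ * q)) ^ m) := by ring
      _ ≤ C * ((q : ℝ) ^ (m + 1) / Y) + C * ((q : ℝ) ^ m * (2 + Real.log (C * q)) ^ m) :=
          add_le_add a1 a2
      _ = _ := by ring

end

end Pool.Agent.SGB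

namespace Pool.Agent.SGB

alias mass_main := mass_main_pr

end Pool.Agent.SGB
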