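import Pool.Agent.Lib_helper56.SGB.Defs
import Pool.Agent.Lib_helper56.GLQ.F.R3

/-! Project SGB, block PA -/

set_option autoImplicit false

namespace Pool.Agent.SGB

open MeasureTheory Matrix
open Pool.Agent.RS (Mt lm SLZ)
open Pool.Agent.GLQ (re unip cube slab Xp wN IN rm rr qq Lat latt Lz IsRed RY Om Box Kern IsInv Bd sp)
open Pool.Agent.SGN (md repR repL heckeT heckeA supS subS UW Wd lw nf WOk uvec unrm xval)
open scoped ENNReal

noncomputable section

theorem pa_re_mul {n : ℕ} (X Y : Matrix (Fin n) (Fin n) ℤ) : re (X * Y) = re X * re Y := by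
  unfold re
  exact Matrix.map_mul (f := Int.castRingHom ℝ)

theorem pa_re_det {n : ℕ} (γ : SLZ n) : (re γ.1).det = 1 := Pool.Agent.RS.det_toR γ

theorem pa_det_cont (n : ℕ) : Continuous fun A : Mt n => (Matrix.of A).det := by
  have h1 : Continuous fun A : Mt n => (Matrix.of A : Matrix (Fin n) (Fin n) ℝ) := continuous_id
  exact h1.matrix_det

theorem pa_lm_cont {n : ℕ} (G : Matrix (Fin n) (Fin n) ℝ) : Continuous (lm G) := by
  have h1 : Continuous fun A : Mt n => (Matrix.of A : Matrix (Fin n) (Fin n) ℝ) := continuous_id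
  exact (continuous_const.matrix_mul h1 : Continuous fun A : Mt n => G * Matrix.of A)

theorem pa_Kr_meas (m r : ℕ) : Measurable (Kr m r) := by
  unfold Kr
  refine Measurable.ennreal_tsum fun a => ?_
  exact measurable_const.indicator (Pool.Agent.GLQ.box_meas (m + 1) _ fun i => by positivity)

theorem pa_hat_meas (m : ℕ) : Measurable (hat (m := m)) := by
  unfold hat
  have h1 : Measurable fun A : Mt (m + 1) => (Matrix.of A).det := (pa_det_cont (m + 1)).measurable
  exact (h1.pow_const _).smul measurable_id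

theorem pa_det_lm {m : ℕ} (γ : SLZ (m + 1)) (A : Mt (m + 1)) :
    (Matrix.of (lm (re γ.1) A)).det = (Matrix.of A).det := by
  rw [Pool.Agent.RS.lm_eq, Matrix.det_mul, pa_re_det, one_mul]

theorem pa_lm_smul {n : ℕ} (G : Matrix (Fin n) (Fin n) ℝ) (c : ℝ) (A : Mt n) :
    lm G (c • A) = c • lm G A := by
  unfold lm
  exact Matrix.mul_smul G c (Matrix.of A)

theorem pa_hat_lm {m : ℕ} (γ : SLZ (m + 1)) (A : Mt (m + 1)) :
    hat (lm (re γ.1) A) = lm (re γ.1) (hat A) := by
  unfold hat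
  rw [pa_det_lm, pa_lm_smul]

theorem pa_det_smul {m : ℕ} (t : ℝ) (A : Mt (m + 1)) :
    (Matrix.of (t • A)).det = t ^ (m + 1) * (Matrix.of A).det := by
  have h1 : (Matrix.of (t • A) : Matrix (Fin (m + 1)) (Fin (m + 1)) ℝ) = t • Matrix.of A := rfl
  rw [h1, Matrix.det_smul, Fintype.card_fin]

theorem pa_hat_smul {m : ℕ} (t : ℝ) (ht : 0 < t) (A : Mt (m + 1)) (hA : 0 < (Matrix.of A).det) :
    hat (t • A) = hat A := by
  unfold hat
  rw [pa_det_smul, Real.mul_rpow (by positivity) hA.le, smul_smul]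
  congr 1
  have h1 : (t ^ (m + 1)) ^ (-(1 / ((m : ℝ) + 1))) = t⁻¹ := by
    rw [← Real.rpow_natCast, ← Real.rpow_mul ht.le]
    have h2 : (((m + 1 : ℕ) : ℝ)) * (-(1 / ((m : ℝ) + 1))) = -1 := by
      have h3 : (m : ℝ) + 1 ≠ 0 := by positivity
      push_cast
      field_simp
    rw [h2, Real.rpow_neg_one]
  rw [h1]
  field_simp

theorem Psi_isInv_pr (m r : ℕ) : IsInv m 1 (Psi m r) := by
  refine ⟨?_, ?_, ?_⟩
  · unfold Psi
    refine Measurable.ite ?_ ?_ measurable_const
    · exact measurableSet_lt measurable_const (pa_det_cont (m + 1)).measurable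
    · refine Measurable.ennreal_tsum fun γ => ?_
      exact (pa_Kr_meas m r).comp ((pa_lm_cont _).measurable.comp (pa_hat_meas m))
  · intro γ _ A
    unfold Psi
    rw [pa_det_lm, pa_hat_lm]
    split_ifs with h
    · have h1 : ∀ δ : SLZ (m + 1), lm (re δ.1) (lm (re γ.1) (hat A)) =
          lm (re (δ * γ).1) (hat A) := by
        intro δ
        rw [Pool.Agent.RS.lm_lm, ← pa_re_mul]
        rfl
      simp only [h1]
      exact (Equiv.mulRight γ).tsum_eq fun δ : SLZ (m + 1) => Kr m r (lm (re δ.1) (hat A))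
    · rfl
  · intro t A ht
    unfold Psi
    rw [pa_det_smul]
    by_cases h : 0 < (Matrix.of A).det
    · rw [if_pos h, if_pos (by positivity), pa_hat_smul t ht A h]
    · rw [if_neg h, if_neg]
      intro h1
      exact h ((mul_pos_iff_of_pos_left (by positivity)).mp h1)

theorem pa_card (n r : ℕ) (hr : r ≤ n) (x : ℝ) :
    ∏ i : Fin n, (if n - r ≤ (i : ℕ) then x else 1) = x ^ r := by
  rw [Fin.prod_univ_eq_prod_range (fun i => if n - r ≤ i then x else 1) n, Finset.prod_ite,
    Finset.prod_const_one, mul_one, Finset.prod_const]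
  congr 1
  have h1 : Finset.filter (fun i => n - r ≤ i) (Finset.range n) = Finset.Ico (n - r) n := by
    ext i
    simp only [Finset.mem_filter, Finset.mem_range, Finset.mem_Ico]
    exact and_comm
  rw [h1, Nat.card_Ico]
  omega

theorem Psi_ge_pr {m r : ℕ} (hr : r ≤ m + 1) (D : Mt (m + 1)) (hD : 0 < (Matrix.of D).det)
    (γ : SLZ (m + 1)) (U : Matrix (Fin (m + 1)) (Fin (m + 1)) ℝ) (t : Fin (m + 1) → ℝ)
    (O : Matrix (Fin (m + 1)) (Fin (m + 1)) ℝ) (h : IsRed (lm (re γ.1) D) U t O) :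
    ENNReal.ofReal (((Matrix.of D).det ^ ((r : ℝ) / ((m : ℝ) + 1)) /
      ∏ i : Fin (m + 1), (if m + 1 - r ≤ (i : ℕ) then t i else 1)) ^ (m + 1 - r)) ≤
      Psi m r D := by
  set c : ℝ := (Matrix.of D).det ^ (-(1 / ((m : ℝ) + 1))) with hc
  have hc0 : 0 < c := Real.rpow_pos_of_pos hD _
  have h1 : IsRed (lm (re γ.1) (hat D)) U (fun i => c * t i) O := by
    have h2 : (fun i => c * t i) = c • t := rfl
    refine ⟨?_, h.orth, h.one, h.low, h.up, fun i => mul_pos hc0 (h.pos i), fun i j hij => ?_⟩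
    · unfold hat
      rw [pa_lm_smul, h2, Matrix.diagonal_smul, Matrix.mul_smul, Matrix.smul_mul, ← h.eq]
      rfl
    · have := h.adj i j hij
      nlinarith
  have ha : ∀ i, ∃ a : ℤ, (2 : ℝ) ^ a ≤ c * t i ∧ c * t i < (2 : ℝ) ^ (a + 1) := fun i => by
    obtain ⟨a, ha⟩ := exists_mem_Ico_zpow (mul_pos hc0 (h.pos i)) (one_lt_two (α := ℝ))
    exact ⟨a, ha.1, ha.2⟩
  choose a ha1 ha2 using ha
  have hbox : lm (re γ.1) (hat D) ∈ Box (m + 1) fun i => (2 : ℝ) ^ (a i) := by
    refine ⟨U, fun i => c * t i, O, h1, fun i => ⟨ha1 i, ?_⟩⟩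
    have := (ha2 i).le
    rw [zpow_add_one₀ two_ne_zero] at this
    linarith
  have h2 : Kr m r (lm (re γ.1) (hat D)) ≤ Psi m r D := by
    unfold Psi
    rw [if_pos hD]
    exact ENNReal.le_tsum γ
  refine le_trans ?_ h2
  have h3 : ENNReal.ofReal (hv m r a) ≤ Kr m r (lm (re γ.1) (hat D)) := by
    have h4 := ENNReal.le_tsum (f := fun a : Fin (m + 1) → ℤ =>
      (Box (m + 1) fun i => (2 : ℝ) ^ (a i)).indicator (fun _ => ENNReal.ofReal (hv m r a))
        (lm (re γ.1) (hat D))) a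
    simp only [Set.indicator_of_mem hbox] at h4
    exact h4
  refine le_trans (ENNReal.ofReal_le_ofReal ?_) h3
  unfold hv
  refine pow_le_pow_left₀ ?_ ?_ _
  · refine div_nonneg (Real.rpow_nonneg hD.le _) (Finset.prod_nonneg fun i _ => ?_)
    split_ifs
    · exact (h.pos i).le
    · exact zero_le_one
  · have h5 : (Matrix.of D).det ^ ((r : ℝ) / ((m : ℝ) + 1)) =
        ∏ i : Fin (m + 1), (if m + 1 - r ≤ (i : ℕ) then c⁻¹ else 1) := by
      rw [pa_card (m + 1) r hr, hc, ← Real.rpow_neg hD.le, ← Real.rpow_natCast,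
        ← Real.rpow_mul hD.le]
      congr 1
      ring
    rw [h5, ← Finset.prod_div_distrib]
    refine Finset.prod_le_prod (fun i _ => ?_) fun i _ => ?_
    · split_ifs
      · exact div_nonneg (inv_nonneg.mpr hc0.le) (h.pos i).le
      · norm_num
    · split_ifs
      · have h6 : c⁻¹ / t i = (c * t i)⁻¹ := by
          rw [mul_inv, div_eq_mul_inv]
        rw [h6, _root_.zpow_neg]
        exact inv_anti₀ (by positivity) (ha1 i)
      · norm_num

end

end Pool.Agent.SGB

namespace Pool.Agent.SGB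

alias Psi_isInv := Psi_isInv_pr
alias Psi_ge := Psi_ge_pr

end Pool.Agent.SGB
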