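import Pool.Agent.Lib_helper56.SGB.Defs

/-!
# SGB, block PD1: exponents
-/

set_option autoImplicit false

namespace Pool.Agent.SGB

open MeasureTheory Matrix
open Pool.Agent.RS (Mt lm SLZ)
open Pool.Agent.GLQ (re unip cube slab Xp wN IN rm rr qq Lat latt Lz IsRed RY Om Box Kern IsInv Bd sp)
open Pool.Agent.SGN (md repR repL heckeT heckeA supS subS UW Wd lw nf WOk)
open scoped ENNReal

noncomputable section

theorem pd1_sum (s N : ℕ) :
    ∑ i ∈ Finset.range N, (2 * (i : ℝ) + 1 - if s ≤ i then (s : ℝ) else 0) =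
      (N : ℝ) ^ 2 - s * ((N - s : ℕ) : ℝ) := by
  induction N with
  | zero => simp
  | succ N ih =>
    rw [Finset.sum_range_succ, ih]
    by_cases h : s ≤ N
    · rw [if_pos h, Nat.succ_sub h]
      push_cast
      ring
    · rw [if_neg h, show N - s = 0 by omega, show N + 1 - s = 0 by omega]
      push_cast
      ring

theorem expo_pr {m r : ℕ} (hr : 1 ≤ r) (hr' : r ≤ m + 1) (j : ℕ) (hj : 1 ≤ j) (hj' : j ≤ m) :
    (∑ i : Fin (m + 1), if (i : ℕ) < j then
      (2 * ((i : ℕ) : ℝ) + 1 - if m + 1 - r ≤ (i : ℕ) then ((m + 1 - r : ℕ) : ℝ) else 0) else 0) <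
      (j : ℝ) / ((m : ℝ) + 1) * ∑ i : Fin (m + 1),
        (2 * ((i : ℕ) : ℝ) + 1 - if m + 1 - r ≤ (i : ℕ) then ((m + 1 - r : ℕ) : ℝ) else 0) := by
  obtain ⟨s, hs⟩ : ∃ s : ℕ, m + 1 - r = s := ⟨_, rfl⟩
  have hsr : s + r = m + 1 := by omega
  rw [hs]
  have e1 : (∑ i : Fin (m + 1), if (i : ℕ) < j then
      (2 * ((i : ℕ) : ℝ) + 1 - if s ≤ (i : ℕ) then (s : ℝ) else 0) else 0) =
      (j : ℝ) ^ 2 - s * ((j - s : ℕ) : ℝ) := by
    rw [Fin.sum_univ_eq_sum_range (fun i => if i < j then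
      (2 * (i : ℝ) + 1 - if s ≤ i then (s : ℝ) else 0) else 0) (m + 1), ← Finset.sum_filter]
    rw [← pd1_sum]
    refine Finset.sum_congr ?_ fun _ _ => rfl
    ext i
    simp only [Finset.mem_filter, Finset.mem_range]
    omega
  have e2 : ∑ i : Fin (m + 1),
      (2 * ((i : ℕ) : ℝ) + 1 - if s ≤ (i : ℕ) then (s : ℝ) else 0) =
      ((m : ℝ) + 1) ^ 2 - s * r := by
    rw [Fin.sum_univ_eq_sum_range (fun i =>
      (2 * (i : ℝ) + 1 - if s ≤ i then (s : ℝ) else 0)) (m + 1), pd1_sum]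
    rw [show m + 1 - s = r by omega]
    push_cast
    ring
  rw [e1, e2]
  have hn : (m : ℝ) + 1 = s + r := by exact_mod_cast hsr.symm
  have hr1 : (1 : ℝ) ≤ r := by exact_mod_cast hr
  have hj1 : (1 : ℝ) ≤ j := by exact_mod_cast hj
  have hs0 : (0 : ℝ) ≤ s := Nat.cast_nonneg s
  have hnp : (0 : ℝ) < (m : ℝ) + 1 := by positivity
  rw [div_mul_eq_mul_div, lt_div_iff₀ hnp, hn]
  rcases le_or_gt j s with h | h
  · rw [show j - s = 0 by omega]
    have hjs : (j : ℝ) ≤ s := by exact_mod_cast h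
    push_cast
    have h1 : (j : ℝ) * (s + r) < (s + r) ^ 2 - s * r := by nlinarith
    nlinarith
  · obtain ⟨i, hi⟩ : ∃ i : ℕ, m + 1 = j + i := ⟨m + 1 - j, by omega⟩
    have hi1 : 1 ≤ i := by omega
    have hir : i + 1 ≤ r := by omega
    have hi1' : (1 : ℝ) ≤ i := by exact_mod_cast hi1
    have hir' : (i : ℝ) + 1 ≤ r := by exact_mod_cast hir
    have hji : (j : ℝ) = s + r - i := by
      have : ((s + r : ℕ) : ℝ) = ((j + i : ℕ) : ℝ) := by rw [hsr, hi]
      push_cast at this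
      linarith
    have hc : ((j - s : ℕ) : ℝ) = j - s := by
      rw [Nat.cast_sub h.le]
    rw [hc, hji]
    have key : (s + r - i : ℝ) * ((s + r) ^ 2 - s * r) -
        ((s + r - i : ℝ) ^ 2 - s * (s + r - i - s)) * (s + r) =
        i * ((s + r) * (r - i) + s * r) := by ring
    have hpos : (0 : ℝ) < i * ((s + r) * (r - i) + s * r) := by
      have h2 : (0 : ℝ) < (s + r) * (r - i) := mul_pos (by linarith) (by linarith)
      have h3 : (0 : ℝ) ≤ s * r := by positivity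
      exact mul_pos (by linarith) (by linarith)
    linarith

end

end Pool.Agent.SGB

namespace Pool.Agent.SGB

alias expo := expo_pr

end Pool.Agent.SGB
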