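import Pool.Agent.Lib_helper56.SGB.Defs
import Pool.Agent.Lib_helper56.GLQ.F.W1
import Pool.Agent.Lib_helper56.GLQ.F.R3
import Pool.Agent.Lib_helper56.SGB.F.AA
import Pool.Agent.Lib_helper56.SGB.F.PB
import Pool.Agent.Lib_helper56.SGB.F.PC1
import Pool.Agent.Lib_helper56.SGB.F.PD1

/-!
# Project SGN, part B: block PD2 (the integral of `Ψ_r`)
-/

set_option autoImplicit false

namespace Pool.Agent.SGB

open MeasureTheory Matrix
open Pool.Agent.RS (Mt lm SLZ)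
open Pool.Agent.GLQ (re unip cube slab Xp wN IN rm rr qq Lat latt Lz IsRed RY Om Box Kern IsInv Bd sp)
open Pool.Agent.SGN (md repR repL heckeT heckeA supS subS UW Wd lw nf WOk uvec unrm xval)
open scoped ENNReal

noncomputable section

/-- the weights -/
def pd2_w (m r : ℕ) (i : Fin (m + 1)) : ℝ :=
  2 * ((i : ℕ) : ℝ) + 1 - if m + 1 - r ≤ (i : ℕ) then ((m + 1 - r : ℕ) : ℝ) else 0

theorem pd2_hat_lm {m : ℕ} (γ : SLZ (m + 1)) (A : Mt (m + 1)) :
    hat (lm (re γ.1) A) = lm (re γ.1) (hat A) := by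
  unfold hat
  rw [Pool.Agent.GLQ.w1_re, Pool.Agent.RS.det_of_lm _ (Pool.Agent.RS.det_toR _),
    Pool.Agent.GLQ.w1_lm_smul]

theorem pd2_hat_meas (m : ℕ) : Measurable (hat (m := m)) := by
  unfold hat
  have h1 : Measurable fun A : Mt (m + 1) => (Matrix.of A).det ^ (-(1 / ((m : ℝ) + 1))) :=
    (Pool.Agent.RS.measurable_det (m + 1)).pow_const _
  refine measurable_pi_lambda _ fun i => measurable_pi_lambda _ fun j => ?_
  have h2 : Measurable fun A : Mt (m + 1) => A i j :=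
    (measurable_pi_apply j).comp (measurable_pi_apply i)
  exact h1.mul h2

theorem pd2_box_meas {m : ℕ} (a : Fin (m + 1) → ℤ) :
    MeasurableSet (Box (m + 1) fun i => (2 : ℝ) ^ (a i)) :=
  Pool.Agent.GLQ.box_meas_pr _ _ fun _ => zpow_pos two_pos _

theorem pd2_Kr_meas (m r : ℕ) : Measurable (Kr m r) :=
  Measurable.tsum fun a => (measurable_const.indicator (pd2_box_meas a))

theorem pd2_det_hat {m : ℕ} {A : Mt (m + 1)} (hA : 0 < (Matrix.of A).det) :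
    (Matrix.of (hat A)).det = 1 := by
  unfold hat
  rw [Pool.Agent.GLQ.w1_det_smul, ← Real.rpow_natCast, ← Real.rpow_mul hA.le]
  have h1 : -(1 / ((m : ℝ) + 1)) * ((m + 1 : ℕ) : ℝ) = -1 := by
    push_cast
    field_simp
  rw [h1, Real.rpow_neg_one]
  exact inv_mul_cancel₀ hA.ne'

theorem pd2_hv {m r : ℕ} (a : Fin (m + 1) → ℤ) :
    hv m r a * ∏ i : Fin (m + 1), ((2 : ℝ) ^ (a i)) ^ (2 * (i : ℕ) + 1) =
      (2 : ℝ) ^ (∑ i, pd2_w m r i * (a i : ℝ)) := by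
  unfold hv
  rw [← Finset.prod_pow, ← Finset.prod_mul_distrib, Real.rpow_sum_of_pos two_pos]
  refine Finset.prod_congr rfl fun i _ => ?_
  unfold pd2_w
  have h2 : (2 : ℝ) ^ (a i) = (2 : ℝ) ^ ((a i : ℤ) : ℝ) := (Real.rpow_intCast _ _).symm
  by_cases h : m + 1 - r ≤ (i : ℕ)
  · rw [if_pos h, if_pos h, _root_.zpow_neg, h2, ← Real.rpow_neg two_pos.le, ← Real.rpow_natCast,
      ← Real.rpow_natCast, ← Real.rpow_mul two_pos.le, ← Real.rpow_mul two_pos.le,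
      ← Real.rpow_add two_pos]
    congr 1
    push_cast
    ring
  · rw [if_neg h, if_neg h, one_pow, one_mul, h2, ← Real.rpow_natCast,
      ← Real.rpow_mul two_pos.le]
    congr 1
    push_cast
    ring

theorem pd2_hv_nonneg {m r : ℕ} (a : Fin (m + 1) → ℤ) : 0 ≤ hv m r a := by
  unfold hv
  refine pow_nonneg (Finset.prod_nonneg fun i _ => ?_) _
  split_ifs
  · positivity
  · exact zero_le_one

/-- the admissible boxes -/
def pd2_S (m : ℕ) : Set (Fin (m + 1) → ℤ) :=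
  {a | (∀ i j : Fin (m + 1), (i : ℕ) + 1 = (j : ℕ) → a j ≤ a i + 2) ∧ ∑ i, a i ≤ 0 ∧
    -((m : ℤ) + 1) ≤ ∑ i, a i}

theorem pd2_unfold (m r : ℕ) :
    IN m 1 (Psi m r) = ∫⁻ A in Xp (m + 1), Kr m r (hat A) := by
  have hK : Measurable fun A : Mt (m + 1) => Kr m r (hat A) :=
    (pd2_Kr_meas m r).comp (pd2_hat_meas m)
  have h1 := unfold1 m 1 2 one_pos (fun A => Kr m r (hat A)) hK
  have h2 : ∫⁻ A in slab (m + 1) 1 2, Kr m r (hat A) = ∫⁻ A in Xp (m + 1), Kr m r (hat A) := rfl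
  rw [← h2, ← h1]
  unfold IN Xp
  refine setLIntegral_congr_fun (Pool.Agent.RS.measurable_det (m + 1) measurableSet_Icc) ?_
  intro A hA
  have hA0 : 0 < (Matrix.of A).det := lt_of_lt_of_le one_pos hA.1
  have h3 : Psi m r A = ∑' γ : SLZ (m + 1), Kr m r (hat (lm (re γ.1) A)) := by
    unfold Psi
    rw [if_pos hA0]
    congr 1
    funext γ
    rw [pd2_hat_lm]
  show wN m 1 A * Psi m r A = _
  rw [h3]

theorem pd2_tsum (m r : ℕ) : ∫⁻ A in Xp (m + 1), Kr m r (hat A) =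
    ∑' a : Fin (m + 1) → ℤ, ENNReal.ofReal (hv m r a) *
      volume {A : Mt (m + 1) | A ∈ Xp (m + 1) ∧
        hat A ∈ Box (m + 1) fun i => (2 : ℝ) ^ (a i)} := by
  unfold Kr
  have hm : ∀ a : Fin (m + 1) → ℤ,
      MeasurableSet {A : Mt (m + 1) | hat A ∈ Box (m + 1) fun i => (2 : ℝ) ^ (a i)} :=
    fun a => pd2_hat_meas m (pd2_box_meas a)
  have hX : MeasurableSet (Xp (m + 1)) :=
    Pool.Agent.RS.measurable_det (m + 1) measurableSet_Icc
  have h1 : ∀ a : Fin (m + 1) → ℤ, ∀ A : Mt (m + 1),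
      (Box (m + 1) fun i => (2 : ℝ) ^ (a i)).indicator
        (fun _ => ENNReal.ofReal (hv m r a)) (hat A) =
      {A : Mt (m + 1) | hat A ∈ Box (m + 1) fun i => (2 : ℝ) ^ (a i)}.indicator
        (fun _ => ENNReal.ofReal (hv m r a)) A := by
    intro a A
    by_cases h : hat A ∈ Box (m + 1) fun i => (2 : ℝ) ^ (a i)
    · rw [Set.indicator_of_mem h, Set.indicator_of_mem (by exact h)]
    · rw [Set.indicator_of_notMem h, Set.indicator_of_notMem (by exact h)]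
  simp only [h1]
  rw [lintegral_tsum fun a => (measurable_const.indicator (hm a)).aemeasurable]
  congr 1
  funext a
  rw [lintegral_indicator_const (hm a), Measure.restrict_apply (hm a)]
  congr 2
  ext A
  exact and_comm

theorem pd2_one (m r : ℕ) (hr : 1 ≤ r) (hr' : r ≤ m + 1) :
    ∃ C : ℝ, 0 ≤ C ∧ IN m 1 (Psi m r) ≤ ENNReal.ofReal C := by
  obtain ⟨C, hC, hvol⟩ := hat_vol m
  have hsum := dyadic_sum (pd2_w m r) (fun j hj hj' => expo hr hr' j hj hj')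
  set g : (Fin (m + 1) → ℤ) → ℝ := fun a => (2 : ℝ) ^ (∑ i, pd2_w m r i * (a i : ℝ)) with hg
  have hsum' : Summable fun a : pd2_S m => C * g a.1 := hsum.mul_left C
  have hg0 : ∀ a, 0 ≤ g a := fun a => Real.rpow_nonneg two_pos.le _
  refine ⟨∑' a : pd2_S m, C * g a.1, tsum_nonneg fun a => mul_nonneg hC (hg0 _), ?_⟩
  rw [pd2_unfold, pd2_tsum, ENNReal.ofReal_tsum_of_nonneg (fun a => mul_nonneg hC (hg0 _)) hsum',
    tsum_subtype (pd2_S m) (fun a => ENNReal.ofReal (C * g a))]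
  refine ENNReal.tsum_le_tsum fun a => ?_
  by_cases ha : a ∈ pd2_S m
  · rw [Set.indicator_of_mem ha]
    calc ENNReal.ofReal (hv m r a) * volume {A : Mt (m + 1) | A ∈ Xp (m + 1) ∧
          hat A ∈ Box (m + 1) fun i => (2 : ℝ) ^ (a i)}
        ≤ ENNReal.ofReal (hv m r a) *
          ENNReal.ofReal (C * ∏ i : Fin (m + 1), ((2 : ℝ) ^ (a i)) ^ (2 * (i : ℕ) + 1)) :=
          mul_le_mul' le_rfl (hvol a)
      _ = ENNReal.ofReal (C * g a) := by
          rw [← ENNReal.ofReal_mul (pd2_hv_nonneg a), mul_left_comm, pd2_hv]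
  · rw [Set.indicator_of_notMem ha]
    have h1 : {A : Mt (m + 1) | A ∈ Xp (m + 1) ∧
        hat A ∈ Box (m + 1) fun i => (2 : ℝ) ^ (a i)} = ∅ := by
      rw [Set.eq_empty_iff_forall_notMem]
      rintro A ⟨hA, hB⟩
      have hA0 : 0 < (Matrix.of A).det := lt_of_lt_of_le one_pos hA.1
      exact ha (box_adm (by rw [pd2_det_hat hA0, abs_one]) hB)
    rw [h1, measure_empty, mul_zero]

/-- [N4] -/
theorem Psi_int_pr (m : ℕ) : ∃ C : ℝ, 0 ≤ C ∧ ∀ r : ℕ, 1 ≤ r → r ≤ m + 1 →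
    IN m 1 (Psi m r) ≤ ENNReal.ofReal C := by
  have h : ∀ r : ℕ, ∃ C : ℝ, 0 ≤ C ∧ (1 ≤ r → r ≤ m + 1 →
      IN m 1 (Psi m r) ≤ ENNReal.ofReal C) := by
    intro r
    by_cases h1 : 1 ≤ r ∧ r ≤ m + 1
    · obtain ⟨C, hC, h2⟩ := pd2_one m r h1.1 h1.2
      exact ⟨C, hC, fun _ _ => h2⟩
    · exact ⟨0, le_rfl, fun h2 h3 => absurd ⟨h2, h3⟩ h1⟩
  choose C hC hI using h
  refine ⟨∑ r ∈ Finset.range (m + 2), C r, Finset.sum_nonneg fun r _ => hC r, ?_⟩
  intro r hr hr'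
  refine (hI r hr hr').trans (ENNReal.ofReal_le_ofReal ?_)
  exact Finset.single_le_sum (fun r _ => hC r) (Finset.mem_range.2 (by omega))

end

end Pool.Agent.SGB

namespace Pool.Agent.SGB

alias Psi_int := Psi_int_pr

end Pool.Agent.SGB
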