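import Pool.Agent.Lib_helper56.SGB.Defs
import Pool.Agent.Lib_helper56.SGB.F.AB
import Pool.Agent.Lib_helper56.SGB.F.HA2
import Pool.Agent.Lib_helper56.SGB.F.HC
import Pool.Agent.Lib_helper56.SGB.F.HD
import Pool.Agent.Lib_helper56.SGB.F.HE1
import Pool.Agent.Lib_helper56.SGB.F.HE2
import Pool.Agent.Lib_helper56.SGB.F.PA
import Pool.Agent.Lib_helper56.SGB.F.PD2

set_option autoImplicit false

namespace Pool.Agent.SGB

open MeasureTheory Matrix
open Pool.Agent.RS (Mt lm SLZ)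
open Pool.Agent.GLQ (re unip cube slab Xp wN IN rm rr qq Lat latt Lz IsRed RY Om Box Kern IsInv Bd sp)
open Pool.Agent.SGN (md repR repL heckeT heckeA supS subS UW Wd lw nf WOk uvec unrm xval)
open Pool.Agent.GLQ (l1a_mem_Lz l1a_row_mem l1a_exists_T l1a_qq_det l1a_qq_mul l1a_qq_one
  l1a_latt_mul_le)
open scoped ENNReal

noncomputable section

namespace PE

theorem rr_mul {n : ℕ} (a b : Matrix (Fin n) (Fin n) ℚ) : rr (a * b) = rr a * rr b := by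
  ext i j
  simp [rr, Matrix.mul_apply]

theorem rr_qq {n : ℕ} (a : Matrix (Fin n) (Fin n) ℤ) : rr (qq a) = re a := by
  ext i j
  simp [rr, qq, re]

theorem rr_smul {n : ℕ} (c : ℚ) (a : Matrix (Fin n) (Fin n) ℚ) : rr (c • a) = (c : ℝ) • rr a := by
  ext i j
  simp [rr]

theorem rr_one {n : ℕ} : rr (1 : Matrix (Fin n) (Fin n) ℚ) = 1 := by
  ext i j
  simp [rr, Matrix.one_apply, apply_ite]

theorem rr_inv {n : ℕ} (a : Matrix (Fin n) (Fin n) ℚ) (ha : a.det ≠ 0) : rr a⁻¹ = (rr a)⁻¹ := by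
  symm
  apply Matrix.inv_eq_left_inv
  rw [← rr_mul, Matrix.nonsing_inv_mul _ (isUnit_iff_ne_zero.2 ha), rr_one]

/-- two bases differ by an element of `SL_n(ℤ)` -/
theorem bases {n : ℕ} {L : Lat n} {d e : Matrix (Fin n) (Fin n) ℚ} (hd : IsB d L)
    (he : IsB e L) : ∃ γ : SLZ n, e = qq γ.1 * d := by
  obtain ⟨T, hT, hT0, hTd, -⟩ := IsB_qq hd he le_rfl
  have h1 := IsB_det hd he
  have h2 : T.det = 1 := by
    have h3 : (T.det : ℚ) = 1 := by
      have h4 : (T.det : ℚ) * d.det = 1 * d.det := by rw [hTd, one_mul, h1]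
      exact mul_right_cancel₀ hd.1.ne' h4
    exact_mod_cast h3
  exact ⟨⟨T, h2⟩, hT⟩

theorem lm_lm {n : ℕ} (g h : Matrix (Fin n) (Fin n) ℝ) (A : Mt n) : lm g (lm h A) = lm (g * h) A := by
  show g * (h * Matrix.of A) = (g * h) * Matrix.of A
  rw [Matrix.mul_assoc]

theorem lm_smul' {n : ℕ} (c : ℝ) (g : Matrix (Fin n) (Fin n) ℝ) (A : Mt n) :
    lm (c • g) A = c • lm g A := by
  show (c • g) * Matrix.of A = c • (g * Matrix.of A)
  rw [Matrix.smul_mul]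

/-- an invariant function at a basis -/
theorem inv_bas {m : ℕ} {F : Mt (m + 1) → ℝ≥0∞} (hF : IsInv m 1 F) {L : Lat (m + 1)}
    {d : Matrix (Fin (m + 1)) (Fin (m + 1)) ℚ} (hd : IsB d L) (A : Mt (m + 1)) :
    F (lm (rr (bas L)) A) = F (lm (rr d) A) := by
  obtain ⟨γ, hγ⟩ := bases hd (bas_spec ⟨d, hd⟩)
  rw [hγ, rr_mul, rr_qq, ← lm_lm]
  apply hF.inv
  intro j
  exact one_dvd _

theorem card_div (i k : ℕ) :
    (i * k).divisors.card ≤ i * k.divisors.card := by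
  rw [Nat.divisors_mul]
  exact Finset.card_mul_le.trans (Nat.mul_le_mul_right _ (Nat.card_divisors_le_self i))

theorem real_bd (m : ℕ) (P : ℝ) (hP : 1 ≤ P) (i k : ℕ) (hi : 1 ≤ i) (hk : 1 ≤ k)
    (hiP : (i : ℝ) ≤ P ^ (m + 2)) : (((repL (m + 1) (i * k)).card : ℕ) : ℝ) ≤
      P ^ (4 * (m + 1) ^ 2) * (k : ℝ) ^ m * (k.divisors.card : ℝ) ^ (m + 1) := by
  have h1 := card_repL m (i * k) (Nat.mul_pos hi hk)
  have h2 : (i * k) ^ m * (i * k).divisors.card ^ (m + 1) ≤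
      (i * k) ^ m * (i * k.divisors.card) ^ (m + 1) :=
    Nat.mul_le_mul_left _ (Nat.pow_le_pow_left (card_div i k) _)
  have h3 : (((repL (m + 1) (i * k)).card : ℕ) : ℝ) ≤
      ((i : ℝ) * k) ^ m * ((i : ℝ) * (k.divisors.card : ℝ)) ^ (m + 1) := by
    exact_mod_cast h1.trans h2
  refine h3.trans ?_
  have h4 : (i : ℝ) ^ (2 * m + 1) ≤ P ^ (4 * (m + 1) ^ 2) := by
    calc (i : ℝ) ^ (2 * m + 1) ≤ (P ^ (m + 2)) ^ (2 * m + 1) :=
          pow_le_pow_left₀ (by positivity) hiP _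
      _ = P ^ ((m + 2) * (2 * m + 1)) := by rw [← pow_mul]
      _ ≤ _ := pow_le_pow_right₀ hP (by nlinarith)
  calc ((i : ℝ) * k) ^ m * ((i : ℝ) * (k.divisors.card : ℝ)) ^ (m + 1) =
        (i : ℝ) ^ (2 * m + 1) * ((k : ℝ) ^ m * (k.divisors.card : ℝ) ^ (m + 1)) := by
        rw [mul_pow, mul_pow]; ring
    _ ≤ P ^ (4 * (m + 1) ^ 2) * ((k : ℝ) ^ m * (k.divisors.card : ℝ) ^ (m + 1)) :=
        mul_le_mul_of_nonneg_right h4 (by positivity)
    _ = _ := by ring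

/-- the superlattices of `K` are among those of `b ℤ^n` -/
theorem main_le {m : ℕ} {F : Mt (m + 1) → ℝ≥0∞} (hF : IsInv m 1 F) {P : ℝ} (hP : 1 ≤ P)
    {K : Lat (m + 1)} (hK : K ∈ NR (m + 1) 1 P) {k : ℕ} (hk : 1 ≤ k) :
    ∃ i : ℕ, 1 ≤ i ∧ (i : ℝ) ≤ P ^ (m + 2) ∧ ∀ A : Mt (m + 1),
      ∑ L ∈ supS k K, F (lm (rr (bas L)) A) ≤
        ∑ a ∈ repR (m + 1) (i * k), F (lm ((re (Matrix.of a))⁻¹) A) := by
  obtain ⟨d, hd, hd1, -, b, hb1, hbP, hb⟩ := hK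
  have hb0 : (0 : ℚ) < b := by exact_mod_cast hb1
  set B : Matrix (Fin (m + 1)) (Fin (m + 1)) ℚ := (b : ℚ) • 1 with hB
  have hBd : B.det = (b : ℚ) ^ (m + 1) := by
    rw [hB, Matrix.det_smul, Matrix.det_one, mul_one, Fintype.card_fin]
  have hBB : IsB B (latt B) := ⟨by rw [hBd]; positivity, rfl⟩
  have hle : latt B ≤ K := by
    rintro v ⟨x, rfl⟩
    have : (fun i => (x i : ℚ)) ᵥ* B = (b : ℚ) • fun i => (x i : ℚ) := by
      rw [hB, Matrix.vecMul_smul, Matrix.vecMul_one]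
    rw [this]
    exact hb _ ((l1a_mem_Lz _).2 ⟨x, rfl⟩)
  obtain ⟨T, -, hT0, hTd, hTi⟩ := IsB_qq hd hBB hle
  have hTn : ((T.det.natAbs : ℕ) : ℤ) = T.det := Int.natAbs_of_nonneg hT0.le
  have hi1 : 1 ≤ T.det.natAbs := by omega
  refine ⟨T.det.natAbs, hi1, ?_, fun A => ?_⟩
  · have h1 : ((T.det.natAbs : ℕ) : ℝ) * (d.det : ℝ) = (b : ℝ) ^ (m + 1) := by
      have h2 : ((T.det.natAbs : ℕ) : ℚ) * d.det = (b : ℚ) ^ (m + 1) := by
        rw [← hBd, ← hTd, ← Int.cast_natCast (R := ℚ), hTn]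
      exact_mod_cast h2
    rw [one_mul] at hd1
    have hP0 : 0 < P := by linarith
    have h3 : ((T.det.natAbs : ℕ) : ℝ) * (1 / P) ≤ (b : ℝ) ^ (m + 1) := by
      rw [← h1]
      exact mul_le_mul_of_nonneg_left hd1 (by positivity)
    have h4 : (b : ℝ) ^ (m + 1) ≤ P ^ (m + 1) := pow_le_pow_left₀ (by positivity) hbP _
    calc ((T.det.natAbs : ℕ) : ℝ) = ((T.det.natAbs : ℕ) : ℝ) * (1 / P) * P := by field_simp
      _ ≤ P ^ (m + 1) * P := mul_le_mul_of_nonneg_right (h3.trans h4) hP0.le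
      _ = P ^ (m + 2) := by ring
  · have hik : 1 ≤ T.det.natAbs * k := Nat.mul_pos hi1 hk
    have hsub : supS k K ⊆ supS (T.det.natAbs * k) (latt B) := by
      intro L hL
      rw [mem_supS hk ⟨d, hd⟩] at hL
      rw [mem_supS hik ⟨B, hBB⟩]
      refine ⟨hle.trans hL.1, ?_⟩
      rw [← AddSubgroup.relIndex_mul_relIndex (latt B) K L hle hL.1, hTi, hL.2]
    refine (Finset.sum_le_sum_of_subset hsub).trans (le_of_eq ?_)
    rw [sum_supS hik (fun L => F (lm (rr (bas L)) A)) B hBB.1]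
    refine Finset.sum_congr rfl fun a ha => ?_
    have had : (qq (Matrix.of a)).det = ((T.det.natAbs * k : ℕ) : ℚ) := by
      rw [l1a_qq_det, det_repR ha, Int.cast_natCast]
    have had0 : (0 : ℚ) < (qq (Matrix.of a)).det := by
      rw [had]; exact_mod_cast hik
    have hbas : IsB ((qq (Matrix.of a))⁻¹ * B) (latt ((qq (Matrix.of a))⁻¹ * B)) := by
      refine ⟨?_, rfl⟩
      rw [Matrix.det_mul, Matrix.det_nonsing_inv, Ring.inverse_eq_inv']
      exact mul_pos (inv_pos.2 had0) hBB.1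
    rw [inv_bas hF hbas, hB, Matrix.mul_smul, Matrix.mul_one, rr_smul, rr_inv _ had0.ne', rr_qq,
      lm_smul', hF.scal]
    exact_mod_cast hb0

end PE

open PE in
theorem avg_Psi_pr (m : ℕ) (hm : 1 ≤ m) : ∃ C : ℝ, 0 ≤ C ∧ ∀ r : ℕ, 1 ≤ r → r ≤ m + 1 →
    ∀ P : ℝ, 1 ≤ P → ∀ K ∈ NR (m + 1) 1 P, ∀ k : ℕ, 1 ≤ k →
      IN m 1 (fun A => ∑ L ∈ supS k K, Psi m r (lm (rr (bas L)) A)) ≤
        ENNReal.ofReal (C * P ^ (4 * (m + 1) ^ 2) * (k : ℝ) ^ m *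
          (k.divisors.card : ℝ) ^ (m + 1)) := by
  obtain ⟨C, hC, hCi⟩ := Psi_int m
  refine ⟨C, hC, fun r hr hr' P hP K hK k hk => ?_⟩
  have hF := Psi_isInv m r
  obtain ⟨i, hi, hiP, hle⟩ := main_le hF hP hK hk
  calc IN m 1 (fun A => ∑ L ∈ supS k K, Psi m r (lm (rr (bas L)) A))
      ≤ ∫⁻ A in Xp (m + 1), wN m 1 A *
          ∑ a ∈ repR (m + 1) (i * k), Psi m r (lm ((re (Matrix.of a))⁻¹) A) := by
        unfold IN
        exact lintegral_mono fun A => mul_le_mul_right (hle A) _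
    _ = (repL (m + 1) (i * k)).card * IN m 1 (Psi m r) :=
        avg_sup m (i * k) (Nat.mul_pos hi hk) _ hF
    _ ≤ ENNReal.ofReal (P ^ (4 * (m + 1) ^ 2) * (k : ℝ) ^ m * (k.divisors.card : ℝ) ^ (m + 1)) *
          ENNReal.ofReal C := by
        refine mul_le_mul' ?_ (hCi r hr hr')
        rw [← ENNReal.ofReal_natCast]
        exact ENNReal.ofReal_le_ofReal (real_bd m P hP i k hi hk hiP)
    _ = _ := by
        rw [← ENNReal.ofReal_mul (by positivity)]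
        congr 1
        ring


end

end Pool.Agent.SGB

namespace Pool.Agent.SGB

alias avg_Psi := avg_Psi_pr

end Pool.Agent.SGB
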