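import Pool.Agent.Lib_helper56.SGB.Defs

/-!
# Project SGN, part B: block RA
-/

set_option autoImplicit false

namespace Pool.Agent.SGB

open MeasureTheory Matrix
open Pool.Agent.RS (Mt lm SLZ)
open Pool.Agent.GLQ (re unip cube slab Xp wN IN rm rr qq Lat latt Lz IsRed RY Om Box Kern IsInv Bd sp)
open Pool.Agent.SGN (md repR repL heckeT heckeA supS subS UW Wd lw nf WOk uvec unrm xval)
open scoped ENNReal

noncomputable section

/-- linearly independent rows have a nonzero maximal minor -/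
theorem ra_cols {K : Type} [Field K] {ι : Type} [Fintype ι] [DecidableEq ι] {n : ℕ}
    (A : Matrix ι (Fin n) K) (hA : LinearIndependent K A.row) :
    ∃ (s : Finset (Fin n)) (e : ι ≃ s), (A.submatrix id fun j => (e j : Fin n)).det ≠ 0 := by
  classical
  obtain ⟨b, -, -, hb1, hb2⟩ := exists_linearIndepOn_extension (K := K) (v := A.col)
    (s := ∅) (t := Set.univ) (linearIndepOn_empty K A.col) (Set.empty_subset _)
  have hr : A.rank = Fintype.card ι := hA.rank_matrix
  rw [Matrix.rank_eq_finrank_span_cols] at hr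
  have hsp : Submodule.span K (Set.range A.col) = Submodule.span K (A.col '' b) := by
    apply le_antisymm
    · rw [Submodule.span_le, ← Set.image_univ]
      exact hb1
    · exact Submodule.span_mono (Set.image_subset_range _ _)
  have hbf : b.Finite := Set.toFinite b
  set s : Finset (Fin n) := hbf.toFinset with hs
  have hli : LinearIndependent K (fun j : s => A.col (j : Fin n)) := by
    have h1 : LinearIndependent K (fun j : b => A.col (j : Fin n)) := hb2
    refine h1.comp (fun j : s => (⟨(j : Fin n), hbf.mem_toFinset.1 j.2⟩ : b)) ?_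
    intro x y hxy
    have := congrArg (fun z : b => (z : Fin n)) hxy
    exact Subtype.ext this
  have hset : A.col '' b = Set.range (fun j : s => A.col (j : Fin n)) := by
    ext x
    constructor
    · rintro ⟨j, hj, rfl⟩
      exact ⟨⟨j, hbf.mem_toFinset.2 hj⟩, rfl⟩
    · rintro ⟨j, rfl⟩
      exact ⟨j, hbf.mem_toFinset.1 j.2, rfl⟩
  have hcard : Fintype.card s = Fintype.card ι := by
    rw [← hr, hsp, hset, ← finrank_span_eq_card hli]
  have e : ι ≃ s := Fintype.equivOfCardEq hcard.symm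
  refine ⟨s, e, ?_⟩
  have h1 : LinearIndependent K (A.submatrix id fun j => (e j : Fin n)).col := by
    have := hli.comp e e.injective
    exact this
  rw [Matrix.linearIndependent_cols_iff_isUnit, Matrix.isUnit_iff_isUnit_det] at h1
  exact h1.ne_zero

/-- the determinant is bounded by the product of the bounds of the columns -/
theorem ra_det {ι : Type} [Fintype ι] [DecidableEq ι] (M : Matrix ι ι ℤ) (D : ι → ℝ)
    (h : ∀ i j, |(M i j : ℝ)| ≤ D j) : |(M.det : ℝ)| ≤ (Fintype.card ι).factorial * ∏ j, D j := by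
  rw [Matrix.det_apply']
  push_cast
  refine (Finset.abs_sum_le_sum_abs _ _).trans ?_
  have h1 : ∀ σ ∈ (Finset.univ : Finset (Equiv.Perm ι)),
      |((Equiv.Perm.sign σ : ℤ) : ℝ) * ∏ i, (M (σ i) i : ℝ)| ≤ ∏ j, D j := by
    intro σ _
    rw [abs_mul, Finset.abs_prod]
    have h2 : |((Equiv.Perm.sign σ : ℤ) : ℝ)| = 1 := by
      rcases Int.units_eq_one_or (Equiv.Perm.sign σ) with h3 | h3 <;> rw [h3] <;> simp
    rw [h2, one_mul]
    exact Finset.prod_le_prod (fun i _ => abs_nonneg _) fun i _ => h _ _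
  refine (Finset.sum_le_sum h1).trans (le_of_eq ?_)
  rw [Finset.sum_const, Finset.card_univ, Fintype.card_perm, nsmul_eq_mul]

theorem ra_prod_le {n : ℕ} (D : Fin n → ℝ) (hD : ∀ k, 1 ≤ D k) (s : Finset (Fin n)) :
    ∏ k ∈ s, D k ≤ ∏ k, D k := by
  classical
  have h1 : (1 : ℝ) ≤ ∏ k ∈ sᶜ, D k := by
    have := Finset.prod_le_prod (s := sᶜ) (f := fun _ : Fin n => (1 : ℝ)) (g := D)
      (fun _ _ => zero_le_one) fun k _ => hD k
    simpa using this
  have h2 : 0 ≤ ∏ k ∈ s, D k := Finset.prod_nonneg fun k _ => by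
    have := hD k
    linarith
  rw [← Finset.prod_mul_prod_compl s D]
  exact le_mul_of_one_le_right h2 h1

/-- the number of points is at most the number of coordinates -/
theorem ra_dim {n r : ℕ} (q : ℕ) [Fact q.Prime] (D : Fin n → ℝ) (hD : ∀ k, 1 ≤ D k)
    (hq : (n.factorial : ℝ) * ∏ k, D k < q) (W : Submodule (ZMod q) (Fin n → ZMod q))
    (hW : Module.finrank (ZMod q) W = r) {ι : Type} [Fintype ι] [DecidableEq ι]
    (z : ι → Fin n → ℤ) (hz : ∀ i k, |(z i k : ℝ)| ≤ D k)
    (hzW : ∀ i, (fun k => ((z i k : ℤ) : ZMod q)) ∈ W) {s : Finset (Fin n)} (e : ι ≃ s)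
    (hdet : ((Matrix.of fun i j => z i (e j : Fin n)) : Matrix ι ι ℤ).det ≠ 0) :
    Fintype.card ι ≤ r := by
  classical
  by_contra hlt
  set M : Matrix ι ι ℤ := Matrix.of fun i j => z i (e j : Fin n) with hM
  have hcs : Fintype.card ι = s.card := by
    rw [Fintype.card_congr e, Fintype.card_coe]
  have hsn : s.card ≤ n := by
    simpa using Finset.card_le_univ s
  -- the bound
  have h1 : |(M.det : ℝ)| ≤ (Fintype.card ι).factorial * ∏ j, D (e j : Fin n) :=
    ra_det M (fun j => D (e j : Fin n)) fun i j => hz i _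
  have h2 : ∏ j, D (e j : Fin n) = ∏ k ∈ s, D k := by
    rw [← Finset.prod_coe_sort s D]
    exact Equiv.prod_comp e fun k : s => D (k : Fin n)
  have hp : 0 ≤ ∏ k, D k := Finset.prod_nonneg fun k _ => by
    have := hD k
    linarith
  have h3 : |(M.det : ℝ)| < q := by
    refine lt_of_le_of_lt ?_ hq
    refine h1.trans ?_
    rw [h2, hcs]
    refine mul_le_mul ?_ (ra_prod_le D hD s) (Finset.prod_nonneg fun k _ => by
      have := hD k
      linarith) (by positivity)
    exact_mod_cast Nat.factorial_le hsn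
  -- divisibility
  have h4 : (M.map (Int.castRingHom (ZMod q))).det = 0 := by
    by_contra hne
    have h5 : IsUnit (M.map (Int.castRingHom (ZMod q))) := by
      rw [Matrix.isUnit_iff_isUnit_det]
      exact isUnit_iff_ne_zero.2 hne
    rw [← Matrix.linearIndependent_rows_iff_isUnit] at h5
    let p : (Fin n → ZMod q) →ₗ[ZMod q] (ι → ZMod q) :=
      LinearMap.funLeft (ZMod q) (ZMod q) fun j => (e j : Fin n)
    have h6 : Submodule.span (ZMod q) (Set.range (M.map (Int.castRingHom (ZMod q))).row) ≤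
        W.map p := by
      rw [Submodule.span_le]
      rintro x ⟨i, rfl⟩
      refine ⟨_, hzW i, ?_⟩
      funext j
      rfl
    have h7 := Submodule.finrank_mono h6
    rw [finrank_span_eq_card h5] at h7
    have h8 := Submodule.finrank_map_le p W
    omega
  have h5 : ((M.det : ℤ) : ZMod q) = 0 := by
    have h6 := Int.cast_det M (R := ZMod q)
    rw [h6]
    exact h4
  rw [ZMod.intCast_zmod_eq_zero_iff_dvd] at h5
  have h6 := Int.le_of_dvd (abs_pos.2 hdet) ((dvd_abs _ _).2 h5)
  have h7 : (q : ℝ) ≤ |(M.det : ℝ)| := by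
    have : ((q : ℤ) : ℝ) ≤ ((|M.det| : ℤ) : ℝ) := by exact_mod_cast h6
    simpa using this
  linarith

theorem points_sub_pr {n r : ℕ} (q : ℕ) [Fact q.Prime] (D : Fin n → ℝ) (hD : ∀ k, 1 ≤ D k)
    (hq : (n.factorial : ℝ) * ∏ k, D k < q) (W : Submodule (ZMod q) (Fin n → ZMod q))
    (hW : Module.finrank (ZMod q) W = r) (hr : r ≤ n) : ∃ s : Finset (Fin n), s.card = r ∧
      {z : Fin n → ℤ | (∀ k, |(z k : ℝ)| ≤ D k) ∧ (fun k => ((z k : ℤ) : ZMod q)) ∈ W}.Finite ∧
      ({z : Fin n → ℤ | (∀ k, |(z k : ℝ)| ≤ D k) ∧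
        (fun k => ((z k : ℤ) : ZMod q)) ∈ W}.ncard : ℝ) ≤ ∏ k ∈ s, (1 + 2 * D k) := by
  classical
  set Z : Set (Fin n → ℤ) := {z : Fin n → ℤ | (∀ k, |(z k : ℝ)| ≤ D k) ∧
    (fun k => ((z k : ℤ) : ZMod q)) ∈ W} with hZ
  have hbd : ∀ z ∈ Z, ∀ k, -⌊D k⌋ ≤ z k ∧ z k ≤ ⌊D k⌋ := by
    intro z hz k
    have h1 := abs_le.1 (hz.1 k)
    constructor
    · have : -z k ≤ ⌊D k⌋ := by
        rw [Int.le_floor]
        push_cast
        linarith
      linarith
    · rw [Int.le_floor]
      exact h1.2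
  have hfin : Z.Finite := by
    refine (Set.finite_Icc (fun k => -⌊D k⌋) (fun k => ⌊D k⌋)).subset fun z hz => ?_
    exact ⟨fun k => (hbd z hz k).1, fun k => (hbd z hz k).2⟩
  let c : (Fin n → ℤ) → (Fin n → ℚ) := fun z k => (z k : ℚ)
  obtain ⟨b, hbZ, hbs, hbl⟩ := exists_linearIndependent ℚ (c '' Z)
  have hbf : b.Finite := (hfin.image c).subset hbZ
  have : Fintype b := hbf.fintype
  choose z0 hz0 hz0c using fun i : b => hbZ i.2
  -- the matrix
  let A : Matrix b (Fin n) ℚ := Matrix.of fun i k => (z0 i k : ℚ)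
  have hArow : A.row = fun i : b => (i : Fin n → ℚ) := by
    funext i
    exact hz0c i
  have hA : LinearIndependent ℚ A.row := by
    rw [hArow]
    exact hbl
  obtain ⟨s0, e, hdet⟩ := ra_cols A hA
  have hdet' : ((Matrix.of fun i j => z0 i (e j : Fin n)) : Matrix b b ℤ).det ≠ 0 := by
    intro h1
    apply hdet
    have h2 := Int.cast_det ((Matrix.of fun i j => z0 i (e j : Fin n)) : Matrix b b ℤ) (R := ℚ)
    rw [h1, Int.cast_zero] at h2
    exact h2.symm
  have hcard : Fintype.card b ≤ r := ra_dim q D hD hq W hW z0 (fun i k => (hz0 i).1 k)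
    (fun i => (hz0 i).2) e hdet'
  have hs0 : s0.card ≤ r := by
    rw [← Fintype.card_coe, ← Fintype.card_congr e]
    exact hcard
  obtain ⟨s, hs0s, hsr⟩ := Finset.exists_superset_card_eq hs0 (by simpa using hr)
  refine ⟨s, hsr, hfin, ?_⟩
  -- the projection is injective
  have hinj : Set.InjOn (fun (z : Fin n → ℤ) (k : s) => z k) Z := by
    intro z hz z' hz' h1
    have h2 : c z - c z' ∈ Submodule.span ℚ b := by
      rw [hbs]
      exact Submodule.sub_mem _ (Submodule.subset_span ⟨z, hz, rfl⟩)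
        (Submodule.subset_span ⟨z', hz', rfl⟩)
    have h3 : b = Set.range A.row := by
      rw [hArow]
      simp
    rw [h3, Submodule.mem_span_range_iff_exists_fun] at h2
    obtain ⟨a, ha⟩ := h2
    have h4 : a ᵥ* (A.submatrix id fun j => (e j : Fin n)) = 0 := by
      funext j
      have h5 : (a ᵥ* (A.submatrix id fun j => (e j : Fin n))) j =
          (∑ i, a i • A.row i) (e j : Fin n) := by
        simp [Matrix.vecMul, dotProduct, Finset.sum_apply, Matrix.row]
      rw [h5, ha]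
      have h6 := congrFun h1 ⟨(e j : Fin n), hs0s (e j).2⟩
      have h7 : z (e j : Fin n) = z' (e j : Fin n) := h6
      show (z (e j : Fin n) : ℚ) - (z' (e j : Fin n) : ℚ) = 0
      rw [h7, sub_self]
    have h5 : a = 0 := Matrix.eq_zero_of_vecMul_eq_zero hdet h4
    rw [h5] at ha
    simp only [Pi.zero_apply, zero_smul, Finset.sum_const_zero] at ha
    funext k
    have h6 := congrFun ha k
    have h7 : (z k : ℚ) - (z' k : ℚ) = 0 := h6.symm
    exact_mod_cast sub_eq_zero.1 h7
  -- counting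
  have h1 : Z.ncard ≤ (Fintype.piFinset fun k : s => Finset.Icc (-⌊D k⌋) ⌊D k⌋).card := by
    rw [← Set.ncard_coe_finset]
    refine Set.ncard_le_ncard_of_injOn _ (fun z hz => ?_) hinj (Finset.finite_toSet _)
    rw [Finset.mem_coe, Fintype.mem_piFinset]
    intro k
    rw [Finset.mem_Icc]
    exact hbd z hz k
  have h2 : ((Fintype.piFinset fun k : s => Finset.Icc (-⌊D k⌋) ⌊D k⌋).card : ℝ) ≤
      ∏ k ∈ s, (1 + 2 * D k) := by
    rw [Fintype.card_piFinset, Nat.cast_prod, ← Finset.prod_coe_sort s fun k => (1 + 2 * D k)]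
    refine Finset.prod_le_prod (fun k _ => Nat.cast_nonneg _) fun k _ => ?_
    rw [Int.card_Icc]
    have h3 : (0 : ℝ) ≤ D k := by
      have := hD k
      linarith
    have h4 : (0 : ℤ) ≤ ⌊D k⌋ := Int.floor_nonneg.2 h3
    have h5 : (((⌊D k⌋ + 1 - -⌊D k⌋).toNat : ℕ) : ℝ) = ((⌊D k⌋ + 1 - -⌊D k⌋ : ℤ) : ℝ) := by
      have : (((⌊D k⌋ + 1 - -⌊D k⌋).toNat : ℤ)) = (⌊D k⌋ + 1 - -⌊D k⌋ : ℤ) :=
        Int.toNat_of_nonneg (by linarith)
      exact_mod_cast congrArg (fun x : ℤ => (x : ℝ)) this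
    rw [h5]
    push_cast
    have h6 := Int.floor_le (D k)
    linarith
  refine le_trans ?_ h2
  exact_mod_cast h1

end

end Pool.Agent.SGB

namespace Pool.Agent.SGB

alias points_sub := points_sub_pr

end Pool.Agent.SGB
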