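import Pool.Agent.Lib_helper56.SGB.Defs
import Pool.Agent.Lib_helper56.SGB.F.RA

/-!
# Project SGN, part B: block RB
-/

set_option autoImplicit false

namespace Pool.Agent.SGB

open MeasureTheory Matrix
open Pool.Agent.RS (Mt lm SLZ)
open Pool.Agent.GLQ (re unip cube slab Xp wN IN rm rr qq Lat latt Lz IsRed RY Om Box Kern IsInv Bd sp)
open Pool.Agent.SGN (md repR repL heckeT heckeA supS subS UW Wd lw nf WOk uvec unrm xval)
open scoped ENNReal

noncomputable section

/-- the box -/
def rbBox {n : ℕ} (B : Fin n → ℝ) : Finset (Fin n → ℤ) :=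
  Fintype.piFinset fun k => Finset.Icc (-⌊B k⌋) ⌊B k⌋

theorem rb_mem {n : ℕ} (B : Fin n → ℝ) (z : Fin n → ℤ) :
    z ∈ rbBox B ↔ ∀ k, |(z k : ℝ)| ≤ B k := by
  unfold rbBox
  rw [Fintype.mem_piFinset]
  refine forall_congr' fun k => ?_
  rw [Finset.mem_Icc, abs_le]
  constructor
  · rintro ⟨h1, h2⟩
    have h3 := Int.floor_le (B k)
    constructor
    · have : (-(⌊B k⌋ : ℤ) : ℝ) ≤ (z k : ℝ) := by exact_mod_cast h1
      linarith
    · exact (Int.le_floor.1 h2)
  · rintro ⟨h1, h2⟩
    refine ⟨?_, Int.le_floor.2 h2⟩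
    have : -z k ≤ ⌊B k⌋ := by
      rw [Int.le_floor]
      push_cast
      linarith
    linarith

theorem rb_card {n : ℕ} (B : Fin n → ℝ) (hB : ∀ k, 1 ≤ B k) :
    ((rbBox B).card : ℝ) ≤ 3 ^ n * ∏ k, B k := by
  unfold rbBox
  rw [Fintype.card_piFinset, Nat.cast_prod]
  have h1 : (3 : ℝ) ^ n * ∏ k, B k = ∏ k, (3 * B k) := by
    rw [Finset.prod_mul_distrib, Finset.prod_const, Finset.card_univ, Fintype.card_fin]
  rw [h1]
  refine Finset.prod_le_prod (fun k _ => Nat.cast_nonneg _) fun k _ => ?_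
  rw [Int.card_Icc]
  have h4 : (0 : ℤ) ≤ ⌊B k⌋ := Int.floor_nonneg.2 (by
    have := hB k
    linarith)
  have h5 : (((⌊B k⌋ + 1 - -⌊B k⌋).toNat : ℕ) : ℝ) = ((⌊B k⌋ + 1 - -⌊B k⌋ : ℤ) : ℝ) := by
    have : (((⌊B k⌋ + 1 - -⌊B k⌋).toNat : ℤ)) = (⌊B k⌋ + 1 - -⌊B k⌋ : ℤ) :=
      Int.toNat_of_nonneg (by linarith)
    exact_mod_cast congrArg (fun x : ℤ => (x : ℝ)) this
  rw [h5]
  push_cast
  have h6 := Int.floor_le (B k)
  have h7 := hB k
  linarith

/-- the rows in a coset -/
theorem rb_coset {n r : ℕ} (q : ℕ) [Fact q.Prime] (hr : r ≤ n) (B : Fin n → ℝ)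
    (hB : ∀ k, 1 ≤ B k) (hq : (n.factorial : ℝ) * 2 ^ n * ∏ k, B k < q) (J : ℝ)
    (hJ : ∀ s : Finset (Fin n), s.card = r → ∏ k ∈ s, B k ≤ J)
    (W : Submodule (ZMod q) (Fin n → ZMod q)) (hW : Module.finrank (ZMod q) W = r)
    (a : Fin n → ZMod q) : by
      classical exact
      (((rbBox B).filter fun z => (fun k => ((z k : ℤ) : ZMod q)) - a ∈ W).card : ℝ) ≤
        5 ^ n * J := by
  classical
  set F := (rbBox B).filter fun z => (fun k => ((z k : ℤ) : ZMod q)) - a ∈ W with hF
  obtain ⟨s, hs, hfin, hcard⟩ := points_sub (r := r) q (fun k => 2 * B k) (fun k => by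
    have := hB k
    linarith) (by
      rw [Finset.prod_mul_distrib, Finset.prod_const, Finset.card_univ, Fintype.card_fin,
        ← mul_assoc]
      exact hq) W hW hr
  have hJ0 : 1 ≤ ∏ k ∈ s, B k := by
    have := Finset.prod_le_prod (s := s) (f := fun _ : Fin n => (1 : ℝ)) (g := B)
      (fun _ _ => zero_le_one) fun k _ => hB k
    simpa using this
  have hJs := hJ s hs
  have h1 : ∏ k ∈ s, (1 + 2 * (2 * B k)) ≤ 5 ^ n * J := by
    have h2 : ∏ k ∈ s, (1 + 2 * (2 * B k)) ≤ ∏ k ∈ s, (5 * B k) :=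
      Finset.prod_le_prod (fun k _ => by
        have := hB k
        linarith) fun k _ => by
        have := hB k
        linarith
    refine h2.trans ?_
    rw [Finset.prod_mul_distrib, Finset.prod_const, hs]
    have h3 : (5 : ℝ) ^ r ≤ 5 ^ n := pow_le_pow_right₀ (by norm_num) hr
    exact mul_le_mul h3 hJs (by linarith) (by positivity)
  rcases F.eq_empty_or_nonempty with h0 | ⟨z0, hz0⟩
  · rw [h0]
    simp only [Finset.card_empty, Nat.cast_zero]
    refine mul_nonneg (by positivity) (by linarith)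
  · refine le_trans ?_ (hcard.trans h1)
    have h2 : F.card ≤ {z : Fin n → ℤ | (∀ k, |(z k : ℝ)| ≤ 2 * B k) ∧
        (fun k => ((z k : ℤ) : ZMod q)) ∈ W}.ncard := by
      rw [← Set.ncard_coe_finset]
      refine Set.ncard_le_ncard_of_injOn (fun z => z - z0) (fun z hz => ?_) (fun z _ z' _ h => ?_)
        hfin
      · rw [Finset.mem_coe, hF, Finset.mem_filter] at hz
        rw [hF, Finset.mem_filter] at hz0
        have h3 := (rb_mem B z).1 hz.1
        have h4 := (rb_mem B z0).1 hz0.1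
        refine ⟨fun k => ?_, ?_⟩
        · have h5 : (((z - z0) k : ℤ) : ℝ) = (z k : ℝ) - (z0 k : ℝ) := by
            rw [Pi.sub_apply]
            push_cast
            ring
          rw [h5]
          have := abs_sub (z k : ℝ) (z0 k : ℝ)
          linarith [h3 k, h4 k]
        · have h5 : (fun k => (((z - z0) k : ℤ) : ZMod q)) =
              ((fun k => ((z k : ℤ) : ZMod q)) - a) - ((fun k => ((z0 k : ℤ) : ZMod q)) - a) := by
            funext k
            simp only [Pi.sub_apply]
            push_cast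
            ring
          rw [h5]
          exact W.sub_mem hz.2 hz0.2
      · exact sub_left_injective h
    exact_mod_cast h2

/-- the rows of `Z - C` modulo `q` -/
def rbRow {n : ℕ} (q : ℕ) (C : Matrix (Fin n) (Fin n) (ZMod q)) (Z : Fin n → Fin n → ℤ)
    (i : Fin n) : Fin n → ZMod q := (fun k => ((Z i k : ℤ) : ZMod q)) - C i

open Classical in
/-- the matrices for which the rows in `I` are a basis of the row space -/
def rbS {n : ℕ} (q : ℕ) (B : Fin n → ℝ) (C : Matrix (Fin n) (Fin n) (ZMod q))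
    (I : Finset (Fin n)) : Finset (Fin n → Fin n → ℤ) :=
  (Fintype.piFinset fun _ : Fin n => rbBox B).filter fun Z =>
    LinearIndependent (ZMod q) (fun i : I => rbRow q C Z i) ∧
      ∀ j, rbRow q C Z j ∈ Submodule.span (ZMod q) (Set.range fun i : I => rbRow q C Z i)

theorem rb_S_card {n r : ℕ} (q : ℕ) [Fact q.Prime] (hr : r ≤ n) (B : Fin n → ℝ)
    (hB : ∀ k, 1 ≤ B k) (hq : (n.factorial : ℝ) * 2 ^ n * ∏ k, B k < q) (J : ℝ)
    (hJ : ∀ s : Finset (Fin n), s.card = r → ∏ k ∈ s, B k ≤ J)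
    (C : Matrix (Fin n) (Fin n) (ZMod q)) (I : Finset (Fin n)) (hI : I.card = r) :
    ((rbS q B C I).card : ℝ) ≤ (3 ^ n * ∏ k, B k) ^ r * (5 ^ n * J) ^ (n - r) := by
  classical
  have hJ1 : 0 ≤ J := by
    have h1 := hJ I hI
    have h2 : 0 ≤ ∏ k ∈ I, B k := Finset.prod_nonneg fun k _ => by
      have := hB k
      linarith
    linarith
  have hX : 0 ≤ 5 ^ n * J := by positivity
  set t : Finset (I → Fin n → ℤ) := Fintype.piFinset fun _ : I => rbBox B with ht
  have hmaps : ∀ Z ∈ rbS q B C I, (fun i : I => Z i) ∈ t := by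
    intro Z hZ
    rw [rbS, Finset.mem_filter, Fintype.mem_piFinset] at hZ
    rw [ht, Fintype.mem_piFinset]
    exact fun i => hZ.1 i
  rw [Finset.card_eq_sum_card_fiberwise hmaps, Nat.cast_sum]
  have hfib : ∀ y ∈ t, (((rbS q B C I).filter fun Z => (fun i : I => Z i) = y).card : ℝ) ≤
      (5 ^ n * J) ^ (n - r) := by
    intro y _
    set F := (rbS q B C I).filter fun Z => (fun i : I => Z i) = y with hF
    rcases F.eq_empty_or_nonempty with h0 | ⟨Z0, hZ0⟩
    · rw [h0]
      simp only [Finset.card_empty, Nat.cast_zero]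
      exact pow_nonneg hX _
    · set W : Submodule (ZMod q) (Fin n → ZMod q) :=
        Submodule.span (ZMod q) (Set.range fun i : I =>
          ((fun k => ((y i k : ℤ) : ZMod q)) - C i)) with hW
      have hrow : ∀ Z ∈ F, (fun i : I => rbRow q C Z i) =
          fun i : I => ((fun k => ((y i k : ℤ) : ZMod q)) - C i) := by
        intro Z hZ
        rw [hF, Finset.mem_filter] at hZ
        funext i
        unfold rbRow
        rw [← hZ.2]
      have hWr : Module.finrank (ZMod q) W = r := by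
        have h1 := hrow Z0 hZ0
        rw [hF, Finset.mem_filter, rbS, Finset.mem_filter] at hZ0
        have h2 := hZ0.1.2.1
        rw [h1] at h2
        rw [hW, finrank_span_eq_card h2, Fintype.card_coe, hI]
      set G : {j : Fin n // j ∉ I} → Finset (Fin n → ℤ) := fun j =>
        (rbBox B).filter fun z => (fun k => ((z k : ℤ) : ZMod q)) - C j ∈ W with hG
      have hcard : F.card ≤ (Fintype.piFinset G).card := by
        refine Finset.card_le_card_of_injOn (fun Z => fun j : {j : Fin n // j ∉ I} => Z j)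
          (fun Z hZ => ?_) (fun Z hZ Z' hZ' h => ?_)
        · have hZF : Z ∈ F := hZ
          have h1 := hrow Z hZF
          rw [hF, Finset.mem_filter, rbS, Finset.mem_filter, Fintype.mem_piFinset] at hZF
          rw [Finset.mem_coe, Fintype.mem_piFinset]
          intro j
          rw [hG, Finset.mem_filter]
          refine ⟨hZF.1.1 j, ?_⟩
          have h2 := hZF.1.2.2 j
          rw [h1] at h2
          exact h2
        · have hZF : Z ∈ F := hZ
          have hZF' : Z' ∈ F := hZ'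
          rw [hF, Finset.mem_filter] at hZF hZF'
          funext i
          by_cases hi : i ∈ I
          · have h1 := congrFun (hZF.2.trans hZF'.2.symm) ⟨i, hi⟩
            exact h1
          · exact congrFun h ⟨i, hi⟩
      have h1 : ((Fintype.piFinset G).card : ℝ) ≤ (5 ^ n * J) ^ (n - r) := by
        rw [Fintype.card_piFinset, Nat.cast_prod]
        have h2 : ∏ j : {j : Fin n // j ∉ I}, ((G j).card : ℝ) ≤
            ∏ _j : {j : Fin n // j ∉ I}, (5 ^ n * J) :=
          Finset.prod_le_prod (fun j _ => Nat.cast_nonneg _) fun j _ => by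
            have := rb_coset q hr B hB hq J hJ W hWr (C j)
            convert! this
        refine h2.trans (le_of_eq ?_)
        rw [Finset.prod_const, Finset.card_univ]
        congr 1
        have h3 : Fintype.card {j : Fin n // j ∉ I} = Fintype.card (Fin n) - I.card := by
          rw [Fintype.card_subtype_compl, Fintype.card_coe]
        rw [h3, Fintype.card_fin, hI]
      refine le_trans ?_ h1
      exact_mod_cast hcard
  refine (Finset.sum_le_sum hfib).trans ?_
  rw [Finset.sum_const, nsmul_eq_mul]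
  refine mul_le_mul_of_nonneg_right ?_ (pow_nonneg hX _)
  rw [ht, Fintype.card_piFinset, Finset.prod_const, Finset.card_univ, Fintype.card_coe, hI,
    Nat.cast_pow]
  exact pow_le_pow_left₀ (Nat.cast_nonneg _) (rb_card B hB) r

theorem rb_main {n r : ℕ} (q : ℕ) [Fact q.Prime] (hr : r ≤ n) (B : Fin n → ℝ)
    (hB : ∀ k, 1 ≤ B k) (hq : (n.factorial : ℝ) * 2 ^ n * ∏ k, B k < q) (J : ℝ)
    (hJ : ∀ s : Finset (Fin n), s.card = r → ∏ k ∈ s, B k ≤ J)
    (C : Matrix (Fin n) (Fin n) (ZMod q)) :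
    {Z : Fin n → Fin n → ℤ | (∀ i k, |(Z i k : ℝ)| ≤ B k) ∧
      (md q (Matrix.of Z) - C).rank = r}.Finite ∧
    ({Z : Fin n → Fin n → ℤ | (∀ i k, |(Z i k : ℝ)| ≤ B k) ∧
      (md q (Matrix.of Z) - C).rank = r}.ncard : ℝ) ≤
        2 ^ n * (3 ^ n * ∏ k, B k) ^ r * (5 ^ n * J) ^ (n - r) := by
  classical
  set U : Finset (Fin n → Fin n → ℤ) :=
    (Finset.powersetCard r (Finset.univ : Finset (Fin n))).biUnion fun I => rbS q B C I with hU
  have hsub : {Z : Fin n → Fin n → ℤ | (∀ i k, |(Z i k : ℝ)| ≤ B k) ∧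
      (md q (Matrix.of Z) - C).rank = r} ⊆ (U : Set (Fin n → Fin n → ℤ)) := by
    rintro Z ⟨hZ1, hZ2⟩
    have hrowv : (md q (Matrix.of Z) - C).row = rbRow q C Z := by
      funext i k
      rfl
    obtain ⟨b, -, -, hb1, hb2⟩ := exists_linearIndepOn_extension (K := ZMod q)
      (v := rbRow q C Z) (s := ∅) (t := Set.univ) (linearIndepOn_empty _ _)
      (Set.empty_subset _)
    have hbf : b.Finite := Set.toFinite b
    set I : Finset (Fin n) := hbf.toFinset with hI
    have hset : rbRow q C Z '' b = Set.range (fun j : I => rbRow q C Z (j : Fin n)) := by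
      ext x
      constructor
      · rintro ⟨j, hj, rfl⟩
        exact ⟨⟨j, hbf.mem_toFinset.2 hj⟩, rfl⟩
      · rintro ⟨j, rfl⟩
        exact ⟨j, hbf.mem_toFinset.1 j.2, rfl⟩
    have hli : LinearIndependent (ZMod q) (fun j : I => rbRow q C Z (j : Fin n)) := by
      have h1 : LinearIndependent (ZMod q) (fun j : b => rbRow q C Z (j : Fin n)) := hb2
      refine h1.comp (fun j : I => (⟨(j : Fin n), hbf.mem_toFinset.1 j.2⟩ : b)) ?_
      intro x y hxy
      have := congrArg (fun z : b => (z : Fin n)) hxy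
      exact Subtype.ext this
    have hsp : Submodule.span (ZMod q) (Set.range (rbRow q C Z)) =
        Submodule.span (ZMod q) (Set.range (fun j : I => rbRow q C Z (j : Fin n))) := by
      rw [← hset]
      apply le_antisymm
      · rw [Submodule.span_le, ← Set.image_univ]
        exact hb1
      · exact Submodule.span_mono (Set.image_subset_range _ _)
    have hcard : I.card = r := by
      rw [← hZ2, Matrix.rank_eq_finrank_span_row, hrowv, hsp, finrank_span_eq_card hli,
        Fintype.card_coe]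
    rw [hU, Finset.mem_coe, Finset.mem_biUnion]
    refine ⟨I, ?_, ?_⟩
    · rw [Finset.mem_powersetCard]
      exact ⟨Finset.subset_univ _, hcard⟩
    · rw [rbS, Finset.mem_filter, Fintype.mem_piFinset]
      refine ⟨fun i => (rb_mem B _).2 (hZ1 i), hli, fun j => ?_⟩
      rw [← hsp]
      exact Submodule.subset_span ⟨j, rfl⟩
  have hfin : {Z : Fin n → Fin n → ℤ | (∀ i k, |(Z i k : ℝ)| ≤ B k) ∧
      (md q (Matrix.of Z) - C).rank = r}.Finite := (Finset.finite_toSet U).subset hsub
  refine ⟨hfin, ?_⟩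
  have h1 : {Z : Fin n → Fin n → ℤ | (∀ i k, |(Z i k : ℝ)| ≤ B k) ∧
      (md q (Matrix.of Z) - C).rank = r}.ncard ≤ U.card := by
    have h2 := Set.ncard_le_ncard hsub (Finset.finite_toSet U)
    rwa [Set.ncard_coe_finset] at h2
  set X : ℝ := (3 ^ n * ∏ k, B k) ^ r * (5 ^ n * J) ^ (n - r) with hX
  have hJ1 : 0 ≤ J := by
    obtain ⟨I, -, hI⟩ := Finset.exists_subset_card_eq (s := (Finset.univ : Finset (Fin n)))
      (n := r) (by simpa using hr)
    have h1 := hJ I hI
    have h2 : 0 ≤ ∏ k ∈ I, B k := Finset.prod_nonneg fun k _ => by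
      have := hB k
      linarith
    linarith
  have hP : 0 ≤ ∏ k, B k := Finset.prod_nonneg fun k _ => by
    have := hB k
    linarith
  have hX0 : 0 ≤ X := by
    rw [hX]
    positivity
  have h2 : (U.card : ℝ) ≤ 2 ^ n * X := by
    have h3 : (U.card : ℝ) ≤
        ∑ I ∈ Finset.powersetCard r (Finset.univ : Finset (Fin n)), ((rbS q B C I).card : ℝ) := by
      rw [← Nat.cast_sum]
      exact_mod_cast Finset.card_biUnion_le
    refine h3.trans ?_
    have h4 : ∑ I ∈ Finset.powersetCard r (Finset.univ : Finset (Fin n)),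
        ((rbS q B C I).card : ℝ) ≤
        ∑ _I ∈ Finset.powersetCard r (Finset.univ : Finset (Fin n)), X := by
      refine Finset.sum_le_sum fun I hI => ?_
      exact rb_S_card q hr B hB hq J hJ C I (Finset.mem_powersetCard.1 hI).2
    refine h4.trans ?_
    rw [Finset.sum_const, nsmul_eq_mul, Finset.card_powersetCard, Finset.card_univ,
      Fintype.card_fin]
    refine mul_le_mul_of_nonneg_right ?_ hX0
    exact_mod_cast Nat.choose_le_two_pow n r
  rw [mul_assoc]
  refine le_trans ?_ h2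
  exact_mod_cast h1

theorem rank_count_pr {n r : ℕ} (q : ℕ) [Fact q.Prime] (hr : r ≤ n) (B : Fin n → ℝ)
    (hB : ∀ k, 1 ≤ B k) (hq : (n.factorial : ℝ) * 2 ^ n * ∏ k, B k < q) (J : ℝ)
    (hJ : ∀ s : Finset (Fin n), s.card = r → ∏ k ∈ s, B k ≤ J)
    (C : Matrix (Fin n) (Fin n) (ZMod q)) :
    {Z : Matrix (Fin n) (Fin n) ℤ | (∀ i k, |(Z i k : ℝ)| ≤ B k) ∧
      (md q Z - C).rank = r}.Finite ∧
    ({Z : Matrix (Fin n) (Fin n) ℤ | (∀ i k, |(Z i k : ℝ)| ≤ B k) ∧
      (md q Z - C).rank = r}.ncard : ℝ) ≤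
        2 ^ n * (3 ^ n * ∏ k, B k) ^ r * (5 ^ n * J) ^ (n - r) := by
  exact rb_main q hr B hB hq J hJ C

end

end Pool.Agent.SGB

namespace Pool.Agent.SGB

alias rank_count := rank_count_pr

end Pool.Agent.SGB
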