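import Pool.Agent.Lib_helper56.SGB.Defs
/-!
# SGB, block RC1 (helper83): entries and coordinates in reduced bases
-/

set_option autoImplicit false

namespace Pool.Agent.SGB

open MeasureTheory Matrix
open Pool.Agent.RS (Mt lm SLZ)
open Pool.Agent.GLQ (re unip cube slab Xp wN IN rm rr qq Lat latt Lz IsRed RY Om Box Kern IsInv Bd sp)
open Pool.Agent.SGN (md repR repL heckeT heckeA supS subS UW Wd lw nf WOk uvec unrm xval)
open scoped ENNReal

noncomputable section

/-- the parameters of a reduced matrix with bounded quotients -/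
theorem rc1_ratio {n : ℕ} {t : Fin n → ℝ} {Y : ℝ} (hY : 0 ≤ Y)
    (adj : ∀ i j : Fin n, (i : ℕ) + 1 = (j : ℕ) → t i ≤ Y * t j) (i : Fin n) :
    ∀ (d : ℕ) (j : Fin n), (i : ℕ) + d = (j : ℕ) → t i ≤ Y ^ d * t j := by
  intro d
  induction d with
  | zero =>
    intro j h
    have : i = j := Fin.ext (by omega)
    rw [this]
    simp
  | succ d ih =>
    intro j h
    have hj := j.2
    have h1 := ih ⟨(i : ℕ) + d, by omega⟩ rfl
    have h2 := adj ⟨(i : ℕ) + d, by omega⟩ j (by simpa using by omega)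
    calc t i ≤ Y ^ d * t ⟨(i : ℕ) + d, by omega⟩ := h1
      _ ≤ Y ^ d * (Y * t j) := mul_le_mul_of_nonneg_left h2 (pow_nonneg hY d)
      _ = Y ^ (d + 1) * t j := by ring

/-- determinant of a reduced matrix -/
theorem rc1_det {n : ℕ} {A : Mt n} {U : Matrix (Fin n) (Fin n) ℝ} {t : Fin n → ℝ}
    {O : Matrix (Fin n) (Fin n) ℝ} (h : IsRed A U t O) : |(Matrix.of A).det| = ∏ i, t i := by
  have hb : U.BlockTriangular id := fun i j hij => h.low i j hij
  have hdet : U.det = 1 := by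
    rw [Matrix.det_of_isUpperTriangular hb]
    simp [h.one]
  have hO : |O.det| = 1 := by
    have h1 := congrArg Matrix.det h.orth
    rw [Matrix.det_mul, Matrix.det_transpose, Matrix.det_one] at h1
    have h2 : |O.det| * |O.det| = 1 := by rw [← abs_mul, h1, abs_one]
    have h3 := abs_nonneg O.det
    nlinarith
  rw [h.eq, Matrix.det_mul, Matrix.det_mul, hdet, Matrix.det_diagonal, one_mul, abs_mul, hO,
    mul_one]
  exact abs_of_pos (Finset.prod_pos fun i _ => h.pos i)

theorem om_entries_pr (m : ℕ) : ∃ C : ℝ, 1 ≤ C ∧ ∀ P : ℝ, 1 ≤ P →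
    ∀ A ∈ Xp (m + 1) ∩ Om (m + 1) P, ∃ γ : SLZ (m + 1), ∀ i j,
      |(re γ.1 * Matrix.of A) i j| ≤ C * P ^ m := by
  refine ⟨((m : ℝ) + 1) * 2 ^ (m + 1), ?_, ?_⟩
  · have h1 : (1 : ℝ) ≤ 2 ^ (m + 1) := one_le_pow₀ (by norm_num)
    have h2 : (0 : ℝ) ≤ m := Nat.cast_nonneg m
    nlinarith
  intro P hP A hA
  obtain ⟨hX, hdet, γ, U, t, O, hred, hadj⟩ := hA
  have hP0 : (0 : ℝ) ≤ P := zero_le_one.trans hP
  refine ⟨γ, ?_⟩
  -- the determinant
  have hd : (∏ i, t i) ≤ 2 := by
    rw [← rc1_det hred]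
    have e1 : Matrix.of (lm (re γ.1) A) = re γ.1 * Matrix.of A := rfl
    have e2 : (re γ.1).det = 1 := by
      have : re γ.1 = (Int.castRingHom ℝ).mapMatrix γ.1 := rfl
      rw [this, ← RingHom.map_det, γ.2, map_one]
    rw [e1, Matrix.det_mul, e2, one_mul]
    have h3 := hX.1
    have h4 := hX.2
    rw [abs_of_nonneg (by linarith)]
    exact h4
  have hk : ∀ i j, t i ≤ 2 ^ m * P ^ m * t j := by
    intro i j
    have tj := (hred.pos j).le
    rcases le_total i j with h | h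
    · have h1 := rc1_ratio hP0 hadj i ((j : ℕ) - i) j (by
        have : (i : ℕ) ≤ j := h
        omega)
      refine h1.trans (mul_le_mul_of_nonneg_right ?_ tj)
      have h2 : P ^ ((j : ℕ) - i) ≤ P ^ m := pow_le_pow_right₀ hP (by have := j.2; omega)
      have h3 : (1 : ℝ) ≤ 2 ^ m := one_le_pow₀ (by norm_num)
      have h4 : (0 : ℝ) ≤ P ^ m := pow_nonneg hP0 m
      nlinarith
    · have h1 := Pool.Agent.GLQ.r2_ratio hred.pos hred.adj j ((i : ℕ) - j) i (by
        have : (j : ℕ) ≤ i := h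
        omega)
      refine h1.trans (mul_le_mul_of_nonneg_right ?_ tj)
      have h2 : (2 : ℝ) ^ ((i : ℕ) - j) ≤ 2 ^ m :=
        pow_le_pow_right₀ (by norm_num) (by have := i.2; omega)
      have h3 : (1 : ℝ) ≤ P ^ m := one_le_pow₀ hP
      have h4 : (0 : ℝ) ≤ 2 ^ m := by positivity
      nlinarith
  have ht : ∀ i, t i ≤ 2 ^ (m + 1) * P ^ m := by
    intro i
    have h0 : (0 : ℝ) ≤ 2 ^ (m + 1) * P ^ m := by positivity
    refine le_of_pow_le_pow_left₀ (n := m + 1) (by omega) h0 ?_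
    calc t i ^ (m + 1) = ∏ _j : Fin (m + 1), t i := by
          rw [Finset.prod_const, Finset.card_univ, Fintype.card_fin]
      _ ≤ ∏ j : Fin (m + 1), (2 ^ m * P ^ m * t j) :=
          Finset.prod_le_prod (fun _ _ => (hred.pos i).le) fun j _ => hk i j
      _ = (2 ^ m * P ^ m) ^ (m + 1) * ∏ j, t j := by
          rw [Finset.prod_mul_distrib, Finset.prod_const, Finset.card_univ, Fintype.card_fin]
      _ ≤ (2 ^ m * P ^ m) ^ (m + 1) * 2 ^ (m + 1) := by
          refine mul_le_mul_of_nonneg_left (hd.trans ?_) (by positivity)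
          have : (2 : ℝ) ^ 1 ≤ 2 ^ (m + 1) := pow_le_pow_right₀ (by norm_num) (by omega)
          simpa using this
      _ = (2 ^ (m + 1) * P ^ m) ^ (m + 1) := by
          rw [← mul_pow]
          congr 1
          ring
  intro i j
  have e1 : re γ.1 * Matrix.of A = U * Matrix.diagonal t * O := hred.eq
  have hU : ∀ a b, |U a b| ≤ 1 := by
    intro a b
    rcases lt_trichotomy a b with h | h | h
    · exact (hred.up a b h).trans (by norm_num)
    · rw [h, hred.one]; simp
    · rw [hred.low a b h]; simp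
  rw [e1, Matrix.mul_apply]
  calc |∑ k, (U * Matrix.diagonal t) i k * O k j|
      ≤ ∑ k, |(U * Matrix.diagonal t) i k * O k j| := Finset.abs_sum_le_sum_abs _ _
    _ ≤ ∑ _k : Fin (m + 1), 2 ^ (m + 1) * P ^ m := by
        refine Finset.sum_le_sum fun k _ => ?_
        rw [Matrix.mul_diagonal, abs_mul, abs_mul, abs_of_pos (hred.pos k)]
        calc |U i k| * t k * |O k j| ≤ 1 * (2 ^ (m + 1) * P ^ m) * 1 := by
              gcongr
              · exact (hred.pos k).le
              · exact hU i k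
              · exact ht k
              · exact Pool.Agent.GLQ.r2_orth hred.orth k j
          _ = 2 ^ (m + 1) * P ^ m := by ring
    _ = ((m : ℝ) + 1) * 2 ^ (m + 1) * P ^ m := by
        rw [Finset.sum_const, Finset.card_univ, Fintype.card_fin, nsmul_eq_mul]
        push_cast
        ring

theorem coord_bound_pr (n : ℕ) : ∃ C : ℝ, 1 ≤ C ∧ ∀ (D : Mt n) (U : Matrix (Fin n) (Fin n) ℝ)
    (t : Fin n → ℝ) (O : Matrix (Fin n) (Fin n) ℝ), IsRed D U t O →
    ∀ (Z : Matrix (Fin n) (Fin n) ℤ) (ρ : ℝ), (∀ i j, |(re Z * Matrix.of D) i j| ≤ ρ) →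
      ∀ i k, |(Z i k : ℝ)| ≤ C * ρ / t k := by
  refine ⟨(n : ℝ) ^ 2 * n.factorial * 2 ^ n + 1, ?_, ?_⟩
  · have : (0 : ℝ) ≤ (n : ℝ) ^ 2 * n.factorial * 2 ^ n := by positivity
    linarith
  intro D U t O h Z ρ hρ i k
  obtain ⟨hu, hlow, hinv⟩ := Pool.Agent.GLQ.r2_inv n U h.one h.low h.up
  have hU1 : U * U⁻¹ = 1 := Matrix.mul_nonsing_inv U hu
  have hρ0 : 0 ≤ ρ := (abs_nonneg _).trans (hρ i k)
  set S := Matrix.diagonal (fun i => (t i)⁻¹) with hS
  have hTS : Matrix.diagonal t * S = 1 := by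
    rw [hS, Matrix.diagonal_mul_diagonal]
    rw [show (fun i => t i * (t i)⁻¹) = fun _ => (1 : ℝ) from
      funext fun i => mul_inv_cancel₀ (h.pos i).ne']
    exact Matrix.diagonal_one
  set W : Matrix (Fin n) (Fin n) ℝ := re Z * Matrix.of D * Oᵀ with hW
  have hZ : re Z = W * S * U⁻¹ := by
    rw [hW, h.eq]
    calc re Z = re Z * (U * (Matrix.diagonal t * (1 : Matrix (Fin n) (Fin n) ℝ) * S) * U⁻¹) := by
          rw [Matrix.mul_one, hTS, Matrix.mul_one, hU1, Matrix.mul_one]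
      _ = re Z * (U * Matrix.diagonal t * O) * Oᵀ * S * U⁻¹ := by
          rw [← h.orth]
          simp only [Matrix.mul_assoc]
  have hWb : ∀ a b, |W a b| ≤ n * ρ := by
    intro a b
    rw [hW, Matrix.mul_apply]
    calc |∑ l, (re Z * Matrix.of D) a l * Oᵀ l b|
        ≤ ∑ l, |(re Z * Matrix.of D) a l * Oᵀ l b| := Finset.abs_sum_le_sum_abs _ _
      _ ≤ ∑ _l : Fin n, ρ := by
          refine Finset.sum_le_sum fun l _ => ?_
          rw [abs_mul, Matrix.transpose_apply]
          calc |(re Z * Matrix.of D) a l| * |O b l| ≤ ρ * 1 :=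
                mul_le_mul (hρ a l) (Pool.Agent.GLQ.r2_orth h.orth b l) (abs_nonneg _) hρ0
            _ = ρ := mul_one _
      _ = n * ρ := by
          rw [Finset.sum_const, Finset.card_univ, Fintype.card_fin, nsmul_eq_mul]
  have tk := h.pos k
  have hterm : ∀ b, |(W * S) i b * U⁻¹ b k| ≤ (n * n.factorial * 2 ^ n) * ρ / t k := by
    intro b
    have hpos : 0 ≤ (n * n.factorial * 2 ^ n) * ρ / t k := by positivity
    by_cases hb : k < b
    · rw [hlow b k hb]
      simpa using hpos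
    push Not at hb
    have r1 := Pool.Agent.GLQ.red_ratio_pr h b k hb
    have tb := h.pos b
    have r3 : (t b)⁻¹ ≤ 2 ^ n * (t k)⁻¹ := by
      rw [← div_eq_mul_inv, le_div_iff₀ tk, inv_mul_le_iff₀ tb]
      linarith
    rw [hS, Matrix.mul_diagonal, abs_mul, abs_mul, abs_of_pos (inv_pos.2 tb)]
    calc |W i b| * (t b)⁻¹ * |U⁻¹ b k| ≤ (n * ρ) * (2 ^ n * (t k)⁻¹) * n.factorial := by
          gcongr
          · exact hWb i b
          · exact hinv b k
      _ = (n * n.factorial * 2 ^ n) * ρ / t k := by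
          rw [div_eq_mul_inv]
          ring
  have e3 : ((Z i k : ℤ) : ℝ) = re Z i k := rfl
  rw [e3, hZ, Matrix.mul_apply]
  calc |∑ b, (W * S) i b * U⁻¹ b k| ≤ ∑ b, |(W * S) i b * U⁻¹ b k| :=
        Finset.abs_sum_le_sum_abs _ _
    _ ≤ ∑ _b : Fin n, (n * n.factorial * 2 ^ n) * ρ / t k :=
        Finset.sum_le_sum fun b _ => hterm b
    _ = ((n : ℝ) ^ 2 * n.factorial * 2 ^ n) * ρ / t k := by
        rw [Finset.sum_const, Finset.card_univ, Fintype.card_fin, nsmul_eq_mul]
        ring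
    _ ≤ ((n : ℝ) ^ 2 * n.factorial * 2 ^ n + 1) * ρ / t k := by
        gcongr
        linarith

end

end Pool.Agent.SGB

namespace Pool.Agent.SGB

alias om_entries := om_entries_pr
alias coord_bound := coord_bound_pr

end Pool.Agent.SGB
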