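import Pool.Agent.Lib_helper56.SGB.Defs
import Pool.Agent.Lib_helper56.SGB.F.HD
import Pool.Agent.Lib_helper56.SGB.F.RC1

/-!
# Project SGN, part B, block RC2: geometry of the maps `ζ`
-/

set_option autoImplicit false

namespace Pool.Agent.SGB

open MeasureTheory Matrix
open Pool.Agent.RS (Mt lm SLZ)
open Pool.Agent.GLQ (re unip cube slab Xp wN IN rm rr qq Lat latt Lz IsRed RY Om Box Kern IsInv Bd sp)
open Pool.Agent.SGN (md repR repL heckeT heckeA supS subS UW Wd lw nf WOk uvec unrm xval)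
open scoped ENNReal

noncomputable section

theorem rc2_rr_mul {n : ℕ} (X Y : Matrix (Fin n) (Fin n) ℚ) : rr (X * Y) = rr X * rr Y := by
  unfold rr
  exact Matrix.map_mul (f := Rat.castHom ℝ)

theorem rc2_rr_qq {n : ℕ} (Z : Matrix (Fin n) (Fin n) ℤ) : rr (qq Z) = re Z := by
  ext a b
  simp [rr, qq, re]

theorem rc2_rr_smul {n : ℕ} (q : ℚ) (X : Matrix (Fin n) (Fin n) ℚ) :
    rr (q • X) = (q : ℝ) • rr X := by
  ext a b
  simp [rr]

theorem rc2_rr_det {n : ℕ} (X : Matrix (Fin n) (Fin n) ℚ) : (rr X).det = (X.det : ℝ) := by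
  have h : rr X = (Rat.castHom ℝ).mapMatrix X := rfl
  rw [h, ← RingHom.map_det]
  rfl

theorem rc2_qq_mul {n : ℕ} (X Y : Matrix (Fin n) (Fin n) ℤ) : qq (X * Y) = qq X * qq Y := by
  unfold qq
  exact Matrix.map_mul (f := Int.castRingHom ℚ)

theorem rc2_re_mul {n : ℕ} (X Y : Matrix (Fin n) (Fin n) ℤ) : re (X * Y) = re X * re Y := by
  unfold re
  exact Matrix.map_mul (f := Int.castRingHom ℝ)

theorem rc2_qq_det {n : ℕ} (γ : SLZ n) : (qq γ.1).det = 1 := by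
  have h : (qq γ.1).det = ((Int.castRingHom ℚ) γ.1.det) := by
    rw [RingHom.map_det]
    rfl
  rw [h, γ.2, map_one]

theorem rc2_re_det {n : ℕ} (γ : SLZ n) : (re γ.1).det = 1 := by
  have h : (re γ.1).det = ((Int.castRingHom ℝ) γ.1.det) := by
    rw [RingHom.map_det]
    rfl
  rw [h, γ.2, map_one]

/-- the rows are in the lattice -/
theorem rc2_row_mem {n : ℕ} (δ : Matrix (Fin n) (Fin n) ℚ) (i : Fin n) : δ i ∈ latt δ := by
  refine ⟨Pi.single i 1, ?_⟩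
  have h : (fun j => ((Pi.single i (1 : ℤ) : Fin n → ℤ) j : ℚ)) = Pi.single i (1 : ℚ) := by
    funext j
    by_cases hj : j = i
    · subst hj; simp
    · simp [hj]
  rw [h, Matrix.single_one_vecMul]
  rfl

theorem rc2_exists_T {n : ℕ} (δ δ' : Matrix (Fin n) (Fin n) ℚ) (h : ∀ i, δ' i ∈ latt δ) :
    ∃ T : Matrix (Fin n) (Fin n) ℤ, δ' = qq T * δ := by
  choose T hT using h
  refine ⟨Matrix.of T, ?_⟩
  ext i j
  rw [hT i]
  rfl

/-- an integral multiple of `ℤ^n` inside a lattice -/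
theorem rc2_mult {n : ℕ} {L : Lat n} {d : Matrix (Fin n) (Fin n) ℚ} (hd : latt d = L) (b : ℕ)
    (h : ∀ v ∈ Lz n, (b : ℚ) • v ∈ L) :
    ∃ T : Matrix (Fin n) (Fin n) ℤ, (b : ℚ) • (1 : Matrix (Fin n) (Fin n) ℚ) = qq T * d := by
  apply rc2_exists_T
  intro i
  rw [hd]
  have h1 : (1 : Matrix (Fin n) (Fin n) ℚ) i ∈ Lz n := rc2_row_mem 1 i
  exact h _ h1

theorem rc2_latt_mul_le {n : ℕ} (T : Matrix (Fin n) (Fin n) ℤ) (δ : Matrix (Fin n) (Fin n) ℚ) :
    latt (qq T * δ) ≤ latt δ := by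
  rintro v ⟨x, rfl⟩
  refine ⟨x ᵥ* T, ?_⟩
  rw [← Matrix.vecMul_vecMul]
  congr 1
  funext j
  simp [Matrix.vecMul, dotProduct, qq]

theorem rc2_latt_sl {n : ℕ} (γ : SLZ n) (δ : Matrix (Fin n) (Fin n) ℚ) :
    latt (qq γ.1 * δ) = latt δ := by
  apply le_antisymm (rc2_latt_mul_le _ _)
  have h : qq (γ⁻¹).1 * (qq γ.1 * δ) = δ := by
    rw [← Matrix.mul_assoc, ← rc2_qq_mul]
    have h1 : (γ⁻¹).1 * γ.1 = 1 := congrArg Subtype.val (inv_mul_cancel γ)
    rw [h1]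
    have h2 : qq (1 : Matrix (Fin n) (Fin n) ℤ) = 1 := by
      unfold qq
      exact Matrix.map_one _ (Int.cast_zero) (Int.cast_one)
    rw [h2, Matrix.one_mul]
  conv_lhs => rw [← h]
  exact rc2_latt_mul_le _ _

/-- the determinant of a reduced matrix -/
theorem rc2_det {n : ℕ} {A : Mt n} {U : Matrix (Fin n) (Fin n) ℝ} {t : Fin n → ℝ}
    {O : Matrix (Fin n) (Fin n) ℝ} (h : IsRed A U t O) (hA : 0 < (Matrix.of A).det) :
    (Matrix.of A).det = ∏ k, t k := by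
  have hb : U.BlockTriangular id := fun i j hij => h.low i j hij
  have hdet : U.det = 1 := by
    rw [Matrix.det_of_isUpperTriangular hb]
    simp [h.one]
  have hO : O.det = 1 ∨ O.det = -1 := by
    have h1 := congrArg Matrix.det h.orth
    rw [Matrix.det_mul, Matrix.det_transpose, Matrix.det_one] at h1
    exact mul_self_eq_one_iff.mp h1
  have ht : 0 < ∏ k, t k := Finset.prod_pos fun k _ => h.pos k
  have h2 : (Matrix.of A).det = (∏ k, t k) * O.det := by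
    rw [h.eq, Matrix.det_mul, Matrix.det_mul, hdet, Matrix.det_diagonal, one_mul]
  rcases hO with hO | hO
  · rw [h2, hO, mul_one]
  · rw [h2, hO] at hA
    nlinarith

/-- entries of a product -/
theorem rc2_entry {n : ℕ} {X Y : Matrix (Fin n) (Fin n) ℝ} {a b : ℝ}
    (hX : ∀ i j, |X i j| ≤ a) (hY : ∀ i j, |Y i j| ≤ b) (i j : Fin n) :
    |(X * Y) i j| ≤ n * a * b := by
  rw [Matrix.mul_apply]
  refine (Finset.abs_sum_le_sum_abs _ _).trans ?_
  have h1 : ∀ k ∈ (Finset.univ : Finset (Fin n)), |X i k * Y k j| ≤ a * b := by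
    intro k _
    rw [abs_mul]
    exact mul_le_mul (hX i k) (hY k j) (abs_nonneg _) ((abs_nonneg _).trans (hX i k))
  refine (Finset.sum_le_card_nsmul _ _ _ h1).trans ?_
  rw [Finset.card_univ, Fintype.card_fin, nsmul_eq_mul, mul_assoc]

/-- VERBATIM `zeta_geo` -/
theorem zeta_geo_pr (m : ℕ) (R : ℝ) (hR : 1 ≤ R) : ∃ C : ℝ, 1 ≤ C ∧ ∀ (N P : ℝ), 1 ≤ N → 1 ≤ P →
    ∀ A ∈ Xp (m + 1) ∩ Om (m + 1) P, ∀ L ∈ NR (m + 1) N P,
    ∃ (γ : SLZ (m + 1)) (d : Matrix (Fin (m + 1)) (Fin (m + 1)) ℚ)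
      (U : Matrix (Fin (m + 1)) (Fin (m + 1)) ℝ) (t : Fin (m + 1) → ℝ)
      (O : Matrix (Fin (m + 1)) (Fin (m + 1)) ℝ) (B : Fin (m + 1) → ℝ),
      IsB d L ∧ IsRed (lm (rr d) A) U t O ∧
      (∀ k, B k = C * P ^ (m + 2) * (N * P * (d.det : ℝ)) ^ (1 / ((m : ℝ) + 1)) / t k) ∧
      (∀ k, 1 ≤ B k) ∧
      (∏ k, B k) ≤ C ^ (m + 2) * P ^ ((m + 1) * (m + 2) + 1) * N ∧
      (∀ ζ, ZC m R (NR (m + 1) N P) L A ζ → ∃ (b : ℕ) (Z : Matrix (Fin (m + 1)) (Fin (m + 1)) ℤ),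
        1 ≤ b ∧ (b : ℝ) ≤ P ∧ qq Z = (b : ℚ) • (qq γ.1 * ζ * d⁻¹) ∧ ∀ i k, |(Z i k : ℝ)| ≤ B k) ∧
      ∃ (b : ℕ) (Z : Matrix (Fin (m + 1)) (Fin (m + 1)) ℤ),
        1 ≤ b ∧ (b : ℝ) ≤ P ∧ qq Z = (b : ℚ) • (qq γ.1 * d⁻¹) ∧ ∀ i k, |(Z i k : ℝ)| ≤ B k := by
  obtain ⟨C1, hC1, H1⟩ := om_entries m
  obtain ⟨C2, hC2, H2⟩ := coord_bound (m + 1)
  set C : ℝ := 2 ^ (m + 1) * ((m : ℝ) + 1) * C1 * C2 * R with hC
  have hm1 : (1 : ℝ) ≤ (m : ℝ) + 1 := by
    have : (0 : ℝ) ≤ m := Nat.cast_nonneg m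
    linarith
  have hp2 : (1 : ℝ) ≤ 2 ^ (m + 1) := one_le_pow₀ (by norm_num)
  have hC12 : 1 ≤ C1 * C2 := one_le_mul_of_one_le_of_one_le hC1 hC2
  have hCC : C = (2 ^ (m + 1) * (((m : ℝ) + 1) * R)) * (C1 * C2) := by rw [hC]; ring
  have hmR : 1 ≤ ((m : ℝ) + 1) * R := one_le_mul_of_one_le_of_one_le hm1 hR
  have h2mR : 1 ≤ 2 ^ (m + 1) * (((m : ℝ) + 1) * R) := one_le_mul_of_one_le_of_one_le hp2 hmR
  have hC12' : 0 < C1 * C2 := by linarith
  have hCa : 1 ≤ C := by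
    rw [hCC]
    exact one_le_mul_of_one_le_of_one_le h2mR hC12
  have hCb : ((m : ℝ) + 1) * R * (C1 * C2) ≤ C := by
    rw [hCC]
    refine mul_le_mul_of_nonneg_right ?_ hC12'.le
    exact le_mul_of_one_le_left (by linarith) hp2
  have hCc : 2 ^ (m + 1) * (C1 * C2) ≤ C := by
    rw [hCC]
    refine mul_le_mul_of_nonneg_right ?_ hC12'.le
    exact le_mul_of_one_le_right (by linarith) hmR
  have hCd : C1 * C2 ≤ C := by
    rw [hCC]
    exact le_mul_of_one_le_left hC12'.le h2mR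
  refine ⟨C, hCa, ?_⟩
  intro N P hN hP A hA L hL
  have hP0 : 0 < P := by linarith
  have hN0 : 0 < N := by linarith
  obtain ⟨γ, hγ⟩ := H1 P hP A hA
  have hdA1 : 1 ≤ (Matrix.of A).det := hA.1.1
  have hdA : 0 < (Matrix.of A).det := by linarith
  obtain ⟨d0, ⟨hd0p, hd0L⟩, hd01, hd02, b0, hb01, hb0P, hb0L⟩ := hL
  -- a reduced basis
  have hdet0 : 0 < (Matrix.of (lm (rr d0) A)).det := by
    show 0 < (rr d0 * Matrix.of A).det
    rw [Matrix.det_mul, rc2_rr_det]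
    exact mul_pos (by exact_mod_cast hd0p) hdA
  obtain ⟨γ0, U, t, O, hred0⟩ := Pool.Agent.GLQ.red_exists_pr (lm (rr d0) A) hdet0
  set d := qq γ0.1 * d0 with hd
  have hddet : d.det = d0.det := by rw [hd, Matrix.det_mul, rc2_qq_det, one_mul]
  have hdp : 0 < d.det := by rw [hddet]; exact hd0p
  have hdL : latt d = L := by rw [hd, rc2_latt_sl, hd0L]
  have hlm : lm (rr d) A = lm (re γ0.1) (lm (rr d0) A) := by
    show (rr d * Matrix.of A : Matrix (Fin (m + 1)) (Fin (m + 1)) ℝ) =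
      (re γ0.1 * (rr d0 * Matrix.of A) : Matrix (Fin (m + 1)) (Fin (m + 1)) ℝ)
    rw [hd, rc2_rr_mul, rc2_rr_qq, Matrix.mul_assoc]
  have hred : IsRed (lm (rr d) A) U t O := by rw [hlm]; exact hred0
  have hdu : IsUnit d.det := isUnit_iff_ne_zero.mpr hdp.ne'
  have hdpR : (0 : ℝ) < (d.det : ℝ) := by exact_mod_cast hdp
  -- the quantity `X = N P det d ≥ 1`
  set X : ℝ := N * P * (d.det : ℝ) with hX
  have hX1 : 1 ≤ X := by
    rw [hX, hddet]
    rw [div_le_iff₀ (by positivity)] at hd01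
    linarith
  have hX0 : 0 < X := by linarith
  set Xn : ℝ := X ^ (1 / ((m : ℝ) + 1)) with hXn
  have hXn1 : 1 ≤ Xn := Real.one_le_rpow hX1 (by positivity)
  have hPm : 1 ≤ P ^ (m + 1) := one_le_pow₀ hP
  have hPm2 : P ^ (m + 1) ≤ P ^ (m + 2) := pow_le_pow_right₀ hP (by omega)
  have hdetD : (Matrix.of (lm (rr d) A)).det = (d.det : ℝ) * (Matrix.of A).det := by
    show (rr d * Matrix.of A).det = _
    rw [Matrix.det_mul, rc2_rr_det]
  have hdetDp : 0 < (Matrix.of (lm (rr d) A)).det := by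
    rw [hdetD]
    exact mul_pos hdpR hdA
  have hprod := rc2_det hred hdetDp
  -- the matrix `Y`
  obtain ⟨T0, hT0⟩ := rc2_mult hdL b0 hb0L
  have hY : qq (γ.1 * T0) = (b0 : ℚ) • (qq γ.1 * d⁻¹) := by
    have h1 : qq T0 = (b0 : ℚ) • d⁻¹ := by
      have h2 : (b0 : ℚ) • (1 : Matrix (Fin (m + 1)) (Fin (m + 1)) ℚ) * d⁻¹ = qq T0 * d * d⁻¹ := by
        rw [hT0]
      rw [Matrix.mul_assoc, Matrix.mul_nonsing_inv _ hdu, Matrix.mul_one, Matrix.smul_mul,
        Matrix.one_mul] at h2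
      exact h2.symm
    rw [rc2_qq_mul, h1, Matrix.mul_smul]
  have hYA : ∀ i j, |(re (γ.1 * T0) * Matrix.of (lm (rr d) A)) i j| ≤ C1 * P ^ (m + 1) := by
    intro i j
    have h1 : re (γ.1 * T0) * Matrix.of (lm (rr d) A) = (b0 : ℝ) • (re γ.1 * Matrix.of A) := by
      show re (γ.1 * T0) * (rr d * Matrix.of A) = _
      rw [← Matrix.mul_assoc, ← rc2_rr_qq, ← rc2_rr_mul, hY, Matrix.smul_mul, Matrix.mul_assoc,
        Matrix.nonsing_inv_mul _ hdu, Matrix.mul_one, rc2_rr_smul, rc2_rr_qq, Matrix.smul_mul]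
      norm_num
    rw [h1, Matrix.smul_apply, smul_eq_mul, abs_mul, Nat.abs_cast]
    calc (b0 : ℝ) * |(re γ.1 * Matrix.of A) i j| ≤ P * (C1 * P ^ m) :=
          mul_le_mul hb0P (hγ i j) (abs_nonneg _) hP0.le
      _ = C1 * P ^ (m + 1) := by ring
  have hYb : ∀ i k, |((γ.1 * T0) i k : ℝ)| ≤ C2 * (C1 * P ^ (m + 1)) / t k :=
    H2 (lm (rr d) A) U t O hred (γ.1 * T0) (C1 * P ^ (m + 1)) hYA
  -- an entry of the first column of `Y` is not zero
  have hYdet : (γ.1 * T0).det ≠ 0 := by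
    intro h0
    have h1 : (qq (γ.1 * T0)).det = 0 := by
      have h2 : (qq (γ.1 * T0)).det = ((γ.1 * T0).det : ℚ) := by
        have h3 : qq (γ.1 * T0) = (Int.castRingHom ℚ).mapMatrix (γ.1 * T0) := rfl
        rw [h3, ← RingHom.map_det]
        rfl
      rw [h2, h0, Int.cast_zero]
    rw [hY, Matrix.det_smul, Matrix.det_mul, rc2_qq_det, one_mul, Matrix.det_nonsing_inv,
      Ring.inverse_eq_inv'] at h1
    have hb00 : (b0 : ℚ) ≠ 0 := by
      have : 0 < b0 := hb01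
      exact_mod_cast this.ne'
    exact (mul_ne_zero (pow_ne_zero _ hb00) (inv_ne_zero hdp.ne')) h1
  have ht0 : t 0 ≤ C1 * C2 * P ^ (m + 1) := by
    obtain ⟨i, hi⟩ : ∃ i, (γ.1 * T0) i 0 ≠ 0 := by
      by_contra hcon
      push Not at hcon
      exact hYdet (Matrix.det_eq_zero_of_column_eq_zero 0 hcon)
    have h1 : (1 : ℝ) ≤ |((γ.1 * T0) i 0 : ℝ)| := by
      have h2 : (1 : ℤ) ≤ |(γ.1 * T0) i 0| := Int.one_le_abs hi
      exact_mod_cast h2
    have h3 := h1.trans (hYb i 0)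
    rw [le_div_iff₀ (hred.pos 0)] at h3
    linarith
  have htk : ∀ k, t k ≤ C * P ^ (m + 2) := by
    intro k
    have h1 := Pool.Agent.GLQ.red_ratio_pr hred 0 k (Fin.zero_le k)
    calc t k ≤ 2 ^ (m + 1) * t 0 := h1
      _ ≤ 2 ^ (m + 1) * (C1 * C2 * P ^ (m + 1)) := mul_le_mul_of_nonneg_left ht0 (by positivity)
      _ = (2 ^ (m + 1) * (C1 * C2)) * P ^ (m + 1) := by ring
      _ ≤ C * P ^ (m + 2) := mul_le_mul hCc hPm2 (by positivity) (by linarith)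
  set B : Fin (m + 1) → ℝ := fun k => C * P ^ (m + 2) * Xn / t k with hB
  have hBY : ∀ k, C2 * (C1 * P ^ (m + 1)) / t k ≤ B k := by
    intro k
    rw [hB]
    refine div_le_div_of_nonneg_right ?_ (hred.pos k).le
    calc C2 * (C1 * P ^ (m + 1)) = (C1 * C2) * P ^ (m + 1) := by ring
      _ ≤ C * P ^ (m + 2) := mul_le_mul hCd hPm2 (by positivity) (by linarith)
      _ ≤ C * P ^ (m + 2) * Xn := le_mul_of_one_le_right (by positivity) hXn1
  have hB1 : ∀ k, 1 ≤ B k := by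
    intro k
    rw [hB]
    simp only
    rw [le_div_iff₀ (hred.pos k), one_mul]
    exact (htk k).trans (le_mul_of_one_le_right (by positivity) hXn1)
  refine ⟨γ, d, U, t, O, B, ⟨hdp, hdL⟩, hred, fun k => rfl, hB1, ?_, ?_, ?_⟩
  · -- the product
    have h1 : ∏ k, B k = (C * P ^ (m + 2) * Xn) ^ (m + 1) / ∏ k, t k := by
      rw [hB, Finset.prod_div_distrib, Finset.prod_const, Finset.card_univ, Fintype.card_fin]
    have h2 : Xn ^ (m + 1) = X := by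
      rw [hXn, ← Real.rpow_natCast, ← Real.rpow_mul hX0.le]
      have h3 : 1 / ((m : ℝ) + 1) * ((m + 1 : ℕ) : ℝ) = 1 := by
        push_cast
        field_simp
      rw [h3, Real.rpow_one]
    have h4 : (d.det : ℝ) ≤ ∏ k, t k := by
      rw [← hprod, hdetD]
      exact le_mul_of_one_le_right hdpR.le hdA1
    rw [h1, mul_pow, h2, mul_pow, ← pow_mul]
    rw [div_le_iff₀ (lt_of_lt_of_le hdpR h4)]
    have h5 : C ^ (m + 1) ≤ C ^ (m + 2) := pow_le_pow_right₀ hCa (by omega)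
    calc C ^ (m + 1) * P ^ ((m + 2) * (m + 1)) * X
        = C ^ (m + 1) * (P ^ ((m + 1) * (m + 2) + 1) * N) * (d.det : ℝ) := by
          rw [hX, pow_succ, mul_comm (m + 2) (m + 1)]
          ring
      _ ≤ C ^ (m + 2) * (P ^ ((m + 1) * (m + 2) + 1) * N) * ∏ k, t k := by
          refine mul_le_mul ?_ h4 hdpR.le (by positivity)
          exact mul_le_mul_of_nonneg_right h5 (by positivity)
      _ = C ^ (m + 2) * P ^ ((m + 1) * (m + 2) + 1) * N * ∏ k, t k := by ring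
  · -- the maps `ζ`
    intro ζ hζ
    obtain ⟨hne, hζp, ⟨d', hd'p, hd'S, hd'L⟩, hζb⟩ := hζ
    obtain ⟨d2, hd2B, hd21, hd22, b, hb1, hbP, hbL⟩ := hd'S
    have hd'det : d'.det = d2.det := IsB_det ⟨hd'p, rfl⟩ hd2B
    obtain ⟨X0, hX0⟩ := rc2_mult (d := d') rfl b hbL
    have hdζ : IsB (d' * ζ) L := ⟨by rw [Matrix.det_mul]; exact mul_pos hd'p hζp, hd'L⟩
    have hdetζ : d'.det * ζ.det = d.det := by
      rw [← Matrix.det_mul]
      exact IsB_det hdζ ⟨hdp, hdL⟩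
    obtain ⟨T, hT⟩ := rc2_exists_T d (d' * ζ) (fun i => by
      rw [hdL, ← hd'L]
      exact rc2_row_mem (d' * ζ) i)
    have hZ : qq (γ.1 * (X0 * T)) = (b : ℚ) • (qq γ.1 * ζ * d⁻¹) := by
      have h1 : qq T = d' * ζ * d⁻¹ := by
        rw [hT, Matrix.mul_assoc, Matrix.mul_nonsing_inv _ hdu, Matrix.mul_one]
      have h2 : qq X0 * (d' * ζ * d⁻¹) = (b : ℚ) • (ζ * d⁻¹) := by
        rw [← Matrix.mul_assoc, ← Matrix.mul_assoc, ← hX0, Matrix.smul_mul, Matrix.one_mul,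
          Matrix.smul_mul]
      rw [rc2_qq_mul, rc2_qq_mul, h1, h2, Matrix.mul_smul, Matrix.mul_assoc]
    refine ⟨b, γ.1 * (X0 * T), hb1, hbP, hZ, ?_⟩
    -- the determinant of `ζ`
    have hζX : (ζ.det : ℝ) ≤ X := by
      have h1 : ((d'.det : ℚ) : ℝ) * (ζ.det : ℝ) = (d.det : ℝ) := by exact_mod_cast hdetζ
      have h2 : 1 ≤ N * P * ((d'.det : ℚ) : ℝ) := by
        rw [hd'det]
        rw [div_le_iff₀ (by positivity)] at hd21
        linarith
      have h3 : (0 : ℝ) < (ζ.det : ℝ) := by exact_mod_cast hζp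
      calc (ζ.det : ℝ) ≤ (N * P * ((d'.det : ℚ) : ℝ)) * (ζ.det : ℝ) :=
            le_mul_of_one_le_left h3.le h2
        _ = X := by rw [hX, ← h1]; ring
    have hζXn : (ζ.det : ℝ) ^ (1 / ((m : ℝ) + 1)) ≤ Xn :=
      Real.rpow_le_rpow (by exact_mod_cast hζp.le) hζX (by positivity)
    have hAu : IsUnit (Matrix.of A).det := isUnit_iff_ne_zero.mpr hdA.ne'
    have hent : ∀ i j, |(re (γ.1 * (X0 * T)) * Matrix.of (lm (rr d) A)) i j| ≤
        P * (((m : ℝ) + 1) * (C1 * P ^ m) * (R * Xn)) := by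
      intro i j
      have h1 : re (γ.1 * (X0 * T)) * Matrix.of (lm (rr d) A) =
          (b : ℝ) • ((re γ.1 * Matrix.of A) * ((Matrix.of A)⁻¹ * (rr ζ * Matrix.of A))) := by
        show re (γ.1 * (X0 * T)) * (rr d * Matrix.of A) = _
        rw [← Matrix.mul_assoc, ← rc2_rr_qq, ← rc2_rr_mul, hZ, Matrix.smul_mul, Matrix.mul_assoc,
          Matrix.nonsing_inv_mul _ hdu, Matrix.mul_one, rc2_rr_smul, rc2_rr_mul, rc2_rr_qq,
          Matrix.smul_mul]
        have h2 : (re γ.1 * Matrix.of A) * ((Matrix.of A)⁻¹ * (rr ζ * Matrix.of A)) =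
            re γ.1 * rr ζ * Matrix.of A := by
          rw [Matrix.mul_assoc, Matrix.mul_nonsing_inv_cancel_left _ _ hAu, Matrix.mul_assoc]
        rw [h2]
        norm_num
      rw [h1, Matrix.smul_apply, smul_eq_mul, abs_mul, Nat.abs_cast]
      have h3 : ∀ a c, |((Matrix.of A)⁻¹ * (rr ζ * Matrix.of A)) a c| ≤ R * Xn := fun a c =>
        (hζb a c).trans (mul_le_mul_of_nonneg_left hζXn (by linarith))
      have h4 := rc2_entry hγ h3 i j
      have h5 : ((m + 1 : ℕ) : ℝ) = (m : ℝ) + 1 := by push_cast; ring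
      rw [h5] at h4
      exact mul_le_mul hbP h4 (abs_nonneg _) hP0.le
    have hZb := H2 (lm (rr d) A) U t O hred (γ.1 * (X0 * T)) _ hent
    intro i k
    refine (hZb i k).trans ?_
    rw [hB]
    refine div_le_div_of_nonneg_right ?_ (hred.pos k).le
    calc C2 * (P * (((m : ℝ) + 1) * (C1 * P ^ m) * (R * Xn)))
        = (((m : ℝ) + 1) * R * (C1 * C2)) * P ^ (m + 1) * Xn := by ring
      _ ≤ C * P ^ (m + 2) * Xn := by
          refine mul_le_mul_of_nonneg_right ?_ (by linarith)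
          exact mul_le_mul hCb hPm2 (by positivity) (by linarith)
  · exact ⟨b0, γ.1 * T0, hb01, hb0P, hY, fun i k => (hYb i k).trans (hBY k)⟩

end

end Pool.Agent.SGB

namespace Pool.Agent.SGB

alias zeta_geo := zeta_geo_pr

end Pool.Agent.SGB
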