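import Pool.Agent.Lib_helper56.SGB.Defs
import Pool.Agent.Lib_helper56.SGB.F.HF1
/-!
# SGB, block RD (helper83): ranks and fixed points
-/

set_option autoImplicit false

namespace Pool.Agent.SGB

open MeasureTheory Matrix
open Pool.Agent.RS (Mt lm SLZ)
open Pool.Agent.GLQ (re unip cube slab Xp wN IN rm rr qq Lat latt Lz IsRed RY Om Box Kern IsInv Bd sp)
open Pool.Agent.SGN (md repR repL heckeT heckeA supS subS UW Wd lw nf WOk uvec unrm xval)
open scoped ENNReal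

noncomputable section

theorem NR_Ql_pr {m q : ℕ} (hq : q.Prime) {N P : ℝ} (hN : 1 ≤ N) (hP : 1 ≤ P)
    (h : P ^ (m + 2) * N < q) {L : Lat (m + 1)} (hL : L ∈ NR (m + 1) N P) : Ql q L := by
  obtain ⟨d, hB, hlo, hhi, b, hb1, hbP, hcon⟩ := hL
  obtain ⟨hd0, hlat⟩ := hB
  have hP0 : (0 : ℝ) < P := by linarith
  have hN0 : (0 : ℝ) < N := by linarith
  have hb0 : (b : ℚ) ≠ 0 := by
    have : b ≠ 0 := by omega
    exact_mod_cast this
  -- `b` is prime to `q`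
  have hbq : b < q := by
    have h1 : (b : ℝ) < q := by
      calc (b : ℝ) ≤ P := hbP
        _ ≤ P ^ (m + 2) := le_self_pow₀ hP (by omega)
        _ ≤ P ^ (m + 2) * N := le_mul_of_one_le_right (by positivity) hN
        _ < q := h
    exact_mod_cast h1
  have hbc : b.Coprime q := (Nat.coprime_of_lt_prime (by omega) hbq hq).symm
  -- `Y`
  obtain ⟨Y, hY⟩ := Pool.Agent.GLQ.l1a_exists_T d ((b : ℚ) • (1 : Matrix (Fin (m + 1)) (Fin (m + 1)) ℚ))
    (by
      intro i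
      rw [hlat]
      have h1 := hcon ((1 : Matrix (Fin (m + 1)) (Fin (m + 1)) ℚ) i)
        (Pool.Agent.GLQ.l1a_row_mem 1 i)
      exact h1)
  have hdet : (Y.det : ℚ) * d.det = (b : ℚ) ^ (m + 1) := by
    have h1 := congrArg Matrix.det hY
    rw [Matrix.det_mul, Matrix.det_smul, Matrix.det_one, Fintype.card_fin, mul_one,
      Pool.Agent.GLQ.l1a_qq_det] at h1
    exact h1.symm
  have hYpos : 0 < Y.det := by
    have h1 : (0 : ℚ) < (Y.det : ℚ) * d.det := by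
      rw [hdet]
      have : (0 : ℚ) < b := by
        have : 0 < b := by omega
        exact_mod_cast this
      positivity
    have h2 : (0 : ℚ) < (Y.det : ℚ) := by
      by_contra hc
      push Not at hc
      have := mul_nonpos_of_nonpos_of_nonneg hc hd0.le
      linarith
    exact_mod_cast h2
  have hYlt : (Y.det : ℝ) < q := by
    have hdR : (0 : ℝ) < (d.det : ℝ) := by exact_mod_cast hd0
    have e1 : (Y.det : ℝ) * (d.det : ℝ) = (b : ℝ) ^ (m + 1) := by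
      have := congrArg (fun x : ℚ => (x : ℝ)) hdet
      simp only [Rat.cast_mul, Rat.cast_intCast, Rat.cast_pow, Rat.cast_natCast] at this
      exact this
    have e2 : (Y.det : ℝ) = (b : ℝ) ^ (m + 1) / (d.det : ℝ) := by
      rw [eq_div_iff hdR.ne', e1]
    rw [e2]
    calc (b : ℝ) ^ (m + 1) / (d.det : ℝ) ≤ P ^ (m + 1) / (1 / (N * P)) := by
          gcongr
      _ = P ^ (m + 2) * N := by
          field_simp
          ring
      _ < q := h
  have hYc : Y.det.natAbs.Coprime q := by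
    refine (Nat.coprime_of_lt_prime ?_ ?_ hq).symm
    · exact Int.natAbs_ne_zero.2 hYpos.ne'
    · have h1 : Y.det < (q : ℤ) := by exact_mod_cast hYlt
      omega
  have hdu : IsUnit d.det := isUnit_iff_ne_zero.2 hd0.ne'
  have hYd : qq Y = (b : ℚ) • d⁻¹ := by
    calc qq Y = qq Y * (d * d⁻¹) := by rw [Matrix.mul_nonsing_inv _ hdu, Matrix.mul_one]
      _ = (qq Y * d) * d⁻¹ := by rw [Matrix.mul_assoc]
      _ = (b : ℚ) • d⁻¹ := by rw [← hY, Matrix.smul_mul, Matrix.one_mul]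
  refine ⟨d, ⟨hd0, hlat⟩, ?_, b, Y, hbc, by omega, hYd.symm⟩
  -- `d = b (qq Y)⁻¹`
  have hd : d = qq ((b : ℤ) • (1 : Matrix (Fin (m + 1)) (Fin (m + 1)) ℤ)) * (qq Y)⁻¹ := by
    have hYu : IsUnit (qq Y).det := by
      rw [Pool.Agent.GLQ.l1a_qq_det]
      exact isUnit_iff_ne_zero.2 (by exact_mod_cast hYpos.ne')
    have h1 : (qq Y)⁻¹ * (qq Y * d) = d := by
      rw [← Matrix.mul_assoc, Matrix.nonsing_inv_mul _ hYu, Matrix.one_mul]
    have h2 : qq ((b : ℤ) • (1 : Matrix (Fin (m + 1)) (Fin (m + 1)) ℤ)) =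
        (b : ℚ) • (1 : Matrix (Fin (m + 1)) (Fin (m + 1)) ℚ) := by
      ext i j
      simp only [qq, Matrix.map_apply, Matrix.smul_apply, Matrix.one_apply, smul_eq_mul]
      split_ifs <;> simp
    rw [h2, Matrix.smul_mul, Matrix.one_mul, ← h1, ← hY, Matrix.mul_smul, Matrix.mul_one]
  rw [hd]
  exact QI_mul (QI_qq q _) (QI_inv Y hYc hYpos.ne')

/-! ### reduction -/

theorem rd_qq_b {n : ℕ} (b : ℕ) (M : Matrix (Fin n) (Fin n) ℚ) :
    qq ((b : ℤ) • (1 : Matrix (Fin n) (Fin n) ℤ)) * M = (b : ℚ) • M := by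
  have h2 : qq ((b : ℤ) • (1 : Matrix (Fin n) (Fin n) ℤ)) =
      (b : ℚ) • (1 : Matrix (Fin n) (Fin n) ℚ) := by
    ext i j
    simp only [qq, Matrix.map_apply, Matrix.smul_apply, Matrix.one_apply, smul_eq_mul]
    split_ifs <;> simp
  rw [h2, Matrix.smul_mul, Matrix.one_mul]

theorem rd_smul {n q : ℕ} (b : ℕ) {M : Matrix (Fin n) (Fin n) ℚ} (hM : QI q M) :
    rdq q ((b : ℚ) • M) = (b : ZMod q) • rdq q M := by
  rw [← rd_qq_b b M, rdq_mul (QI_qq q _) hM, rdq_qq]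
  have h2 : md q ((b : ℤ) • (1 : Matrix (Fin n) (Fin n) ℤ)) =
      (b : ZMod q) • (1 : Matrix (Fin n) (Fin n) (ZMod q)) := by
    ext i j
    simp only [md, Matrix.map_apply, Matrix.smul_apply, Matrix.one_apply, smul_eq_mul]
    split_ifs <;> simp
  rw [h2, Matrix.smul_mul, Matrix.one_mul]

theorem rd_one (n q : ℕ) : rdq q (1 : Matrix (Fin n) (Fin n) ℚ) = 1 := by
  rw [← Pool.Agent.GLQ.l1a_qq_one, rdq_qq]
  ext i j
  simp only [md, Matrix.map_apply, Matrix.one_apply]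
  split_ifs <;> simp

/-- the number of fixed vectors -/
theorem rd_card {n q : ℕ} [Fact q.Prime] (z : Matrix (Fin n) (Fin n) (ZMod q)) :
    Nat.card {x : Fin n → ZMod q // x ᵥ* z = x} = q ^ (n - (z - 1).rank) := by
  have h1 : Nat.card {x : Fin n → ZMod q // x ᵥ* z = x} =
      Nat.card (LinearMap.ker ((z - 1)ᵀ).mulVecLin) := by
    refine Nat.card_congr (Equiv.subtypeEquivRight fun x => ?_)
    rw [LinearMap.mem_ker, Matrix.mulVecLin_apply, Matrix.mulVec_transpose, Matrix.vecMul_sub,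
      Matrix.vecMul_one, sub_eq_zero]
  have h2 := LinearMap.finrank_range_add_finrank_ker ((z - 1)ᵀ).mulVecLin
  have h3 : Module.finrank (ZMod q) (LinearMap.range ((z - 1)ᵀ).mulVecLin) = (z - 1).rank := by
    rw [← Matrix.rank_transpose (z - 1)]
    rfl
  rw [h3, Module.finrank_fintype_fun_eq_card, Fintype.card_fin] at h2
  rw [h1, Module.natCard_eq_pow_finrank (K := ZMod q), Nat.card_eq_fintype_card, ZMod.card]
  congr 1
  omega

theorem rd_rank0 {n q : ℕ} [Fact q.Prime] (M : Matrix (Fin n) (Fin n) (ZMod q))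
    (h : M.rank = 0) : M = 0 := by
  have h1 : Module.finrank (ZMod q) (LinearMap.range M.mulVecLin) = 0 := h
  rw [Submodule.finrank_eq_zero, LinearMap.range_eq_bot] at h1
  rw [← Matrix.toLin'_apply'] at h1
  exact (LinearEquiv.map_eq_zero_iff Matrix.toLin').1 h1

theorem fix_rank_pr {n q : ℕ} [Fact q.Prime] (γ : SLZ n) (d ζ : Matrix (Fin n) (Fin n) ℚ)
    (hd0 : d.det ≠ 0) (hd : QI q d) (hd' : QI q d⁻¹) (b : ℕ) (hb : b.Coprime q)
    (Z : Matrix (Fin n) (Fin n) ℤ) (h : qq Z = (b : ℚ) • (qq γ.1 * ζ * d⁻¹)) :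
    Nx q ζ = q ^ (n - (md q Z - (b : ZMod q) • (md q γ.1 * rdq q d⁻¹)).rank) := by
  have hq : q.Prime := Fact.out
  have hb0 : b ≠ 0 := by
    rintro rfl
    rw [Nat.coprime_zero_left] at hb
    exact hq.one_lt.ne' hb
  have hbQ : (b : ℚ) ≠ 0 := by exact_mod_cast hb0
  have hdu : IsUnit d.det := isUnit_iff_ne_zero.2 hd0
  have hγ : qq (γ⁻¹ : SLZ n).1 * qq γ.1 = 1 := by
    rw [← Pool.Agent.GLQ.l1a_qq_mul]
    have : (γ⁻¹ : SLZ n).1 * γ.1 = 1 := congrArg Subtype.val (inv_mul_cancel γ)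
    rw [this, Pool.Agent.GLQ.l1a_qq_one]
  -- `ζ` is integral at `q`
  have hM : QI q ((b : ℚ)⁻¹ • qq Z) := ⟨b, Z, hb, hb0, by rw [smul_smul, mul_inv_cancel₀ hbQ, one_smul]⟩
  have hζ : ζ = qq (γ⁻¹ : SLZ n).1 * ((b : ℚ)⁻¹ • qq Z) * d := by
    rw [h, smul_smul, inv_mul_cancel₀ hbQ, one_smul]
    calc ζ = 1 * ζ * 1 := by rw [Matrix.one_mul, Matrix.mul_one]
      _ = (qq (γ⁻¹ : SLZ n).1 * qq γ.1) * ζ * (d⁻¹ * d) := by
          rw [hγ, Matrix.nonsing_inv_mul _ hdu]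
      _ = _ := by simp only [Matrix.mul_assoc]
  have hζi : QI q ζ := by
    rw [hζ]
    exact QI_mul (QI_mul (QI_qq q _) hM) hd
  -- the matrix
  have e1 : md q Z = (b : ZMod q) • (md q γ.1 * rdq q ζ * rdq q d⁻¹) := by
    have h1 := congrArg (rdq q) h
    rw [rdq_qq, rd_smul b (QI_mul (QI_mul (QI_qq q _) hζi) hd'),
      rdq_mul (QI_mul (QI_qq q _) hζi) hd', rdq_mul (QI_qq q _) hζi, rdq_qq] at h1
    exact h1
  have e2 : md q Z - (b : ZMod q) • (md q γ.1 * rdq q d⁻¹) =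
      ((b : ZMod q) • md q γ.1) * (rdq q ζ - 1) * rdq q d⁻¹ := by
    rw [e1, Matrix.mul_sub, Matrix.mul_one, Matrix.sub_mul, Matrix.smul_mul, Matrix.smul_mul,
      Matrix.smul_mul]
  have hbu : IsUnit (b : ZMod q) := (ZMod.isUnit_iff_coprime b q).2 hb
  have hG : IsUnit ((b : ZMod q) • md q γ.1).det := by
    rw [Matrix.det_smul]
    refine (hbu.pow _).mul ?_
    have : md q γ.1 = (Int.castRingHom (ZMod q)).mapMatrix γ.1 := rfl
    rw [this, ← RingHom.map_det, γ.2, map_one]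
    exact isUnit_one
  have hE : IsUnit (rdq q d⁻¹).det := by
    have h1 : rdq q d⁻¹ * rdq q d = 1 := by
      rw [← rdq_mul hd' hd, Matrix.nonsing_inv_mul _ hdu, rd_one]
    exact (Matrix.isUnit_iff_isUnit_det _).1 ⟨⟨_, _, h1, mul_eq_one_comm.1 h1⟩, rfl⟩
  rw [e2, Matrix.rank_mul_eq_left_of_isUnit_det _ _ hE,
    Matrix.rank_mul_eq_right_of_isUnit_det _ _ hG]
  exact rd_card (rdq q ζ)

theorem rank_zero_pr {n q : ℕ} [Fact q.Prime] (γ : SLZ n) (d ζ : Matrix (Fin n) (Fin n) ℚ)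
    (hd0 : d.det ≠ 0) (hd : QI q d) (hd' : QI q d⁻¹) (b b0 : ℕ) (hb : 1 ≤ b) (hb0 : 1 ≤ b0)
    (P : ℝ) (hbP : (b : ℝ) ≤ P) (hb0P : (b0 : ℝ) ≤ P) (Z Y : Matrix (Fin n) (Fin n) ℤ)
    (h : qq Z = (b : ℚ) • (qq γ.1 * ζ * d⁻¹)) (h0 : qq Y = (b0 : ℚ) • (qq γ.1 * d⁻¹))
    (B : ℝ) (hZ : ∀ i k, |(Z i k : ℝ)| ≤ B) (hY : ∀ i k, |(Y i k : ℝ)| ≤ B)
    (hq : 2 * P * B < q)
    (hr : (md q Z - (b : ZMod q) • (md q γ.1 * rdq q d⁻¹)).rank = 0) : ζ = 1 := by
  have hdu : IsUnit d.det := isUnit_iff_ne_zero.2 hd0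
  have hbQ : (b : ℚ) ≠ 0 := by
    have : b ≠ 0 := by omega
    exact_mod_cast this
  have hb0Q : (b0 : ℚ) ≠ 0 := by
    have : b0 ≠ 0 := by omega
    exact_mod_cast this
  -- the congruence
  have e0 : md q Z = (b : ZMod q) • (md q γ.1 * rdq q d⁻¹) := by
    rw [← sub_eq_zero]
    exact rd_rank0 _ hr
  have e1 : md q Y = (b0 : ZMod q) • (md q γ.1 * rdq q d⁻¹) := by
    have h1 := congrArg (rdq q) h0
    rw [rdq_qq, rd_smul b0 (QI_mul (QI_qq q _) hd'), rdq_mul (QI_qq q _) hd', rdq_qq] at h1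
    exact h1
  have e2 : (b0 : ℤ) • Z = (b : ℤ) • Y := by
    ext i k
    have h1 : (((b0 : ℤ) * Z i k - (b : ℤ) * Y i k : ℤ) : ZMod q) = 0 := by
      have a0 : ((Z i k : ℤ) : ZMod q) = (b : ZMod q) * (md q γ.1 * rdq q d⁻¹) i k := by
        have := congrFun (congrFun e0 i) k
        simpa [md] using this
      have a1 : ((Y i k : ℤ) : ZMod q) = (b0 : ZMod q) * (md q γ.1 * rdq q d⁻¹) i k := by
        have := congrFun (congrFun e1 i) k
        simpa [md] using this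
      push_cast
      rw [a0, a1]
      ring
    rw [ZMod.intCast_zmod_eq_zero_iff_dvd] at h1
    have h2 : |(((b0 : ℤ) * Z i k - (b : ℤ) * Y i k : ℤ) : ℝ)| < q := by
      have hB0 : 0 ≤ B := (abs_nonneg _).trans (hZ i k)
      have hP0 : 0 ≤ P := (Nat.cast_nonneg b).trans hbP
      push_cast
      calc |(b0 : ℝ) * Z i k - b * Y i k| ≤ |(b0 : ℝ) * Z i k| + |(b : ℝ) * Y i k| := abs_sub _ _
        _ = (b0 : ℝ) * |(Z i k : ℝ)| + b * |(Y i k : ℝ)| := by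
            rw [abs_mul, abs_mul, Nat.abs_cast, Nat.abs_cast]
        _ ≤ P * B + P * B := by
            gcongr
            · exact hZ i k
            · exact hY i k
        _ = 2 * P * B := by ring
        _ < q := hq
    have h3 : |((b0 : ℤ) * Z i k - (b : ℤ) * Y i k)| < (q : ℤ) := by exact_mod_cast h2
    have h4 := Int.eq_zero_of_abs_lt_dvd h1 h3
    simp only [Matrix.smul_apply, smul_eq_mul]
    linarith
  have e3 : (b0 : ℚ) • qq Z = (b : ℚ) • qq Y := by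
    ext i k
    have := congrFun (congrFun e2 i) k
    simp only [Matrix.smul_apply, smul_eq_mul] at this
    simp only [Matrix.smul_apply, smul_eq_mul, qq, Matrix.map_apply]
    exact_mod_cast this
  rw [h, h0, smul_smul, smul_smul, mul_comm (b : ℚ) (b0 : ℚ)] at e3
  have e4 : qq γ.1 * ζ * d⁻¹ = qq γ.1 * d⁻¹ :=
    (smul_right_injective _ (mul_ne_zero hb0Q hbQ)) e3
  have hγ : qq (γ⁻¹ : SLZ n).1 * qq γ.1 = 1 := by
    rw [← Pool.Agent.GLQ.l1a_qq_mul]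
    have : (γ⁻¹ : SLZ n).1 * γ.1 = 1 := congrArg Subtype.val (inv_mul_cancel γ)
    rw [this, Pool.Agent.GLQ.l1a_qq_one]
  calc ζ = (qq (γ⁻¹ : SLZ n).1 * qq γ.1) * ζ * (d⁻¹ * d) := by
        rw [hγ, Matrix.nonsing_inv_mul _ hdu, Matrix.one_mul, Matrix.mul_one]
    _ = qq (γ⁻¹ : SLZ n).1 * (qq γ.1 * ζ * d⁻¹) * d := by simp only [Matrix.mul_assoc]
    _ = qq (γ⁻¹ : SLZ n).1 * (qq γ.1 * d⁻¹) * d := by rw [e4]
    _ = (qq (γ⁻¹ : SLZ n).1 * qq γ.1) * (d⁻¹ * d) := by simp only [Matrix.mul_assoc]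
    _ = 1 := by rw [hγ, Matrix.nonsing_inv_mul _ hdu, Matrix.one_mul]

end

end Pool.Agent.SGB

namespace Pool.Agent.SGB

alias NR_Ql := NR_Ql_pr
alias fix_rank := fix_rank_pr
alias rank_zero := rank_zero_pr

end Pool.Agent.SGB
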