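import Pool.Agent.Lib_helper56.SGB.Defs
import Pool.Agent.Lib_helper56.GLQ.F.R2
import Pool.Agent.Lib_helper56.SGB.F.HD
import Pool.Agent.Lib_helper56.SGB.F.HF2
import Pool.Agent.Lib_helper56.SGB.F.PA
import Pool.Agent.Lib_helper56.SGB.F.RB
import Pool.Agent.Lib_helper56.SGB.F.RC2
import Pool.Agent.Lib_helper56.SGB.F.RD
/-!
# Project SGN, part B, block RE: the number of maps `ζ`
-/

set_option autoImplicit false

namespace Pool.Agent.SGB

open MeasureTheory Matrix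
open Pool.Agent.RS (Mt lm SLZ)
open Pool.Agent.GLQ (re unip cube slab Xp wN IN rm rr qq Lat latt Lz IsRed RY Om Box Kern IsInv Bd sp)
open Pool.Agent.SGN (md repR repL heckeT heckeA supS subS UW Wd lw nf WOk uvec unrm xval)
open scoped ENNReal

noncomputable section

/-! ### matrices -/

theorem re_rr_mul {n : ℕ} (X Y : Matrix (Fin n) (Fin n) ℚ) : rr (X * Y) = rr X * rr Y := by
  unfold rr
  ext i j
  simp only [Matrix.map_apply, Matrix.mul_apply]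
  push_cast
  rfl

theorem re_rr_qq {n : ℕ} (Z : Matrix (Fin n) (Fin n) ℤ) : rr (qq Z) = re Z := by
  unfold rr qq re
  ext i j
  simp

theorem re_rr_det {n : ℕ} (X : Matrix (Fin n) (Fin n) ℚ) :
    (rr X).det = ((X.det : ℚ) : ℝ) := by
  have h := RingHom.map_det (Rat.castHom ℝ) X
  exact h.symm

theorem re_qq_det {n : ℕ} (X : Matrix (Fin n) (Fin n) ℤ) : (qq X).det = ((X.det : ℤ) : ℚ) := by
  have h := RingHom.map_det (Int.castRingHom ℚ) X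
  exact h.symm

theorem re_re_one {n : ℕ} : re (1 : Matrix (Fin n) (Fin n) ℤ) = 1 := by
  unfold re
  ext i j
  rw [Matrix.map_apply, Matrix.one_apply, Matrix.one_apply]
  split_ifs <;> simp

/-- the same pair gives the same `ζ` -/
theorem re_inj {n : ℕ} (γ : SLZ n) (d : Matrix (Fin n) (Fin n) ℚ) (hd : d.det ≠ 0) (b : ℕ)
    (hb : 1 ≤ b) (Z : Matrix (Fin n) (Fin n) ℤ) (ζ ζ' : Matrix (Fin n) (Fin n) ℚ)
    (h : qq Z = (b : ℚ) • (qq γ.1 * ζ * d⁻¹)) (h' : qq Z = (b : ℚ) • (qq γ.1 * ζ' * d⁻¹)) :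
    ζ = ζ' := by
  have hb0 : (b : ℚ) ≠ 0 := by
    have : b ≠ 0 := by omega
    exact_mod_cast this
  have h1 : qq γ.1 * ζ * d⁻¹ = qq γ.1 * ζ' * d⁻¹ := by
    have h2 : (b : ℚ) • (qq γ.1 * ζ * d⁻¹) = (b : ℚ) • (qq γ.1 * ζ' * d⁻¹) := by rw [← h, ← h']
    exact smul_right_injective _ hb0 h2
  have hdu : IsUnit d.det := isUnit_iff_ne_zero.2 hd
  have h3 : qq γ.1 * ζ = qq γ.1 * ζ' := by
    have := congrArg (fun M => M * d) h1
    simp only [Matrix.mul_assoc, Matrix.nonsing_inv_mul d hdu, Matrix.mul_one] at this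
    exact this
  have hγu : IsUnit (qq γ.1).det := by
    rw [re_qq_det, γ.2]
    simp
  have := congrArg (fun M => (qq γ.1)⁻¹ * M) h3
  simp only [← Matrix.mul_assoc, Matrix.nonsing_inv_mul _ hγu, Matrix.one_mul] at this
  exact this

/-! ### sums -/

theorem re_tsum_fin {α : Type} (F : Set α) (hF : F.Finite) (c : ℝ≥0∞) :
    ∑' a, F.indicator (fun _ => c) a = (F.ncard : ℝ≥0∞) * c := by
  classical
  rw [tsum_eq_sum (s := hF.toFinset)]
  · rw [Finset.sum_congr rfl (g := fun _ => c)]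
    · rw [Finset.sum_const, nsmul_eq_mul, Set.ncard_eq_toFinset_card F hF]
    · intro a ha
      rw [Set.indicator_of_mem ((Set.Finite.mem_toFinset hF).1 ha)]
  · intro a ha
    rw [Set.indicator_of_notMem]
    intro h
    exact ha ((Set.Finite.mem_toFinset hF).2 h)

/-- the pairs `(b, Z)` -/
theorem re_ZS {m q : ℕ} [Fact q.Prime] (R : ℝ) (S : Set (Lat (m + 1))) (L : Lat (m + 1)) (A : Mt (m + 1))
    (P : ℝ) (γ : SLZ (m + 1)) (d : Matrix (Fin (m + 1)) (Fin (m + 1)) ℚ) (hd : d.det ≠ 0)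
    (B : Fin (m + 1) → ℝ) (C : ℕ → Matrix (Fin (m + 1)) (Fin (m + 1)) (ZMod q))
    (h1 : ∀ ζ, ZC m R S L A ζ → ∃ (b : ℕ) (Z : Matrix (Fin (m + 1)) (Fin (m + 1)) ℤ),
      1 ≤ b ∧ (b : ℝ) ≤ P ∧ qq Z = (b : ℚ) • (qq γ.1 * ζ * d⁻¹) ∧ (∀ i k, |(Z i k : ℝ)| ≤ B k) ∧
      (md q Z - C b).rank ≠ 0 ∧ Nx q ζ = q ^ (m + 1 - (md q Z - C b).rank))
    (M : ℕ → ℝ) (h2 : ∀ b r : ℕ, 1 ≤ r → r ≤ m + 1 →
      {Z : Matrix (Fin (m + 1)) (Fin (m + 1)) ℤ | (∀ i k, |(Z i k : ℝ)| ≤ B k) ∧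
        (md q Z - C b).rank = r}.Finite ∧
      ({Z : Matrix (Fin (m + 1)) (Fin (m + 1)) ℤ | (∀ i k, |(Z i k : ℝ)| ≤ B k) ∧
        (md q Z - C b).rank = r}.ncard : ℝ) ≤ M r) (hP : 0 ≤ P) :
    ZS m q R S L A ≤ ∑ r ∈ Finset.Icc 1 (m + 1),
      ENNReal.ofReal (P * ((q : ℝ) ^ (m + 1 - r) * M r)) := by
  classical
  set h : ℕ × Matrix (Fin (m + 1)) (Fin (m + 1)) ℤ → ℝ≥0∞ := fun z =>
    if 1 ≤ z.1 ∧ (z.1 : ℝ) ≤ P then
      ∑ r ∈ Finset.Icc 1 (m + 1), {Z : Matrix (Fin (m + 1)) (Fin (m + 1)) ℤ |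
        (∀ i k, |(Z i k : ℝ)| ≤ B k) ∧ (md q Z - C z.1).rank = r}.indicator
          (fun _ => ENNReal.ofReal ((q : ℝ) ^ (m + 1 - r))) z.2
    else 0 with hh
  choose! fb fZ g1 g2 g3 g4 g5 g6 using h1
  have hzs : ZS m q R S L A = ∑' ζ : {ζ // ZC m R S L A ζ}, (Nx q ζ.1 : ℝ≥0∞) := by
    unfold ZS
    refine Eq.trans ?_ (tsum_subtype {ζ | ZC m R S L A ζ} (fun ζ => (Nx q ζ : ℝ≥0∞))).symm
    refine tsum_congr fun ζ => ?_
    by_cases hz : ZC m R S L A ζ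
    · rw [if_pos hz, Set.indicator_of_mem (show ζ ∈ {ζ | ZC m R S L A ζ} from hz)]
    · rw [if_neg hz, Set.indicator_of_notMem (show ζ ∉ {ζ | ZC m R S L A ζ} from hz)]
  have hpt : ∀ ζ : {ζ // ZC m R S L A ζ}, (Nx q ζ.1 : ℝ≥0∞) ≤ h (fb ζ.1, fZ ζ.1) := by
    intro ζ
    have hz := ζ.2
    refine le_trans ?_ (le_of_eq (if_pos ⟨g1 _ hz, g2 _ hz⟩).symm)
    have hr1 : (md q (fZ ζ.1) - C (fb ζ.1)).rank ∈ Finset.Icc 1 (m + 1) := by
      rw [Finset.mem_Icc]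
      refine ⟨Nat.one_le_iff_ne_zero.2 (g5 _ hz), ?_⟩
      refine (Matrix.rank_le_card_width _).trans ?_
      rw [Fintype.card_fin]
    refine le_trans ?_ (Finset.single_le_sum (f := fun r =>
      {Z : Matrix (Fin (m + 1)) (Fin (m + 1)) ℤ |
        (∀ i k, |(Z i k : ℝ)| ≤ B k) ∧ (md q Z - C (fb ζ.1)).rank = r}.indicator
          (fun _ => ENNReal.ofReal ((q : ℝ) ^ (m + 1 - r))) (fZ ζ.1))
      (fun _ _ => bot_le) hr1)
    rw [Set.indicator_of_mem (show fZ ζ.1 ∈ {Z : Matrix (Fin (m + 1)) (Fin (m + 1)) ℤ |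
        (∀ i k, |(Z i k : ℝ)| ≤ B k) ∧ (md q Z - C (fb ζ.1)).rank =
          (md q (fZ ζ.1) - C (fb ζ.1)).rank} from ⟨g4 _ hz, rfl⟩), g6 _ hz]
    rw [ENNReal.ofReal_pow (Nat.cast_nonneg _), ENNReal.ofReal_natCast]
    push_cast
    exact le_refl _
  have hinj : Function.Injective fun ζ : {ζ // ZC m R S L A ζ} => (fb ζ.1, fZ ζ.1) := by
    intro ζ ζ' he
    simp only [Prod.mk.injEq] at he
    refine Subtype.ext ?_
    refine re_inj γ d hd (fb ζ.1) (g1 _ ζ.2) (fZ ζ.1) _ _ (g3 _ ζ.2) ?_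
    rw [he.1, he.2]
    exact g3 _ ζ'.2
  rw [hzs]
  calc ∑' ζ : {ζ // ZC m R S L A ζ}, (Nx q ζ.1 : ℝ≥0∞)
      ≤ ∑' ζ : {ζ // ZC m R S L A ζ}, h (fb ζ.1, fZ ζ.1) := ENNReal.tsum_le_tsum hpt
    _ ≤ ∑' z, h z := ENNReal.tsum_comp_le_tsum_of_injective hinj h
    _ = ∑' b, ∑' Z, h (b, Z) := ENNReal.tsum_prod' 
    _ = ∑ b ∈ Finset.Icc 1 ⌊P⌋₊, ∑' Z, h (b, Z) := by
        refine tsum_eq_sum fun b hb => ?_
        have hb' : ¬ (1 ≤ b ∧ (b : ℝ) ≤ P) := by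
          intro hb'
          exact hb (Finset.mem_Icc.2 ⟨hb'.1, Nat.le_floor hb'.2⟩)
        refine ENNReal.tsum_eq_zero.2 fun Z => ?_
        exact if_neg hb'
    _ ≤ ∑ b ∈ Finset.Icc 1 ⌊P⌋₊, ∑ r ∈ Finset.Icc 1 (m + 1),
          ENNReal.ofReal ((q : ℝ) ^ (m + 1 - r) * M r) := by
        refine Finset.sum_le_sum fun b hb => ?_
        have h3 : ∑' Z, h (b, Z) ≤ ∑' Z : Matrix (Fin (m + 1)) (Fin (m + 1)) ℤ,
            ∑ r ∈ Finset.Icc 1 (m + 1), {Z : Matrix (Fin (m + 1)) (Fin (m + 1)) ℤ |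
              (∀ i k, |(Z i k : ℝ)| ≤ B k) ∧ (md q Z - C b).rank = r}.indicator
                (fun _ => ENNReal.ofReal ((q : ℝ) ^ (m + 1 - r))) Z := by
          refine ENNReal.tsum_le_tsum fun Z => ?_
          by_cases hb' : 1 ≤ b ∧ (b : ℝ) ≤ P
          · exact le_of_eq (if_pos hb')
          · exact (le_of_eq (if_neg hb')).trans bot_le
        refine h3.trans ?_
        rw [Summable.tsum_finsetSum fun _ _ => ENNReal.summable]
        refine Finset.sum_le_sum fun r hr => ?_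
        rw [Finset.mem_Icc] at hr
        obtain ⟨k1, k2⟩ := h2 b r hr.1 hr.2
        rw [re_tsum_fin _ k1, mul_comm, ENNReal.ofReal_mul (by positivity)]
        refine mul_le_mul' (le_refl _) ?_
        rw [← ENNReal.ofReal_natCast]
        exact ENNReal.ofReal_le_ofReal k2
    _ ≤ ∑ r ∈ Finset.Icc 1 (m + 1), ENNReal.ofReal (P * ((q : ℝ) ^ (m + 1 - r) * M r)) := by
        rw [Finset.sum_const, Nat.card_Icc, Nat.add_sub_cancel, nsmul_eq_mul, Finset.mul_sum]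
        refine Finset.sum_le_sum fun r hr => ?_
        rw [ENNReal.ofReal_mul hP]
        refine mul_le_mul' ?_ (le_refl _)
        rw [← ENNReal.ofReal_natCast]
        exact ENNReal.ofReal_le_ofReal (Nat.floor_le hP)

/-! ### products over sets of coordinates -/

/-- the last `r` coordinates -/
def re_T (n r : ℕ) : Finset (Fin n) := Finset.univ.filter fun k => n - r ≤ (k : ℕ)

theorem re_T_card {n r : ℕ} (hr : r ≤ n) : (re_T n r).card = r := by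
  have h1 : (re_T n r).map Fin.valEmbedding = Finset.Ico (n - r) n := by
    ext k
    rw [Finset.mem_map, Finset.mem_Ico]
    constructor
    · rintro ⟨a, ha, rfl⟩
      exact ⟨(Finset.mem_filter.1 ha).2, a.2⟩
    · rintro ⟨h1, h2⟩
      exact ⟨⟨k, h2⟩, Finset.mem_filter.2 ⟨Finset.mem_univ _, h1⟩, rfl⟩
  have h2 := congrArg Finset.card h1
  rw [Finset.card_map, Nat.card_Ico] at h2
  omega

theorem re_T_prod {n : ℕ} (r : ℕ) (f : Fin n → ℝ) :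
    (∏ i : Fin n, if n - r ≤ (i : ℕ) then f i else 1) = ∏ k ∈ re_T n r, f k := by
  unfold re_T
  rw [Finset.prod_filter]

theorem re_top {n r : ℕ} (hr : r ≤ n) (B : Fin n → ℝ) (hB : ∀ k, 1 ≤ B k)
    (hm : ∀ i j : Fin n, i ≤ j → B i ≤ 2 ^ n * B j) (s : Finset (Fin n)) (hs : s.card = r) :
    ∏ k ∈ s, B k ≤ 2 ^ (n ^ 2) * ∏ k ∈ re_T n r, B k := by
  classical
  have hc : (s \ re_T n r).card = (re_T n r \ s).card :=
    Finset.card_sdiff_comm (hs.trans (re_T_card hr).symm)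
  have h0 : ∀ k, 0 ≤ B k := fun k => zero_le_one.trans (hB k)
  have h1 : ∏ k ∈ s \ re_T n r, B k ≤ ∏ k ∈ re_T n r \ s, (2 ^ n * B k) := by
    rw [← Finset.prod_coe_sort (s \ re_T n r), ← Finset.prod_coe_sort (re_T n r \ s)]
    rw [← Equiv.prod_comp (Finset.equivOfCardEq hc)]
    refine Finset.prod_le_prod (fun i _ => h0 _) fun i _ => ?_
    refine hm _ _ ?_
    have a1 := (Finset.mem_sdiff.1 i.2).2
    have a2 := (Finset.mem_sdiff.1 ((Finset.equivOfCardEq hc) i).2).1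
    unfold re_T at a1 a2
    rw [Finset.mem_filter] at a1 a2
    have a3 : ¬ (n - r ≤ (i.1 : ℕ)) := fun h => a1 ⟨Finset.mem_univ _, h⟩
    have a4 := a2.2
    exact Fin.le_def.2 ((not_le.1 a3).trans_le a4).le
  have h2 : ∏ k ∈ re_T n r \ s, (2 ^ n * B k) ≤ 2 ^ (n ^ 2) * ∏ k ∈ re_T n r \ s, B k := by
    rw [Finset.prod_mul_distrib, Finset.prod_const, ← pow_mul]
    refine mul_le_mul_of_nonneg_right ?_ (Finset.prod_nonneg fun k _ => h0 k)
    refine pow_le_pow_right₀ (by norm_num) ?_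
    rw [pow_two]
    refine Nat.mul_le_mul_left n ?_
    refine (Finset.card_le_univ _).trans ?_
    rw [Fintype.card_fin]
  have h3 : ∏ k ∈ s, B k = (∏ k ∈ s \ re_T n r, B k) * ∏ k ∈ s ∩ re_T n r, B k := by
    rw [← Finset.prod_union (Finset.disjoint_sdiff_inter s (re_T n r)), Finset.sdiff_union_inter]
  have h4 : ∏ k ∈ re_T n r, B k = (∏ k ∈ re_T n r \ s, B k) * ∏ k ∈ s ∩ re_T n r, B k := by
    rw [Finset.inter_comm, ← Finset.prod_union (Finset.disjoint_sdiff_inter (re_T n r) s),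
      Finset.sdiff_union_inter]
  rw [h3, h4, ← mul_assoc]
  exact mul_le_mul_of_nonneg_right (h1.trans h2) (Finset.prod_nonneg fun k _ => h0 k)

/-! ### the estimate -/

/-- the constant -/
def re_K (m : ℕ) (c0 : ℝ) : ℝ :=
  2 ^ (m + 1) * 3 ^ ((m + 1) ^ 2) * (5 ^ (m + 1) * 2 ^ ((m + 1) ^ 2)) ^ (m + 1) *
    c0 ^ ((m + 2) * (m + 1) + (m + 1) ^ 2)

theorem re_nat {n r e : ℕ} (hn : 2 ≤ n) (hr : r ≤ n) (he : e ≤ n) :
    1 + (n * (n + 1) + 1) * r + ((n + 1) * r * e + e) ≤ 4 * n ^ 3 := by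
  have h1 : (n * (n + 1) + 1) * r ≤ (n * (n + 1) + 1) * n := Nat.mul_le_mul_left _ hr
  have h2 : (n + 1) * r * e ≤ (n + 1) * n * n :=
    Nat.mul_le_mul (Nat.mul_le_mul_left _ hr) he
  have h3 : 2 * n * n ≤ n * n * n := by
    have := Nat.mul_le_mul_right (n * n) hn
    nlinarith
  nlinarith

theorem re_alg {m r : ℕ} (hm : 1 ≤ m) (hr : r ≤ m + 1) (c0 P N dd a : ℝ)
    (hc : 1 ≤ c0) (hP : 1 ≤ P) (hN : 1 ≤ N) (hdd : 0 < dd) (ha : 1 ≤ a)
    (t : Fin (m + 1) → ℝ) (ht : ∀ i, 0 < t i) (B : Fin (m + 1) → ℝ)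
    (hB : ∀ k, B k = c0 * P ^ (m + 2) * (N * P * dd) ^ (1 / ((m : ℝ) + 1)) / t k)
    (hB1 : ∀ k, 1 ≤ B k)
    (hPB : ∏ k, B k ≤ c0 ^ (m + 2) * P ^ ((m + 1) * (m + 2) + 1) * N) :
    P * (2 ^ (m + 1) * (3 ^ (m + 1) * ∏ k, B k) ^ r *
      (5 ^ (m + 1) * (2 ^ ((m + 1) ^ 2) * ∏ k ∈ re_T (m + 1) r, B k)) ^ (m + 1 - r)) ≤
    re_K m c0 * P ^ (4 * (m + 1) ^ 3) *
      N ^ ((r : ℝ) + (r : ℝ) * ((m : ℝ) + 1 - r) / ((m : ℝ) + 1)) *
      (((dd * a) ^ ((r : ℝ) / ((m : ℝ) + 1)) / ∏ k ∈ re_T (m + 1) r, t k) ^ (m + 1 - r)) := by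
  have hn0 : (0 : ℝ) < (m : ℝ) + 1 := by positivity
  have hP0 : 0 < P := zero_lt_one.trans_le hP
  have hN0 : 0 < N := zero_lt_one.trans_le hN
  have hc0 : 0 < c0 := zero_lt_one.trans_le hc
  have ha0 : 0 < a := zero_lt_one.trans_le ha
  set τ := ∏ k ∈ re_T (m + 1) r, t k with hτ
  have hτ0 : 0 < τ := Finset.prod_pos fun k _ => ht k
  set e := m + 1 - r with he
  set x : ℝ := (r : ℝ) / ((m : ℝ) + 1) with hx
  have hx0 : 0 ≤ x := by positivity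
  have hx1 : x ≤ 1 := by
    rw [hx, div_le_one hn0]
    exact_mod_cast hr
  set Y : ℝ := (dd * a) ^ x / τ with hY
  have hY0 : 0 < Y := by positivity
  have hB0 : 0 ≤ ∏ k, B k := Finset.prod_nonneg fun k _ => zero_le_one.trans (hB1 k)
  have hBT0 : 0 ≤ ∏ k ∈ re_T (m + 1) r, B k :=
    Finset.prod_nonneg fun k _ => zero_le_one.trans (hB1 k)
  have h1 : ∏ k ∈ re_T (m + 1) r, B k =
      (c0 * P ^ (m + 2)) ^ r * (N * P * dd) ^ x / τ := by
    have h2 : ∏ k ∈ re_T (m + 1) r, B k = ∏ k ∈ re_T (m + 1) r,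
        (c0 * P ^ (m + 2) * (N * P * dd) ^ (1 / ((m : ℝ) + 1)) / t k) :=
      Finset.prod_congr rfl fun k _ => hB k
    rw [h2, Finset.prod_div_distrib, Finset.prod_const, re_T_card hr, mul_pow, ← hτ]
    congr 2
    rw [← Real.rpow_natCast, ← Real.rpow_mul (by positivity), hx]
    congr 1
    ring
  have h2 : (N * P * dd) ^ x ≤ N ^ x * P * (dd * a) ^ x := by
    rw [Real.mul_rpow (by positivity) hdd.le, Real.mul_rpow hN0.le hP0.le]
    have k1 : P ^ x ≤ P := by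
      calc P ^ x ≤ P ^ (1 : ℝ) := Real.rpow_le_rpow_of_exponent_le hP hx1
        _ = P := Real.rpow_one P
    have k2 : dd ^ x ≤ (dd * a) ^ x :=
      Real.rpow_le_rpow hdd.le (le_mul_of_one_le_right hdd.le ha) hx0
    exact mul_le_mul (mul_le_mul_of_nonneg_left k1 (by positivity)) k2 (by positivity)
      (by positivity)
  have h3 : ∏ k ∈ re_T (m + 1) r, B k ≤ (c0 * P ^ (m + 2)) ^ r * P * N ^ x * Y := by
    rw [h1, hY, mul_div_assoc', div_le_div_iff_of_pos_right hτ0]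
    calc (c0 * P ^ (m + 2)) ^ r * (N * P * dd) ^ x
        ≤ (c0 * P ^ (m + 2)) ^ r * (N ^ x * P * (dd * a) ^ x) :=
          mul_le_mul_of_nonneg_left h2 (by positivity)
      _ = (c0 * P ^ (m + 2)) ^ r * P * N ^ x * (dd * a) ^ x := by ring
  have h4 : N ^ ((r : ℝ) + (r : ℝ) * ((m : ℝ) + 1 - r) / ((m : ℝ) + 1)) =
      N ^ r * (N ^ x) ^ e := by
    rw [← Real.rpow_natCast (N ^ x) e, ← Real.rpow_mul hN0.le, ← Real.rpow_natCast N r,
      ← Real.rpow_add hN0]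
    congr 1
    rw [he, Nat.cast_sub hr, hx]
    push_cast
    ring
  have h5 : P * (2 ^ (m + 1) * (3 ^ (m + 1) * ∏ k, B k) ^ r *
      (5 ^ (m + 1) * (2 ^ ((m + 1) ^ 2) * ∏ k ∈ re_T (m + 1) r, B k)) ^ e) ≤
      P * (2 ^ (m + 1) * (3 ^ (m + 1) * (c0 ^ (m + 2) * P ^ ((m + 1) * (m + 2) + 1) * N)) ^ r *
      (5 ^ (m + 1) * (2 ^ ((m + 1) ^ 2) *
        ((c0 * P ^ (m + 2)) ^ r * P * N ^ x * Y))) ^ e) := by
    gcongr
  have h6 : P * (2 ^ (m + 1) * (3 ^ (m + 1) * (c0 ^ (m + 2) * P ^ ((m + 1) * (m + 2) + 1) * N)) ^ r *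
      (5 ^ (m + 1) * (2 ^ ((m + 1) ^ 2) *
        ((c0 * P ^ (m + 2)) ^ r * P * N ^ x * Y))) ^ e) =
      (2 ^ (m + 1) * 3 ^ ((m + 1) * r) * (5 ^ (m + 1) * 2 ^ ((m + 1) ^ 2)) ^ e *
        c0 ^ ((m + 2) * r + r * e)) *
        P ^ (1 + ((m + 1) * (m + 1 + 1) + 1) * r + ((m + 1 + 1) * r * e + e)) *
        (N ^ r * (N ^ x) ^ e) * Y ^ e := by
    simp only [mul_pow, pow_add, pow_mul, pow_one]
    ring
  have hpos : 0 ≤ (N ^ r * (N ^ x) ^ e) * Y ^ e := by positivity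
  refine h5.trans ?_
  rw [h6, h4]
  have h7 : (2 ^ (m + 1) * 3 ^ ((m + 1) * r) * (5 ^ (m + 1) * 2 ^ ((m + 1) ^ 2)) ^ e *
        c0 ^ ((m + 2) * r + r * e) : ℝ) ≤ re_K m c0 := by
    unfold re_K
    have he' : e ≤ m + 1 := by omega
    gcongr
    · norm_num
    · rw [pow_two]
      exact Nat.mul_le_mul_left _ hr
    · exact_mod_cast Nat.one_le_iff_ne_zero.2 (by positivity)
    · rw [pow_two]
      exact Nat.mul_le_mul hr he'
  have h8 : P ^ (1 + ((m + 1) * (m + 1 + 1) + 1) * r + ((m + 1 + 1) * r * e + e)) ≤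
      P ^ (4 * (m + 1) ^ 3) :=
    pow_le_pow_right₀ hP (re_nat (by omega) hr (by omega))
  have h9 : 0 ≤ re_K m c0 := by
    unfold re_K
    positivity
  gcongr

/-! ### the theorem -/

theorem zeta_count_pr (m : ℕ) (hm : 1 ≤ m) (R : ℝ) (hR : 1 ≤ R) : ∃ C : ℝ, 1 ≤ C ∧
    ∀ (q : ℕ) [Fact q.Prime] (N P : ℝ), 1 ≤ N → 1 ≤ P → C * P ^ (4 * (m + 1) ^ 3) * N < q →
    ∀ A ∈ Xp (m + 1) ∩ Om (m + 1) P, ∀ L ∈ NR (m + 1) N P,
      ZS m q R (NR (m + 1) N P) L A ≤ ENNReal.ofReal (C * P ^ (4 * (m + 1) ^ 3)) *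
        ∑ r ∈ Finset.Icc 1 (m + 1), ENNReal.ofReal ((q : ℝ) ^ (m + 1 - r) *
          N ^ ((r : ℝ) + (r : ℝ) * ((m : ℝ) + 1 - r) / ((m : ℝ) + 1))) *
          Psi m r (lm (rr (bas L)) A) := by
  obtain ⟨c0, hc0, hgeo⟩ := zeta_geo m R hR
  have hK1 : 1 ≤ re_K m c0 := by
    unfold re_K
    have k1 : (1 : ℝ) ≤ 2 ^ (m + 1) := one_le_pow₀ (by norm_num)
    have k2 : (1 : ℝ) ≤ 3 ^ ((m + 1) ^ 2) := one_le_pow₀ (by norm_num)
    have k3 : (1 : ℝ) ≤ (5 ^ (m + 1) * 2 ^ ((m + 1) ^ 2)) ^ (m + 1) :=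
      one_le_pow₀ (one_le_mul_of_one_le_of_one_le (one_le_pow₀ (by norm_num))
        (one_le_pow₀ (by norm_num)))
    have k4 : (1 : ℝ) ≤ c0 ^ ((m + 2) * (m + 1) + (m + 1) ^ 2) := one_le_pow₀ hc0
    exact one_le_mul_of_one_le_of_one_le (one_le_mul_of_one_le_of_one_le
      (one_le_mul_of_one_le_of_one_le k1 k2) k3) k4
  have hKc : 2 ^ (m + 1) * c0 ^ (m + 2) ≤ re_K m c0 := by
    unfold re_K
    have k2 : (1 : ℝ) ≤ 3 ^ ((m + 1) ^ 2) := one_le_pow₀ (by norm_num)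
    have k3 : (1 : ℝ) ≤ (5 ^ (m + 1) * 2 ^ ((m + 1) ^ 2)) ^ (m + 1) :=
      one_le_pow₀ (one_le_mul_of_one_le_of_one_le (one_le_pow₀ (by norm_num))
        (one_le_pow₀ (by norm_num)))
    have k4 : c0 ^ (m + 2) ≤ c0 ^ ((m + 2) * (m + 1) + (m + 1) ^ 2) :=
      pow_le_pow_right₀ hc0 (by nlinarith)
    calc (2 : ℝ) ^ (m + 1) * c0 ^ (m + 2) = 2 ^ (m + 1) * 1 * 1 * c0 ^ (m + 2) := by ring
      _ ≤ _ := by gcongr
  have hf1 : (1 : ℝ) ≤ ((m + 1).factorial : ℝ) := by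
    exact_mod_cast Nat.one_le_iff_ne_zero.2 (Nat.factorial_ne_zero _)
  refine ⟨2 * ((m + 1).factorial : ℝ) * re_K m c0, by nlinarith, ?_⟩
  intro q hqp N P hN hP hq A hA L hL
  have hP0 : 0 < P := zero_lt_one.trans_le hP
  have hN0 : 0 < N := zero_lt_one.trans_le hN
  have hc00 : 0 < c0 := zero_lt_one.trans_le hc0
  have hK0 : 0 < re_K m c0 := zero_lt_one.trans_le hK1
  have hPn : P ^ ((m + 1) * (m + 2) + 2) ≤ P ^ (4 * (m + 1) ^ 3) :=
    pow_le_pow_right₀ hP (by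
      have := re_nat (n := m + 1) (r := 1) (e := 1) (by omega) (by omega) (by omega)
      nlinarith)
  have hPn1 : P ^ ((m + 1) * (m + 2) + 1) ≤ P ^ ((m + 1) * (m + 2) + 2) :=
    pow_le_pow_right₀ hP (by omega)
  have hPn2 : P ^ (m + 2) ≤ P ^ ((m + 1) * (m + 2) + 2) :=
    pow_le_pow_right₀ hP (by nlinarith)
  have hPn3 : P ≤ P ^ ((m + 1) * (m + 2) + 2) := le_self_pow₀ hP (by omega)
  have hf2 : re_K m c0 ≤ ((m + 1).factorial : ℝ) * re_K m c0 :=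
    le_mul_of_one_le_left hK0.le hf1
  -- the basic inequality `K P^(n(n+1)+2) N < q`
  have hq1 : ((m + 1).factorial : ℝ) * re_K m c0 * P ^ ((m + 1) * (m + 2) + 2) * N * 2 < q := by
    refine lt_of_le_of_lt ?_ hq
    calc ((m + 1).factorial : ℝ) * re_K m c0 * P ^ ((m + 1) * (m + 2) + 2) * N * 2
        ≤ ((m + 1).factorial : ℝ) * re_K m c0 * P ^ (4 * (m + 1) ^ 3) * N * 2 := by gcongr
      _ = 2 * ((m + 1).factorial : ℝ) * re_K m c0 * P ^ (4 * (m + 1) ^ 3) * N := by ring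
  have hq2 : P ^ ((m + 1) * (m + 2) + 2) * N < q := by
    refine lt_of_le_of_lt ?_ hq1
    have k1 : (1 : ℝ) ≤ ((m + 1).factorial : ℝ) * re_K m c0 :=
      one_le_mul_of_one_le_of_one_le hf1 hK1
    calc P ^ ((m + 1) * (m + 2) + 2) * N = 1 * P ^ ((m + 1) * (m + 2) + 2) * N * 1 := by ring
      _ ≤ _ := by gcongr <;> norm_num
  have hqP : P < q := by
    refine lt_of_le_of_lt ?_ hq2
    calc P = P * 1 := (mul_one P).symm
      _ ≤ _ := by gcongr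
  obtain ⟨γ, d, U, t, O, B, hd, hred, hB, hB1, hPB, hζ, b0, Y, hb0, hb0P, hY, hYB⟩ :=
    hgeo N P hN hP A hA L hL
  have hQ : Ql q L := NR_Ql hqp.out hN hP
    (lt_of_le_of_lt (mul_le_mul_of_nonneg_right hPn2 hN0.le) hq2) hL
  obtain ⟨hd1, hd2⟩ := Ql_basis hQ hd
  have hdd : d.det ≠ 0 := hd.1.ne'
  have hB0 : ∀ k, 0 ≤ B k := fun k => zero_le_one.trans (hB1 k)
  have hBle : ∀ k, B k ≤ ∏ k, B k := by
    intro k
    have := Finset.prod_le_prod (s := Finset.univ) (f := fun j => if j = k then B k else 1)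
      (g := B) (fun j _ => by split_ifs <;> [exact hB0 k; exact zero_le_one])
      (fun j _ => by
        split_ifs with h
        · rw [h]
        · exact hB1 j)
    rwa [Finset.prod_ite_eq' Finset.univ k (fun _ => B k), if_pos (Finset.mem_univ k)] at this
  have hPB' : ∏ k, B k ≤ c0 ^ (m + 2) * P ^ ((m + 1) * (m + 2) + 1) * N := hPB
  have hco : ∀ b : ℕ, 1 ≤ b → (b : ℝ) ≤ P → b.Coprime q := by
    intro b hb hbP
    refine Nat.Coprime.symm ((Nat.Prime.coprime_iff_not_dvd hqp.out).2 fun h => ?_)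
    have h1 := Nat.le_of_dvd (by omega) h
    have h2 : (q : ℝ) ≤ b := by exact_mod_cast h1
    linarith
  set Cb : ℕ → Matrix (Fin (m + 1)) (Fin (m + 1)) (ZMod q) := fun b =>
    (b : ZMod q) • (md q γ.1 * rdq q d⁻¹) with hCb
  have hdR : (0 : ℝ) < ((d.det : ℚ) : ℝ) := by exact_mod_cast hd.1
  have hmono : ∀ i j : Fin (m + 1), i ≤ j → B i ≤ 2 ^ (m + 1) * B j := by
    intro i j hij
    have k1 := Pool.Agent.GLQ.red_ratio_pr hred i j hij
    rw [hB i, hB j, mul_div_assoc', div_le_div_iff₀ (hred.pos i) (hred.pos j)]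
    have k2 : 0 ≤ c0 * P ^ (m + 2) * (N * P * (d.det : ℝ)) ^ (1 / ((m : ℝ) + 1)) := by positivity
    calc c0 * P ^ (m + 2) * (N * P * (d.det : ℝ)) ^ (1 / ((m : ℝ) + 1)) * t j
        ≤ c0 * P ^ (m + 2) * (N * P * (d.det : ℝ)) ^ (1 / ((m : ℝ) + 1)) *
          (2 ^ (m + 1) * t i) := mul_le_mul_of_nonneg_left k1 k2
      _ = _ := by ring
  have hZS := re_ZS (q := q) R (NR (m + 1) N P) L A P γ d hdd B Cb (fun ζ hz => by
      obtain ⟨b, Z, hb, hbP, hZ, hZB⟩ := hζ ζ hz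
      refine ⟨b, Z, hb, hbP, hZ, hZB, ?_, fix_rank γ d ζ hdd hd1 hd2 b (hco b hb hbP) Z hZ⟩
      intro h0
      refine hz.1 (rank_zero γ d ζ hdd hd1 hd2 b b0 hb hb0 P hbP hb0P Z Y hZ hY
        (∏ k, B k) (fun i k => (hZB i k).trans (hBle k)) (fun i k => (hYB i k).trans (hBle k))
        ?_ h0)
      refine lt_of_le_of_lt ?_ hq1
      calc 2 * P * ∏ k, B k ≤ 2 * P * (c0 ^ (m + 2) * P ^ ((m + 1) * (m + 2) + 1) * N) := by
            gcongr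
        _ = (1 * (1 * c0 ^ (m + 2))) * P ^ ((m + 1) * (m + 2) + 2) * N * 2 := by ring
        _ ≤ (((m + 1).factorial : ℝ) * (2 ^ (m + 1) * c0 ^ (m + 2))) *
            P ^ ((m + 1) * (m + 2) + 2) * N * 2 := by
            have k1 : (1 : ℝ) ≤ 2 ^ (m + 1) := one_le_pow₀ (by norm_num)
            gcongr
        _ ≤ _ := by gcongr)
    (fun r => 2 ^ (m + 1) * (3 ^ (m + 1) * ∏ k, B k) ^ r *
      (5 ^ (m + 1) * (2 ^ ((m + 1) ^ 2) * ∏ k ∈ re_T (m + 1) r, B k)) ^ (m + 1 - r))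
    (fun b r hr1 hr => rank_count q hr B hB1 (by
      refine lt_of_le_of_lt ?_ hq1
      calc ((m + 1).factorial : ℝ) * 2 ^ (m + 1) * ∏ k, B k
          ≤ ((m + 1).factorial : ℝ) * 2 ^ (m + 1) *
            (c0 ^ (m + 2) * P ^ ((m + 1) * (m + 2) + 1) * N) := by gcongr
        _ = ((m + 1).factorial : ℝ) * (2 ^ (m + 1) * c0 ^ (m + 2)) *
            P ^ ((m + 1) * (m + 2) + 1) * N * 1 := by ring
        _ ≤ ((m + 1).factorial : ℝ) * re_K m c0 * P ^ ((m + 1) * (m + 2) + 2) * N * 2 := by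
            gcongr
            norm_num) _ (fun s hs => re_top hr B hB1 hmono s hs) (Cb b)) hP0.le
  refine hZS.trans ?_
  rw [Finset.mul_sum]
  refine Finset.sum_le_sum fun r hr => ?_
  rw [Finset.mem_Icc] at hr
  have hdA1 : 1 ≤ (Matrix.of A).det := hA.1.1
  have hdA0 : 0 < (Matrix.of A).det := zero_lt_one.trans_le hdA1
  have hdet : (Matrix.of (lm (rr d) A)).det = ((d.det : ℚ) : ℝ) * (Matrix.of A).det := by
    rw [Pool.Agent.RS.lm_eq, Matrix.det_mul, re_rr_det]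
  have hD0 : 0 < (Matrix.of (lm (rr d) A)).det := by
    rw [hdet]
    positivity
  have hpsi := Psi_ge (m := m) (r := r) hr.2 (lm (rr d) A) hD0 1 U t O (by
    have : lm (re (1 : SLZ (m + 1)).1) (lm (rr d) A) = lm (rr d) A := by
      have h1 : re (1 : SLZ (m + 1)).1 = 1 := re_re_one
      rw [h1, Pool.Agent.RS.lm_one]
    rw [this]
    exact hred)
  rw [re_T_prod, hdet] at hpsi
  have halg := re_alg hm hr.2 c0 P N ((d.det : ℚ) : ℝ) (Matrix.of A).det hc0 hP hN hdR hdA1 t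
    hred.pos B hB hB1 hPB
  have hinv : Psi m r (lm (rr d) A) = Psi m r (lm (rr (bas L)) A) := by
    have hb : IsB (bas L) L := bas_spec ⟨d, hd⟩
    obtain ⟨T, hT1, hT2, hT3, -⟩ := IsB_qq hb hd (le_refl L)
    have hT4 : T.det = 1 := by
      have k1 := IsB_det hd hb
      rw [k1] at hT3
      have k2 : (bas L).det ≠ 0 := hb.1.ne'
      have k3 : (T.det : ℚ) = 1 := by
        have k4 : (T.det : ℚ) * (bas L).det = 1 * (bas L).det := by rw [hT3, one_mul]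
        exact mul_right_cancel₀ k2 k4
      exact_mod_cast k3
    have k5 := (Psi_isInv m r).inv ⟨T, hT4⟩ (fun j => ⟨_, (one_mul _).symm⟩)
      (lm (rr (bas L)) A)
    rw [Pool.Agent.RS.lm_lm] at k5
    rw [hT1, re_rr_mul, re_rr_qq]
    exact k5
  have hq0 : (0 : ℝ) ≤ (q : ℝ) ^ (m + 1 - r) := by positivity
  set X : ℝ := (((((d.det : ℚ) : ℝ) * (Matrix.of A).det) ^ ((r : ℝ) / ((m : ℝ) + 1)) /
    ∏ k ∈ re_T (m + 1) r, t k) ^ (m + 1 - r)) with hX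
  have hX0 : 0 ≤ X := by
    have : 0 < ∏ k ∈ re_T (m + 1) r, t k := Finset.prod_pos fun k _ => hred.pos k
    positivity
  calc ENNReal.ofReal (P * ((q : ℝ) ^ (m + 1 - r) * (2 ^ (m + 1) * (3 ^ (m + 1) * ∏ k, B k) ^ r *
        (5 ^ (m + 1) * (2 ^ ((m + 1) ^ 2) * ∏ k ∈ re_T (m + 1) r, B k)) ^ (m + 1 - r))))
      ≤ ENNReal.ofReal ((2 * ((m + 1).factorial : ℝ) * re_K m c0 * P ^ (4 * (m + 1) ^ 3)) *
        (((q : ℝ) ^ (m + 1 - r) *
          N ^ ((r : ℝ) + (r : ℝ) * ((m : ℝ) + 1 - r) / ((m : ℝ) + 1))) * X)) := by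
        refine ENNReal.ofReal_le_ofReal ?_
        have k1 := mul_le_mul_of_nonneg_left halg hq0
        refine le_trans (le_of_eq (by ring)) (k1.trans ?_)
        have k2 : (q : ℝ) ^ (m + 1 - r) * (re_K m c0 * P ^ (4 * (m + 1) ^ 3) *
            N ^ ((r : ℝ) + (r : ℝ) * ((m : ℝ) + 1 - r) / ((m : ℝ) + 1)) * X) =
            (re_K m c0 * P ^ (4 * (m + 1) ^ 3)) * (((q : ℝ) ^ (m + 1 - r) *
              N ^ ((r : ℝ) + (r : ℝ) * ((m : ℝ) + 1 - r) / ((m : ℝ) + 1))) * X) := by ring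
        rw [k2]
        refine mul_le_mul_of_nonneg_right ?_ (by positivity)
        refine mul_le_mul_of_nonneg_right ?_ (by positivity)
        nlinarith
    _ = ENNReal.ofReal (2 * ((m + 1).factorial : ℝ) * re_K m c0 * P ^ (4 * (m + 1) ^ 3)) *
        (ENNReal.ofReal ((q : ℝ) ^ (m + 1 - r) *
          N ^ ((r : ℝ) + (r : ℝ) * ((m : ℝ) + 1 - r) / ((m : ℝ) + 1))) * ENNReal.ofReal X) := by
        rw [ENNReal.ofReal_mul (p := 2 * ((m + 1).factorial : ℝ) * re_K m c0 *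
          P ^ (4 * (m + 1) ^ 3)) (by positivity),
          ENNReal.ofReal_mul (p := (q : ℝ) ^ (m + 1 - r) *
            N ^ ((r : ℝ) + (r : ℝ) * ((m : ℝ) + 1 - r) / ((m : ℝ) + 1))) (by positivity)]
    _ ≤ _ := by
        refine mul_le_mul' (le_refl _) (mul_le_mul' (le_refl _) ?_)
        rw [← hinv]
        exact hpsi

end

end Pool.Agent.SGB

namespace Pool.Agent.SGB

alias zeta_count := zeta_count_pr

end Pool.Agent.SGB
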