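import Pool.Agent.Lib_helper56.SGB.Defs
import Pool.Agent.Lib_helper56.SGB.F.HD
import Pool.Agent.Lib_helper56.SGB.F.HH
import Pool.Agent.Lib_helper56.SGB.F.HI

/-!
# SGN, part B, block SA: the vector `u`
-/

set_option autoImplicit false

namespace Pool.Agent.SGB

open MeasureTheory Matrix
open Pool.Agent.RS (Mt lm SLZ)
open Pool.Agent.GLQ (re unip cube slab Xp wN IN rm rr qq Lat latt Lz IsRed RY Om Box Kern IsInv Bd sp)
open Pool.Agent.SGN (md repR repL heckeT heckeA supS subS UW Wd lw nf WOk uvec unrm xval)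
open scoped ENNReal

noncomputable section

open Classical in
theorem sa_sp {V : Type} (nb : V → Finset V) (f : V →₀ ℕ) (M : V) :
    sp nb f M = ∑ L ∈ f.support, if M ∈ nb L then f L else 0 := by
  unfold sp
  rw [Finsupp.sum_apply, Finsupp.sum]
  refine Finset.sum_congr rfl fun L _ => ?_
  rw [Finsupp.finset_sum_apply]
  simp only [Finsupp.single_apply]
  rw [Finset.sum_ite_eq']

theorem sa_cons (n k : ℕ) (W : Wd) : UW n (k :: W.1, W.2) = sp (supS k) (UW n W) := rfl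

theorem sa_wt (k : ℕ) (W : Wd) :
    Pool.Agent.SGN.wt (k :: W.1, W.2) = k * Pool.Agent.SGN.wt W := by
  simp [Pool.Agent.SGN.wt, mul_assoc]

theorem sa_wt_pos {W : Wd} (hW : (∀ a ∈ W.1, 1 ≤ a) ∧ ∀ b ∈ W.2, 1 ≤ b) :
    0 < Pool.Agent.SGN.wt W := by
  unfold Pool.Agent.SGN.wt
  refine Nat.mul_pos (List.prod_pos fun a ha => hW.1 a ha) (List.prod_pos fun a ha => hW.2 a ha)

/-- at most one `k` -/
theorem sa_one {m : ℕ} {W : Wd} (hW : (∀ a ∈ W.1, 1 ≤ a) ∧ ∀ b ∈ W.2, 1 ≤ b) {k k' : ℕ}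
    (hk : 1 ≤ k) (hk' : 1 ≤ k') {L : Lat (m + 1)} (h : UW (m + 1) (k :: W.1, W.2) L ≠ 0)
    (h' : UW (m + 1) (k' :: W.1, W.2) L ≠ 0) : k = k' := by
  have hW1 : (∀ a ∈ (k :: W.1), 1 ≤ a) ∧ ∀ b ∈ W.2, 1 ≤ b :=
    ⟨by
      intro a ha
      rcases List.mem_cons.1 ha with rfl | ha
      · exact hk
      · exact hW.1 a ha, hW.2⟩
  have hW2 : (∀ a ∈ (k' :: W.1), 1 ≤ a) ∧ ∀ b ∈ W.2, 1 ≤ b :=
    ⟨by
      intro a ha
      rcases List.mem_cons.1 ha with rfl | ha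
      · exact hk'
      · exact hW.1 a ha, hW.2⟩
  obtain ⟨_, d, hd, h1⟩ := UW_supp (W := (k :: W.1, W.2)) hW1 h
  obtain ⟨_, e, he, h2⟩ := UW_supp (W := (k' :: W.1, W.2)) hW2 h'
  have hde := IsB_det hd he
  have hpos : 0 < d.det := hd.1
  have hP : 0 < W.1.prod := List.prod_pos fun a ha => hW.1 a ha
  have hPq : (0 : ℚ) < (W.1.prod : ℚ) := by exact_mod_cast hP
  rw [← hde] at h2
  have h3 : (((k :: W.1).prod : ℕ) : ℚ) * d.det = (((k' :: W.1).prod : ℕ) : ℚ) * d.det := by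
    rw [h1, h2]
  rw [List.prod_cons, List.prod_cons] at h3
  push_cast at h3
  have h4 : ((k : ℚ) - k') * ((W.1.prod : ℚ) * d.det) = 0 := by
    have : (W.1.map (fun a : ℕ => (a : ℚ))).prod = ((W.1.prod : ℕ) : ℚ) := by
      rw [Nat.cast_list_prod]
    first
      | linarith
      | (rw [this] at h3; linarith)
  rcases mul_eq_zero.1 h4 with h5 | h5
  · have : (k : ℚ) = k' := by linarith
    exact_mod_cast this
  · exact absurd h5 (mul_pos hPq hpos).ne'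

theorem sa_le_mass {m : ℕ} {W : Wd} (hW : (∀ a ∈ W.1, 1 ≤ a) ∧ ∀ b ∈ W.2, 1 ≤ b) (k : ℕ)
    (L : Lat (m + 1)) :
    UW (m + 1) (k :: W.1, W.2) L ≤ (Pool.Agent.SGN.wt W) ^ (2 * (m + 1)) := by
  classical
  refine le_trans ?_ (UW_mass (m := m) hW)
  rw [sa_cons, sa_sp, Finsupp.sum]
  refine Finset.sum_le_sum fun K _ => ?_
  split_ifs
  · exact le_rfl
  · exact Nat.zero_le _

/-- one word -/
theorem sa_word {m : ℕ} (W : Wd) (k : ℕ) (S : Finset (Lat (m + 1)))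
    (g : Lat (m + 1) → ℝ≥0∞) :
    ∑ L ∈ S, (UW (m + 1) (k :: W.1, W.2) L : ℝ≥0∞) * g L ≤
      (UW (m + 1) W).sum fun K x => (x : ℝ≥0∞) * ∑ L ∈ supS k K, g L := by
  classical
  rw [Finsupp.sum]
  calc ∑ L ∈ S, (UW (m + 1) (k :: W.1, W.2) L : ℝ≥0∞) * g L
      = ∑ L ∈ S, ∑ K ∈ (UW (m + 1) W).support,
          (UW (m + 1) W K : ℝ≥0∞) * (if L ∈ supS k K then g L else 0) := by
        refine Finset.sum_congr rfl fun L _ => ?_
        rw [sa_cons, sa_sp, Nat.cast_sum, Finset.sum_mul]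
        refine Finset.sum_congr rfl fun K _ => ?_
        split_ifs <;> simp
    _ = ∑ K ∈ (UW (m + 1) W).support, (UW (m + 1) W K : ℝ≥0∞) *
          ∑ L ∈ S, (if L ∈ supS k K then g L else 0) := by
        rw [Finset.sum_comm]
        refine Finset.sum_congr rfl fun K _ => ?_
        rw [Finset.mul_sum]
    _ ≤ _ := by
        refine Finset.sum_le_sum fun K _ => ?_
        refine mul_le_mul_right ?_ _
        rw [← Finset.sum_filter]
        refine Finset.sum_le_sum_of_subset ?_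
        intro L hL
        exact (Finset.mem_filter.1 hL).2

/-- the terms of `u` -/
def sa_w (m : ℕ) (c : ℕ → Wd → ℂ) (k : ℕ) (W : Wd) (L : Lat (m + 1)) : ℂ :=
  c k W * (nf (m + 1) (k :: W.1, W.2) : ℝ) * (UW (m + 1) (k :: W.1, W.2) L : ℂ)

theorem sa_nf (m k : ℕ) {W : Wd} :
    nf (m + 1) (k :: W.1, W.2) ^ 2 = ((k : ℝ) * (Pool.Agent.SGN.wt W : ℝ)) ^ (-(m : ℝ)) := by
  unfold nf
  rw [sa_wt, ← Real.rpow_natCast, ← Real.rpow_mul (by positivity)]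
  push_cast
  congr 1
  ring

theorem sa_term {m : ℕ} (c : ℕ → Wd → ℂ) {W : Wd}
    (hW : (∀ a ∈ W.1, 1 ≤ a) ∧ ∀ b ∈ W.2, 1 ≤ b) (k : ℕ) (L : Lat (m + 1)) :
    ENNReal.ofReal (‖sa_w m c k W L‖ ^ 2) ≤
      ENNReal.ofReal (‖c k W‖ ^ 2 * ((k : ℝ) * (Pool.Agent.SGN.wt W : ℝ)) ^ (-(m : ℝ)) *
        (Pool.Agent.SGN.wt W : ℝ) ^ (2 * (m + 1))) *
        (UW (m + 1) (k :: W.1, W.2) L : ℝ≥0∞) := by
  set x := UW (m + 1) (k :: W.1, W.2) L with hx
  have h0 : (x : ℝ) ≤ (Pool.Agent.SGN.wt W : ℝ) ^ (2 * (m + 1)) := by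
    have := sa_le_mass hW k L
    rw [← hx] at this
    exact_mod_cast this
  have hx0 : (0 : ℝ) ≤ x := Nat.cast_nonneg _
  have h1 : ‖sa_w m c k W L‖ ^ 2 = ‖c k W‖ ^ 2 *
      ((k : ℝ) * (Pool.Agent.SGN.wt W : ℝ)) ^ (-(m : ℝ)) * ((x : ℝ) * x) := by
    unfold sa_w
    rw [norm_mul, norm_mul, ← hx, mul_pow, mul_pow, Complex.norm_real, Real.norm_eq_abs, sq_abs,
      sa_nf, Complex.norm_natCast]
    ring
  have h2 : ‖sa_w m c k W L‖ ^ 2 ≤ (‖c k W‖ ^ 2 *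
      ((k : ℝ) * (Pool.Agent.SGN.wt W : ℝ)) ^ (-(m : ℝ)) *
        (Pool.Agent.SGN.wt W : ℝ) ^ (2 * (m + 1))) * (x : ℝ) := by
    rw [h1, mul_assoc (‖c k W‖ ^ 2 * _)]
    refine mul_le_mul_of_nonneg_left ?_ (by positivity)
    exact mul_le_mul_of_nonneg_right h0 hx0
  calc ENNReal.ofReal (‖sa_w m c k W L‖ ^ 2) ≤ _ := ENNReal.ofReal_le_ofReal h2
    _ = _ := by
        rw [ENNReal.ofReal_mul (by positivity), ENNReal.ofReal_natCast]

theorem sa_norm {m : ℕ} (N : ℕ) (V : Finset Wd) (c : ℕ → Wd → ℂ)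
    (hV : ∀ W ∈ V, (∀ a ∈ W.1, 1 ≤ a) ∧ ∀ b ∈ W.2, 1 ≤ b) (L : Lat (m + 1)) :
    ‖uvec (m + 1) N V c L‖ ^ 2 ≤
      (V.card : ℝ) * ∑ k ∈ Finset.Icc 1 N, ∑ W ∈ V, ‖sa_w m c k W L‖ ^ 2 := by
  have h1 : uvec (m + 1) N V c L = ∑ W ∈ V, ∑ k ∈ Finset.Icc 1 N, sa_w m c k W L := by
    unfold uvec
    rw [Finset.sum_comm]
    rfl
  have h2 : ∀ W ∈ V, ‖∑ k ∈ Finset.Icc 1 N, sa_w m c k W L‖ ^ 2 ≤
      ∑ k ∈ Finset.Icc 1 N, ‖sa_w m c k W L‖ ^ 2 := by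
    intro W hW
    by_cases hex : ∃ k ∈ Finset.Icc 1 N, sa_w m c k W L ≠ 0
    · obtain ⟨k, hk, hne⟩ := hex
      have hU : UW (m + 1) (k :: W.1, W.2) L ≠ 0 := by
        intro h
        apply hne
        unfold sa_w
        rw [h, Nat.cast_zero, mul_zero]
      have hz : ∀ j ∈ Finset.Icc 1 N, j ≠ k → sa_w m c j W L = 0 := by
        intro j hj hjk
        by_contra hne'
        have hU' : UW (m + 1) (j :: W.1, W.2) L ≠ 0 := by
          intro h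
          apply hne'
          unfold sa_w
          rw [h, Nat.cast_zero, mul_zero]
        exact hjk (sa_one (hV W hW) (Finset.mem_Icc.1 hj).1 (Finset.mem_Icc.1 hk).1 hU' hU)
      rw [Finset.sum_eq_single_of_mem k hk hz]
      exact Finset.single_le_sum (f := fun k => ‖sa_w m c k W L‖ ^ 2)
        (fun j _ => sq_nonneg _) hk
    · push Not at hex
      rw [Finset.sum_eq_zero hex]
      simp only [norm_zero]
      rw [zero_pow two_ne_zero]
      exact Finset.sum_nonneg fun j _ => sq_nonneg _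
  rw [h1, Finset.sum_comm (s := Finset.Icc 1 N)]
  calc ‖∑ W ∈ V, ∑ k ∈ Finset.Icc 1 N, sa_w m c k W L‖ ^ 2
      ≤ (∑ W ∈ V, ‖∑ k ∈ Finset.Icc 1 N, sa_w m c k W L‖) ^ 2 :=
        pow_le_pow_left₀ (norm_nonneg _) (norm_sum_le _ _) 2
    _ ≤ (V.card : ℝ) * ∑ W ∈ V, ‖∑ k ∈ Finset.Icc 1 N, sa_w m c k W L‖ ^ 2 :=
        sq_sum_le_card_mul_sum_sq
    _ ≤ _ := mul_le_mul_of_nonneg_left (Finset.sum_le_sum h2) (Nat.cast_nonneg _)

theorem u_sum_pr (m N : ℕ) (V : Finset Wd) (c : ℕ → Wd → ℂ)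
    (hV : ∀ W ∈ V, (∀ a ∈ W.1, 1 ≤ a) ∧ ∀ b ∈ W.2, 1 ≤ b) (S : Finset (Lat (m + 1)))
    (g : Lat (m + 1) → ℝ≥0∞) :
    ∑ L ∈ S, ENNReal.ofReal (‖uvec (m + 1) N V c L‖ ^ 2) * g L ≤
      (V.card : ℝ≥0∞) * ∑ k ∈ Finset.Icc 1 N, ∑ W ∈ V,
        ENNReal.ofReal (‖c k W‖ ^ 2 * ((k : ℝ) * (Pool.Agent.SGN.wt W : ℝ)) ^ (-(m : ℝ)) *
          (Pool.Agent.SGN.wt W : ℝ) ^ (2 * (m + 1))) *
        (UW (m + 1) W).sum fun K x => (x : ℝ≥0∞) * ∑ L ∈ supS k K, g L := by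
  have h1 : ∀ L ∈ S, ENNReal.ofReal (‖uvec (m + 1) N V c L‖ ^ 2) * g L ≤
      (V.card : ℝ≥0∞) * ∑ k ∈ Finset.Icc 1 N, ∑ W ∈ V,
        ENNReal.ofReal (‖c k W‖ ^ 2 * ((k : ℝ) * (Pool.Agent.SGN.wt W : ℝ)) ^ (-(m : ℝ)) *
          (Pool.Agent.SGN.wt W : ℝ) ^ (2 * (m + 1))) *
        ((UW (m + 1) (k :: W.1, W.2) L : ℝ≥0∞) * g L) := by
    intro L _
    have h2 : ENNReal.ofReal (‖uvec (m + 1) N V c L‖ ^ 2) ≤
        (V.card : ℝ≥0∞) * ∑ k ∈ Finset.Icc 1 N, ∑ W ∈ V,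
          ENNReal.ofReal (‖sa_w m c k W L‖ ^ 2) := by
      calc ENNReal.ofReal (‖uvec (m + 1) N V c L‖ ^ 2) ≤ _ :=
            ENNReal.ofReal_le_ofReal (sa_norm N V c hV L)
        _ = _ := by
            rw [ENNReal.ofReal_mul (Nat.cast_nonneg _), ENNReal.ofReal_natCast,
              ENNReal.ofReal_sum_of_nonneg
                (fun k _ => Finset.sum_nonneg fun W _ => sq_nonneg _)]
            congr 1
            refine Finset.sum_congr rfl fun k _ => ?_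
            rw [ENNReal.ofReal_sum_of_nonneg (fun W _ => sq_nonneg _)]
    refine (mul_le_mul_left h2 _).trans ?_
    rw [mul_assoc]
    refine mul_le_mul_right ?_ _
    rw [Finset.sum_mul]
    refine Finset.sum_le_sum fun k _ => ?_
    rw [Finset.sum_mul]
    refine Finset.sum_le_sum fun W hW => ?_
    rw [← mul_assoc]
    exact mul_le_mul_left (sa_term c (hV W hW) k L) _
  refine (Finset.sum_le_sum h1).trans ?_
  rw [← Finset.mul_sum]
  refine mul_le_mul_right ?_ _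
  rw [Finset.sum_comm]
  refine Finset.sum_le_sum fun k _ => ?_
  rw [Finset.sum_comm]
  refine Finset.sum_le_sum fun W _ => ?_
  rw [← Finset.mul_sum]
  exact mul_le_mul_right (sa_word W k S g) _

open Classical in
/-- a finite set which contains all supports -/
def sa_T (m N : ℕ) (V : Finset Wd) : Finset (Lat (m + 1)) :=
  (Finset.Icc 1 N).biUnion fun k => V.biUnion fun W => (UW (m + 1) (k :: W.1, W.2)).support

theorem sa_mem_T {m N : ℕ} {V : Finset Wd} {L : Lat (m + 1)} :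
    L ∈ sa_T m N V ↔ ∃ k ∈ Finset.Icc 1 N, ∃ W ∈ V, UW (m + 1) (k :: W.1, W.2) L ≠ 0 := by
  unfold sa_T
  simp only [Finset.mem_biUnion, Finsupp.mem_support_iff]

theorem sa_uvec_zero {m N : ℕ} {V : Finset Wd} (c : ℕ → Wd → ℂ) {L : Lat (m + 1)}
    (h : L ∉ sa_T m N V) : uvec (m + 1) N V c L = 0 := by
  rw [sa_mem_T] at h
  push Not at h
  unfold uvec
  refine Finset.sum_eq_zero fun k hk => Finset.sum_eq_zero fun W hW => ?_
  rw [h k hk W hW, Nat.cast_zero, mul_zero]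

theorem u_supp_pr (m N : ℕ) (V : Finset Wd) (c : ℕ → Wd → ℂ)
    (hV : ∀ W ∈ V, (∀ a ∈ W.1, 1 ≤ a) ∧ ∀ b ∈ W.2, 1 ≤ b) :
    ∃ u : Lat (m + 1) →₀ ℂ, (∀ L, u L = uvec (m + 1) N V c L) ∧
      unrm (m + 1) N V c = ∑ L ∈ u.support, ‖u L‖ ^ 2 ∧
      ∀ L ∈ u.support, ∃ k ∈ Finset.Icc 1 N, ∃ W ∈ V, UW (m + 1) (k :: W.1, W.2) L ≠ 0 := by
  classical
  have _ := hV
  let u : Lat (m + 1) →₀ ℂ := Finsupp.onFinset (sa_T m N V) (fun L => uvec (m + 1) N V c L)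
    (fun L hL => by
      by_contra h
      exact hL (sa_uvec_zero c h))
  have hu : ∀ L, u L = uvec (m + 1) N V c L := fun L => rfl
  refine ⟨u, hu, ?_, ?_⟩
  · unfold unrm
    rw [tsum_eq_sum (s := u.support)]
    · rfl
    · intro L hL
      have : u L = 0 := Finsupp.notMem_support_iff.1 hL
      rw [← hu, this, norm_zero, zero_pow two_ne_zero]
  · intro L hL
    rw [← sa_mem_T]
    by_contra h
    exact Finsupp.mem_support_iff.1 hL ((hu L).trans (sa_uvec_zero c h))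

/-- the eigenvalue of `u` -/
theorem u_val_pr {m q : ℕ} [NeZero q] {k0 : Mt (m + 1) → ℂ} {f : Fm m q} {lam : ℕ → ℂ}
    (hf : Eg m q k0 f lam) (N : ℕ) (V : Finset Wd) (c : ℕ → Wd → ℂ) (hV : ∀ W ∈ V, WOk q W)
    (hN : ∀ k ∈ Finset.Icc 1 N, k.Coprime q) (u : Lat (m + 1) →₀ ℂ)
    (hu : ∀ L, u L = uvec (m + 1) N V c L) (A : Mt (m + 1)) (hA : 0 < (Matrix.of A).det)
    (x : Fin (m + 1) → ZMod q) :
    (u.sum fun L z => z * fV f A x L) = xval N V c lam * f (Matrix.of A) x := by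
  classical
  have hsub : u.support ⊆ sa_T m N V := by
    intro L hL
    by_contra h
    exact Finsupp.mem_support_iff.1 hL ((hu L).trans (sa_uvec_zero c h))
  have h1 : (u.sum fun L z => z * fV f A x L) =
      ∑ L ∈ sa_T m N V, uvec (m + 1) N V c L * fV f A x L := by
    rw [Finsupp.sum_of_support_subset u hsub (fun L z => z * fV f A x L)
      (fun L _ => zero_mul _)]
    exact Finset.sum_congr rfl fun L _ => by rw [hu]
  have h2 : ∑ L ∈ sa_T m N V, uvec (m + 1) N V c L * fV f A x L =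
      ∑ k ∈ Finset.Icc 1 N, ∑ W ∈ V, c k W * (nf (m + 1) (k :: W.1, W.2) : ℝ) *
        ∑ L ∈ sa_T m N V, (UW (m + 1) (k :: W.1, W.2) L : ℂ) * fV f A x L := by
    have : ∀ L ∈ sa_T m N V, uvec (m + 1) N V c L * fV f A x L =
        ∑ k ∈ Finset.Icc 1 N, ∑ W ∈ V, c k W * (nf (m + 1) (k :: W.1, W.2) : ℝ) *
          ((UW (m + 1) (k :: W.1, W.2) L : ℂ) * fV f A x L) := by
      intro L _
      unfold uvec
      rw [Finset.sum_mul]
      refine Finset.sum_congr rfl fun k _ => ?_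
      rw [Finset.sum_mul]
      refine Finset.sum_congr rfl fun W _ => ?_
      ring
    rw [Finset.sum_congr rfl this, Finset.sum_comm]
    refine Finset.sum_congr rfl fun k _ => ?_
    rw [Finset.sum_comm]
    refine Finset.sum_congr rfl fun W _ => ?_
    rw [Finset.mul_sum]
  rw [h1, h2]
  unfold xval
  rw [Finset.sum_mul]
  refine Finset.sum_congr rfl fun k hk => ?_
  rw [Finset.sum_mul]
  refine Finset.sum_congr rfl fun W hW => ?_
  have hk1 := (Finset.mem_Icc.1 hk).1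
  have hWok : WOk q (k :: W.1, W.2) := by
    refine ⟨?_, (hV W hW).2⟩
    intro a ha
    rcases List.mem_cons.1 ha with rfl | ha
    · exact ⟨hk1, hN a hk⟩
    · exact (hV W hW).1 a ha
  have hval := UW_val hf hWok A hA x
  have h3 : ∑ L ∈ sa_T m N V, (UW (m + 1) (k :: W.1, W.2) L : ℂ) * fV f A x L =
      (UW (m + 1) (k :: W.1, W.2)).sum fun L c => (c : ℂ) * fV f A x L := by
    have hs : (UW (m + 1) (k :: W.1, W.2)).support ⊆ sa_T m N V := by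
      intro L hL
      exact sa_mem_T.2 ⟨k, hk, W, hW, Finsupp.mem_support_iff.1 hL⟩
    rw [Finsupp.sum_of_support_subset _ hs (fun L (z : ℕ) => (z : ℂ) * fV f A x L)
      (fun L _ => by rw [Nat.cast_zero, zero_mul])]
  rw [h3, hval]
  have hwt : 0 < Pool.Agent.SGN.wt (k :: W.1, W.2) := by
    refine sa_wt_pos ⟨fun a ha => (hWok.1 a ha).1, fun a ha => (hWok.2 a ha).1⟩
  have hwt' : (0 : ℝ) < (Pool.Agent.SGN.wt (k :: W.1, W.2) : ℝ) := by exact_mod_cast hwt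
  have h4 : nf (m + 1) (k :: W.1, W.2) *
      (Pool.Agent.SGN.wt (k :: W.1, W.2) : ℝ) ^ ((m : ℝ) / 2) = 1 := by
    unfold nf
    rw [← Real.rpow_add hwt']
    push_cast
    rw [show -(((m : ℝ) + 1 - 1) / 2) + (m : ℝ) / 2 = 0 by ring, Real.rpow_zero]
  have h5 : lw lam (k :: W.1, W.2) = lam k * lw lam W := by
    unfold lw
    simp only [List.map_cons, List.prod_cons]
    ring
  rw [h5]
  have h6 : ((nf (m + 1) (k :: W.1, W.2) : ℝ) : ℂ) *
      (((Pool.Agent.SGN.wt (k :: W.1, W.2) : ℝ) ^ ((m : ℝ) / 2) : ℝ) : ℂ) = 1 := by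
    rw [← Complex.ofReal_mul, h4, Complex.ofReal_one]
  calc c k W * (nf (m + 1) (k :: W.1, W.2) : ℝ) *
        ((((Pool.Agent.SGN.wt (k :: W.1, W.2) : ℝ) ^ ((m : ℝ) / 2) : ℝ) : ℂ) *
          (lam k * lw lam W) * f (Matrix.of A) x)
      = (((nf (m + 1) (k :: W.1, W.2) : ℝ) : ℂ) *
          (((Pool.Agent.SGN.wt (k :: W.1, W.2) : ℝ) ^ ((m : ℝ) / 2) : ℝ) : ℂ)) *
          (c k W * lam k * lw lam W * f (Matrix.of A) x) := by ring
    _ = _ := by rw [h6, one_mul]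

end

end Pool.Agent.SGB

namespace Pool.Agent.SGB

alias u_sum := u_sum_pr
alias u_supp := u_supp_pr
alias u_val := u_val_pr

end Pool.Agent.SGB
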