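import Pool.Agent.Lib_helper56.SGB.Defs

/-!
# Project SGN, part B, block SB: elementary estimates
-/

set_option autoImplicit false

namespace Pool.Agent.SGB

open MeasureTheory Matrix
open Pool.Agent.RS (Mt lm SLZ)
open Pool.Agent.GLQ (re unip cube slab Xp wN IN rm rr qq Lat latt Lz IsRed RY Om Box Kern IsInv Bd sp)
open Pool.Agent.SGN (md repR repL heckeT heckeA supS subS UW Wd lw nf WOk uvec unrm xval)
open scoped ENNReal

noncomputable section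

theorem sb_card_divisors_mul (a b : ℕ) :
    (a * b).divisors.card ≤ a.divisors.card * b.divisors.card := by
  rw [Nat.divisors_mul]
  exact Finset.card_mul_le

/-- `D_n(N) = ∑_{k ≤ N} d(k)^n / k` -/
def sbD (n N : ℕ) : ℝ := ∑ k ∈ Finset.Icc 1 N, (k.divisors.card : ℝ) ^ n * (k : ℝ)⁻¹

theorem sb_D_nonneg (n N : ℕ) : 0 ≤ sbD n N := by
  unfold sbD
  positivity

theorem sb_D_succ (n N : ℕ) : sbD (n + 1) N ≤ sbD n N ^ 2 := by
  have h1 : sbD (n + 1) N =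
      ∑ k ∈ Finset.Icc 1 N, ∑ p ∈ k.divisorsAntidiagonal,
        (((p.1 * p.2).divisors.card : ℝ)) ^ n * ((p.1 : ℝ) * p.2)⁻¹ := by
    unfold sbD
    apply Finset.sum_congr rfl
    intro k hk
    have : ∀ p ∈ k.divisorsAntidiagonal,
        (((p.1 * p.2).divisors.card : ℝ)) ^ n * ((p.1 : ℝ) * p.2)⁻¹ =
        (k.divisors.card : ℝ) ^ n * (k : ℝ)⁻¹ := by
      intro p hp
      have := (Nat.mem_divisorsAntidiagonal.mp hp).1
      rw [← this]
      push_cast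
      rfl
    rw [Finset.sum_congr rfl this, Finset.sum_const, nsmul_eq_mul]
    have hc : k.divisorsAntidiagonal.card = k.divisors.card := by
      rw [← Nat.map_div_right_divisors, Finset.card_map]
    rw [hc]
    ring
  have h2 : sbD n N ^ 2 = ∑ p ∈ Finset.Icc 1 N ×ˢ Finset.Icc 1 N,
      ((p.1.divisors.card : ℝ) ^ n * (p.1 : ℝ)⁻¹) * ((p.2.divisors.card : ℝ) ^ n * (p.2 : ℝ)⁻¹) := by
    rw [sq]
    unfold sbD
    rw [Finset.sum_mul_sum, Finset.sum_product]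
  rw [h1, h2, ← Finset.sum_sigma (Finset.Icc 1 N) (fun k => k.divisorsAntidiagonal)
    (fun x => (((x.2.1 * x.2.2).divisors.card : ℝ)) ^ n * ((x.2.1 : ℝ) * x.2.2)⁻¹)]
  have hinj : Set.InjOn (fun x : (_ : ℕ) × ℕ × ℕ => x.2)
      ((Finset.Icc 1 N).sigma fun k => k.divisorsAntidiagonal : Set ((_ : ℕ) × ℕ × ℕ)) := by
    rintro ⟨k, p⟩ hx ⟨k', p'⟩ hx' h
    simp only [Finset.coe_sigma, Set.mem_sigma_iff, Finset.mem_coe,
      Nat.mem_divisorsAntidiagonal] at hx hx'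
    simp only at h
    subst h
    have : k = k' := by rw [← hx.2.1, ← hx'.2.1]
    subst this
    rfl
  calc ∑ x ∈ (Finset.Icc 1 N).sigma fun k => k.divisorsAntidiagonal,
        (((x.2.1 * x.2.2).divisors.card : ℝ)) ^ n * ((x.2.1 : ℝ) * x.2.2)⁻¹
      = ∑ p ∈ ((Finset.Icc 1 N).sigma fun k => k.divisorsAntidiagonal).image (fun x => x.2),
        (((p.1 * p.2).divisors.card : ℝ)) ^ n * ((p.1 : ℝ) * p.2)⁻¹ := by
        rw [Finset.sum_image hinj]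
    _ ≤ ∑ p ∈ ((Finset.Icc 1 N).sigma fun k => k.divisorsAntidiagonal).image (fun x => x.2),
        ((p.1.divisors.card : ℝ) ^ n * (p.1 : ℝ)⁻¹) *
          ((p.2.divisors.card : ℝ) ^ n * (p.2 : ℝ)⁻¹) := by
        apply Finset.sum_le_sum
        intro p _
        have h3 : (((p.1 * p.2).divisors.card : ℝ)) ^ n ≤
            ((p.1.divisors.card : ℝ) * (p.2.divisors.card : ℝ)) ^ n := by
          apply pow_le_pow_left₀ (by positivity)
          exact_mod_cast sb_card_divisors_mul p.1 p.2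
        calc (((p.1 * p.2).divisors.card : ℝ)) ^ n * ((p.1 : ℝ) * p.2)⁻¹
            ≤ ((p.1.divisors.card : ℝ) * (p.2.divisors.card : ℝ)) ^ n * ((p.1 : ℝ) * p.2)⁻¹ := by
              apply mul_le_mul_of_nonneg_right h3 (by positivity)
          _ = _ := by rw [mul_pow, mul_inv]; ring
    _ ≤ _ := by
        apply Finset.sum_le_sum_of_subset_of_nonneg
        · intro p hp
          rw [Finset.mem_image] at hp
          obtain ⟨⟨k, p'⟩, hx, rfl⟩ := hp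
          simp only [Finset.mem_sigma, Finset.mem_Icc, Nat.mem_divisorsAntidiagonal] at hx
          obtain ⟨⟨hk1, hkN⟩, hmul, hk0⟩ := hx
          rw [Finset.mem_product, Finset.mem_Icc, Finset.mem_Icc]
          have ha : p'.1 ∣ k := ⟨p'.2, hmul.symm⟩
          have hb : p'.2 ∣ k := ⟨p'.1, by rw [mul_comm]; exact hmul.symm⟩
          exact ⟨⟨Nat.pos_of_dvd_of_pos ha hk1, (Nat.le_of_dvd hk1 ha).trans hkN⟩,
            ⟨Nat.pos_of_dvd_of_pos hb hk1, (Nat.le_of_dvd hk1 hb).trans hkN⟩⟩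
        · intro p _ _
          positivity

theorem sb_D_zero (N : ℕ) : sbD 0 N ≤ 1 + Real.log N := by
  unfold sbD
  simp only [pow_zero, one_mul]
  have := harmonic_le_one_add_log N
  rw [harmonic_eq_sum_Icc] at this
  push_cast at this
  exact this

theorem sb_D_le (n N : ℕ) (_ : 1 ≤ N) : sbD n N ≤ (1 + Real.log N) ^ (2 ^ n) := by
  induction n with
  | zero => simpa using sb_D_zero N
  | succ n ih =>
    calc sbD (n + 1) N ≤ sbD n N ^ 2 := sb_D_succ n N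
      _ ≤ ((1 + Real.log N) ^ (2 ^ n)) ^ 2 := pow_le_pow_left₀ (sb_D_nonneg n N) ih 2
      _ = _ := by rw [← pow_mul, ← pow_succ]

/-- `∑_{k ≤ N} d(k)^n / k ≤ C N^ε` -/
theorem div_sum_pr (n : ℕ) (ε : ℝ) (hε : 0 < ε) : ∃ C : ℝ, 0 < C ∧ ∀ N : ℕ, 1 ≤ N →
    ∑ k ∈ Finset.Icc 1 N, (k.divisors.card : ℝ) ^ n * (k : ℝ)⁻¹ ≤ C * (N : ℝ) ^ ε := by
  set K : ℕ := 2 ^ n with hK
  have hK0 : (0 : ℝ) < K := by positivity
  set δ : ℝ := ε / K with hδ
  have hδ0 : 0 < δ := by positivity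
  refine ⟨(1 + 1 / δ) ^ K, by positivity, ?_⟩
  intro N hN
  have hN1 : (1 : ℝ) ≤ N := by exact_mod_cast hN
  have hN0 : (0 : ℝ) ≤ N := by linarith
  have h1 : 1 + Real.log N ≤ (1 + 1 / δ) * (N : ℝ) ^ δ := by
    have h2 : Real.log N ≤ (N : ℝ) ^ δ / δ := Real.log_le_rpow_div hN0 hδ0
    have h3 : (1 : ℝ) ≤ (N : ℝ) ^ δ := Real.one_le_rpow hN1 hδ0.le
    have h4 : (1 + 1 / δ) * (N : ℝ) ^ δ = (N : ℝ) ^ δ + (N : ℝ) ^ δ / δ := by ring
    rw [h4]
    linarith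
  have h5 : 0 ≤ 1 + Real.log N := by
    have := Real.log_nonneg hN1
    linarith
  calc ∑ k ∈ Finset.Icc 1 N, (k.divisors.card : ℝ) ^ n * (k : ℝ)⁻¹
      ≤ (1 + Real.log N) ^ K := sb_D_le n N hN
    _ ≤ ((1 + 1 / δ) * (N : ℝ) ^ δ) ^ K := pow_le_pow_left₀ h5 h1 K
    _ = (1 + 1 / δ) ^ K * (N : ℝ) ^ ε := by
        rw [mul_pow, ← Real.rpow_natCast ((N : ℝ) ^ δ) K, ← Real.rpow_mul hN0, hδ]
        congr 2
        field_simp

/-- the exponents of `q`: `N ≤ q^(1/2 + κ)`, `κ = 1/(8 n²)` -/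
theorem expo_q_pr {m r : ℕ} (hm : 1 ≤ m) (hr : 1 ≤ r) (hr' : r ≤ m + 1) (q : ℝ) (hq : 1 ≤ q) :
    q ^ (m + 1 - r) * (q ^ (1 / 2 + 1 / (8 * ((m : ℝ) + 1) ^ 2))) ^
      ((r : ℝ) + (r : ℝ) * ((m : ℝ) + 1 - r) / ((m : ℝ) + 1)) ≤
      q ^ ((m : ℝ) + 1 - 3 / (8 * ((m : ℝ) + 1))) := by
  have hq0 : 0 < q := by linarith
  have hn : (0 : ℝ) < (m : ℝ) + 1 := by positivity
  have hr1 : (1 : ℝ) ≤ r := by exact_mod_cast hr
  have hr2 : (r : ℝ) ≤ (m : ℝ) + 1 := by exact_mod_cast hr'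
  rw [← Real.rpow_natCast q (m + 1 - r), ← Real.rpow_mul hq0.le, ← Real.rpow_add hq0]
  apply Real.rpow_le_rpow_of_exponent_le hq
  rw [Nat.cast_sub hr']
  push_cast
  set n : ℝ := (m : ℝ) + 1 with hndef
  set s : ℝ := (r : ℝ) with hs
  have key : n - 3 / (8 * n) - (n - s + (1 / 2 + 1 / (8 * n ^ 2)) * (s + s * (n - s) / n)) =
      (4 * s ^ 2 * n ^ 2 - s * (2 * n - s) - 3 * n ^ 2) / (8 * n ^ 3) := by
    field_simp
    ring
  have h2 : 0 ≤ (4 * s ^ 2 * n ^ 2 - s * (2 * n - s) - 3 * n ^ 2) / (8 * n ^ 3) := by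
    apply div_nonneg _ (by positivity)
    have h3 : s * (2 * n - s) ≤ n ^ 2 := by nlinarith [sq_nonneg (n - s)]
    have h4 : n ^ 2 ≤ s ^ 2 * n ^ 2 := by
      have : (1 : ℝ) ≤ s ^ 2 := by nlinarith
      nlinarith [sq_nonneg n]
    linarith
  linarith

end

end Pool.Agent.SGB

namespace Pool.Agent.SGB

alias div_sum := div_sum_pr
alias expo_q := expo_q_pr

end Pool.Agent.SGB
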