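import Pool.Agent.Lib_helper56.SGB.Defs
import Pool.Agent.Lib_helper56.SGB.F.HI

/-!
# Project SGN, part B, block SC1: supports
-/

set_option autoImplicit false

namespace Pool.Agent.SGB

open MeasureTheory Matrix
open Pool.Agent.RS (Mt lm SLZ)
open Pool.Agent.GLQ (re unip cube slab Xp wN IN rm rr qq Lat latt Lz IsRed RY Om Box Kern IsInv Bd sp)
open Pool.Agent.SGN (md repR repL heckeT heckeA supS subS UW Wd lw nf WOk uvec unrm xval)
open scoped ENNReal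

noncomputable section

theorem sc1_prod_pos {l : List ℕ} (h : ∀ a ∈ l, 1 ≤ a) : 1 ≤ l.prod := by
  induction l with
  | nil => simp
  | cons a l ih =>
    rw [List.prod_cons]
    have h1 := h a (by simp)
    have h2 := ih (fun b hb => h b (by simp [hb]))
    exact Nat.one_le_iff_ne_zero.mpr (Nat.mul_ne_zero (by omega) (by omega))

theorem sc1_aux {m : ℕ} {L : Lat (m + 1)} {A B k : ℕ} (hA : 1 ≤ A) (hB : 1 ≤ B) (hk : 1 ≤ k)
    {P N : ℝ} (hP : ((A * B : ℕ) : ℝ) ≤ P) (hN : (k : ℝ) ≤ N)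
    (h1 : ∀ v ∈ Lz (m + 1), ((B : ℕ) : ℚ) • v ∈ L)
    (h2 : ∃ d, IsB d L ∧ (((k * A : ℕ)) : ℚ) * d.det = ((B : ℕ) : ℚ)) :
    L ∈ NR (m + 1) N P := by
  obtain ⟨d, hd, hdet⟩ := h2
  have hA' : (1 : ℝ) ≤ A := by exact_mod_cast hA
  have hB' : (1 : ℝ) ≤ B := by exact_mod_cast hB
  have hk' : (1 : ℝ) ≤ k := by exact_mod_cast hk
  have hP' : (A : ℝ) * B ≤ P := by exact_mod_cast hP
  have hdet' : ((k : ℝ) * A) * (d.det : ℝ) = B := by exact_mod_cast hdet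
  have hd0 : (0 : ℝ) < (d.det : ℝ) := by exact_mod_cast hd.1
  have hBP : (B : ℝ) ≤ P := by nlinarith
  have hAP : (A : ℝ) ≤ P := by nlinarith
  have hP0 : 0 < P := by linarith
  have hN0 : 0 < N := by linarith
  refine ⟨d, hd, ?_, ?_, B, hB, hBP, h1⟩
  · rw [div_le_iff₀ (by positivity)]
    calc (1 : ℝ) ≤ B := hB'
      _ = ((k : ℝ) * A) * (d.det : ℝ) := hdet'.symm
      _ ≤ (N * P) * (d.det : ℝ) := by
        apply mul_le_mul_of_nonneg_right _ hd0.le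
        exact mul_le_mul hN hAP (by positivity) hN0.le
      _ = _ := by ring
  · have h3 : (1 : ℝ) ≤ (k : ℝ) * A := by nlinarith
    nlinarith

theorem UW_NR_pr {m : ℕ} {W : Wd} (hW : (∀ a ∈ W.1, 1 ≤ a) ∧ ∀ b ∈ W.2, 1 ≤ b) {P : ℝ}
    (hP : (Pool.Agent.SGN.wt W : ℝ) ≤ P) :
    (∀ K, UW (m + 1) W K ≠ 0 → K ∈ NR (m + 1) 1 P) ∧
    ∀ (N : ℝ) (k : ℕ), 1 ≤ k → (k : ℝ) ≤ N → ∀ L, UW (m + 1) (k :: W.1, W.2) L ≠ 0 →
      L ∈ NR (m + 1) N P := by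
  have hA := sc1_prod_pos hW.1
  have hB := sc1_prod_pos hW.2
  refine ⟨?_, ?_⟩
  · intro K hK
    obtain ⟨h1, h2⟩ := UW_supp hW hK
    refine sc1_aux (k := 1) hA hB le_rfl (by simpa [Pool.Agent.SGN.wt] using hP) (by simp) h1 ?_
    obtain ⟨d, hd, h⟩ := h2
    exact ⟨d, hd, by simpa using h⟩
  · intro N k hk hkN L hL
    have hW' : (∀ a ∈ (k :: W.1, W.2).1, 1 ≤ a) ∧ ∀ b ∈ (k :: W.1, W.2).2, 1 ≤ b := by
      refine ⟨?_, hW.2⟩
      intro a ha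
      rcases List.mem_cons.mp ha with rfl | ha
      · exact hk
      · exact hW.1 a ha
    obtain ⟨h1, h2⟩ := UW_supp hW' hL
    refine sc1_aux (k := k) hA hB hk (by simpa [Pool.Agent.SGN.wt] using hP) hkN h1 ?_
    obtain ⟨d, hd, h⟩ := h2
    exact ⟨d, hd, by simpa using h⟩

end

end Pool.Agent.SGB

namespace Pool.Agent.SGB

alias UW_NR := UW_NR_pr

end Pool.Agent.SGB
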