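import Pool.Agent.Lib_helper56.SGB.Defs
import Pool.Agent.Lib_helper56.SGB.F.HI
import Pool.Agent.Lib_helper56.SGB.F.PA
import Pool.Agent.Lib_helper56.SGB.F.PE
import Pool.Agent.Lib_helper56.SGB.F.RE
import Pool.Agent.Lib_helper56.SGB.F.SA
import Pool.Agent.Lib_helper56.SGB.F.SC1
/-! # SGB, block SC2: the error term -/

set_option autoImplicit false

namespace Pool.Agent.SGB

open MeasureTheory Matrix
open Pool.Agent.RS (Mt lm SLZ)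
open Pool.Agent.GLQ (re unip cube slab Xp wN IN rm rr qq Lat latt Lz IsRed RY Om Box Kern IsInv Bd sp)
open Pool.Agent.SGN (md repR repL heckeT heckeA supS subS UW Wd lw nf WOk uvec unrm xval)
open scoped ENNReal

noncomputable section

theorem sc2_psi_meas (m r : ℕ) (L : Lat (m + 1)) :
    Measurable fun A : Mt (m + 1) => Psi m r (lm (rr (bas L)) A) :=
  (Psi_isInv m r).meas.comp (Pool.Agent.GLQ.r5b_lm_cont (rr (bas L))).measurable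

/-- the integral of a majorised function -/
theorem sc2_step1 {m : ℕ} (F : Mt (m + 1) → ℝ≥0∞) (Ω : Set (Mt (m + 1))) (I : Finset ℕ)
    (K : ℝ≥0∞) (Q : ℕ → ℝ≥0∞) (ψ : ℕ → Mt (m + 1) → ℝ≥0∞) (hψ : ∀ r, Measurable (ψ r))
    (h : ∀ A ∈ Xp (m + 1) ∩ Ω, F A ≤ K * ∑ r ∈ I, Q r * ψ r A) :
    IN m 1 (Ω.indicator F) ≤ K * ∑ r ∈ I, Q r * IN m 1 (ψ r) := by
  have hw : Measurable (wN m 1) := Pool.Agent.GLQ.wN_meas m 1
  have h1 : IN m 1 (Ω.indicator F) ≤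
      ∫⁻ A in Xp (m + 1), K * ∑ r ∈ I, Q r * (wN m 1 A * ψ r A) := by
    refine setLIntegral_mono' (Pool.Agent.GLQ.r6_Xp_meas _) fun A hA => ?_
    have e : K * ∑ r ∈ I, Q r * (wN m 1 A * ψ r A) = wN m 1 A * (K * ∑ r ∈ I, Q r * ψ r A) := by
      rw [mul_left_comm]
      congr 1
      rw [Finset.mul_sum]
      refine Finset.sum_congr rfl fun r _ => ?_
      ring
    rw [e]
    by_cases hO : A ∈ Ω
    · rw [Set.indicator_of_mem hO]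
      gcongr
      exact h A ⟨hA, hO⟩
    · rw [Set.indicator_of_notMem hO, mul_zero]
      exact zero_le
  refine h1.trans (le_of_eq ?_)
  have hm1 : ∀ r, Measurable fun A : Mt (m + 1) => wN m 1 A * ψ r A := fun r => hw.mul (hψ r)
  rw [lintegral_const_mul _ (Finset.measurable_sum _ fun r _ => (hm1 r).const_mul _)]
  congr 1
  rw [lintegral_finsetSum _ fun r _ => (hm1 r).const_mul _]
  refine Finset.sum_congr rfl fun r _ => ?_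
  rw [lintegral_const_mul _ (hm1 r)]
  rfl

theorem sc2_IN_sum {m : ℕ} {ι : Type} (s : Finset ι) (ψ : ι → Mt (m + 1) → ℝ≥0∞)
    (hψ : ∀ i, Measurable (ψ i)) :
    IN m 1 (fun A => ∑ i ∈ s, ψ i A) = ∑ i ∈ s, IN m 1 (ψ i) := by
  have hw : Measurable (wN m 1) := Pool.Agent.GLQ.wN_meas m 1
  unfold Pool.Agent.GLQ.IN
  refine Eq.trans ?_ (lintegral_finsetSum s (f := fun i A => wN m 1 A * ψ i A)
    fun i _ => hw.mul (hψ i))
  refine lintegral_congr fun A => ?_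
  exact Finset.mul_sum _ _ _

theorem sc2_swap {α : Type} (S : Finset α) (I : Finset ℕ) (a : α → ℝ≥0∞) (K : ℝ≥0∞)
    (Q : ℕ → ℝ≥0∞) (g : ℕ → α → ℝ≥0∞) :
    ∑ L ∈ S, a L * (K * ∑ r ∈ I, Q r * g r L) = K * ∑ r ∈ I, Q r * ∑ L ∈ S, a L * g r L := by
  simp only [Finset.mul_sum]
  rw [Finset.sum_comm]
  refine Finset.sum_congr rfl fun r _ => Finset.sum_congr rfl fun L _ => ?_
  ring

/-- the sum over one word -/
theorem sc2_word {m : ℕ} {C2 : ℝ}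
    (havg : ∀ r : ℕ, 1 ≤ r → r ≤ m + 1 →
    ∀ P : ℝ, 1 ≤ P → ∀ K ∈ NR (m + 1) 1 P, ∀ k : ℕ, 1 ≤ k →
      IN m 1 (fun A => ∑ L ∈ supS k K, Psi m r (lm (rr (bas L)) A)) ≤
        ENNReal.ofReal (C2 * P ^ (4 * (m + 1) ^ 2) * (k : ℝ) ^ m *
          (k.divisors.card : ℝ) ^ (m + 1)))
    {P : ℝ} (hP : 1 ≤ P) {W : Wd} (hW : (∀ a ∈ W.1, 1 ≤ a) ∧ ∀ b ∈ W.2, 1 ≤ b)
    (hWP : (Pool.Agent.SGN.wt W : ℝ) ≤ P) {r : ℕ} (hr : 1 ≤ r) (hr' : r ≤ m + 1) {k : ℕ}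
    (hk : 1 ≤ k) :
    ((UW (m + 1) W).sum fun K x => (x : ℝ≥0∞) * ∑ L ∈ supS k K,
      IN m 1 (fun A => Psi m r (lm (rr (bas L)) A))) ≤
      ENNReal.ofReal (P ^ (2 * (m + 1)) * (C2 * P ^ (4 * (m + 1) ^ 2) * (k : ℝ) ^ m *
          (k.divisors.card : ℝ) ^ (m + 1))) := by
  have h1 : ∀ K ∈ (UW (m + 1) W).support, ((UW (m + 1) W K : ℕ) : ℝ≥0∞) * ∑ L ∈ supS k K,
      IN m 1 (fun A => Psi m r (lm (rr (bas L)) A)) ≤ ((UW (m + 1) W K : ℕ) : ℝ≥0∞) *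
      ENNReal.ofReal (C2 * P ^ (4 * (m + 1) ^ 2) * (k : ℝ) ^ m *
          (k.divisors.card : ℝ) ^ (m + 1)) := by
    intro K hK
    have hK' : UW (m + 1) W K ≠ 0 := Finsupp.mem_support_iff.1 hK
    gcongr
    rw [← sc2_IN_sum (supS k K) (fun L A => Psi m r (lm (rr (bas L)) A))
      (fun L => sc2_psi_meas m r L)]
    exact havg r hr hr' P hP K ((UW_NR hW hWP).1 K hK') k hk
  have h2 : ((UW (m + 1) W).sum fun K x => (x : ℝ≥0∞) * ∑ L ∈ supS k K,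
      IN m 1 (fun A => Psi m r (lm (rr (bas L)) A))) ≤
      (((UW (m + 1) W).sum fun _ c => c : ℕ) : ℝ≥0∞) *
      ENNReal.ofReal (C2 * P ^ (4 * (m + 1) ^ 2) * (k : ℝ) ^ m *
          (k.divisors.card : ℝ) ^ (m + 1)) := by
    rw [Finsupp.sum, Finsupp.sum, Nat.cast_sum, Finset.sum_mul]
    exact Finset.sum_le_sum h1
  refine h2.trans ?_
  have h0 : 0 ≤ P ^ (2 * (m + 1)) := by positivity
  refine le_of_le_of_eq ?_ (ENNReal.ofReal_mul h0).symm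
  refine mul_le_mul' ?_ le_rfl
  have h3 := UW_mass hW (m := m)
  have h4 : ((((UW (m + 1) W).sum fun _ c => c : ℕ)) : ℝ) ≤ P ^ (2 * (m + 1)) := by
    calc ((((UW (m + 1) W).sum fun _ c => c : ℕ)) : ℝ) ≤
        (((Pool.Agent.SGN.wt W) ^ (2 * (m + 1)) : ℕ) : ℝ) := by exact_mod_cast h3
      _ = (Pool.Agent.SGN.wt W : ℝ) ^ (2 * (m + 1)) := by push_cast; rfl
      _ ≤ P ^ (2 * (m + 1)) := by gcongr
  rw [← ENNReal.ofReal_natCast]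
  exact ENNReal.ofReal_le_ofReal h4

theorem sc2_wt_pos {W : Wd} (hW : (∀ a ∈ W.1, 1 ≤ a) ∧ ∀ b ∈ W.2, 1 ≤ b) :
    1 ≤ Pool.Agent.SGN.wt W := by
  have h : ∀ l : List ℕ, (∀ a ∈ l, 1 ≤ a) → 1 ≤ l.prod := by
    intro l hl
    exact Nat.one_le_iff_ne_zero.2 (List.prod_ne_zero fun h0 => by
      have := hl 0 h0
      omega)
  have h1 := h _ hW.1
  have h2 := h _ hW.2
  unfold Pool.Agent.SGN.wt
  exact Nat.mul_pos h1 h2

/-- the sum over all words -/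
theorem sc2_all {m : ℕ} (hm : 1 ≤ m) {C2 : ℝ} (hC2 : 0 ≤ C2)
    (havg : ∀ r : ℕ, 1 ≤ r → r ≤ m + 1 →
    ∀ P : ℝ, 1 ≤ P → ∀ K ∈ NR (m + 1) 1 P, ∀ k : ℕ, 1 ≤ k →
      IN m 1 (fun A => ∑ L ∈ supS k K, Psi m r (lm (rr (bas L)) A)) ≤
        ENNReal.ofReal (C2 * P ^ (4 * (m + 1) ^ 2) * (k : ℝ) ^ m *
          (k.divisors.card : ℝ) ^ (m + 1)))
    {P : ℝ} (hP : 1 ≤ P) (N : ℕ) (V : Finset Wd) (c : ℕ → Wd → ℂ) (hV : (V.card : ℝ) ≤ P)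
    (hW : ∀ W ∈ V, ((∀ a ∈ W.1, 1 ≤ a) ∧ ∀ b ∈ W.2, 1 ≤ b) ∧ (Pool.Agent.SGN.wt W : ℝ) ≤ P)
    (hc : ∀ k ∈ Finset.Icc 1 N, ∀ W ∈ V, ‖c k W‖ ≤ (k : ℝ) ^ (-(1 / 2) : ℝ))
    {r : ℕ} (hr : 1 ≤ r) (hr' : r ≤ m + 1) (S : Finset (Lat (m + 1))) :
    ∑ L ∈ S, ENNReal.ofReal (‖uvec (m + 1) N V c L‖ ^ 2) *
      IN m 1 (fun A => Psi m r (lm (rr (bas L)) A)) ≤
      ENNReal.ofReal (C2 * P ^ (5 * (m + 1) ^ 3) *
        ∑ k ∈ Finset.Icc 1 N, (k.divisors.card : ℝ) ^ (m + 1) * (k : ℝ)⁻¹) := by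
  have hP0 : 0 < P := by linarith
  refine (u_sum m N V c (fun W h => (hW W h).1) S
    (fun L => IN m 1 (fun A => Psi m r (lm (rr (bas L)) A)))).trans ?_
  have h1 : ∀ k ∈ Finset.Icc 1 N, ∀ W ∈ V,
      ENNReal.ofReal (‖c k W‖ ^ 2 * ((k : ℝ) * (Pool.Agent.SGN.wt W : ℝ)) ^ (-(m : ℝ)) *
          (Pool.Agent.SGN.wt W : ℝ) ^ (2 * (m + 1))) *
        (UW (m + 1) W).sum (fun K x => (x : ℝ≥0∞) * ∑ L ∈ supS k K,
          IN m 1 (fun A => Psi m r (lm (rr (bas L)) A))) ≤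
      ENNReal.ofReal (C2 * P ^ (4 * (m + 1) + 4 * (m + 1) ^ 2) *
        ((k.divisors.card : ℝ) ^ (m + 1) * (k : ℝ)⁻¹)) := by
    intro k hk W hWV
    have hk1 : 1 ≤ k := (Finset.mem_Icc.1 hk).1
    have hkr : (0 : ℝ) < k := by exact_mod_cast hk1
    have hw1 : (1 : ℝ) ≤ Pool.Agent.SGN.wt W := by exact_mod_cast sc2_wt_pos (hW W hWV).1
    have hw0 : (0 : ℝ) < Pool.Agent.SGN.wt W := by linarith
    have e1 : ‖c k W‖ ^ 2 ≤ (k : ℝ)⁻¹ := by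
      calc ‖c k W‖ ^ 2 ≤ ((k : ℝ) ^ (-(1 / 2) : ℝ)) ^ 2 :=
            pow_le_pow_left₀ (norm_nonneg _) (hc k hk W hWV) 2
        _ = (k : ℝ)⁻¹ := by
            rw [← Real.rpow_natCast, ← Real.rpow_mul hkr.le, ← Real.rpow_neg_one]
            norm_num
    have e2 : ((k : ℝ) * (Pool.Agent.SGN.wt W : ℝ)) ^ (-(m : ℝ)) ≤ ((k : ℝ) ^ m)⁻¹ := by
      rw [Real.rpow_neg (by positivity), Real.rpow_natCast]
      gcongr
      nlinarith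
    have e3 : (Pool.Agent.SGN.wt W : ℝ) ^ (2 * (m + 1)) ≤ P ^ (2 * (m + 1)) := by
      gcongr
      exact (hW W hWV).2
    have e4 := sc2_word havg hP (hW W hWV).1 (hW W hWV).2 hr hr' hk1
    calc _ ≤ ENNReal.ofReal ((k : ℝ)⁻¹ * ((k : ℝ) ^ m)⁻¹ * P ^ (2 * (m + 1))) *
          ENNReal.ofReal (P ^ (2 * (m + 1)) * (C2 * P ^ (4 * (m + 1) ^ 2) * (k : ℝ) ^ m *
          (k.divisors.card : ℝ) ^ (m + 1))) := by
            gcongr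
      _ = _ := by
            rw [← ENNReal.ofReal_mul (by positivity)]
            congr 1
            have hkm : (k : ℝ) ^ m ≠ 0 := by positivity
            rw [pow_add P]
            have e5 : P ^ (4 * (m + 1)) = P ^ (2 * (m + 1)) * P ^ (2 * (m + 1)) := by
              rw [← pow_add]; congr 1; ring
            rw [e5]
            field_simp
  have h2 : ∑ k ∈ Finset.Icc 1 N, ∑ W ∈ V,
      ENNReal.ofReal (‖c k W‖ ^ 2 * ((k : ℝ) * (Pool.Agent.SGN.wt W : ℝ)) ^ (-(m : ℝ)) *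
          (Pool.Agent.SGN.wt W : ℝ) ^ (2 * (m + 1))) *
        (UW (m + 1) W).sum (fun K x => (x : ℝ≥0∞) * ∑ L ∈ supS k K,
          IN m 1 (fun A => Psi m r (lm (rr (bas L)) A))) ≤
      ENNReal.ofReal (P * (C2 * P ^ (4 * (m + 1) + 4 * (m + 1) ^ 2) *
        ∑ k ∈ Finset.Icc 1 N, (k.divisors.card : ℝ) ^ (m + 1) * (k : ℝ)⁻¹)) := by
    calc _ ≤ ∑ k ∈ Finset.Icc 1 N, ∑ W ∈ V,
        ENNReal.ofReal (C2 * P ^ (4 * (m + 1) + 4 * (m + 1) ^ 2) *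
        ((k.divisors.card : ℝ) ^ (m + 1) * (k : ℝ)⁻¹)) :=
          Finset.sum_le_sum fun k hk => Finset.sum_le_sum fun W hWV => h1 k hk W hWV
      _ = (V.card : ℝ≥0∞) * ENNReal.ofReal (C2 * P ^ (4 * (m + 1) + 4 * (m + 1) ^ 2) *
        ∑ k ∈ Finset.Icc 1 N, (k.divisors.card : ℝ) ^ (m + 1) * (k : ℝ)⁻¹) := by
          rw [Finset.mul_sum, ENNReal.ofReal_sum_of_nonneg fun k _ => by positivity,
            Finset.mul_sum]
          refine Finset.sum_congr rfl fun k _ => ?_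
          rw [Finset.sum_const, nsmul_eq_mul]
      _ ≤ ENNReal.ofReal P * ENNReal.ofReal (C2 * P ^ (4 * (m + 1) + 4 * (m + 1) ^ 2) *
        ∑ k ∈ Finset.Icc 1 N, (k.divisors.card : ℝ) ^ (m + 1) * (k : ℝ)⁻¹) := by
          gcongr
          rw [← ENNReal.ofReal_natCast]
          exact ENNReal.ofReal_le_ofReal hV
      _ = _ := by rw [← ENNReal.ofReal_mul hP0.le]
  have hs0 : 0 ≤ ∑ k ∈ Finset.Icc 1 N, (k.divisors.card : ℝ) ^ (m + 1) * (k : ℝ)⁻¹ :=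
    Finset.sum_nonneg fun k _ => by positivity
  have hexp : 2 + (4 * (m + 1) + 4 * (m + 1) ^ 2) ≤ 5 * (m + 1) ^ 3 := by
    obtain ⟨a, rfl⟩ : ∃ a, m = a + 1 := ⟨m - 1, by omega⟩
    ring_nf
    nlinarith [sq_nonneg a, Nat.zero_le (a ^ 3)]
  calc _ ≤ ENNReal.ofReal P * ENNReal.ofReal (P * (C2 * P ^ (4 * (m + 1) + 4 * (m + 1) ^ 2) *
        ∑ k ∈ Finset.Icc 1 N, (k.divisors.card : ℝ) ^ (m + 1) * (k : ℝ)⁻¹)) := by
          gcongr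
          rw [← ENNReal.ofReal_natCast]
          exact ENNReal.ofReal_le_ofReal hV
    _ = ENNReal.ofReal (C2 * P ^ (2 + (4 * (m + 1) + 4 * (m + 1) ^ 2)) *
        ∑ k ∈ Finset.Icc 1 N, (k.divisors.card : ℝ) ^ (m + 1) * (k : ℝ)⁻¹) := by
          rw [← ENNReal.ofReal_mul hP0.le]
          congr 1
          rw [pow_add P 2]
          ring
    _ ≤ _ := by
          refine ENNReal.ofReal_le_ofReal ?_
          refine mul_le_mul_of_nonneg_right ?_ hs0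
          refine mul_le_mul_of_nonneg_left ?_ hC2
          exact pow_le_pow_right₀ hP hexp

theorem err_bound_pr (m : ℕ) (hm : 1 ≤ m) (R : ℝ) (hR : 1 ≤ R) : ∃ C : ℝ, 1 ≤ C ∧
    ∀ (q : ℕ) [Fact q.Prime] (N P : ℝ), 1 ≤ N → 1 ≤ P → C * P ^ (4 * (m + 1) ^ 3) * N < q →
    ∀ (V : Finset Wd) (c : ℕ → Wd → ℂ), (V.card : ℝ) ≤ P →
      (∀ W ∈ V, ((∀ a ∈ W.1, 1 ≤ a) ∧ ∀ b ∈ W.2, 1 ≤ b) ∧ (Pool.Agent.SGN.wt W : ℝ) ≤ P) →
      (∀ k ∈ Finset.Icc 1 ⌊N⌋₊, ∀ W ∈ V, ‖c k W‖ ≤ (k : ℝ) ^ (-(1 / 2) : ℝ)) →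
      ∀ S : Finset (Lat (m + 1)), (∀ L ∈ S, L ∈ NR (m + 1) N P) →
      ∑ L ∈ S, ENNReal.ofReal (‖uvec (m + 1) ⌊N⌋₊ V c L‖ ^ 2) *
        IN m 1 ((Om (m + 1) P).indicator (ZS m q R (NR (m + 1) N P) L)) ≤
        ENNReal.ofReal (C * P ^ (9 * (m + 1) ^ 3) *
          (∑ r ∈ Finset.Icc 1 (m + 1), (q : ℝ) ^ (m + 1 - r) *
            N ^ ((r : ℝ) + (r : ℝ) * ((m : ℝ) + 1 - r) / ((m : ℝ) + 1))) *
          ∑ k ∈ Finset.Icc 1 ⌊N⌋₊, (k.divisors.card : ℝ) ^ (m + 1) * (k : ℝ)⁻¹) := by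
  obtain ⟨C1, hC1, hz⟩ := zeta_count m hm R hR
  obtain ⟨C2, hC2, havg⟩ := avg_Psi m hm
  refine ⟨C1 * (1 + C2), by nlinarith, ?_⟩
  intro q _ N P hN hP hq V c hV hW hc S hS
  have hP0 : 0 < P := by linarith
  have hN0 : 0 < N := by linarith
  have hC10 : 0 < C1 := by linarith
  have hq' : C1 * P ^ (4 * (m + 1) ^ 3) * N < q := by
    refine lt_of_le_of_lt ?_ hq
    have : C1 ≤ C1 * (1 + C2) := by nlinarith
    gcongr
  set Q : ℕ → ℝ := fun r => (q : ℝ) ^ (m + 1 - r) *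
            N ^ ((r : ℝ) + (r : ℝ) * ((m : ℝ) + 1 - r) / ((m : ℝ) + 1)) with hQ
  have hQ0 : ∀ r, 0 ≤ Q r := fun r => by rw [hQ]; positivity
  set D : ℝ := ∑ k ∈ Finset.Icc 1 ⌊N⌋₊, (k.divisors.card : ℝ) ^ (m + 1) * (k : ℝ)⁻¹ with hD
  have hD0 : 0 ≤ D := Finset.sum_nonneg fun k _ => by positivity
  have h1 : ∀ L ∈ S, IN m 1 ((Om (m + 1) P).indicator (ZS m q R (NR (m + 1) N P) L)) ≤
      ENNReal.ofReal (C1 * P ^ (4 * (m + 1) ^ 3)) * ∑ r ∈ Finset.Icc 1 (m + 1),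
        ENNReal.ofReal (Q r) * IN m 1 (fun A => Psi m r (lm (rr (bas L)) A)) := by
    intro L hL
    refine sc2_step1 _ _ _ _ _ (fun r A => Psi m r (lm (rr (bas L)) A))
      (fun r => sc2_psi_meas m r L) fun A hA => ?_
    exact hz q N P hN hP hq' A hA L (hS L hL)
  calc _ ≤ ∑ L ∈ S, ENNReal.ofReal (‖uvec (m + 1) ⌊N⌋₊ V c L‖ ^ 2) *
        (ENNReal.ofReal (C1 * P ^ (4 * (m + 1) ^ 3)) * ∑ r ∈ Finset.Icc 1 (m + 1),
        ENNReal.ofReal (Q r) * IN m 1 (fun A => Psi m r (lm (rr (bas L)) A))) := by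
        refine Finset.sum_le_sum fun L hL => ?_
        gcongr
        exact h1 L hL
    _ = ENNReal.ofReal (C1 * P ^ (4 * (m + 1) ^ 3)) * ∑ r ∈ Finset.Icc 1 (m + 1),
        ENNReal.ofReal (Q r) * ∑ L ∈ S, ENNReal.ofReal (‖uvec (m + 1) ⌊N⌋₊ V c L‖ ^ 2) *
          IN m 1 (fun A => Psi m r (lm (rr (bas L)) A)) := by
        exact sc2_swap S (Finset.Icc 1 (m + 1)) _ _ (fun r => ENNReal.ofReal (Q r))
          (fun r L => IN m 1 (fun A => Psi m r (lm (rr (bas L)) A)))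
    _ ≤ ENNReal.ofReal (C1 * P ^ (4 * (m + 1) ^ 3)) * ∑ r ∈ Finset.Icc 1 (m + 1),
        ENNReal.ofReal (Q r) * ENNReal.ofReal (C2 * P ^ (5 * (m + 1) ^ 3) * D) := by
        gcongr with r hr
        exact sc2_all hm hC2 havg hP ⌊N⌋₊ V c hV hW hc (Finset.mem_Icc.1 hr).1
          (Finset.mem_Icc.1 hr).2 S
    _ = ENNReal.ofReal ((C1 * P ^ (4 * (m + 1) ^ 3)) * ((∑ r ∈ Finset.Icc 1 (m + 1), Q r) *
          (C2 * P ^ (5 * (m + 1) ^ 3) * D))) := by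
        rw [← Finset.sum_mul, ← ENNReal.ofReal_sum_of_nonneg fun r _ => hQ0 r,
          ← ENNReal.ofReal_mul (Finset.sum_nonneg fun r _ => hQ0 r),
          ← ENNReal.ofReal_mul (by positivity)]
    _ ≤ _ := by
        refine ENNReal.ofReal_le_ofReal ?_
        have e : P ^ (9 * (m + 1) ^ 3) = P ^ (4 * (m + 1) ^ 3) * P ^ (5 * (m + 1) ^ 3) := by
          rw [← pow_add]; congr 1; ring
        have hs : 0 ≤ ∑ r ∈ Finset.Icc 1 (m + 1), Q r := Finset.sum_nonneg fun r _ => hQ0 r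
        have hX : 0 ≤ (P ^ (4 * (m + 1) ^ 3) * P ^ (5 * (m + 1) ^ 3)) *
          (∑ r ∈ Finset.Icc 1 (m + 1), Q r) * D :=
          mul_nonneg (mul_nonneg (by positivity) hs) hD0
        have hC : C1 * C2 ≤ C1 * (1 + C2) := by nlinarith
        calc _ = (C1 * C2) * ((P ^ (4 * (m + 1) ^ 3) * P ^ (5 * (m + 1) ^ 3)) *
          (∑ r ∈ Finset.Icc 1 (m + 1), Q r) * D) := by ring
          _ ≤ (C1 * (1 + C2)) * ((P ^ (4 * (m + 1) ^ 3) * P ^ (5 * (m + 1) ^ 3)) *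
          (∑ r ∈ Finset.Icc 1 (m + 1), Q r) * D) := mul_le_mul_of_nonneg_right hC hX
          _ = _ := by rw [e]; ring

end

end Pool.Agent.SGB

namespace Pool.Agent.SGB

alias err_bound := err_bound_pr

end Pool.Agent.SGB
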