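import Pool.Agent.Lib_helper56.SGB.Defs
import Pool.Agent.Lib_helper56.SGB.F.AD
import Pool.Agent.Lib_helper56.SGB.F.DC1
import Pool.Agent.Lib_helper56.SGB.F.DF
import Pool.Agent.Lib_helper56.SGB.F.RD
import Pool.Agent.Lib_helper56.SGB.F.SA
import Pool.Agent.Lib_helper56.SGB.F.SB
import Pool.Agent.Lib_helper56.SGB.F.SC1
import Pool.Agent.Lib_helper56.SGB.F.SC2

/-!
# Project SGN, part B, block SC3: the large sieve (helper88)
-/

set_option autoImplicit false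

namespace Pool.Agent.SGB

open MeasureTheory Matrix
open Pool.Agent.RS (Mt lm SLZ)
open Pool.Agent.GLQ (re unip cube slab Xp wN IN rm rr qq Lat latt Lz IsRed RY Om Box Kern IsInv Bd sp)
open Pool.Agent.SGN (md repR repL heckeT heckeA supS subS UW Wd lw nf WOk uvec unrm xval)
open scoped ENNReal

noncomputable section

theorem sc3_IN_mono {m : ℕ} {F G : Mt (m + 1) → ℝ≥0∞} (h : ∀ A, F A ≤ G A) :
    IN m 1 F ≤ IN m 1 G := by
  unfold Pool.Agent.GLQ.IN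
  exact lintegral_mono fun A => mul_le_mul_right (h A) _

theorem sc3_ZS_mono {m q : ℕ} {R : ℝ} {S T : Set (Lat (m + 1))} (h : S ⊆ T) (L : Lat (m + 1))
    (A : Mt (m + 1)) : ZS m q R S L A ≤ ZS m q R T L A := by
  unfold ZS
  refine ENNReal.tsum_le_tsum fun ζ => ?_
  by_cases h1 : ZC m R S L A ζ
  · have h2 : ZC m R T L A ζ := by
      obtain ⟨a, b, ⟨d, c1, c2, c3⟩, e⟩ := h1
      exact ⟨a, b, ⟨d, c1, h c2, c3⟩, e⟩
    rw [if_pos h1, if_pos h2]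
  · rw [if_neg h1]
    exact zero_le

/-- the powers of `P` -/
theorem sc3_pow {q a : ℝ} (hq : 0 ≤ q) (k : ℕ) : (q ^ a) ^ k = q ^ (a * k) := by
  rw [← Real.rpow_natCast, ← Real.rpow_mul hq]

/-- `C P^(4 n³) N < q` for large `q` -/
theorem sc3_large {m : ℕ} (hm : 1 ≤ m) (C2 : ℝ) (hC2 : 1 ≤ C2) : ∃ q0 : ℕ, 1 ≤ q0 ∧
    ∀ q : ℕ, q0 ≤ q →
      C2 * ((q : ℝ) ^ (1 / (50 * ((m : ℝ) + 1) ^ 4))) ^ (4 * (m + 1) ^ 3) *
        (q : ℝ) ^ (1 / 2 + 1 / (8 * ((m : ℝ) + 1) ^ 2)) < q := by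
  have h1 : ∀ᶠ q : ℕ in Filter.atTop, C2 < ((q : ℕ) : ℝ) ^ ((2 : ℝ) / 5) :=
    ((tendsto_rpow_atTop (by norm_num : (0 : ℝ) < 2 / 5)).comp
      tendsto_natCast_atTop_atTop).eventually (Filter.eventually_gt_atTop C2)
  obtain ⟨q1, hq1⟩ := Filter.eventually_atTop.1 h1
  refine ⟨max q1 1, le_max_right _ _, fun q hq => ?_⟩
  have hqa := hq1 q (le_trans (le_max_left _ _) hq)
  have hqb : 1 ≤ q := le_trans (le_max_right _ _) hq
  have hq1' : (1 : ℝ) ≤ q := by exact_mod_cast hqb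
  have hq0 : (0 : ℝ) < q := by linarith
  have hn : (2 : ℝ) ≤ (m : ℝ) + 1 := by
    have : (1 : ℝ) ≤ m := by exact_mod_cast hm
    linarith
  rw [sc3_pow hq0.le, mul_assoc, ← Real.rpow_add hq0]
  have hexp : 1 / (50 * ((m : ℝ) + 1) ^ 4) * ((4 * (m + 1) ^ 3 : ℕ) : ℝ) +
      (1 / 2 + 1 / (8 * ((m : ℝ) + 1) ^ 2)) ≤ 3 / 5 := by
    set n : ℝ := (m : ℝ) + 1 with hnd
    have h1 : 1 / (50 * n ^ 4) * ((4 * (m + 1) ^ 3 : ℕ) : ℝ) = 2 / (25 * n) := by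
      push_cast
      rw [← hnd]
      field_simp
      ring
    have h2 : 2 / (25 * n) ≤ 1 / 25 := by
      rw [div_le_div_iff₀ (by positivity) (by norm_num)]
      linarith
    have h3 : 1 / (8 * n ^ 2) ≤ 1 / 32 := by
      rw [div_le_div_iff₀ (by positivity) (by norm_num)]
      nlinarith
    rw [h1]
    linarith
  calc C2 * (q : ℝ) ^ (1 / (50 * ((m : ℝ) + 1) ^ 4) * ((4 * (m + 1) ^ 3 : ℕ) : ℝ) +
        (1 / 2 + 1 / (8 * ((m : ℝ) + 1) ^ 2)))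
      ≤ C2 * (q : ℝ) ^ ((3 : ℝ) / 5) := by
        refine mul_le_mul_of_nonneg_left ?_ (by linarith)
        exact Real.rpow_le_rpow_of_exponent_le hq1' hexp
    _ < (q : ℝ) ^ ((2 : ℝ) / 5) * (q : ℝ) ^ ((3 : ℝ) / 5) := by
        refine mul_lt_mul_of_pos_right hqa (Real.rpow_pos_of_pos hq0 _)
    _ = q := by
        rw [← Real.rpow_add hq0]
        norm_num

theorem sc3_nn (a : ℕ) (s : Finset ℕ) :
    0 ≤ ∑ k ∈ s, (k.divisors.card : ℝ) ^ a * (k : ℝ)⁻¹ :=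
  Finset.sum_nonneg fun _ _ =>
    mul_nonneg (pow_nonneg (Nat.cast_nonneg _) _) (inv_nonneg.2 (Nat.cast_nonneg _))

theorem sc3_nn2 (m : ℕ) (q N : ℝ) (hq : 0 ≤ q) (hN : 0 ≤ N) (e : ℕ → ℝ) (s : Finset ℕ) :
    0 ≤ ∑ r ∈ s, q ^ (m + 1 - r) * N ^ e r :=
  Finset.sum_nonneg fun _ _ => mul_nonneg (pow_nonneg hq _) (Real.rpow_nonneg hN _)

/-- the error term -/
theorem sc3_err {m : ℕ} (hm : 1 ≤ m) {C2 C3 : ℝ} (hC2 : 1 ≤ C2) (hC3 : 0 < C3)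
    (hdiv : ∀ N : ℕ, 1 ≤ N → ∑ k ∈ Finset.Icc 1 N,
      (k.divisors.card : ℝ) ^ (m + 1) * (k : ℝ)⁻¹ ≤ C3 * (N : ℝ) ^ (7 / (100 * ((m : ℝ) + 1))))
    {q : ℕ} (hq : 1 ≤ q) :
    C2 * ((q : ℝ) ^ (1 / (50 * ((m : ℝ) + 1) ^ 4))) ^ (9 * (m + 1) ^ 3) *
      (∑ r ∈ Finset.Icc 1 (m + 1), (q : ℝ) ^ (m + 1 - r) *
        ((q : ℝ) ^ (1 / 2 + 1 / (8 * ((m : ℝ) + 1) ^ 2))) ^
          ((r : ℝ) + (r : ℝ) * ((m : ℝ) + 1 - r) / ((m : ℝ) + 1))) *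
      ∑ k ∈ Finset.Icc 1 ⌊(q : ℝ) ^ (1 / 2 + 1 / (8 * ((m : ℝ) + 1) ^ 2))⌋₊,
        (k.divisors.card : ℝ) ^ (m + 1) * (k : ℝ)⁻¹ ≤
      ((m : ℝ) + 1) * C2 * C3 * ((q : ℝ) ^ (m + 1) * (q : ℝ) ^ (-(1 / (8 * ((m : ℝ) + 1))))) := by
  have hq1 : (1 : ℝ) ≤ q := by exact_mod_cast hq
  have hq0 : (0 : ℝ) < q := by linarith
  set n : ℝ := (m : ℝ) + 1 with hnd
  have hn : (2 : ℝ) ≤ n := by
    have : (1 : ℝ) ≤ m := by exact_mod_cast hm
    linarith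
  set N : ℝ := (q : ℝ) ^ (1 / 2 + 1 / (8 * n ^ 2)) with hN
  have hN1 : 1 ≤ N := Real.one_le_rpow hq1 (by positivity)
  have hNq : N ≤ q := by
    have h3 : 1 / (8 * n ^ 2) ≤ 1 / 32 := by
      rw [div_le_div_iff₀ (by positivity) (by norm_num)]
      nlinarith
    calc N ≤ (q : ℝ) ^ (1 : ℝ) := Real.rpow_le_rpow_of_exponent_le hq1 (by linarith)
      _ = q := Real.rpow_one _
  have hsum1 : ∑ r ∈ Finset.Icc 1 (m + 1), (q : ℝ) ^ (m + 1 - r) *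
      N ^ ((r : ℝ) + (r : ℝ) * (n - r) / n) ≤ n * (q : ℝ) ^ (n - 3 / (8 * n)) := by
    calc ∑ r ∈ Finset.Icc 1 (m + 1), (q : ℝ) ^ (m + 1 - r) * N ^ ((r : ℝ) + (r : ℝ) * (n - r) / n)
        ≤ ∑ r ∈ Finset.Icc 1 (m + 1), (q : ℝ) ^ (n - 3 / (8 * n)) := by
          refine Finset.sum_le_sum fun r hr => ?_
          obtain ⟨h1, h2⟩ := Finset.mem_Icc.1 hr
          exact expo_q hm h1 h2 (q : ℝ) hq1
      _ = n * (q : ℝ) ^ (n - 3 / (8 * n)) := by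
          rw [Finset.sum_const, Nat.card_Icc, nsmul_eq_mul, Nat.add_sub_cancel]
          push_cast
          rw [hnd]
  have hsum2 : ∑ k ∈ Finset.Icc 1 ⌊N⌋₊, (k.divisors.card : ℝ) ^ (m + 1) * (k : ℝ)⁻¹ ≤
      C3 * (q : ℝ) ^ (7 / (100 * n)) := by
    refine (hdiv ⌊N⌋₊ ?_).trans ?_
    · exact Nat.one_le_iff_ne_zero.2 (by
        intro h
        have := (Nat.floor_eq_zero.1 h)
        linarith)
    · refine mul_le_mul_of_nonneg_left ?_ hC3.le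
      exact Real.rpow_le_rpow (Nat.cast_nonneg _)
        ((Nat.floor_le (by linarith)).trans hNq) (by positivity)
  have hpow : ((q : ℝ) ^ (1 / (50 * n ^ 4))) ^ (9 * (m + 1) ^ 3) = (q : ℝ) ^ (9 / (50 * n)) := by
    rw [sc3_pow hq0.le]
    congr 1
    push_cast
    rw [← hnd]
    field_simp
  have hs2 : 0 ≤ ∑ k ∈ Finset.Icc 1 ⌊N⌋₊, (k.divisors.card : ℝ) ^ (m + 1) * (k : ℝ)⁻¹ :=
    sc3_nn (m + 1) _
  rw [hpow]
  calc C2 * (q : ℝ) ^ (9 / (50 * n)) * (∑ r ∈ Finset.Icc 1 (m + 1), (q : ℝ) ^ (m + 1 - r) *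
        N ^ ((r : ℝ) + (r : ℝ) * (n - r) / n)) *
        ∑ k ∈ Finset.Icc 1 ⌊N⌋₊, (k.divisors.card : ℝ) ^ (m + 1) * (k : ℝ)⁻¹
      ≤ C2 * (q : ℝ) ^ (9 / (50 * n)) * (n * (q : ℝ) ^ (n - 3 / (8 * n))) *
        (C3 * (q : ℝ) ^ (7 / (100 * n))) := by
        refine mul_le_mul ?_ hsum2 hs2 (by positivity)
        exact mul_le_mul_of_nonneg_left hsum1 (by positivity)
    _ = n * C2 * C3 * ((q : ℝ) ^ (9 / (50 * n)) * (q : ℝ) ^ (n - 3 / (8 * n)) *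
        (q : ℝ) ^ (7 / (100 * n))) := by ring
    _ = n * C2 * C3 * ((q : ℝ) ^ (m + 1) * (q : ℝ) ^ (-(1 / (8 * n)))) := by
        congr 1
        rw [← Real.rpow_add hq0, ← Real.rpow_add hq0, ← Real.rpow_natCast,
          ← Real.rpow_add hq0]
        congr 1
        push_cast
        rw [← hnd]
        field_simp
        ring

theorem lsi_pr (m : ℕ) (hm : 1 ≤ m) (k0 : Mt (m + 1) → ℂ) (hk : Kern m k0) : ∃ (C : ℝ) (q0 : ℕ),
    0 < C ∧ ∀ (q : ℕ) [Fact q.Prime], q0 ≤ q → ∀ (β : Type) [Fintype β] (f : β → Fm m q)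
      (lam : β → ℕ → ℂ), (∀ b, Eg m q k0 (f b) (lam b)) → Function.Injective lam →
      ∀ (V : Finset Wd) (c : ℕ → Wd → ℂ),
        (V.card : ℝ) ≤ (q : ℝ) ^ (1 / (50 * ((m : ℝ) + 1) ^ 4)) →
        (∀ W ∈ V, WOk q W ∧
          (Pool.Agent.SGN.wt W : ℝ) ≤ (q : ℝ) ^ (1 / (50 * ((m : ℝ) + 1) ^ 4))) →
        (∀ k ∈ Finset.Icc 1 ⌊(q : ℝ) ^ (1 / 2 + 1 / (8 * ((m : ℝ) + 1) ^ 2))⌋₊, ∀ W ∈ V,
          ‖c k W‖ ≤ (k : ℝ) ^ (-(1 / 2) : ℝ)) →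
        ∑ b, ENNReal.ofReal
            (‖xval ⌊(q : ℝ) ^ (1 / 2 + 1 / (8 * ((m : ℝ) + 1) ^ 2))⌋₊ V c (lam b)‖ ^ 2) *
            prp m q (Om (m + 1) ((q : ℝ) ^ (1 / (50 * ((m : ℝ) + 1) ^ 4)))) (f b) ≤
          ENNReal.ofReal (C * (q : ℝ) ^ (m + 1) *
            (unrm (m + 1) ⌊(q : ℝ) ^ (1 / 2 + 1 / (8 * ((m : ℝ) + 1) ^ 2))⌋₊ V c +
              (q : ℝ) ^ (-(1 / (8 * ((m : ℝ) + 1)))))) := by
  obtain ⟨C1, R, hC1, hR, htr⟩ := traceV m hm k0 hk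
  obtain ⟨C2, hC2, herr⟩ := err_bound m hm R hR
  obtain ⟨C3, hC3, hdiv⟩ := div_sum (m + 1) (7 / (100 * ((m : ℝ) + 1))) (by positivity)
  obtain ⟨q0, hq01, hlarge⟩ := sc3_large hm C2 hC2
  have hμ : IN m 1 (fun _ => 1) ≠ ⊤ := Pool.Agent.GLQ.w6_one m
  set μ : ℝ := (IN m 1 (fun _ => 1)).toReal with hμd
  have hμ0 : 0 ≤ μ := ENNReal.toReal_nonneg
  refine ⟨C1 * (μ + ((m : ℝ) + 1) * C2 * C3) + 1, q0, by positivity, ?_⟩
  intro q hqp hq β _ f lam hf hinj V c hVc hV hc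
  have hq1n : 1 ≤ q := le_trans hq01 hq
  have hq1 : (1 : ℝ) ≤ q := by exact_mod_cast hq1n
  have hq0 : (0 : ℝ) < q := by linarith
  have hlq := hlarge q hq
  have herrR := sc3_err hm hC2 hC3 hdiv hq1n
  set P : ℝ := (q : ℝ) ^ (1 / (50 * ((m : ℝ) + 1) ^ 4)) with hP
  set N : ℝ := (q : ℝ) ^ (1 / 2 + 1 / (8 * ((m : ℝ) + 1) ^ 2)) with hN
  have hP1 : 1 ≤ P := Real.one_le_rpow hq1 (by positivity)
  have hN1 : 1 ≤ N := Real.one_le_rpow hq1 (by positivity)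
  have hV' : ∀ W ∈ V, (∀ a ∈ W.1, 1 ≤ a) ∧ ∀ b ∈ W.2, 1 ≤ b := fun W hW =>
    ⟨fun a ha => ((hV W hW).1.1 a ha).1, fun b hb => ((hV W hW).1.2 b hb).1⟩
  have hPN : P ^ (4 * (m + 1) ^ 3) * N < q := by
    refine lt_of_le_of_lt ?_ hlq
    rw [mul_assoc]
    exact le_mul_of_one_le_left (by positivity) hC2
  have hNq : N < q := by
    refine lt_of_le_of_lt ?_ hPN
    exact le_mul_of_one_le_left (by positivity) (one_le_pow₀ hP1)
  have hPN' : P ^ (m + 2) * N < q := by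
    refine lt_of_le_of_lt ?_ hPN
    refine mul_le_mul_of_nonneg_right (pow_le_pow_right₀ hP1 ?_) (by positivity)
    have h1 : m + 1 ≤ (m + 1) ^ 3 := by
      calc m + 1 = (m + 1) ^ 1 := (pow_one _).symm
        _ ≤ (m + 1) ^ 3 := Nat.pow_le_pow_right (by omega) (by omega)
    omega
  obtain ⟨u, hu, hunrm, husupp⟩ := u_supp m ⌊N⌋₊ V c hV'
  have hNR : ∀ L ∈ u.support, L ∈ NR (m + 1) N P := by
    intro L hL
    obtain ⟨k, hk, W, hW, hne⟩ := husupp L hL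
    obtain ⟨hk1, hk2⟩ := Finset.mem_Icc.1 hk
    exact (UW_NR (hV' W hW) (hV W hW).2).2 N k hk1
      ((Nat.cast_le.2 hk2).trans (Nat.floor_le (by linarith))) L hne
  have hQl : ∀ L ∈ u.support, Ql q L := fun L hL =>
    NR_Ql hqp.out hN1 hP1 hPN' (hNR L hL)
  have hcop : ∀ k ∈ Finset.Icc 1 ⌊N⌋₊, k.Coprime q := by
    intro k hk
    obtain ⟨hk1, hk2⟩ := Finset.mem_Icc.1 hk
    have h1 : (k : ℝ) < q :=
      lt_of_le_of_lt ((Nat.cast_le.2 hk2).trans (Nat.floor_le (by linarith))) hNq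
    have h2 : k < q := by exact_mod_cast h1
    exact (Nat.Coprime.symm ((Nat.Prime.coprime_iff_not_dvd hqp.out).2
      fun h => absurd (Nat.le_of_dvd (by omega) h) (by omega)))
  have hmain := htr q β f (fun b => (hf b).toFrm)
    (fun b b' hbb => orthX hm (hf b) (hf b') fun h => hbb (hinj h))
    (fun b => norm_ne_zeroX (hf b).toFrm.toPre (hf b).ne) u hQl
    (fun b => xval ⌊N⌋₊ V c (lam b))
    (fun b A hA x => u_val (hf b) ⌊N⌋₊ V c (fun W hW => (hV W hW).1) hcop u hu A hA x)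
    (Om (m + 1) P) (Pool.Agent.GLQ.Om_meas (m + 1) P (by linarith))
  refine hmain.trans ?_
  have herr' := herr q N P hN1 hP1 hlq V c hVc (fun W hW => ⟨hV' W hW, (hV W hW).2⟩) hc
    u.support hNR
  set Er : ℝ := C2 * P ^ (9 * (m + 1) ^ 3) *
    (∑ r ∈ Finset.Icc 1 (m + 1), (q : ℝ) ^ (m + 1 - r) *
      N ^ ((r : ℝ) + (r : ℝ) * ((m : ℝ) + 1 - r) / ((m : ℝ) + 1))) *
    ∑ k ∈ Finset.Icc 1 ⌊N⌋₊, (k.divisors.card : ℝ) ^ (m + 1) * (k : ℝ)⁻¹ with hEr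
  have hEr0 : 0 ≤ Er := by
    rw [hEr]
    exact mul_nonneg (mul_nonneg (mul_nonneg (by linarith) (pow_nonneg (by linarith) _))
      (sc3_nn2 m q N hq0.le (by linarith) _ _)) (sc3_nn (m + 1) _)
  have hunrm0 : 0 ≤ unrm (m + 1) ⌊N⌋₊ V c := by
    rw [hunrm]
    exact Finset.sum_nonneg fun _ _ => sq_nonneg _
  have hsplit : ∑ L ∈ u.support, ENNReal.ofReal (‖u L‖ ^ 2) *
      ((q : ℝ≥0∞) ^ (m + 1) * IN m 1 ((Om (m + 1) P).indicator fun _ => 1) +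
        IN m 1 ((Om (m + 1) P).indicator (ZS m q R u.support L))) ≤
      ENNReal.ofReal ((q : ℝ) ^ (m + 1) * μ * unrm (m + 1) ⌊N⌋₊ V c) + ENNReal.ofReal Er := by
    calc ∑ L ∈ u.support, ENNReal.ofReal (‖u L‖ ^ 2) *
        ((q : ℝ≥0∞) ^ (m + 1) * IN m 1 ((Om (m + 1) P).indicator fun _ => 1) +
          IN m 1 ((Om (m + 1) P).indicator (ZS m q R u.support L)))
        ≤ ∑ L ∈ u.support, (ENNReal.ofReal (‖u L‖ ^ 2) *
          ((q : ℝ≥0∞) ^ (m + 1) * IN m 1 (fun _ => 1)) +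
          ENNReal.ofReal (‖uvec (m + 1) ⌊N⌋₊ V c L‖ ^ 2) *
            IN m 1 ((Om (m + 1) P).indicator (ZS m q R (NR (m + 1) N P) L))) := by
          refine Finset.sum_le_sum fun L hL => ?_
          rw [mul_add]
          refine add_le_add ?_ ?_
          · refine mul_le_mul_right (mul_le_mul_right (sc3_IN_mono fun A => ?_) _) _
            exact Set.indicator_le_self' (fun _ _ => zero_le) A
          · rw [hu L]
            refine mul_le_mul_right (sc3_IN_mono fun A => ?_) _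
            refine Set.indicator_le_indicator ?_
            exact sc3_ZS_mono (fun M hM => hNR M hM) L A
      _ = (∑ L ∈ u.support, ENNReal.ofReal (‖u L‖ ^ 2)) *
          ((q : ℝ≥0∞) ^ (m + 1) * IN m 1 (fun _ => 1)) +
          ∑ L ∈ u.support, ENNReal.ofReal (‖uvec (m + 1) ⌊N⌋₊ V c L‖ ^ 2) *
            IN m 1 ((Om (m + 1) P).indicator (ZS m q R (NR (m + 1) N P) L)) := by
          rw [Finset.sum_add_distrib, Finset.sum_mul]
      _ ≤ ENNReal.ofReal ((q : ℝ) ^ (m + 1) * μ * unrm (m + 1) ⌊N⌋₊ V c) +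
          ENNReal.ofReal Er := by
          refine add_le_add (le_of_eq ?_) herr'
          rw [← ENNReal.ofReal_sum_of_nonneg (fun _ _ => by positivity), ← hunrm]
          have h1 : IN m 1 (fun _ => 1) = ENNReal.ofReal μ := (ENNReal.ofReal_toReal hμ).symm
          have h2 : (q : ℝ≥0∞) ^ (m + 1) = ENNReal.ofReal ((q : ℝ) ^ (m + 1)) := by
            rw [ENNReal.ofReal_pow hq0.le, ENNReal.ofReal_natCast]
          rw [h1, h2, ← ENNReal.ofReal_mul (by positivity), ← ENNReal.ofReal_mul hunrm0]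
          congr 1
          ring
  calc ENNReal.ofReal C1 * ∑ L ∈ u.support, ENNReal.ofReal (‖u L‖ ^ 2) *
      ((q : ℝ≥0∞) ^ (m + 1) * IN m 1 ((Om (m + 1) P).indicator fun _ => 1) +
        IN m 1 ((Om (m + 1) P).indicator (ZS m q R u.support L)))
      ≤ ENNReal.ofReal C1 * (ENNReal.ofReal ((q : ℝ) ^ (m + 1) * μ * unrm (m + 1) ⌊N⌋₊ V c) +
        ENNReal.ofReal Er) := mul_le_mul_right hsplit _
    _ = ENNReal.ofReal (C1 * ((q : ℝ) ^ (m + 1) * μ * unrm (m + 1) ⌊N⌋₊ V c + Er)) := by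
        rw [← ENNReal.ofReal_add (by positivity) hEr0, ← ENNReal.ofReal_mul hC1]
    _ ≤ _ := by
        refine ENNReal.ofReal_le_ofReal ?_
        set U : ℝ := unrm (m + 1) ⌊N⌋₊ V c with hU
        set Q : ℝ := (q : ℝ) ^ (m + 1) with hQ
        set D : ℝ := (q : ℝ) ^ (-(1 / (8 * ((m : ℝ) + 1)))) with hD
        have hQ0 : 0 ≤ Q := by positivity
        have hD0 : 0 ≤ D := by positivity
        have hK : 0 ≤ ((m : ℝ) + 1) * C2 * C3 := by positivity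
        set K : ℝ := ((m : ℝ) + 1) * C2 * C3 with hKd
        calc C1 * (Q * μ * U + Er) ≤ C1 * (Q * μ * U + K * (Q * D)) := by
              refine mul_le_mul_of_nonneg_left ?_ hC1
              linarith
          _ ≤ (C1 * (μ + K) + 1) * Q * (U + D) := by
              have e1 : 0 ≤ C1 * μ * Q * D := by positivity
              have e2 : 0 ≤ C1 * K * Q * U := by positivity
              have e3 : 0 ≤ Q * (U + D) := by positivity
              nlinarith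

end

end Pool.Agent.SGB

namespace Pool.Agent.SGB

alias lsi := lsi_pr

end Pool.Agent.SGB
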