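import Pool.Agent.Lib_helper56.SGB.Defs
import Pool.Agent.Lib_helper56.SGB.F.AD
import Pool.Agent.Lib_helper56.SGB.F.DC1
import Pool.Agent.Lib_helper56.SGB.F.KF
import Pool.Agent.Lib_helper56.SGB.F.MF
import Pool.Agent.Lib_helper56.SGB.F.SC3

set_option autoImplicit false

namespace Pool.Agent.SGB

open MeasureTheory Matrix
open Pool.Agent.RS (Mt lm SLZ)
open Pool.Agent.GLQ (re unip cube slab Xp wN IN rm rr qq Lat latt Lz IsRed RY Om Box Kern IsInv Bd sp)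
open Pool.Agent.SGN (md repR repL heckeT heckeA supS subS UW Wd lw nf WOk uvec unrm xval)
open scoped ENNReal

noncomputable section

namespace SD

theorem uvec_smul (n N : ℕ) (V : Finset Wd) (c : ℕ → Wd → ℂ) (s : ℂ) (L : Lat n) :
    uvec n N V (fun k W => s * c k W) L = s * uvec n N V c L := by
  simp only [uvec, Finset.mul_sum]
  refine Finset.sum_congr rfl fun k _ => Finset.sum_congr rfl fun W _ => ?_
  ring

theorem unrm_smul (n N : ℕ) (V : Finset Wd) (c : ℕ → Wd → ℂ) (s : ℂ) :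
    unrm n N V (fun k W => s * c k W) = ‖s‖ ^ 2 * unrm n N V c := by
  simp only [unrm, uvec_smul, norm_mul, mul_pow, tsum_mul_left]

theorem unrm_nonneg (n N : ℕ) (V : Finset Wd) (c : ℕ → Wd → ℂ) : 0 ≤ unrm n N V c :=
  tsum_nonneg fun _ => by positivity

theorem xval_smul (N : ℕ) (V : Finset Wd) (c : ℕ → Wd → ℂ) (s : ℂ) (lam : ℕ → ℂ) :
    xval N V (fun k W => s * c k W) lam = s * xval N V c lam := by
  simp only [xval, Finset.mul_sum]
  refine Finset.sum_congr rfl fun k _ => Finset.sum_congr rfl fun W _ => ?_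
  ring

theorem prp_le_one (m q : ℕ) [NeZero q] (Ω : Set (Mt (m + 1))) (f : Fm m q) :
    prp m q Ω f ≤ 1 := by
  rw [prp]
  refine le_trans (ENNReal.div_le_div_right ?_ _) ENNReal.div_self_le_one
  rw [IX, IX]
  unfold IN
  refine lintegral_mono fun A => ?_
  refine mul_le_mul_right (Finset.sum_le_sum fun x _ => ?_) _
  rw [ind]
  exact Set.indicator_le_self _ _ _

theorem polylog (m : ℕ) (hm : 1 ≤ m) (C : ℝ) (hC : 0 < C) : ∃ D : ℝ, 0 < D ∧ ∀ q : ℕ, 1 ≤ q →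
    (2 + Real.log (C * q)) ^ m ≤ D * (q : ℝ) ^ (1 / 2 : ℝ) := by
  refine ⟨(2 + |Real.log C| + 2 * m) ^ m, by positivity, fun q hq => ?_⟩
  have hq1 : (1 : ℝ) ≤ q := by exact_mod_cast hq
  have hq0 : (0 : ℝ) < q := by linarith
  have hm0 : (0 : ℝ) < m := by exact_mod_cast hm
  set e : ℝ := 1 / (2 * m) with he
  have he0 : 0 < e := by positivity
  have hqe : (1 : ℝ) ≤ (q : ℝ) ^ e := Real.one_le_rpow hq1 he0.le
  have h1 : Real.log q ≤ (q : ℝ) ^ e / e := Real.log_le_rpow_div hq0.le he0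
  have h1' : Real.log q ≤ 2 * m * (q : ℝ) ^ e := by
    calc Real.log q ≤ (q : ℝ) ^ e / e := h1
      _ = 2 * m * (q : ℝ) ^ e := by rw [he]; field_simp
  have h2 : |2 + Real.log (C * q)| ≤ (2 + |Real.log C| + 2 * m) * (q : ℝ) ^ e := by
    rw [Real.log_mul hC.ne' hq0.ne']
    have h3 : |2 + (Real.log C + Real.log q)| ≤ 2 + (|Real.log C| + Real.log q) := by
      refine (abs_add_le _ _).trans ?_
      rw [abs_of_nonneg (by norm_num : (0 : ℝ) ≤ 2)]
      have := abs_add_le (Real.log C) (Real.log q)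
      rw [abs_of_nonneg (Real.log_nonneg hq1)] at this
      linarith
    refine h3.trans ?_
    have h4 : 2 + |Real.log C| ≤ (2 + |Real.log C|) * (q : ℝ) ^ e :=
      le_mul_of_one_le_right (by positivity) hqe
    nlinarith
  calc (2 + Real.log (C * q)) ^ m ≤ |2 + Real.log (C * q)| ^ m := by
        rw [← abs_pow]; exact le_abs_self _
    _ ≤ ((2 + |Real.log C| + 2 * m) * (q : ℝ) ^ e) ^ m := pow_le_pow_left₀ (abs_nonneg _) h2 _
    _ = (2 + |Real.log C| + 2 * m) ^ m * (q : ℝ) ^ (1 / 2 : ℝ) := by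
        rw [mul_pow, ← Real.rpow_natCast ((q : ℝ) ^ e), ← Real.rpow_mul hq0.le]
        congr 2
        rw [he]; field_simp

end SD

open SD in
theorem part_B_pr (n : ℕ) (hn : 2 ≤ n) (K : Set (Fin n → ℂ)) (hK : IsCompact K)
    (hK' : ∀ μ ∈ K, ∀ j, |(μ j).re| < 1 / 2) :
    ∃ C κ η δ : ℝ, ∃ q₀ : ℕ, 0 < C ∧ 0 < κ ∧ κ < 1 / 4 ∧ 0 < η ∧ η < κ ∧ 0 < δ ∧
      ∀ (q : ℕ) [NeZero q], q.Prime → q₀ ≤ q →
      ∀ (β : Type) [Fintype β] (lam : β → ℕ → ℂ) (μ : β → Fin n → ℂ),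
      Function.Injective lam → (∀ b, μ b ∈ K) → (∀ b, Pool.Agent.SGN.Att n q (μ b) (lam b)) →
      (Fintype.card β : ℝ) ≤ C * (q : ℝ) ^ (n : ℝ) ∧
      ∃ om : β → ℝ, (∀ b, 0 ≤ om b ∧ om b ≤ 1) ∧
        (((Finset.univ.filter fun b => om b < 1 / 2).card : ℕ) : ℝ) ≤
          C * (q : ℝ) ^ ((n : ℝ) - δ) ∧
        ∀ (V : Finset Wd) (B : ℝ) (c : ℕ → Wd → ℂ), 0 ≤ B → (V.card : ℝ) ≤ (q : ℝ) ^ η →
          (∀ W ∈ V, WOk q W ∧ (Pool.Agent.SGN.wt W : ℝ) ≤ (q : ℝ) ^ η) →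
          (∀ m ∈ Finset.Icc 1 ⌊(q : ℝ) ^ (1 / 2 + κ)⌋₊, ∀ W ∈ V,
            ‖c m W‖ ≤ B * (m : ℝ) ^ (-(1 / 2) : ℝ)) →
          ∑ b, om b * ‖xval ⌊(q : ℝ) ^ (1 / 2 + κ)⌋₊ V c (lam b)‖ ^ 2 ≤
            C * (q : ℝ) ^ (n : ℝ) *
              (unrm n ⌊(q : ℝ) ^ (1 / 2 + κ)⌋₊ V c + B ^ 2 * (q : ℝ) ^ (-δ)) := by
  obtain ⟨m, rfl⟩ : ∃ m, n = m + 1 := ⟨n - 1, by omega⟩
  have hm : 1 ≤ m := by omega
  obtain ⟨k0, hk0, hker⟩ := eg_of m K hK
  obtain ⟨C1, q1, hC1, h1⟩ := mass_main m hm k0 hk0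
  obtain ⟨C2, q2, hC2, h2⟩ := lsi m hm k0 hk0
  obtain ⟨D, hD, hlog⟩ := polylog m hm C1 hC1
  have hm1 : (2 : ℝ) ≤ (m : ℝ) + 1 := by
    have : (1 : ℝ) ≤ m := by exact_mod_cast hm
    linarith
  have hm0 : (0 : ℝ) < (m : ℝ) + 1 := by linarith
  set κ : ℝ := 1 / (8 * ((m : ℝ) + 1) ^ 2) with hκ
  set η : ℝ := 1 / (50 * ((m : ℝ) + 1) ^ 4) with hη
  have hκ0 : 0 < κ := by positivity
  have hη0 : 0 < η := by positivity
  have hκ4 : κ < 1 / 4 := by
    rw [hκ]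
    apply one_div_lt_one_div_of_lt (by norm_num)
    nlinarith
  have hηκ : η < κ := by
    rw [hκ, hη]
    apply one_div_lt_one_div_of_lt (by positivity)
    have hy : (1 : ℝ) ≤ ((m : ℝ) + 1) ^ 2 := one_le_pow₀ (by linarith)
    have hy4 : ((m : ℝ) + 1) ^ 4 = (((m : ℝ) + 1) ^ 2) ^ 2 := by ring
    rw [hy4]
    nlinarith
  have hη1 : η ≤ 1 / 2 := by linarith
  have hη8 : η ≤ 1 / (8 * ((m : ℝ) + 1)) := by
    rw [hη]
    apply one_div_le_one_div_of_le (by positivity)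
    have h3 : (m : ℝ) + 1 ≤ ((m : ℝ) + 1) ^ 4 := by
      calc (m : ℝ) + 1 = ((m : ℝ) + 1) ^ 1 := (pow_one _).symm
        _ ≤ _ := pow_le_pow_right₀ (by linarith) (by norm_num)
    nlinarith
  refine ⟨max (C1 * (1 + D)) C2, κ, η, η, max q1 q2, lt_max_of_lt_right hC2, hκ0, hκ4, hη0, hηκ,
    hη0, ?_⟩
  intro q _ hqp hq β _ lam μ hinj hμ hatt
  have : Fact q.Prime := ⟨hqp⟩
  have hq1 : (1 : ℝ) ≤ q := by exact_mod_cast hqp.one_lt.le
  have hq0 : (0 : ℝ) < q := by linarith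
  have hn : (((m + 1 : ℕ) : ℝ)) = (m : ℝ) + 1 := by push_cast; ring
  have hqn : (q : ℝ) ^ (((m + 1 : ℕ) : ℝ)) = (q : ℝ) ^ (m + 1) := Real.rpow_natCast _ _
  have hf : ∀ b, ∃ f : Fm m q, Eg m q k0 f (lam b) := by
    intro b
    obtain ⟨χ, _, f, hf⟩ := hatt b
    exact hker q χ (μ b) (hμ b) f (lam b) hf
  choose f hf using hf
  have hne : ∀ b, IX m q (nsX (f b)) ≠ 0 := fun b => norm_ne_zeroX (hf b).toPre (hf b).ne
  have horth : ∀ b b', b ≠ b' → ipX m q (f b) (f b') = 0 := fun b b' hbb =>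
    orthX hm (hf b) (hf b') fun h => hbb (hinj h)
  obtain ⟨hcard, hY⟩ := h1 q ((le_max_left _ _).trans hq) β f (fun b => (hf b).toFrm) hne horth
  have hCle : C1 ≤ max (C1 * (1 + D)) C2 := by
    refine le_trans ?_ (le_max_left _ _)
    nlinarith
  have hqη1 : (1 : ℝ) ≤ (q : ℝ) ^ η := Real.one_le_rpow hq1 hη0.le
  have hpr : ∀ b, prp m q (Om (m + 1) ((q : ℝ) ^ η)) (f b) ≠ ⊤ := fun b =>
    ((prp_le_one m q _ (f b)).trans_lt ENNReal.one_lt_top).ne
  refine ⟨?_, fun b => (prp m q (Om (m + 1) ((q : ℝ) ^ η)) (f b)).toReal, ?_, ?_, ?_⟩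
  · rw [hqn]
    exact hcard.trans (mul_le_mul_of_nonneg_right hCle (by positivity))
  · intro b
    refine ⟨ENNReal.toReal_nonneg, ?_⟩
    have := ENNReal.toReal_mono ENNReal.one_ne_top (prp_le_one m q (Om (m + 1) ((q : ℝ) ^ η)) (f b))
    simpa using this
  · have h3 := hY ((q : ℝ) ^ η) hqη1 (by
      calc (q : ℝ) ^ η ≤ (q : ℝ) ^ (1 : ℝ) := Real.rpow_le_rpow_of_exponent_le hq1 (by linarith)
        _ = q := Real.rpow_one _)
    have h4 : (Finset.univ.filter fun b =>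
        (prp m q (Om (m + 1) ((q : ℝ) ^ η)) (f b)).toReal < 1 / 2) =
        Finset.univ.filter fun b => prp m q (Om (m + 1) ((q : ℝ) ^ η)) (f b) < 1 / 2 := by
      ext b
      simp only [Finset.mem_filter, Finset.mem_univ, true_and]
      rw [← ENNReal.toReal_lt_toReal (hpr b) (by norm_num)]
      have : (1 / 2 : ℝ≥0∞).toReal = 1 / 2 := by
        rw [ENNReal.toReal_div]; norm_num
      rw [this]
    rw [h4]
    refine h3.trans ?_
    have e1 : (q : ℝ) ^ (m + 1) / (q : ℝ) ^ η = (q : ℝ) ^ ((((m + 1 : ℕ) : ℝ)) - η) := by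
      rw [Real.rpow_sub hq0, hqn]
    have e2 : (q : ℝ) ^ m * (2 + Real.log (C1 * q)) ^ m ≤
        D * (q : ℝ) ^ ((((m + 1 : ℕ) : ℝ)) - η) := by
      calc (q : ℝ) ^ m * (2 + Real.log (C1 * q)) ^ m ≤
            (q : ℝ) ^ m * (D * (q : ℝ) ^ (1 / 2 : ℝ)) :=
            mul_le_mul_of_nonneg_left (hlog q hqp.one_lt.le) (by positivity)
        _ = D * (q : ℝ) ^ ((m : ℝ) + 1 / 2) := by
            rw [Real.rpow_add hq0, Real.rpow_natCast]; ring
        _ ≤ D * (q : ℝ) ^ ((((m + 1 : ℕ) : ℝ)) - η) := by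
            refine mul_le_mul_of_nonneg_left ?_ hD.le
            apply Real.rpow_le_rpow_of_exponent_le hq1
            rw [hn]; linarith
    calc C1 * ((q : ℝ) ^ (m + 1) / (q : ℝ) ^ η + (q : ℝ) ^ m * (2 + Real.log (C1 * q)) ^ m) ≤
          C1 * ((q : ℝ) ^ ((((m + 1 : ℕ) : ℝ)) - η) + D * (q : ℝ) ^ ((((m + 1 : ℕ) : ℝ)) - η)) :=
          mul_le_mul_of_nonneg_left (add_le_add e1.le e2) hC1.le
      _ = C1 * (1 + D) * (q : ℝ) ^ ((((m + 1 : ℕ) : ℝ)) - η) := by ring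
      _ ≤ _ := mul_le_mul_of_nonneg_right (le_max_left _ _) (by positivity)
  · intro V B c hB hV hW hc
    set N : ℕ := ⌊(q : ℝ) ^ (1 / 2 + κ)⌋₊ with hN
    have hx0 : ∀ k ∈ Finset.Icc 1 N, ∀ W ∈ V, B = 0 → c k W = 0 := by
      intro k hk W hWV hB0
      have := hc k hk W hWV
      rw [hB0, zero_mul] at this
      exact norm_le_zero_iff.1 this
    rcases hB.eq_or_lt with hB0 | hBp
    · have hx : ∀ b, xval N V c (lam b) = 0 := by
        intro b
        rw [xval]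
        refine Finset.sum_eq_zero fun k hk => Finset.sum_eq_zero fun W hWV => ?_
        rw [hx0 k hk W hWV hB0.symm, zero_mul, zero_mul]
      simp only [hx, norm_zero, ne_eq, OfNat.ofNat_ne_zero, not_false_eq_true, zero_pow, mul_zero,
        Finset.sum_const_zero]
      have := unrm_nonneg (m + 1) N V c
      have hC : 0 < max (C1 * (1 + D)) C2 := lt_max_of_lt_right hC2
      positivity
    · set c' : ℕ → Wd → ℂ := fun k W => ((B⁻¹ : ℝ) : ℂ) * c k W with hc'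
      have hcc : c = fun k W => ((B : ℝ) : ℂ) * c' k W := by
        funext k W
        simp only [hc']
        rw [← mul_assoc, ← Complex.ofReal_mul, mul_inv_cancel₀ hBp.ne', Complex.ofReal_one, one_mul]
      have hcn : ∀ k ∈ Finset.Icc 1 N, ∀ W ∈ V, ‖c' k W‖ ≤ (k : ℝ) ^ (-(1 / 2) : ℝ) := by
        intro k hk W hWV
        simp only [hc']
        rw [norm_mul, Complex.norm_real, Real.norm_of_nonneg (inv_nonneg.2 hB)]
        calc B⁻¹ * ‖c k W‖ ≤ B⁻¹ * (B * (k : ℝ) ^ (-(1 / 2) : ℝ)) :=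
              mul_le_mul_of_nonneg_left (hc k hk W hWV) (inv_nonneg.2 hB)
          _ = _ := by rw [← mul_assoc, inv_mul_cancel₀ hBp.ne', one_mul]
      have h5 := h2 q ((le_max_right _ _).trans hq) β f lam hf hinj V c' hV hW hcn
      have h6 : ∑ b, (prp m q (Om (m + 1) ((q : ℝ) ^ η)) (f b)).toReal *
          ‖xval N V c' (lam b)‖ ^ 2 ≤ C2 * (q : ℝ) ^ (m + 1) *
            (unrm (m + 1) N V c' + (q : ℝ) ^ (-(1 / (8 * ((m : ℝ) + 1))))) := by
        have h7 := ENNReal.toReal_mono ENNReal.ofReal_ne_top h5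
        rw [ENNReal.toReal_ofReal (by
          have := unrm_nonneg (m + 1) N V c'
          positivity), ENNReal.toReal_sum] at h7
        · refine le_trans (le_of_eq ?_) h7
          refine Finset.sum_congr rfl fun b _ => ?_
          rw [ENNReal.toReal_mul, ENNReal.toReal_ofReal (by positivity), mul_comm]
        · intro b _
          exact ENNReal.mul_ne_top ENNReal.ofReal_ne_top (hpr b)
      have h8 : ∑ b, (prp m q (Om (m + 1) ((q : ℝ) ^ η)) (f b)).toReal *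
          ‖xval N V c (lam b)‖ ^ 2 = B ^ 2 * ∑ b, (prp m q (Om (m + 1) ((q : ℝ) ^ η)) (f b)).toReal *
          ‖xval N V c' (lam b)‖ ^ 2 := by
        rw [Finset.mul_sum]
        refine Finset.sum_congr rfl fun b _ => ?_
        have : xval N V c (lam b) = (B : ℂ) * xval N V c' (lam b) := by
          conv_lhs => rw [hcc]
          exact xval_smul N V c' _ _
        rw [this, norm_mul, Complex.norm_real, Real.norm_of_nonneg hB]
        ring
      have h9 : unrm (m + 1) N V c = B ^ 2 * unrm (m + 1) N V c' := by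
        conv_lhs => rw [hcc]
        rw [unrm_smul, Complex.norm_real, Real.norm_of_nonneg hB]
      rw [h8, h9, hqn]
      have h10 : (q : ℝ) ^ (-(1 / (8 * ((m : ℝ) + 1)))) ≤ (q : ℝ) ^ (-η) :=
        Real.rpow_le_rpow_of_exponent_le hq1 (by linarith)
      have hu := unrm_nonneg (m + 1) N V c'
      calc B ^ 2 * ∑ b, (prp m q (Om (m + 1) ((q : ℝ) ^ η)) (f b)).toReal *
            ‖xval N V c' (lam b)‖ ^ 2 ≤ B ^ 2 * (C2 * (q : ℝ) ^ (m + 1) *
            (unrm (m + 1) N V c' + (q : ℝ) ^ (-(1 / (8 * ((m : ℝ) + 1)))))) :=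
            mul_le_mul_of_nonneg_left h6 (by positivity)
        _ ≤ B ^ 2 * (max (C1 * (1 + D)) C2 * (q : ℝ) ^ (m + 1) *
            (unrm (m + 1) N V c' + (q : ℝ) ^ (-η))) := by
            refine mul_le_mul_of_nonneg_left ?_ (by positivity)
            refine mul_le_mul ?_ (add_le_add le_rfl h10) (by positivity) (by positivity)
            exact mul_le_mul_of_nonneg_right (le_max_right _ _) (by positivity)
        _ = _ := by ring


end

end Pool.Agent.SGB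

namespace Pool.Agent.SGB

alias part_B := part_B_pr

end Pool.Agent.SGB
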